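import Pool.Agent.LibCF24.QB

/-! Row QC (MEDIUM). Roots in free groups. QB (`cent_cyclic`).

`comm_of_pow`: `y = 1` trivial; `y ^ n ≠ 1` (torsion free: `LibBD85` or Mathlib `pow_eq_one_iff_left`, see `LibBD85.freeGroup_tf` in Pool/Agent/LibBD85/Main.lean), `cent_cyclic (y ^ n)`: `u` and `y` are powers of one element.
`comm_of_norm`: if `g * c * g⁻¹ = c ^ n` and `g⁻¹ * c * g = c ^ n'` then `c ^ (n n') = c`, so `n n' = 1` (`c ≠ 1`), `n = ±1`, `g ^ 2` commutes with `c`; if `g ≠ 1` then `comm_of_pow` (`Commute c (g ^ 2)` gives `Commute c g`).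
`root_exists`: `r` from `cent_cyclic g`: `g ∈ zpowers r`, `g = r ^ p`, `p ≠ 0`; if `u` commutes with `r` it commutes with `g`, so `u ∈ zpowers r`. `r = x y x⁻¹` with `y = mk (reduceCyclically r.toWord)` cyclically reduced
(`FreeGroup.reduceCyclically.conj_conjugator_reduceCyclically`, `isCyclicallyReduced`; `toWord (mk L) = L` for a reduced list `L`); `Root y` by conjugation.
`roots_fin`: `Set.Finite.induction_on`. New element `g ≠ 1`: `root_exists`; if `Incom y (y i)` and `Incom (y i) y` for all `i` add `y`. Otherwise `x' y ^ a x'⁻¹ = y_i ^ b`, `a ≠ 0` (then `b ≠ 0`), (or with the roles exchanged, the same up to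
conjugation): `x' y x'⁻¹` commutes with `y_i ^ b`, so with `y_i` (`comm_of_pow`), so it is `y_i ^ c`, `c ≠ 0`. -/

set_option autoImplicit false

noncomputable section

open Set

namespace Pool.Agent.LibCF24

theorem comm_of_pow {k : ℕ} (u y : Fr k) (n : ℤ) (hn : n ≠ 0) (h : Commute u (y ^ n)) : Commute u y := by
  by_cases hy : y = 1
  · rw [hy]
    exact Commute.one_right u
  have hyn : y ^ n ≠ 1 := by
    intro h0
    exact hy ((IsMulTorsionFree.zpow_eq_one_iff_left hn).mp h0)
  obtain ⟨r, hr⟩ := cent_cyclic (y ^ n) hyn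
  obtain ⟨a, ha⟩ := Subgroup.mem_zpowers_iff.mp ((hr u).mp h)
  obtain ⟨b, hb⟩ := Subgroup.mem_zpowers_iff.mp ((hr y).mp ((Commute.refl y).zpow_right n))
  rw [← ha, ← hb]
  exact (Commute.refl r).zpow_zpow a b

theorem comm_of_norm {k : ℕ} (g c : Fr k) (h : g * c * g⁻¹ ∈ Subgroup.zpowers c) (h' : g⁻¹ * c * g ∈ Subgroup.zpowers c) :
    Commute g c := by
  by_cases hc : c = 1
  · rw [hc]
    exact Commute.one_right g
  obtain ⟨n, hn⟩ := Subgroup.mem_zpowers_iff.mp h
  obtain ⟨n', hn'⟩ := Subgroup.mem_zpowers_iff.mp h'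
  have h1 : c ^ (n * n') = c := by
    rw [zpow_mul, hn, conj_zpow, hn']
    group
  have h2 : c ^ (n * n' - 1) = 1 := by
    rw [zpow_sub, h1, zpow_one, mul_inv_cancel]
  have h3 : n * n' - 1 = 0 := by
    by_contra h0
    exact hc ((IsMulTorsionFree.zpow_eq_one_iff_left h0).mp h2)
  have h4 : n * n' = 1 := by omega
  rcases Int.eq_one_or_neg_one_of_mul_eq_one h4 with h5 | h5
  · rw [h5, zpow_one] at hn
    have h6 : g * c = c * g := by
      conv_rhs => rw [hn]
      group
    exact h6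
  · rw [h5, zpow_neg, zpow_one] at hn
    have h6 : g * c⁻¹ * g⁻¹ = c := by
      have h7 : g * c⁻¹ * g⁻¹ = (g * c * g⁻¹)⁻¹ := by group
      rw [h7, ← hn, inv_inv]
    have h8 : c * g ^ (2 : ℤ) = g ^ (2 : ℤ) * c := by
      have h9 : g * g * c = g * (g * c * g⁻¹) * g⁻¹ * (g * g) := by
        simp only [mul_assoc, inv_mul_cancel_left, inv_mul_cancel, mul_one]
      rw [zpow_two, h9, ← hn, h6]
    exact (comm_of_pow c g 2 (by norm_num) h8).symm

theorem root_exists {k : ℕ} (g : Fr k) (hg : g ≠ 1) : ∃ (y x : Fr k) (p : ℤ), p ≠ 0 ∧ g = x * y ^ p * x⁻¹ ∧ Root y ∧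
    FreeGroup.IsCyclicallyReduced y.toWord := by
  obtain ⟨r, hr⟩ := cent_cyclic g hg
  obtain ⟨p, hp⟩ := Subgroup.mem_zpowers_iff.mp ((hr g).mp (Commute.refl g))
  have hp0 : p ≠ 0 := by
    intro h0
    rw [h0, zpow_zero] at hp
    exact hg hp.symm
  have hred : FreeGroup.IsReduced r.toWord := FreeGroup.isReduced_toWord
  have hcyc := FreeGroup.reduceCyclically.isCyclicallyReduced hred
  obtain ⟨y, hy⟩ : ∃ y : Fr k, y = FreeGroup.mk (FreeGroup.reduceCyclically r.toWord) := ⟨_, rfl⟩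
  obtain ⟨x, hx⟩ : ∃ x : Fr k, x = FreeGroup.mk (FreeGroup.reduceCyclically.conjugator r.toWord) :=
    ⟨_, rfl⟩
  have hrxy : r = x * y * x⁻¹ := by
    rw [hx, hy, FreeGroup.inv_mk, FreeGroup.mul_mk, FreeGroup.mul_mk,
      FreeGroup.reduceCyclically.conj_conjugator_reduceCyclically, FreeGroup.mk_toWord]
  have hyw : y.toWord = FreeGroup.reduceCyclically r.toWord := by
    rw [hy, FreeGroup.toWord_mk, hcyc.isReduced.reduce_eq]
  refine ⟨y, x, p, hp0, ?_, ⟨?_, ?_⟩, ?_⟩
  · rw [← hp, hrxy, conj_zpow]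
  · intro hy1
    rw [hy1, mul_one, mul_inv_cancel] at hrxy
    rw [hrxy, one_zpow] at hp
    exact hg hp.symm
  · intro u hu
    have h1 : Commute (x * u * x⁻¹) r := by
      rw [hrxy]
      have h2 : u * y = y * u := hu
      have h3 : x * u * x⁻¹ * (x * y * x⁻¹) = x * (u * y) * x⁻¹ := by group
      have h4 : x * y * x⁻¹ * (x * u * x⁻¹) = x * (y * u) * x⁻¹ := by group
      show x * u * x⁻¹ * (x * y * x⁻¹) = x * y * x⁻¹ * (x * u * x⁻¹)
      rw [h3, h4, h2]
    have h5 : Commute (x * u * x⁻¹) g := by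
      rw [← hp]
      exact h1.zpow_right p
    obtain ⟨m, hm⟩ := Subgroup.mem_zpowers_iff.mp ((hr _).mp h5)
    refine Subgroup.mem_zpowers_iff.mpr ⟨m, ?_⟩
    rw [hrxy, conj_zpow] at hm
    exact mul_left_cancel (mul_right_cancel hm)
  · rw [hyw]
    exact hcyc

private theorem QC_aux {k : ℕ} (y z x : Fr k) (hy : y ≠ 1) (hz : Root z) (a b : ℤ) (ha : a ≠ 0)
    (h : x * y ^ a * x⁻¹ = z ^ b) : ∃ c : ℤ, c ≠ 0 ∧ y = x⁻¹ * z ^ c * x := by
  have hb : b ≠ 0 := by
    intro hb0
    rw [hb0, zpow_zero, conj_eq_one_iff] at h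
    exact hy ((IsMulTorsionFree.zpow_eq_one_iff_left ha).mp h)
  have h1 : Commute (x * y * x⁻¹) (z ^ b) := by
    rw [← h, ← conj_zpow]
    exact (Commute.refl _).zpow_right a
  obtain ⟨c, hc⟩ := Subgroup.mem_zpowers_iff.mp (hz.2 _ (comm_of_pow _ z b hb h1))
  have h2 : y = x⁻¹ * z ^ c * x := by
    rw [hc]
    group
  refine ⟨c, ?_, h2⟩
  intro hc0
  rw [hc0, zpow_zero, mul_one, inv_mul_cancel] at h2
  exact hy h2

theorem roots_fin {k : ℕ} (S : Set (Fr k)) (hS : S.Finite) : ∃ (m : ℕ) (y : Fin m → Fr k), (∀ i, Root (y i)) ∧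
    (∀ i, FreeGroup.IsCyclicallyReduced (y i).toWord) ∧ (∀ i j, i ≠ j → Incom (y i) (y j)) ∧
    ∀ g ∈ S, g ≠ 1 → ∃ (i : Fin m) (x : Fr k) (p : ℤ), p ≠ 0 ∧ g = x * y i ^ p * x⁻¹ := by
  induction S, hS using Set.Finite.induction_on with
  | empty =>
    refine ⟨0, fun i => i.elim0, fun i => i.elim0, fun i => i.elim0, fun i => i.elim0, ?_⟩
    intro g hg
    exact absurd hg (Set.notMem_empty g)
  | @insert g S _ _ ih =>
    obtain ⟨m, y, hR, hC, hI, hS⟩ := ih
    by_cases hg : g = 1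
    · refine ⟨m, y, hR, hC, hI, ?_⟩
      intro g' hg' hg1
      rcases Set.mem_insert_iff.mp hg' with h | h
      · exact absurd (h.trans hg) hg1
      · exact hS g' h hg1
    obtain ⟨y0, x0, p0, hp0, hg0, hR0, hC0⟩ := root_exists g hg
    by_cases hin : ∀ i, Incom y0 (y i) ∧ Incom (y i) y0
    · refine ⟨m + 1, Fin.cons y0 y, ?_, ?_, ?_, ?_⟩
      · intro i
        refine Fin.cases ?_ ?_ i
        · rw [Fin.cons_zero]
          exact hR0
        · intro j
          rw [Fin.cons_succ]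
          exact hR j
      · intro i
        refine Fin.cases ?_ ?_ i
        · rw [Fin.cons_zero]
          exact hC0
        · intro j
          rw [Fin.cons_succ]
          exact hC j
      · intro i j
        refine Fin.cases ?_ ?_ i
        · refine Fin.cases ?_ ?_ j
          · intro h
            exact absurd rfl h
          · intro j' _
            rw [Fin.cons_zero, Fin.cons_succ]
            exact (hin j').1
        · intro i'
          refine Fin.cases ?_ ?_ j
          · intro _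
            rw [Fin.cons_zero, Fin.cons_succ]
            exact (hin i').2
          · intro j' h
            rw [Fin.cons_succ, Fin.cons_succ]
            exact hI i' j' (fun h' => h (by rw [h']))
      · intro g' hg' hg1
        rcases Set.mem_insert_iff.mp hg' with h | h
        · refine ⟨0, x0, p0, hp0, ?_⟩
          rw [Fin.cons_zero, h]
          exact hg0
        · obtain ⟨i, x, p, hp, hx⟩ := hS g' h hg1
          refine ⟨i.succ, x, p, hp, ?_⟩
          rw [Fin.cons_succ]
          exact hx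
    · have key : ∃ (i : Fin m) (x : Fr k) (c : ℤ), c ≠ 0 ∧ y0 = x⁻¹ * y i ^ c * x := by
        push Not at hin
        obtain ⟨i, hi⟩ := hin
        by_cases h1 : Incom y0 (y i)
        · have h2 := hi h1
          unfold Incom at h2
          push Not at h2
          obtain ⟨x, a, b, ha, hab⟩ := h2
          have hb : b ≠ 0 := by
            intro hb0
            rw [hb0, zpow_zero, conj_eq_one_iff] at hab
            exact (hR i).1 ((IsMulTorsionFree.zpow_eq_one_iff_left ha).mp hab)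
          have h3 : x⁻¹ * y0 ^ b * (x⁻¹)⁻¹ = y i ^ a := by
            rw [← hab]
            group
          obtain ⟨c, hc, hc'⟩ := QC_aux y0 (y i) x⁻¹ hR0.1 (hR i) b a hb h3
          exact ⟨i, x⁻¹, c, hc, hc'⟩
        · unfold Incom at h1
          push Not at h1
          obtain ⟨x, a, b, ha, hab⟩ := h1
          obtain ⟨c, hc, hc'⟩ := QC_aux y0 (y i) x hR0.1 (hR i) a b ha hab
          exact ⟨i, x, c, hc, hc'⟩
      obtain ⟨i, x, c, hc, hy0⟩ := key
      refine ⟨m, y, hR, hC, hI, ?_⟩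
      intro g' hg' hg1
      rcases Set.mem_insert_iff.mp hg' with h | h
      · refine ⟨i, x0 * x⁻¹, c * p0, mul_ne_zero hc hp0, ?_⟩
        have h5 : y0 = x⁻¹ * y i ^ c * (x⁻¹)⁻¹ := by rw [inv_inv]; exact hy0
        rw [h, hg0, h5, conj_zpow, ← zpow_mul, mul_inv_rev]
        group
      · exact hS g' h hg1

end Pool.Agent.LibCF24
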