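import Pool.Agent.LibCF24.V4

/-! Row V5 (MEDIUM). The space of `Fr k × ℤ` from weak data. V4 (`vertex_space`), QC, QB, V1 may be cited as stated.

`S' = Prod.fst '' S`. `Z = {g | g = 1 ∨ ∃ s ∈ S', s ≠ 1 ∧ ∃ x a b, a ≠ 0 ∧ b ≠ 0 ∧ x * g ^ a * x⁻¹ = s ^ b}` (integers `a`, `b`); `Z` is closed under conjugation and `g ∈ Z ↔ g ^ p ∈ Z` for `p ≠ 0`. `N' g = N g + (if g ∈ Z then 0 else h g ^ 2)`:
class function, `N' (g ^ p) = p² N' g`, positive off 1. `C₀ = 1 + ∑_{s ∈ S', s ≠ 1} h s ² / (4 N s)` (sum over the finite set). `L (g, n) = N' g + n h g + n² C`, `C ≥ C₀`.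
`h g ² < 4 N' g C` for `g ≠ 1`: `g ∈ Z`: `a² N g = b² N s`, `a h g = b h s`, so `h g ² / N g = h s ² / N s < 4 C`; `g ∉ Z`: `h g ² < N' g`... `≤ 4 N' g C` since `C ≥ 1`.
`QLength L`: `pos`: `N' g > 0` and `4 N' g C > h g ²` (`g ≠ 1`), `n² C > 0` (`g = 1`, `n ≠ 0`). `conj`, `pow`: clear (`h` additive). `add` for `s = (u, m)`, `g = (g₁, n)`, `g' = (g₂, n')`: the `h` and `C` terms are bilinear; the `N'` terms: if `u = 1` both sides
vanish (`N' 1 = 0`); if `u ≠ 1` then `u`, `g₁`, `g₂` are powers of one element `r` (`cent_cyclic`) and `N' (r ^ i) = i² N' r`. `hd` of `vertex_space` is the inequality above.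
Finally `L s = N s.1 + h s.1 + C` for `s ∈ S`, `s.2 = ofAdd 1` (`s.1 ∈ Z`), `L c = N c.1` for `c.2 = 1`, and `L (c * s) = N (c.1 * s.1) + h (c.1 * s.1) + C`: `c.1 ≠ 1` and `s.1` commute, so they are powers `r ^ a`, `r ^ b`, `(c.1 * s.1) ^ a = c.1 ^ (a + b)`:
`c.1 * s.1 ∈ Z`. -/

set_option autoImplicit false

noncomputable section

open Set
open LibBD85 (QLength IsCAT0)

namespace Pool.Agent.LibCF24

/-- the elements commensurable up to conjugation with an element of `T` -/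
private def V5_Z {k : ℕ} (T : Set (Fr k)) : Set (Fr k) :=
  {g | g = 1 ∨ ∃ s ∈ T, s ≠ 1 ∧ ∃ (x : Fr k) (a b : ℤ), a ≠ 0 ∧ b ≠ 0 ∧ x * g ^ a * x⁻¹ = s ^ b}

private theorem V5_Z_conj {k : ℕ} {T : Set (Fr k)} {g : Fr k} (y : Fr k) (hg : g ∈ V5_Z T) :
    y * g * y⁻¹ ∈ V5_Z T := by
  rcases hg with hg | ⟨s, hs, hs1, x, a, b, ha, hb, hx⟩
  · left
    rw [hg, mul_one, mul_inv_cancel]
  · right
    refine ⟨s, hs, hs1, x * y⁻¹, a, b, ha, hb, ?_⟩
    rw [conj_zpow, ← hx]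
    group

private theorem V5_Z_conj_iff {k : ℕ} {T : Set (Fr k)} {g : Fr k} (y : Fr k) :
    y * g * y⁻¹ ∈ V5_Z T ↔ g ∈ V5_Z T := by
  constructor
  · intro h
    have h1 := V5_Z_conj y⁻¹ h
    have h2 : y⁻¹ * (y * g * y⁻¹) * y⁻¹⁻¹ = g := by group
    rwa [h2] at h1
  · exact V5_Z_conj y

private theorem V5_Z_pow {k : ℕ} {T : Set (Fr k)} {g : Fr k} {p : ℤ} (hp : p ≠ 0) :
    g ^ p ∈ V5_Z T ↔ g ∈ V5_Z T := by
  constructor
  · rintro (hg | ⟨s, hs, hs1, x, a, b, ha, hb, hx⟩)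
    · left
      exact (IsMulTorsionFree.zpow_eq_one_iff_left hp).mp hg
    · right
      refine ⟨s, hs, hs1, x, p * a, b, mul_ne_zero hp ha, hb, ?_⟩
      rw [zpow_mul]
      exact hx
  · rintro (hg | ⟨s, hs, hs1, x, a, b, ha, hb, hx⟩)
    · left
      rw [hg, one_zpow]
    · right
      refine ⟨s, hs, hs1, x, a, b * p, ha, mul_ne_zero hb hp, ?_⟩
      rw [zpow_mul, ← hx, conj_zpow, ← zpow_mul, ← zpow_mul, mul_comm p a]

private theorem V5_Z_mem {k : ℕ} {T : Set (Fr k)} {g : Fr k} (hg : g ∈ T) : g ∈ V5_Z T := by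
  by_cases h : g = 1
  · exact Or.inl h
  · right
    refine ⟨g, hg, h, 1, 1, 1, one_ne_zero, one_ne_zero, ?_⟩
    group

section

variable {k : ℕ} {N h : Fr k → ℝ} (hN0 : ∀ g, g ≠ 1 → 0 < N g)
  (hN1 : ∀ g x, N (x * g * x⁻¹) = N g)
  (hN2 : ∀ g (p : ℤ), N (g ^ p) = p ^ 2 * N g) (hh : ∀ g g', h (g * g') = h g + h g')

include hN2 in
private theorem V5_N_one : N 1 = 0 := by
  have h1 := hN2 1 0
  rw [zpow_zero] at h1
  rw [h1]
  push_cast
  ring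

include hh in
private theorem V5_h_one : h 1 = 0 := by
  have h1 := hh 1 1
  rw [one_mul] at h1
  linarith

include hh in
private theorem V5_h_inv (g : Fr k) : h g⁻¹ = -h g := by
  have h1 := hh g g⁻¹
  rw [mul_inv_cancel, V5_h_one hh] at h1
  linarith

include hh in
private theorem V5_h_pow (g : Fr k) (p : ℤ) : h (g ^ p) = p * h g := by
  induction p using Int.induction_on with
  | zero =>
    rw [zpow_zero, V5_h_one hh]
    push_cast
    ring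
  | succ n ih =>
    rw [zpow_add_one, hh, ih]
    push_cast
    ring
  | pred n ih =>
    rw [zpow_sub_one, hh, ih, V5_h_inv hh]
    push_cast
    ring

include hh in
private theorem V5_h_conj (g x : Fr k) : h (x * g * x⁻¹) = h g := by
  rw [hh, hh, V5_h_inv hh]
  ring

open Classical in
/-- the corrected function -/
private def V5_N' (N h : Fr k → ℝ) (T : Set (Fr k)) (g : Fr k) : ℝ :=
  N g + if g ∈ V5_Z T then 0 else h g ^ 2

private theorem V5_N'_mem {T : Set (Fr k)} {g : Fr k} (hg : g ∈ V5_Z T) : V5_N' N h T g = N g := by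
  unfold V5_N'
  rw [if_pos hg, add_zero]

private theorem V5_N'_not {T : Set (Fr k)} {g : Fr k} (hg : g ∉ V5_Z T) :
    V5_N' N h T g = N g + h g ^ 2 := by
  unfold V5_N'
  rw [if_neg hg]

include hN2 in
private theorem V5_N'_one (T : Set (Fr k)) : V5_N' N h T 1 = 0 := by
  rw [V5_N'_mem (Or.inl rfl), V5_N_one hN2]

include hN0 in
private theorem V5_N'_pos (T : Set (Fr k)) {g : Fr k} (hg : g ≠ 1) : 0 < V5_N' N h T g := by
  have h1 := hN0 g hg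
  by_cases hZ : g ∈ V5_Z T
  · rw [V5_N'_mem hZ]
    exact h1
  · rw [V5_N'_not hZ]
    positivity

include hN1 hh in
private theorem V5_N'_conj (T : Set (Fr k)) (g x : Fr k) :
    V5_N' N h T (x * g * x⁻¹) = V5_N' N h T g := by
  by_cases hZ : g ∈ V5_Z T
  · rw [V5_N'_mem hZ, V5_N'_mem ((V5_Z_conj_iff x).2 hZ), hN1]
  · rw [V5_N'_not hZ, V5_N'_not (fun h => hZ ((V5_Z_conj_iff x).1 h)), hN1, V5_h_conj hh]

include hN2 hh in
private theorem V5_N'_pow (T : Set (Fr k)) (g : Fr k) (p : ℤ) :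
    V5_N' N h T (g ^ p) = (p : ℝ) ^ 2 * V5_N' N h T g := by
  by_cases hp : p = 0
  · rw [hp, zpow_zero, V5_N'_one hN2]
    push_cast
    ring
  · by_cases hZ : g ∈ V5_Z T
    · rw [V5_N'_mem hZ, V5_N'_mem ((V5_Z_pow hp).2 hZ), hN2]
    · rw [V5_N'_not hZ, V5_N'_not (fun h => hZ ((V5_Z_pow hp).1 h)), hN2, V5_h_pow hh]
      ring

include hN0 hN1 hN2 hh in
private theorem V5_key (T : Set (Fr k)) {C : ℝ} (hC1 : 1 ≤ C)
    (hC : ∀ s ∈ T, s ≠ 1 → h s ^ 2 / (4 * N s) < C) {g : Fr k} (hg : g ≠ 1) :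
    h g ^ 2 < 4 * V5_N' N h T g * C := by
  have h1 := hN0 g hg
  by_cases hZ : g ∈ V5_Z T
  · rw [V5_N'_mem hZ]
    rcases hZ with hg1 | ⟨s, hs, hs1, x, a, b, ha, hb, hx⟩
    · exact absurd hg1 hg
    · have hNs := hN0 s hs1
      have e1 : (a : ℝ) ^ 2 * N g = (b : ℝ) ^ 2 * N s := by
        rw [← hN2, ← hN2, ← hx, hN1]
      have e2 : (a : ℝ) * h g = b * h s := by
        rw [← V5_h_pow hh, ← V5_h_pow hh, ← hx, V5_h_conj hh]
      have h2 := hC s hs hs1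
      rw [div_lt_iff₀ (by positivity)] at h2
      have ha' : (0 : ℝ) < (a : ℝ) ^ 2 := by
        have : (a : ℝ) ≠ 0 := by exact_mod_cast ha
        positivity
      have hb' : (0 : ℝ) < (b : ℝ) ^ 2 := by
        have : (b : ℝ) ≠ 0 := by exact_mod_cast hb
        positivity
      have h3 : (b : ℝ) ^ 2 * h s ^ 2 < (b : ℝ) ^ 2 * (C * (4 * N s)) :=
        mul_lt_mul_of_pos_left h2 hb'
      have h4 : (a : ℝ) ^ 2 * h g ^ 2 = (b : ℝ) ^ 2 * h s ^ 2 := by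
        have : ((a : ℝ) * h g) ^ 2 = (b * h s) ^ 2 := by rw [e2]
        nlinarith [this]
      have h5 : (a : ℝ) ^ 2 * h g ^ 2 < (a : ℝ) ^ 2 * (4 * N g * C) := by
        have h6 : (b : ℝ) ^ 2 * (C * (4 * N s)) = (a : ℝ) ^ 2 * (4 * N g * C) := by
          linear_combination (-4 * C) * e1
        rw [h4, ← h6]
        exact h3
      exact lt_of_mul_lt_mul_left h5 ha'.le
  · rw [V5_N'_not hZ]
    have h2 : 0 ≤ h g ^ 2 := sq_nonneg _
    nlinarith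

/-- the length function -/
private def V5_L (N h : Fr k → ℝ) (T : Set (Fr k)) (C : ℝ) (g : Fr k × Multiplicative ℤ) : ℝ :=
  V5_N' N h T g.1 + ((Multiplicative.toAdd g.2 : ℤ) : ℝ) * h g.1 +
    ((Multiplicative.toAdd g.2 : ℤ) : ℝ) ^ 2 * C

include hN0 hN1 hN2 hh in
private theorem V5_QLength (T : Set (Fr k)) {C : ℝ} (hC1 : 1 ≤ C)
    (hC : ∀ s ∈ T, s ≠ 1 → h s ^ 2 / (4 * N s) < C) : QLength (V5_L N h T C) := by
  refine ⟨?_, ?_, ?_, ?_⟩
  · rintro ⟨g, n⟩ hgn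
    show 0 < V5_N' N h T g + ((Multiplicative.toAdd n : ℤ) : ℝ) * h g +
      ((Multiplicative.toAdd n : ℤ) : ℝ) ^ 2 * C
    by_cases hg : g = 1
    · have hn : Multiplicative.toAdd n ≠ 0 := by
        intro h0
        apply hgn
        rw [hg]
        exact Prod.ext rfl (Multiplicative.toAdd.injective h0)
      rw [hg, V5_N'_one hN2, V5_h_one hh, mul_zero, zero_add, zero_add]
      have : ((Multiplicative.toAdd n : ℤ) : ℝ) ≠ 0 := by exact_mod_cast hn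
      positivity
    · have h1 := V5_key hN0 hN1 hN2 hh T hC1 hC hg
      set m : ℝ := ((Multiplicative.toAdd n : ℤ) : ℝ)
      have h2 : 0 < 4 * C * (V5_N' N h T g + m * h g + m ^ 2 * C) := by
        have h3 : 4 * C * (V5_N' N h T g + m * h g + m ^ 2 * C) =
            (2 * C * m + h g) ^ 2 + (4 * V5_N' N h T g * C - h g ^ 2) := by ring
        rw [h3]
        have h4 : 0 ≤ (2 * C * m + h g) ^ 2 := sq_nonneg _
        linarith
      have h5 : (0 : ℝ) ≤ 4 * C := by linarith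
      exact (pos_iff_pos_of_mul_pos h2).1 (by linarith)
  · rintro ⟨g, n⟩ ⟨y, m⟩
    show V5_N' N h T (y * g * y⁻¹) + ((Multiplicative.toAdd (m * n * m⁻¹) : ℤ) : ℝ) * h (y * g * y⁻¹) +
      ((Multiplicative.toAdd (m * n * m⁻¹) : ℤ) : ℝ) ^ 2 * C = V5_N' N h T g +
        ((Multiplicative.toAdd n : ℤ) : ℝ) * h g + ((Multiplicative.toAdd n : ℤ) : ℝ) ^ 2 * C
    have h1 : m * n * m⁻¹ = n := by
      rw [mul_comm m n, mul_inv_cancel_right]
    rw [V5_N'_conj hN1 hh, V5_h_conj hh, h1]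
  · rintro ⟨g, n⟩ j
    show V5_N' N h T (g ^ j) + ((Multiplicative.toAdd (n ^ j) : ℤ) : ℝ) * h (g ^ j) +
      ((Multiplicative.toAdd (n ^ j) : ℤ) : ℝ) ^ 2 * C = (j : ℝ) ^ 2 * (V5_N' N h T g +
        ((Multiplicative.toAdd n : ℤ) : ℝ) * h g + ((Multiplicative.toAdd n : ℤ) : ℝ) ^ 2 * C)
    have h1 := V5_N'_pow hN2 hh T g (j : ℤ)
    have h2 := V5_h_pow hh g (j : ℤ)
    rw [zpow_natCast] at h1 h2
    rw [h1, h2, toAdd_pow, nsmul_eq_mul]
    push_cast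
    ring
  · rintro ⟨u, m⟩ ⟨g₁, n₁⟩ ⟨g₂, n₂⟩ hc₁ hc₂
    have hc₁' : Commute g₁ u := by
      have := congrArg Prod.fst hc₁.eq
      exact this
    have hc₂' : Commute g₂ u := by
      have := congrArg Prod.fst hc₂.eq
      exact this
    have hNN : V5_N' N h T (g₁ * g₂ * u) - V5_N' N h T (g₁ * g₂) - V5_N' N h T u =
        (V5_N' N h T (g₁ * u) - V5_N' N h T g₁ - V5_N' N h T u) +
          (V5_N' N h T (g₂ * u) - V5_N' N h T g₂ - V5_N' N h T u) := by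
      by_cases hu : u = 1
      · rw [hu, mul_one, mul_one, mul_one, V5_N'_one hN2]
        ring
      · obtain ⟨r, hr⟩ := cent_cyclic u hu
        obtain ⟨a, ha⟩ := Subgroup.mem_zpowers_iff.mp ((hr g₁).mp hc₁')
        obtain ⟨b, hb⟩ := Subgroup.mem_zpowers_iff.mp ((hr g₂).mp hc₂')
        obtain ⟨c, hc⟩ := Subgroup.mem_zpowers_iff.mp ((hr u).mp (Commute.refl u))
        have hp := V5_N'_pow hN2 hh T r
        rw [← ha, ← hb, ← hc, ← zpow_add, ← zpow_add, ← zpow_add, ← zpow_add, hp, hp, hp, hp, hp, hp, hp]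
        push_cast
        ring
    show (V5_N' N h T (g₁ * g₂ * u) + ((Multiplicative.toAdd (n₁ * n₂ * m) : ℤ) : ℝ) * h (g₁ * g₂ * u) +
        ((Multiplicative.toAdd (n₁ * n₂ * m) : ℤ) : ℝ) ^ 2 * C) -
      (V5_N' N h T (g₁ * g₂) + ((Multiplicative.toAdd (n₁ * n₂) : ℤ) : ℝ) * h (g₁ * g₂) +
        ((Multiplicative.toAdd (n₁ * n₂) : ℤ) : ℝ) ^ 2 * C) -
      (V5_N' N h T u + ((Multiplicative.toAdd m : ℤ) : ℝ) * h u +
        ((Multiplicative.toAdd m : ℤ) : ℝ) ^ 2 * C) =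
      ((V5_N' N h T (g₁ * u) + ((Multiplicative.toAdd (n₁ * m) : ℤ) : ℝ) * h (g₁ * u) +
        ((Multiplicative.toAdd (n₁ * m) : ℤ) : ℝ) ^ 2 * C) -
      (V5_N' N h T g₁ + ((Multiplicative.toAdd n₁ : ℤ) : ℝ) * h g₁ +
        ((Multiplicative.toAdd n₁ : ℤ) : ℝ) ^ 2 * C) -
      (V5_N' N h T u + ((Multiplicative.toAdd m : ℤ) : ℝ) * h u +
        ((Multiplicative.toAdd m : ℤ) : ℝ) ^ 2 * C)) +
      ((V5_N' N h T (g₂ * u) + ((Multiplicative.toAdd (n₂ * m) : ℤ) : ℝ) * h (g₂ * u) +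
        ((Multiplicative.toAdd (n₂ * m) : ℤ) : ℝ) ^ 2 * C) -
      (V5_N' N h T g₂ + ((Multiplicative.toAdd n₂ : ℤ) : ℝ) * h g₂ +
        ((Multiplicative.toAdd n₂ : ℤ) : ℝ) ^ 2 * C) -
      (V5_N' N h T u + ((Multiplicative.toAdd m : ℤ) : ℝ) * h u +
        ((Multiplicative.toAdd m : ℤ) : ℝ) ^ 2 * C))
    simp only [toAdd_mul, hh]
    push_cast
    linear_combination hNN

end

theorem vertex_weak {k : ℕ} (N h : Fr k → ℝ) (hN0 : ∀ g, g ≠ 1 → 0 < N g) (hN1 : ∀ g x, N (x * g * x⁻¹) = N g)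
    (hN2 : ∀ g (p : ℤ), N (g ^ p) = p ^ 2 * N g) (hh : ∀ g g', h (g * g') = h g + h g')
    (S : Set (Fr k × Multiplicative ℤ)) (hS : S.Finite) :
    ∃ C₀ : ℝ, ∀ C ≥ C₀, ∃ (X : Type) (_ : MetricSpace X) (_ : MulAction (Fr k × Multiplicative ℤ) X), IsCAT0 X ∧ Nonempty X ∧
      (∀ (g : Fr k × Multiplicative ℤ) (x x' : X), dist (g • x) (g • x') = dist x x') ∧
      PA (Fr k × Multiplicative ℤ) X ∧ CA (Fr k × Multiplicative ℤ) X ∧
      (∀ s ∈ S, s.2 = Multiplicative.ofAdd 1 →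
        ∃ ℓ : ℝ → X, Isometry ℓ ∧ ∀ u, s • ℓ u = ℓ (u + √(N s.1 + h s.1 + C))) ∧
      (∀ c ∈ S, ∀ s ∈ S, c.2 = 1 → c ≠ 1 → s.2 = Multiplicative.ofAdd 1 → Commute c s →
        ∀ γ ζ : Ed 2, ‖γ‖ ^ 2 = N c.1 → ‖ζ‖ ^ 2 = N s.1 + h s.1 + C → ‖γ + ζ‖ ^ 2 = N (c.1 * s.1) + h (c.1 * s.1) + C →
          ∃ P : Ed 2 → X, Isometry P ∧ (∀ u, c • P u = P (u + γ)) ∧ ∀ u, s • P u = P (u + ζ)) := by
  classical
  have hT : (Prod.fst '' S).Finite := hS.image _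
  refine ⟨1 + ∑ s ∈ hT.toFinset, |h s ^ 2 / (4 * N s)| + 1, fun C hC0 => ?_⟩
  have hsum0 : 0 ≤ ∑ s ∈ hT.toFinset, |h s ^ 2 / (4 * N s)| :=
    Finset.sum_nonneg (fun s _ => abs_nonneg _)
  have hC1 : 1 ≤ C := by linarith
  have hC : ∀ s ∈ Prod.fst '' S, s ≠ 1 → h s ^ 2 / (4 * N s) < C := by
    intro s hs _
    have h1 : |h s ^ 2 / (4 * N s)| ≤ ∑ s ∈ hT.toFinset, |h s ^ 2 / (4 * N s)| :=
      Finset.single_le_sum (f := fun s => |h s ^ 2 / (4 * N s)|) (fun s _ => abs_nonneg _)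
        (hT.mem_toFinset.2 hs)
    have h2 := le_abs_self (h s ^ 2 / (4 * N s))
    linarith
  have hQ := V5_QLength hN0 hN1 hN2 hh (Prod.fst '' S) hC1 hC
  have hd : ∀ g : Fr k, g ≠ 1 →
      (V5_L N h (Prod.fst '' S) C (g, Multiplicative.ofAdd 1) - V5_L N h (Prod.fst '' S) C (g, 1) -
        V5_L N h (Prod.fst '' S) C (1, Multiplicative.ofAdd 1)) ^ 2 <
      4 * V5_L N h (Prod.fst '' S) C (g, 1) * V5_L N h (Prod.fst '' S) C (1, Multiplicative.ofAdd 1) := by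
    intro g hg
    have h1 := V5_key hN0 hN1 hN2 hh (Prod.fst '' S) hC1 hC hg
    have e1 : V5_L N h (Prod.fst '' S) C (g, Multiplicative.ofAdd 1) =
        V5_N' N h (Prod.fst '' S) g + h g + C := by
      unfold V5_L
      rw [toAdd_ofAdd]
      push_cast
      ring
    have e2 : V5_L N h (Prod.fst '' S) C (g, 1) = V5_N' N h (Prod.fst '' S) g := by
      unfold V5_L
      rw [toAdd_one]
      push_cast
      ring
    have e3 : V5_L N h (Prod.fst '' S) C (1, Multiplicative.ofAdd 1) = C := by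
      unfold V5_L
      rw [toAdd_ofAdd, V5_N'_one hN2, V5_h_one hh]
      push_cast
      ring
    rw [e1, e2, e3]
    have e4 : V5_N' N h (Prod.fst '' S) g + h g + C - V5_N' N h (Prod.fst '' S) g - C = h g := by ring
    rw [e4]
    exact h1
  obtain ⟨X, mX, aX, h1, h2, h3, h4, h5, h6, h7⟩ := vertex_space (V5_L N h (Prod.fst '' S) C) hQ hd S hS
  have hLs : ∀ s : Fr k × Multiplicative ℤ, s.1 ∈ V5_Z (Prod.fst '' S) → s.2 = Multiplicative.ofAdd 1 →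
      V5_L N h (Prod.fst '' S) C s = N s.1 + h s.1 + C := by
    intro s hs hs2
    unfold V5_L
    rw [hs2, toAdd_ofAdd, V5_N'_mem hs]
    push_cast
    ring
  refine ⟨X, mX, aX, h1, h2, h3, h4, h5, ?_, ?_⟩
  · intro s hs hs2
    obtain ⟨ℓ, hℓ, hℓ'⟩ := h6 s hs hs2
    refine ⟨ℓ, hℓ, ?_⟩
    rw [← hLs s (V5_Z_mem ⟨s, hs, rfl⟩) hs2]
    exact hℓ'
  · intro c hc s hs hc2 hc1 hs2 hcs γ ζ hγ hζ hγζ
    have hcZ : c.1 ∈ V5_Z (Prod.fst '' S) := V5_Z_mem ⟨c, hc, rfl⟩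
    have hsZ : s.1 ∈ V5_Z (Prod.fst '' S) := V5_Z_mem ⟨s, hs, rfl⟩
    have hLc : V5_L N h (Prod.fst '' S) C c = N c.1 := by
      unfold V5_L
      rw [hc2, toAdd_one, V5_N'_mem hcZ]
      push_cast
      ring
    have hc1' : c.1 ≠ 1 := fun h0 => hc1 (Prod.ext h0 hc2)
    have hcsZ : (c * s).1 ∈ V5_Z (Prod.fst '' S) := by
      show c.1 * s.1 ∈ V5_Z (Prod.fst '' S)
      have hcomm : Commute s.1 c.1 := by
        have := congrArg Prod.fst hcs.eq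
        exact this.symm
      obtain ⟨r, hr⟩ := cent_cyclic c.1 hc1'
      obtain ⟨a, ha⟩ := Subgroup.mem_zpowers_iff.mp ((hr c.1).mp (Commute.refl _))
      obtain ⟨b, hb⟩ := Subgroup.mem_zpowers_iff.mp ((hr s.1).mp hcomm)
      have ha0 : a ≠ 0 := by
        intro h0
        rw [h0, zpow_zero] at ha
        exact hc1' ha.symm
      by_cases hab : a + b = 0
      · left
        rw [← ha, ← hb, ← zpow_add, hab, zpow_zero]
      · right
        refine ⟨c.1, ⟨c, hc, rfl⟩, hc1', 1, a, a + b, ha0, hab, ?_⟩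
        rw [one_mul, inv_one, mul_one, ← ha, ← hb, ← zpow_add, ← zpow_mul, ← zpow_mul, mul_comm]
    have hcs2 : (c * s).2 = Multiplicative.ofAdd 1 := by
      show c.2 * s.2 = _
      rw [hc2, one_mul, hs2]
    have hLcs := hLs (c * s) hcsZ hcs2
    refine h7 c hc s hs hc2 hc1 hs2 hcs γ ζ ?_ ?_ ?_
    · rw [hLc]
      exact hγ
    · rw [hLs s hsZ hs2]
      exact hζ
    · rw [hLcs]
      exact hγζ

end Pool.Agent.LibCF24
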