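import Pool.Agent.LibCF24.BDefs
import Pool.Agent.LibCF24.V5
import Pool.Agent.LibCF24.QC

/-! Row B1 (MEDIUM). Vertex groups. BDefs, V5 (`vertex_weak`), QC (`comm_of_norm`).

`split`: `Φ g = (ψ ⟨g z^(-e g), _⟩, e g)`, inverse `(x, n) ↦ (ψ⁻¹ x) z^n`; homomorphism because `z` is central in `H`. `Φ g = (ψ g, 1)` for `g ∈ ker e`.
`vertex_data`: `z`, `k`, `ψ` from `hv`; `N x = L (ψ⁻¹ x)`, `h x = L (ψ⁻¹ x * z) - L (ψ⁻¹ x) - L z` (additive: `hL.add` with `s = z`); `S' = Φ '' {g : H | (g : G) ∈ S}` finite; `C₀ = C₀' - L z` with `C₀'` from `vertex_weak`, `C' = C + L z`.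
The action of `H` on `X`: `MulAction.compHom` along `Φ`. For `s ∈ H`, `e s = ofAdd 1`: `s = ψ⁻¹(x) z`, `x = (Φ s).1`, `N x + h x + C' = L s + C`. `PA`, `CA`: transport along the bijection `Φ`.
`edge_gen`: `c` = generator of the cyclic group `K ⊓ ker e`; `g ∈ K`: `g z^(-e g) ∈ K ⊓ ker e`. `Commute c z`: let `z'` be the central element of `H`, `g = z z'⁻¹ ∈ H ⊓ ker e`; `g c g⁻¹ = z c z⁻¹ ∈ K ⊓ ker e = zpowers c` and `g⁻¹ c g ∈ zpowers c`; transport to `Fr k` by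
`ψ`, `comm_of_norm`: `g` and `c` commute. -/

set_option autoImplicit false

noncomputable section

open Set
open LibBD85 (QLength IsCAT0)

namespace Pool.Agent.LibCF24

variable {G : Type} [Group G]

private theorem B1_ezpow (e : G →* Multiplicative ℤ) (z : G) (hez : e z = Multiplicative.ofAdd 1) (n : ℤ) :
    e (z ^ n) = Multiplicative.ofAdd n := by
  rw [map_zpow, hez, ← ofAdd_zsmul, smul_eq_mul, mul_one]

private theorem B1_ker (e : G →* Multiplicative ℤ) (z : G) (hez : e z = Multiplicative.ofAdd 1) (g : G) :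
    e (g * z ^ (-(Multiplicative.toAdd (e g)))) = 1 := by
  rw [map_mul, B1_ezpow e z hez, ofAdd_neg, ofAdd_toAdd, mul_inv_cancel]

private theorem B1_mem (e : G →* Multiplicative ℤ) (H : Subgroup G) (z : G) (hz : z ∈ H)
    (hez : e z = Multiplicative.ofAdd 1) (g : G) (hg : g ∈ H) :
    g * z ^ (-(Multiplicative.toAdd (e g))) ∈ H ⊓ e.ker :=
  ⟨H.mul_mem hg (H.zpow_mem hz _), B1_ker e z hez g⟩

private def B1_pi (e : G →* Multiplicative ℤ) (H : Subgroup G) (z : G) (hz : z ∈ H)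
    (hez : e z = Multiplicative.ofAdd 1) (hc : ∀ g ∈ H, Commute g z) : H →* ↥(H ⊓ e.ker) where
  toFun g := ⟨g * z ^ (-(Multiplicative.toAdd (e g))), B1_mem e H z hz hez g g.2⟩
  map_one' := by
    apply Subtype.ext
    show ((1 : H) : G) * z ^ (-(Multiplicative.toAdd (e ((1 : H) : G)))) = 1
    rw [OneMemClass.coe_one, map_one, toAdd_one, neg_zero, zpow_zero, mul_one]
  map_mul' g g' := by
    apply Subtype.ext
    show ((g * g' : H) : G) * z ^ (-(Multiplicative.toAdd (e ((g * g' : H) : G)))) =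
      (g : G) * z ^ (-(Multiplicative.toAdd (e g))) * ((g' : G) * z ^ (-(Multiplicative.toAdd (e g'))))
    have h1 : Commute (g' : G) (z ^ (-(Multiplicative.toAdd (e (g : G))))) := (hc g' g'.2).zpow_right _
    rw [MulMemClass.coe_mul, map_mul, toAdd_mul, neg_add, zpow_add, mul_assoc, mul_assoc,
      ← mul_assoc (z ^ _) (g' : G), ← h1.eq, mul_assoc]

theorem split (e : G →* Multiplicative ℤ) (H : Subgroup G) (z : G) (hz : z ∈ H) (hez : e z = Multiplicative.ofAdd 1)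
    (hc : ∀ g ∈ H, Commute g z) {k : ℕ} (ψ : ↥(H ⊓ e.ker) ≃* Fr k) :
    ∃ Φ : H ≃* Fr k × Multiplicative ℤ, (∀ g : H, (Φ g).2 = e g) ∧
      ∀ g : H, ((ψ.symm (Φ g).1 : ↥(H ⊓ e.ker)) : G) * z ^ (Multiplicative.toAdd (e g)) = g := by
  have hπ : ∀ g : H, ((B1_pi e H z hz hez hc g : ↥(H ⊓ e.ker)) : G) =
      g * z ^ (-(Multiplicative.toAdd (e (g : G)))) := fun _ => rfl
  have hinj : Function.Injective
      ((ψ.toMonoidHom.comp (B1_pi e H z hz hez hc)).prod (e.comp H.subtype)) := by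
    intro g g' hgg
    have h1 : ψ (B1_pi e H z hz hez hc g) = ψ (B1_pi e H z hz hez hc g') := congrArg Prod.fst hgg
    have h2 : e (g : G) = e (g' : G) := congrArg Prod.snd hgg
    have h3 := congrArg (Subtype.val) (ψ.injective h1)
    rw [hπ, hπ, h2] at h3
    exact Subtype.ext (mul_right_cancel h3)
  have hsurj : Function.Surjective
      ((ψ.toMonoidHom.comp (B1_pi e H z hz hez hc)).prod (e.comp H.subtype)) := by
    rintro ⟨x, m⟩
    have hxm : ((ψ.symm x : ↥(H ⊓ e.ker)) : G) ∈ H := (ψ.symm x).2.1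
    have hxe : e ((ψ.symm x : ↥(H ⊓ e.ker)) : G) = 1 := (ψ.symm x).2.2
    refine ⟨⟨((ψ.symm x : ↥(H ⊓ e.ker)) : G) * z ^ (Multiplicative.toAdd m),
      H.mul_mem hxm (H.zpow_mem hz _)⟩, ?_⟩
    have he : e (((ψ.symm x : ↥(H ⊓ e.ker)) : G) * z ^ (Multiplicative.toAdd m)) = m := by
      rw [map_mul, hxe, one_mul, B1_ezpow e z hez, ofAdd_toAdd]
    refine Prod.ext ?_ he
    show ψ (B1_pi e H z hz hez hc _) = x
    have : B1_pi e H z hz hez hc ⟨((ψ.symm x : ↥(H ⊓ e.ker)) : G) * z ^ (Multiplicative.toAdd m),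
      H.mul_mem hxm (H.zpow_mem hz _)⟩ = ψ.symm x := by
      apply Subtype.ext
      rw [hπ, he, mul_assoc, ← zpow_add, add_neg_cancel, zpow_zero, mul_one]
    rw [this, MulEquiv.apply_symm_apply]
  refine ⟨MulEquiv.ofBijective _ ⟨hinj, hsurj⟩, fun g => rfl, fun g => ?_⟩
  have h1 : ψ.symm ((MulEquiv.ofBijective _ ⟨hinj, hsurj⟩ : H ≃* Fr k × Multiplicative ℤ) g).1 =
      B1_pi e H z hz hez hc g := by
    show ψ.symm (ψ (B1_pi e H z hz hez hc g)) = _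
    rw [MulEquiv.symm_apply_apply]
  rw [h1, hπ, mul_assoc, ← zpow_add, neg_add_cancel, zpow_zero, mul_one]

theorem vertex_data (e : G →* Multiplicative ℤ) (H : Subgroup G) (hv : VG e H) (L : G → ℝ) (hL : WL e H L) (S : Set G)
    (hS : S.Finite) :
    ∃ C₀ : ℝ, ∀ C ≥ C₀, ∃ (X : Type) (_ : MetricSpace X) (_ : MulAction H X), IsCAT0 X ∧ Nonempty X ∧
      (∀ (g : H) (x x' : X), dist (g • x) (g • x') = dist x x') ∧ PA H X ∧ CA H X ∧
      (∀ s : H, (s : G) ∈ S → e s = Multiplicative.ofAdd 1 →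
        ∃ ℓ : ℝ → X, Isometry ℓ ∧ ∀ u, s • ℓ u = ℓ (u + √(L s + C))) ∧
      (∀ c s : H, (c : G) ∈ S → (s : G) ∈ S → e c = 1 → c ≠ 1 → e s = Multiplicative.ofAdd 1 → Commute c s →
        ∀ γ ζ : Ed 2, ‖γ‖ ^ 2 = L c → ‖ζ‖ ^ 2 = L s + C → ‖γ + ζ‖ ^ 2 = L (c * s) + C →
          ∃ P : Ed 2 → X, Isometry P ∧ (∀ u, c • P u = P (u + γ)) ∧ ∀ u, s • P u = P (u + ζ)) := by
  obtain ⟨z, hz, hez, hc, k, ⟨ψ⟩⟩ := hv
  obtain ⟨Φ, hΦ2, hΦ1⟩ := split e H z hz hez hc ψ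
  obtain ⟨N, hN⟩ : ∃ N : Fr k → ℝ, ∀ x, N x = L ((ψ.symm x : ↥(H ⊓ e.ker)) : G) := ⟨_, fun _ => rfl⟩
  obtain ⟨h, hh⟩ : ∃ h : Fr k → ℝ, ∀ x, h x = L (((ψ.symm x : ↥(H ⊓ e.ker)) : G) * z) -
    L ((ψ.symm x : ↥(H ⊓ e.ker)) : G) - L z := ⟨_, fun _ => rfl⟩
  have hmH : ∀ x : Fr k, ((ψ.symm x : ↥(H ⊓ e.ker)) : G) ∈ H := fun x => (ψ.symm x).2.1
  have hme : ∀ x : Fr k, e ((ψ.symm x : ↥(H ⊓ e.ker)) : G) = 1 := fun x => (ψ.symm x).2.2
  have hN0 : ∀ g, g ≠ 1 → 0 < N g := by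
    intro g hg
    rw [hN]
    refine hL.pos _ (hmH g) (hme g) ?_
    intro h1
    have h2 : ψ.symm g = 1 := Subtype.ext h1
    exact hg ((map_eq_one_iff ψ.symm ψ.symm.injective).1 h2)
  have hN1 : ∀ g x, N (x * g * x⁻¹) = N g := by
    intro g x
    rw [hN, hN, map_mul, map_mul, map_inv]
    exact hL.conj _ (hmH g) _ (hmH x) (Or.inl (hme g))
  have hN2 : ∀ g (p : ℤ), N (g ^ p) = p ^ 2 * N g := by
    intro g p
    rw [hN, hN, map_zpow]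
    exact hL.pow _ (hmH g) (hme g) p
  have hadd : ∀ g g', h (g * g') = h g + h g' := by
    intro g g'
    rw [hh, hh, hh, map_mul]
    exact hL.add z hz _ (hmH g) _ (hmH g') hez (hme g) (hme g') (hc _ (hmH g)) (hc _ (hmH g'))
  have hSf : (Φ '' {g : H | (g : G) ∈ S}).Finite :=
    (hS.preimage Subtype.val_injective.injOn).image Φ
  obtain ⟨C₀', hC₀'⟩ := vertex_weak N h hN0 hN1 hN2 hadd (Φ '' {g : H | (g : G) ∈ S}) hSf
  refine ⟨C₀' - L z, fun C hC => ?_⟩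
  obtain ⟨X, mX, aX, hcat, hne, hiso, hPA, hCA, h1, h2⟩ := hC₀' (C + L z) (by linarith)
  -- values of `L`
  have hval1 : ∀ s : H, e s = Multiplicative.ofAdd 1 → N (Φ s).1 + h (Φ s).1 + (C + L z) = L s + C := by
    intro s hs
    have h3 := hΦ1 s
    rw [hs, toAdd_ofAdd, zpow_one] at h3
    rw [hN, hh, h3]
    ring
  have hval0 : ∀ c : H, e c = 1 → N (Φ c).1 = L c := by
    intro c hc'
    have h3 := hΦ1 c
    rw [hc', toAdd_one, zpow_zero, mul_one] at h3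
    rw [hN, h3]
  refine ⟨X, mX, MulAction.compHom X Φ.toMonoidHom, hcat, hne, ?_, ?_, ?_, ?_, ?_⟩
  · intro g x x'
    exact hiso (Φ g) x x'
  · intro x
    obtain ⟨r, hr, hfin⟩ := hPA x
    exact ⟨r, hr, hfin.preimage (f := Φ) Φ.injective.injOn⟩
  · obtain ⟨K, hK, hK'⟩ := hCA
    refine ⟨K, hK, fun x => ?_⟩
    obtain ⟨g, hg⟩ := hK' x
    refine ⟨Φ.symm g, ?_⟩
    show Φ (Φ.symm g) • x ∈ K
    rw [MulEquiv.apply_symm_apply]
    exact hg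
  · intro s hs hes
    obtain ⟨ℓ, hℓ, hℓ'⟩ := h1 (Φ s) ⟨s, hs, rfl⟩ (by rw [hΦ2]; exact hes)
    refine ⟨ℓ, hℓ, fun u => ?_⟩
    have h4 := hℓ' u
    rw [hval1 s hes] at h4
    exact h4
  · intro c s hcS hsS hec hc1 hes hcomm γ ζ hγ hζ hγζ
    have hcs : e ((c * s : H) : G) = Multiplicative.ofAdd 1 := by
      rw [MulMemClass.coe_mul, map_mul, hec, one_mul, hes]
    have h5 := hval1 (c * s) hcs
    rw [map_mul, Prod.fst_mul] at h5
    obtain ⟨P, hP, hPc, hPs⟩ := h2 (Φ c) ⟨c, hcS, rfl⟩ (Φ s) ⟨s, hsS, rfl⟩ (by rw [hΦ2]; exact hec)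
      (by
        intro h6
        exact hc1 ((map_eq_one_iff Φ Φ.injective).1 h6))
      (by rw [hΦ2]; exact hes) (hcomm.map Φ) γ ζ (by rw [hval0 c hec]; exact hγ)
      (by rw [hval1 s hes]; exact hζ) (by rw [h5]; exact hγζ)
    exact ⟨P, hP, hPc, hPs⟩

theorem edge_gen (e : G →* Multiplicative ℤ) (K H : Subgroup G) (hKH : K ≤ H) (hv : VG e H) (he : EG e K) :
    ∃ z ∈ K, ∃ c ∈ K, e z = Multiplicative.ofAdd 1 ∧ e c = 1 ∧ Commute c z ∧ ∀ g ∈ K, ∃ i j : ℤ, g = c ^ i * z ^ j := by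
  obtain ⟨z', hz', hez', hc', k, ⟨ψ⟩⟩ := hv
  obtain ⟨⟨z, hz, hez⟩, hcyc⟩ := he
  obtain ⟨c, hcgen⟩ := hcyc.exists_generator
  have hcK : (c : G) ∈ K := c.2.1
  have hce : e (c : G) = 1 := c.2.2
  have hpow : ∀ g ∈ K, e g = 1 → ∃ n : ℤ, g = (c : G) ^ n := by
    intro g hg heg
    obtain ⟨n, hn⟩ := Subgroup.mem_zpowers_iff.mp (hcgen ⟨g, hg, heg⟩)
    refine ⟨n, ?_⟩
    have := congrArg Subtype.val hn
    exact this.symm
  refine ⟨z, hz, c, hcK, hez, hce, ?_, ?_⟩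
  · have hgH : z * z'⁻¹ ∈ H ⊓ e.ker := by
      refine ⟨H.mul_mem (hKH hz) (H.inv_mem hz'), ?_⟩
      show e (z * z'⁻¹) = 1
      rw [map_mul, map_inv, hez, hez', mul_inv_cancel]
    have hcH : (c : G) ∈ H ⊓ e.ker := ⟨hKH hcK, hce⟩
    have hzc : z * (c : G) * z⁻¹ ∈ K := K.mul_mem (K.mul_mem hz hcK) (K.inv_mem hz)
    have hzc' : z⁻¹ * (c : G) * z ∈ K := K.mul_mem (K.mul_mem (K.inv_mem hz) hcK) hz
    have hzce : e (z * (c : G) * z⁻¹) = 1 := by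
      rw [map_mul, map_mul, hce, mul_one, map_inv, mul_inv_cancel]
    have hzce' : e (z⁻¹ * (c : G) * z) = 1 := by
      rw [map_mul, map_mul, hce, mul_one, map_inv, inv_mul_cancel]
    obtain ⟨n, hn⟩ := hpow _ hzc hzce
    obtain ⟨n', hn'⟩ := hpow _ hzc' hzce'
    have h1 : Commute (c : G) z' := hc' _ (hKH hcK)
    have h2 : Commute (z⁻¹ * (c : G) * z) z' := hc' _ (hKH hzc')
    have e1 : z * z'⁻¹ * (c : G) * (z * z'⁻¹)⁻¹ = (c : G) ^ n := by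
      rw [← hn, mul_inv_rev, inv_inv]
      have : z'⁻¹ * (c : G) * z' = c := by
        rw [mul_assoc, h1.eq, inv_mul_cancel_left]
      calc z * z'⁻¹ * (c : G) * (z' * z⁻¹) = z * (z'⁻¹ * (c : G) * z') * z⁻¹ := by
            simp only [mul_assoc]
        _ = z * (c : G) * z⁻¹ := by rw [this]
    have e2 : (z * z'⁻¹)⁻¹ * (c : G) * (z * z'⁻¹) = (c : G) ^ n' := by
      rw [← hn', mul_inv_rev, inv_inv]
      have : z' * (z⁻¹ * (c : G) * z) * z'⁻¹ = z⁻¹ * (c : G) * z := by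
        rw [← h2.eq, mul_inv_cancel_right]
      calc z' * z⁻¹ * (c : G) * (z * z'⁻¹) = z' * (z⁻¹ * (c : G) * z) * z'⁻¹ := by
            simp only [mul_assoc]
        _ = z⁻¹ * (c : G) * z := this
    have f1 : ψ ⟨z * z'⁻¹, hgH⟩ * ψ ⟨c, hcH⟩ * (ψ ⟨z * z'⁻¹, hgH⟩)⁻¹ ∈ Subgroup.zpowers (ψ ⟨c, hcH⟩) := by
      refine Subgroup.mem_zpowers_iff.mpr ⟨n, ?_⟩
      rw [← map_inv, ← map_mul, ← map_mul, ← map_zpow]
      congr 1
      exact Subtype.ext e1.symm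
    have f2 : (ψ ⟨z * z'⁻¹, hgH⟩)⁻¹ * ψ ⟨c, hcH⟩ * ψ ⟨z * z'⁻¹, hgH⟩ ∈ Subgroup.zpowers (ψ ⟨c, hcH⟩) := by
      refine Subgroup.mem_zpowers_iff.mpr ⟨n', ?_⟩
      rw [← map_inv, ← map_mul, ← map_mul, ← map_zpow]
      congr 1
      exact Subtype.ext e2.symm
    have h3 := comm_of_norm _ _ f1 f2
    have h4 : (⟨z * z'⁻¹, hgH⟩ : ↥(H ⊓ e.ker)) * ⟨c, hcH⟩ = ⟨c, hcH⟩ * ⟨z * z'⁻¹, hgH⟩ := by
      apply ψ.injective
      rw [map_mul, map_mul]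
      exact h3.eq
    have h5 : z * z'⁻¹ * (c : G) = (c : G) * (z * z'⁻¹) := congrArg Subtype.val h4
    have h6 : z'⁻¹ * (c : G) = (c : G) * z'⁻¹ := (h1.inv_right).eq.symm
    have h7 : z * (c : G) * z'⁻¹ = (c : G) * z * z'⁻¹ := by
      rw [mul_assoc, ← h6, ← mul_assoc, h5, mul_assoc]
    exact (mul_right_cancel h7).symm
  · intro g hg
    obtain ⟨n, hn⟩ := hpow _ (K.mul_mem hg (K.zpow_mem hz (-(Multiplicative.toAdd (e g)))))
      (B1_ker e z hez g)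
    refine ⟨n, Multiplicative.toAdd (e g), ?_⟩
    rw [← hn, mul_assoc, ← zpow_add, neg_add_cancel, zpow_zero, mul_one]

end Pool.Agent.LibCF24
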