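import Pool.Agent.LibCF24.LDefs

/-! Row V3 (SHORT/MEDIUM). Planes and Gram matrices. ONLY Mathlib.

`plane_iso`: `EuclideanSpace.dist_eq`, `Fin.sum_univ_two`, distance of `WithLp 2 (Y × ℝ)`. `gram_exists`: `ζ = (√c, 0)`, `γ = (b / (2 √c), √(a - b² / (4 c)))`.
`gram_iso`: put `D = γ' 0 * ζ' 1 - γ' 1 * ζ' 0`; the Gram matrices of `(γ, ζ)` and `(γ', ζ')` are equal (`⟪γ, ζ⟫ = (‖γ + ζ‖² - ‖γ‖² - ‖ζ‖²) / 2`), so `d = γ 0 ζ 1 - γ 1 ζ 0` satisfies `d² = ‖γ‖² ‖ζ‖² - ⟪γ,ζ⟫² = D² ≠ 0`. Let `σ = D / d = ±1`.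
Explicit linear isometry, for example `T u = (⟪u, γ⟫ γ' + σ det(γ, u) J γ') / ‖γ‖²` with `det (x, y) = x 0 y 1 - x 1 y 0`, `J (x 0, x 1) = (- x 1, x 0)` (`‖γ‖ ≠ 0` as `d ≠ 0`): `T γ = γ'`, `‖T u‖² = (⟪u,γ⟫² + det(γ,u)²) / ‖γ‖² = ‖u‖²`,
`T ζ = (⟪ζ,γ⟫ γ' + σ d J γ') / ‖γ‖² = (⟪ζ',γ'⟫ γ' + D J γ') / ‖γ'‖² = ζ'`; `T` is additive. -/

set_option autoImplicit false

noncomputable section

open Set
open LibBD85 (IsCAT0)

namespace Pool.Agent.LibCF24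

theorem plane_iso {Y : Type} [MetricSpace Y] (γ : ℝ → Y) (hγ : Isometry γ) :
    Isometry (fun u : Ed 2 => (WithLp.toLp 2 (γ (u 0), u 1) : WithLp 2 (Y × ℝ))) := by
  apply Isometry.of_dist_eq
  intro u v
  rw [EuclideanSpace.dist_eq, Fin.sum_univ_two, WithLp.prod_dist_eq_add (p := 2) (by norm_num)]
  show (dist (γ (u 0)) (γ (v 0)) ^ (2 : ENNReal).toReal + dist (u 1) (v 1) ^ (2 : ENNReal).toReal) ^
    (1 / (2 : ENNReal).toReal) = _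
  rw [hγ.dist_eq, ENNReal.toReal_ofNat, Real.sqrt_eq_rpow]
  norm_cast

private theorem V3_nsq (u : Ed 2) : ‖u‖ ^ 2 = u 0 ^ 2 + u 1 ^ 2 := by
  rw [EuclideanSpace.norm_sq_eq, Fin.sum_univ_two, Real.norm_eq_abs, Real.norm_eq_abs, sq_abs,
    sq_abs]

theorem gram_exists (a b c : ℝ) (ha : 0 < a) (hc : 0 < c) (hd : b ^ 2 < 4 * a * c) :
    ∃ γ ζ : Ed 2, ‖γ‖ ^ 2 = a ∧ ‖ζ‖ ^ 2 = c ∧ ‖γ + ζ‖ ^ 2 = a + b + c ∧ γ 0 * ζ 1 - γ 1 * ζ 0 ≠ 0 := by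
  have hs : √c ^ 2 = c := Real.sq_sqrt hc.le
  have hs0 : 0 < √c := Real.sqrt_pos.2 hc
  have hpos : 0 < a - b ^ 2 / (4 * c) := by
    rw [sub_pos, div_lt_iff₀ (by positivity)]
    linarith
  have ht : √(a - b ^ 2 / (4 * c)) ^ 2 = a - b ^ 2 / (4 * c) := Real.sq_sqrt hpos.le
  have ht0 : 0 < √(a - b ^ 2 / (4 * c)) := Real.sqrt_pos.2 hpos
  have hb : (b / (2 * √c)) ^ 2 = b ^ 2 / (4 * c) := by
    rw [div_pow, mul_pow, hs]
    norm_num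
  have hb2 : b / (2 * √c) * √c = b / 2 := by
    field_simp
  refine ⟨WithLp.toLp 2 ![b / (2 * √c), √(a - b ^ 2 / (4 * c))], WithLp.toLp 2 ![√c, 0], ?_, ?_, ?_, ?_⟩
  · rw [V3_nsq]
    show (b / (2 * √c)) ^ 2 + √(a - b ^ 2 / (4 * c)) ^ 2 = a
    rw [hb, ht]
    ring
  · rw [V3_nsq]
    show √c ^ 2 + (0 : ℝ) ^ 2 = c
    rw [hs]
    ring
  · rw [V3_nsq]
    show (b / (2 * √c) + √c) ^ 2 + (√(a - b ^ 2 / (4 * c)) + 0) ^ 2 = a + b + c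
    rw [add_zero, ht, add_sq, hb, mul_assoc, hb2, hs]
    ring
  · show b / (2 * √c) * 0 - √(a - b ^ 2 / (4 * c)) * √c ≠ 0
    rw [mul_zero, zero_sub, neg_ne_zero]
    exact (mul_pos ht0 hs0).ne'

theorem gram_iso (γ ζ γ' ζ' : Ed 2) (h1 : ‖γ‖ ^ 2 = ‖γ'‖ ^ 2) (h2 : ‖ζ‖ ^ 2 = ‖ζ'‖ ^ 2) (h3 : ‖γ + ζ‖ ^ 2 = ‖γ' + ζ'‖ ^ 2)
    (hd : γ' 0 * ζ' 1 - γ' 1 * ζ' 0 ≠ 0) :
    ∃ T : Ed 2 → Ed 2, Isometry T ∧ (∀ u, T (u + γ) = T u + γ') ∧ ∀ u, T (u + ζ) = T u + ζ' := by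
  rw [V3_nsq, V3_nsq] at h1 h2 h3
  have h3' : (γ 0 + ζ 0) ^ 2 + (γ 1 + ζ 1) ^ 2 = (γ' 0 + ζ' 0) ^ 2 + (γ' 1 + ζ' 1) ^ 2 := h3
  have h4 : γ 0 * ζ 0 + γ 1 * ζ 1 = γ' 0 * ζ' 0 + γ' 1 * ζ' 1 := by linarith
  generalize hg0 : γ 0 = a at *
  generalize hg1 : γ 1 = b at *
  generalize hz0 : ζ 0 = c at *
  generalize hz1 : ζ 1 = d at *
  generalize hg0' : γ' 0 = a' at *
  generalize hg1' : γ' 1 = b' at *
  generalize hz0' : ζ' 0 = c' at *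
  generalize hz1' : ζ' 1 = d' at *
  have h5 : (a * d - b * c) ^ 2 = (a' * d' - b' * c') ^ 2 := by
    have e1 : (a * d - b * c) ^ 2 = (a ^ 2 + b ^ 2) * (c ^ 2 + d ^ 2) - (a * c + b * d) ^ 2 := by ring
    have e2 : (a' * d' - b' * c') ^ 2 =
        (a' ^ 2 + b' ^ 2) * (c' ^ 2 + d' ^ 2) - (a' * c' + b' * d') ^ 2 := by ring
    rw [e1, e2, h1, h2, h4]
  have hd0 : a * d - b * c ≠ 0 := by
    intro h
    rw [h] at h5
    have h6 : (a' * d' - b' * c') ^ 2 = 0 := by rw [← h5]; ring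
    exact hd (pow_eq_zero_iff (two_ne_zero) |>.1 h6)
  have hN : a ^ 2 + b ^ 2 ≠ 0 := by
    intro h
    have ha : a = 0 := by nlinarith [sq_nonneg a, sq_nonneg b]
    have hb : b = 0 := by nlinarith [sq_nonneg a, sq_nonneg b]
    rw [ha, hb] at hd0
    apply hd0
    ring
  obtain ⟨σ, hσ⟩ : ∃ σ : ℝ, σ = (a' * d' - b' * c') / (a * d - b * c) := ⟨_, rfl⟩
  have hσ1 : σ * (a * d - b * c) = a' * d' - b' * c' := by
    rw [hσ, div_mul_cancel₀ _ hd0]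
  have hσ2 : σ ^ 2 = 1 := by
    rw [hσ, div_pow, h5, div_self (pow_ne_zero 2 hd)]
  refine ⟨fun u => WithLp.toLp 2
    ![((u 0 * a + u 1 * b) * a' - σ * (a * u 1 - b * u 0) * b') / (a ^ 2 + b ^ 2),
      ((u 0 * a + u 1 * b) * b' + σ * (a * u 1 - b * u 0) * a') / (a ^ 2 + b ^ 2)], ?_, ?_, ?_⟩
  · apply Isometry.of_dist_eq
    intro u v
    rw [EuclideanSpace.dist_eq, EuclideanSpace.dist_eq, Fin.sum_univ_two, Fin.sum_univ_two]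
    congr 1
    simp only [Real.dist_eq, sq_abs]
    show (((u 0 * a + u 1 * b) * a' - σ * (a * u 1 - b * u 0) * b') / (a ^ 2 + b ^ 2) -
        ((v 0 * a + v 1 * b) * a' - σ * (a * v 1 - b * v 0) * b') / (a ^ 2 + b ^ 2)) ^ 2 +
      (((u 0 * a + u 1 * b) * b' + σ * (a * u 1 - b * u 0) * a') / (a ^ 2 + b ^ 2) -
        ((v 0 * a + v 1 * b) * b' + σ * (a * v 1 - b * v 0) * a') / (a ^ 2 + b ^ 2)) ^ 2 =
      (u 0 - v 0) ^ 2 + (u 1 - v 1) ^ 2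
    generalize u 0 = x
    generalize u 1 = y
    generalize v 0 = z
    generalize v 1 = w
    rw [← sub_div, ← sub_div, div_pow, div_pow, ← add_div, div_eq_iff (pow_ne_zero 2 hN)]
    have e1 : ((x * a + y * b) * a' - σ * (a * y - b * x) * b' -
          ((z * a + w * b) * a' - σ * (a * w - b * z) * b')) ^ 2 +
        ((x * a + y * b) * b' + σ * (a * y - b * x) * a' -
          ((z * a + w * b) * b' + σ * (a * w - b * z) * a')) ^ 2 =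
        (((x - z) * a + (y - w) * b) ^ 2 + σ ^ 2 * (a * (y - w) - b * (x - z)) ^ 2) *
          (a' ^ 2 + b' ^ 2) := by ring
    rw [e1, hσ2, ← h1]
    ring
  · intro u
    ext i
    fin_cases i
    · show (((u 0 + γ 0) * a + (u 1 + γ 1) * b) * a' - σ * (a * (u 1 + γ 1) - b * (u 0 + γ 0)) * b') /
          (a ^ 2 + b ^ 2) =
        ((u 0 * a + u 1 * b) * a' - σ * (a * u 1 - b * u 0) * b') / (a ^ 2 + b ^ 2) + γ' 0
      rw [hg0, hg1, hg0', div_add' _ _ _ hN]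
      congr 1
      ring
    · show (((u 0 + γ 0) * a + (u 1 + γ 1) * b) * b' + σ * (a * (u 1 + γ 1) - b * (u 0 + γ 0)) * a') /
          (a ^ 2 + b ^ 2) =
        ((u 0 * a + u 1 * b) * b' + σ * (a * u 1 - b * u 0) * a') / (a ^ 2 + b ^ 2) + γ' 1
      rw [hg0, hg1, hg1', div_add' _ _ _ hN]
      congr 1
      ring
  · intro u
    ext i
    fin_cases i
    · show (((u 0 + ζ 0) * a + (u 1 + ζ 1) * b) * a' - σ * (a * (u 1 + ζ 1) - b * (u 0 + ζ 0)) * b') /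
          (a ^ 2 + b ^ 2) =
        ((u 0 * a + u 1 * b) * a' - σ * (a * u 1 - b * u 0) * b') / (a ^ 2 + b ^ 2) + ζ' 0
      rw [hz0, hz1, hz0', div_add' _ _ _ hN]
      congr 1
      have e1 : ((u 0 + c) * a + (u 1 + d) * b) * a' - σ * (a * (u 1 + d) - b * (u 0 + c)) * b' =
          (u 0 * a + u 1 * b) * a' - σ * (a * u 1 - b * u 0) * b' +
            ((a * c + b * d) * a' - σ * (a * d - b * c) * b') := by ring
      rw [e1, hσ1, h4, h1]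
      ring
    · show (((u 0 + ζ 0) * a + (u 1 + ζ 1) * b) * b' + σ * (a * (u 1 + ζ 1) - b * (u 0 + ζ 0)) * a') /
          (a ^ 2 + b ^ 2) =
        ((u 0 * a + u 1 * b) * b' + σ * (a * u 1 - b * u 0) * a') / (a ^ 2 + b ^ 2) + ζ' 1
      rw [hz0, hz1, hz1', div_add' _ _ _ hN]
      congr 1
      have e1 : ((u 0 + c) * a + (u 1 + d) * b) * b' + σ * (a * (u 1 + d) - b * (u 0 + c)) * a' =
          (u 0 * a + u 1 * b) * b' + σ * (a * u 1 - b * u 0) * a' +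
            ((a * c + b * d) * b' + σ * (a * d - b * c) * a') := by ring
      rw [e1, hσ1, h4, h1]
      ring

end Pool.Agent.LibCF24
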