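import Pool.Agent.LibCF24.BDefs
import Pool.Agent.LibCF24.V3

/-! Row B2 (MEDIUM). Edge spaces. V3 (`gram_exists`), M1 (`isCAT0_univ`).

`edge_act`: for `g` choose `(i, j)` and put `T g = i • γ + j • ζ`; `g • P₁ u = P₁ (u + T g)`, `g • P₂ u = P₂ (u + T g)` (powers). `T (g h) = T g + T h`, `T 1 = 0` by injectivity of `P₁`. The action: `g • u = u + T g`.
`PA_emb`: `dist (a u) (g • a u) = dist u (g • u)`. `edge_exists`: case `c = 1`: `E = ℝ` (`edge_act` with `c = 1`, `γ = 0`, `ζ = √lz`); `CA`: `K = Icc 0 √lz`. Case `c ≠ 1`: `γ`, `ζ` from `gram_exists lc (lcz - lc - lz) lz`, `E = Ed 2`; `CA`: every `u` is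
`x γ + y ζ` (determinant `≠ 0`), `K` = image of `Icc 0 1 ×ˢ Icc 0 1` under `(x, y) ↦ x γ + y ζ`, use `⌊x⌋`, `⌊y⌋`, `c ^ (-⌊x⌋) * z ^ (-⌊y⌋)` (it acts by `u ↦ u - ⌊x⌋ γ - ⌊y⌋ ζ`: from `P₁`). -/

set_option autoImplicit false

noncomputable section

open Set
open LibBD85 (QLength IsCAT0)

namespace Pool.Agent.LibCF24

private theorem B2_zpow {K E X : Type} [Group K] [AddCommGroup E] [MulAction K X] (c : K) (γ : E)
    (P : E → X) (hc : ∀ u, c • P u = P (u + γ)) (i : ℤ) : ∀ u, c ^ i • P u = P (u + i • γ) := by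
  induction i using Int.induction_on with
  | zero =>
    intro u
    rw [zpow_zero, one_smul, zero_smul, add_zero]
  | succ i ih =>
    intro u
    rw [zpow_add_one, mul_smul, hc, ih, add_smul, one_smul]
    congr 1
    abel
  | pred i ih =>
    intro u
    have h : c⁻¹ • P u = P (u - γ) := by
      rw [inv_smul_eq_iff, hc, sub_add_cancel]
    rw [zpow_sub_one, mul_smul, h, ih, sub_smul, one_smul]
    congr 1
    abel

private theorem B2_two {K E X : Type} [Group K] [AddCommGroup E] [MulAction K X] (c z : K) (γ ζ : E)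
    (P : E → X) (hc : ∀ u, c • P u = P (u + γ)) (hz : ∀ u, z • P u = P (u + ζ)) (i j : ℤ) (u : E) :
    (c ^ i * z ^ j) • P u = P (u + (i • γ + j • ζ)) := by
  rw [mul_smul, B2_zpow z ζ P hz, B2_zpow c γ P hc]
  congr 1
  abel

theorem edge_act {K : Type} [Group K] {E X₁ X₂ : Type} [NormedAddCommGroup E] [MetricSpace X₁] [MetricSpace X₂]
    [MulAction K X₁] [MulAction K X₂] (c z : K) (hgen : ∀ g : K, ∃ i j : ℤ, g = c ^ i * z ^ j) (γ ζ : E) (P₁ : E → X₁) (P₂ : E → X₂)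
    (h₁ : Isometry P₁) (h₂ : Isometry P₂) (hc₁ : ∀ u, c • P₁ u = P₁ (u + γ)) (hz₁ : ∀ u, z • P₁ u = P₁ (u + ζ))
    (hc₂ : ∀ u, c • P₂ u = P₂ (u + γ)) (hz₂ : ∀ u, z • P₂ u = P₂ (u + ζ)) :
    ∃ _ : MulAction K E, (∀ (g : K) u, P₁ (g • u) = g • P₁ u) ∧ (∀ (g : K) u, P₂ (g • u) = g • P₂ u) ∧
      (∀ (g : K) (u u' : E), dist (g • u) (g • u') = dist u u') ∧ ∀ (i j : ℤ) (u : E), (c ^ i * z ^ j) • u = u + (i • γ + j • ζ) := by
  choose ci cj hij using hgen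
  have t1 : ∀ (g : K) (u : E), g • P₁ u = P₁ (u + (ci g • γ + cj g • ζ)) := by
    intro g u
    conv_lhs => rw [hij g]
    exact B2_two c z γ ζ P₁ hc₁ hz₁ _ _ u
  have t2 : ∀ (g : K) (u : E), g • P₂ u = P₂ (u + (ci g • γ + cj g • ζ)) := by
    intro g u
    conv_lhs => rw [hij g]
    exact B2_two c z γ ζ P₂ hc₂ hz₂ _ _ u
  have m1 : ci (1 : K) • γ + cj (1 : K) • ζ = 0 := by
    have h := t1 1 0
    rw [one_smul, zero_add] at h
    exact (h₁.injective h).symm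
  have mm : ∀ g h : K, ci (g * h) • γ + cj (g * h) • ζ =
      (ci h • γ + cj h • ζ) + (ci g • γ + cj g • ζ) := by
    intro g h
    have e := t1 (g * h) 0
    rw [mul_smul, t1 h 0, t1 g, zero_add, zero_add] at e
    exact (h₁.injective e).symm
  let act : MulAction K E :=
    { smul := fun g u => u + (ci g • γ + cj g • ζ)
      one_smul := fun u => by
        show u + (ci (1 : K) • γ + cj (1 : K) • ζ) = u
        rw [m1, add_zero]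
      mul_smul := fun g h u => by
        show u + (ci (g * h) • γ + cj (g * h) • ζ) =
          u + (ci h • γ + cj h • ζ) + (ci g • γ + cj g • ζ)
        rw [mm, ← add_assoc] }
  refine ⟨act, fun g u => (t1 g u).symm, fun g u => (t2 g u).symm, ?_, ?_⟩
  · intro g u u'
    show dist (u + (ci g • γ + cj g • ζ)) (u' + (ci g • γ + cj g • ζ)) = dist u u'
    exact dist_add_right _ _ _
  · intro i j u
    show u + (ci (c ^ i * z ^ j) • γ + cj (c ^ i * z ^ j) • ζ) = u + (i • γ + j • ζ)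
    have e := t1 (c ^ i * z ^ j) u
    rw [B2_two c z γ ζ P₁ hc₁ hz₁] at e
    exact (h₁.injective e).symm

theorem PA_emb {K E X : Type} [Group K] [MetricSpace E] [MetricSpace X] [MulAction K E] [MulAction K X] (a : E → X) (ha : Isometry a)
    (h : ∀ (g : K) u, a (g • u) = g • a u) (hPA : PA K X) : PA K E := by
  intro u
  obtain ⟨r, hr, hf⟩ := hPA (a u)
  refine ⟨r, hr, ?_⟩
  have e : {g : K | dist u (g • u) < r} = {g : K | dist (a u) (g • a u) < r} := by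
    ext g
    show dist u (g • u) < r ↔ dist (a u) (g • a u) < r
    rw [← h, ha.dist_eq]
  rw [e]
  exact hf

private theorem B2_floor (x s : ℝ) (hs : 0 < s) :
    x + (-⌊x / s⌋ : ℤ) • s ∈ Icc (0 : ℝ) s := by
  rw [zsmul_eq_mul]
  push_cast
  have h1 := Int.floor_le (x / s)
  have h2 := Int.lt_floor_add_one (x / s)
  rw [le_div_iff₀ hs] at h1
  rw [div_lt_iff₀ hs] at h2
  constructor <;> linarith

private theorem B2_cramer (γ ζ u : Ed 2) (hd : γ 0 * ζ 1 - γ 1 * ζ 0 ≠ 0) :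
    ∃ x y : ℝ, u = x • γ + y • ζ := by
  refine ⟨(u 0 * ζ 1 - u 1 * ζ 0) / (γ 0 * ζ 1 - γ 1 * ζ 0),
    (γ 0 * u 1 - γ 1 * u 0) / (γ 0 * ζ 1 - γ 1 * ζ 0), ?_⟩
  ext i
  fin_cases i
  · simp only [Fin.zero_eta, PiLp.add_apply, PiLp.smul_apply, smul_eq_mul]
    rw [div_mul_eq_mul_div, div_mul_eq_mul_div, ← add_div, eq_div_iff hd]
    ring
  · simp only [Fin.mk_one, PiLp.add_apply, PiLp.smul_apply, smul_eq_mul]
    rw [div_mul_eq_mul_div, div_mul_eq_mul_div, ← add_div, eq_div_iff hd]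
    ring

private theorem B2_frac (γ ζ : Ed 2) (x y : ℝ) :
    x • γ + y • ζ + ((-⌊x⌋ : ℤ) • γ + (-⌊y⌋ : ℤ) • ζ) = Int.fract x • γ + Int.fract y • ζ := by
  rw [← Int.cast_smul_eq_zsmul ℝ, ← Int.cast_smul_eq_zsmul ℝ]
  unfold Int.fract
  push_cast
  module

theorem edge_exists {K : Type} [Group K] (c z : K) (hgen : ∀ g : K, ∃ i j : ℤ, g = c ^ i * z ^ j)
    {X₁ X₂ : Type} [MetricSpace X₁] [MetricSpace X₂] [MulAction K X₁] [MulAction K X₂] (hPA : PA K X₁) (lc lz lcz : ℝ)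
    (hlz : 0 < lz) (hlc : c ≠ 1 → 0 < lc) (hdisc : c ≠ 1 → (lcz - lc - lz) ^ 2 < 4 * lc * lz)
    (hA₁ : ∃ ℓ : ℝ → X₁, Isometry ℓ ∧ ∀ u, z • ℓ u = ℓ (u + √lz)) (hA₂ : ∃ ℓ : ℝ → X₂, Isometry ℓ ∧ ∀ u, z • ℓ u = ℓ (u + √lz))
    (hB₁ : c ≠ 1 → ∀ γ ζ : Ed 2, ‖γ‖ ^ 2 = lc → ‖ζ‖ ^ 2 = lz → ‖γ + ζ‖ ^ 2 = lcz →
      ∃ P : Ed 2 → X₁, Isometry P ∧ (∀ u, c • P u = P (u + γ)) ∧ ∀ u, z • P u = P (u + ζ))
    (hB₂ : c ≠ 1 → ∀ γ ζ : Ed 2, ‖γ‖ ^ 2 = lc → ‖ζ‖ ^ 2 = lz → ‖γ + ζ‖ ^ 2 = lcz →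
      ∃ P : Ed 2 → X₂, Isometry P ∧ (∀ u, c • P u = P (u + γ)) ∧ ∀ u, z • P u = P (u + ζ)) :
    ∃ (E : Type) (_ : MetricSpace E) (_ : MulAction K E) (a : E → X₁) (b : E → X₂), IsCAT0 E ∧ ProperSpace E ∧ Nonempty E ∧
      Isometry a ∧ Isometry b ∧ (∀ (g : K) u, a (g • u) = g • a u) ∧ (∀ (g : K) u, b (g • u) = g • b u) ∧
      (∀ (g : K) (u u' : E), dist (g • u) (g • u') = dist u u') ∧ PA K E ∧ CA K E := by
  by_cases hc : c = 1
  · obtain ⟨ℓ₁, i1, z1⟩ := hA₁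
    obtain ⟨ℓ₂, i2, z2⟩ := hA₂
    have hs : 0 < √lz := Real.sqrt_pos.mpr hlz
    obtain ⟨act, a1, a2, a3, a4⟩ := edge_act (E := ℝ) c z hgen 0 (√lz) ℓ₁ ℓ₂ i1 i2
      (fun u => by rw [hc, one_smul, add_zero]) z1 (fun u => by rw [hc, one_smul, add_zero]) z2
    refine ⟨ℝ, inferInstance, act, ℓ₁, ℓ₂, isCAT0_univ, inferInstance, inferInstance, i1, i2, a1,
      a2, a3, PA_emb ℓ₁ i1 a1 hPA, Icc 0 (√lz), isCompact_Icc, fun x => ?_⟩
    refine ⟨c ^ (0 : ℤ) * z ^ (-⌊x / √lz⌋ : ℤ), ?_⟩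
    rw [a4, zero_smul, zero_add]
    exact B2_floor x _ hs
  · obtain ⟨γ, ζ, g1, g2, g3, g4⟩ := gram_exists lc (lcz - lc - lz) lz (hlc hc) hlz (hdisc hc)
    have g3' : ‖γ + ζ‖ ^ 2 = lcz := by rw [g3]; ring
    obtain ⟨P₁, i1, c1, z1⟩ := hB₁ hc γ ζ g1 g2 g3'
    obtain ⟨P₂, i2, c2, z2⟩ := hB₂ hc γ ζ g1 g2 g3'
    obtain ⟨act, a1, a2, a3, a4⟩ := edge_act (E := Ed 2) c z hgen γ ζ P₁ P₂ i1 i2 c1 z1 c2 z2
    refine ⟨Ed 2, inferInstance, act, P₁, P₂, isCAT0_univ, inferInstance, inferInstance, i1, i2,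
      a1, a2, a3, PA_emb P₁ i1 a1 hPA,
      (fun q : ℝ × ℝ => q.1 • γ + q.2 • ζ) '' (Icc (0 : ℝ) 1 ×ˢ Icc (0 : ℝ) 1), ?_, fun u => ?_⟩
    · refine (isCompact_Icc.prod isCompact_Icc).image ?_
      fun_prop
    · obtain ⟨x, y, hu⟩ := B2_cramer γ ζ u g4
      refine ⟨c ^ (-⌊x⌋ : ℤ) * z ^ (-⌊y⌋ : ℤ), ?_⟩
      rw [a4, hu, B2_frac]
      exact ⟨(Int.fract x, Int.fract y), ⟨⟨Int.fract_nonneg x, (Int.fract_lt_one x).le⟩,
        ⟨Int.fract_nonneg y, (Int.fract_lt_one y).le⟩⟩, rfl⟩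

end Pool.Agent.LibCF24
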