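import Pool.Agent.LibCF24.G3

/-! Row G5 (MEDIUM). Cocompactness. G1, G2, G3.

With the metric `h.sdGood.tr.metric` (distance `cd D.sd.f`): `x ↦ P q 1 x` is an isometry (`P_dist`), and `y ↦ S r 1 y.1 y.2` on `WithLp 2 (E r × Icc 0 δ)` is an isometry (`S_dist`), so the images of the compact
sets `K q` and `K r × Icc 0 δ` are compact; the finite union `K` is compact. Every point is `P q u x` or `S r u z τ`: `act u⁻¹` gives `P q 1 x`, then `k ∈ H0 q` with `k • x ∈ K q`, and `act k (P q 1 x) = P q k x = P q 1 (k • x)` (`P_mul` with `u = 1`);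
so `g = k u⁻¹`. The same for the strips (`act_S`). -/

set_option autoImplicit false

noncomputable section

open Set

namespace Pool.Agent.LibCF24

variable {G : Type} [Group G] {D : GG G}

private theorem G5_pt (ω : D.sd.Ω) : (∃ q u x, ω = D.P q u x) ∨
    (∃ r u z, ∃ τ ∈ Ioo (0 : ℝ) D.δ, ω = D.S r u z τ) := by
  rcases ω with ⟨⟨q, v⟩, x⟩ | ⟨⟨r, e⟩, z, ⟨τ, hτ⟩⟩
  · left
    exact ⟨q, Quotient.out v, x, D.pt_eq q v x⟩
  · right
    refine ⟨r, Quotient.out e, z, τ, hτ, ?_⟩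
    rw [← D.st_eq r e z τ]
    unfold SD.st
    have h : 0 < τ ∧ τ < D.sd.δ := hτ
    rw [dif_pos h]

private theorem G5_sqrt {a b : ℝ} (ha : 0 ≤ a) : √(a ^ 2 + b ^ 2) ≤ a + |b| := by
  rw [Real.sqrt_le_left (by positivity)]
  have h1 : |b| ^ 2 = b ^ 2 := sq_abs b
  nlinarith [mul_nonneg ha (abs_nonneg b)]

theorem GG.Good.cocompact (h : D.Good) (f0 : Finite D.Q0) (f1 : Finite D.Q1) (h0 : ∀ q, CA (D.H0 q) (D.X q))
    (h1 : ∀ r, CA (D.H1 r) (D.E r)) :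
    letI := h.sdGood.tr.metric
    ∃ K : Set D.sd.Ω, IsCompact K ∧ ∀ x : D.sd.Ω, ∃ g : G, D.act g x ∈ K := by
  letI := h.sdGood.tr.metric
  choose K0 hK0c hK0 using h0
  choose K1 hK1c hK1 using h1
  refine ⟨(⋃ q, (fun x => D.P q 1 x) '' K0 q) ∪
    (⋃ r, (fun y : D.E r × ℝ => D.S r 1 y.1 y.2) '' (K1 r ×ˢ Icc 0 D.δ)), ?_, ?_⟩
  · refine IsCompact.union (isCompact_iUnion fun q => ?_) (isCompact_iUnion fun r => ?_)
    · refine (hK0c q).image ?_
      have hi : Isometry (fun x : D.X q => D.P q 1 x) :=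
        Isometry.of_dist_eq (fun x y => h.P_dist q 1 x y)
      exact hi.continuous
    · refine IsCompact.image_of_continuousOn ((hK1c r).prod isCompact_Icc) ?_
      have hl : LipschitzOnWith 2 (fun y : D.E r × ℝ => D.S r 1 y.1 y.2) (K1 r ×ˢ Icc 0 D.δ) := by
        refine LipschitzOnWith.of_dist_le_mul ?_
        rintro ⟨z, τ⟩ ⟨_, hτ⟩ ⟨z', τ'⟩ ⟨_, hτ'⟩
        have e : dist (D.S r 1 z τ) (D.S r 1 z' τ') = √(dist z z' ^ 2 + (τ - τ') ^ 2) :=
          h.S_dist r 1 z z' hτ hτ'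
        have e2 : ((2 : NNReal) : ℝ) = 2 := rfl
        rw [e, e2, Prod.dist_eq, Real.dist_eq]
        refine (G5_sqrt dist_nonneg).trans ?_
        have h1 := le_max_left (dist z z') |τ - τ'|
        have h2 := le_max_right (dist z z') |τ - τ'|
        linarith
      exact hl.continuousOn
  · intro ω
    rcases G5_pt ω with ⟨q, u, x, rfl⟩ | ⟨r, u, z, τ, hτ, rfl⟩
    · obtain ⟨k, hk⟩ := hK0 q x
      refine ⟨k * u⁻¹, Or.inl (mem_iUnion.mpr ⟨q, k • x, hk, ?_⟩)⟩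
      rw [D.act_P, inv_mul_cancel_right]
      change D.P q 1 (k • x) = D.P q k x
      rw [← D.P_mul, one_mul]
    · obtain ⟨k, hk⟩ := hK1 r z
      have hτ' : τ ∈ Icc (0 : ℝ) D.δ := ⟨hτ.1.le, hτ.2.le⟩
      refine ⟨k * u⁻¹, Or.inr (mem_iUnion.mpr ⟨r, (k • z, τ), ⟨hk, hτ'⟩, ?_⟩)⟩
      rw [h.act_S _ _ _ _ hτ', inv_mul_cancel_right]
      change D.S r 1 (k • z) τ = D.S r k z τ
      rw [← D.S_mul, one_mul]

end Pool.Agent.LibCF24
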