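import Pool.Agent.LibCF24.G4
import Pool.Agent.LibCF24.G5

/-! G6: the space of a graph of spaces (assembly, complete). -/

set_option autoImplicit false

noncomputable section

open Set

namespace Pool.Agent.LibCF24

variable {G : Type} [Group G] {D : GG G}

theorem GG.Good.space (h : D.Good) : ∃ (Ω : Type) (_ : MetricSpace Ω) (_ : MulAction G Ω) (p : ∀ q, D.X q → Ω), D.Out Ω p := by
  refine ⟨D.sd.Ω, h.sdGood.tr.metric, D.mulAction, fun q x => D.P q 1 x, ?_⟩
  letI := h.sdGood.tr.metric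
  letI := D.mulAction
  have e : ∀ (g : G) (q : D.Q0) (x : D.X q), D.act g (D.P q 1 x) = D.P q g x := fun g q x => by
    rw [D.act_P, mul_one]
  refine ⟨h.sdGood.tr.isCAT0, fun g x y => h.act_cd g x y, ?_, fun q x y => h.P_dist q 1 x y, ?_, ?_, ?_, ?_⟩
  · intro q k x
    show D.act k (D.P q 1 x) = _
    rw [e, ← D.P_mul, one_mul]
  · intro r z z'
    show cd D.sd.f (D.act (D.c r) (D.P _ 1 _)) (D.act (D.c' r) (D.P _ 1 _)) ≤ _
    rw [e, e]
    have h1 := h.S_dist r 1 z z' (left_mem_Icc.2 h.δpos.le) (right_mem_Icc.2 h.δpos.le)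
    rw [h.S_zero, h.S_end, one_mul, one_mul] at h1
    rw [h1, zero_sub, neg_sq]
  · intro φ a1 a2 a3 q q' g g' x x'
    show _ ≤ cd D.sd.f (D.act g (D.P _ 1 _)) (D.act g' (D.P _ 1 _))
    rw [e, e]
    exact h.lip φ a1 a2 a3 q q' g g' x x'
  · intro a1 a2 ω
    exact h.proper a1 a2 ω
  · intro a1 a2 a3 a4
    exact h.cocompact a1 a2 a3 a4

end Pool.Agent.LibCF24
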