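import Pool.Agent.LibCF24.GDefs

/-! Row T2 (MEDIUM). The tree of a `GG` and a tree with an action of `G`. ONLY GDefs.

`⟨q, g H0 q⟩ ↦ g • v q` (well defined by `hv0`) is a bijection `D.V0 → V0` (`hv1`, `hv2`, `hv0`); the same for the edges. It maps `D.oV ⟨r, e⟩` to `out e • c r • v (o r) = out e • o (w r) = o (out e • w r)`.
So the two graphs `bip` are isomorphic: `SimpleGraph.Iso.isTree_iff`; and `oV e ≠ tV e` by injectivity. -/

set_option autoImplicit false

noncomputable section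

open Set

namespace Pool.Agent.LibCF24

variable {G : Type} [Group G]

private theorem T2_lr {A B : Type} (o t : B → A) (a : A) (b : B) :
    (bip o t).Adj (Sum.inl a) (Sum.inr b) ↔ a = o b ∨ a = t b := by
  constructor
  · rintro ⟨e, v, h, ⟨h1, h2⟩ | ⟨h1, h2⟩⟩
    · rw [Sum.inl.inj h1, Sum.inr.inj h2]
      exact h
    · exact absurd h1 (by simp)
  · intro h
    exact ⟨b, a, h, Or.inl ⟨rfl, rfl⟩⟩

private theorem T2_ll {A B : Type} (o t : B → A) (a a' : A) :
    ¬ (bip o t).Adj (Sum.inl a) (Sum.inl a') := by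
  rintro ⟨e, v, h, ⟨h1, h2⟩ | ⟨h1, h2⟩⟩
  · exact absurd h2 (by simp)
  · exact absurd h1 (by simp)

private theorem T2_rr {A B : Type} (o t : B → A) (b b' : B) :
    ¬ (bip o t).Adj (Sum.inr b) (Sum.inr b') := by
  rintro ⟨e, v, h, ⟨h1, h2⟩ | ⟨h1, h2⟩⟩
  · exact absurd h1 (by simp)
  · exact absurd h2 (by simp)

private theorem T2_iso {A B A' B' : Type} {o t : B → A} {o' t' : B' → A'} (α : A' ≃ A)
    (β : B' ≃ B) (ho : ∀ e, o (β e) = α (o' e)) (ht : ∀ e, t (β e) = α (t' e))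
    (h : (bip o t).IsTree) : (bip o' t').IsTree := by
  have hlr : ∀ (a : A') (b : B'), (bip o t).Adj (Sum.inl (α a)) (Sum.inr (β b)) ↔
      (bip o' t').Adj (Sum.inl a) (Sum.inr b) := by
    intro a b
    rw [T2_lr, T2_lr, ho, ht, α.injective.eq_iff, α.injective.eq_iff]
  let F : bip o' t' ≃g bip o t :=
    { toEquiv := Equiv.sumCongr α β
      map_rel_iff' := by
        intro x y
        rcases x with a | b <;> rcases y with a' | b'
        · exact iff_of_false (T2_ll o t _ _) (T2_ll o' t' _ _)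
        · exact hlr a b'
        · rw [SimpleGraph.adj_comm, SimpleGraph.adj_comm (bip o' t')]
          exact hlr a' b
        · exact iff_of_false (T2_rr o t _ _) (T2_rr o' t' _ _) }
  exact F.isTree_iff.2 h

private theorem T2_equiv {Q W : Type} [MulAction G W] (H : Q → Subgroup G) (v : Q → W)
    (h0 : ∀ q, MulAction.stabilizer G (v q) = H q) (h1 : ∀ x : W, ∃ q, ∃ g : G, x = g • v q)
    (h2 : ∀ q q' (g : G), g • v q = v q' → q = q') :
    ∃ φ : (Σ q, G ⧸ H q) ≃ W, (∀ x : Σ q, G ⧸ H q, φ x = Quotient.out x.2 • v x.1) ∧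
      ∀ q (g : G), φ ⟨q, (g : G ⧸ H q)⟩ = g • v q := by
  have hval : ∀ q (g : G), (Quotient.out (g : G ⧸ H q) : G) • v q = g • v q := by
    intro q g
    have h3 : (g⁻¹ * Quotient.out (g : G ⧸ H q) : G) ∈ H q := by
      rw [← QuotientGroup.eq]
      exact (Quotient.out_eq _).symm
    have h4 : (g⁻¹ * Quotient.out (g : G ⧸ H q) : G) ∈ MulAction.stabilizer G (v q) := by
      rw [h0 q]
      exact h3
    rw [MulAction.mem_stabilizer_iff, mul_smul, inv_smul_eq_iff] at h4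
    exact h4
  have hbij : Function.Bijective (fun x : Σ q, G ⧸ H q => (Quotient.out x.2 : G) • v x.1) := by
    constructor
    · rintro ⟨q, x⟩ ⟨q', x'⟩ hxx
      have h3 : (Quotient.out x : G) • v q = (Quotient.out x' : G) • v q' := hxx
      have h4 : ((Quotient.out x' : G)⁻¹ * Quotient.out x) • v q = v q' := by
        rw [mul_smul, h3, inv_smul_smul]
      have h5 := h2 q q' _ h4
      subst h5
      have h6' : ((Quotient.out x' : G)⁻¹ * Quotient.out x) ∈ MulAction.stabilizer G (v q) := h4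
      have h6 : ((Quotient.out x' : G)⁻¹ * Quotient.out x) ∈ H q := by
        rw [h0 q] at h6'
        exact h6'
      have h7 : x' = x := by
        rw [← QuotientGroup.eq] at h6
        rw [← Quotient.out_eq x', ← Quotient.out_eq x]
        exact h6
      rw [h7]
    · intro y
      obtain ⟨q, g, rfl⟩ := h1 y
      exact ⟨⟨q, (g : G ⧸ H q)⟩, hval q g⟩
  exact ⟨Equiv.ofBijective _ hbij, fun x => rfl, fun q g => hval q g⟩

theorem GG.tree_of (D : GG G) {V0 V1 : Type} [MulAction G V0] [MulAction G V1] (o t : V1 → V0)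
    (ho : ∀ (g : G) (e : V1), o (g • e) = g • o e) (ht : ∀ (g : G) (e : V1), t (g • e) = g • t e)
    (v : D.Q0 → V0) (w : D.Q1 → V1)
    (hv0 : ∀ q, MulAction.stabilizer G (v q) = D.H0 q) (hv1 : ∀ x : V0, ∃ q, ∃ g : G, x = g • v q)
    (hv2 : ∀ q q' (g : G), g • v q = v q' → q = q')
    (hw0 : ∀ r, MulAction.stabilizer G (w r) = D.H1 r) (hw1 : ∀ x : V1, ∃ r, ∃ g : G, x = g • w r)
    (hw2 : ∀ r r' (g : G), g • w r = w r' → r = r')
    (hco : ∀ r, o (w r) = D.c r • v (D.o r)) (hct : ∀ r, t (w r) = D.c' r • v (D.t r))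
    (hT : (bip o t).IsTree) (hne : ∀ e, o e ≠ t e) : D.tree.IsTree ∧ ∀ e : D.V1, D.oV e ≠ D.tV e := by
  obtain ⟨α, hα, hα'⟩ := T2_equiv D.H0 v hv0 hv1 hv2
  obtain ⟨β, hβ, -⟩ := T2_equiv D.H1 w hw0 hw1 hw2
  have h1 : ∀ e : D.V1, o (β e) = α (D.oV e) := by
    intro e
    rw [hβ, ho, hco, ← mul_smul]
    exact (hα' (D.o e.1) (Quotient.out e.2 * D.c e.1)).symm
  have h2 : ∀ e : D.V1, t (β e) = α (D.tV e) := by
    intro e
    rw [hβ, ht, hct, ← mul_smul]
    exact (hα' (D.t e.1) (Quotient.out e.2 * D.c' e.1)).symm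
  refine ⟨T2_iso α β h1 h2 hT, fun e he => hne (β e) ?_⟩
  rw [h1, h2, he]

end Pool.Agent.LibCF24
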