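import Pool.Agent.LibCF24.BDefs
import Pool.Agent.LibCF24.G6
import Pool.Agent.LibCF24.T2

/-! Row B3 (MEDIUM). From spaces of vertex orbits and edge orbits to a CAT(0) group. GDefs, G6 (`GG.Good.space`), T2 (`GG.tree_of`).

`D : GG G` with `H0 q = stabilizer G (v q)`, `H1 r = stabilizer G (w r)`, `o := o'`, `t := t'`, `hc := hc`, `hc' := hc'`, `X, E, a, b, δ = 1`. `D.Good`: tree and `ne` by `GG.tree_of`, the rest are hypotheses (`aeq`: `cj` unfolds to the pair). `space`: `Ω`, `p`.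
`CAT0Group`: nonempty: `hT` gives a vertex of `bip` (`IsTree.connected.nonempty`), hence some `x : V0` (for an edge `e` take `o e`), `hv1`: some `q`, a point of `X q`. Proper: `PA G Ω`: radius `r / 2`: `y, g • y ∈ ball x (r/2)` gives `dist x (g • x) < r`.
Cocompact: `CA G Ω`. -/

set_option autoImplicit false

noncomputable section

open Set
open LibBD85 (QLength IsCAT0)

namespace Pool.Agent.LibCF24

theorem build_gg {G : Type} [Group G] {V0 V1 : Type} [MulAction G V0] [MulAction G V1] (o t : V1 → V0)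
    (ho : ∀ (g : G) (x : V1), o (g • x) = g • o x) (ht : ∀ (g : G) (x : V1), t (g • x) = g • t x)
    (hT : (bip o t).IsTree) (hne : ∀ x, o x ≠ t x) {Q0 Q1 : Type} [Finite Q0] [Finite Q1] (v : Q0 → V0) (w : Q1 → V1)
    (hv1 : ∀ x : V0, ∃ q, ∃ g : G, x = g • v q) (hv2 : ∀ q q' (g : G), g • v q = v q' → q = q')
    (hw1 : ∀ x : V1, ∃ r, ∃ g : G, x = g • w r) (hw2 : ∀ r r' (g : G), g • w r = w r' → r = r')
    (o' t' : Q1 → Q0) (c c' : Q1 → G) (hco : ∀ r, o (w r) = c r • v (o' r)) (hct : ∀ r, t (w r) = c' r • v (t' r))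
    (hc : ∀ r, ∀ h ∈ MulAction.stabilizer G (w r), (c r)⁻¹ * h * c r ∈ MulAction.stabilizer G (v (o' r)))
    (hc' : ∀ r, ∀ h ∈ MulAction.stabilizer G (w r), (c' r)⁻¹ * h * c' r ∈ MulAction.stabilizer G (v (t' r)))
    (X : Q0 → Type) (mX : ∀ q, MetricSpace (X q)) (aX : ∀ q, MulAction (MulAction.stabilizer G (v q)) (X q))
    (hX : ∀ q, IsCAT0 (X q) ∧ Nonempty (X q) ∧ (∀ (g : MulAction.stabilizer G (v q)) (x x' : X q), dist (g • x) (g • x') = dist x x') ∧
      PA (MulAction.stabilizer G (v q)) (X q) ∧ CA (MulAction.stabilizer G (v q)) (X q))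
    (E : Q1 → Type) (mE : ∀ r, MetricSpace (E r)) (aE : ∀ r, MulAction (MulAction.stabilizer G (w r)) (E r))
    (a : ∀ r, E r → X (o' r)) (b : ∀ r, E r → X (t' r))
    (hE : ∀ r, IsCAT0 (E r) ∧ ProperSpace (E r) ∧ Nonempty (E r) ∧ Isometry (a r) ∧ Isometry (b r) ∧
      (∀ (g : MulAction.stabilizer G (w r)) u, a r (g • u) = (cj _ _ (c r) (hc r) g) • a r u) ∧
      (∀ (g : MulAction.stabilizer G (w r)) u, b r (g • u) = (cj _ _ (c' r) (hc' r) g) • b r u) ∧
      (∀ (g : MulAction.stabilizer G (w r)) (u u' : E r), dist (g • u) (g • u') = dist u u') ∧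
      PA (MulAction.stabilizer G (w r)) (E r) ∧ CA (MulAction.stabilizer G (w r)) (E r)) : LibBD85.CAT0Group G := by
  let D : GG G :=
    { Q0 := Q0
      Q1 := Q1
      H0 := fun q => MulAction.stabilizer G (v q)
      H1 := fun r => MulAction.stabilizer G (w r)
      o := o'
      t := t'
      c := c
      c' := c'
      hc := hc
      hc' := hc'
      X := X
      E := E
      mX := mX
      mE := mE
      aX := aX
      aE := aE
      a := a
      b := b
      δ := 1 }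
  have htree := GG.tree_of D o t ho ht v w (fun _ => rfl) hv1 hv2 (fun _ => rfl) hw1 hw2 hco hct hT hne
  have hgood : D.Good :=
    { δpos := one_pos
      tree := htree.1
      ne := htree.2
      aiso := fun r => (hE r).2.2.2.1
      biso := fun r => (hE r).2.2.2.2.1
      aeq := fun r => (hE r).2.2.2.2.2.1
      beq := fun r => (hE r).2.2.2.2.2.2.1
      Xiso := fun q => (hX q).2.2.1
      Eiso := fun r => (hE r).2.2.2.2.2.2.2.1
      Xcat := fun q => (hX q).1
      Ecat := fun r => (hE r).1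
      Eproper := fun r => (hE r).2.1
      Ene := fun r => (hE r).2.2.1 }
  obtain ⟨Ω, mΩ, aΩ, p, hp⟩ := hgood.space
  have hPA : PA G Ω := hp.proper (fun q => (hX q).2.2.2.1) (fun r => (hE r).2.2.2.2.2.2.2.2.1)
  have hCA : CA G Ω := hp.cocompact (inferInstanceAs (Finite Q0)) (inferInstanceAs (Finite Q1))
    (fun q => (hX q).2.2.2.2) (fun r => (hE r).2.2.2.2.2.2.2.2.2)
  have hV : Nonempty V0 := by
    obtain ⟨x⟩ := hT.connected.nonempty
    rcases x with x | e
    · exact ⟨x⟩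
    · exact ⟨o e⟩
  have hne' : Nonempty Ω := by
    obtain ⟨x⟩ := hV
    obtain ⟨q, -, -⟩ := hv1 x
    obtain ⟨y⟩ := (hX q).2.1
    exact ⟨p q y⟩
  refine ⟨Ω, mΩ, aΩ, hne', hp.cat0, hp.iso, ?_, hCA⟩
  intro x
  obtain ⟨r, hr, hfin⟩ := hPA x
  refine ⟨r / 2, by linarith, hfin.subset ?_⟩
  rintro g ⟨y, hy, hgy⟩
  rw [Metric.mem_ball] at hy hgy
  show dist x (g • x) < r
  have h1 := dist_triangle x (g • y) (g • x)
  rw [hp.iso, dist_comm x (g • y)] at h1
  linarith

end Pool.Agent.LibCF24
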