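import Pool.Agent.LibCF24.B1
import Pool.Agent.LibCF24.B2
import Pool.Agent.LibCF24.B3

/-! Row B4 (MEDIUM/LONG). The construction. B1 (`vertex_data`, `edge_gen`), B2 (`edge_exists`), B3 (`build_gg`) may be cited as stated.

`Q0 = MulAction.orbitRel.Quotient G V0`, `v q = q.out` and the same for the edges, `w r = r.out`. `o (w r) = c r • v (o' r)`, `t (w r) = c' r • v (t' r)` (choose). `h ∈ stabilizer (w r)` fixes `o (w r)` (`ho`), so `(c r)⁻¹ h c r` fixes `v (o' r)`.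
`edge_gen` for `K = stabilizer (w r) ≤ stabilizer (o (w r))`: `z r`, `γ r` (called `c` there). `S` = the finite set of all `(c r)⁻¹ (z r) (c r)`, `(c r)⁻¹ (γ r) (c r)`, `(c' r)⁻¹ (z r) (c' r)`, `(c' r)⁻¹ (γ r) (c' r)` (as elements of `G`).
`C` `≥` the maximum of the finitely many `C₀ q` of `vertex_data e (stabilizer G (v q)) _ (L (v q)) _ S`, and of the numbers `1 - L (o (w r)) (z r)`, `1 + (L (γ z) - L γ - L z)² / (4 L γ) - L z` with `L = L (o (w r))`, `γ = γ r`, `z = z r` (if `γ r ≠ 1`).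
`choose X mX aX hX`. For the edges: `K = stabilizer G (w r)` acts on `X (o' r)` through `cj _ _ (c r) _` (`MulAction.compHom`), on `X (t' r)` through `cj _ _ (c' r) _`; `PA` is inherited (`cj_injective`). `edge_exists` with `lc = L (o (w r)) (γ r)`,
`lz = L (o (w r)) (z r) + C`, `lcz = L (o (w r)) (γ r * z r) + C`. By `hL2` (`g = c r`, vertex `v (o' r)`): `L (v (o' r)) ((c r)⁻¹ h c r) = L (o (w r)) h` for `h ∈ K`, `e h ∈ {1, ofAdd 1}` (and `e` is invariant under conjugation), and by `hL3`, `hL2`: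
`L (v (t' r)) ((c' r)⁻¹ h c' r) = L (t (w r)) h = L (o (w r)) h`. The lines and planes come from the last two clauses of `vertex_data`. Finally `build_gg`. -/

set_option autoImplicit false

noncomputable section

open Set
open LibBD85 (QLength IsCAT0)

namespace Pool.Agent.LibCF24

private theorem B4_e {G : Type} [Group G] (e : G →* Multiplicative ℤ) (c h : G) : e (c⁻¹ * h * c) = e h := by
  rw [map_mul, map_mul, map_inv, mul_comm (e c)⁻¹ (e h), mul_assoc, inv_mul_cancel, mul_one]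

private theorem B4_edge {G : Type} [Group G] (e : G →* Multiplicative ℤ) (K H₁ H₂ : Subgroup G) (c₁ c₂ : G)
    (hc₁ : ∀ h ∈ K, c₁⁻¹ * h * c₁ ∈ H₁) (hc₂ : ∀ h ∈ K, c₂⁻¹ * h * c₂ ∈ H₂) (X₁ X₂ : Type)
    [MetricSpace X₁] [MetricSpace X₂] [MulAction H₁ X₁] [MulAction H₂ X₂] (L₁ L₂ Lo : G → ℝ) (C : ℝ) (S : Set G)
    (hPA : PA H₁ X₁)
    (line₁ : ∀ s : H₁, (s : G) ∈ S → e s = Multiplicative.ofAdd 1 →
        ∃ ℓ : ℝ → X₁, Isometry ℓ ∧ ∀ u, s • ℓ u = ℓ (u + √(L₁ s + C)))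
    (plane₁ : ∀ c s : H₁, (c : G) ∈ S → (s : G) ∈ S → e c = 1 → c ≠ 1 → e s = Multiplicative.ofAdd 1 → Commute c s →
        ∀ γ ζ : Ed 2, ‖γ‖ ^ 2 = L₁ c → ‖ζ‖ ^ 2 = L₁ s + C → ‖γ + ζ‖ ^ 2 = L₁ (c * s) + C →
          ∃ P : Ed 2 → X₁, Isometry P ∧ (∀ u, c • P u = P (u + γ)) ∧ ∀ u, s • P u = P (u + ζ))
    (line₂ : ∀ s : H₂, (s : G) ∈ S → e s = Multiplicative.ofAdd 1 →
        ∃ ℓ : ℝ → X₂, Isometry ℓ ∧ ∀ u, s • ℓ u = ℓ (u + √(L₂ s + C)))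
    (plane₂ : ∀ c s : H₂, (c : G) ∈ S → (s : G) ∈ S → e c = 1 → c ≠ 1 → e s = Multiplicative.ofAdd 1 → Commute c s →
        ∀ γ ζ : Ed 2, ‖γ‖ ^ 2 = L₂ c → ‖ζ‖ ^ 2 = L₂ s + C → ‖γ + ζ‖ ^ 2 = L₂ (c * s) + C →
          ∃ P : Ed 2 → X₂, Isometry P ∧ (∀ u, c • P u = P (u + γ)) ∧ ∀ u, s • P u = P (u + ζ))
    (γ z : G) (hγ : γ ∈ K) (hz : z ∈ K) (ez : e z = Multiplicative.ofAdd 1) (eγ : e γ = 1) (hcomm : Commute γ z)
    (hgen : ∀ g ∈ K, ∃ i j : ℤ, g = γ ^ i * z ^ j)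
    (m₁ : c₁⁻¹ * z * c₁ ∈ S) (m₂ : c₁⁻¹ * γ * c₁ ∈ S) (m₃ : c₂⁻¹ * z * c₂ ∈ S) (m₄ : c₂⁻¹ * γ * c₂ ∈ S)
    (hL₁ : ∀ h ∈ K, (e h = 1 ∨ e h = Multiplicative.ofAdd 1) → L₁ (c₁⁻¹ * h * c₁) = Lo h)
    (hL₂ : ∀ h ∈ K, (e h = 1 ∨ e h = Multiplicative.ofAdd 1) → L₂ (c₂⁻¹ * h * c₂) = Lo h)
    (hC1 : 0 < Lo z + C) (hC2 : γ ≠ 1 → 0 < Lo γ)
    (hC3 : γ ≠ 1 → (Lo (γ * z) - Lo γ - Lo z) ^ 2 < 4 * Lo γ * (Lo z + C)) :
    ∃ (E : Type) (_ : MetricSpace E) (_ : MulAction K E) (a : E → X₁) (b : E → X₂), IsCAT0 E ∧ ProperSpace E ∧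
      Nonempty E ∧ Isometry a ∧ Isometry b ∧ (∀ (g : K) u, a (g • u) = (cj K H₁ c₁ hc₁ g) • a u) ∧
      (∀ (g : K) u, b (g • u) = (cj K H₂ c₂ hc₂ g) • b u) ∧
      (∀ (g : K) (u u' : E), dist (g • u) (g • u') = dist u u') ∧ PA K E ∧ CA K E := by
  let i₁ : MulAction K X₁ := MulAction.compHom X₁ (cj K H₁ c₁ hc₁)
  let i₂ : MulAction K X₂ := MulAction.compHom X₂ (cj K H₂ c₂ hc₂)
  have eγz : e (γ * z) = Multiplicative.ofAdd 1 := by rw [map_mul, eγ, one_mul, ez]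
  have hPA' : PA K X₁ := by
    intro x
    obtain ⟨r, hr, hf⟩ := hPA x
    exact ⟨r, hr, hf.preimage (cj_injective K H₁ c₁ hc₁).injOn⟩
  have hne₁ : ∀ (H : Subgroup G) (c : G) (hc : ∀ h ∈ K, c⁻¹ * h * c ∈ H), γ ≠ 1 → cj K H c hc ⟨γ, hγ⟩ ≠ 1 := by
    intro H c hc hg h
    apply hg
    have h' : cj K H c hc ⟨γ, hγ⟩ = cj K H c hc 1 := by rw [h, map_one]
    exact congrArg Subtype.val (cj_injective K H c hc h')
  have hcm : ∀ (H : Subgroup G) (c : G) (hc : ∀ h ∈ K, c⁻¹ * h * c ∈ H),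
      Commute (cj K H c hc ⟨γ, hγ⟩) (cj K H c hc ⟨z, hz⟩) := by
    intro H c hc
    have h1 : Commute (⟨γ, hγ⟩ : K) ⟨z, hz⟩ := Subtype.ext hcomm.eq
    exact h1.map (cj K H c hc)
  have hmul : ∀ c : G, c⁻¹ * γ * c * (c⁻¹ * z * c) = c⁻¹ * (γ * z) * c := fun c => by group
  refine edge_exists (K := K) (X₁ := X₁) (X₂ := X₂) ⟨γ, hγ⟩ ⟨z, hz⟩ ?_ hPA' (Lo γ) (Lo z + C) (Lo (γ * z) + C) hC1 ?_ ?_ ?_ ?_ ?_ ?_
  · intro g
    obtain ⟨i, j, hij⟩ := hgen g g.2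
    exact ⟨i, j, Subtype.ext hij⟩
  · intro h
    exact hC2 fun h' => h (Subtype.ext h')
  · intro h
    have h1 := hC3 fun h' => h (Subtype.ext h')
    have h2 : Lo (γ * z) + C - Lo γ - (Lo z + C) = Lo (γ * z) - Lo γ - Lo z := by ring
    rw [h2]
    exact h1
  · obtain ⟨ℓ, h1, h2⟩ := line₁ (cj K H₁ c₁ hc₁ ⟨z, hz⟩) m₁ ((B4_e e c₁ z).trans ez)
    refine ⟨ℓ, h1, fun u => ?_⟩
    have h3 := h2 u
    have h4 : L₁ ((cj K H₁ c₁ hc₁ ⟨z, hz⟩ : H₁) : G) = Lo z := hL₁ z hz (Or.inr ez)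
    rw [h4] at h3
    exact h3
  · obtain ⟨ℓ, h1, h2⟩ := line₂ (cj K H₂ c₂ hc₂ ⟨z, hz⟩) m₃ ((B4_e e c₂ z).trans ez)
    refine ⟨ℓ, h1, fun u => ?_⟩
    have h3 := h2 u
    have h4 : L₂ ((cj K H₂ c₂ hc₂ ⟨z, hz⟩ : H₂) : G) = Lo z := hL₂ z hz (Or.inr ez)
    rw [h4] at h3
    exact h3
  · intro hne γ' ζ' n1 n2 n3
    have hg : γ ≠ 1 := fun h' => hne (Subtype.ext h')
    have a1 : L₁ (c₁⁻¹ * γ * c₁) = Lo γ := hL₁ γ hγ (Or.inl eγ)
    have a2 : L₁ (c₁⁻¹ * z * c₁) = Lo z := hL₁ z hz (Or.inr ez)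
    have a3 : L₁ (c₁⁻¹ * γ * c₁ * (c₁⁻¹ * z * c₁)) = Lo (γ * z) := by
      rw [hmul]
      exact hL₁ _ (K.mul_mem hγ hz) (Or.inr eγz)
    obtain ⟨P, h1, h2, h3⟩ := plane₁ (cj K H₁ c₁ hc₁ ⟨γ, hγ⟩) (cj K H₁ c₁ hc₁ ⟨z, hz⟩) m₂ m₁ ((B4_e e c₁ γ).trans eγ)
      (hne₁ H₁ c₁ hc₁ hg) ((B4_e e c₁ z).trans ez) (hcm H₁ c₁ hc₁) γ' ζ' (n1.trans a1.symm)
      (n2.trans (congrArg (· + C) a2.symm)) (n3.trans (congrArg (· + C) a3.symm))
    exact ⟨P, h1, h2, h3⟩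
  · intro hne γ' ζ' n1 n2 n3
    have hg : γ ≠ 1 := fun h' => hne (Subtype.ext h')
    have a1 : L₂ (c₂⁻¹ * γ * c₂) = Lo γ := hL₂ γ hγ (Or.inl eγ)
    have a2 : L₂ (c₂⁻¹ * z * c₂) = Lo z := hL₂ z hz (Or.inr ez)
    have a3 : L₂ (c₂⁻¹ * γ * c₂ * (c₂⁻¹ * z * c₂)) = Lo (γ * z) := by
      rw [hmul]
      exact hL₂ _ (K.mul_mem hγ hz) (Or.inr eγz)
    obtain ⟨P, h1, h2, h3⟩ := plane₂ (cj K H₂ c₂ hc₂ ⟨γ, hγ⟩) (cj K H₂ c₂ hc₂ ⟨z, hz⟩) m₄ m₃ ((B4_e e c₂ γ).trans eγ)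
      (hne₁ H₂ c₂ hc₂ hg) ((B4_e e c₂ z).trans ez) (hcm H₂ c₂ hc₂) γ' ζ' (n1.trans a1.symm)
      (n2.trans (congrArg (· + C) a2.symm)) (n3.trans (congrArg (· + C) a3.symm))
    exact ⟨P, h1, h2, h3⟩

private theorem B4_orb {G V : Type} [Group G] [MulAction G V] :
    (∀ x : V, ∃ q : MulAction.orbitRel.Quotient G V, ∃ g : G, x = g • (Quotient.out q : V)) ∧
      ∀ (q q' : MulAction.orbitRel.Quotient G V) (g : G), g • (Quotient.out q : V) = Quotient.out q' → q = q' := by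
  constructor
  · intro x
    refine ⟨Quotient.mk (MulAction.orbitRel G V) x, ?_⟩
    have h := Quotient.mk_out (s := MulAction.orbitRel G V) x
    have h' : (Quotient.out (Quotient.mk (MulAction.orbitRel G V) x) : V) ∈ MulAction.orbit G x :=
      MulAction.orbitRel_apply.mp h
    obtain ⟨g, hg⟩ := MulAction.mem_orbit_iff.mp h'
    exact ⟨g⁻¹, by rw [← hg, inv_smul_smul]⟩
  · intro q q' g h
    have h1 : Quotient.mk (MulAction.orbitRel G V) (Quotient.out q) = q := Quotient.out_eq q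
    have h2 : Quotient.mk (MulAction.orbitRel G V) (Quotient.out q') = q' := Quotient.out_eq q'
    rw [← h1, ← h2, ← h]
    apply Quotient.sound
    exact MulAction.orbitRel_apply.mpr (MulAction.mem_orbit_iff.mpr ⟨g⁻¹, inv_smul_smul g _⟩)

theorem build {G : Type} [Group G] (e : G →* Multiplicative ℤ) {V0 V1 : Type} [MulAction G V0] [MulAction G V1] (o t : V1 → V0)
    (ho : ∀ (g : G) (x : V1), o (g • x) = g • o x) (ht : ∀ (g : G) (x : V1), t (g • x) = g • t x)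
    (hT : (bip o t).IsTree) (hne : ∀ x, o x ≠ t x)
    (hf0 : Finite (MulAction.orbitRel.Quotient G V0)) (hf1 : Finite (MulAction.orbitRel.Quotient G V1))
    (hv : ∀ v : V0, VG e (MulAction.stabilizer G v)) (he : ∀ x : V1, EG e (MulAction.stabilizer G x))
    (L : V0 → G → ℝ) (hL1 : ∀ v, WL e (MulAction.stabilizer G v) (L v))
    (hL2 : ∀ (g : G) (v : V0), ∀ h ∈ MulAction.stabilizer G v, (e h = 1 ∨ e h = Multiplicative.ofAdd 1) →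
      L (g • v) (g * h * g⁻¹) = L v h)
    (hL3 : ∀ x : V1, ∀ h ∈ MulAction.stabilizer G x, (e h = 1 ∨ e h = Multiplicative.ofAdd 1) → L (o x) h = L (t x) h) :
    LibBD85.CAT0Group G := by
  classical
  obtain ⟨hv1, hv2⟩ := B4_orb (G := G) (V := V0)
  obtain ⟨hw1, hw2⟩ := B4_orb (G := G) (V := V1)
  set Q0 := MulAction.orbitRel.Quotient G V0 with hQ0
  set Q1 := MulAction.orbitRel.Quotient G V1 with hQ1
  set v : Q0 → V0 := Quotient.out with hvdef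
  set w : Q1 → V1 := Quotient.out with hwdef
  choose o' c hco using fun r : Q1 => hv1 (o (w r))
  choose t' c' hct using fun r : Q1 => hv1 (t (w r))
  have hc : ∀ r, ∀ h ∈ MulAction.stabilizer G (w r), (c r)⁻¹ * h * c r ∈ MulAction.stabilizer G (v (o' r)) := by
    intro r h hh
    rw [MulAction.mem_stabilizer_iff] at hh ⊢
    rw [mul_smul, mul_smul, ← hco, ← ho, hh, hco, inv_smul_smul]
  have hc' : ∀ r, ∀ h ∈ MulAction.stabilizer G (w r), (c' r)⁻¹ * h * c' r ∈ MulAction.stabilizer G (v (t' r)) := by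
    intro r h hh
    rw [MulAction.mem_stabilizer_iff] at hh ⊢
    rw [mul_smul, mul_smul, ← hct, ← ht, hh, hct, inv_smul_smul]
  have hle : ∀ r, MulAction.stabilizer G (w r) ≤ MulAction.stabilizer G (o (w r)) := by
    intro r h hh
    rw [MulAction.mem_stabilizer_iff] at hh ⊢
    rw [← ho, hh]
  choose z hz γ hγ ez eγ hcomm hgen using fun r : Q1 =>
    edge_gen e (MulAction.stabilizer G (w r)) (MulAction.stabilizer G (o (w r))) (hle r) (hv _) (he _)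
  set S : Set G := ⋃ r : Q1, {(c r)⁻¹ * z r * c r, (c r)⁻¹ * γ r * c r, (c' r)⁻¹ * z r * c' r, (c' r)⁻¹ * γ r * c' r}
    with hS
  have hSf : S.Finite := Set.finite_iUnion fun r => Set.toFinite _
  choose C₀ hC₀ using fun q : Q0 => vertex_data e (MulAction.stabilizer G (v q)) (hv _) (L (v q)) (hL1 _) S hSf
  obtain ⟨M₀, hM₀⟩ := (Set.finite_range C₀).bddAbove
  obtain ⟨M₁, hM₁⟩ := (Set.finite_range fun r : Q1 => 1 - L (o (w r)) (z r)).bddAbove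
  obtain ⟨M₂, hM₂⟩ := (Set.finite_range fun r : Q1 => 1 + (L (o (w r)) (γ r * z r) - L (o (w r)) (γ r) -
    L (o (w r)) (z r)) ^ 2 / (4 * L (o (w r)) (γ r)) - L (o (w r)) (z r)).bddAbove
  set C : ℝ := max M₀ (max M₁ M₂) with hC
  have hC0 : ∀ q, C₀ q ≤ C := fun q => (hM₀ ⟨q, rfl⟩).trans (le_max_left _ _)
  have hC1 : ∀ r, 1 - L (o (w r)) (z r) ≤ C := fun r =>
    (hM₁ ⟨r, rfl⟩).trans ((le_max_left _ _).trans (le_max_right _ _))
  have hC2 : ∀ r, 1 + (L (o (w r)) (γ r * z r) - L (o (w r)) (γ r) - L (o (w r)) (z r)) ^ 2 /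
      (4 * L (o (w r)) (γ r)) - L (o (w r)) (z r) ≤ C := fun r =>
    (hM₂ ⟨r, rfl⟩).trans ((le_max_right _ _).trans (le_max_right _ _))
  choose X mX aX hX using fun q : Q0 => hC₀ q C (hC0 q)
  have hLo : ∀ r, ∀ h ∈ MulAction.stabilizer G (w r), (e h = 1 ∨ e h = Multiplicative.ofAdd 1) →
      L (v (o' r)) ((c r)⁻¹ * h * c r) = L (o (w r)) h := by
    intro r h hh heh
    have h1 := hL2 (c r) (v (o' r)) _ (hc r h hh) (by rw [B4_e]; exact heh)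
    rw [← hco] at h1
    rw [← h1]
    congr 1
    group
  have hLt : ∀ r, ∀ h ∈ MulAction.stabilizer G (w r), (e h = 1 ∨ e h = Multiplicative.ofAdd 1) →
      L (v (t' r)) ((c' r)⁻¹ * h * c' r) = L (o (w r)) h := by
    intro r h hh heh
    have h1 := hL2 (c' r) (v (t' r)) _ (hc' r h hh) (by rw [B4_e]; exact heh)
    rw [← hct] at h1
    rw [hL3 (w r) h hh heh, ← h1]
    congr 1
    group
  have hm : ∀ r, ∀ x ∈ ({(c r)⁻¹ * z r * c r, (c r)⁻¹ * γ r * c r, (c' r)⁻¹ * z r * c' r, (c' r)⁻¹ * γ r * c' r} : Set G),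
      x ∈ S := fun r x hx => Set.mem_iUnion.mpr ⟨r, hx⟩
  have hE0 := fun r : Q1 => B4_edge e (MulAction.stabilizer G (w r)) (MulAction.stabilizer G (v (o' r)))
    (MulAction.stabilizer G (v (t' r))) (c r) (c' r) (hc r) (hc' r) (X (o' r)) (X (t' r)) (L (v (o' r))) (L (v (t' r)))
    (L (o (w r))) C S (hX (o' r)).2.2.2.1 (hX (o' r)).2.2.2.2.2.1 (hX (o' r)).2.2.2.2.2.2 (hX (t' r)).2.2.2.2.2.1
    (hX (t' r)).2.2.2.2.2.2 (γ r) (z r) (hγ r) (hz r) (ez r) (eγ r) (hcomm r) (hgen r)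
    (hm r _ (by simp)) (hm r _ (by simp)) (hm r _ (by simp)) (hm r _ (by simp)) (hLo r) (hLt r)
    (by have := hC1 r; linarith) (fun hne => (hL1 (o (w r))).pos (γ r) (hle r (hγ r)) (eγ r) hne)
    (fun hne => by
      have hp := (hL1 (o (w r))).pos (γ r) (hle r (hγ r)) (eγ r) hne
      have h2 := hC2 r
      have h3 : (L (o (w r)) (γ r * z r) - L (o (w r)) (γ r) - L (o (w r)) (z r)) ^ 2 / (4 * L (o (w r)) (γ r)) <
          L (o (w r)) (z r) + C := by linarith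
      rw [div_lt_iff₀ (by positivity)] at h3
      linarith)
  choose E mE aE a b hE using hE0
  exact build_gg o t ho ht hT hne v w hv1 hv2 hw1 hw2 o' t' c c' hco hct hc hc' X mX aX
    (fun q => ⟨(hX q).1, (hX q).2.1, (hX q).2.2.1, (hX q).2.2.2.1, (hX q).2.2.2.2.1⟩) E mE aE a b hE

end Pool.Agent.LibCF24
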