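import Pool.Agent.LibCF24.LDefs
import Pool.Agent.LibBD85.Virt

/-! # Vertex groups, edge groups, weak lengths -/

set_option autoImplicit false

noncomputable section

open Set

namespace Pool.Agent.LibCF24

variable {G : Type} [Group G]

/-- `H = (H ∩ ker e) × ⟨z⟩`, `e z = 1`, `H ∩ ker e` free of finite rank -/
def VG (e : G →* Multiplicative ℤ) (H : Subgroup G) : Prop :=
  ∃ z ∈ H, e z = Multiplicative.ofAdd 1 ∧ (∀ g ∈ H, Commute g z) ∧ ∃ k : ℕ, Nonempty (↥(H ⊓ e.ker) ≃* FreeGroup (Fin k))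

/-- `e` is onto on `K`, `K ∩ ker e` is cyclic -/
def EG (e : G →* Multiplicative ℤ) (K : Subgroup G) : Prop :=
  (∃ z ∈ K, e z = Multiplicative.ofAdd 1) ∧ IsCyclic ↥(K ⊓ e.ker)

/-- weak length on the elements `g ∈ H` with `e g = 0` or `e g = 1` -/
structure WL (e : G →* Multiplicative ℤ) (H : Subgroup G) (L : G → ℝ) : Prop where
  pos : ∀ g ∈ H, e g = 1 → g ≠ 1 → 0 < L g
  conj : ∀ g ∈ H, ∀ h ∈ H, e g = 1 ∨ e g = Multiplicative.ofAdd 1 → L (h * g * h⁻¹) = L g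
  pow : ∀ g ∈ H, e g = 1 → ∀ k : ℤ, L (g ^ k) = k ^ 2 * L g
  add : ∀ s ∈ H, ∀ g ∈ H, ∀ h ∈ H, e s = Multiplicative.ofAdd 1 → e g = 1 → e h = 1 → Commute g s → Commute h s →
    L (g * h * s) - L (g * h) - L s = (L (g * s) - L g - L s) + (L (h * s) - L h - L s)

/-- conjugation by `c⁻¹` from `K` to `H` -/
def cj (K H : Subgroup G) (c : G) (hc : ∀ h ∈ K, c⁻¹ * h * c ∈ H) : K →* H where
  toFun h := ⟨c⁻¹ * h * c, hc h h.2⟩
  map_one' := by
    apply Subtype.ext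
    show c⁻¹ * 1 * c = 1
    group
  map_mul' x y := by
    apply Subtype.ext
    show c⁻¹ * (x * y) * c = c⁻¹ * x * c * (c⁻¹ * y * c)
    group

theorem cj_injective (K H : Subgroup G) (c : G) (hc : ∀ h ∈ K, c⁻¹ * h * c ∈ H) : Function.Injective (cj K H c hc) := by
  intro x y hxy
  have h := congrArg Subtype.val hxy
  have h' : c⁻¹ * (x : G) * c = c⁻¹ * (y : G) * c := h
  exact Subtype.ext (by simpa using h')

end Pool.Agent.LibCF24
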