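import Pool.Agent.LibCF24.T0

/-! Row C1 (MEDIUM). Orientation of a tree with an action without inversions. MDefs, M0 not needed.

Choose a strict linear order `<` on the set of orbits of `G` on `V × V` (well ordering of a type: `WellOrderingRel`, or `linearOrderOfSTO`). `V1 = {p : V × V // T.Adj p.1 p.2 ∧ orbit p < orbit p.swap}`, `o`, `t` the projections, diagonal action.
`orbit p ≠ orbit p.swap` for adjacent `p` by `hinv` (if `g • (v, w) = (w, v)`), so exactly one of `p`, `p.swap` is in `V1`. The tree: `bip o t` is the barycentric subdivision of `T`. Proof with `isTree_of_parent` (T0, proved: rooted criterion) or directly: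
root `r : V`; for `v ≠ r` let `pv v` be the next vertex on the path from `v` to `r` in `T` and `dep v` its distance to `r`; parent of `inl v` = `inr` (the edge between `v` and `pv v`), parent of `inr x` = `inl` (the end of `x` nearer to `r`), depths `2 dep v`,
`2 (dep of the nearer end) + 1`. For adjacent `v, w` in a tree exactly one of `w = pv v`, `v = pv w` holds. -/

set_option autoImplicit false

noncomputable section

open Set


namespace Pool.Agent.LibCF24

private theorem C1_path {V : Type} (T : SimpleGraph V) (hT : T.IsTree) (r : V) :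
    ∃ P : ∀ v, T.Walk v r, (∀ v, (P v).IsPath) ∧ ∀ v (q : T.Walk v r), q.IsPath → q = P v := by
  choose P hP using fun v => hT.existsUnique_path v r
  exact ⟨P, fun v => (hP v).1, fun v q hq => (hP v).2 q hq⟩

private theorem C1_par {V : Type} (T : SimpleGraph V) (hT : T.IsTree) :
    ∃ (r : V) (par : V → V) (dep : V → ℕ), (∀ v, v ≠ r → T.Adj v (par v) ∧ dep v = dep (par v) + 1) ∧
      ∀ v w, T.Adj v w → (v ≠ r ∧ w = par v) ∨ (w ≠ r ∧ v = par w) := by
  classical
  have hne : Nonempty V := hT.1.nonempty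
  obtain ⟨r⟩ := hne
  obtain ⟨P, hP, hu⟩ := C1_path T hT r
  refine ⟨r, fun v => (P v).snd, fun v => (P v).length, ?_, ?_⟩
  · intro v hv
    have hnil : ¬ (P v).Nil := SimpleGraph.Walk.not_nil_of_ne hv
    refine ⟨(P v).adj_snd hnil, ?_⟩
    have h1 : (P v).tail = P ((P v).snd) := hu _ _ (hP v).tail
    have h2 := (P v).length_tail_add_one hnil
    change (P v).length = (P ((P v).snd)).length + 1
    rw [← h1, h2]
  · intro v w hvw
    by_cases hv : v ∈ (P w).support
    · right
      have hwr : w ≠ r := by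
        rintro rfl
        have h1 : P w = SimpleGraph.Walk.nil := (hu w _ SimpleGraph.Walk.IsPath.nil).symm
        rw [h1, SimpleGraph.Walk.support_nil, List.mem_singleton] at hv
        exact hvw.ne hv
      refine ⟨hwr, ?_⟩
      have hq : ((P w).dropUntil v hv).IsPath := (hP w).dropUntil hv
      have hw : w ∉ ((P w).dropUntil v hv).support := by
        intro hw
        have h2 : (((P w).takeUntil v hv).append ((P w).dropUntil v hv)).IsPath := by
          rw [SimpleGraph.Walk.take_spec]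
          exact hP w
        have h3 := h2.support_nodup
        rw [SimpleGraph.Walk.support_append, List.nodup_append] at h3
        rw [SimpleGraph.Walk.support_eq_cons, List.mem_cons] at hw
        rcases hw with hw | hw
        · exact hvw.ne hw.symm
        · exact h3.2.2 _ (SimpleGraph.Walk.start_mem_support _) _ hw rfl
      have h3 : (SimpleGraph.Walk.cons hvw.symm ((P w).dropUntil v hv)).IsPath := hq.cons hw
      have h4 := hu w _ h3
      change v = (P w).snd
      rw [← h4, SimpleGraph.Walk.snd_cons]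
    · left
      have h3 : (SimpleGraph.Walk.cons hvw (P w)).IsPath := (hP w).cons hv
      have h4 := hu v _ h3
      refine ⟨?_, ?_⟩
      · rintro rfl
        have h1 : P v = SimpleGraph.Walk.nil := (hu v _ SimpleGraph.Walk.IsPath.nil).symm
        rw [h1] at h4
        exact absurd (congrArg SimpleGraph.Walk.length h4) (by simp)
      · change w = (P v).snd
        rw [← h4, SimpleGraph.Walk.snd_cons]

private theorem C1_bip {V V1 : Type} (T : SimpleGraph V) (hT : T.IsTree) (o t : V1 → V)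
    (ha : ∀ x, T.Adj (o x) (t x)) (hb : ∀ x x', o x = o x' → t x = t x' → x = x')
    (hb' : ∀ x x', o x = t x' → t x = o x' → False)
    (hc : ∀ v w, T.Adj v w → ∃ x, (o x = v ∧ t x = w) ∨ (o x = w ∧ t x = v)) : (bip o t).IsTree := by
  classical
  obtain ⟨r, par, dep, h1, h2⟩ := C1_par T hT
  have hdep : ∀ v, v ≠ r → v ≠ par (par v) ∨ par v = r := by
    intro v hv
    by_cases h : par v = r
    · exact Or.inr h
    · left
      intro h3
      have h4 := (h1 v hv).2
      have h5 := (h1 _ h).2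
      rw [← h3] at h5
      omega
  -- the edge of a vertex
  have he : ∀ v, ∃ x : Option V1, v ≠ r → ∃ y, x = some y ∧ ((o y = v ∧ t y = par v) ∨ (o y = par v ∧ t y = v)) := by
    intro v
    by_cases hv : v = r
    · exact ⟨none, fun h => absurd hv h⟩
    · obtain ⟨x, hx⟩ := hc v (par v) (h1 v hv).1
      exact ⟨some x, fun _ => ⟨x, rfl, hx⟩⟩
  choose E hE using he
  obtain ⟨near, hnear⟩ : ∃ near : V1 → V, near = fun x => if o x ≠ r ∧ t x = par (o x) then t x else o x := ⟨_, rfl⟩
  -- the far end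
  have hfar : ∀ x, (near x = t x ∧ o x ≠ r ∧ t x = par (o x)) ∨ (near x = o x ∧ t x ≠ r ∧ o x = par (t x)) := by
    intro x
    by_cases h : o x ≠ r ∧ t x = par (o x)
    · left
      rw [hnear]
      exact ⟨if_pos h, h⟩
    · right
      refine ⟨by rw [hnear]; exact if_neg h, ?_⟩
      rcases h2 _ _ (ha x) with h3 | h3
      · exact absurd h3 h
      · exact h3
  have hnear2 : ∀ x v, v ≠ r → ((o x = v ∧ t x = par v) ∨ (o x = par v ∧ t x = v)) → near x = par v := by
    intro x v hv h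
    rcases hfar x with ⟨h3, h4, h5⟩ | ⟨h3, h4, h5⟩
    · rcases h with ⟨h6, h7⟩ | ⟨h6, h7⟩
      · rw [h3, h7]
      · exfalso
        have e1 := (h1 _ h4).2
        have e2 := (h1 _ hv).2
        rw [← h5, h7, h6] at e1
        omega
    · rcases h with ⟨h6, h7⟩ | ⟨h6, h7⟩
      · exfalso
        have e1 := (h1 _ h4).2
        have e2 := (h1 _ hv).2
        rw [← h5, h7, h6] at e1
        omega
      · rw [h3, h6]
  have huniq : ∀ x v, v ≠ r → ((o x = v ∧ t x = par v) ∨ (o x = par v ∧ t x = v)) → E v = some x := by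
    intro x v hv h
    obtain ⟨y, hy, h3⟩ := hE v hv
    rw [hy]
    congr 1
    rcases h with ⟨h6, h7⟩ | ⟨h6, h7⟩ <;> rcases h3 with ⟨h8, h9⟩ | ⟨h8, h9⟩
    · exact hb _ _ (h8.trans h6.symm) (h9.trans h7.symm)
    · exact (hb' y x (h8.trans h7.symm) (h9.trans h6.symm)).elim
    · exact (hb' y x (h8.trans h7.symm) (h9.trans h6.symm)).elim
    · exact hb _ _ (h8.trans h6.symm) (h9.trans h7.symm)
  obtain ⟨PR, hPR⟩ : ∃ PR : V ⊕ V1 → V ⊕ V1, PR = Sum.elim (fun v => (E v).elim (Sum.inl v) Sum.inr)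
    (fun x => Sum.inl (near x)) := ⟨_, rfl⟩
  have p1 : ∀ v x, E v = some x → PR (Sum.inl v) = Sum.inr x := by
    intro v x h
    rw [hPR, Sum.elim_inl, h]
    rfl
  have p2 : ∀ x, PR (Sum.inr x) = Sum.inl (near x) := by
    intro x
    rw [hPR, Sum.elim_inr]
  refine isTree_of_parent (bip o t) (Sum.inl r) PR
    (Sum.elim (fun v => 2 * dep v) (fun x => 2 * dep (near x) + 1)) ?_ ?_
  · rintro (v | x) hne
    · have hv : v ≠ r := fun h => hne (by rw [h])
      obtain ⟨y, hy, h3⟩ := hE v hv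
      rw [p1 v y hy, Sum.elim_inl, Sum.elim_inr, hnear2 y v hv h3, (h1 v hv).2]
      refine ⟨⟨y, v, ?_, Or.inl ⟨rfl, rfl⟩⟩, by omega⟩
      rcases h3 with ⟨h6, h7⟩ | ⟨h6, h7⟩
      · exact Or.inl h6.symm
      · exact Or.inr h7.symm
    · rw [p2 x, Sum.elim_inl, Sum.elim_inr]
      refine ⟨⟨x, near x, ?_, Or.inr ⟨rfl, rfl⟩⟩, by omega⟩
      rcases hfar x with ⟨h3, -⟩ | ⟨h3, -⟩
      · exact Or.inr h3
      · exact Or.inl h3
  · have hmain : ∀ x v, (v = o x ∨ v = t x) →
        (Sum.inl v ≠ (Sum.inl r : V ⊕ V1) ∧ Sum.inr x = PR (Sum.inl v)) ∨ Sum.inl v = PR (Sum.inr x) := by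
      intro x v hv
      rcases hfar x with ⟨h3, h4, h5⟩ | ⟨h3, h4, h5⟩
      · rcases hv with rfl | rfl
        · left
          refine ⟨fun h => h4 (Sum.inl_injective h), ?_⟩
          rw [p1 (o x) x (huniq x (o x) h4 (Or.inl ⟨rfl, h5⟩))]
        · right
          rw [p2, h3]
      · rcases hv with rfl | rfl
        · right
          rw [p2, h3]
        · left
          refine ⟨fun h => h4 (Sum.inl_injective h), ?_⟩
          rw [p1 (t x) x (huniq x (t x) h4 (Or.inr ⟨h5, rfl⟩))]
    rintro a b ⟨x, v, hv, ⟨rfl, rfl⟩ | ⟨rfl, rfl⟩⟩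
    · rcases hmain x v hv with h | h
      · exact Or.inl h
      · exact Or.inr ⟨fun h' => by simp at h', h⟩
    · rcases hmain x v hv with h | h
      · exact Or.inr h
      · exact Or.inl ⟨fun h' => by simp at h', h⟩

theorem orient {G V : Type} [Group G] [MulAction G V] (T : SimpleGraph V) (hT : T.IsTree)
    (hadj : ∀ (g : G) v w, T.Adj v w → T.Adj (g • v) (g • w)) (hinv : ∀ (g : G) v w, T.Adj v w → ¬ (g • v = w ∧ g • w = v)) :
    ∃ (V1 : Type) (_ : MulAction G V1) (o t : V1 → V), (∀ (g : G) x, o (g • x) = g • o x) ∧ (∀ (g : G) x, t (g • x) = g • t x) ∧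
      (bip o t).IsTree ∧ (∀ x, T.Adj (o x) (t x)) ∧ (∀ x x', o x = o x' → t x = t x' → x = x') ∧
      ∀ v w, T.Adj v w → ∃ x, (o x = v ∧ t x = w) ∨ (o x = w ∧ t x = v) := by
  classical
  obtain ⟨Q, hQ⟩ : ∃ Q : V × V → MulAction.orbitRel.Quotient G (V × V), Q = fun p => Quotient.mk _ p := ⟨_, rfl⟩
  have hQ1 : ∀ (g : G) (p : V × V), Q (g • p) = Q p := by
    intro g p
    rw [hQ]
    exact Quotient.sound ⟨g, rfl⟩
  have hQ2 : ∀ p q : V × V, Q p = Q q → ∃ g : G, g • q = p := by
    intro p q h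
    rw [hQ] at h
    exact Quotient.exact h
  have hsw : ∀ (g : G) (p : V × V), (g • p).swap = g • p.swap := fun g p => rfl
  obtain ⟨R, hR⟩ : ∃ R : MulAction.orbitRel.Quotient G (V × V) → MulAction.orbitRel.Quotient G (V × V) → Prop,
    R = WellOrderingRel := ⟨_, rfl⟩
  have htri : ∀ a b, a ≠ b → R a b ∨ R b a := by
    intro a b h
    rw [hR]
    rcases trichotomous_of (WellOrderingRel) a b with h1 | h1 | h1
    · exact Or.inl h1
    · exact absurd h1 h
    · exact Or.inr h1
  have has : ∀ a b, R a b → R b a → False := by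
    intro a b h h'
    rw [hR] at h h'
    exact asymm_of WellOrderingRel h h'
  have hne : ∀ v w, T.Adj v w → Q (v, w) ≠ Q (w, v) := by
    intro v w hvw h
    obtain ⟨g, hg⟩ := hQ2 _ _ h
    have h1 : g • w = v := congrArg Prod.fst hg
    have h2 : g • v = w := congrArg Prod.snd hg
    exact hinv g v w hvw ⟨h2, h1⟩
  have hact : ∀ (g : G) (p : V × V), (T.Adj p.1 p.2 ∧ R (Q p) (Q p.swap)) →
      (T.Adj (g • p).1 (g • p).2 ∧ R (Q (g • p)) (Q (g • p).swap)) := by
    intro g p hp
    refine ⟨hadj g _ _ hp.1, ?_⟩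
    rw [hsw, hQ1, hQ1]
    exact hp.2
  let A : MulAction G {p : V × V // T.Adj p.1 p.2 ∧ R (Q p) (Q p.swap)} :=
    { smul := fun g x => ⟨g • x.1, hact g x.1 x.2⟩
      one_smul := fun x => Subtype.ext (one_smul G x.1)
      mul_smul := fun g h x => Subtype.ext (mul_smul g h x.1) }
  have ha : ∀ x : {p : V × V // T.Adj p.1 p.2 ∧ R (Q p) (Q p.swap)}, T.Adj x.1.1 x.1.2 := fun x => x.2.1
  have hb : ∀ x x' : {p : V × V // T.Adj p.1 p.2 ∧ R (Q p) (Q p.swap)}, x.1.1 = x'.1.1 → x.1.2 = x'.1.2 → x = x' :=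
    fun x x' h1 h2 => Subtype.ext (Prod.ext h1 h2)
  have hb' : ∀ x x' : {p : V × V // T.Adj p.1 p.2 ∧ R (Q p) (Q p.swap)}, x.1.1 = x'.1.2 → x.1.2 = x'.1.1 → False := by
    intro x x' h1 h2
    have h3 : x.1 = x'.1.swap := Prod.ext h1 h2
    have h4 := x.2.2
    rw [h3, Prod.swap_swap] at h4
    exact has _ _ h4 x'.2.2
  have hc : ∀ v w, T.Adj v w → ∃ x : {p : V × V // T.Adj p.1 p.2 ∧ R (Q p) (Q p.swap)},
      (x.1.1 = v ∧ x.1.2 = w) ∨ (x.1.1 = w ∧ x.1.2 = v) := by
    intro v w hvw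
    rcases htri _ _ (hne v w hvw) with h | h
    · exact ⟨⟨(v, w), hvw, h⟩, Or.inl ⟨rfl, rfl⟩⟩
    · exact ⟨⟨(w, v), hvw.symm, h⟩, Or.inr ⟨rfl, rfl⟩⟩
  exact ⟨_, A, fun x => x.1.1, fun x => x.1.2, fun g x => rfl, fun g x => rfl, C1_bip T hT _ _ ha hb hb' hc, ha, hb, hc⟩

end Pool.Agent.LibCF24
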