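import Pool.Agent.LibCF24.CDefs

/-! Row C2 (MEDIUM). Finitely generated subgroups of free groups. ONLY Mathlib.

Nielsen-Schreier (`subgroupIsFreeOfIsFree`): `H ≃* FreeGroup ι`. `H` finitely generated: finitely many generators of `FreeGroup ι` involve finitely many letters; if `a : ι` is another letter, the homomorphism `FreeGroup ι →* Multiplicative ℤ` with `a ↦ ofAdd 1`
and the other letters `↦ 1` kills all generators, so it is trivial, contradiction. So `ι` is finite, `ι ≃ Fin k` (`FreeGroup.freeGroupCongr`). (Or: abelianisation.) -/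

set_option autoImplicit false

noncomputable section

open Set
open LibBD85 (Torus CAT0Group InCAT0 QLength)

namespace Pool.Agent.LibCF24

private theorem C2_letters {ι : Type} (x : FreeGroup ι) :
    ∃ T : Finset ι, x ∈ Subgroup.closure (FreeGroup.of '' (T : Set ι)) := by
  classical
  induction x using FreeGroup.induction_on with
  | C1 => exact ⟨∅, Subgroup.one_mem _⟩
  | of a => exact ⟨{a}, Subgroup.subset_closure ⟨a, by simp, rfl⟩⟩
  | inv_of a _ => exact ⟨{a}, Subgroup.inv_mem _ (Subgroup.subset_closure ⟨a, by simp, rfl⟩)⟩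
  | mul x y hx hy =>
    obtain ⟨T, hT⟩ := hx
    obtain ⟨U, hU⟩ := hy
    refine ⟨T ∪ U, Subgroup.mul_mem _ ?_ ?_⟩
    · exact Subgroup.closure_mono (Set.image_mono (by simp)) hT
    · exact Subgroup.closure_mono (Set.image_mono (by simp)) hU

private theorem C2_fin {ι : Type} (S : Set (FreeGroup ι)) (hS : S.Finite)
    (hc : Subgroup.closure S = ⊤) : Finite ι := by
  classical
  choose T hT using (C2_letters (ι := ι))
  have h1 : Subgroup.closure S ≤
      Subgroup.closure (FreeGroup.of '' ((hS.toFinset.biUnion T : Finset ι) : Set ι)) := by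
    rw [Subgroup.closure_le]
    intro x hx
    refine Subgroup.closure_mono (Set.image_mono ?_) (hT x)
    intro i hi
    rw [Finset.mem_coe, Finset.mem_biUnion]
    exact ⟨x, hS.mem_toFinset.2 hx, hi⟩
  rw [hc, top_le_iff] at h1
  have h2 : ∀ a : ι, a ∈ hS.toFinset.biUnion T := by
    intro a
    by_contra ha
    let f : FreeGroup ι →* Multiplicative ℤ :=
      FreeGroup.lift (fun i => if i = a then Multiplicative.ofAdd 1 else 1)
    have h3 : Subgroup.closure (FreeGroup.of '' ((hS.toFinset.biUnion T : Finset ι) : Set ι)) ≤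
        f.ker := by
      rw [Subgroup.closure_le]
      rintro _ ⟨i, hi, rfl⟩
      show f (FreeGroup.of i) = 1
      have h4 : i ≠ a := by
        rintro rfl
        exact ha hi
      show FreeGroup.lift _ (FreeGroup.of i) = 1
      rw [FreeGroup.lift_apply_of, if_neg h4]
    rw [h1] at h3
    have h5 : f (FreeGroup.of a) = 1 := h3 (Subgroup.mem_top _)
    have h6 : f (FreeGroup.of a) = Multiplicative.ofAdd 1 := by
      show FreeGroup.lift _ (FreeGroup.of a) = _
      rw [FreeGroup.lift_apply_of, if_pos rfl]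
    rw [h6] at h5
    have h7 : (1 : ℤ) = 0 := congrArg Multiplicative.toAdd h5
    exact absurd h7 (by norm_num)
  exact Set.finite_univ_iff.1 ((hS.toFinset.biUnion T).finite_toSet.subset (fun a _ => h2 a))

theorem fg_free {n : ℕ} (H : Subgroup (Fr n)) (hH : H.FG) : ∃ k : ℕ, Nonempty (H ≃* Fr k) := by
  have hfree : IsFreeGroup H := subgroupIsFreeOfIsFree H
  have hfg : Group.FG H := (Group.fg_iff_subgroup_fg H).2 hH
  let e := IsFreeGroup.toFreeGroup H
  have hfg' : Group.FG (FreeGroup (IsFreeGroup.Generators H)) :=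
    Group.fg_of_surjective (f := e.toMonoidHom) e.surjective
  obtain ⟨S, hS, hSf⟩ := Group.fg_iff.1 hfg'
  have hfin := C2_fin S hSf hS
  obtain ⟨k, ⟨e'⟩⟩ := Finite.exists_equiv_fin (IsFreeGroup.Generators H)
  exact ⟨k, ⟨e.trans (FreeGroup.freeGroupCongr e')⟩⟩

end Pool.Agent.LibCF24
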