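import Pool.Agent.LibCF24.C2

/-! Row C3 (MEDIUM). The action of the mapping torus on the tree of a Dehn twist. CDefs, C2 (`fg_free`).

Action: `⟨x, t^m⟩ • v = x • f^m v` (`f^m` in `Equiv.Perm V`, integer powers; `f (g • v) = φ g • f v` gives `f^m (g • v) = φ^m(g) • f^m v`; `Torus φ = F_n ⋊ ℤ`, `(x, t^m) (y, t^l) = (x φ^m(y), t^(m+l))`).
Inversions: if `γ = (x, t^m)` exchanges the adjacent `v`, `w`: let `x₀` with `x₀ f` fixing `v` and `w`, `z = (x₀, t)`: `γ z^(-m) ∈ F_n` exchanges `v`, `w`. Cocompact: the same `F`.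
`VG`: `z = (x, t)` with `x` from the vertex condition: `z g z⁻¹ = x φ(g) x⁻¹ = g` for `g ∈ F_v`; every element of the stabiliser is `g z^m` with `g ∈ F_v` so it commutes with `z`; `stabilizer ⊓ ker e` = image of `F_v` under `inl`, `fg_free`.
`EG`: `z = (x, t)`, `x` from the edge condition; `(stab v ⊓ stab w) ⊓ ker e` = image of the cyclic group under `inl`. -/

set_option autoImplicit false

noncomputable section

open Set
open LibBD85 (Torus CAT0Group InCAT0 QLength)

namespace Pool.Agent.LibCF24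

section

variable {n : ℕ} {φ : MulAut (FreeGroup (Fin n))} {V : Type} [MulAction (FreeGroup (Fin n)) V]

private theorem C3_rel (f : Equiv.Perm V) (hf : ∀ (g : FreeGroup (Fin n)) (v : V), f (g • v) = φ g • f v) (m : ℤ) :
    ∀ g : FreeGroup (Fin n), f ^ m * MulAction.toPermHom (FreeGroup (Fin n)) V g * (f ^ m)⁻¹ =
      MulAction.toPermHom (FreeGroup (Fin n)) V ((φ ^ m) g) := by
  have base : ∀ g : FreeGroup (Fin n), f * MulAction.toPermHom (FreeGroup (Fin n)) V g * f⁻¹ =
      MulAction.toPermHom (FreeGroup (Fin n)) V (φ g) := by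
    intro g
    rw [mul_inv_eq_iff_eq_mul]
    ext v
    exact hf g v
  have base' : ∀ g : FreeGroup (Fin n), f⁻¹ * MulAction.toPermHom (FreeGroup (Fin n)) V g * f =
      MulAction.toPermHom (FreeGroup (Fin n)) V (φ⁻¹ g) := by
    intro g
    have h1 := base (φ⁻¹ g)
    rw [MulAut.apply_inv_self] at h1
    rw [← h1]
    group
  induction m using Int.induction_on with
  | zero =>
    intro g
    simp
  | succ i ih =>
    intro g
    rw [zpow_add_one, zpow_add_one, MulAut.mul_apply, ← ih (φ g), ← base g]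
    group
  | pred i ih =>
    intro g
    rw [zpow_sub_one, zpow_sub_one, MulAut.mul_apply, ← ih (φ⁻¹ g), ← base' g]
    group

private def C3_hom (φ : MulAut (FreeGroup (Fin n))) (f : Equiv.Perm V)
    (hf : ∀ (g : FreeGroup (Fin n)) (v : V), f (g • v) = φ g • f v) : Torus φ →* Equiv.Perm V :=
  SemidirectProduct.lift (MulAction.toPermHom (FreeGroup (Fin n)) V) (zpowersHom (Equiv.Perm V) f) (by
    intro m
    refine MonoidHom.ext fun g => ?_
    have h1 := C3_rel f hf (Multiplicative.toAdd m) g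
    exact h1.symm)

private theorem C3_hom_inl (f : Equiv.Perm V) (hf : ∀ (g : FreeGroup (Fin n)) (v : V), f (g • v) = φ g • f v)
    (g : FreeGroup (Fin n)) (v : V) : C3_hom φ f hf (SemidirectProduct.inl g) v = g • v := by
  unfold C3_hom
  rw [SemidirectProduct.lift_inl]
  rfl

private def C3_z (φ : MulAut (FreeGroup (Fin n))) (x : FreeGroup (Fin n)) : Torus φ :=
  SemidirectProduct.inl x * SemidirectProduct.inr (Multiplicative.ofAdd 1)

private theorem C3_hom_z (f : Equiv.Perm V) (hf : ∀ (g : FreeGroup (Fin n)) (v : V), f (g • v) = φ g • f v)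
    (x : FreeGroup (Fin n)) (v : V) : C3_hom φ f hf (C3_z φ x) v = x • f v := by
  unfold C3_hom C3_z
  rw [map_mul, SemidirectProduct.lift_inl, SemidirectProduct.lift_inr]
  show x • ((zpowersHom (Equiv.Perm V) f) (Multiplicative.ofAdd 1)) v = x • f v
  rw [zpowersHom_apply, toAdd_ofAdd, zpow_one]

private theorem C3_ez (x : FreeGroup (Fin n)) : eT φ (C3_z φ x) = Multiplicative.ofAdd 1 := by
  show SemidirectProduct.rightHom (SemidirectProduct.inl x * SemidirectProduct.inr (Multiplicative.ofAdd 1)) = _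
  rw [map_mul, SemidirectProduct.rightHom_inl, SemidirectProduct.rightHom_inr, one_mul]

private theorem C3_ker (γ : Torus φ) (h : eT φ γ = 1) : γ = SemidirectProduct.inl γ.left := by
  have h4 : γ.right = 1 := h
  ext
  · rfl
  · rw [h4]
    rfl

/-- every element is `inl g * z ^ m` -/
private theorem C3_dec (x : FreeGroup (Fin n)) (γ : Torus φ) :
    ∃ (g : FreeGroup (Fin n)) (m : ℤ), γ = SemidirectProduct.inl g * C3_z φ x ^ m := by
  have h1 : eT φ (γ * (C3_z φ x ^ (Multiplicative.toAdd (eT φ γ)))⁻¹) = 1 := by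
    rw [map_mul, map_inv, map_zpow, C3_ez, ← ofAdd_zsmul, smul_eq_mul, mul_one, ofAdd_toAdd, mul_inv_cancel]
  refine ⟨(γ * (C3_z φ x ^ (Multiplicative.toAdd (eT φ γ)))⁻¹).left, Multiplicative.toAdd (eT φ γ), ?_⟩
  rw [← C3_ker _ h1, inv_mul_cancel_right]

private theorem C3_comm (x g : FreeGroup (Fin n)) (h : x * φ g * x⁻¹ = g) :
    Commute (SemidirectProduct.inl g : Torus φ) (C3_z φ x) := by
  have h1 := LibBD85.elt_conj φ x 1 g
  rw [zpow_one, MulAut.mul_apply, MulAut.conj_apply, h] at h1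
  have h2 : C3_z φ x * SemidirectProduct.inl g = SemidirectProduct.inl g * C3_z φ x :=
    mul_inv_eq_iff_eq_mul.mp h1
  exact h2.symm

end

theorem torus_tree {n : ℕ} (φ : MulAut (FreeGroup (Fin n))) (h : IsDehnTwist φ) :
    ∃ (V : Type) (_ : MulAction (Torus φ) V) (T : SimpleGraph V), T.IsTree ∧
      (∀ (g : Torus φ) (v w : V), T.Adj v w → T.Adj (g • v) (g • w)) ∧
      (∀ (g : Torus φ) (v w : V), T.Adj v w → ¬ (g • v = w ∧ g • w = v)) ∧
      (∃ F : Set V, F.Finite ∧ (∀ v : V, ∃ g : Torus φ, g • v ∈ F) ∧ ∀ v w : V, T.Adj v w → ∃ g : Torus φ, g • v ∈ F ∧ g • w ∈ F) ∧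
      (∀ v : V, VG (eT φ) (MulAction.stabilizer (Torus φ) v)) ∧
      (∀ v w : V, T.Adj v w → EG (eT φ) (MulAction.stabilizer (Torus φ) v ⊓ MulAction.stabilizer (Torus φ) w)) := by
  obtain ⟨V, iV, T, f, hT, hadj, hf, hinv, ⟨F, hF, hF1, hF2⟩, hfg, hvert, hedge⟩ := h
  have hf' : ∀ (g : FreeGroup (Fin n)) (v : V), f.toEquiv (g • v) = φ g • f.toEquiv v := hf
  let ρ : Torus φ →* Equiv.Perm V := C3_hom φ f.toEquiv hf'
  have hρl : ∀ (g : FreeGroup (Fin n)) (v : V), ρ (SemidirectProduct.inl g) v = g • v :=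
    fun g v => C3_hom_inl f.toEquiv hf' g v
  have hρz : ∀ (x : FreeGroup (Fin n)) (v : V), ρ (C3_z φ x) v = x • f v :=
    fun x v => C3_hom_z f.toEquiv hf' x v
  let act : MulAction (Torus φ) V := MulAction.compHom V ρ
  have hsm : ∀ (γ : Torus φ) (v : V), γ • v = ρ γ v := fun γ v => rfl
  have hsl : ∀ (g : FreeGroup (Fin n)) (v : V), (SemidirectProduct.inl g : Torus φ) • v = g • v := hρl
  have hsz : ∀ (x : FreeGroup (Fin n)) (v : V), C3_z φ x • v = x • f v := hρz
  have hzfix : ∀ (x : FreeGroup (Fin n)) (v : V), x • f v = v → ∀ m : ℤ, C3_z φ x ^ m • v = v := by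
    intro x v hx m
    have h1 : C3_z φ x ∈ MulAction.stabilizer (Torus φ) v := by
      rw [MulAction.mem_stabilizer_iff, hsz, hx]
    exact (Subgroup.zpow_mem _ h1 m)
  have hmap : ∀ S : Subgroup (FreeGroup (Fin n)), ∀ K : Subgroup (Torus φ),
      (∀ g, g ∈ S ↔ (SemidirectProduct.inl g : Torus φ) ∈ K) →
      S.map (SemidirectProduct.inl : FreeGroup (Fin n) →* Torus φ) = K ⊓ (eT φ).ker := by
    intro S K hSK
    ext γ
    constructor
    · rintro ⟨g, hg, rfl⟩
      exact ⟨(hSK g).1 hg, SemidirectProduct.rightHom_inl g⟩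
    · rintro ⟨h1, h2⟩
      have h3 := C3_ker γ h2
      refine ⟨γ.left, (hSK _).2 ?_, h3.symm⟩
      rw [← h3]
      exact h1
  have hstab : ∀ (g : FreeGroup (Fin n)) (v : V), g ∈ MulAction.stabilizer (FreeGroup (Fin n)) v ↔
      (SemidirectProduct.inl g : Torus φ) ∈ MulAction.stabilizer (Torus φ) v := by
    intro g v
    rw [MulAction.mem_stabilizer_iff, MulAction.mem_stabilizer_iff, hsl]
  refine ⟨V, act, T, hT, ?_, ?_, ⟨F, hF, ?_, ?_⟩, ?_, ?_⟩
  · intro γ v w hvw
    have key : ∀ γ : Torus φ, ∀ v w : V, T.Adj v w → T.Adj (γ • v) (γ • w) := by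
      have hz1 : ∀ v w : V, T.Adj v w → T.Adj (C3_z φ 1 • v) (C3_z φ 1 • w) := by
        intro v w hvw
        rw [hsz, hsz, one_smul, one_smul]
        exact f.map_adj_iff.2 hvw
      have hz2 : ∀ v w : V, T.Adj v w → T.Adj ((C3_z φ 1)⁻¹ • v) ((C3_z φ 1)⁻¹ • w) := by
        intro v w hvw
        have h1 : ∀ u : V, (C3_z φ 1)⁻¹ • u = f.symm u := by
          intro u
          rw [inv_smul_eq_iff, hsz, one_smul]
          exact (f.apply_symm_apply u).symm
        rw [h1, h1]
        exact f.symm.map_adj_iff.2 hvw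
      have hzm : ∀ m : ℤ, ∀ v w : V, T.Adj v w → T.Adj (C3_z φ 1 ^ m • v) (C3_z φ 1 ^ m • w) := by
        intro m
        induction m using Int.induction_on with
        | zero =>
          intro v w hvw
          rw [zpow_zero, one_smul, one_smul]
          exact hvw
        | succ i ih =>
          intro v w hvw
          rw [zpow_add_one, mul_smul, mul_smul]
          exact ih _ _ (hz1 _ _ hvw)
        | pred i ih =>
          intro v w hvw
          rw [zpow_sub_one, mul_smul, mul_smul]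
          exact ih _ _ (hz2 _ _ hvw)
      intro γ v w hvw
      obtain ⟨g, m, rfl⟩ := C3_dec 1 γ
      rw [mul_smul, mul_smul, hsl, hsl]
      exact hadj g _ _ (hzm m _ _ hvw)
    exact key γ v w hvw
  · rintro γ v w hvw ⟨h1, h2⟩
    obtain ⟨⟨x, hxv, hxw⟩, -⟩ := hedge v w hvw
    obtain ⟨g, m, rfl⟩ := C3_dec x γ
    rw [mul_smul, hzfix x v hxv, hsl] at h1
    rw [mul_smul, hzfix x w hxw, hsl] at h2
    exact hinv g v w hvw ⟨h1, h2⟩
  · intro v
    obtain ⟨g, hg⟩ := hF1 v
    exact ⟨SemidirectProduct.inl g, by rw [hsl]; exact hg⟩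
  · intro v w hvw
    obtain ⟨g, hg1, hg2⟩ := hF2 v w hvw
    exact ⟨SemidirectProduct.inl g, by rw [hsl]; exact hg1, by rw [hsl]; exact hg2⟩
  · intro v
    obtain ⟨x, hxv, hx⟩ := hvert v
    refine ⟨C3_z φ x, ?_, C3_ez x, ?_, ?_⟩
    · rw [MulAction.mem_stabilizer_iff, hsz, hxv]
    · intro γ hγ
      obtain ⟨g, m, rfl⟩ := C3_dec x γ
      rw [MulAction.mem_stabilizer_iff, mul_smul, hzfix x v hxv, hsl] at hγ
      exact (C3_comm x g (hx g hγ)).mul_left ((Commute.refl _).zpow_left m)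
    · obtain ⟨k, ⟨e⟩⟩ := fg_free _ (hfg v)
      have h1 := hmap _ _ (fun g => hstab g v)
      exact ⟨k, ⟨((MulEquiv.subgroupCongr h1).symm.trans
        (Subgroup.equivMapOfInjective _ _ SemidirectProduct.inl_injective).symm).trans e⟩⟩
  · intro v w hvw
    obtain ⟨⟨x, hxv, hxw⟩, hcyc⟩ := hedge v w hvw
    refine ⟨⟨C3_z φ x, ⟨?_, ?_⟩, C3_ez x⟩, ?_⟩
    · show C3_z φ x ∈ MulAction.stabilizer (Torus φ) v
      rw [MulAction.mem_stabilizer_iff, hsz, hxv]
    · show C3_z φ x ∈ MulAction.stabilizer (Torus φ) w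
      rw [MulAction.mem_stabilizer_iff, hsz, hxw]
    · have h1 := hmap (MulAction.stabilizer (FreeGroup (Fin n)) v ⊓ MulAction.stabilizer (FreeGroup (Fin n)) w)
        (MulAction.stabilizer (Torus φ) v ⊓ MulAction.stabilizer (Torus φ) w)
        (fun g => by rw [Subgroup.mem_inf, Subgroup.mem_inf, hstab, hstab])
      let e := (Subgroup.equivMapOfInjective
        (MulAction.stabilizer (FreeGroup (Fin n)) v ⊓ MulAction.stabilizer (FreeGroup (Fin n)) w)
        (SemidirectProduct.inl : FreeGroup (Fin n) →* Torus φ) SemidirectProduct.inl_injective).trans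
        (MulEquiv.subgroupCongr h1)
      exact isCyclic_of_surjective e e.surjective

end Pool.Agent.LibCF24
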