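import Pool.Agent.LibCF24.BDefs
import Pool.Agent.LibBD85.Main

/-! # Dehn twists, twisted lengths: definitions -/

set_option autoImplicit false

noncomputable section

open Set
open LibBD85 (Torus CAT0Group InCAT0 QLength)

namespace Pool.Agent.LibCF24

/-- the projection of the mapping torus to `ℤ` -/
abbrev eT {n : ℕ} (φ : MulAut (Fr n)) : Torus φ →* Multiplicative ℤ := SemidirectProduct.rightHom

/-- `φ` is a Dehn twist with respect to a tree `T` (vertex set `V`) on which the free group acts cocompactly and without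
inversions: there is an automorphism `f` of `T` with `f (g v) = φ(g) f(v)`; vertex stabilisers are finitely generated, and for
every vertex `v` some `x f` fixes `v` and induces the identity on the stabiliser of `v`; for every edge `(v, w)` some
`x f` fixes `v` and `w`, and the stabiliser of the edge is cyclic (possibly trivial) -/
def IsDehnTwist {n : ℕ} (φ : MulAut (FreeGroup (Fin n))) : Prop :=
  ∃ (V : Type) (_ : MulAction (FreeGroup (Fin n)) V) (T : SimpleGraph V) (f : T ≃g T),
    T.IsTree ∧ (∀ (g : FreeGroup (Fin n)) (v w : V), T.Adj v w → T.Adj (g • v) (g • w)) ∧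
    (∀ (g : FreeGroup (Fin n)) (v : V), f (g • v) = φ g • f v) ∧
    (∀ (g : FreeGroup (Fin n)) (v w : V), T.Adj v w → ¬ (g • v = w ∧ g • w = v)) ∧
    (∃ F : Set V, F.Finite ∧ (∀ v : V, ∃ g : FreeGroup (Fin n), g • v ∈ F) ∧
      ∀ v w : V, T.Adj v w → ∃ g : FreeGroup (Fin n), g • v ∈ F ∧ g • w ∈ F) ∧
    (∀ v : V, (MulAction.stabilizer (FreeGroup (Fin n)) v).FG) ∧
    (∀ v : V, ∃ x : FreeGroup (Fin n), x • f v = v ∧
      ∀ g ∈ MulAction.stabilizer (FreeGroup (Fin n)) v, x * φ g * x⁻¹ = g) ∧
    (∀ v w : V, T.Adj v w → (∃ x : FreeGroup (Fin n), x • f v = v ∧ x • f w = w) ∧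
      IsCyclic ↥(MulAction.stabilizer (FreeGroup (Fin n)) v ⊓ MulAction.stabilizer (FreeGroup (Fin n)) w))

/-- `N` is a `φ`-invariant positive class function, quadratic on powers; `M` is constant on the `φ`-twisted conjugacy
classes; for every `w` the function `g ↦ M (g w) - N g - M w` is additive on the fixed subgroup of `g ↦ w φ(g) w⁻¹` -/
structure TL {n : ℕ} (φ : MulAut (FreeGroup (Fin n))) (N M : FreeGroup (Fin n) → ℝ) : Prop where
  pos : ∀ g, g ≠ 1 → 0 < N g
  conj : ∀ x g, N (x * g * x⁻¹) = N g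
  inv : ∀ g, N (φ g) = N g
  pow : ∀ g, ∀ m : ℤ, N (g ^ m) = m ^ 2 * N g
  twisted : ∀ x w, M (x * w * (φ x)⁻¹) = M w
  add : ∀ w g h, w * φ g * w⁻¹ = g → w * φ h * w⁻¹ = h →
    M (g * h * w) - N (g * h) - M w = (M (g * w) - N g - M w) + (M (h * w) - N h - M w)

/-- some subgroup of finite index of `G` is isomorphic to a subgroup of a CAT(0) group -/
def VirtInCAT0 (G : Type) [Group G] : Prop := ∃ H : Subgroup G, H.FiniteIndex ∧ InCAT0 H

end Pool.Agent.LibCF24
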