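import Pool.Agent.LibCF24.C1
import Pool.Agent.LibCF24.CDefs
import Pool.Agent.LibCF24.B4

/-! Row C4 (MEDIUM). The construction for actions on simplicial trees. C1 (`orient`), B4 (`build`).

`V1`, `o`, `t` from `orient`; `o x ≠ t x` by adjacency; `stabilizer x = stabilizer (o x) ⊓ stabilizer (t x)` (injectivity of `(o, t)`). Finitely many orbits of vertices: every orbit meets `F`. Finitely many orbits of edges: every orbit contains an
`x` with `(o x, t x) ∈ F × F`. `L v := L v`. -/

set_option autoImplicit false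

noncomputable section

open Set
open LibBD85 (Torus CAT0Group InCAT0 QLength)

namespace Pool.Agent.LibCF24

private theorem C4_finite {G X : Type} [Group G] [MulAction G X] (F : Set X) (hF : F.Finite)
    (h : ∀ x : X, ∃ g : G, g • x ∈ F) : Finite (MulAction.orbitRel.Quotient G X) := by
  haveI : Finite F := hF
  refine Finite.of_surjective (fun x : F => (Quotient.mk'' (x : X) : MulAction.orbitRel.Quotient G X)) ?_
  intro q
  induction q using Quotient.inductionOn' with
  | h x =>
    obtain ⟨g, hg⟩ := h x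
    refine ⟨⟨g • x, hg⟩, ?_⟩
    exact Quotient.sound' (show MulAction.orbitRel G X (g • x) x from ⟨g, rfl⟩)

theorem build_simplicial {G V : Type} [Group G] [MulAction G V] (e : G →* Multiplicative ℤ) (T : SimpleGraph V) (hT : T.IsTree)
    (hadj : ∀ (g : G) v w, T.Adj v w → T.Adj (g • v) (g • w)) (hinv : ∀ (g : G) v w, T.Adj v w → ¬ (g • v = w ∧ g • w = v))
    (hF : ∃ F : Set V, F.Finite ∧ (∀ v : V, ∃ g : G, g • v ∈ F) ∧ ∀ v w : V, T.Adj v w → ∃ g : G, g • v ∈ F ∧ g • w ∈ F)
    (hv : ∀ v : V, VG e (MulAction.stabilizer G v))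
    (he : ∀ v w, T.Adj v w → EG e (MulAction.stabilizer G v ⊓ MulAction.stabilizer G w))
    (L : V → G → ℝ) (hL1 : ∀ v, WL e (MulAction.stabilizer G v) (L v))
    (hL2 : ∀ (g : G) (v : V), ∀ h ∈ MulAction.stabilizer G v, (e h = 1 ∨ e h = Multiplicative.ofAdd 1) →
      L (g • v) (g * h * g⁻¹) = L v h)
    (hL3 : ∀ v w, T.Adj v w → ∀ h ∈ MulAction.stabilizer G v ⊓ MulAction.stabilizer G w,
      (e h = 1 ∨ e h = Multiplicative.ofAdd 1) → L v h = L w h) : CAT0Group G := by
  obtain ⟨V1, actV1, o, t, ho, ht, hbip, hox, hinj, hcov⟩ := orient T hT hadj hinv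
  obtain ⟨F, hFfin, hF0, hF1⟩ := hF
  have hst : ∀ x : V1, MulAction.stabilizer G x =
      MulAction.stabilizer G (o x) ⊓ MulAction.stabilizer G (t x) := by
    intro x
    ext g
    rw [Subgroup.mem_inf, MulAction.mem_stabilizer_iff, MulAction.mem_stabilizer_iff,
      MulAction.mem_stabilizer_iff]
    constructor
    · intro h
      rw [← ho, ← ht, h]
      exact ⟨rfl, rfl⟩
    · rintro ⟨h1, h2⟩
      exact hinj _ _ (by rw [ho, h1]) (by rw [ht, h2])
  have hf0 : Finite (MulAction.orbitRel.Quotient G V) := C4_finite F hFfin hF0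
  have hf1 : Finite (MulAction.orbitRel.Quotient G V1) := by
    refine C4_finite {x : V1 | o x ∈ F ∧ t x ∈ F} ?_ fun x => ?_
    · have hinj' : Function.Injective (fun x : V1 => (o x, t x)) := by
        intro x x' h
        exact hinj x x' (Prod.mk.inj h).1 (Prod.mk.inj h).2
      exact Set.Finite.subset ((hFfin.prod hFfin).preimage hinj'.injOn) fun x hx => hx
    · obtain ⟨g, hg1, hg2⟩ := hF1 _ _ (hox x)
      exact ⟨g, by rw [Set.mem_setOf_eq, ho, ht]; exact ⟨hg1, hg2⟩⟩
  refine build e o t ho ht hbip (fun x => (hox x).ne) hf0 hf1 hv (fun x => ?_) L hL1 hL2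
    fun x h hh hh' => ?_
  · rw [hst x]
    exact he _ _ (hox x)
  · rw [hst x] at hh
    exact hL3 _ _ (hox x) h hh hh'

end Pool.Agent.LibCF24
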