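import Pool.Agent.LibCF24.LDefs
import Pool.Agent.LibBD85.Virt

/-! Row V1 (MEDIUM). Quadratic lengths. ONLY LibBD85 (`QLength`).

Put `B g s = L (g * s) - L g - L s`. `add` says `B (g * h) s = B g s + B h s` for `g`, `h` commuting with `s`. `one`: `pow` with exponent 0. `inv`: `B g⁻¹ g = - B g g` (additivity and `B 1 g = 0`), that is
`L 1 - L g⁻¹ - L g = - (L (g ^ 2) - 2 L g) = - 2 L g`. `form`: `L (g ^ p) = p² L g` for integers (`pow`, `inv`), `B (g ^ p) s = p B g s` (induction, `Int.induction_on`), `B g s = B s g` for commuting elements, so `B (g ^ p) (s ^ q) = p q B g s`.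
`add_sq`: direct (`toAdd (e (g h)) = toAdd (e g) + toAdd (e h)`); conjugation: the target is commutative.
`disc`: with `L' g = L g + (e g)²`; `a = L g > 0`, `b = B g s`, `c = L s`: `0 ≤ a p² + b p q + c q²` for all integers `p`, `q` (`form`, `L ≥ 0`), so `b² ≤ 4 a c` (otherwise `a x² + b x + c < 0` for some rational `x = p / q` near `- b / (2 a)`), and
`4 (L' g) (L' s) = 4 a (c + 1) > b²`, `B' g s = b` because `e g = 1`. -/

set_option autoImplicit false

noncomputable section

open Set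
open LibBD85 (QLength IsCAT0)

namespace Pool.Agent.LibCF24

variable {G : Type} [Group G] {L : G → ℝ}

private theorem V1_nonneg (h : QLength L) (g : G) : 0 ≤ L g := by
  by_cases hg : g = 1
  · have h0 := h.pow 1 0
    rw [pow_zero] at h0
    rw [hg, h0]
    norm_num
  · exact (h.pos g hg).le

theorem QL.one (h : QLength L) : L 1 = 0 := by
  have h0 := h.pow 1 0
  rw [pow_zero] at h0
  rw [h0]
  norm_num

theorem QL.inv (h : QLength L) (g : G) : L g⁻¹ = L g := by
  have h1 := h.add g g⁻¹ g (Commute.inv_left (Commute.refl g)) (Commute.refl g)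
  have h2 := h.pow g 2
  have h3 := QL.one h
  rw [pow_two] at h2
  rw [inv_mul_cancel, one_mul, h3, h2] at h1
  push_cast at h1
  linarith

private theorem V1_mulz (h : QLength L) (g s : G) (hc : Commute g s) (p : ℤ) :
    L (g ^ p * s) - L (g ^ p) - L s = p * (L (g * s) - L g - L s) := by
  induction p using Int.induction_on with
  | zero =>
    rw [zpow_zero, one_mul, QL.one h]
    push_cast
    ring
  | succ n ih =>
    have h1 := h.add s (g ^ (n : ℤ)) g (hc.zpow_left _) hc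
    rw [zpow_add_one, h1, ih]
    push_cast
    ring
  | pred n ih =>
    have h1 := h.add s (g ^ (-(n : ℤ) - 1)) g (hc.zpow_left _) hc
    rw [← zpow_add_one, sub_add_cancel, ih] at h1
    push_cast at h1 ⊢
    linarith

private theorem V1_powz (h : QLength L) (g : G) (p : ℤ) : L (g ^ p) = (p : ℝ) ^ 2 * L g := by
  obtain ⟨n, hn | hn⟩ := Int.eq_nat_or_neg p
  · rw [hn, zpow_natCast, h.pow]
    push_cast
    ring
  · rw [hn, zpow_neg, zpow_natCast, QL.inv h, h.pow]
    push_cast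
    ring

theorem QL.form (h : QLength L) (g s : G) (hc : Commute g s) (p q : ℤ) :
    L (g ^ p * s ^ q) = (p : ℝ) ^ 2 * L g + p * q * (L (g * s) - L g - L s) + (q : ℝ) ^ 2 * L s := by
  have h1 := V1_mulz h g (s ^ q) (hc.zpow_right q) p
  have h2 := V1_mulz h s g hc.symm q
  have h3 : g * s ^ q = s ^ q * g := (hc.zpow_right q).eq
  have h4 : s * g = g * s := hc.symm.eq
  rw [h4] at h2
  rw [h3] at h1
  have h5 := V1_powz h g p
  have h6 := V1_powz h s q
  have h7 : L (g ^ p * s ^ q) = p * (L (s ^ q * g) - L g - L (s ^ q)) + L (g ^ p) + L (s ^ q) := by linarith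
  have h8 : L (s ^ q * g) - L g - L (s ^ q) = q * (L (g * s) - L g - L s) := by linarith
  rw [h7, h8, h5, h6]
  ring

theorem QL.comp {H : Type} [Group H] (h : QLength L) (f : H →* G) (hf : Function.Injective f) : QLength fun x => L (f x) := by
  refine ⟨?_, ?_, ?_, ?_⟩
  · intro g hg
    refine h.pos _ fun h1 => hg ?_
    apply hf
    rw [h1, map_one]
  · intro g k
    show L (f (k * g * k⁻¹)) = L (f g)
    rw [map_mul, map_mul, map_inv, h.conj]
  · intro g k
    show L (f (g ^ k)) = k ^ 2 * L (f g)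
    rw [map_pow, h.pow]
  · intro s g k hg hk
    show L (f (g * k * s)) - L (f (g * k)) - L (f s) =
      (L (f (g * s)) - L (f g) - L (f s)) + (L (f (k * s)) - L (f k) - L (f s))
    rw [map_mul, map_mul, map_mul, map_mul]
    exact h.add _ _ _ (hg.map f) (hk.map f)

theorem QL.add_sq (h : QLength L) (e : G →* Multiplicative ℤ) :
    QLength fun g => L g + ((Multiplicative.toAdd (e g) : ℤ) : ℝ) ^ 2 := by
  refine ⟨?_, ?_, ?_, ?_⟩
  · intro g hg
    have h1 := h.pos g hg
    show 0 < L g + ((Multiplicative.toAdd (e g) : ℤ) : ℝ) ^ 2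
    positivity
  · intro g k
    show L (k * g * k⁻¹) + ((Multiplicative.toAdd (e (k * g * k⁻¹)) : ℤ) : ℝ) ^ 2 =
      L g + ((Multiplicative.toAdd (e g) : ℤ) : ℝ) ^ 2
    have h1 : e (k * g * k⁻¹) = e g := by
      rw [map_mul, map_mul, map_inv, mul_comm (e k) (e g), mul_assoc, mul_inv_cancel, mul_one]
    rw [h1, h.conj]
  · intro g k
    show L (g ^ k) + ((Multiplicative.toAdd (e (g ^ k)) : ℤ) : ℝ) ^ 2 =
      k ^ 2 * (L g + ((Multiplicative.toAdd (e g) : ℤ) : ℝ) ^ 2)
    rw [map_pow, toAdd_pow, h.pow, nsmul_eq_mul]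
    push_cast
    ring
  · intro s g k hg hk
    have h1 := h.add s g k hg hk
    show (L (g * k * s) + ((Multiplicative.toAdd (e (g * k * s)) : ℤ) : ℝ) ^ 2) -
        (L (g * k) + ((Multiplicative.toAdd (e (g * k)) : ℤ) : ℝ) ^ 2) -
        (L s + ((Multiplicative.toAdd (e s) : ℤ) : ℝ) ^ 2) =
      ((L (g * s) + ((Multiplicative.toAdd (e (g * s)) : ℤ) : ℝ) ^ 2) -
        (L g + ((Multiplicative.toAdd (e g) : ℤ) : ℝ) ^ 2) -
        (L s + ((Multiplicative.toAdd (e s) : ℤ) : ℝ) ^ 2)) +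
      ((L (k * s) + ((Multiplicative.toAdd (e (k * s)) : ℤ) : ℝ) ^ 2) -
        (L k + ((Multiplicative.toAdd (e k) : ℤ) : ℝ) ^ 2) -
        (L s + ((Multiplicative.toAdd (e s) : ℤ) : ℝ) ^ 2))
    simp only [map_mul, toAdd_mul]
    push_cast
    linear_combination h1

private theorem V1_disc (a b c : ℝ) (ha : 0 < a) (h : ∀ p q : ℤ, 0 ≤ (p : ℝ) ^ 2 * a + p * q * b + (q : ℝ) ^ 2 * c) :
    b ^ 2 ≤ 4 * a * c := by
  by_contra hcon
  rw [not_le] at hcon
  set t := b ^ 2 - 4 * a * c with ht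
  have ht0 : 0 < t := by linarith
  obtain ⟨n, hn⟩ := exists_nat_gt (4 * a ^ 2 / t)
  have hn0 : 0 < (n : ℝ) := lt_of_le_of_lt (by positivity) hn
  have hn1 : 4 * a ^ 2 < n * t := by
    rw [div_lt_iff₀ ht0] at hn
    exact hn
  have hn2 : (1 : ℝ) ≤ n := by
    have : 0 < n := by exact_mod_cast hn0
    exact_mod_cast this
  have h1 := h (-⌊b * n / (2 * a)⌋) (n : ℤ)
  have h2 := Int.floor_le (b * n / (2 * a))
  have h3 := Int.lt_floor_add_one (b * n / (2 * a))
  set m : ℝ := ((⌊b * n / (2 * a)⌋ : ℤ) : ℝ) with hm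
  push_cast at h1
  rw [← hm] at h1
  have h4 : 2 * a * m ≤ b * n := by
    rw [le_div_iff₀ (by positivity)] at h2
    linarith
  have h5 : b * n < 2 * a * m + 2 * a := by
    rw [div_lt_iff₀ (by positivity)] at h3
    linarith
  have h6 : (b * n - 2 * a * m) ^ 2 ≤ (2 * a) ^ 2 := by
    apply pow_le_pow_left₀ <;> linarith
  have h7 : 4 * a * ((-m) ^ 2 * a + (-m) * n * b + (n : ℝ) ^ 2 * c) = (b * n - 2 * a * m) ^ 2 - t * (n : ℝ) ^ 2 := by
    rw [ht]
    ring
  have h8 : 0 ≤ 4 * a * ((-m) ^ 2 * a + (-m) * n * b + (n : ℝ) ^ 2 * c) := by positivity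
  have h9 : n * t ≤ t * (n : ℝ) ^ 2 := by nlinarith
  nlinarith

theorem QL.disc (h : QLength L) (e : G →* Multiplicative ℤ) (g s : G) (hg : g ≠ 1) (heg : e g = 1)
    (hes : e s = Multiplicative.ofAdd 1) (hc : Commute g s) (L' : G → ℝ)
    (hL' : ∀ g, L' g = L g + ((Multiplicative.toAdd (e g) : ℤ) : ℝ) ^ 2) :
    (L' (g * s) - L' g - L' s) ^ 2 < 4 * L' g * L' s := by
  have ha : 0 < L g := h.pos g hg
  have h1 : (L (g * s) - L g - L s) ^ 2 ≤ 4 * L g * L s := by
    refine V1_disc (L g) (L (g * s) - L g - L s) (L s) ha fun p q => ?_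
    rw [← QL.form h g s hc p q]
    exact V1_nonneg h _
  have e1 : L' g = L g := by
    rw [hL', heg, toAdd_one]
    push_cast
    ring
  have e2 : L' s = L s + 1 := by
    rw [hL', hes, toAdd_ofAdd]
    push_cast
    ring
  have e3 : L' (g * s) = L (g * s) + 1 := by
    rw [hL', map_mul, heg, hes, one_mul, toAdd_ofAdd]
    push_cast
    ring
  rw [e1, e2, e3]
  nlinarith

end Pool.Agent.LibCF24
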