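import Pool.Agent.LibCF24.CDefs
import Pool.Agent.LibCF24.V1

/-! Row C5 (MEDIUM). Twisted lengths and lengths on the mapping torus. CDefs, V1 (`QL.form`, `QL.inv`).

`TL_WL`: conjugation by `(x, 1)`: `(x,1)(w,t)(x,1)⁻¹ = (x w φ(x)⁻¹, t)`; conjugation by `(1, t)^{±1}`: `(φ^{±1} w, t)`, `M (φ w) = M w` is `twisted` with `x = w⁻¹`... (`M (w⁻¹ * w * (φ w⁻¹)⁻¹) = M (φ w)`); every element of the torus is `(x,1)(1,t)^m`: induction on `m`.
`Commute (g,1) (w,t)` means `g w = w φ(g)`, that is `w φ(g) w⁻¹ = g`.
`virt_TL`: `H`, `length_exists`, `length_virt` (with `torus_tf`, torsion freeness of `H` inherited) give a `QLength L` on `Torus φ` (see Pool/Agent/Results/MP_bd7b42_al/TwistedLengths.lean in outputs/live, `exists_twisted`, for the computations); `N g = L (inl g)`, `M w = L (inl w * inr t)`. -/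

set_option autoImplicit false

noncomputable section

open Set
open LibBD85 (Torus CAT0Group InCAT0 QLength)

namespace Pool.Agent.LibCF24

private theorem C5_zh {n : ℕ} (φ : MulAut (FreeGroup (Fin n))) (m : Multiplicative ℤ) :
    (zpowersHom (MulAut (FreeGroup (Fin n))) φ) m = φ ^ (Multiplicative.toAdd m) := by
  rw [zpowersHom_apply]

private theorem C5_N {n : ℕ} {φ : MulAut (FreeGroup (Fin n))} {N : FreeGroup (Fin n) → ℝ}
    (h : ∀ g, N (φ g) = N g) (m : ℤ) (w : FreeGroup (Fin n)) : N ((φ ^ m) w) = N w := by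
  induction m using Int.induction_on generalizing w with
  | zero => rw [zpow_zero, MulAut.one_apply]
  | succ k ih => rw [zpow_add_one, MulAut.mul_apply, ih, h]
  | pred k ih =>
    have h1 := ih (φ⁻¹ w)
    rw [zpow_sub_one, MulAut.mul_apply, h1, ← h (φ⁻¹ w), MulAut.apply_inv_self]

private theorem C5_M {n : ℕ} {φ : MulAut (FreeGroup (Fin n))} {M : FreeGroup (Fin n) → ℝ}
    (h : ∀ x w, M (x * w * (φ x)⁻¹) = M w) (w : FreeGroup (Fin n)) : M (φ w) = M w := by
  have h1 := h w⁻¹ w
  rwa [inv_mul_cancel, one_mul, map_inv, inv_inv] at h1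

private theorem C5_ofAdd : (Multiplicative.ofAdd (1 : ℤ)) ≠ 1 := by
  intro h
  have := congrArg Multiplicative.toAdd h
  rw [toAdd_ofAdd, toAdd_one] at this
  exact one_ne_zero this

open scoped Classical in
theorem TL_WL {n : ℕ} (φ : MulAut (FreeGroup (Fin n))) (N M : FreeGroup (Fin n) → ℝ) (h : TL φ N M) :
    WL (eT φ) ⊤ (fun g : Torus φ => if eT φ g = 1 then N g.left else M g.left) := by
  have hNφ := C5_N h.inv
  have hMφ := C5_N (C5_M h.twisted)
  have eR : ∀ g : Torus φ, eT φ g = g.right := fun g => rfl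
  refine ⟨?_, ?_, ?_, ?_⟩
  · intro g _ he hg
    rw [if_pos he]
    apply h.pos
    intro h1
    apply hg
    rw [eR] at he
    exact SemidirectProduct.ext h1 he
  · intro g _ x _ he
    have e1 : eT φ (x * g * x⁻¹) = eT φ g := by
      rw [map_mul, map_mul, map_inv, mul_comm (eT φ x) (eT φ g), mul_assoc, mul_inv_cancel, mul_one]
    have e2 : (x * g * x⁻¹).left = x.left * (φ ^ (Multiplicative.toAdd x.right)) g.left *
        ((φ ^ (Multiplicative.toAdd g.right)) x.left)⁻¹ := by
      rw [SemidirectProduct.mul_left, SemidirectProduct.mul_left, SemidirectProduct.inv_left,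
        SemidirectProduct.mul_right, C5_zh, C5_zh, C5_zh, ← MulAut.mul_apply, ← zpow_add, ← map_inv]
      congr 3
    simp only [e1, e2]
    rcases he with he | he
    · rw [if_pos he, if_pos he]
      rw [eR] at he
      rw [he, toAdd_one, zpow_zero, MulAut.one_apply, h.conj, hNφ]
    · rw [if_neg (by rw [he]; exact C5_ofAdd), if_neg (by rw [he]; exact C5_ofAdd)]
      rw [eR] at he
      rw [he, toAdd_ofAdd, zpow_one, h.twisted, hMφ]
  · intro g _ he k
    have e1 : eT φ (g ^ k) = 1 := by rw [map_zpow, he, one_zpow]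
    have hr : g.right = 1 := he
    have e3 : g = SemidirectProduct.inl g.left := by
      apply SemidirectProduct.ext
      · simp
      · simpa using hr
    have e4 : g ^ k = SemidirectProduct.inl (g.left ^ k) := by
      rw [map_zpow, ← e3]
    have e2 : (g ^ k).left = g.left ^ k := by
      rw [e4, SemidirectProduct.left_inl]
    simp only [e1, he, if_true, e2]
    exact h.pow _ _
  · intro s _ g _ k _ hs hg hk hgs hks
    have hgr : g.right = 1 := hg
    have hkr : k.right = 1 := hk
    have hsr : s.right = Multiplicative.ofAdd 1 := hs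
    have l1 : ∀ (x y : Torus φ), x.right = 1 → (x * y).left = x.left * y.left := by
      intro x y hx
      rw [SemidirectProduct.mul_left, hx, map_one, MulAut.one_apply]
    have c1 : ∀ x : Torus φ, x.right = 1 → Commute x s → s.left * φ x.left * s.left⁻¹ = x.left := by
      intro x hx hc
      have h1 := congrArg SemidirectProduct.left hc.eq
      rw [l1 x s hx, SemidirectProduct.mul_left, hsr, C5_zh, toAdd_ofAdd, zpow_one] at h1
      rw [← h1, mul_inv_cancel_right]
    have e1 : eT φ (g * k * s) = Multiplicative.ofAdd 1 := by rw [map_mul, map_mul, hg, hk, hs, one_mul, one_mul]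
    have e2 : eT φ (g * k) = 1 := by rw [map_mul, hg, hk, one_mul]
    have e3 : eT φ (g * s) = Multiplicative.ofAdd 1 := by rw [map_mul, hg, hs, one_mul]
    have e4 : eT φ (k * s) = Multiplicative.ofAdd 1 := by rw [map_mul, hk, hs, one_mul]
    have e5 : (g * k).right = 1 := e2
    simp only [e1, e2, e3, e4, hg, hk, hs, if_true, if_neg C5_ofAdd, l1 (g * k) s e5, l1 g k hgr, l1 g s hgr, l1 k s hkr]
    exact h.add _ _ _ (c1 g hgr hgs) (c1 k hkr hks)

theorem virt_TL {n : ℕ} (φ : MulAut (FreeGroup (Fin n))) (h : VirtInCAT0 (Torus φ)) : ∃ N M, TL φ N M := by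
  obtain ⟨H, hH, hφ⟩ := h
  have := hH
  have htf : ∀ g : H, g ≠ 1 → ∀ n : ℕ, 0 < n → g ^ n ≠ 1 := by
    intro g hg n hn h1
    have h2 : (g : Torus φ) ≠ 1 := fun h => hg (Subtype.ext h)
    exact LibBD85.torus_tf φ g h2 n hn (congrArg Subtype.val h1)
  obtain ⟨L0, h1, h2, h3, h4⟩ := LibBD85.length_exists hφ htf
  obtain ⟨L, hL⟩ := LibBD85.length_virt (LibBD85.torus_tf φ) H L0 ⟨h1, h2, h3, h4⟩
  set t : Torus φ := SemidirectProduct.inr (Multiplicative.ofAdd 1) with ht
  have aut : ∀ x : FreeGroup (Fin n), (SemidirectProduct.inl (φ x) : Torus φ) = t * SemidirectProduct.inl x * t⁻¹ := by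
    intro x
    have h5 := SemidirectProduct.inl_aut (φ := zpowersHom (MulAut (FreeGroup (Fin n))) φ) (Multiplicative.ofAdd 1) x
    rw [C5_zh, toAdd_ofAdd, zpow_one, map_inv] at h5
    exact h5
  have aut' : ∀ x : FreeGroup (Fin n), (SemidirectProduct.inl (φ x) : Torus φ) * t = t * SemidirectProduct.inl x := by
    intro x
    rw [aut, inv_mul_cancel_right]
  refine ⟨fun g => L (SemidirectProduct.inl g), fun w => L (SemidirectProduct.inl w * t), ?_, ?_, ?_, ?_, ?_, ?_⟩
  · intro g hg
    apply hL.pos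
    intro h5
    apply hg
    apply SemidirectProduct.inl_injective (φ := zpowersHom (MulAut (FreeGroup (Fin n))) φ)
    rw [h5, map_one]
  · intro x g
    show L _ = L _
    rw [map_mul, map_mul, map_inv, hL.conj]
  · intro g
    show L _ = L _
    rw [aut, hL.conj]
  · intro g m
    show L _ = _ * L _
    have h5 := QL.form hL (SemidirectProduct.inl g) 1 (Commute.one_right _) m 0
    rw [map_zpow]
    simpa using h5
  · intro x w
    show L _ = L _
    have h5 : (SemidirectProduct.inl (x * w * (φ x)⁻¹) : Torus φ) * t =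
        SemidirectProduct.inl x * (SemidirectProduct.inl w * t) * (SemidirectProduct.inl x)⁻¹ := by
      have h6 := aut' x⁻¹
      rw [map_mul, map_mul, ← map_inv φ x, mul_assoc _ _ t, h6, map_inv]
      simp only [mul_assoc]
    rw [h5, hL.conj]
  · intro w g k hg hk
    have hcomm : ∀ g, w * φ g * w⁻¹ = g → Commute (SemidirectProduct.inl g : Torus φ) (SemidirectProduct.inl w * t) := by
      intro g hg
      have h5 : w * φ g = g * w := by
        rw [mul_inv_eq_iff_eq_mul] at hg
        exact hg
      show SemidirectProduct.inl g * (SemidirectProduct.inl w * t) = SemidirectProduct.inl w * t * SemidirectProduct.inl g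
      rw [mul_assoc _ t, ← aut', ← mul_assoc, ← mul_assoc, ← map_mul, ← map_mul, h5]
    have h5 := hL.add (SemidirectProduct.inl w * t) _ _ (hcomm g hg) (hcomm k hk)
    simp only [map_mul, mul_assoc] at h5 ⊢
    exact h5

theorem virt_of_cat0 {G : Type} [Group G] (h : CAT0Group G) : VirtInCAT0 G := by
  refine ⟨⊤, inferInstance, G, inferInstance, Subgroup.subtype ⊤, Subgroup.subtype_injective ⊤, h⟩

end Pool.Agent.LibCF24
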