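import Pool.Agent.LibCF24.C3
import Pool.Agent.LibCF24.C4
import Pool.Agent.LibCF24.C5

/-! C6 (assembly, complete): the criterion for Dehn twists. -/

set_option autoImplicit false

noncomputable section

open Set
open LibBD85 (Torus CAT0Group InCAT0 QLength)

namespace Pool.Agent.LibCF24

theorem WL.mono {G : Type} [Group G] {e : G →* Multiplicative ℤ} {H : Subgroup G} {L : G → ℝ} (h : WL e ⊤ L) : WL e H L where
  pos g _ := h.pos g trivial
  conj g _ x _ := h.conj g trivial x trivial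
  pow g _ := h.pow g trivial
  add s _ g _ x _ := h.add s trivial g trivial x trivial

open scoped Classical in
theorem dehn_cat0 {n : ℕ} (φ : MulAut (FreeGroup (Fin n))) (hφ : IsDehnTwist φ) (N M : FreeGroup (Fin n) → ℝ) (h : TL φ N M) :
    CAT0Group (Torus φ) := by
  obtain ⟨V, aV, T, hT, hadj, hinv, hF, hv, he⟩ := torus_tree φ hφ
  have hW := TL_WL φ N M h
  refine build_simplicial (eT φ) T hT hadj hinv hF hv he
    (fun _ g => if eT φ g = 1 then N g.left else M g.left) (fun v => hW.mono) ?_ (fun v w _ h _ _ => rfl)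
  intro g v x _ hx
  exact hW.conj x trivial g trivial hx

theorem criterion {n : ℕ} (φ : MulAut (FreeGroup (Fin n))) (hφ : IsDehnTwist φ) :
    (CAT0Group (Torus φ) ↔ ∃ N M, TL φ N M) ∧ (CAT0Group (Torus φ) ↔ VirtInCAT0 (Torus φ)) := by
  refine ⟨⟨fun h => virt_TL φ (virt_of_cat0 h), fun ⟨N, M, h⟩ => dehn_cat0 φ hφ N M h⟩, ⟨virt_of_cat0, fun h => ?_⟩⟩
  obtain ⟨N, M, h⟩ := virt_TL φ h
  exact dehn_cat0 φ hφ N M h

end Pool.Agent.LibCF24
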