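import Pool.Agent.LibCF24.CDefs
import Pool.Agent.LibCF24.V1

/-! Row D1 (MEDIUM). Powers of `φ`. CDefs, V1 (`QL.form`, `QL.inv`, `QL.comp`).

`QL_TL`: `N g = L (inl g)`, `M w = L (inl w * inr (ofAdd 1))`; `twisted`: conjugation by `inl x`: `inl x * (inl w * t) * inl x⁻¹ = inl (x w φ(x)⁻¹) * t`; `inv`: conjugation by `t`; `add`: `w φ(g) w⁻¹ = g` iff `inl g` commutes with `inl w * t`
(see `exists_twisted` in Pool/Agent/Results/MP_bd7b42_al/TwistedLengths.lean of outputs/live). `pow_emb`: `(x, t^i) ↦ (x, t^(m i))` (`SemidirectProduct.map` or `lift`); injective; the range is `{g | m ∣ toAdd g.right}`, the preimage of the subgroup of index `m` of `ℤ` under `eT φ`. -/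

set_option autoImplicit false

noncomputable section

open Set
open LibBD85 (Torus CAT0Group InCAT0 QLength)

namespace Pool.Agent.LibCF24

private theorem D1_t {n : ℕ} (φ : MulAut (FreeGroup (Fin n))) (g : FreeGroup (Fin n)) :
    (SemidirectProduct.inl (φ g) : Torus φ) =
      SemidirectProduct.inr (Multiplicative.ofAdd (1 : ℤ)) * SemidirectProduct.inl g *
        (SemidirectProduct.inr (Multiplicative.ofAdd (1 : ℤ)))⁻¹ := by
  have h := SemidirectProduct.inl_aut (φ := zpowersHom (MulAut (FreeGroup (Fin n))) φ)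
    (Multiplicative.ofAdd (1 : ℤ)) g
  rw [map_inv, zpowersHom_apply, toAdd_ofAdd, zpow_one] at h
  exact h

theorem QL_TL {n : ℕ} (φ : MulAut (FreeGroup (Fin n))) (L : Torus φ → ℝ) (hL : QLength L) : ∃ N M, TL φ N M := by
  obtain ⟨t, ht⟩ : ∃ t : Torus φ, t = SemidirectProduct.inr (Multiplicative.ofAdd (1 : ℤ)) := ⟨_, rfl⟩
  have hc : ∀ g, (SemidirectProduct.inl (φ g) : Torus φ) = t * SemidirectProduct.inl g * t⁻¹ := by
    intro g
    rw [ht]
    exact D1_t φ g
  refine ⟨fun g => L (SemidirectProduct.inl g), fun w => L (SemidirectProduct.inl w * t), ?_, ?_, ?_, ?_, ?_, ?_⟩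
  · intro g hg
    apply hL.pos
    intro h
    apply hg
    apply SemidirectProduct.inl_injective (φ := zpowersHom (MulAut (FreeGroup (Fin n))) φ)
    rw [h, map_one]
  · intro x g
    show L _ = L _
    rw [map_mul, map_mul, map_inv, hL.conj]
  · intro g
    show L _ = L _
    rw [hc, hL.conj]
  · intro g m
    show L _ = _ * L _
    rw [map_zpow]
    have h := QL.form hL (SemidirectProduct.inl g : Torus φ) (SemidirectProduct.inl g) (Commute.refl _) m 0
    rw [zpow_zero, mul_one, Int.cast_zero, mul_zero, zero_mul, add_zero] at h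
    rw [h]
    ring
  · intro x w
    show L _ = L _
    rw [map_mul, map_mul, map_inv, hc]
    have h : (SemidirectProduct.inl x * SemidirectProduct.inl w * (t * SemidirectProduct.inl x * t⁻¹)⁻¹ * t : Torus φ) =
        SemidirectProduct.inl x * (SemidirectProduct.inl w * t) * (SemidirectProduct.inl x)⁻¹ := by
      group
    rw [h, hL.conj]
  · intro w g h hg hh
    have hcomm : ∀ g, w * φ g * w⁻¹ = g → Commute (SemidirectProduct.inl g : Torus φ) (SemidirectProduct.inl w * t) := by
      intro g hg
      have h1 : w * φ g = g * w := mul_inv_eq_iff_eq_mul.1 hg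
      have h2 := congrArg (fun z => (SemidirectProduct.inl z : Torus φ)) h1
      simp only [map_mul] at h2
      rw [hc] at h2
      have h3 : (SemidirectProduct.inl w * (t * SemidirectProduct.inl g * t⁻¹) * t : Torus φ) =
          SemidirectProduct.inl g * SemidirectProduct.inl w * t := by rw [h2]
      show (SemidirectProduct.inl g * (SemidirectProduct.inl w * t) : Torus φ) =
        SemidirectProduct.inl w * t * SemidirectProduct.inl g
      rw [← mul_assoc, ← h3]
      group
    have h1 := hL.add (SemidirectProduct.inl w * t) (SemidirectProduct.inl g) (SemidirectProduct.inl h)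
      (hcomm g hg) (hcomm h hh)
    show L (SemidirectProduct.inl (g * h * w) * t) - L (SemidirectProduct.inl (g * h)) - L _ =
      (L (SemidirectProduct.inl (g * w) * t) - L _ - L _) + (L (SemidirectProduct.inl (h * w) * t) - L _ - L _)
    rw [map_mul, map_mul, map_mul, map_mul, mul_assoc _ _ t, mul_assoc _ _ t, mul_assoc _ _ t]
    exact h1

theorem pow_emb {n : ℕ} (φ : MulAut (FreeGroup (Fin n))) (m : ℕ) (hm : 0 < m) :
    ∃ j : Torus (φ ^ m) →* Torus φ, Function.Injective j ∧ j.range.FiniteIndex := by
  have hcond : ∀ g : Multiplicative ℤ,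
      (MonoidHom.id (FreeGroup (Fin n))).comp
          ((zpowersHom (MulAut (FreeGroup (Fin n))) (φ ^ m)) g).toMonoidHom =
        ((zpowersHom (MulAut (FreeGroup (Fin n))) φ) ((powMonoidHom m) g)).toMonoidHom.comp
          (MonoidHom.id (FreeGroup (Fin n))) := by
    intro g
    have h1 : (zpowersHom (MulAut (FreeGroup (Fin n))) (φ ^ m)) g =
        (zpowersHom (MulAut (FreeGroup (Fin n))) φ) ((powMonoidHom m) g) := by
      rw [zpowersHom_apply, zpowersHom_apply, powMonoidHom_apply, toAdd_pow, nsmul_eq_mul, zpow_mul,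
        zpow_natCast]
    rw [h1]
    rfl
  let j : Torus (φ ^ m) →* Torus φ := SemidirectProduct.map (MonoidHom.id _) (powMonoidHom m) hcond
  have hjl : ∀ x, (j x).left = x.left := fun x => rfl
  have hjr : ∀ x, (j x).right = x.right ^ m := fun x => rfl
  refine ⟨j, ?_, ?_⟩
  · intro x y h
    have h1 : x.left = y.left := by rw [← hjl, ← hjl, h]
    have h2 : x.right ^ m = y.right ^ m := by rw [← hjr, ← hjr, h]
    have h3 : x.right = y.right := by
      apply Multiplicative.toAdd.injective
      have h4 := congrArg Multiplicative.toAdd h2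
      rw [toAdd_pow, toAdd_pow, nsmul_eq_mul, nsmul_eq_mul] at h4
      exact mul_left_cancel₀ (by exact_mod_cast hm.ne') h4
    exact SemidirectProduct.ext h1 h3
  · have hne : NeZero m := ⟨hm.ne'⟩
    let f : Multiplicative ℤ →* Multiplicative (ZMod m) :=
      AddMonoidHom.toMultiplicative (Int.castAddHom (ZMod m))
    let F : Torus φ →* Multiplicative (ZMod m) := f.comp SemidirectProduct.rightHom
    have hfin : F.ker.FiniteIndex := inferInstance
    have hle : F.ker ≤ j.range := by
      intro x hx
      have h1 : f x.right = 1 := hx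
      have h2 : ((Multiplicative.toAdd x.right : ℤ) : ZMod m) = 0 := congrArg Multiplicative.toAdd h1
      rw [ZMod.intCast_zmod_eq_zero_iff_dvd] at h2
      obtain ⟨k, hk⟩ := h2
      refine ⟨⟨x.left, Multiplicative.ofAdd k⟩, ?_⟩
      apply SemidirectProduct.ext
      · rfl
      · rw [hjr]
        apply Multiplicative.toAdd.injective
        rw [toAdd_pow, toAdd_ofAdd, nsmul_eq_mul]
        exact hk.symm
    exact Subgroup.finiteIndex_of_le hle

theorem cat0_of_equiv {G H : Type} [Group G] [Group H] (f : G ≃* H) (h : CAT0Group G) : CAT0Group H := by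
  obtain ⟨X, hX1, hX2, hne, hC, hiso, hprop, K, hK, hcov⟩ := h
  let act : MulAction H X := MulAction.compHom X f.symm.toMonoidHom
  have hact : ∀ (h : H) (x : X), h • x = f.symm h • x := fun h x => rfl
  refine ⟨X, hX1, act, hne, hC, ?_, ?_, K, hK, ?_⟩
  · intro g x y
    rw [hact, hact]
    exact hiso _ x y
  · intro x
    obtain ⟨r, hr, hfin⟩ := hprop x
    refine ⟨r, hr, ?_⟩
    refine (hfin.image f).subset ?_
    rintro g ⟨y, hy, hgy⟩
    rw [hact] at hgy
    exact ⟨f.symm g, ⟨y, hy, hgy⟩, f.apply_symm_apply g⟩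
  · intro x
    obtain ⟨g, hg⟩ := hcov x
    refine ⟨f g, ?_⟩
    rw [hact, f.symm_apply_apply]
    exact hg

end Pool.Agent.LibCF24
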