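import Mathlib
import Pool.Agent.LibBD85.Defs

/-! # Board CF24: geodesics, upper angles, trees of spaces (definitions)

`IsCAT0` is `LibBD85.IsCAT0` (geodesic + Bruhat-Tits inequality). -/

set_option autoImplicit false

noncomputable section

open Set

namespace Pool.Agent.LibCF24

/-- `γ` restricted to `[0, L]` is a unit speed geodesic from `x` to `y` -/
structure IsGeo {M : Type*} [MetricSpace M] (γ : ℝ → M) (L : ℝ) (x y : M) : Prop where
  nonneg : 0 ≤ L
  left : γ 0 = x
  right : γ L = y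
  iso : ∀ s ∈ Icc (0 : ℝ) L, ∀ t ∈ Icc (0 : ℝ) L, dist (γ s) (γ t) = |s - t|

/-- the upper angle between `γ₁` and `γ₂` at their common starting point is at most `arccos c` -/
def UA {M : Type*} [MetricSpace M] (γ₁ γ₂ : ℝ → M) (c : ℝ) : Prop :=
  ∀ ε > 0, ∃ δ > 0, ∀ s t : ℝ, 0 < s → s < δ → 0 < t → t < δ →
    dist (γ₁ s) (γ₂ t) ^ 2 ≤ s ^ 2 + t ^ 2 - 2 * (c - ε) * s * t

/-- the cosine of the angle between the sides of lengths `a` and `b` in a Euclidean triangle whose third side has length `c` -/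
def co (a b c : ℝ) : ℝ := (a ^ 2 + b ^ 2 - c ^ 2) / (2 * a * b)

/-- the reversed geodesic -/
def rev {M : Type*} (γ : ℝ → M) (L : ℝ) : ℝ → M := fun t => γ (L - t)

/-- triangle `a b c` with the sides `α` (from `a` to `b`, length `p`), `β` (from `a` to `c`, length `q`),
`σ` (from `b` to `c`, length `w`): at every vertex the upper angle is at most the comparison angle -/
structure TriUA {M : Type*} [MetricSpace M] (α β σ : ℝ → M) (p q w : ℝ) : Prop where
  atA : UA α β (co p q w)
  atB : UA (rev α p) σ (co p w q)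
  atC : UA (rev β q) (rev σ w) (co q w p)

/-- hypotheses of the gluing theorem: two CAT(0) subsets which meet in a geodesic set, and every geodesic distance
between them is realised through the intersection -/
structure Glue {M : Type*} [MetricSpace M] (A B : Set M) : Prop where
  hA : LibBD85.IsCAT0 A
  hB : LibBD85.IsCAT0 B
  geo : ∀ x ∈ A ∩ B, ∀ y ∈ A ∩ B, ∃ γ : ℝ → M, IsGeo γ (dist x y) x y ∧ ∀ s ∈ Icc (0 : ℝ) (dist x y), γ s ∈ A ∩ B
  mid : ∀ x ∈ A, ∀ y ∈ B, ∃ z ∈ A ∩ B, dist x y = dist x z + dist z y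

/-- `Ch f x y ℓ`: there is a chain of length `ℓ` from `x` to `y`, every step inside one piece -/
inductive Ch {V Ω : Type} {Z : V → Type} [∀ v, MetricSpace (Z v)] (f : ∀ v, Z v → Ω) : Ω → Ω → ℝ → Prop
  | nil (x : Ω) : Ch f x x 0
  | cons (v : V) (a b : Z v) (y : Ω) (ℓ : ℝ) : Ch f (f v b) y ℓ → Ch f (f v a) y (dist a b + ℓ)

/-- the chain distance -/
def cd {V Ω : Type} {Z : V → Type} [∀ v, MetricSpace (Z v)] (f : ∀ v, Z v → Ω) (x y : Ω) : ℝ :=
  sInf {ℓ | Ch f x y ℓ}

/-- chains along a walk of the tree: `WCh f p a b ℓ` for a walk `p` from `u` to `w`, `a` in the piece `u`, `b` in the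
piece `w` -/
inductive WCh {V Ω : Type} {T : SimpleGraph V} {Z : V → Type} [∀ v, MetricSpace (Z v)] (f : ∀ v, Z v → Ω) :
    ∀ {u w : V}, T.Walk u w → Z u → Z w → ℝ → Prop
  | nil (u : V) (a b : Z u) : WCh f (SimpleGraph.Walk.nil : T.Walk u u) a b (dist a b)
  | cons {u v w : V} (h : T.Adj u v) (p : T.Walk v w) (a c : Z u) (c' : Z v) (b : Z w) (ℓ : ℝ) :
      f u c = f v c' → WCh f p c' b ℓ → WCh f (SimpleGraph.Walk.cons h p) a b (dist a c + ℓ)

/-- a tree of CAT(0) spaces `Z v`, mapped injectively to the pieces `range (f v)` of `Ω`; adjacent pieces meet in a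
nonempty geodesic set with compact bounded parts, on which the two metrics agree -/
structure Tr {V Ω : Type} (T : SimpleGraph V) (Z : V → Type) [∀ v, MetricSpace (Z v)] (f : ∀ v, Z v → Ω) : Prop where
  tree : T.IsTree
  inj : ∀ v, Function.Injective (f v)
  cover : ∀ x : Ω, ∃ v, x ∈ range (f v)
  agree : ∀ v w, T.Adj v w → ∀ (a a' : Z v) (b b' : Z w), f v a = f w b → f v a' = f w b' → dist a a' = dist b b'
  sep : ∀ x u w, x ∈ range (f u) → x ∈ range (f w) → ∀ p : T.Walk u w, p.IsPath → ∀ v ∈ p.support, x ∈ range (f v)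
  compact : ∀ v w, T.Adj v w → ∀ (a : Z v) (r : ℝ), IsCompact {c : Z v | f v c ∈ range (f w) ∧ dist c a ≤ r}
  ne : ∀ v w, T.Adj v w → ∃ a : Z v, f v a ∈ range (f w)
  geo : ∀ v w, T.Adj v w → ∀ a b : Z v, f v a ∈ range (f w) → f v b ∈ range (f w) →
    ∃ γ : ℝ → Z v, IsGeo γ (dist a b) a b ∧ ∀ s ∈ Icc (0 : ℝ) (dist a b), f v (γ s) ∈ range (f w)
  cat0 : ∀ v, LibBD85.IsCAT0 (Z v)

open scoped Classical in
/-- finite subtrees: start with one vertex, add vertices adjacent to the set -/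
inductive FS {V : Type} (T : SimpleGraph V) : Finset V → Prop
  | one (v : V) : FS T {v}
  | add (F : Finset V) (v w : V) : v ∈ F → w ∉ F → T.Adj v w → FS T F → FS T (insert w F)

end Pool.Agent.LibCF24
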