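import Pool.Agent.LibCF24.CDefs

/-! # The automorphisms `a_i ↦ a_i`, `b_j ↦ w_j b_j u_j`: definitions -/

set_option autoImplicit false

noncomputable section

open Set

namespace Pool.Agent.LibCF24

/-- inclusion of the free group on the first `k` generators -/
abbrev inc (k l : ℕ) : Fr k →* Fr (k + l) := FreeGroup.map (Fin.castAdd l)

/-- the last `l` generators -/
abbrev bg (k l : ℕ) (j : Fin l) : Fr (k + l) := FreeGroup.of (Fin.natAdd k j)

/-- the retraction which kills the last `l` generators -/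
abbrev ret (k l : ℕ) : Fr (k + l) →* Fr k := FreeGroup.lift (Fin.addCases FreeGroup.of fun _ => 1)

theorem ret_inc (k l : ℕ) (x : Fr k) : ret k l (inc k l x) = x := by
  have h : (ret k l).comp (inc k l) = MonoidHom.id _ := by
    ext i
    simp [ret, inc]
  exact DFunLike.congr_fun h x

/-- `φ a_i = a_i`, `φ b_j = w_j b_j u_j` -/
structure IsExpl {k l : ℕ} (φ : MulAut (FreeGroup (Fin (k + l)))) (w u : Fin l → FreeGroup (Fin k)) : Prop where
  a : ∀ i : Fin k, φ (FreeGroup.of (Fin.castAdd l i)) = FreeGroup.of (Fin.castAdd l i)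
  b : ∀ j : Fin l, φ (FreeGroup.of (Fin.natAdd k j)) =
    FreeGroup.map (Fin.castAdd l) (w j) * FreeGroup.of (Fin.natAdd k j) * FreeGroup.map (Fin.castAdd l) (u j)

theorem IsExpl.inc {k l : ℕ} {φ : MulAut (FreeGroup (Fin (k + l)))} {w u : Fin l → FreeGroup (Fin k)} (h : IsExpl φ w u)
    (x : Fr k) : φ (inc k l x) = inc k l x := by
  have h1 : (φ.toMonoidHom).comp (LibCF24.inc k l) = LibCF24.inc k l := by
    ext i
    simpa using h.a i
  exact DFunLike.congr_fun h1 x

end Pool.Agent.LibCF24
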