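import Pool.Agent.LibCF24.T0
import Pool.Agent.LibCF24.EDefs

/-! Row E1 (MEDIUM). The Bass-Serre tree of `F_(k+l)` over the free factor `F_k`. T0 (`isTree_of_parent`), EDefs.

Letters: `Fin.castAdd l i` (`a`-letters) and `Fin.natAdd k j` (`b`-letters). `β x` = number of `b`-letters in `x.toWord`; `β (x r) = β x` for `r ∈ R` (only `a`-letters are cancelled or appended). For a coset `v = x R` let `W v` be `x.toWord` without its
maximal suffix of `a`-letters (`List.rdropWhile`); well defined. `v ≠ R` iff `W v ≠ []`, and then `W v = W' ++ [(natAdd k j, ε)]`: parent of `inl v` = `inr (mk W', j)` if `ε = true`, `inr (mk (W v), j)` if `ε = false`. Parent of `inr (x, j)` = the end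
(`x R` or `x b_j R`) with the smaller `β` (`β (x b_j) = β x ± 1`, `- 1` iff the last letter of `x.toWord` is `(natAdd k j, false)`). Depths: `dep (inl v) = 2 β v`, `dep (inr p) = 2 min + 1`. `h2`: let `v` be an end of `(x, j)`. If `β (x b_j) = β x + 1`
then `(x b_j).toWord = x.toWord ++ [(natAdd k j, true)]`, the parent of `x b_j R` is `(x, j)`, the parent of `(x, j)` is `x R`. Otherwise `x.toWord` ends with `(natAdd k j, false)`, `W (x R) = x.toWord`, the parent of `x R` is `(x, j)`, the parent of
`(x, j)` is `x b_j R`. -/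

set_option autoImplicit false

noncomputable section

open Set
open LibBD85 (Torus CAT0Group InCAT0 QLength)

namespace Pool.Agent.LibCF24

private theorem E1_left {α : Type} {L L' : List (α × Bool)} (h : FreeGroup.IsReduced (L ++ L')) : FreeGroup.IsReduced L :=
  (List.isChain_append.1 h).1

/-- right multiplication by a letter which cancels -/
private theorem E1_cancel {α : Type} [DecidableEq α] {x : FreeGroup α} {L : List (α × Bool)} {i : α} {ε : Bool}
    (h : x.toWord = L ++ [(i, !ε)]) : (x * FreeGroup.mk [(i, ε)]).toWord = L := by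
  have hL : FreeGroup.IsReduced L := by
    have h1 : FreeGroup.IsReduced x.toWord := FreeGroup.isReduced_toWord
    rw [h] at h1
    exact E1_left h1
  have e1 : x = FreeGroup.mk (L ++ [(i, !ε)]) := by rw [← h, FreeGroup.mk_toWord]
  have e2 : x * FreeGroup.mk [(i, ε)] = FreeGroup.mk L := by
    have e3 : FreeGroup.mk [(i, !ε)] = (FreeGroup.mk [(i, ε)])⁻¹ := by
      rw [FreeGroup.inv_mk]
      simp [FreeGroup.invRev]
    rw [e1, ← FreeGroup.mul_mk, e3, inv_mul_cancel_right]
  rw [e2, FreeGroup.toWord_mk, hL.reduce_eq]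

/-- right multiplication by a letter which does not cancel -/
private theorem E1_append {α : Type} [DecidableEq α] {x : FreeGroup α} {i : α} {ε : Bool}
    (h : x.toWord.getLast? ≠ some (i, !ε)) : (x * FreeGroup.mk [(i, ε)]).toWord = x.toWord ++ [(i, ε)] := by
  have h1 : FreeGroup.IsReduced x.toWord := FreeGroup.isReduced_toWord
  have h2 : FreeGroup.IsReduced (x.toWord ++ [(i, ε)]) := by
    unfold FreeGroup.IsReduced at *
    rw [List.isChain_append]
    refine ⟨h1, List.isChain_singleton _, ?_⟩
    intro c hc d hd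
    simp only [List.head?_cons, Option.mem_def, Option.some.injEq] at hd
    subst hd
    rw [Option.mem_def] at hc
    intro h3
    simp only at h3 ⊢
    by_contra h4
    apply h
    rw [hc]
    obtain ⟨c1, c2⟩ := c
    simp only at h3 h4
    rw [h3]
    cases c2 <;> cases ε <;> simp_all
  rw [FreeGroup.toWord_mul, FreeGroup.toWord_mk, FreeGroup.reduce_singleton, h2.reduce_eq]

variable {k l : ℕ}

/-- the index of a `b`-letter -/
private def E1_bI (k l : ℕ) (c : Fin (k + l)) : Option (Fin l) :=
  Fin.addCases (motive := fun _ => Option (Fin l)) (fun _ => none) (fun j => some j) c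

@[simp] private theorem E1_bI_a (i : Fin k) : E1_bI k l (Fin.castAdd l i) = none := by
  simp [E1_bI]

@[simp] private theorem E1_bI_b (j : Fin l) : E1_bI k l (Fin.natAdd k j) = some j := by
  simp [E1_bI]

private theorem E1_bI_some {c : Fin (k + l)} {j : Fin l} (h : E1_bI k l c = some j) : c = Fin.natAdd k j := by
  induction c using Fin.addCases with
  | left i => simp at h
  | right i => simp at h; rw [h]

private theorem E1_bI_none {c : Fin (k + l)} (h : E1_bI k l c = none) : ∃ i : Fin k, c = Fin.castAdd l i := by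
  induction c using Fin.addCases with
  | left i => exact ⟨i, rfl⟩
  | right i => simp at h

/-- `a`-letters -/
private def E1_isA (k l : ℕ) (c : Fin (k + l) × Bool) : Bool := (E1_bI k l c.1).isNone

@[simp] private theorem E1_isA_a (i : Fin k) (ε : Bool) : E1_isA k l (Fin.castAdd l i, ε) = true := by
  simp [E1_isA]

@[simp] private theorem E1_isA_b (j : Fin l) (ε : Bool) : E1_isA k l (Fin.natAdd k j, ε) = false := by
  simp [E1_isA]

/-- the normal form of the coset of `x` -/
private def E1_W (k l : ℕ) (x : Fr (k + l)) : List (Fin (k + l) × Bool) := x.toWord.rdropWhile (E1_isA k l)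

private theorem E1_W_letter (x : Fr (k + l)) (i : Fin k) (ε : Bool) :
    E1_W k l (x * FreeGroup.mk [(Fin.castAdd l i, ε)]) = E1_W k l x := by
  unfold E1_W
  by_cases h : x.toWord.getLast? = some (Fin.castAdd l i, !ε)
  · obtain ⟨L, hL⟩ := List.getLast?_eq_some_iff.mp h
    rw [E1_cancel hL, hL, List.rdropWhile_concat_pos]
    simp
  · rw [E1_append h, List.rdropWhile_concat_pos]
    simp

private theorem E1_W_inc (x : Fr (k + l)) (y : Fr k) : E1_W k l (x * inc k l y) = E1_W k l x := by
  induction y using FreeGroup.induction_on generalizing x with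
  | C1 => simp
  | of i =>
    have : inc k l (FreeGroup.of i) = FreeGroup.mk [(Fin.castAdd l i, true)] := by
      simp [FreeGroup.of]
    rw [this, E1_W_letter]
  | inv_of i _ =>
    have : inc k l (FreeGroup.of i)⁻¹ = FreeGroup.mk [(Fin.castAdd l i, false)] := by
      simp [FreeGroup.of, FreeGroup.inv_mk, FreeGroup.invRev]
    rw [this, E1_W_letter]
  | mul y z hy hz => rw [map_mul, ← mul_assoc, hz, hy]

/-- the normal form of a coset -/
private def E1_Wq (k l : ℕ) (v : Fr (k + l) ⧸ (inc k l).range) : List (Fin (k + l) × Bool) := E1_W k l v.out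

private theorem E1_Wq_mk (x : Fr (k + l)) : E1_Wq k l (x : Fr (k + l) ⧸ (inc k l).range) = E1_W k l x := by
  unfold E1_Wq
  obtain ⟨⟨h, y, rfl⟩, hh⟩ := QuotientGroup.mk_out_eq_mul (inc k l).range x
  rw [hh]
  exact E1_W_inc x y

private theorem E1_mk_mem {L : List (Fin (k + l) × Bool)} (h : ∀ c ∈ L, E1_isA k l c = true) :
    FreeGroup.mk L ∈ (inc k l).range := by
  induction L with
  | nil => exact one_mem _
  | cons c L ih =>
    have e1 : FreeGroup.mk (c :: L) = FreeGroup.mk [c] * FreeGroup.mk L := by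
      rw [FreeGroup.mul_mk]; simp
    rw [e1]
    refine mul_mem ?_ (ih fun d hd => h d (List.mem_cons_of_mem _ hd))
    have h1 := h c List.mem_cons_self
    obtain ⟨c1, ε⟩ := c
    obtain ⟨i, hi⟩ := E1_bI_none (c := c1) (by simpa [E1_isA] using h1)
    subst hi
    exact ⟨FreeGroup.mk [(i, ε)], by simp⟩

/-- a coset is the coset of its normal form -/
private theorem E1_coset_W (x : Fr (k + l)) :
    ((FreeGroup.mk (E1_W k l x) : Fr (k + l)) : Fr (k + l) ⧸ (inc k l).range) = (x : Fr (k + l) ⧸ (inc k l).range) := by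
  rw [QuotientGroup.eq]
  have e1 : FreeGroup.mk (E1_W k l x) * FreeGroup.mk (x.toWord.rtakeWhile (E1_isA k l)) = x := by
    rw [FreeGroup.mul_mk]
    unfold E1_W
    rw [List.rdropWhile_append_rtakeWhile, FreeGroup.mk_toWord]
  have e2 : (FreeGroup.mk (E1_W k l x))⁻¹ * x = FreeGroup.mk (x.toWord.rtakeWhile (E1_isA k l)) := by
    rw [inv_mul_eq_iff_eq_mul, e1]
  rw [e2]
  exact E1_mk_mem fun c hc => List.mem_rtakeWhile_imp hc

/-- the normal form is reduced -/
private theorem E1_toWord_W (x : Fr (k + l)) : (FreeGroup.mk (E1_W k l x)).toWord = E1_W k l x := by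
  have h1 : FreeGroup.IsReduced x.toWord := FreeGroup.isReduced_toWord
  have h2 : FreeGroup.IsReduced (E1_W k l x) := by
    obtain ⟨L', hL'⟩ := List.rdropWhile_prefix (E1_isA k l) x.toWord
    rw [← hL'] at h1
    exact E1_left h1
  rw [FreeGroup.toWord_mk, h2.reduce_eq]

/-- the number of `b`-letters -/
private def E1_β (k l : ℕ) (L : List (Fin (k + l) × Bool)) : ℕ := L.countP (fun c => !E1_isA k l c)

private theorem E1_β_W (L : List (Fin (k + l) × Bool)) : E1_β k l (L.rdropWhile (E1_isA k l)) = E1_β k l L := by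
  induction L using List.reverseRecOn with
  | nil => simp
  | append_singleton L c ih =>
    rw [List.rdropWhile_concat]
    split_ifs with h
    · rw [ih]
      simp [E1_β, List.countP_append, h]
    · rfl

/-- parents of the vertices, by normal form -/
private def E1_parL (k l : ℕ) (L : List (Fin (k + l) × Bool)) :
    (Fr (k + l) ⧸ (inc k l).range) ⊕ (Fr (k + l) × Fin l) :=
  match L.getLast? with
  | none => Sum.inl ((1 : Fr (k + l)) : Fr (k + l) ⧸ (inc k l).range)
  | some c => match E1_bI k l c.1 with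
    | none => Sum.inl ((1 : Fr (k + l)) : Fr (k + l) ⧸ (inc k l).range)
    | some j => if c.2 then Sum.inr (FreeGroup.mk L.dropLast, j) else Sum.inr (FreeGroup.mk L, j)

private theorem E1_parL_true (L : List (Fin (k + l) × Bool)) (j : Fin l) :
    E1_parL k l (L ++ [(Fin.natAdd k j, true)]) = Sum.inr (FreeGroup.mk L, j) := by
  simp [E1_parL]

private theorem E1_parL_false (L : List (Fin (k + l) × Bool)) (j : Fin l) :
    E1_parL k l (L ++ [(Fin.natAdd k j, false)]) = Sum.inr (FreeGroup.mk (L ++ [(Fin.natAdd k j, false)]), j) := by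
  simp [E1_parL]

open Classical in
/-- parents -/
private def E1_par (k l : ℕ) : (Fr (k + l) ⧸ (inc k l).range) ⊕ (Fr (k + l) × Fin l) →
    (Fr (k + l) ⧸ (inc k l).range) ⊕ (Fr (k + l) × Fin l)
  | Sum.inl v => E1_parL k l (E1_Wq k l v)
  | Sum.inr p => if p.1.toWord.getLast? = some (Fin.natAdd k p.2, false) then
      Sum.inl ((p.1 * bg k l p.2 : Fr (k + l)) : Fr (k + l) ⧸ (inc k l).range)
      else Sum.inl ((p.1 : Fr (k + l)) : Fr (k + l) ⧸ (inc k l).range)

/-- depths -/
private def E1_dep (k l : ℕ) : (Fr (k + l) ⧸ (inc k l).range) ⊕ (Fr (k + l) × Fin l) → ℕ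
  | Sum.inl v => 2 * E1_β k l (E1_Wq k l v)
  | Sum.inr p => 2 * min (E1_β k l p.1.toWord) (E1_β k l (p.1 * bg k l p.2).toWord) + 1

private theorem E1_dep_mk (x : Fr (k + l)) :
    E1_dep k l (Sum.inl (x : Fr (k + l) ⧸ (inc k l).range)) = 2 * E1_β k l x.toWord := by
  show 2 * E1_β k l (E1_Wq k l _) = _
  rw [E1_Wq_mk]
  unfold E1_W
  rw [E1_β_W]

/-- the two cases for an edge -/
private theorem E1_cases (x : Fr (k + l)) (j : Fin l) :
    (∃ L, x.toWord = L ++ [(Fin.natAdd k j, false)] ∧ (x * bg k l j).toWord = L) ∨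
    (x.toWord.getLast? ≠ some (Fin.natAdd k j, false) ∧ (x * bg k l j).toWord = x.toWord ++ [(Fin.natAdd k j, true)]) := by
  have e : bg k l j = FreeGroup.mk [(Fin.natAdd k j, true)] := rfl
  by_cases h : x.toWord.getLast? = some (Fin.natAdd k j, false)
  · obtain ⟨L, hL⟩ := List.getLast?_eq_some_iff.mp h
    left
    exact ⟨L, hL, by rw [e]; exact E1_cancel (ε := true) (by simpa using hL)⟩
  · right
    exact ⟨h, by rw [e]; exact E1_append (ε := true) (by simpa using h)⟩

private theorem E1_β_b (L : List (Fin (k + l) × Bool)) (j : Fin l) (ε : Bool) :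
    E1_β k l (L ++ [(Fin.natAdd k j, ε)]) = E1_β k l L + 1 := by
  simp [E1_β, List.countP_append]

theorem coset_tree (k l : ℕ) :
    (bip (fun p : Fr (k + l) × Fin l => ((p.1 : Fr (k + l)) : Fr (k + l) ⧸ (inc k l).range))
      (fun p : Fr (k + l) × Fin l => ((p.1 * bg k l p.2 : Fr (k + l)) : Fr (k + l) ⧸ (inc k l).range))).IsTree := by
  -- the parent of a coset with nonempty normal form
  have hW : ∀ (x : Fr (k + l)) (L : List (Fin (k + l) × Bool)) (j : Fin l) (ε : Bool),
      x.toWord = L ++ [(Fin.natAdd k j, ε)] → E1_W k l x = L ++ [(Fin.natAdd k j, ε)] := by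
    intro x L j ε h
    unfold E1_W
    rw [h, List.rdropWhile_concat_neg]
    simp
  refine isTree_of_parent _ (Sum.inl ((1 : Fr (k + l)) : Fr (k + l) ⧸ (inc k l).range)) (E1_par k l) (E1_dep k l) ?_ ?_
  · rintro (v | ⟨x, j⟩) hv
    · obtain ⟨x, rfl⟩ := QuotientGroup.mk_surjective v
      -- replace `x` by its normal form
      have hx := E1_coset_W (k := k) (l := l) x
      have hw := E1_toWord_W (k := k) (l := l) x
      set y : Fr (k + l) := FreeGroup.mk (E1_W k l x) with hy
      rw [← hx] at hv ⊢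
      have hWy : E1_Wq k l ((y : Fr (k + l)) : Fr (k + l) ⧸ (inc k l).range) = y.toWord := by
        rw [hx, E1_Wq_mk, hw]
      have hne : E1_W k l x ≠ [] := by
        intro h0
        apply hv
        rw [hy, h0]
        rfl
      have hlast := List.rdropWhile_last_not _ _ hne
      obtain ⟨L, c, hLc⟩ : ∃ L c, E1_W k l x = L ++ [c] :=
        ⟨(E1_W k l x).dropLast, (E1_W k l x).getLast hne, (List.dropLast_append_getLast hne).symm⟩
      have hc : E1_isA k l c = false := by
        have h1 : (E1_W k l x).getLast hne = c := by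
          simp [hLc]
        have h2 : ¬ E1_isA k l ((E1_W k l x).getLast hne) = true := hlast
        rw [h1] at h2
        simpa using h2
      obtain ⟨c1, ε⟩ := c
      obtain ⟨j, hj⟩ : ∃ j, E1_bI k l c1 = some j := by
        simp only [E1_isA] at hc
        cases h : E1_bI k l c1 with
        | none => rw [h] at hc; simp at hc
        | some j => exact ⟨j, rfl⟩
      have hj' := E1_bI_some hj
      subst hj'
      rw [hLc] at hw
      have hpar : E1_par k l (Sum.inl (y : Fr (k + l) ⧸ (inc k l).range)) = E1_parL k l (L ++ [(Fin.natAdd k j, ε)]) := by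
        show E1_parL k l (E1_Wq k l _) = _
        rw [hWy, hw]
      rw [hpar]
      cases ε
      · rw [E1_parL_false]
        have hyy : FreeGroup.mk (L ++ [(Fin.natAdd k j, false)]) = y := by
          rw [← hw, FreeGroup.mk_toWord]
        rw [hyy]
        refine ⟨⟨(y, j), _, Or.inl rfl, Or.inl ⟨rfl, rfl⟩⟩, ?_⟩
        rw [E1_dep_mk]
        show 2 * min (E1_β k l y.toWord) (E1_β k l (y * bg k l j).toWord) + 1 < _
        rcases E1_cases y j with ⟨L', h1, h2⟩ | ⟨h1, h2⟩
        · rw [h2, h1, E1_β_b]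
          omega
        · exact absurd (by rw [hw]; simp) h1
      · rw [E1_parL_true]
        have hmk : FreeGroup.mk L * bg k l j = y := by
          rw [← FreeGroup.mk_toWord (x := y), hw, ← FreeGroup.mul_mk]
          rfl
        have hLr : (FreeGroup.mk L).toWord = L := by
          have h1 : FreeGroup.IsReduced y.toWord := FreeGroup.isReduced_toWord
          rw [hw] at h1
          have h2 : FreeGroup.IsReduced L := E1_left h1
          rw [FreeGroup.toWord_mk, h2.reduce_eq]
        refine ⟨⟨(FreeGroup.mk L, j), _, Or.inr rfl, Or.inl ⟨?_, rfl⟩⟩, ?_⟩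
        · show Sum.inl _ = Sum.inl ((FreeGroup.mk L * bg k l j : Fr (k + l)) : Fr (k + l) ⧸ (inc k l).range)
          rw [hmk]
        · rw [E1_dep_mk]
          show 2 * min (E1_β k l (FreeGroup.mk L).toWord) (E1_β k l (FreeGroup.mk L * bg k l j).toWord) + 1 < _
          rw [hmk, hLr, hw, E1_β_b]
          omega
    · show _ ∧ E1_dep k l (E1_par k l (Sum.inr (x, j))) < 2 * min (E1_β k l x.toWord) (E1_β k l (x * bg k l j).toWord) + 1
      rcases E1_cases x j with ⟨L', h1, h2⟩ | ⟨h1, h2⟩
      · have hp : E1_par k l (Sum.inr (x, j)) = Sum.inl ((x * bg k l j : Fr (k + l)) : Fr (k + l) ⧸ (inc k l).range) := by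
          show (if x.toWord.getLast? = some (Fin.natAdd k j, false) then _ else _) = _
          rw [if_pos (by rw [h1]; simp)]
        rw [hp]
        refine ⟨⟨(x, j), _, Or.inr rfl, Or.inr ⟨rfl, rfl⟩⟩, ?_⟩
        rw [E1_dep_mk, h2, h1, E1_β_b]
        omega
      · have hp : E1_par k l (Sum.inr (x, j)) = Sum.inl ((x : Fr (k + l)) : Fr (k + l) ⧸ (inc k l).range) := by
          show (if x.toWord.getLast? = some (Fin.natAdd k j, false) then _ else _) = _
          rw [if_neg h1]
        rw [hp]
        refine ⟨⟨(x, j), _, Or.inl rfl, Or.inr ⟨rfl, rfl⟩⟩, ?_⟩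
        rw [E1_dep_mk, h2, E1_β_b]
        omega
  · have key : ∀ (p : Fr (k + l) × Fin l) (v : Fr (k + l) ⧸ (inc k l).range),
        (v = (p.1 : Fr (k + l) ⧸ (inc k l).range) ∨ v = ((p.1 * bg k l p.2 : Fr (k + l)) : Fr (k + l) ⧸ (inc k l).range)) →
        ((Sum.inl v : (Fr (k + l) ⧸ (inc k l).range) ⊕ (Fr (k + l) × Fin l)) ≠
            Sum.inl ((1 : Fr (k + l)) : Fr (k + l) ⧸ (inc k l).range) ∧ Sum.inr p = E1_par k l (Sum.inl v)) ∨
        Sum.inl v = E1_par k l (Sum.inr p) := by
      rintro ⟨x, j⟩ v hv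
      have hne : ∀ (y : Fr (k + l)) (L : List (Fin (k + l) × Bool)) (ε : Bool), y.toWord = L ++ [(Fin.natAdd k j, ε)] →
          (Sum.inl (y : Fr (k + l) ⧸ (inc k l).range) : (Fr (k + l) ⧸ (inc k l).range) ⊕ (Fr (k + l) × Fin l)) ≠
            Sum.inl ((1 : Fr (k + l)) : Fr (k + l) ⧸ (inc k l).range) := by
        intro y L ε h h1
        have h2 := Sum.inl_injective h1
        have h3 : E1_W k l y = E1_W k l 1 := by rw [← E1_Wq_mk, ← E1_Wq_mk, h2]
        rw [hW y L j ε h] at h3
        simp [E1_W] at h3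
      simp only at hv
      rcases E1_cases x j with ⟨L', h1, h2⟩ | ⟨h1, h2⟩
      · have hp : E1_par k l (Sum.inr (x, j)) = Sum.inl ((x * bg k l j : Fr (k + l)) : Fr (k + l) ⧸ (inc k l).range) := by
          show (if x.toWord.getLast? = some (Fin.natAdd k j, false) then _ else _) = _
          rw [if_pos (by rw [h1]; simp)]
        rcases hv with rfl | rfl
        · left
          refine ⟨hne x L' false h1, ?_⟩
          show _ = E1_parL k l (E1_Wq k l _)
          rw [E1_Wq_mk, hW x L' j false h1, E1_parL_false, ← h1, FreeGroup.mk_toWord]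
        · right
          rw [hp]
      · have hp : E1_par k l (Sum.inr (x, j)) = Sum.inl ((x : Fr (k + l)) : Fr (k + l) ⧸ (inc k l).range) := by
          show (if x.toWord.getLast? = some (Fin.natAdd k j, false) then _ else _) = _
          rw [if_neg h1]
        rcases hv with rfl | rfl
        · right
          rw [hp]
        · left
          refine ⟨hne (x * bg k l j) x.toWord true h2, ?_⟩
          show _ = E1_parL k l (E1_Wq k l _)
          rw [E1_Wq_mk, hW (x * bg k l j) x.toWord j true h2, E1_parL_true, FreeGroup.mk_toWord]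
    rintro a b ⟨p, v, hv, ⟨rfl, rfl⟩ | ⟨rfl, rfl⟩⟩
    · rcases key p v hv with h | h
      · exact Or.inl h
      · exact Or.inr ⟨Sum.inr_ne_inl, h⟩
    · rcases key p v hv with h | h
      · exact Or.inr h
      · exact Or.inl ⟨Sum.inr_ne_inl, h⟩

theorem coset_ne (k l : ℕ) (p : Fr (k + l) × Fin l) :
    ((p.1 : Fr (k + l)) : Fr (k + l) ⧸ (inc k l).range) ≠ ((p.1 * bg k l p.2 : Fr (k + l)) : Fr (k + l) ⧸ (inc k l).range) := by
  intro h
  have h1 := congrArg (fun v => E1_dep k l (Sum.inl v)) h
  simp only [E1_dep_mk] at h1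
  rcases E1_cases p.1 p.2 with ⟨L', h2, h3⟩ | ⟨h2, h3⟩
  · rw [h3, h2, E1_β_b] at h1
    omega
  · rw [h3, E1_β_b] at h1
    omega

end Pool.Agent.LibCF24
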