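import Pool.Agent.LibCF24.EDefs

/-! Row E2 (MEDIUM). The action of the mapping torus on vertices and edges. EDefs.

`(x, t^m) • (y R) = x φ^m(y) R`, `(x, t^m) • (y, j) = (x φ^m(y) (w_j)^m, j)`; `φ` fixes `R = (inc k l).range` pointwise (`IsExpl.inc`), so do its powers; `φ^m(b_j) = w_j^m b_j u_j^m` (induction on `m : ℤ`).
`Torus φ` is the semidirect product: `(x, t^m) (x', t^m') = (x φ^m(x'), t^(m+m'))`. -/

set_option autoImplicit false

noncomputable section

open Set
open LibBD85 (Torus CAT0Group InCAT0 QLength)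

namespace Pool.Agent.LibCF24

private theorem E2_fix {k l : ℕ} {φ : MulAut (FreeGroup (Fin (k + l)))}
    {w u : Fin l → FreeGroup (Fin k)} (h : IsExpl φ w u) (m : ℤ) (x : Fr k) :
    (φ ^ m) (inc k l x) = inc k l x := by
  have h1 : φ ∈ MulAction.stabilizer (MulAut (FreeGroup (Fin (k + l)))) (inc k l x) := h.inc x
  exact Subgroup.zpow_mem _ h1 m

private theorem E2_fixz {k l : ℕ} {φ : MulAut (FreeGroup (Fin (k + l)))}
    {w u : Fin l → FreeGroup (Fin k)} (h : IsExpl φ w u) (m n : ℤ) (x : Fr k) :
    (φ ^ m) (inc k l x ^ n) = inc k l x ^ n := by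
  rw [map_zpow, E2_fix h]

private theorem E2_b {k l : ℕ} {φ : MulAut (FreeGroup (Fin (k + l)))}
    {w u : Fin l → FreeGroup (Fin k)} (h : IsExpl φ w u) (j : Fin l) (m : ℤ) :
    (φ ^ m) (bg k l j) = inc k l (w j) ^ m * bg k l j * inc k l (u j) ^ m := by
  have hb : φ (bg k l j) = inc k l (w j) * bg k l j * inc k l (u j) := h.b j
  induction m using Int.induction_on with
  | zero => simp
  | succ i ih =>
    rw [zpow_add_one, MulAut.mul_apply, hb, map_mul, map_mul, E2_fix h, E2_fix h, ih]
    group
  | pred i ih =>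
    have hinv : φ⁻¹ (bg k l j) = (inc k l (w j))⁻¹ * bg k l j * (inc k l (u j))⁻¹ := by
      apply φ.injective
      rw [MulAut.apply_inv_self, map_mul, map_mul, map_inv, map_inv, h.inc, h.inc, hb]
      group
    rw [zpow_sub_one, MulAut.mul_apply, hinv, map_mul, map_mul, map_inv, map_inv, E2_fix h,
      E2_fix h, ih]
    group

private theorem E2_left {n : ℕ} {φ : MulAut (FreeGroup (Fin n))} (g g' : Torus φ) :
    (g * g').left = g.left * (φ ^ (Multiplicative.toAdd g.right)) g'.left := rfl

private theorem E2_right {n : ℕ} {φ : MulAut (FreeGroup (Fin n))} (g g' : Torus φ) :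
    Multiplicative.toAdd (g * g').right =
      Multiplicative.toAdd g.right + Multiplicative.toAdd g'.right := rfl

private def E2_q {k l : ℕ} (φ : MulAut (FreeGroup (Fin (k + l))))
    {w u : Fin l → FreeGroup (Fin k)} (h : IsExpl φ w u) (g : Torus φ)
    (q : Fr (k + l) ⧸ (inc k l).range) : Fr (k + l) ⧸ (inc k l).range :=
  Quotient.liftOn' q (fun y => ((g.left * (φ ^ (Multiplicative.toAdd g.right)) y : Fr (k + l)) :
    Fr (k + l) ⧸ (inc k l).range)) (by
      intro y y' hy
      rw [QuotientGroup.leftRel_apply] at hy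
      obtain ⟨r, hr⟩ := hy
      rw [QuotientGroup.eq]
      refine ⟨r, ?_⟩
      have e : (g.left * (φ ^ (Multiplicative.toAdd g.right)) y)⁻¹ *
          (g.left * (φ ^ (Multiplicative.toAdd g.right)) y') =
          (φ ^ (Multiplicative.toAdd g.right)) (y⁻¹ * y') := by
        rw [map_mul, map_inv]
        group
      rw [e, ← hr, E2_fix h])

private theorem E2_q_mk {k l : ℕ} (φ : MulAut (FreeGroup (Fin (k + l))))
    {w u : Fin l → FreeGroup (Fin k)} (h : IsExpl φ w u) (g : Torus φ) (y : Fr (k + l)) :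
    E2_q φ h g (y : Fr (k + l) ⧸ (inc k l).range) =
      ((g.left * (φ ^ (Multiplicative.toAdd g.right)) y : Fr (k + l)) :
        Fr (k + l) ⧸ (inc k l).range) := rfl

theorem expl_act {k l : ℕ} (φ : MulAut (FreeGroup (Fin (k + l)))) (w u : Fin l → FreeGroup (Fin k)) (h : IsExpl φ w u) :
    ∃ (_ : MulAction (Torus φ) (Fr (k + l) ⧸ (inc k l).range)) (_ : MulAction (Torus φ) (Fr (k + l) × Fin l)),
      (∀ (g : Torus φ) (y : Fr (k + l)), g • (y : Fr (k + l) ⧸ (inc k l).range) =
        ((g.left * (φ ^ (Multiplicative.toAdd g.right)) y : Fr (k + l)) : Fr (k + l) ⧸ (inc k l).range)) ∧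
      (∀ (g : Torus φ) (y : Fr (k + l)) (j : Fin l), g • (y, j) =
        (g.left * (φ ^ (Multiplicative.toAdd g.right)) y * inc k l (w j) ^ (Multiplicative.toAdd g.right), j)) ∧
      (∀ (g : Torus φ) (p : Fr (k + l) × Fin l), (((g • p).1 : Fr (k + l)) : Fr (k + l) ⧸ (inc k l).range) =
        g • ((p.1 : Fr (k + l)) : Fr (k + l) ⧸ (inc k l).range)) ∧
      (∀ (g : Torus φ) (p : Fr (k + l) × Fin l), (((g • p).1 * bg k l (g • p).2 : Fr (k + l)) : Fr (k + l) ⧸ (inc k l).range) =
        g • ((p.1 * bg k l p.2 : Fr (k + l)) : Fr (k + l) ⧸ (inc k l).range)) := by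
  let act1 : MulAction (Torus φ) (Fr (k + l) ⧸ (inc k l).range) :=
    { smul := E2_q φ h
      one_smul := fun q => by
        induction q using QuotientGroup.induction_on with
        | H y =>
          show E2_q φ h 1 (y : Fr (k + l) ⧸ (inc k l).range) = _
          rw [E2_q_mk]
          congr 1
          show (1 : Fr (k + l)) * (φ ^ (0 : ℤ)) y = y
          rw [zpow_zero, one_mul]
          rfl
      mul_smul := fun g g' q => by
        induction q using QuotientGroup.induction_on with
        | H y =>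
          show E2_q φ h (g * g') (y : Fr (k + l) ⧸ (inc k l).range) =
            E2_q φ h g (E2_q φ h g' (y : Fr (k + l) ⧸ (inc k l).range))
          rw [E2_q_mk, E2_q_mk, E2_q_mk, E2_left, E2_right, zpow_add, MulAut.mul_apply, map_mul,
            mul_assoc] }
  let act2 : MulAction (Torus φ) (Fr (k + l) × Fin l) :=
    { smul := fun g p => (g.left * (φ ^ (Multiplicative.toAdd g.right)) p.1 *
        inc k l (w p.2) ^ (Multiplicative.toAdd g.right), p.2)
      one_smul := fun p => by
        show ((1 : Fr (k + l)) * (φ ^ (0 : ℤ)) p.1 * inc k l (w p.2) ^ (0 : ℤ), p.2) = p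
        rw [zpow_zero, zpow_zero, one_mul, mul_one]
        rfl
      mul_smul := fun g g' p => by
        show ((g * g').left * (φ ^ (Multiplicative.toAdd (g * g').right)) p.1 *
          inc k l (w p.2) ^ (Multiplicative.toAdd (g * g').right), p.2) =
          (g.left * (φ ^ (Multiplicative.toAdd g.right))
            (g'.left * (φ ^ (Multiplicative.toAdd g'.right)) p.1 *
              inc k l (w p.2) ^ (Multiplicative.toAdd g'.right)) *
            inc k l (w p.2) ^ (Multiplicative.toAdd g.right), p.2)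
        rw [E2_left, E2_right, zpow_add φ, MulAut.mul_apply, map_mul, map_mul, E2_fixz h,
          zpow_add (inc k l (w p.2)), (Commute.zpow_zpow_self (inc k l (w p.2)) _ _).eq]
        congr 1
        simp only [mul_assoc] }
  refine ⟨act1, act2, fun g y => rfl, fun g y j => rfl, ?_, ?_⟩
  · intro g p
    show ((g.left * (φ ^ (Multiplicative.toAdd g.right)) p.1 *
      inc k l (w p.2) ^ (Multiplicative.toAdd g.right) : Fr (k + l)) :
        Fr (k + l) ⧸ (inc k l).range) =
      ((g.left * (φ ^ (Multiplicative.toAdd g.right)) p.1 : Fr (k + l)) :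
        Fr (k + l) ⧸ (inc k l).range)
    rw [QuotientGroup.eq]
    refine ⟨((w p.2) ^ (Multiplicative.toAdd g.right))⁻¹, ?_⟩
    rw [map_inv, map_zpow]
    group
  · intro g p
    show ((g.left * (φ ^ (Multiplicative.toAdd g.right)) p.1 *
      inc k l (w p.2) ^ (Multiplicative.toAdd g.right) * bg k l p.2 : Fr (k + l)) :
        Fr (k + l) ⧸ (inc k l).range) =
      ((g.left * (φ ^ (Multiplicative.toAdd g.right)) (p.1 * bg k l p.2) : Fr (k + l)) :
        Fr (k + l) ⧸ (inc k l).range)
    rw [QuotientGroup.eq, map_mul, E2_b h]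
    refine ⟨(u p.2) ^ (Multiplicative.toAdd g.right), ?_⟩
    rw [map_zpow]
    group

end Pool.Agent.LibCF24
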