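import Pool.Agent.LibCF24.B4

/-! Row E3 (MEDIUM). The construction with one orbit of vertices. B4 (`build`).

For `x : V0` choose `γ x` with `x = γ x • v₀`, `L x h = L₀ ((γ x)⁻¹ h γ x)`. Key: if `x = a • v₀ = b • v₀` then for `h ∈ stabilizer x`, `e h ∈ {1, ofAdd 1}`: `L₀ (a⁻¹ h a) = L₀ (b⁻¹ h b)`, since `a⁻¹ h a = k (b⁻¹ h b) k⁻¹` with `k = a⁻¹ b ∈ stabilizer v₀`
(`hL.conj`; `e` is invariant under conjugation). `hL2`, `hL3` (for `x = g • w j`, `h ∈ stabilizer x`: `g⁻¹ h g ∈ stabilizer (w j)`, `o x = g • v₀`, `t x = g c_j • v₀`, `hm`) follow. `VG`, `EG`, `WL` are invariant under conjugation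
(`MulAction.stabilizer_smul_eq_stabilizer_map_conj`; the isomorphism `H ⊓ ker e ≃* (g H g⁻¹) ⊓ ker e`). -/

set_option autoImplicit false

noncomputable section

open Set
open LibBD85 (Torus CAT0Group InCAT0 QLength)

namespace Pool.Agent.LibCF24

private def E3_equiv {G : Type} [Group G] (e : G →* Multiplicative ℤ) (φ : G ≃* G)
    (heφ : ∀ h, e (φ h) = e h) (H H' : Subgroup G) (hH : ∀ h, h ∈ H' ↔ φ h ∈ H) :
    ↥(H' ⊓ e.ker) ≃* ↥(H ⊓ e.ker) where
  toFun h := ⟨φ h, (hH h).1 h.2.1, by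
    have h2 : e (h : G) = 1 := h.2.2
    show e (φ h) = 1
    rw [heφ, h2]⟩
  invFun h := ⟨φ.symm h, (hH _).2 (by rw [φ.apply_symm_apply]; exact h.2.1), by
    have h2 : e (h : G) = 1 := h.2.2
    show e (φ.symm h) = 1
    rw [← heφ, φ.apply_symm_apply, h2]⟩
  left_inv h := Subtype.ext (φ.symm_apply_apply h)
  right_inv h := Subtype.ext (φ.apply_symm_apply h)
  map_mul' x y := Subtype.ext (map_mul φ (x : G) (y : G))

private theorem E3_VG {G : Type} [Group G] (e : G →* Multiplicative ℤ) (φ : G ≃* G)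
    (heφ : ∀ h, e (φ h) = e h) (H H' : Subgroup G) (hH : ∀ h, h ∈ H' ↔ φ h ∈ H)
    (hv : VG e H) : VG e H' := by
  obtain ⟨z, hz, hez, hc, k, ⟨ψ⟩⟩ := hv
  refine ⟨φ.symm z, (hH _).2 (by rw [φ.apply_symm_apply]; exact hz), ?_, ?_, k,
    ⟨(E3_equiv e φ heφ H H' hH).trans ψ⟩⟩
  · rw [← heφ, φ.apply_symm_apply, hez]
  · intro g hg
    have h1 : Commute (φ g) z := hc _ ((hH g).1 hg)
    have h2 := h1.map φ.symm
    rwa [φ.symm_apply_apply] at h2

private theorem E3_EG {G : Type} [Group G] (e : G →* Multiplicative ℤ) (φ : G ≃* G)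
    (heφ : ∀ h, e (φ h) = e h) (H H' : Subgroup G) (hH : ∀ h, h ∈ H' ↔ φ h ∈ H)
    (hv : EG e H) : EG e H' := by
  obtain ⟨⟨z, hz, hez⟩, hcyc⟩ := hv
  refine ⟨⟨φ.symm z, (hH _).2 (by rw [φ.apply_symm_apply]; exact hz), ?_⟩, ?_⟩
  · rw [← heφ, φ.apply_symm_apply, hez]
  · haveI := hcyc
    exact isCyclic_of_surjective (E3_equiv e φ heφ H H' hH).symm
      (E3_equiv e φ heφ H H' hH).symm.surjective

private theorem E3_WL {G : Type} [Group G] (e : G →* Multiplicative ℤ) (φ : G ≃* G)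
    (heφ : ∀ h, e (φ h) = e h) (H H' : Subgroup G) (hH : ∀ h, h ∈ H' ↔ φ h ∈ H)
    (L : G → ℝ) (hL : WL e H L) : WL e H' (fun h => L (φ h)) := by
  refine ⟨?_, ?_, ?_, ?_⟩
  · intro g hg he hg1
    refine hL.pos _ ((hH g).1 hg) ((heφ g).trans he) ?_
    intro h1
    exact hg1 ((map_eq_one_iff φ φ.injective).1 h1)
  · intro g hg h hh he
    show L (φ (h * g * h⁻¹)) = L (φ g)
    rw [map_mul, map_mul, map_inv]
    exact hL.conj _ ((hH g).1 hg) _ ((hH h).1 hh) (by rw [heφ]; exact he)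
  · intro g hg he k
    show L (φ (g ^ k)) = k ^ 2 * L (φ g)
    rw [map_zpow]
    exact hL.pow _ ((hH g).1 hg) ((heφ g).trans he) k
  · intro s hs g hg h hh hes heg heh hgs hhs
    have h1 := hL.add (φ s) ((hH s).1 hs) (φ g) ((hH g).1 hg) (φ h) ((hH h).1 hh)
      ((heφ s).trans hes) ((heφ g).trans heg) ((heφ h).trans heh) (hgs.map φ) (hhs.map φ)
    show L (φ (g * h * s)) - L (φ (g * h)) - L (φ s) =
      (L (φ (g * s)) - L (φ g) - L (φ s)) + (L (φ (h * s)) - L (φ h) - L (φ s))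
    rw [map_mul, map_mul, map_mul, map_mul]
    exact h1

private theorem E3_e {G : Type} [Group G] (e : G →* Multiplicative ℤ) (a h : G) :
    e (a⁻¹ * h * a) = e h := by
  rw [map_mul, map_mul, map_inv, mul_comm (e a)⁻¹ (e h), inv_mul_cancel_right]

private theorem E3_stab {G : Type} [Group G] {V : Type} [MulAction G V] (a : G) (x y : V)
    (hx : x = a • y) (h : G) :
    h ∈ MulAction.stabilizer G x ↔ (MulAut.conj a⁻¹ : G ≃* G) h ∈ MulAction.stabilizer G y := by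
  rw [MulAction.mem_stabilizer_iff, MulAction.mem_stabilizer_iff, MulAut.conj_apply, inv_inv, hx,
    mul_smul, mul_smul, inv_smul_eq_iff]

theorem build_hnn {G : Type} [Group G] (e : G →* Multiplicative ℤ) {V0 V1 : Type} [MulAction G V0] [MulAction G V1] (o t : V1 → V0)
    (ho : ∀ (g : G) (x : V1), o (g • x) = g • o x) (ht : ∀ (g : G) (x : V1), t (g • x) = g • t x)
    (hT : (bip o t).IsTree) (hne : ∀ x, o x ≠ t x) (v₀ : V0) (h0 : ∀ x : V0, ∃ g : G, x = g • v₀) {l : ℕ} (w : Fin l → V1)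
    (hw : ∀ x : V1, ∃ j, ∃ g : G, x = g • w j) (c : Fin l → G) (hco : ∀ j, o (w j) = v₀) (hct : ∀ j, t (w j) = c j • v₀)
    (hv : VG e (MulAction.stabilizer G v₀)) (he : ∀ j, EG e (MulAction.stabilizer G (w j))) (L₀ : G → ℝ)
    (hL : WL e (MulAction.stabilizer G v₀) L₀)
    (hm : ∀ j, ∀ h ∈ MulAction.stabilizer G (w j), (e h = 1 ∨ e h = Multiplicative.ofAdd 1) → L₀ h = L₀ ((c j)⁻¹ * h * c j)) :
    CAT0Group G := by
  choose γ hγ using h0
  have hconj : ∀ (a h : G), (MulAut.conj a⁻¹ : G ≃* G) h = a⁻¹ * h * a := by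
    intro a h
    rw [MulAut.conj_apply, inv_inv]
  have heφ : ∀ (a h : G), e ((MulAut.conj a⁻¹ : G ≃* G) h) = e h := by
    intro a h
    rw [hconj, E3_e]
  have key : ∀ (x : V0) (a b : G), x = a • v₀ → x = b • v₀ → ∀ h ∈ MulAction.stabilizer G x,
      (e h = 1 ∨ e h = Multiplicative.ofAdd 1) → L₀ (a⁻¹ * h * a) = L₀ (b⁻¹ * h * b) := by
    intro x a b ha hb h hh heh
    have hk : a⁻¹ * b ∈ MulAction.stabilizer G v₀ := by
      rw [MulAction.mem_stabilizer_iff, mul_smul, ← hb, ha, inv_smul_smul]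
    have hh' : b⁻¹ * h * b ∈ MulAction.stabilizer G v₀ := by
      have := (E3_stab b x v₀ hb h).1 hh
      rwa [hconj] at this
    have h1 : a⁻¹ * h * a = (a⁻¹ * b) * (b⁻¹ * h * b) * (a⁻¹ * b)⁻¹ := by group
    rw [h1]
    exact hL.conj _ hh' _ hk (by rw [E3_e]; exact heh)
  refine build e o t ho ht hT hne ?_ ?_ ?_ ?_ (fun x h => L₀ ((γ x)⁻¹ * h * γ x)) ?_ ?_ ?_
  · refine Finite.of_surjective
      (fun _ : Unit => (Quotient.mk'' v₀ : MulAction.orbitRel.Quotient G V0)) ?_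
    intro q
    induction q using Quotient.inductionOn' with
    | h x =>
      refine ⟨(), Quotient.sound' ?_⟩
      rw [MulAction.orbitRel_apply]
      exact ⟨(γ x)⁻¹, by
        show (γ x)⁻¹ • x = v₀
        rw [inv_smul_eq_iff]
        exact hγ x⟩
  · refine Finite.of_surjective
      (fun j : Fin l => (Quotient.mk'' (w j) : MulAction.orbitRel.Quotient G V1)) ?_
    intro q
    induction q using Quotient.inductionOn' with
    | h x =>
      obtain ⟨j, g, hg⟩ := hw x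
      refine ⟨j, Quotient.sound' ?_⟩
      rw [MulAction.orbitRel_apply]
      exact ⟨g⁻¹, by
        show g⁻¹ • x = w j
        rw [inv_smul_eq_iff]
        exact hg⟩
  · intro x
    exact E3_VG e (MulAut.conj (γ x)⁻¹) (heφ (γ x)) _ _ (E3_stab (γ x) x v₀ (hγ x)) hv
  · intro x
    obtain ⟨j, g, hg⟩ := hw x
    exact E3_EG e (MulAut.conj g⁻¹) (heφ g) _ _ (E3_stab g x (w j) hg) (he j)
  · intro x
    have h1 := E3_WL e (MulAut.conj (γ x)⁻¹) (heφ (γ x)) _ _ (E3_stab (γ x) x v₀ (hγ x)) L₀ hL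
    have h2 : (fun h => L₀ ((γ x)⁻¹ * h * γ x)) =
        (fun h => L₀ ((MulAut.conj (γ x)⁻¹ : G ≃* G) h)) := by
      funext h
      rw [hconj]
    show WL e (MulAction.stabilizer G x) (fun h => L₀ ((γ x)⁻¹ * h * γ x))
    rw [h2]
    exact h1
  · intro g v h hh heh
    show L₀ ((γ (g • v))⁻¹ * (g * h * g⁻¹) * γ (g • v)) = L₀ ((γ v)⁻¹ * h * γ v)
    have h1 : g • v = (g * γ v) • v₀ := by
      rw [mul_smul, ← hγ v]
    have h2 : g * h * g⁻¹ ∈ MulAction.stabilizer G (g • v) := by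
      rw [MulAction.mem_stabilizer_iff, mul_smul, mul_smul, inv_smul_smul,
        MulAction.mem_stabilizer_iff.1 hh]
    have h3 : e (g * h * g⁻¹) = e h := by
      rw [map_mul, map_mul, map_inv, mul_comm (e g) (e h), mul_inv_cancel_right]
    rw [key (g • v) _ (g * γ v) (hγ _) h1 _ h2 (by rw [h3]; exact heh)]
    congr 1
    group
  · intro x h hh heh
    show L₀ ((γ (o x))⁻¹ * h * γ (o x)) = L₀ ((γ (t x))⁻¹ * h * γ (t x))
    obtain ⟨j, g, hg⟩ := hw x
    have h1 : o x = g • v₀ := by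
      rw [hg, ho, hco]
    have h2 : t x = (g * c j) • v₀ := by
      rw [hg, ht, hct, mul_smul]
    have h3 : h ∈ MulAction.stabilizer G (o x) := by
      rw [MulAction.mem_stabilizer_iff, ← ho, MulAction.mem_stabilizer_iff.1 hh]
    have h4 : h ∈ MulAction.stabilizer G (t x) := by
      rw [MulAction.mem_stabilizer_iff, ← ht, MulAction.mem_stabilizer_iff.1 hh]
    have h5 : g⁻¹ * h * g ∈ MulAction.stabilizer G (w j) := by
      have := (E3_stab g x (w j) hg h).1 hh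
      rwa [hconj] at this
    rw [key (o x) _ g (hγ _) h1 h h3 heh, key (t x) _ (g * c j) (hγ _) h2 h h4 heh,
      hm j _ h5 (by rw [E3_e]; exact heh)]
    congr 1
    group

end Pool.Agent.LibCF24
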