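import Pool.Agent.LibCF24.E1
import Pool.Agent.LibCF24.E2
import Pool.Agent.LibCF24.E3

/-! Row E4 (MEDIUM). The explicit family: construction. E1, E2, E3, QB (`cent_cyclic`), QC.

`build_hnn` with `e = eT φ`, `V0 = F ⧸ R`, `V1 = F × Fin l`, `v₀ = 1 R`, `w j = (1, j)`, `c j = inl b_j`. Transitivity: `y R = inl y • v₀`, `(y, j) = inl y • (1, j)`. `stabilizer v₀ = {g | g.left ∈ R}` (`φ^m(1) = 1`). `VG`: `z = inr (ofAdd 1)`: central because `φ` fixes `R`;
`stabilizer ⊓ ker e ≃* R ≃* Fr k` (`inc` is injective by `ret_inc`). `stabilizer (1, j) = {g | g.left * w_j^m = 1}`: `EG`: `z = inl (w_j)⁻¹ * inr (ofAdd 1)`, `stabilizer ⊓ ker e = ⊥`.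
`L₀ g = N (ret g.left) + m h (ret g.left)`, `m = toAdd g.right`. `WL`: for `g = (inc x, t^m)`, `g' = (inc y, t^m')`: `g' g g'⁻¹ = (inc (y x y⁻¹), t^m)`. `add` reduces to: for `x, y` commuting with `u`:
`N (x y u) - N (x y) - N u = (N (x u) - N x - N u) + (N (y u) - N y - N u)`: `u = 1`: both sides 0 (`N 1 = 0`); `u ≠ 1`: all are powers of one `r` (`cent_cyclic`).
`hm`: `e h = 1`: `h = 1`. `e h = ofAdd 1`: `h = (w_j⁻¹, t)`, `L₀ h = N w_j - h w_j` (`N x⁻¹ = N x`); `b_j⁻¹ h b_j = (b_j⁻¹ w_j⁻¹ φ(b_j), t) = (u_j, t)`, `L₀ = N u_j + h u_j`. -/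

set_option autoImplicit false

noncomputable section

open Set
open LibBD85 (Torus CAT0Group InCAT0 QLength)

namespace Pool.Agent.LibCF24

private theorem E4_fix {k l : ℕ} {φ : MulAut (FreeGroup (Fin (k + l)))} {w u : Fin l → FreeGroup (Fin k)}
    (hφ : IsExpl φ w u) (m : ℤ) {y : Fr (k + l)} (hy : y ∈ (inc k l).range) : (φ ^ m) y = y := by
  obtain ⟨x, rfl⟩ := hy
  have h1 : φ ∈ MulAction.stabilizer (MulAut (Fr (k + l))) (inc k l x) := hφ.inc x
  exact (MulAction.stabilizer (MulAut (Fr (k + l))) (inc k l x)).zpow_mem h1 m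

private theorem E4_mul {k l : ℕ} {φ : MulAut (FreeGroup (Fin (k + l)))} {w u : Fin l → FreeGroup (Fin k)}
    (hφ : IsExpl φ w u) (a b : Torus φ) (hb : b.left ∈ (inc k l).range) : (a * b).left = a.left * b.left := by
  rw [SemidirectProduct.mul_left, zpowersHom_apply, E4_fix hφ _ hb]

private theorem E4_add {k : ℕ} (N : FreeGroup (Fin k) → ℝ) (hN2 : ∀ g (m : ℤ), N (g ^ m) = m ^ 2 * N g)
    (x y u : Fr k) (hx : Commute x u) (hy : Commute y u) :
    N (x * y * u) - N (x * y) - N u = (N (x * u) - N x - N u) + (N (y * u) - N y - N u) := by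
  have hN1 : N 1 = 0 := by
    have := hN2 1 0
    simpa using this
  by_cases hu : u = 1
  · subst hu
    simp only [mul_one, hN1]
    ring
  obtain ⟨r, hr⟩ := cent_cyclic u hu
  obtain ⟨a, rfl⟩ := Subgroup.mem_zpowers_iff.mp ((hr x).mp hx)
  obtain ⟨b, rfl⟩ := Subgroup.mem_zpowers_iff.mp ((hr y).mp hy)
  obtain ⟨c, hc⟩ := Subgroup.mem_zpowers_iff.mp ((hr u).mp (Commute.refl u))
  rw [← hc, ← zpow_add, ← zpow_add, ← zpow_add, ← zpow_add]
  simp only [hN2]
  push_cast
  ring

private def E4_L {k l : ℕ} (φ : MulAut (FreeGroup (Fin (k + l)))) (N h : FreeGroup (Fin k) → ℝ) (g : Torus φ) : ℝ :=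
  N (ret k l g.left) + (Multiplicative.toAdd g.right : ℤ) * h (ret k l g.left)

theorem expl_cat0 {k l : ℕ} (φ : MulAut (FreeGroup (Fin (k + l)))) (w u : Fin l → FreeGroup (Fin k)) (hφ : IsExpl φ w u)
    (N h : FreeGroup (Fin k) → ℝ) (hN0 : ∀ g, g ≠ 1 → 0 < N g) (hN1 : ∀ x g, N (x * g * x⁻¹) = N g)
    (hN2 : ∀ g (m : ℤ), N (g ^ m) = m ^ 2 * N g) (hh : ∀ g g', h (g * g') = h g + h g')
    (hm : ∀ j, N (w j) - N (u j) = h (w j * u j)) : CAT0Group (Torus φ) := by
  obtain ⟨act0, act1, hA0, hA1, ho, ht⟩ := expl_act φ w u hφ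
  have hh1 : h 1 = 0 := by
    have := hh 1 1
    rw [mul_one] at this
    linarith
  have hhinv : ∀ g, h g⁻¹ = - h g := by
    intro g
    have := hh g g⁻¹
    rw [mul_inv_cancel, hh1] at this
    linarith
  have hNinv : ∀ g, N g⁻¹ = N g := by
    intro g
    have := hN2 g (-1)
    simpa using this
  have hN0' : N 1 = 0 := by
    have := hN2 1 0
    simpa using this
  -- the stabiliser of the base vertex
  have hH : ∀ g : Torus φ, g ∈ MulAction.stabilizer (Torus φ) (((1 : Fr (k + l)) : Fr (k + l) ⧸ (inc k l).range)) ↔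
      g.left ∈ (inc k l).range := by
    intro g
    rw [MulAction.mem_stabilizer_iff, hA0, map_one, mul_one, QuotientGroup.eq, mul_one, Subgroup.inv_mem_iff]
  have hK : ∀ (j : Fin l) (g : Torus φ), g ∈ MulAction.stabilizer (Torus φ) (((1 : Fr (k + l)), j)) ↔
      g.left * inc k l (w j) ^ (Multiplicative.toAdd g.right) = 1 := by
    intro j g
    rw [MulAction.mem_stabilizer_iff, hA1, map_one, mul_one, Prod.mk.injEq]
    exact ⟨fun h1 => h1.1, fun h1 => ⟨h1, rfl⟩⟩
  have hker : ∀ g : Torus φ, eT φ g = 1 → g.right = 1 := fun g hg => hg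
  have hone : ∀ g : Torus φ, g.left = 1 → g.right = 1 → g = 1 := by
    intro g h1 h2
    ext
    · rw [h1]
      rfl
    · rw [h2]
      rfl
  have hsm : ∀ (y x : Fr (k + l)), (SemidirectProduct.inl y : Torus φ) • ((x : Fr (k + l) ⧸ (inc k l).range)) =
      ((y * x : Fr (k + l)) : Fr (k + l) ⧸ (inc k l).range) := by
    intro y x
    rw [hA0]
    simp
  have hρmul : ∀ a b : Torus φ, b.left ∈ (inc k l).range →
      ret k l (a * b).left = ret k l a.left * ret k l b.left := by
    intro a b hb
    rw [E4_mul hφ a b hb, map_mul]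
  have hρinv : ∀ a : Torus φ, a.left ∈ (inc k l).range → ret k l a⁻¹.left = (ret k l a.left)⁻¹ := by
    intro a ha
    have h1 : a⁻¹.left ∈ (inc k l).range :=
      (hH _).1 ((MulAction.stabilizer (Torus φ) _).inv_mem ((hH a).2 ha))
    have h2 := hρmul a a⁻¹ h1
    rw [mul_inv_cancel] at h2
    have h3 : ret k l (1 : Torus φ).left = 1 := by
      rw [SemidirectProduct.one_left, map_one]
    rw [h3] at h2
    exact eq_inv_of_mul_eq_one_right h2.symm
  refine build_hnn (eT φ) (fun p : Fr (k + l) × Fin l => ((p.1 : Fr (k + l)) : Fr (k + l) ⧸ (inc k l).range))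
    (fun p : Fr (k + l) × Fin l => ((p.1 * bg k l p.2 : Fr (k + l)) : Fr (k + l) ⧸ (inc k l).range))
    ho ht (coset_tree k l) (coset_ne k l) ((1 : Fr (k + l)) : Fr (k + l) ⧸ (inc k l).range) ?_
    (fun j => ((1 : Fr (k + l)), j)) ?_ (fun j => SemidirectProduct.inl (bg k l j)) (fun j => rfl) ?_ ?_ ?_
    (E4_L φ N h) ?_ ?_
  · intro x
    obtain ⟨y, rfl⟩ := QuotientGroup.mk_surjective x
    refine ⟨SemidirectProduct.inl y, ?_⟩
    rw [hsm, mul_one]
  · rintro ⟨y, j⟩
    refine ⟨j, SemidirectProduct.inl y, ?_⟩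
    rw [hA1]
    simp
  · intro j
    show ((1 * bg k l j : Fr (k + l)) : Fr (k + l) ⧸ (inc k l).range) = _
    rw [hsm, one_mul, mul_one]
  · -- VG
    refine ⟨SemidirectProduct.inr (Multiplicative.ofAdd 1), ?_, ?_, ?_, k, ?_⟩
    · rw [hH, SemidirectProduct.left_inr]
      exact Subgroup.one_mem _
    · rfl
    · intro g hg
      have hg' := (hH g).1 hg
      show g * _ = _ * g
      ext
      · rw [SemidirectProduct.mul_left, SemidirectProduct.mul_left, SemidirectProduct.left_inr, map_one, mul_one,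
          one_mul, zpowersHom_apply, E4_fix hφ _ hg']
      · rw [SemidirectProduct.mul_right, SemidirectProduct.mul_right, mul_comm]
    · have hmem : ∀ x : Fr k, (SemidirectProduct.inl (inc k l x) : Torus φ) ∈
          MulAction.stabilizer (Torus φ) (((1 : Fr (k + l)) : Fr (k + l) ⧸ (inc k l).range)) ⊓ (eT φ).ker := by
        intro x
        refine Subgroup.mem_inf.2 ⟨?_, ?_⟩
        · rw [hH, SemidirectProduct.left_inl]
          exact ⟨x, rfl⟩
        · rw [MonoidHom.mem_ker]
          exact SemidirectProduct.rightHom_inl _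
      let F : Fr k →* ↥(MulAction.stabilizer (Torus φ) (((1 : Fr (k + l)) : Fr (k + l) ⧸ (inc k l).range)) ⊓ (eT φ).ker) :=
        ((SemidirectProduct.inl : Fr (k + l) →* Torus φ).comp (inc k l)).codRestrict _ hmem
      refine ⟨(MulEquiv.ofBijective F ⟨?_, ?_⟩).symm⟩
      · intro x y hxy
        have h1 : (SemidirectProduct.inl (inc k l x) : Torus φ) = SemidirectProduct.inl (inc k l y) :=
          congrArg Subtype.val hxy
        have h2 := SemidirectProduct.inl_injective h1
        rw [← ret_inc k l x, ← ret_inc k l y, h2]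
      · rintro ⟨g, hg⟩
        obtain ⟨hg1, hg2⟩ := Subgroup.mem_inf.1 hg
        obtain ⟨x, hx⟩ := (hH g).1 hg1
        refine ⟨x, Subtype.ext ?_⟩
        show (SemidirectProduct.inl (inc k l x) : Torus φ) = g
        ext
        · rw [SemidirectProduct.left_inl, hx]
        · rw [SemidirectProduct.right_inl]
          exact (hker g hg2).symm
  · -- EG
    intro j
    refine ⟨⟨SemidirectProduct.inl (inc k l (w j))⁻¹ * SemidirectProduct.inr (Multiplicative.ofAdd 1), ?_, ?_⟩, ?_⟩
    · rw [hK]
      simp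
    · rw [map_mul]
      simp
    · have hsub : Subsingleton ↥(MulAction.stabilizer (Torus φ) (((1 : Fr (k + l)), j)) ⊓ (eT φ).ker) := by
        refine ⟨?_⟩
        have h1 : ∀ g : ↥(MulAction.stabilizer (Torus φ) (((1 : Fr (k + l)), j)) ⊓ (eT φ).ker), g = 1 := by
          rintro ⟨g, hg⟩
          obtain ⟨hg1, hg2⟩ := Subgroup.mem_inf.1 hg
          have h2 := (hK j g).1 hg1
          have h3 := hker g hg2
          rw [h3, toAdd_one, zpow_zero, mul_one] at h2
          exact Subtype.ext (hone g h2 h3)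
        intro a b
        rw [h1 a, h1 b]
      exact isCyclic_of_subsingleton
  · -- WL
    refine ⟨?_, ?_, ?_, ?_⟩
    · intro g hg he hne
      obtain ⟨x, hx⟩ := (hH g).1 hg
      have h1 := hker g he
      unfold E4_L
      rw [h1, toAdd_one, ← hx, ret_inc]
      have hx1 : x ≠ 1 := by
        rintro rfl
        rw [map_one] at hx
        exact hne (hone g hx.symm h1)
      have := hN0 x hx1
      simpa using this
    · intro g hg g' hg' _
      have hgl := (hH g).1 hg
      have hgl' := (hH g').1 hg'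
      have hgi : g'⁻¹.left ∈ (inc k l).range := (hH _).1 ((MulAction.stabilizer (Torus φ) _).inv_mem hg')
      unfold E4_L
      have h1 : ret k l (g' * g * g'⁻¹).left = ret k l g'.left * ret k l g.left * (ret k l g'.left)⁻¹ := by
        rw [hρmul _ _ hgi, hρmul _ _ hgl, hρinv _ hgl']
      have h2 : (g' * g * g'⁻¹).right = g.right := by
        rw [SemidirectProduct.mul_right, SemidirectProduct.mul_right, SemidirectProduct.inv_right,
          mul_inv_cancel_comm]
      rw [h1, h2, hN1, hh, hh, hhinv]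
      ring
    · intro g hg he m
      have h1 := hker g he
      have h3 : g = SemidirectProduct.inl g.left := by
        ext
        · rfl
        · rw [h1]
          rfl
      have h4 : g ^ m = SemidirectProduct.inl (g.left ^ m) := by
        conv_lhs => rw [h3]
        rw [map_zpow]
      unfold E4_L
      rw [h4, h1, SemidirectProduct.left_inl, SemidirectProduct.right_inl, map_zpow, hN2]
      simp
    · intro s hs g hg g' hg' hes heg heg' hc hc'
      have hsl := (hH s).1 hs
      have hgl := (hH g).1 hg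
      have hgl' := (hH g').1 hg'
      have hsr : s.right = Multiplicative.ofAdd 1 := hes
      have hgr := hker g heg
      have hgr' := hker g' heg'
      have hcx : Commute (ret k l g.left) (ret k l s.left) := by
        have h1 : g * s = s * g := hc
        have h2 := congrArg (fun z : Torus φ => ret k l z.left) h1
        simp only [hρmul _ _ hsl, hρmul _ _ hgl] at h2
        exact h2
      have hcy : Commute (ret k l g'.left) (ret k l s.left) := by
        have h1 : g' * s = s * g' := hc'
        have h2 := congrArg (fun z : Torus φ => ret k l z.left) h1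
        simp only [hρmul _ _ hsl, hρmul _ _ hgl'] at h2
        exact h2
      have hadd := E4_add N hN2 _ _ _ hcx hcy
      unfold E4_L
      rw [hρmul _ _ hsl, hρmul _ _ hgl', hρmul _ _ hsl, hρmul _ _ hsl]
      simp only [SemidirectProduct.mul_right, hgr, hgr', hsr, one_mul, toAdd_one, toAdd_ofAdd, hh]
      push_cast
      linarith
  · -- matching
    intro j g hg hg'
    have h2 := (hK j g).1 hg
    rcases hg' with hg' | hg'
    · have h3 := hker g hg'
      rw [h3, toAdd_one, zpow_zero, mul_one] at h2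
      have h4 := hone g h2 h3
      rw [h4, mul_one, inv_mul_cancel]
    · have h3 : g.right = Multiplicative.ofAdd 1 := hg'
      rw [h3, toAdd_ofAdd, zpow_one] at h2
      have h4 : g.left = (inc k l (w j))⁻¹ := eq_inv_of_mul_eq_one_left h2
      have h5 : ((SemidirectProduct.inl (bg k l j) : Torus φ)⁻¹ * g * SemidirectProduct.inl (bg k l j)).left =
          inc k l (u j) := by
        rw [SemidirectProduct.mul_left, SemidirectProduct.mul_left, ← map_inv, SemidirectProduct.left_inl,
          SemidirectProduct.right_inl, SemidirectProduct.mul_right, SemidirectProduct.right_inl,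
          SemidirectProduct.left_inl, h4, h3, map_one, one_mul, zpowersHom_apply, toAdd_ofAdd, zpow_one]
        have h6 := hφ.b j
        show (bg k l j)⁻¹ * (inc k l (w j))⁻¹ * φ (FreeGroup.of (Fin.natAdd k j)) = _
        rw [h6]
        show (bg k l j)⁻¹ * (inc k l (w j))⁻¹ * (inc k l (w j) * bg k l j * inc k l (u j)) = _
        group
      have h6 : ((SemidirectProduct.inl (bg k l j) : Torus φ)⁻¹ * g * SemidirectProduct.inl (bg k l j)).right =
          Multiplicative.ofAdd 1 := by
        rw [SemidirectProduct.mul_right, SemidirectProduct.mul_right, ← map_inv, SemidirectProduct.right_inl,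
          SemidirectProduct.right_inl, h3, one_mul, mul_one]
      unfold E4_L
      rw [h5, h6, h4, h3, map_inv, ret_inc, ret_inc, hNinv, hhinv, toAdd_ofAdd]
      have h7 := hm j
      rw [hh] at h7
      push_cast
      linarith

end Pool.Agent.LibCF24
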