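import Pool.Agent.LibCF24.EDefs
import Pool.Agent.LibCF24.C5

/-! Row E5 (SHORT/MEDIUM). The explicit family: necessity. C5 (`virt_TL`).

`N', M'` from `virt_TL`; `N g = N' (inc g)`, `h g = M' (inc g) - N' (inc g) - M' 1` (additive: `TL.add` with `w = 1`, `φ (inc g) = inc g`). `twisted` with `x = b_j⁻¹`, `w = (inc w_j)⁻¹`: `b_j⁻¹ (inc w_j)⁻¹ φ(b_j) = inc u_j`, so `M' (inc u_j) = M' (inc w_j⁻¹)`:
`N u_j + h u_j = N w_j - h w_j` (`N` is even by `pow` with `m = -1`). -/

set_option autoImplicit false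

noncomputable section

open Set
open LibBD85 (Torus CAT0Group InCAT0 QLength)

namespace Pool.Agent.LibCF24

theorem expl_nec {k l : ℕ} (φ : MulAut (FreeGroup (Fin (k + l)))) (w u : Fin l → FreeGroup (Fin k)) (hφ : IsExpl φ w u)
    (hv : VirtInCAT0 (Torus φ)) :
    ∃ N h : FreeGroup (Fin k) → ℝ, (∀ g, g ≠ 1 → 0 < N g) ∧ (∀ x g, N (x * g * x⁻¹) = N g) ∧
      (∀ g (m : ℤ), N (g ^ m) = m ^ 2 * N g) ∧ (∀ g g', h (g * g') = h g + h g') ∧ ∀ j, N (w j) - N (u j) = h (w j * u j) := by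
  obtain ⟨N', M', hT⟩ := virt_TL φ hv
  have hinj : ∀ g : FreeGroup (Fin k), inc k l g = 1 → g = 1 := by
    intro g hg
    have h1 := ret_inc k l g
    rw [hg, map_one] at h1
    exact h1.symm
  let N : FreeGroup (Fin k) → ℝ := fun g => N' (inc k l g)
  let h : FreeGroup (Fin k) → ℝ := fun g => M' (inc k l g) - N' (inc k l g) - M' 1
  have hadd : ∀ g g' : FreeGroup (Fin k), h (g * g') = h g + h g' := by
    intro g g'
    have h1 := hT.add 1 (inc k l g) (inc k l g') (by rw [hφ.inc]; group) (by rw [hφ.inc]; group)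
    simp only [mul_one] at h1
    show M' (inc k l (g * g')) - N' (inc k l (g * g')) - M' 1 = _
    rw [map_mul]
    exact h1
  have hpow : ∀ g (m : ℤ), N (g ^ m) = m ^ 2 * N g := by
    intro g m
    show N' (inc k l (g ^ m)) = _
    rw [map_zpow]
    exact hT.pow _ m
  refine ⟨N, h, ?_, ?_, hpow, hadd, ?_⟩
  · intro g hg
    exact hT.pos _ fun h1 => hg (hinj g h1)
  · intro x g
    show N' (inc k l (x * g * x⁻¹)) = N' (inc k l g)
    rw [map_mul, map_mul, map_inv]
    exact hT.conj _ _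
  · intro j
    have h1 : h 1 = 0 := by
      have := hadd 1 1
      rw [mul_one] at this
      linarith
    have h2 : h (w j)⁻¹ = - h (w j) := by
      have := hadd (w j) (w j)⁻¹
      rw [mul_inv_cancel, h1] at this
      linarith
    have h3 : N (w j)⁻¹ = N (w j) := by
      have := hpow (w j) (-1)
      rw [zpow_neg_one] at this
      rw [this]
      norm_num
    have h4 := hT.twisted (bg k l j)⁻¹ (inc k l (w j))⁻¹
    have h5 : (bg k l j)⁻¹ * (inc k l (w j))⁻¹ * (φ (bg k l j)⁻¹)⁻¹ = inc k l (u j) := by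
      rw [map_inv, inv_inv, hφ.b j]
      show (bg k l j)⁻¹ * (inc k l (w j))⁻¹ * (inc k l (w j) * bg k l j * inc k l (u j)) = _
      group
    rw [h5, ← map_inv] at h4
    rw [hadd]
    have h6 : h (u j) = M' (inc k l (u j)) - N (u j) - M' 1 := rfl
    have h7 : h (w j)⁻¹ = M' (inc k l (w j)⁻¹) - N (w j)⁻¹ - M' 1 := rfl
    linarith

end Pool.Agent.LibCF24
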