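import Pool.Agent.LibCF24.EDefs
import Pool.Agent.LibCF24.QC

/-! Row E6 (MEDIUM). Solving `- N (u_j) = h (u_j)`. QB, QC (`root_exists`, `comm_of_pow`, `cent_cyclic`).

`→`: `χ g = - h g`: `χ (u j) = N (u j) > 0` for `u j ≠ 1`. If `x u_i^a x⁻¹ = u_j^b`, `a ≠ 0`, `u_i ≠ 1`: `a² N u_i = b² N u_j`, `a χ u_i = b χ u_j`, `χ u_i = N u_i`, `χ u_j = N u_j` (`u_j ≠ 1` because `u_j^b ≠ 1`), so `a = b`.
`←`: `h = - χ`. Call `g`, `s` commensurable (`g ~ s`) if `x g^a x⁻¹ = s^b` for some `x`, `a ≠ 0`, `b ≠ 0` (an equivalence relation on `g ≠ 1`: if `x g^a x⁻¹ = s^b`, `y s^c y⁻¹ = r^d` then `(y x) g^(a c) (y x)⁻¹ = r^(b d)`).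
If `g ≠ 1` is commensurable with some `s = u_j ≠ 1`: `N g = (b / a)² χ s` for any such `x, a, b`: independent of the choices: if also `x' g^a' x'⁻¹ = s'^b'`, `s' = u_j'`: `s^(b a')` and `s'^(b' a)` are conjugate (both conjugate to `g^(a a')`), so `b a' = b' a` by hypothesis
(for `j' = j` too) and `b a' χ s = b' a χ s'`; so `χ s = χ s'`, `b / a = b' / a'`. Otherwise, by choosing a function on the classes: `N g = p²` where `g = x y^p x⁻¹`, `y` a root (`root_exists`): `|p|` is independent of the choices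
(if `x y^p x⁻¹ = x' y'^p' x'⁻¹` then `x y x⁻¹` and `x' y' x'⁻¹` commute with each other and are roots: each is a power of the other, so equal up to inversion, `|p| = |p'|`). `N 1 = 0`. Alternatively take for both cases `N g = c(class) p²`.
Properties: class function, `N (g ^ m) = m² N g`, positive, `N (u j) = χ (u j)` (`a = b = 1`). -/

set_option autoImplicit false

noncomputable section

open Set
open LibBD85 (Torus CAT0Group InCAT0 QLength)

namespace Pool.Agent.LibCF24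

private theorem E6_pow {k : ℕ} {f : Fr k → ℝ} (hf : ∀ g g', f (g * g') = f g + f g') (g : Fr k) (m : ℤ) :
    f (g ^ m) = m * f g := by
  let F : Additive (Fr k) →+ ℝ := AddMonoidHom.mk' (fun g => f g.toMul) fun a b => hf _ _
  have h := map_zsmul F m (Additive.ofMul g)
  rw [zsmul_eq_mul] at h
  exact h

private theorem E6_conj {k : ℕ} {f : Fr k → ℝ} (hf : ∀ g g', f (g * g') = f g + f g') (x g : Fr k) :
    f (x * g * x⁻¹) = f g := by
  have h1 := E6_pow hf x (-1)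
  rw [zpow_neg_one] at h1
  rw [hf, hf, h1]
  push_cast
  ring

private theorem E6_ne {k : ℕ} {g : Fr k} (hg : g ≠ 1) {m : ℤ} (hm : m ≠ 0) : g ^ m ≠ 1 :=
  fun h => hg ((IsMulTorsionFree.zpow_eq_one_iff_left hm).mp h)

/-- `g` is commensurable with one of the `u j` -/
private def E6C {k l : ℕ} (u : Fin l → Fr k) (g : Fr k) : Prop :=
  ∃ (j : Fin l) (x : Fr k) (a b : ℤ), u j ≠ 1 ∧ a ≠ 0 ∧ b ≠ 0 ∧ x * g ^ a * x⁻¹ = u j ^ b

/-- `c` is the value at `g` -/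
private def E6V {k l : ℕ} (u : Fin l → Fr k) (χ : Fr k → ℝ) (g : Fr k) (c : ℝ) : Prop :=
  (g = 1 ∧ c = 0) ∨
  (g ≠ 1 ∧ ∃ (j : Fin l) (x : Fr k) (a b : ℤ), u j ≠ 1 ∧ a ≠ 0 ∧ b ≠ 0 ∧ x * g ^ a * x⁻¹ = u j ^ b ∧
    c = ((b : ℝ) / a) ^ 2 * χ (u j)) ∨
  (g ≠ 1 ∧ ¬ E6C u g ∧ ∃ (x y : Fr k) (p : ℤ), Root y ∧ p ≠ 0 ∧ g = x * y ^ p * x⁻¹ ∧ c = (p : ℝ) ^ 2)

private theorem E6_exists {k l : ℕ} (u : Fin l → Fr k) (χ : Fr k → ℝ) (g : Fr k) : ∃ c, E6V u χ g c := by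
  by_cases hg : g = 1
  · exact ⟨0, Or.inl ⟨hg, rfl⟩⟩
  by_cases hc : E6C u g
  · obtain ⟨j, x, a, b, h1, h2, h3, h4⟩ := hc
    exact ⟨_, Or.inr (Or.inl ⟨hg, j, x, a, b, h1, h2, h3, h4, rfl⟩)⟩
  · obtain ⟨y, x, p, hp, h1, h2, -⟩ := root_exists g hg
    exact ⟨_, Or.inr (Or.inr ⟨hg, hc, x, y, p, h2, hp, h1, rfl⟩)⟩

private theorem E6_root_conj {k : ℕ} {y : Fr k} (hy : Root y) (x : Fr k) : Root (x * y * x⁻¹) := by
  refine ⟨fun h => hy.1 (conj_eq_one_iff.1 h), fun u hu => ?_⟩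
  have h1 : Commute (x⁻¹ * u * x) y := by
    have h2 : u * (x * y * x⁻¹) = x * y * x⁻¹ * u := hu
    show x⁻¹ * u * x * y = y * (x⁻¹ * u * x)
    calc x⁻¹ * u * x * y = x⁻¹ * (u * (x * y * x⁻¹)) * x := by group
      _ = x⁻¹ * (x * y * x⁻¹ * u) * x := by rw [h2]
      _ = y * (x⁻¹ * u * x) := by group
  obtain ⟨m, hm⟩ := Subgroup.mem_zpowers_iff.1 (hy.2 _ h1)
  refine Subgroup.mem_zpowers_iff.2 ⟨m, ?_⟩
  rw [conj_zpow, hm]
  group

private theorem E6_sq {k : ℕ} {r r' : Fr k} (hr : Root r) (hr' : Root r') {p p' : ℤ} (hp : p ≠ 0) (hp' : p' ≠ 0)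
    (h : r ^ p = r' ^ p') : (p : ℝ) ^ 2 = (p' : ℝ) ^ 2 := by
  have h1 : Commute r' r := by
    refine comm_of_pow r' r p hp ?_
    rw [h]
    exact (Commute.refl r').zpow_right p'
  obtain ⟨m, hm⟩ := Subgroup.mem_zpowers_iff.1 (hr.2 r' h1)
  obtain ⟨m', hm'⟩ := Subgroup.mem_zpowers_iff.1 (hr'.2 r h1.symm)
  have h2 : r ^ (m * m' - 1) = 1 := by
    rw [zpow_sub, zpow_mul, hm, hm', zpow_one, mul_inv_cancel]
  have h3 : m * m' - 1 = 0 := by
    by_contra h0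
    exact E6_ne hr.1 h0 h2
  have h4 : m * m' = 1 := by omega
  have h5 : r ^ (p - m * p') = 1 := by
    rw [zpow_sub, zpow_mul, hm, h, mul_inv_cancel]
  have h6 : p - m * p' = 0 := by
    by_contra h0
    exact E6_ne hr.1 h0 h5
  have h7 : p = m * p' := by omega
  rcases Int.eq_one_or_neg_one_of_mul_eq_one h4 with h8 | h8
  · rw [h7, h8]
    push_cast
    ring
  · rw [h7, h8]
    push_cast
    ring

private theorem E6_unique {k l : ℕ} {u : Fin l → Fr k} {χ : Fr k → ℝ} (hχ : ∀ g g', χ (g * g') = χ g + χ g')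
    (hu : ∀ i j (x : Fr k) (a b : ℤ), u i ≠ 1 → a ≠ 0 → x * u i ^ a * x⁻¹ = u j ^ b → a = b) {g : Fr k} {c c' : ℝ}
    (h : E6V u χ g c) (h' : E6V u χ g c') : c = c' := by
  rcases h with ⟨hg, hc⟩ | ⟨hg, j, x, a, b, h1, h2, h3, h4, h5⟩ | ⟨hg, hC, x, y, p, h1, h2, h3, h4⟩
  · rcases h' with ⟨-, hc'⟩ | ⟨hg', -⟩ | ⟨hg', -⟩
    · rw [hc, hc']
    · exact absurd hg hg'
    · exact absurd hg hg'
  · rcases h' with ⟨hg', -⟩ | ⟨-, j', x', a', b', h1', h2', h3', h4', h5'⟩ | ⟨-, hC', -⟩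
    · exact absurd hg' hg
    · have e1 : x * g ^ (a * a') * x⁻¹ = u j ^ (b * a') := by
        rw [zpow_mul, zpow_mul, ← h4, conj_zpow]
      have e2 : x' * g ^ (a * a') * x'⁻¹ = u j' ^ (b' * a) := by
        rw [mul_comm a a', zpow_mul, zpow_mul, ← h4', conj_zpow]
      have e3 : (x' * x⁻¹) * u j ^ (b * a') * (x' * x⁻¹)⁻¹ = u j' ^ (b' * a) := by
        rw [← e1, ← e2]
        group
      have e4 : b * a' = b' * a := hu j j' _ _ _ h1 (mul_ne_zero h3 h2') e3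
      have e5 : χ (u j ^ (b * a')) = χ (u j' ^ (b' * a)) := by
        rw [← e3, E6_conj hχ]
      rw [E6_pow hχ, E6_pow hχ, e4] at e5
      have e6 : ((b' * a : ℤ) : ℝ) ≠ 0 := by exact_mod_cast mul_ne_zero h3' h2
      have e7 : χ (u j) = χ (u j') := mul_left_cancel₀ e6 e5
      have e8 : (b : ℝ) / a = (b' : ℝ) / a' := by
        rw [div_eq_div_iff (by exact_mod_cast h2) (by exact_mod_cast h2')]
        exact_mod_cast e4
      rw [h5, h5', e7, e8]
    · exact absurd ⟨j, x, a, b, h1, h2, h3, h4⟩ hC'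
  · rcases h' with ⟨hg', -⟩ | ⟨-, j', x', a', b', h1', h2', h3', h4', -⟩ | ⟨-, -, x', y', p', h1', h2', h3', h4'⟩
    · exact absurd hg' hg
    · exact absurd ⟨j', x', a', b', h1', h2', h3', h4'⟩ hC
    · rw [h4, h4']
      refine E6_sq (E6_root_conj h1 x) (E6_root_conj h1' x') h2 h2' ?_
      rw [conj_zpow, conj_zpow, ← h3, ← h3']

private theorem E6C_conj {k l : ℕ} {u : Fin l → Fr k} {g : Fr k} (z : Fr k) (h : E6C u (z * g * z⁻¹)) : E6C u g := by
  obtain ⟨j, x, a, b, h1, h2, h3, h4⟩ := h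
  refine ⟨j, x * z, a, b, h1, h2, h3, ?_⟩
  rw [← h4, conj_zpow]
  group

private theorem E6C_pow {k l : ℕ} {u : Fin l → Fr k} {g : Fr k} {m : ℤ} (hm : m ≠ 0) (h : E6C u (g ^ m)) : E6C u g := by
  obtain ⟨j, x, a, b, h1, h2, h3, h4⟩ := h
  refine ⟨j, x, m * a, b, h1, mul_ne_zero hm h2, h3, ?_⟩
  rw [← h4, zpow_mul]

private theorem E6_vconj {k l : ℕ} {u : Fin l → Fr k} {χ : Fr k → ℝ} {g : Fr k} {c : ℝ} (z : Fr k)
    (h : E6V u χ g c) : E6V u χ (z * g * z⁻¹) c := by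
  rcases h with ⟨hg, hc⟩ | ⟨hg, j, x, a, b, h1, h2, h3, h4, h5⟩ | ⟨hg, hC, x, y, p, h1, h2, h3, h4⟩
  · refine Or.inl ⟨?_, hc⟩
    rw [hg, mul_one, mul_inv_cancel]
  · refine Or.inr (Or.inl ⟨fun h => hg (conj_eq_one_iff.1 h), j, x * z⁻¹, a, b, h1, h2, h3, ?_, h5⟩)
    rw [← h4, conj_zpow]
    group
  · refine Or.inr (Or.inr ⟨fun h => hg (conj_eq_one_iff.1 h), fun h => hC (E6C_conj z h), z * x, y, p, h1, h2, ?_, h4⟩)
    rw [h3]
    group

private theorem E6_vpow {k l : ℕ} {u : Fin l → Fr k} {χ : Fr k → ℝ} {g : Fr k} {c : ℝ} (m : ℤ)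
    (h : E6V u χ g c) : E6V u χ (g ^ m) ((m : ℝ) ^ 2 * c) := by
  by_cases hm : m = 0
  · refine Or.inl ⟨by rw [hm, zpow_zero], ?_⟩
    rw [hm]
    push_cast
    ring
  rcases h with ⟨hg, hc⟩ | ⟨hg, j, x, a, b, h1, h2, h3, h4, h5⟩ | ⟨hg, hC, x, y, p, h1, h2, h3, h4⟩
  · refine Or.inl ⟨by rw [hg, one_zpow], by rw [hc, mul_zero]⟩
  · refine Or.inr (Or.inl ⟨E6_ne hg hm, j, x, a, b * m, h1, h2, mul_ne_zero h3 hm, ?_, ?_⟩)
    · rw [zpow_mul, ← h4, conj_zpow, ← zpow_mul, ← zpow_mul, mul_comm]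
    · rw [h5]
      push_cast
      ring
  · refine Or.inr (Or.inr ⟨E6_ne hg hm, fun h => hC (E6C_pow hm h), x, y, p * m, h1, mul_ne_zero h2 hm, ?_, ?_⟩)
    · rw [h3, conj_zpow, zpow_mul]
    · rw [h4]
      push_cast
      ring

theorem solve_iff {k l : ℕ} (u : Fin l → FreeGroup (Fin k)) :
    (∃ N h : FreeGroup (Fin k) → ℝ, (∀ g, g ≠ 1 → 0 < N g) ∧ (∀ x g, N (x * g * x⁻¹) = N g) ∧
      (∀ g (m : ℤ), N (g ^ m) = m ^ 2 * N g) ∧ (∀ g g', h (g * g') = h g + h g') ∧ ∀ j, N 1 - N (u j) = h (1 * u j)) ↔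
    (∃ χ : FreeGroup (Fin k) → ℝ, (∀ g g', χ (g * g') = χ g + χ g') ∧ ∀ j, u j ≠ 1 → 0 < χ (u j)) ∧
      ∀ i j (x : FreeGroup (Fin k)) (a b : ℤ), u i ≠ 1 → a ≠ 0 → x * u i ^ a * x⁻¹ = u j ^ b → a = b := by
  constructor
  · rintro ⟨N, h, hpos, hcl, hpow, hadd, heq⟩
    have hN1 : N 1 = 0 := by
      have h1 := hpow 1 0
      rw [zpow_zero] at h1
      rw [h1]
      push_cast
      ring
    have hval : ∀ j, N (u j) = -h (u j) := by
      intro j
      have h1 := heq j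
      rw [hN1, one_mul] at h1
      linarith
    refine ⟨⟨fun g => -h g, fun g g' => by
      change -h (g * g') = -h g + -h g'
      rw [hadd]
      ring, fun j hj => ?_⟩, ?_⟩
    · change 0 < -h (u j)
      rw [← hval j]
      exact hpos _ hj
    · intro i j x a b hi ha hx
      have hj : u j ≠ 1 := by
        intro hj
        rw [hj, one_zpow, conj_eq_one_iff] at hx
        exact E6_ne hi ha hx
      have e1 : (a : ℝ) ^ 2 * N (u i) = (b : ℝ) ^ 2 * N (u j) := by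
        rw [← hpow, ← hpow, ← hx, hcl]
      have e2 : (a : ℝ) * h (u i) = (b : ℝ) * h (u j) := by
        rw [← E6_pow hadd, ← E6_pow hadd, ← hx, E6_conj hadd]
      have e3 : (a : ℝ) * N (u i) = (b : ℝ) * N (u j) := by
        rw [hval, hval]
        linarith
      have hNj := hpos _ hj
      have hNi := hpos _ hi
      have e4 : (b : ℝ) * N (u j) * ((a : ℝ) - b) = 0 := by
        have : (a : ℝ) * ((a : ℝ) * N (u i)) = (b : ℝ) ^ 2 * N (u j) := by rw [← e1]; ring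
        rw [e3] at this
        linarith
      have haR : (a : ℝ) ≠ 0 := by exact_mod_cast ha
      have e5 : (b : ℝ) * N (u j) ≠ 0 := by
        rw [← e3]
        exact mul_ne_zero haR hNi.ne'
      have e6 : (a : ℝ) - b = 0 := (mul_eq_zero.1 e4).resolve_left e5
      have e7 : (a : ℝ) = b := by linarith
      exact_mod_cast e7
  · rintro ⟨⟨χ, hχ, hpos⟩, hu⟩
    choose N hN using E6_exists u χ
    refine ⟨N, fun g => -χ g, ?_, ?_, ?_, ?_, ?_⟩
    · intro g hg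
      rcases hN g with ⟨h, -⟩ | ⟨-, j, x, a, b, h1, h2, h3, h4, h5⟩ | ⟨-, hC, x, y, p, h1, h2, h3, h4⟩
      · exact absurd h hg
      · rw [h5]
        have e1 : (b : ℝ) / a ≠ 0 := div_ne_zero (by exact_mod_cast h3) (by exact_mod_cast h2)
        have e2 := hpos j h1
        positivity
      · rw [h4]
        have e1 : (p : ℝ) ≠ 0 := by exact_mod_cast h2
        positivity
    · intro x g
      exact E6_unique hχ hu (hN _) (E6_vconj x (hN g))
    · intro g m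
      exact E6_unique hχ hu (hN _) (E6_vpow m (hN g))
    · intro g g'
      change -χ (g * g') = -χ g + -χ g'
      rw [hχ]
      ring
    · intro j
      have h1 : N 1 = 0 := E6_unique hχ hu (hN _) (Or.inl ⟨rfl, rfl⟩)
      change N 1 - N (u j) = -χ (1 * u j)
      rw [h1, one_mul]
      by_cases hj : u j = 1
      · rw [hj, h1]
        have h2 := E6_pow hχ 1 0
        rw [zpow_zero] at h2
        rw [h2]
        push_cast
        ring
      · have h2 : N (u j) = χ (u j) := by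
          refine E6_unique hχ hu (hN _) (Or.inr (Or.inl ⟨hj, j, 1, 1, 1, hj, one_ne_zero, one_ne_zero, ?_, ?_⟩))
          · group
          · push_cast
            ring
        rw [h2]
        ring

end Pool.Agent.LibCF24
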