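import Pool.Agent.LibCF24.EDefs

/-! One generator: `u = 1` or `u` not in the commutator subgroup. -/

set_option autoImplicit false

noncomputable section

open Set

namespace Pool.Agent.LibCF24

theorem exists_char {k : ℕ} (u : FreeGroup (Fin k)) (hu : u ∉ commutator (FreeGroup (Fin k))) :
    ∃ χ : FreeGroup (Fin k) → ℝ, (∀ g g', χ (g * g') = χ g + χ g') ∧ 0 < χ u := by
  let A : FreeAbelianGroup (Fin k) := Additive.ofMul (Abelianization.of u)
  have hA : A ≠ 0 := by
    intro h
    apply hu
    have h1 : Abelianization.of u = 1 := h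
    rwa [← MonoidHom.mem_ker, Abelianization.ker_of] at h1
  have hF : FreeAbelianGroup.toFinsupp A ≠ 0 := by
    intro h
    apply hA
    have := congrArg Finsupp.toFreeAbelianGroup h
    rwa [Finsupp.toFreeAbelianGroup_toFinsupp, map_zero] at this
  obtain ⟨i, hi⟩ : ∃ i, FreeAbelianGroup.toFinsupp A i ≠ 0 := by
    by_contra hne
    push Not at hne
    exact hF (Finsupp.ext hne)
  let c : FreeGroup (Fin k) → ℤ := fun g => FreeAbelianGroup.toFinsupp (Additive.ofMul (Abelianization.of g) : FreeAbelianGroup (Fin k)) i
  have hc : ∀ g g', c (g * g') = c g + c g' := by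
    intro g g'
    show FreeAbelianGroup.toFinsupp (Additive.ofMul (Abelianization.of (g * g')) : FreeAbelianGroup (Fin k)) i = _
    rw [map_mul, ofMul_mul]
    exact congrArg (fun f : Fin k →₀ ℤ => f i) (map_add FreeAbelianGroup.toFinsupp
      (Additive.ofMul (Abelianization.of g) : FreeAbelianGroup (Fin k)) (Additive.ofMul (Abelianization.of g')))
  have hcu : c u ≠ 0 := hi
  refine ⟨fun g => (c u : ℝ) * (c g : ℝ), fun g g' => ?_, ?_⟩
  · show (c u : ℝ) * ((c (g * g') : ℤ) : ℝ) = _
    rw [hc]
    push_cast
    ring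
  · have h1 : (c u : ℝ) ≠ 0 := by exact_mod_cast hcu
    exact mul_self_pos.2 h1

theorem one_iff {k : ℕ} (u : FreeGroup (Fin k)) :
    ((∃ χ : FreeGroup (Fin k) → ℝ, (∀ g g', χ (g * g') = χ g + χ g') ∧ ∀ _ : Fin 1, u ≠ 1 → 0 < χ u) ∧
      ∀ (_ _ : Fin 1) (x : FreeGroup (Fin k)) (a b : ℤ), u ≠ 1 → a ≠ 0 → x * u ^ a * x⁻¹ = u ^ b → a = b) ↔
    (u = 1 ∨ u ∉ commutator (FreeGroup (Fin k))) := by
  constructor
  · rintro ⟨⟨χ, h1, h2⟩, -⟩
    by_cases hu : u = 1
    · exact Or.inl hu
    · right
      intro h
      have h0 : χ 1 = 0 := by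
        have := h1 1 1
        rw [mul_one] at this
        linarith
      let b : FreeGroup (Fin k) →* Multiplicative ℝ :=
        { toFun := fun g => Multiplicative.ofAdd (χ g)
          map_one' := by rw [h0]; rfl
          map_mul' := by
            intro g g'
            rw [h1]
            rfl }
      have h3 : u ∈ b.ker := Abelianization.commutator_subset_ker b h
      have h4 : χ u = 0 := congrArg Multiplicative.toAdd (MonoidHom.mem_ker.mp h3)
      have := h2 0 hu
      linarith
  · rintro (rfl | hu)
    · exact ⟨⟨fun _ => 0, fun _ _ => by simp, fun _ h => absurd rfl h⟩, fun _ _ _ _ _ h => absurd rfl h⟩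
    · obtain ⟨χ, h1, h2⟩ := exists_char u hu
      refine ⟨⟨χ, h1, fun _ _ => h2⟩, fun _ _ x a b _ _ h => ?_⟩
      have h0 : χ 1 = 0 := by
        have := h1 1 1
        rw [mul_one] at this
        linarith
      have hinv : ∀ g, χ g⁻¹ = - χ g := by
        intro g
        have := h1 g g⁻¹
        rw [mul_inv_cancel, h0] at this
        linarith
      have hnat : ∀ m : ℕ, χ (u ^ m) = m * χ u := by
        intro m
        induction m with
        | zero => simp [h0]
        | succ m ih =>
          rw [pow_succ, h1, ih]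
          push_cast
          ring
      have hz : ∀ m : ℤ, χ (u ^ m) = m * χ u := by
        intro m
        obtain ⟨l, rfl | rfl⟩ := m.eq_nat_or_neg
        · rw [zpow_natCast, hnat]
          push_cast
          ring
        · rw [zpow_neg, zpow_natCast, hinv, hnat]
          push_cast
          ring
      have h3 := congrArg χ h
      rw [h1, h1, hinv, hz, hz] at h3
      have h4 : ((a : ℝ) - b) * χ u = 0 := by linarith
      rcases mul_eq_zero.mp h4 with h5 | h5
      · have : (a : ℝ) = b := by linarith
        exact_mod_cast this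
      · linarith

end Pool.Agent.LibCF24
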