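import Pool.Agent.LibCF24.EDefs

/-! Row F2 (MEDIUM). Stiemke's lemma with a free part. ONLY Mathlib.

`→`: multiply by `c j` and sum: `∑_i (∑_j c_j A_ji) n_i = ∑_i (∑_j c_j B_ji) h_i = 0`, all terms `≥ 0`, `n_i > 0`. `←`: suppose there is no such `(n, h)`. Let `W ⊆ ℝ^m` be the subspace of all `n` for which there is an `h` with
`∑_i A_ji n_i = ∑_i B_ji h_i` for all `j` (or work in `ℝ^m × ℝ^k`). `W` does not meet the open orthant: separate (`geometric_hahn_banach_open` for the open convex orthant and the convex set `W`; a functional bounded on a subspace vanishes on it):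
`r : Fin m → ℝ`, `r ≠ 0`, `r ≥ 0`, `∑ r_i n_i = 0` on `W`. In `ℝ^m × ℝ^k` the functional `(n, h) ↦ ∑ r_i n_i` vanishes on the common kernel of the functionals `f_j (n, h) = ∑_i A_ji n_i - ∑_i B_ji h_i`, so it is a linear combination `∑ c_j f_j`
(`mem_span_of_iInf_ker_le_ker` or `LinearMap` version): `r_i = ∑_j c_j A_ji`, `∑_j c_j B_ji = 0`. Contradiction with the hypothesis. -/

set_option autoImplicit false

noncomputable section

open Set

namespace Pool.Agent.LibCF24

theorem stiemke {m l k : ℕ} (A : Fin l → Fin m → ℝ) (B : Fin l → Fin k → ℝ) :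
    (∃ (n : Fin m → ℝ) (h : Fin k → ℝ), (∀ i, 0 < n i) ∧ ∀ j, ∑ i, A j i * n i = ∑ i, B j i * h i) ↔
    ∀ c : Fin l → ℝ, (∀ i, ∑ j, c j * B j i = 0) → (∀ i, 0 ≤ ∑ j, c j * A j i) → ∀ i, ∑ j, c j * A j i = 0 := by
  constructor
  · rintro ⟨n, h, hn, hAB⟩ c hB hA
    have h1 : ∑ i, (∑ j, c j * A j i) * n i = 0 := by
      calc ∑ i, (∑ j, c j * A j i) * n i = ∑ i, ∑ j, c j * A j i * n i :=
            Finset.sum_congr rfl fun i _ => Finset.sum_mul _ _ _
        _ = ∑ j, ∑ i, c j * A j i * n i := Finset.sum_comm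
        _ = ∑ j, c j * ∑ i, A j i * n i := by
            refine Finset.sum_congr rfl fun j _ => ?_
            rw [Finset.mul_sum]
            exact Finset.sum_congr rfl fun i _ => by ring
        _ = ∑ j, c j * ∑ i, B j i * h i := Finset.sum_congr rfl fun j _ => by rw [hAB j]
        _ = ∑ j, ∑ i, c j * B j i * h i := by
            refine Finset.sum_congr rfl fun j _ => ?_
            rw [Finset.mul_sum]
            exact Finset.sum_congr rfl fun i _ => by ring
        _ = ∑ i, ∑ j, c j * B j i * h i := Finset.sum_comm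
        _ = ∑ i, (∑ j, c j * B j i) * h i :=
            Finset.sum_congr rfl fun i _ => (Finset.sum_mul _ _ _).symm
        _ = 0 := Finset.sum_eq_zero fun i _ => by rw [hB i, zero_mul]
    intro i
    have h2 := (Finset.sum_eq_zero_iff_of_nonneg fun i _ => mul_nonneg (hA i) (hn i).le).1 h1 i
      (Finset.mem_univ i)
    exact (mul_eq_zero.1 h2).resolve_right (hn i).ne'
  · intro hyp
    by_contra hno
    let f : Fin l → ((Fin m → ℝ) × (Fin k → ℝ)) →ₗ[ℝ] ℝ := fun j =>
      (∑ i, A j i • (LinearMap.proj i : (Fin m → ℝ) →ₗ[ℝ] ℝ)) ∘ₗ LinearMap.fst ℝ _ _ -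
        (∑ i, B j i • (LinearMap.proj i : (Fin k → ℝ) →ₗ[ℝ] ℝ)) ∘ₗ LinearMap.snd ℝ _ _
    have hf : ∀ j x, f j x = ∑ i, A j i * x.1 i - ∑ i, B j i * x.2 i := by
      intro j x
      simp [f]
    let W : Submodule ℝ ((Fin m → ℝ) × (Fin k → ℝ)) := ⨅ j, LinearMap.ker (f j)
    let W' : Submodule ℝ (Fin m → ℝ) := W.map (LinearMap.fst ℝ _ _)
    let U : Set (Fin m → ℝ) := Set.univ.pi fun _ => Set.Ioi (0 : ℝ)
    have hUo : IsOpen U := isOpen_set_pi Set.finite_univ fun _ _ => isOpen_Ioi
    have hUc : Convex ℝ U := convex_pi fun _ _ => convex_Ioi 0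
    have hdisj : Disjoint U (W' : Set (Fin m → ℝ)) := by
      rw [Set.disjoint_left]
      rintro n hn hW
      obtain ⟨⟨n', h⟩, hx, rfl⟩ := hW
      apply hno
      refine ⟨n', h, fun i => hn i (Set.mem_univ i), fun j => ?_⟩
      have h1 : f j (n', h) = 0 := by
        have := (Submodule.mem_iInf _).1 hx j
        exact this
      rw [hf] at h1
      exact sub_eq_zero.1 h1
    obtain ⟨g, u, hg1, hg2⟩ := geometric_hahn_banach_open hUc hUo W'.convex hdisj
    have hu : u ≤ 0 := by
      have := hg2 0 W'.zero_mem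
      rwa [map_zero] at this
    have hgW : ∀ b ∈ W', g b = 0 := by
      intro b hb
      by_contra hne
      have h1 := hg2 (((u - 1) / g b) • b) (W'.smul_mem _ hb)
      rw [map_smul, smul_eq_mul, div_mul_cancel₀ _ hne] at h1
      linarith
    have hone : g (fun _ => 1) < u := hg1 _ fun i _ => by simp
    have hneg : ∀ i, g (Pi.single i 1) ≤ 0 := by
      intro i
      by_contra hpos
      push Not at hpos
      have hone' : g (fun _ => 1) < 0 := lt_of_lt_of_le hone hu
      set ε : ℝ := g (Pi.single i 1) / (-g (fun _ => 1)) with hε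
      have hε0 : 0 < ε := div_pos hpos (by linarith)
      have h1 : g (Pi.single i 1 + ε • (fun _ => (1 : ℝ))) < u := by
        apply hg1
        intro i' _
        simp only [Pi.add_apply, Pi.smul_apply, smul_eq_mul, mul_one, Set.mem_Ioi]
        have : (0 : ℝ) ≤ (Pi.single i 1 : Fin m → ℝ) i' := by
          rw [Pi.single_apply]
          split_ifs <;> norm_num
        linarith
      rw [map_add, map_smul, smul_eq_mul] at h1
      have h2 : ε * g (fun _ => 1) = -g (Pi.single i 1) := by
        rw [hε, div_mul_eq_mul_div, div_eq_iff (by linarith : -g (fun _ => (1 : ℝ)) ≠ 0)]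
        ring
      rw [h2] at h1
      linarith
    -- the functional vanishes on the common kernel
    let R : ((Fin m → ℝ) × (Fin k → ℝ)) →ₗ[ℝ] ℝ := -((g : (Fin m → ℝ) →ₗ[ℝ] ℝ) ∘ₗ LinearMap.fst ℝ _ _)
    have hR : ∀ x, R x = -g x.1 := fun x => rfl
    have hker : ⨅ j, LinearMap.ker (f j) ≤ LinearMap.ker R := by
      intro x hx
      rw [LinearMap.mem_ker, hR, hgW x.1 ⟨x, hx, rfl⟩, neg_zero]
    have hspan := mem_span_of_iInf_ker_le_ker hker
    obtain ⟨c, hc⟩ := (Submodule.mem_span_range_iff_exists_fun ℝ).1 hspan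
    have hcx : ∀ x, ∑ j, c j * f j x = R x := by
      intro x
      rw [← hc, LinearMap.sum_apply]
      exact Finset.sum_congr rfl fun j _ => rfl
    have hA : ∀ i, ∑ j, c j * A j i = -g (Pi.single i 1) := by
      intro i
      have h1 := hcx (Pi.single i 1, 0)
      rw [hR] at h1
      rw [← h1]
      refine Finset.sum_congr rfl fun j _ => ?_
      rw [hf]
      congr 1
      simp [Pi.single_apply]
    have hB : ∀ i, ∑ j, c j * B j i = 0 := by
      intro i
      have h1 := hcx (0, Pi.single i 1)
      rw [hR] at h1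
      simp only [map_zero, neg_zero] at h1
      have h2 : ∑ j, c j * f j (0, Pi.single i 1) = -∑ j, c j * B j i := by
        rw [← Finset.sum_neg_distrib]
        refine Finset.sum_congr rfl fun j _ => ?_
        rw [hf]
        simp [Pi.single_apply]
      rw [h2] at h1
      linarith
    have hz := hyp c hB fun i => by rw [hA i]; linarith [hneg i]
    have hsum : g (fun _ => (1 : ℝ)) = ∑ i, g (Pi.single i 1) := by
      rw [← map_sum]
      congr 1
      funext i
      rw [Finset.sum_apply]
      simp [Pi.single_apply]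
    have hall : ∀ i, g (Pi.single i 1) = 0 := by
      intro i
      have := hz i
      rw [hA i] at this
      linarith
    rw [Finset.sum_eq_zero fun i _ => hall i] at hsum
    linarith

end Pool.Agent.LibCF24
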