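import Pool.Agent.LibCF24.FDefs
import Pool.Agent.LibCF24.F2

set_option autoImplicit false

noncomputable section

open Set

/-! Row F3 (MEDIUM). The explicit criterion for `b_j ↦ w_j b_j u_j`. FDefs, QB, QC (`roots_fin`, `comm_of_pow`, `root_exists`), F2 (`stiemke`).

`sq_spec`: uniqueness of `|p|`: `x y^p x⁻¹ = x' y^q x'⁻¹ ≠ 1`: `x y x⁻¹` and `x' y x'⁻¹` both commute with this element, so they commute with each other (`comm_of_pow`) and are roots: each is a power of the other (`Root` is invariant under conjugation),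
so equal up to inversion (torsion free), and `|p| = |q|`. If the element is 1 then `p = q = 0`.
`sq y` is a class function, `sq y (g ^ m) = m² sq y g` for a root `y` (if `g ^ m` is conjugate to `y ^ p`, `m ≠ 0`, `p ≠ 0`, then `g` is conjugate to a power of `y`: `g` commutes with `x y^p x⁻¹`, so with `x y x⁻¹`).
`expl_iff`: `roots_fin` for the finite set of all `w_j`, `u_j`: `y : Fin m → Fr k`. For every `g` in this set `N g = ∑_i sq (y i) g * N (y i)` for every class function `N`, quadratic on powers (if `g = x y_i^p x⁻¹`, `p ≠ 0`, then `sq (y i) g = p²` and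
`sq (y i') g = 0` for `i' ≠ i` by `Incom`; if `g = 1`: all terms 0). `stiemke` with `A j i = sq (y i) (w j) - sq (y i) (u j)` and `B j i` = exponent sum of the generator `i` in `w_j u_j` (`h (g) = ∑_i (exponent sum) h_i`, every additive function has this form).
From `(n, h)` to `(N, h)`: `N g = ∑_i sq (y i) g * n i + (term for the other roots)`: need `N g > 0` for all `g ≠ 1`: if `sq (y i) g = 0` for all `i` put `N g = p²` where `g = x z^p x⁻¹`, `z` a root (`root_exists`, `p²` well defined as in `sq_spec`).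
Condition of `stiemke` for all `i` versus the condition for all roots `y'`: a root `y'` which is conjugate to no `y_i^{±1}` has `sq y' (w j) = sq y' (u j) = 0` for all `j`; if `y'` is conjugate to `y_i^{±1}` then `sq y' = sq (y i)`; and `Root (y i)`.
The condition `∑_j c_j B_ji = 0` for all `i` iff `∑_j c_j χ (w_j u_j) = 0` for all additive `χ`. -/

namespace Pool.Agent.LibCF24

private theorem F3_zpow_eq_one {k : ℕ} (y : Fr k) (hy : y ≠ 1) (p : ℤ) (h : y ^ p = 1) : p = 0 := by
  by_contra hp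
  have h1 : y ^ p.natAbs = 1 := by
    rcases Int.natAbs_eq p with h2 | h2
    · rw [h2] at h
      rwa [zpow_natCast] at h
    · rw [h2] at h
      rwa [zpow_neg, inv_eq_one, zpow_natCast] at h
  exact hy ((pow_eq_one_iff_left (Int.natAbs_ne_zero.2 hp)).mp h1)

private theorem F3_zpow_inj {k : ℕ} (y : Fr k) (hy : y ≠ 1) (p q : ℤ) (h : y ^ p = y ^ q) : p = q := by
  have h1 : y ^ (p - q) = 1 := by rw [zpow_sub, h, mul_inv_cancel]
  have := F3_zpow_eq_one y hy _ h1
  omega

private theorem F3_conj_zpow {k : ℕ} (x y : Fr k) (p : ℤ) : x * y ^ p * x⁻¹ = (x * y * x⁻¹) ^ p := by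
  rw [conj_zpow]

private theorem F3_root_conj {k : ℕ} (x y : Fr k) (hy : Root y) : Root (x * y * x⁻¹) := by
  refine ⟨?_, ?_⟩
  · intro h
    apply hy.1
    have : y = x⁻¹ * (x * y * x⁻¹) * x := by group
    rw [this, h]
    group
  · intro u hu
    have h1 : Commute (x⁻¹ * u * x) y := by
      have hu' : u * (x * y * x⁻¹) = (x * y * x⁻¹) * u := hu
      show (x⁻¹ * u * x) * y = y * (x⁻¹ * u * x)
      calc (x⁻¹ * u * x) * y = x⁻¹ * (u * (x * y * x⁻¹)) * x := by group
        _ = x⁻¹ * ((x * y * x⁻¹) * u) * x := by rw [hu']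
        _ = y * (x⁻¹ * u * x) := by group
    obtain ⟨c, hc⟩ := Subgroup.mem_zpowers_iff.1 (hy.2 _ h1)
    refine Subgroup.mem_zpowers_iff.2 ⟨c, ?_⟩
    rw [← F3_conj_zpow, hc]
    group

private theorem F3_roots {k : ℕ} (Z Z' : Fr k) (hZ : Root Z) (hZ' : Root Z') (p q : ℤ) (h : Z ^ p = Z' ^ q) :
    p ^ 2 = q ^ 2 := by
  by_cases hp : p = 0
  · subst hp
    rw [zpow_zero] at h
    rw [F3_zpow_eq_one Z' hZ'.1 q h.symm]
  · have hq : q ≠ 0 := by
      intro hq
      subst hq
      rw [zpow_zero] at h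
      exact hp (F3_zpow_eq_one Z hZ.1 p h)
    have h1 : Commute Z' Z := by
      apply comm_of_pow _ _ p hp
      rw [h]
      exact (Commute.refl Z').zpow_right q
    obtain ⟨c, hc⟩ := Subgroup.mem_zpowers_iff.1 (hZ.2 _ h1)
    obtain ⟨d, hd⟩ := Subgroup.mem_zpowers_iff.1 (hZ'.2 _ h1.symm)
    have h2 : c * d = 1 := by
      apply F3_zpow_inj Z hZ.1
      rw [zpow_mul, hc, hd, zpow_one]
    have h3 : p = c * q := by
      apply F3_zpow_inj Z hZ.1
      rw [h, zpow_mul, hc]
    rcases Int.eq_one_or_neg_one_of_mul_eq_one h2 with h4 | h4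
    · rw [h3, h4]; ring
    · rw [h3, h4]; ring

theorem sq_spec {k : ℕ} (y : FreeGroup (Fin k)) (hy : Root y) (x : FreeGroup (Fin k)) (p : ℤ) :
    sq y (x * y ^ p * x⁻¹) = (p : ℝ) ^ 2 := by
  have h : ∃ q : ℤ, ∃ z : FreeGroup (Fin k), x * y ^ p * x⁻¹ = z * y ^ q * z⁻¹ := ⟨p, x, rfl⟩
  rw [sq, dif_pos h]
  obtain ⟨z, hz⟩ := h.choose_spec
  generalize h.choose = q at hz
  rw [F3_conj_zpow, F3_conj_zpow] at hz
  have h1 := F3_roots _ _ (F3_root_conj x y hy) (F3_root_conj z y hy) p q hz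
  have h2 : ((p ^ 2 : ℤ) : ℝ) = ((q ^ 2 : ℤ) : ℝ) := by rw [h1]
  push_cast at h2
  exact h2.symm

private theorem F3_sq_zero {k : ℕ} (y g : Fr k) (h : ¬ ∃ p : ℤ, ∃ x : Fr k, g = x * y ^ p * x⁻¹) : sq y g = 0 := by
  rw [sq, dif_neg h]

private theorem F3_sq_nonneg {k : ℕ} (y g : Fr k) : 0 ≤ sq y g := by
  rw [sq]
  split_ifs
  · positivity
  · exact le_refl _

private theorem F3_sq_conj {k : ℕ} (y : Fr k) (hy : Root y) (x g : Fr k) : sq y (x * g * x⁻¹) = sq y g := by
  by_cases h : ∃ p : ℤ, ∃ x : Fr k, g = x * y ^ p * x⁻¹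
  · obtain ⟨p, z, hz⟩ := h
    have h1 : x * g * x⁻¹ = (x * z) * y ^ p * (x * z)⁻¹ := by rw [hz]; group
    rw [h1, sq_spec y hy, hz, sq_spec y hy]
  · rw [F3_sq_zero y g h, F3_sq_zero]
    rintro ⟨p, z, hz⟩
    apply h
    refine ⟨p, x⁻¹ * z, ?_⟩
    calc g = x⁻¹ * (x * g * x⁻¹) * x := by group
      _ = x⁻¹ * (z * y ^ p * z⁻¹) * x := by rw [hz]
      _ = _ := by group

private theorem F3_sq_pow {k : ℕ} (y : Fr k) (hy : Root y) (g : Fr k) (m : ℤ) : sq y (g ^ m) = (m : ℝ) ^ 2 * sq y g := by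
  by_cases h : ∃ p : ℤ, ∃ x : Fr k, g = x * y ^ p * x⁻¹
  · obtain ⟨p, z, hz⟩ := h
    have h1 : g ^ m = z * y ^ (p * m) * z⁻¹ := by
      rw [hz, F3_conj_zpow, F3_conj_zpow, zpow_mul]
    rw [h1, sq_spec y hy, hz, sq_spec y hy]
    push_cast
    ring
  · rw [F3_sq_zero y g h, mul_zero]
    by_cases hm : m = 0
    · subst hm
      have h1 : g ^ (0 : ℤ) = 1 * y ^ (0 : ℤ) * 1⁻¹ := by group
      rw [h1, sq_spec y hy]
      simp
    · apply F3_sq_zero
      rintro ⟨p, z, hz⟩
      apply h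
      by_cases hp : p = 0
      · subst hp
        have h1 : g ^ m = 1 := by rw [hz]; group
        have h2 : g = 1 := by
          by_contra h3
          exact hm (F3_zpow_eq_one g h3 m h1)
        exact ⟨0, 1, by rw [h2]; group⟩
      · have h1 : Commute g (z * y * z⁻¹) := by
          apply comm_of_pow _ _ p hp
          rw [← F3_conj_zpow, ← hz]
          exact (Commute.refl g).zpow_right m
        obtain ⟨c, hc⟩ := Subgroup.mem_zpowers_iff.1 ((F3_root_conj z y hy).2 _ h1)
        exact ⟨c, z, by rw [F3_conj_zpow, hc]⟩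

/-- the square of the exponent with respect to some root -/
private def F3_E {k : ℕ} (g : Fr k) : ℝ :=
  open scoped Classical in
  if h : ∃ p : ℤ, ∃ z : Fr k, Root z ∧ g = z ^ p then (h.choose : ℝ) ^ 2 else 0

private theorem F3_E_spec {k : ℕ} (z : Fr k) (hz : Root z) (p : ℤ) : F3_E (z ^ p) = (p : ℝ) ^ 2 := by
  have h : ∃ q : ℤ, ∃ z' : Fr k, Root z' ∧ z ^ p = z' ^ q := ⟨p, z, hz, rfl⟩
  rw [F3_E, dif_pos h]
  obtain ⟨z', hz', h1⟩ := h.choose_spec
  generalize h.choose = q at h1
  have h2 := F3_roots _ _ hz hz' p q h1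
  have h3 : ((p ^ 2 : ℤ) : ℝ) = ((q ^ 2 : ℤ) : ℝ) := by rw [h2]
  push_cast at h3
  exact h3.symm

private theorem F3_E_one {k : ℕ} : F3_E (1 : Fr k) = 0 := by
  by_cases h : ∃ z : Fr k, Root z
  · obtain ⟨z, hz⟩ := h
    have := F3_E_spec z hz 0
    rw [zpow_zero] at this
    rw [this]
    simp
  · rw [F3_E, dif_neg]
    rintro ⟨p, z, hz, -⟩
    exact h ⟨z, hz⟩

private theorem F3_exists_root {k : ℕ} (g : Fr k) (hg : g ≠ 1) : ∃ (z : Fr k) (p : ℤ), p ≠ 0 ∧ Root z ∧ g = z ^ p := by
  obtain ⟨y, x, p, hp, h1, h2, -⟩ := root_exists g hg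
  exact ⟨x * y * x⁻¹, p, hp, F3_root_conj x y h2, by rw [h1, F3_conj_zpow]⟩

private theorem F3_E_pos {k : ℕ} (g : Fr k) (hg : g ≠ 1) : 0 < F3_E g := by
  obtain ⟨z, p, hp, hz, h1⟩ := F3_exists_root g hg
  rw [h1, F3_E_spec z hz]
  have : (p : ℝ) ≠ 0 := by exact_mod_cast hp
  positivity

private theorem F3_E_conj {k : ℕ} (x g : Fr k) : F3_E (x * g * x⁻¹) = F3_E g := by
  by_cases hg : g = 1
  · subst hg
    simp
  · obtain ⟨z, p, hp, hz, h1⟩ := F3_exists_root g hg
    rw [h1, F3_E_spec z hz, F3_conj_zpow, F3_E_spec _ (F3_root_conj x z hz)]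

private theorem F3_E_pow {k : ℕ} (g : Fr k) (m : ℤ) : F3_E (g ^ m) = (m : ℝ) ^ 2 * F3_E g := by
  by_cases hg : g = 1
  · subst hg
    rw [one_zpow, F3_E_one, mul_zero]
  · obtain ⟨z, p, hp, hz, h1⟩ := F3_exists_root g hg
    rw [h1, F3_E_spec z hz, ← zpow_mul, F3_E_spec z hz]
    push_cast
    ring

/-- the decomposition of a quadratic class function -/
private theorem F3_decomp {k m : ℕ} (y : Fin m → Fr k) (hy : ∀ i, Root (y i)) (hinc : ∀ i j, i ≠ j → Incom (y i) (y j))
    (N : Fr k → ℝ) (hc : ∀ x g, N (x * g * x⁻¹) = N g) (hp : ∀ g (m : ℤ), N (g ^ m) = (m : ℝ) ^ 2 * N g)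
    (g : Fr k) (hg : g ≠ 1 → ∃ (i : Fin m) (x : Fr k) (p : ℤ), p ≠ 0 ∧ g = x * y i ^ p * x⁻¹) :
    N g = ∑ i, sq (y i) g * N (y i) := by
  by_cases h1 : g = 1
  · subst h1
    have h2 : N 1 = 0 := by
      have := hp 1 0
      simpa using this
    rw [h2]
    symm
    apply Finset.sum_eq_zero
    intro i _
    have h3 := F3_sq_pow (y i) (hy i) 1 0
    have h4 : sq (y i) 1 = 0 := by simpa using h3
    rw [h4, zero_mul]
  · obtain ⟨i, x, p, hp0, hx⟩ := hg h1
    rw [Finset.sum_eq_single i]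
    · rw [hx, hc, hp, sq_spec (y i) (hy i)]
    · intro j _ hj
      have : sq (y j) g = 0 := by
        apply F3_sq_zero
        rintro ⟨q, z, hz⟩
        apply hinc i j (Ne.symm hj) (z⁻¹ * x) p q hp0
        calc z⁻¹ * x * y i ^ p * (z⁻¹ * x)⁻¹ = z⁻¹ * (x * y i ^ p * x⁻¹) * z := by group
          _ = z⁻¹ * (z * y j ^ q * z⁻¹) * z := by rw [← hx, hz]
          _ = y j ^ q := by group
      rw [this, zero_mul]
    · intro h
      exact absurd (Finset.mem_univ i) h

/-- exponent sums -/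
private def F3_es {k : ℕ} (i : Fin k) (g : Fr k) : ℝ :=
  Multiplicative.toAdd (FreeGroup.lift (fun j : Fin k => Multiplicative.ofAdd (if j = i then (1 : ℝ) else 0)) g)

private theorem F3_es_mul {k : ℕ} (i : Fin k) (g g' : Fr k) : F3_es i (g * g') = F3_es i g + F3_es i g' := by
  simp only [F3_es, map_mul, toAdd_mul]

private theorem F3_es_of {k : ℕ} (i j : Fin k) : F3_es i (FreeGroup.of j) = if j = i then (1 : ℝ) else 0 := by
  simp only [F3_es, FreeGroup.lift_apply_of, toAdd_ofAdd]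

private theorem F3_add {k : ℕ} (χ : Fr k → ℝ) (hχ : ∀ g g', χ (g * g') = χ g + χ g') (g : Fr k) :
    χ g = ∑ i, F3_es i g * χ (FreeGroup.of i) := by
  have h1 : χ 1 = 0 := by
    have := hχ 1 1
    rw [mul_one] at this
    linarith
  have hinv : ∀ g, χ g⁻¹ = - χ g := by
    intro g
    have := hχ g g⁻¹
    rw [mul_inv_cancel, h1] at this
    linarith
  have he1 : ∀ i, F3_es i (1 : Fr k) = 0 := by
    intro i
    have := F3_es_mul i (1 : Fr k) 1
    rw [mul_one] at this
    linarith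
  have heinv : ∀ i (g : Fr k), F3_es i g⁻¹ = - F3_es i g := by
    intro i g
    have := F3_es_mul i g g⁻¹
    rw [mul_inv_cancel, he1] at this
    linarith
  have hof : ∀ j : Fin k, χ (FreeGroup.of j) = ∑ i, F3_es i (FreeGroup.of j) * χ (FreeGroup.of i) := by
    intro j
    rw [Finset.sum_eq_single j]
    · rw [F3_es_of, if_pos rfl, one_mul]
    · intro i _ hi
      rw [F3_es_of, if_neg (Ne.symm hi), zero_mul]
    · intro h
      exact absurd (Finset.mem_univ j) h
  induction g using FreeGroup.induction_on with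
  | C1 => rw [h1]; simp [he1]
  | of j => exact hof j
  | inv_of j _ => 
    change χ (FreeGroup.of j)⁻¹ = ∑ i, F3_es i (FreeGroup.of j)⁻¹ * χ (FreeGroup.of i)
    rw [hinv, hof j, ← Finset.sum_neg_distrib]
    apply Finset.sum_congr rfl
    intro i _
    rw [heinv]
    ring
  | mul a b ha hb =>
    rw [hχ, ha, hb, ← Finset.sum_add_distrib]
    apply Finset.sum_congr rfl
    intro i _
    rw [F3_es_mul]
    ring

theorem expl_iff {k l : ℕ} (w u : Fin l → FreeGroup (Fin k)) :
    (∃ N h : FreeGroup (Fin k) → ℝ, (∀ g, g ≠ 1 → 0 < N g) ∧ (∀ x g, N (x * g * x⁻¹) = N g) ∧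
      (∀ g (m : ℤ), N (g ^ m) = m ^ 2 * N g) ∧ (∀ g g', h (g * g') = h g + h g') ∧ ∀ j, N (w j) - N (u j) = h (w j * u j)) ↔
    ∀ c : Fin l → ℝ, (∀ χ : FreeGroup (Fin k) → ℝ, (∀ g g', χ (g * g') = χ g + χ g') → ∑ j, c j * χ (w j * u j) = 0) →
      (∀ y, Root y → 0 ≤ ∑ j, c j * (sq y (w j) - sq y (u j))) → ∀ y, Root y → ∑ j, c j * (sq y (w j) - sq y (u j)) = 0 := by
  obtain ⟨m, y, hy, -, hinc, hS⟩ := roots_fin (k := k) (Set.range w ∪ Set.range u)
    ((Set.finite_range w).union (Set.finite_range u))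
  have hw : ∀ j, w j ≠ 1 → ∃ (i : Fin m) (x : Fr k) (p : ℤ), p ≠ 0 ∧ w j = x * y i ^ p * x⁻¹ :=
    fun j => hS _ (Or.inl ⟨j, rfl⟩)
  have hu : ∀ j, u j ≠ 1 → ∃ (i : Fin m) (x : Fr k) (p : ℤ), p ≠ 0 ∧ u j = x * y i ^ p * x⁻¹ :=
    fun j => hS _ (Or.inr ⟨j, rfl⟩)
  have hst := stiemke (fun (j : Fin l) (i : Fin m) => sq (y i) (w j) - sq (y i) (u j))
    (fun (j : Fin l) (i : Fin k) => F3_es i (w j * u j))
  have hL : (∃ N h : FreeGroup (Fin k) → ℝ, (∀ g, g ≠ 1 → 0 < N g) ∧ (∀ x g, N (x * g * x⁻¹) = N g) ∧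
      (∀ g (m : ℤ), N (g ^ m) = m ^ 2 * N g) ∧ (∀ g g', h (g * g') = h g + h g') ∧
      ∀ j, N (w j) - N (u j) = h (w j * u j)) ↔
      (∃ (n : Fin m → ℝ) (h : Fin k → ℝ), (∀ i, 0 < n i) ∧
        ∀ j, ∑ i, (sq (y i) (w j) - sq (y i) (u j)) * n i = ∑ i, F3_es i (w j * u j) * h i) := by
    constructor
    · rintro ⟨N, h, hpos, hconj, hpow, hadd, hj⟩
      refine ⟨fun i => N (y i), fun i => h (FreeGroup.of i), fun i => hpos _ (hy i).1, fun j => ?_⟩
      rw [← F3_add h hadd, ← hj j, F3_decomp y hy hinc N hconj hpow (w j) (hw j),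
        F3_decomp y hy hinc N hconj hpow (u j) (hu j), ← Finset.sum_sub_distrib]
      apply Finset.sum_congr rfl
      intro i _
      ring
    · rintro ⟨n, h, hn, hj⟩
      classical
      set N : Fr k → ℝ := fun g => if ∃ i, sq (y i) g ≠ 0 then ∑ i, sq (y i) g * n i else F3_E g with hN
      have hconj : ∀ x g, N (x * g * x⁻¹) = N g := by
        intro x g
        simp only [hN, F3_sq_conj _ (hy _), F3_E_conj]
      have hpow : ∀ g (m : ℤ), N (g ^ m) = m ^ 2 * N g := by
        intro g m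
        by_cases hm : m = 0
        · subst hm
          have h1 : ¬ ∃ i, sq (y i) (g ^ (0 : ℤ)) ≠ 0 := by
            push Not
            intro i
            rw [F3_sq_pow _ (hy i)]
            simp
          simp only [hN]
          rw [if_neg h1, F3_E_pow]
          simp
        · have hm' : (m : ℝ) ^ 2 ≠ 0 := by
            have : (m : ℝ) ≠ 0 := by exact_mod_cast hm
            positivity
          simp only [hN, F3_sq_pow _ (hy _), F3_E_pow, ne_eq, mul_eq_zero, hm', false_or]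
          split_ifs
          · rw [Finset.mul_sum]
            apply Finset.sum_congr rfl
            intro i _
            ring
          · rfl
      have hpos : ∀ g, g ≠ 1 → 0 < N g := by
        intro g hg
        simp only [hN]
        split_ifs with h1
        · obtain ⟨i, hi⟩ := h1
          apply Finset.sum_pos' (fun i _ => mul_nonneg (F3_sq_nonneg _ _) (hn i).le)
          exact ⟨i, Finset.mem_univ i, mul_pos (lt_of_le_of_ne (F3_sq_nonneg _ _) (Ne.symm hi)) (hn i)⟩
        · exact F3_E_pos g hg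
      have hyN : ∀ i, N (y i) = n i := by
        intro i
        have hsq : sq (y i) (y i) = 1 := by
          have h2 := sq_spec (y i) (hy i) 1 1
          have h3 : 1 * y i ^ (1 : ℤ) * 1⁻¹ = y i := by group
          rw [h3] at h2
          rw [h2]
          simp
        have hsq' : ∀ j, j ≠ i → sq (y j) (y i) = 0 := by
          intro j hj
          apply F3_sq_zero
          rintro ⟨q, z, hz⟩
          apply hinc i j (Ne.symm hj) z⁻¹ 1 q one_ne_zero
          rw [hz]
          group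
        simp only [hN]
        rw [if_pos ⟨i, by rw [hsq]; exact one_ne_zero⟩, Finset.sum_eq_single i]
        · rw [hsq, one_mul]
        · intro j _ hj
          rw [hsq' j hj, zero_mul]
        · intro h
          exact absurd (Finset.mem_univ i) h
      refine ⟨N, fun g => ∑ i, F3_es i g * h i, hpos, hconj, hpow, ?_, ?_⟩
      · intro g g'
        rw [← Finset.sum_add_distrib]
        apply Finset.sum_congr rfl
        intro i _
        rw [F3_es_mul]
        ring
      · intro j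
        show _ = ∑ i, F3_es i (w j * u j) * h i
        rw [F3_decomp y hy hinc N hconj hpow (w j) (hw j),
          F3_decomp y hy hinc N hconj hpow (u j) (hu j), ← Finset.sum_sub_distrib, ← hj j]
        apply Finset.sum_congr rfl
        intro i _
        rw [hyN]
        ring
  rw [hL]
  refine hst.trans ?_
  have key : ∀ (c : Fin l → ℝ) (y' : Fr k), Root y' → ∑ j, c j * (sq y' (w j) - sq y' (u j)) =
      ∑ i, sq y' (y i) * ∑ j, c j * (sq (y i) (w j) - sq (y i) (u j)) := by
    intro c y' hy'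
    have h1 : ∀ j, sq y' (w j) - sq y' (u j) = ∑ i, (sq (y i) (w j) - sq (y i) (u j)) * sq y' (y i) := by
      intro j
      rw [F3_decomp y hy hinc (sq y') (F3_sq_conj y' hy') (F3_sq_pow y' hy') (w j) (hw j),
          F3_decomp y hy hinc (sq y') (F3_sq_conj y' hy') (F3_sq_pow y' hy') (u j) (hu j), ← Finset.sum_sub_distrib]
      apply Finset.sum_congr rfl
      intro i _
      ring
    simp_rw [h1, Finset.mul_sum]
    rw [Finset.sum_comm]
    apply Finset.sum_congr rfl
    intro i _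
    apply Finset.sum_congr rfl
    intro j _
    ring
  constructor
  · intro h c hχ hpos y' hy'
    have h1 := h c (fun i => hχ (F3_es i) (F3_es_mul i)) (fun i => hpos (y i) (hy i))
    rw [key c y' hy']
    apply Finset.sum_eq_zero
    intro i _
    rw [h1 i, mul_zero]
  · intro h c hB hA i
    apply h c _ _ (y i) (hy i)
    · intro χ hχ
      have h1 : ∀ j, χ (w j * u j) = ∑ i, F3_es i (w j * u j) * χ (FreeGroup.of i) := fun j => F3_add χ hχ _
      simp_rw [h1, Finset.mul_sum]
      rw [Finset.sum_comm]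
      apply Finset.sum_eq_zero
      intro i _
      have h2 : ∑ j, c j * (F3_es i (w j * u j) * χ (FreeGroup.of i)) = (∑ j, c j * F3_es i (w j * u j)) * χ (FreeGroup.of i) := by
        rw [Finset.sum_mul]
        apply Finset.sum_congr rfl
        intro j _
        ring
      rw [h2, hB i, zero_mul]
    · intro y' hy'
      rw [key c y' hy']
      apply Finset.sum_nonneg
      intro i _
      exact mul_nonneg (F3_sq_nonneg _ _) (hA i)

end Pool.Agent.LibCF24
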