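import Pool.Agent.LibCF24.EDefs
import Pool.Agent.LibCF24.QC

/-! # Squares of exponents with respect to a root -/

set_option autoImplicit false

noncomputable section

open Set

namespace Pool.Agent.LibCF24

open scoped Classical in
/-- `p²` if `g` is conjugate to `y ^ p` (for a root `y` the integer `p` is unique up to sign), `0` if there is no such `p` -/
def sq {k : ℕ} (y g : FreeGroup (Fin k)) : ℝ :=
  if h : ∃ p : ℤ, ∃ x : FreeGroup (Fin k), g = x * y ^ p * x⁻¹ then (h.choose : ℝ) ^ 2 else 0

end Pool.Agent.LibCF24
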