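import Pool.Agent.LibCF24.C6
import Pool.Agent.LibCF24.D1
import Pool.Agent.LibCF24.E4
import Pool.Agent.LibCF24.E5
import Pool.Agent.LibCF24.E6

/-! Assembly of the final statements. -/

set_option autoImplicit false

noncomputable section

open Set
open LibBD85 (Torus CAT0Group InCAT0 QLength)

namespace Pool.Agent.LibCF24

theorem expl_criterion {k l : ℕ} (φ : MulAut (FreeGroup (Fin (k + l)))) (w u : Fin l → FreeGroup (Fin k)) (hφ : IsExpl φ w u) :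
    (CAT0Group (Torus φ) ↔ ∃ N h : FreeGroup (Fin k) → ℝ, (∀ g, g ≠ 1 → 0 < N g) ∧ (∀ x g, N (x * g * x⁻¹) = N g) ∧
      (∀ g (m : ℤ), N (g ^ m) = m ^ 2 * N g) ∧ (∀ g g', h (g * g') = h g + h g') ∧ ∀ j, N (w j) - N (u j) = h (w j * u j)) ∧
    (CAT0Group (Torus φ) ↔ VirtInCAT0 (Torus φ)) := by
  have key : VirtInCAT0 (Torus φ) → CAT0Group (Torus φ) := by
    intro h
    obtain ⟨N, h, h0, h1, h2, h3, h4⟩ := expl_nec φ w u hφ h
    exact expl_cat0 φ w u hφ N h h0 h1 h2 h3 h4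
  refine ⟨⟨fun h => expl_nec φ w u hφ (virt_of_cat0 h), ?_⟩, ⟨virt_of_cat0, key⟩⟩
  rintro ⟨N, h, h0, h1, h2, h3, h4⟩
  exact expl_cat0 φ w u hφ N h h0 h1 h2 h3 h4

theorem expl_right {k l : ℕ} (φ : MulAut (FreeGroup (Fin (k + l)))) (u : Fin l → FreeGroup (Fin k))
    (hφ : IsExpl φ (fun _ => 1) u) :
    CAT0Group (Torus φ) ↔
      (∃ χ : FreeGroup (Fin k) → ℝ, (∀ g g', χ (g * g') = χ g + χ g') ∧ ∀ j, u j ≠ 1 → 0 < χ (u j)) ∧
        ∀ i j (x : FreeGroup (Fin k)) (a b : ℤ), u i ≠ 1 → a ≠ 0 → x * u i ^ a * x⁻¹ = u j ^ b → a = b := by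
  rw [(expl_criterion φ (fun _ => 1) u hφ).1]
  exact solve_iff u

theorem virt_criterion {n : ℕ} (φ : MulAut (FreeGroup (Fin n))) (m : ℕ) (hm : 0 < m) (hφ : IsDehnTwist (φ ^ m)) :
    (∃ H : Subgroup (Torus φ), H.FiniteIndex ∧ CAT0Group H) ↔ ∃ L : Torus φ → ℝ, QLength L := by
  constructor
  · rintro ⟨H, hH, h⟩
    haveI := hH
    have htf : ∀ g : H, g ≠ 1 → ∀ n : ℕ, 0 < n → g ^ n ≠ 1 := by
      intro g hg n hn h1
      have h2 : (g : Torus φ) ≠ 1 := fun h => hg (Subtype.ext h)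
      exact LibBD85.torus_tf φ g h2 n hn (congrArg Subtype.val h1)
    obtain ⟨L0, h1, h2, h3, h4⟩ := LibBD85.length_exists (G := H) ⟨H, inferInstance, MonoidHom.id _, fun _ _ h => h, h⟩ htf
    exact LibBD85.length_virt (LibBD85.torus_tf φ) H L0 ⟨h1, h2, h3, h4⟩
  · rintro ⟨L, hL⟩
    obtain ⟨j, hj, hf⟩ := pow_emb φ m hm
    refine ⟨j.range, hf, ?_⟩
    obtain ⟨N, M, hNM⟩ := QL_TL (φ ^ m) (fun x => L (j x)) (QL.comp hL j hj)
    exact cat0_of_equiv (MonoidHom.ofInjective hj) (dehn_cat0 (φ ^ m) hφ N M hNM)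

end Pool.Agent.LibCF24
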