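import Pool.Agent.LibCF24.MDefs

/-! Row M0 (SHORT). Points of a tree of spaces with strips. ONLY MDefs. Unfold `SD.st`, `SD.pt`, `SD.f`, `SD.Z`; `WithLp.toLp 2 (z, ⟨τ, _⟩)` is the point of the strip. -/

set_option autoImplicit false

noncomputable section

open Set

namespace Pool.Agent.LibCF24

variable {V0 V1 : Type} (D : SD V0 V1)

private theorem M0_in {e : V1} {z : D.E e} {τ : ℝ} (h : 0 < τ ∧ τ < D.δ) :
    D.st e z τ = (Sum.inr ⟨e, z, ⟨τ, h⟩⟩ : (Σ v, D.X v) ⊕ (Σ e, D.E e × Ioo (0 : ℝ) D.δ)) := by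
  unfold SD.st
  rw [dif_pos h]

private theorem M0_le {e : V1} {z : D.E e} {τ : ℝ} (h : τ ≤ 0) :
    D.st e z τ = D.pt (D.o e) (D.a e z) := by
  unfold SD.st
  rw [dif_neg (fun h' => absurd h'.1 (not_lt.2 h)), if_pos h]

private theorem M0_ge {e : V1} {z : D.E e} {τ : ℝ} (h0 : 0 < τ) (h : D.δ ≤ τ) :
    D.st e z τ = D.pt (D.t e) (D.b e z) := by
  unfold SD.st
  rw [dif_neg (fun h' => absurd h'.2 (not_lt.2 h)), if_neg (not_le.2 h0)]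

private theorem M0_ne {e : V1} {z : D.E e} {τ : ℝ} (h : 0 < τ ∧ τ < D.δ) {v : V0} {x : D.X v}
    (he : D.st e z τ = D.pt v x) : False := by
  rw [M0_in D h] at he
  have h' : (Sum.inr ⟨e, z, ⟨τ, h⟩⟩ : (Σ v, D.X v) ⊕ (Σ e, D.E e × Ioo (0 : ℝ) D.δ)) =
    Sum.inl ⟨v, x⟩ := he
  exact Sum.inr_ne_inl h'

private theorem M0_cases {τ : ℝ} (hτ : τ ∈ Icc (0 : ℝ) D.δ) (hδ : 0 < D.δ) :
    (0 < τ ∧ τ < D.δ) ∨ τ = 0 ∨ (0 < τ ∧ τ = D.δ) := by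
  rcases hτ.1.lt_or_eq with h1 | h1
  · rcases hτ.2.lt_or_eq with h2 | h2
    · exact Or.inl ⟨h1, h2⟩
    · exact Or.inr (Or.inr ⟨h1, h2⟩)
  · exact Or.inr (Or.inl h1.symm)

theorem SD.st_zero (e : V1) (z : D.E e) : D.st e z 0 = D.pt (D.o e) (D.a e z) := by
  exact M0_le D le_rfl

theorem SD.st_end (hδ : 0 < D.δ) (e : V1) (z : D.E e) : D.st e z D.δ = D.pt (D.t e) (D.b e z) := by
  exact M0_ge D hδ le_rfl

theorem SD.pt_inj {v v' : V0} {x : D.X v} {x' : D.X v'} (h : D.pt v x = D.pt v' x') :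
    ∃ e : v = v', e ▸ x = x' := by
  have h' : (Sum.inl ⟨v, x⟩ : (Σ v, D.X v) ⊕ (Σ e, D.E e × Ioo (0 : ℝ) D.δ)) = Sum.inl ⟨v', x'⟩ := h
  have h2 := Sum.inl.inj h'
  rw [Sigma.mk.injEq] at h2
  obtain ⟨rfl, h3⟩ := h2
  exact ⟨rfl, eq_of_heq h3⟩

theorem SD.pt_inj' {v : V0} {x x' : D.X v} (h : D.pt v x = D.pt v x') : x = x' := by
  obtain ⟨e, he⟩ := D.pt_inj h
  exact he

theorem SD.range_inl (v : V0) (ω : D.Ω) : ω ∈ range (D.f (Sum.inl v)) ↔ ∃ x, ω = D.pt v x := by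
  constructor
  · rintro ⟨x, rfl⟩
    exact ⟨x, rfl⟩
  · rintro ⟨x, rfl⟩
    exact ⟨x, rfl⟩

theorem SD.range_inr (e : V1) (ω : D.Ω) :
    ω ∈ range (D.f (Sum.inr e)) ↔ ∃ z, ∃ τ ∈ Icc (0 : ℝ) D.δ, ω = D.st e z τ := by
  constructor
  · rintro ⟨y, rfl⟩
    exact ⟨(WithLp.ofLp y).1, (WithLp.ofLp y).2, (WithLp.ofLp y).2.2, rfl⟩
  · rintro ⟨z, τ, hτ, rfl⟩
    exact ⟨WithLp.toLp 2 (z, ⟨τ, hτ⟩), rfl⟩

/-- a point of a strip lies in a vertex space iff it is an end point -/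
theorem SD.Good.st_eq_pt (h : D.Good) {e : V1} {z : D.E e} {τ : ℝ} (hτ : τ ∈ Icc (0 : ℝ) D.δ) {v : V0} {x : D.X v}
    (he : D.st e z τ = D.pt v x) : (τ = 0 ∧ v = D.o e) ∨ (τ = D.δ ∧ v = D.t e) := by
  rcases M0_cases D hτ h.δpos with h1 | h1 | ⟨h0, h1⟩
  · exact (M0_ne D h1 he).elim
  · rw [M0_le D h1.le] at he
    obtain ⟨e', -⟩ := D.pt_inj he
    exact Or.inl ⟨h1, e'.symm⟩
  · rw [M0_ge D h0 h1.ge] at he
    obtain ⟨e', -⟩ := D.pt_inj he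
    exact Or.inr ⟨h1, e'.symm⟩

/-- two closed strips with the same point in the interior of one of them are equal -/
theorem SD.Good.st_eq_st (h : D.Good) {e e' : V1} {z : D.E e} {z' : D.E e'} {τ τ' : ℝ} (hτ : τ ∈ Ioo (0 : ℝ) D.δ)
    (hτ' : τ' ∈ Icc (0 : ℝ) D.δ) (he : D.st e z τ = D.st e' z' τ') : e = e' ∧ τ = τ' := by
  rcases M0_cases D hτ' h.δpos with h1 | h1 | ⟨h0, h1⟩
  · rw [M0_in D h1, M0_in D hτ] at he
    have h2 := Sum.inr.inj he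
    rw [Sigma.mk.injEq] at h2
    obtain ⟨rfl, h3⟩ := h2
    have h4 := eq_of_heq h3
    rw [Prod.mk.injEq, Subtype.mk.injEq] at h4
    exact ⟨rfl, h4.2⟩
  · rw [M0_le D h1.le] at he
    exact (M0_ne D hτ he).elim
  · rw [M0_ge D h0 h1.ge] at he
    exact (M0_ne D hτ he).elim

/-- the parametrisation of a closed strip is injective -/
theorem SD.Good.st_inj (h : D.Good) {e : V1} {z z' : D.E e} {τ τ' : ℝ} (hτ : τ ∈ Icc (0 : ℝ) D.δ)
    (hτ' : τ' ∈ Icc (0 : ℝ) D.δ) (he : D.st e z τ = D.st e z' τ') : z = z' ∧ τ = τ' := by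
  rcases M0_cases D hτ h.δpos with h1 | h1 | ⟨h0, h1⟩
  · rcases M0_cases D hτ' h.δpos with h1' | h1' | ⟨h0', h1'⟩
    · rw [M0_in D h1, M0_in D h1'] at he
      have h2 := Sum.inr.inj he
      rw [Sigma.mk.injEq] at h2
      obtain ⟨-, h3⟩ := h2
      have h4 := eq_of_heq h3
      rw [Prod.mk.injEq, Subtype.mk.injEq] at h4
      exact h4
    · rw [M0_le D h1'.le] at he
      exact (M0_ne D h1 he).elim
    · rw [M0_ge D h0' h1'.ge] at he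
      exact (M0_ne D h1 he).elim
  · rcases M0_cases D hτ' h.δpos with h1' | h1' | ⟨h0', h1'⟩
    · rw [M0_le D h1.le] at he
      exact (M0_ne D h1' he.symm).elim
    · rw [M0_le D h1.le, M0_le D h1'.le] at he
      exact ⟨(h.aiso e).injective (D.pt_inj' he), h1.trans h1'.symm⟩
    · rw [M0_le D h1.le, M0_ge D h0' h1'.ge] at he
      obtain ⟨e', -⟩ := D.pt_inj he
      exact absurd e' (h.ne e)
  · rcases M0_cases D hτ' h.δpos with h1' | h1' | ⟨h0', h1'⟩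
    · rw [M0_ge D h0 h1.ge] at he
      exact (M0_ne D h1' he.symm).elim
    · rw [M0_ge D h0 h1.ge, M0_le D h1'.le] at he
      obtain ⟨e', -⟩ := D.pt_inj he
      exact absurd e'.symm (h.ne e)
    · rw [M0_ge D h0 h1.ge, M0_ge D h0' h1'.ge] at he
      exact ⟨(h.biso e).injective (D.pt_inj' he), h1.trans h1'.symm⟩

theorem bip_adj {V0 V1 : Type} (o t : V1 → V0) (x y : V0 ⊕ V1) : (bip o t).Adj x y ↔
    ∃ e v, (v = o e ∨ v = t e) ∧ ((x = Sum.inl v ∧ y = Sum.inr e) ∨ (x = Sum.inr e ∧ y = Sum.inl v)) := by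
  exact Iff.rfl

end Pool.Agent.LibCF24
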