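import Pool.Agent.LibCF24.GDefs
import Pool.Agent.LibCF24.M0

/-! Row G1 (MEDIUM). Points `[u, x]` and `[u, z, τ]`, the action. GDefs, M0.

`toH_mul`: `(u k) H = u H`, so the representative is the same. `toH_out`: `Quotient.out` of the class of `Quotient.out v`. `P_mul`: `((u * k : G) : G ⧸ H) = (u : G ⧸ H)` and `toH_mul`, `mul_smul`
(rewrite the class first: e.g. generalise the second component, `SD.X` of `D.sd` only depends on the first component). `S_mul`: the same.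
`S_zero`: `S r u z 0 = pt (oV e) (toH (out e * c) • a (toH u • z))` with `e = u H1`, `aeq`, and `P_mul` backwards: `out e * c * (c⁻¹ * toH u * c) = out e * toH u * c = u * c`.
`act_P`: `act g (P q u x) = P q (g * out (u H)) (toH u • x) = P q (g * out (u H) * toH u) x = P q (g * u) x`. `act_S`: interior: the same; the two ends by `S_zero`, `S_end`.
`act_one`, `act_mul`: for points of the form `pt`/interior (`cases ω`), by `act_P`, `act_S` with `u = out v`. -/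

set_option autoImplicit false

noncomputable section

open Set

namespace Pool.Agent.LibCF24

variable {G : Type} [Group G]

theorem toH_mul (H : Subgroup G) (u : G) (k : H) : toH H (u * k) = toH H u * k := by
  apply Subtype.ext
  have e : ((u * k : G) : G ⧸ H) = (u : G ⧸ H) := QuotientGroup.mk_mul_of_mem u k.2
  show (Quotient.out ((u * k : G) : G ⧸ H))⁻¹ * (u * k) = (Quotient.out (u : G ⧸ H))⁻¹ * u * k
  rw [e, mul_assoc]

theorem toH_out (H : Subgroup G) (v : G ⧸ H) : toH H (Quotient.out v) = 1 := by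
  apply Subtype.ext
  have e : ((Quotient.out v : G) : G ⧸ H) = v := Quotient.out_eq _
  show (Quotient.out ((Quotient.out v : G) : G ⧸ H))⁻¹ * Quotient.out v = 1
  rw [e, inv_mul_cancel]

private theorem G1_out_toH (H : Subgroup G) (u : G) : Quotient.out (u : G ⧸ H) * (toH H u : G) = u := by
  show Quotient.out (u : G ⧸ H) * ((Quotient.out (u : G ⧸ H))⁻¹ * u) = u
  rw [mul_inv_cancel_left]

/-- the action on the points -/
def GG.act (D : GG G) (g : G) : D.sd.Ω → D.sd.Ω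
  | Sum.inl p => D.P p.1.1 (g * Quotient.out p.1.2) p.2
  | Sum.inr p => D.S p.1.1 (g * Quotient.out p.1.2) p.2.1 p.2.2

variable (D : GG G)

private theorem G1_pt (q : D.Q0) {v v' : G ⧸ D.H0 q} (h : v = v') (y : D.X q) :
    D.sd.pt ⟨q, v⟩ y = D.sd.pt ⟨q, v'⟩ y := by
  subst h
  rfl

private theorem G1_st (r : D.Q1) {v v' : G ⧸ D.H1 r} (h : v = v') (y : D.E r) (τ : ℝ) :
    D.sd.st ⟨r, v⟩ y τ = D.sd.st ⟨r, v'⟩ y τ := by
  subst h
  rfl

theorem GG.P_mul (q : D.Q0) (u : G) (k : D.H0 q) (x : D.X q) : D.P q (u * k) x = D.P q u (k • x) := by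
  have e : ((u * k : G) : G ⧸ D.H0 q) = (u : G ⧸ D.H0 q) := QuotientGroup.mk_mul_of_mem u k.2
  unfold GG.P
  rw [toH_mul, mul_smul]
  exact G1_pt D q e _

theorem GG.S_mul (r : D.Q1) (u : G) (k : D.H1 r) (z : D.E r) (τ : ℝ) : D.S r (u * k) z τ = D.S r u (k • z) τ := by
  have e : ((u * k : G) : G ⧸ D.H1 r) = (u : G ⧸ D.H1 r) := QuotientGroup.mk_mul_of_mem u k.2
  unfold GG.S
  rw [toH_mul, mul_smul]
  exact G1_st D r e _ _

theorem GG.pt_eq (q : D.Q0) (v : G ⧸ D.H0 q) (x : D.X q) : D.sd.pt ⟨q, v⟩ x = D.P q (Quotient.out v) x := by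
  unfold GG.P
  rw [toH_out, one_smul]
  exact G1_pt D q (Quotient.out_eq v).symm _

theorem GG.st_eq (r : D.Q1) (e : G ⧸ D.H1 r) (z : D.E r) (τ : ℝ) : D.sd.st ⟨r, e⟩ z τ = D.S r (Quotient.out e) z τ := by
  unfold GG.S
  rw [toH_out, one_smul]
  exact G1_st D r (Quotient.out_eq e).symm _ _

theorem GG.Good.S_zero {D : GG G} (h : D.Good) (r : D.Q1) (u : G) (z : D.E r) : D.S r u z 0 = D.P (D.o r) (u * D.c r) (D.a r z) := by
  unfold GG.S
  refine (D.sd.st_zero ⟨r, (u : G ⧸ D.H1 r)⟩ (toH (D.H1 r) u • z)).trans ?_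
  show D.sd.pt ⟨D.o r, ((Quotient.out (u : G ⧸ D.H1 r) * D.c r : G) : G ⧸ D.H0 (D.o r))⟩
    (toH (D.H0 (D.o r)) (Quotient.out (u : G ⧸ D.H1 r) * D.c r) • D.a r (toH (D.H1 r) u • z)) = _
  rw [h.aeq]
  show D.P (D.o r) (Quotient.out (u : G ⧸ D.H1 r) * D.c r) _ = _
  rw [← D.P_mul]
  congr 1
  show Quotient.out (u : G ⧸ D.H1 r) * D.c r * ((D.c r)⁻¹ * (toH (D.H1 r) u : G) * D.c r) = u * D.c r
  conv_rhs => rw [← G1_out_toH (D.H1 r) u]
  group

theorem GG.Good.S_end {D : GG G} (h : D.Good) (r : D.Q1) (u : G) (z : D.E r) :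
    D.S r u z D.δ = D.P (D.t r) (u * D.c' r) (D.b r z) := by
  unfold GG.S
  have e := D.sd.st_end h.δpos ⟨r, (u : G ⧸ D.H1 r)⟩ (toH (D.H1 r) u • z)
  refine e.trans ?_
  show D.sd.pt ⟨D.t r, ((Quotient.out (u : G ⧸ D.H1 r) * D.c' r : G) : G ⧸ D.H0 (D.t r))⟩
    (toH (D.H0 (D.t r)) (Quotient.out (u : G ⧸ D.H1 r) * D.c' r) • D.b r (toH (D.H1 r) u • z)) = _
  rw [h.beq]
  show D.P (D.t r) (Quotient.out (u : G ⧸ D.H1 r) * D.c' r) _ = _
  rw [← D.P_mul]
  congr 1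
  show Quotient.out (u : G ⧸ D.H1 r) * D.c' r * ((D.c' r)⁻¹ * (toH (D.H1 r) u : G) * D.c' r) = u * D.c' r
  conv_rhs => rw [← G1_out_toH (D.H1 r) u]
  group

theorem GG.act_P (g : G) (q : D.Q0) (u : G) (x : D.X q) : D.act g (D.P q u x) = D.P q (g * u) x := by
  show D.P q (g * Quotient.out (u : G ⧸ D.H0 q)) (toH (D.H0 q) u • x) = _
  rw [← D.P_mul, mul_assoc, G1_out_toH]

theorem GG.act_S_Ioo (g : G) (r : D.Q1) (u : G) (z : D.E r) {τ : ℝ} (hτ : τ ∈ Ioo (0 : ℝ) D.δ) :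
    D.act g (D.S r u z τ) = D.S r (g * u) z τ := by
  have e : D.S r u z τ = Sum.inr ⟨⟨r, (u : G ⧸ D.H1 r)⟩, toH (D.H1 r) u • z, ⟨τ, hτ⟩⟩ := dif_pos hτ
  rw [e]
  show D.S r (g * Quotient.out (u : G ⧸ D.H1 r)) (toH (D.H1 r) u • z) τ = _
  rw [← D.S_mul, mul_assoc, G1_out_toH]

theorem GG.Good.act_S {D : GG G} (h : D.Good) (g : G) (r : D.Q1) (u : G) (z : D.E r) {τ : ℝ} (hτ : τ ∈ Icc (0 : ℝ) D.δ) :
    D.act g (D.S r u z τ) = D.S r (g * u) z τ := by
  rcases hτ.1.eq_or_lt with h0 | h0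
  · rw [← h0, h.S_zero, h.S_zero, D.act_P, mul_assoc]
  · rcases hτ.2.eq_or_lt with h1 | h1
    · rw [h1, h.S_end, h.S_end, D.act_P, mul_assoc]
    · exact D.act_S_Ioo g r u z ⟨h0, h1⟩

theorem GG.act_one (ω : D.sd.Ω) : D.act 1 ω = ω := by
  rcases ω with ⟨⟨q, v⟩, x⟩ | ⟨⟨r, e⟩, z, τ⟩
  · have key : ∀ y : D.X q, D.P q (1 * Quotient.out v) y = D.sd.pt ⟨q, v⟩ y := fun y => by
      rw [one_mul, D.pt_eq]
    exact key x
  · have key : ∀ y : D.E r, D.S r (1 * Quotient.out e) y τ = D.sd.st ⟨r, e⟩ y τ := fun y => by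
      rw [one_mul, D.st_eq]
    exact (key z).trans (dif_pos τ.2)

theorem GG.act_mul (g g' : G) (ω : D.sd.Ω) : D.act (g * g') ω = D.act g (D.act g' ω) := by
  rcases ω with ⟨⟨q, v⟩, x⟩ | ⟨⟨r, e⟩, z, τ⟩
  · have key : ∀ y : D.X q, D.P q (g * g' * Quotient.out v) y = D.act g (D.P q (g' * Quotient.out v) y) := fun y => by
      rw [D.act_P, mul_assoc]
    exact key x
  · have key : ∀ y : D.E r, D.S r (g * g' * Quotient.out e) y τ = D.act g (D.S r (g' * Quotient.out e) y τ) := fun y => by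
      rw [D.act_S_Ioo g r _ y τ.2, mul_assoc]
    exact key z

/-- the action of `G` -/
@[reducible] def GG.mulAction : MulAction G D.sd.Ω where
  smul := D.act
  one_smul := D.act_one
  mul_smul := D.act_mul

end Pool.Agent.LibCF24
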