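import Pool.Agent.LibCF24.M5

/-! Row M6 (MEDIUM). Distances in a tree of spaces with strips. M0, M5, S1 (`Tr.lip`), S3 (`Tr.cd_eq`) may be cited.

`st_dist`: `cd_eq` for the piece `inr e` and `WithLp.prod_dist_eq_of_L2`. `pt_sep`: apply `Tr.lip` to `g : Ω → ℝ`: `g (pt u x) = 0` if `u = v`, `δ` otherwise; on the interior point `(z, τ)` of the strip `e`:
`τ` if `o e = v`, `δ - τ` if `t e = v`, `δ` otherwise. Then `g` of the point `(z, τ)` of the closed strip `e`, `0 ≤ τ ≤ δ`, is given by the same formula (`ne`), so `g` is 1-Lipschitz on the pieces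
(`|τ - τ'| ≤` the distance in the strip). `st_sep`: `g = min τ (δ - τ)` on the strip `e`, `0` elsewhere. -/

set_option autoImplicit false

noncomputable section

open Set

namespace Pool.Agent.LibCF24

variable {V0 V1 : Type} {D : SD V0 V1}

private theorem M6_f (e : V1) (z : D.E e) {τ : ℝ} (hτ : τ ∈ Icc (0 : ℝ) D.δ) :
    D.st e z τ = D.f (Sum.inr e) (WithLp.toLp 2 (z, (⟨τ, hτ⟩ : Icc (0 : ℝ) D.δ))) := rfl

private theorem M6_prod (e : V1) (y y' : WithLp 2 (D.E e × Icc (0 : ℝ) D.δ)) :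
    dist y y' = √(dist (WithLp.ofLp y).1 (WithLp.ofLp y').1 ^ 2 +
      (((WithLp.ofLp y).2 : ℝ) - (WithLp.ofLp y').2) ^ 2) := by
  have h1 : dist y y' = (dist (WithLp.ofLp y).1 (WithLp.ofLp y').1 ^ ((2 : ENNReal).toReal) +
      dist (WithLp.ofLp y).2 (WithLp.ofLp y').2 ^ ((2 : ENNReal).toReal)) ^
        (1 / (2 : ENNReal).toReal) :=
    WithLp.prod_dist_eq_add (by norm_num) y y'
  rw [h1, ENNReal.toReal_ofNat, Real.rpow_ofNat, Real.rpow_ofNat, Subtype.dist_eq, Real.dist_eq,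
    sq_abs, Real.sqrt_eq_rpow]

private theorem M6_le (e : V1) (y y' : WithLp 2 (D.E e × Icc (0 : ℝ) D.δ)) :
    |((WithLp.ofLp y).2 : ℝ) - (WithLp.ofLp y').2| ≤ dist y y' := by
  rw [M6_prod]
  refine Real.abs_le_sqrt ?_
  have := sq_nonneg (dist (WithLp.ofLp y).1 (WithLp.ofLp y').1)
  linarith

theorem SD.Good.st_dist (h : D.Good) (e : V1) (z z' : D.E e) {τ τ' : ℝ} (hτ : τ ∈ Icc (0 : ℝ) D.δ) (hτ' : τ' ∈ Icc (0 : ℝ) D.δ) :
    cd D.f (D.st e z τ) (D.st e z' τ') = √(dist z z' ^ 2 + (τ - τ') ^ 2) := by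
  have h1 := h.tr.cd_eq (Sum.inr e) (WithLp.toLp 2 (z, (⟨τ, hτ⟩ : Icc (0 : ℝ) D.δ)))
    (WithLp.toLp 2 (z', (⟨τ', hτ'⟩ : Icc (0 : ℝ) D.δ)))
  refine Eq.trans ?_ (h1.trans (M6_prod e _ _))
  rfl

/-- functions of the points given by their values on the vertex spaces and on the open strips -/
private def M6_g (D : SD V0 V1) (α : V0 → ℝ) (β : V1 → ℝ → ℝ) (ω : D.Ω) : ℝ :=
  Sum.elim (fun p : Σ v, D.X v => α p.1)
    (fun p : Σ e, D.E e × Ioo (0 : ℝ) D.δ => β p.1 ((p.2.2 : Ioo (0 : ℝ) D.δ) : ℝ)) ω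

private theorem M6_g_st (h : D.Good) {α : V0 → ℝ} {β : V1 → ℝ → ℝ}
    (h0 : ∀ e, β e 0 = α (D.o e)) (h1 : ∀ e, β e D.δ = α (D.t e)) (e : V1) (z : D.E e) {τ : ℝ}
    (hτ : τ ∈ Icc (0 : ℝ) D.δ) : M6_g D α β (D.st e z τ) = β e τ := by
  by_cases h2 : 0 < τ ∧ τ < D.δ
  · have h3 : D.st e z τ = Sum.inr ⟨e, z, ⟨τ, h2⟩⟩ := dif_pos h2
    rw [h3]
    rfl
  · by_cases h3 : τ ≤ 0
    · have h4 : τ = 0 := le_antisymm h3 hτ.1
      rw [h4, D.st_zero, h0]
      rfl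
    · have h4 : τ = D.δ := by
        refine le_antisymm hτ.2 ?_
        by_contra hcon
        push Not at hcon h3
        exact h2 ⟨h3, hcon⟩
      rw [h4, D.st_end h.δpos, h1]
      rfl

private theorem M6_lip (h : D.Good) {α : V0 → ℝ} {β : V1 → ℝ → ℝ}
    (h0 : ∀ e, β e 0 = α (D.o e)) (h1 : ∀ e, β e D.δ = α (D.t e))
    (hβ : ∀ e τ τ', |β e τ - β e τ'| ≤ |τ - τ'|) (x y : D.Ω) :
    dist (M6_g D α β x) (M6_g D α β y) ≤ cd D.f x y := by
  refine h.tr.lip (M6_g D α β) ?_ x y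
  rintro (v | e) a b
  · have h2 : M6_g D α β (D.f (Sum.inl v) a) = M6_g D α β (D.f (Sum.inl v) b) := rfl
    rw [h2, dist_self]
    exact dist_nonneg
  · have h2 : M6_g D α β (D.f (Sum.inr e) a) = β e ((WithLp.ofLp a).2 : ℝ) :=
      M6_g_st h h0 h1 e (WithLp.ofLp a).1 (WithLp.ofLp a).2.2
    have h3 : M6_g D α β (D.f (Sum.inr e) b) = β e ((WithLp.ofLp b).2 : ℝ) :=
      M6_g_st h h0 h1 e (WithLp.ofLp b).1 (WithLp.ofLp b).2.2
    rw [h2, h3, Real.dist_eq]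
    exact (hβ e _ _).trans (M6_le e a b)

/-- different vertex spaces have distance at least `δ` -/
theorem SD.Good.pt_sep (h : D.Good) {v v' : V0} (hv : v ≠ v') (x : D.X v) (x' : D.X v') : D.δ ≤ cd D.f (D.pt v x) (D.pt v' x') := by
  classical
  set α : V0 → ℝ := fun u => if u = v then 0 else D.δ with hα
  set β : V1 → ℝ → ℝ := fun e τ => if D.o e = v then τ else if D.t e = v then D.δ - τ else D.δ
    with hβ
  have h0 : ∀ e, β e 0 = α (D.o e) := by
    intro e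
    simp only [hα, hβ]
    split_ifs <;> ring
  have h1 : ∀ e, β e D.δ = α (D.t e) := by
    intro e
    simp only [hα, hβ]
    split_ifs with h2 h3
    · exact absurd (h2.trans h3.symm) (h.ne e)
    · rfl
    · ring
    · rfl
  have h2 : ∀ e τ τ', |β e τ - β e τ'| ≤ |τ - τ'| := by
    intro e τ τ'
    simp only [hβ]
    split_ifs
    · exact le_rfl
    · rw [abs_sub_comm τ τ']
      exact le_of_eq (congrArg _ (by ring))
    · rw [sub_self, abs_zero]
      exact abs_nonneg _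
  have h3 := M6_lip h h0 h1 h2 (D.pt v x) (D.pt v' x')
  have h4 : M6_g D α β (D.pt v x) = 0 := if_pos rfl
  have h5 : M6_g D α β (D.pt v' x') = D.δ := if_neg (Ne.symm hv)
  rw [h4, h5, Real.dist_eq, zero_sub, abs_neg, abs_of_pos h.δpos] at h3
  exact h3

/-- the distance of an interior point of a strip to all points outside of the open strip -/
theorem SD.Good.st_sep (h : D.Good) (e : V1) (z : D.E e) {τ : ℝ} (hτ : τ ∈ Ioo (0 : ℝ) D.δ) (ω : D.Ω)
    (hω : ∀ z' : D.E e, ∀ τ' ∈ Ioo (0 : ℝ) D.δ, ω ≠ D.st e z' τ') : min τ (D.δ - τ) ≤ cd D.f (D.st e z τ) ω := by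
  classical
  set α : V0 → ℝ := fun _ => 0 with hα
  set β : V1 → ℝ → ℝ := fun e' τ => if e' = e then min τ (D.δ - τ) else 0 with hβ
  have h0 : ∀ e', β e' 0 = α (D.o e') := by
    intro e'
    simp only [hα, hβ]
    split_ifs
    · rw [sub_zero, min_eq_left h.δpos.le]
    · rfl
  have h1 : ∀ e', β e' D.δ = α (D.t e') := by
    intro e'
    simp only [hα, hβ]
    split_ifs
    · rw [sub_self, min_eq_right h.δpos.le]
    · rfl
  have h2 : ∀ e' τ τ', |β e' τ - β e' τ'| ≤ |τ - τ'| := by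
    intro e' τ τ'
    simp only [hβ]
    split_ifs
    · refine (abs_min_sub_min_le_max _ _ _ _).trans (max_le le_rfl ?_)
      rw [abs_sub_comm τ τ']
      exact le_of_eq (congrArg _ (by ring))
    · rw [sub_self, abs_zero]
      exact abs_nonneg _
  have h3 := M6_lip h h0 h1 h2 (D.st e z τ) ω
  have h4 : M6_g D α β (D.st e z τ) = min τ (D.δ - τ) := by
    rw [M6_g_st h h0 h1 e z ⟨hτ.1.le, hτ.2.le⟩]
    exact if_pos rfl
  have h5 : M6_g D α β ω = 0 := by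
    rcases ω with ω | ⟨e', z', τ'⟩
    · rfl
    · by_cases he : e' = e
      · subst he
        exfalso
        have h7 : 0 < (τ' : ℝ) ∧ (τ' : ℝ) < D.δ := τ'.2
        have h6 : D.st e' z' (τ' : ℝ) = Sum.inr ⟨e', z', ⟨τ', h7⟩⟩ := dif_pos h7
        exact hω z' τ' τ'.2 h6.symm
      · exact if_neg he
  rw [h4, h5, Real.dist_eq, sub_zero, abs_of_pos (lt_min hτ.1 (by linarith [hτ.2]))] at h3
  exact h3

end Pool.Agent.LibCF24
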