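import Pool.Agent.LibCF24.G1
import Pool.Agent.LibCF24.M6

/-! Row G2 (MEDIUM). The tree of spaces of a graph of spaces is good, the action is isometric. GDefs, G1, M6, S1.

`sdGood`: `aiso`: composition of `D.aiso` with the isometry `toH _ • ·` (`Xiso`); the tree is `D.tree` by definition. `act_le`: `Tr.map_le` (S1): the piece `inl ⟨q, v⟩` goes to
`inl ⟨q, g v⟩` (`g v` = class of `g * out v`) by `x ↦ toH (g * out v) • x`, the piece `inr ⟨r, e⟩` to `inr ⟨r, g e⟩` by `(z, τ) ↦ (toH (g * out e) • z, τ)` (same distance). `act_cd`: `act_le` for `g` and `g⁻¹`. -/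

set_option autoImplicit false

noncomputable section

open Set

namespace Pool.Agent.LibCF24

variable {G : Type} [Group G] {D : GG G}

private theorem G2_dist {A A' B : Type} [MetricSpace A] [MetricSpace A'] [MetricSpace B]
    (u u' : A) (w w' : A') (s s' : B) (h : dist u u' = dist w w') :
    dist (WithLp.toLp 2 (u, s) : WithLp 2 (A × B)) (WithLp.toLp 2 (u', s')) =
      dist (WithLp.toLp 2 (w, s) : WithLp 2 (A' × B)) (WithLp.toLp 2 (w', s')) := by
  rw [WithLp.prod_dist_eq_add (by norm_num), WithLp.prod_dist_eq_add (by norm_num)]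
  change (dist u u' ^ _ + dist s s' ^ _) ^ _ = (dist w w' ^ _ + dist s s' ^ _) ^ _
  rw [h]

theorem GG.Good.sdGood (h : D.Good) : D.sd.Good := by
  exact
    { δpos := h.δpos
      tree := h.tree
      ne := h.ne
      aiso := fun e => Isometry.of_dist_eq fun x y =>
        (h.Xiso (D.o e.1) _ (D.a e.1 x) (D.a e.1 y)).trans ((h.aiso e.1).dist_eq x y)
      biso := fun e => Isometry.of_dist_eq fun x y =>
        (h.Xiso (D.t e.1) _ (D.b e.1 x) (D.b e.1 y)).trans ((h.biso e.1).dist_eq x y)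
      Xcat := fun v => h.Xcat v.1
      Ecat := fun e => h.Ecat e.1
      Eproper := fun e => h.Eproper e.1
      Ene := fun e => h.Ene e.1 }

theorem GG.Good.act_le (h : D.Good) (g : G) (x y : D.sd.Ω) : cd D.sd.f (D.act g x) (D.act g y) ≤ cd D.sd.f x y := by
  refine h.sdGood.tr.map_le (D.act g) ?_ x y
  rintro (⟨q, v⟩ | ⟨r, e⟩)
  · refine ⟨Sum.inl ⟨q, ((g * Quotient.out v : G) : G ⧸ D.H0 q)⟩,
      fun x => toH (D.H0 q) (g * Quotient.out v) • (show D.X q from x), ?_, ?_⟩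
    · intro a b
      exact (h.Xiso q _ a b).le
    · intro a
      rfl
  · refine ⟨Sum.inr ⟨r, ((g * Quotient.out e : G) : G ⧸ D.H1 r)⟩,
      fun (y : WithLp 2 (D.E r × Icc (0 : ℝ) D.δ)) =>
        (WithLp.toLp 2 (toH (D.H1 r) (g * Quotient.out e) • (WithLp.ofLp y).1, (WithLp.ofLp y).2) :
          WithLp 2 (D.E r × Icc (0 : ℝ) D.δ)), ?_, ?_⟩
    · intro (a : WithLp 2 (D.E r × Icc (0 : ℝ) D.δ)) (b : WithLp 2 (D.E r × Icc (0 : ℝ) D.δ))
      exact (G2_dist _ _ (WithLp.ofLp a).1 (WithLp.ofLp b).1 (WithLp.ofLp a).2 (WithLp.ofLp b).2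
        (h.Eiso r (toH (D.H1 r) (g * Quotient.out e)) (WithLp.ofLp a).1 (WithLp.ofLp b).1)).le
    · intro (a : WithLp 2 (D.E r × Icc (0 : ℝ) D.δ))
      have h3 : D.sd.st ⟨r, e⟩ (WithLp.ofLp a).1 (WithLp.ofLp a).2 =
          D.S r (Quotient.out e) (WithLp.ofLp a).1 (WithLp.ofLp a).2 := D.st_eq r e _ _
      have h4 := h.act_S g r (Quotient.out e) (WithLp.ofLp a).1 (WithLp.ofLp a).2.2
      exact (congrArg (D.act g) h3).trans h4

theorem GG.Good.act_cd (h : D.Good) (g : G) (x y : D.sd.Ω) : cd D.sd.f (D.act g x) (D.act g y) = cd D.sd.f x y := by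
  refine le_antisymm (h.act_le g x y) ?_
  have h1 := h.act_le g⁻¹ (D.act g x) (D.act g y)
  rwa [← D.act_mul, ← D.act_mul, inv_mul_cancel, D.act_one, D.act_one] at h1

end Pool.Agent.LibCF24
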