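import Pool.Agent.LibCF24.M5

/-! Row M7 (MEDIUM). Lipschitz functions on the vertex spaces. M0, M5, S1 (`Tr.lip`) may be cited.

For every strip `e` the function given on the two boundary lines (`φ (o e) (a e z)` at `τ = 0`, `φ (t e) (b e z)` at `τ = δ`) is 1-Lipschitz for the distance of the strip
`WithLp 2 (E e × Icc 0 δ)`: same side by `h1` and `aiso`, `biso`, different sides by `h2`. Extend it to the closed strip by McShane (`LipschitzOnWith.extend_real` of Mathlib, constant `1`).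
The extension and `φ` define `g : Ω → ℝ`, 1-Lipschitz on all pieces (on `inr e` it is the extension, because it agrees with `φ` at the two ends: `st_zero`, `st_end`); `Tr.lip`. -/

set_option autoImplicit false

noncomputable section

open Set

namespace Pool.Agent.LibCF24

variable {V0 V1 : Type} {D : SD V0 V1}

private theorem M7_strip (h : D.Good) (φ : ∀ v, D.X v → ℝ)
    (h1 : ∀ v x y, |φ v x - φ v y| ≤ dist x y)
    (h2 : ∀ e z z', |φ (D.o e) (D.a e z) - φ (D.t e) (D.b e z')| ≤ √(dist z z' ^ 2 + D.δ ^ 2))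
    (e : V1) : ∃ G : WithLp 2 (D.E e × Icc (0 : ℝ) D.δ) → ℝ,
      (∀ y y', |G y - G y'| ≤ dist y y') ∧
      (∀ (z : D.E e) (h0 : (0 : ℝ) ∈ Icc (0 : ℝ) D.δ),
        G (WithLp.toLp 2 (z, ⟨0, h0⟩)) = φ (D.o e) (D.a e z)) ∧
      (∀ (z : D.E e) (h0 : D.δ ∈ Icc (0 : ℝ) D.δ),
        G (WithLp.toLp 2 (z, ⟨D.δ, h0⟩)) = φ (D.t e) (D.b e z)) := by
  classical
  have hδ := h.δpos
  have m0 : (0 : ℝ) ∈ Icc (0 : ℝ) D.δ := ⟨le_rfl, hδ.le⟩
  have mδ : D.δ ∈ Icc (0 : ℝ) D.δ := ⟨hδ.le, le_rfl⟩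
  set F : WithLp 2 (D.E e × Icc (0 : ℝ) D.δ) → ℝ := fun y =>
    if ((WithLp.ofLp y).2 : ℝ) = 0 then φ (D.o e) (D.a e (WithLp.ofLp y).1)
    else φ (D.t e) (D.b e (WithLp.ofLp y).1) with hF
  set S : Set (WithLp 2 (D.E e × Icc (0 : ℝ) D.δ)) :=
    {y | ((WithLp.ofLp y).2 : ℝ) = 0 ∨ ((WithLp.ofLp y).2 : ℝ) = D.δ} with hS
  have hdist : ∀ y y' : WithLp 2 (D.E e × Icc (0 : ℝ) D.δ), dist y y'
      = √(dist (WithLp.ofLp y).1 (WithLp.ofLp y').1 ^ 2
        + (((WithLp.ofLp y).2 : ℝ) - ((WithLp.ofLp y').2 : ℝ)) ^ 2) := by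
    intro y y'
    have hp : (0 : ℝ) < (2 : ENNReal).toReal := by norm_num
    have e0 := WithLp.prod_dist_eq_add hp y y'
    have e1 : dist (WithLp.snd y) (WithLp.snd y')
        = |((WithLp.ofLp y).2 : ℝ) - ((WithLp.ofLp y').2 : ℝ)| := by
      rw [Subtype.dist_eq, Real.dist_eq]
      rfl
    rw [e1] at e0
    rw [ENNReal.toReal_ofNat, Real.rpow_two, Real.rpow_two, sq_abs] at e0
    rw [e0, Real.sqrt_eq_rpow]
    rfl
  have hle : ∀ y y' : WithLp 2 (D.E e × Icc (0 : ℝ) D.δ),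
      dist (WithLp.ofLp y).1 (WithLp.ofLp y').1 ≤ dist y y' := by
    intro y y'
    rw [hdist]
    apply Real.le_sqrt_of_sq_le
    nlinarith [sq_nonneg (((WithLp.ofLp y).2 : ℝ) - ((WithLp.ofLp y').2 : ℝ))]
  have hlip : LipschitzOnWith 1 F S := by
    apply LipschitzOnWith.of_dist_le_mul
    intro y hy y' hy'
    rw [Real.dist_eq, NNReal.coe_one, one_mul]
    rcases hy with hy | hy <;> rcases hy' with hy' | hy'
    · have e1 : F y = φ (D.o e) (D.a e (WithLp.ofLp y).1) := if_pos hy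
      have e2 : F y' = φ (D.o e) (D.a e (WithLp.ofLp y').1) := if_pos hy'
      rw [e1, e2]
      refine (h1 _ _ _).trans ?_
      rw [(h.aiso e).dist_eq]
      exact hle y y'
    · have e1 : F y = φ (D.o e) (D.a e (WithLp.ofLp y).1) := if_pos hy
      have e2 : F y' = φ (D.t e) (D.b e (WithLp.ofLp y').1) := by
        refine if_neg ?_
        rw [hy']
        exact hδ.ne'
      rw [e1, e2, hdist, hy, hy']
      refine (h2 _ _ _).trans (le_of_eq ?_)
      congr 1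
      ring
    · have e1 : F y = φ (D.t e) (D.b e (WithLp.ofLp y).1) := by
        refine if_neg ?_
        rw [hy]
        exact hδ.ne'
      have e2 : F y' = φ (D.o e) (D.a e (WithLp.ofLp y').1) := if_pos hy'
      rw [e1, e2, hdist, hy, hy', abs_sub_comm]
      refine (h2 _ _ _).trans (le_of_eq ?_)
      rw [dist_comm]
      congr 1
      ring
    · have e1 : F y = φ (D.t e) (D.b e (WithLp.ofLp y).1) := by
        refine if_neg ?_
        rw [hy]
        exact hδ.ne'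
      have e2 : F y' = φ (D.t e) (D.b e (WithLp.ofLp y').1) := by
        refine if_neg ?_
        rw [hy']
        exact hδ.ne'
      rw [e1, e2]
      refine (h1 _ _ _).trans ?_
      rw [(h.biso e).dist_eq]
      exact hle y y'
  obtain ⟨G, hG, hGF⟩ := hlip.extend_real
  refine ⟨G, fun y y' => ?_, fun z h0 => ?_, fun z h0 => ?_⟩
  · have := hG.dist_le_mul y y'
    rwa [Real.dist_eq, NNReal.coe_one, one_mul] at this
  · have h3 : WithLp.toLp 2 (z, (⟨0, h0⟩ : Icc (0 : ℝ) D.δ)) ∈ S := Or.inl rfl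
    rw [← hGF h3]
    exact if_pos rfl
  · have h3 : WithLp.toLp 2 (z, (⟨D.δ, h0⟩ : Icc (0 : ℝ) D.δ)) ∈ S := Or.inr rfl
    rw [← hGF h3]
    exact if_neg hδ.ne'

/-- The extended function. -/
private def M7_g (D : SD V0 V1) (φ : ∀ v, D.X v → ℝ)
    (G : ∀ e, WithLp 2 (D.E e × Icc (0 : ℝ) D.δ) → ℝ) : D.Ω → ℝ
  | Sum.inl ⟨v, x⟩ => φ v x
  | Sum.inr ⟨e, z, τ⟩ => G e (WithLp.toLp 2 (z, ⟨τ.1, Ioo_subset_Icc_self τ.2⟩))

theorem SD.Good.lip_real (h : D.Good) (φ : ∀ v, D.X v → ℝ) (h1 : ∀ v x y, |φ v x - φ v y| ≤ dist x y)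
    (h2 : ∀ e z z', |φ (D.o e) (D.a e z) - φ (D.t e) (D.b e z')| ≤ √(dist z z' ^ 2 + D.δ ^ 2)) (v v' : V0) (x : D.X v) (x' : D.X v') :
    |φ v x - φ v' x'| ≤ cd D.f (D.pt v x) (D.pt v' x') := by
  choose G hG1 hG2 hG3 using M7_strip h φ h1 h2
  have hδ := h.δpos
  have hst : ∀ (e : V1) (z : D.E e) (τ : ℝ) (hτ : τ ∈ Icc (0 : ℝ) D.δ),
      M7_g D φ G (D.st e z τ) = G e (WithLp.toLp 2 (z, ⟨τ, hτ⟩)) := by
    intro e z τ hτ
    by_cases hc : 0 < τ ∧ τ < D.δ
    · have e1 : D.st e z τ = Sum.inr ⟨e, z, ⟨τ, hc⟩⟩ := by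
        exact dif_pos hc
      rw [e1]
      rfl
    · by_cases h0 : τ = 0
      · subst h0
        rw [D.st_zero, hG2]
        rfl
      · have h0' : τ = D.δ := by
          by_contra hne
          exact hc ⟨lt_of_le_of_ne hτ.1 (Ne.symm h0), lt_of_le_of_ne hτ.2 hne⟩
        subst h0'
        rw [D.st_end hδ, hG3]
        rfl
  have key := h.tr.lip (M7_g D φ G) (by
    rintro (v | e) p q
    · exact h1 v p q
    · have hp := hst e (WithLp.ofLp p).1 (WithLp.ofLp p).2 (WithLp.ofLp p).2.2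
      have hq := hst e (WithLp.ofLp q).1 (WithLp.ofLp q).2 (WithLp.ofLp q).2.2
      have e1 : M7_g D φ G (D.f (Sum.inr e) p) = G e p := hp
      have e2 : M7_g D φ G (D.f (Sum.inr e) q) = G e q := hq
      rw [e1, e2]
      exact hG1 e p q) (D.pt v x) (D.pt v' x')
  exact key

end Pool.Agent.LibCF24
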