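import Pool.Agent.LibCF24.G2
import Pool.Agent.LibCF24.M7

/-! Row G3 (MEDIUM). Distances between the points `[u, x]`, strips, Lipschitz functions. G1, G2, M5, M6, M7.

`P_dist`: `pt_dist` (M5) and `Xiso`. `strip`: `P (o r) (u c) (a z) = S r u z 0`, `P (t r) (u c') (b z') = S r u z' δ`, both in the same strip; `st_dist` (M6), `Eiso`.
`lip`: `lip_real` (M7) for `D.sd` and the function `⟨q, v⟩, x ↦ φ q (out v) x`; its value at `P q g x` is `φ q (out (g H)) (toH g • x) = φ q (out (g H) * toH g) x = φ q g x` (`hφ0`); for the edge `⟨r, e⟩`: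
`sd.a` is `toH (out e * c) • a z`, so `hφ0` gives the value `φ (o r) (out e * c) (a r z)`, and `h2` applies with `g = out e`. -/

set_option autoImplicit false

noncomputable section

open Set

namespace Pool.Agent.LibCF24

variable {G : Type} [Group G] {D : GG G}

private theorem G3_out_mul (H : Subgroup G) (u : G) :
    (Quotient.out (u : G ⧸ H) : G) * (toH H u : G) = u := by
  show (Quotient.out (u : G ⧸ H) : G) * ((Quotient.out (u : G ⧸ H))⁻¹ * u) = u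
  rw [mul_inv_cancel_left]

theorem GG.Good.P_dist (h : D.Good) (q : D.Q0) (u : G) (x y : D.X q) : cd D.sd.f (D.P q u x) (D.P q u y) = dist x y := by
  have h1 := h.sdGood.pt_dist ⟨q, (u : G ⧸ D.H0 q)⟩ (toH (D.H0 q) u • x) (toH (D.H0 q) u • y)
  exact h1.trans (h.Xiso q (toH (D.H0 q) u) x y)

theorem GG.Good.S_dist (h : D.Good) (r : D.Q1) (u : G) (z z' : D.E r) {τ τ' : ℝ} (hτ : τ ∈ Icc (0 : ℝ) D.δ)
    (hτ' : τ' ∈ Icc (0 : ℝ) D.δ) : cd D.sd.f (D.S r u z τ) (D.S r u z' τ') = √(dist z z' ^ 2 + (τ - τ') ^ 2) := by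
  have h1 := h.sdGood.st_dist ⟨r, (u : G ⧸ D.H1 r)⟩ (toH (D.H1 r) u • z) (toH (D.H1 r) u • z') hτ hτ'
  have h2 := h.Eiso r (toH (D.H1 r) u) z z'
  rw [← h2]
  exact h1

private theorem G3_val (φ : ∀ q, G → D.X q → ℝ) (hφ0 : ∀ q g (k : D.H0 q) x, φ q (g * k) x = φ q g (k • x))
    (q : D.Q0) (u : G) (x : D.X q) :
    φ q (Quotient.out (u : G ⧸ D.H0 q)) (toH (D.H0 q) u • x) = φ q u x := by
  rw [← hφ0, G3_out_mul]

theorem GG.Good.lip (h : D.Good) (φ : ∀ q, G → D.X q → ℝ) (hφ0 : ∀ q g (k : D.H0 q) x, φ q (g * k) x = φ q g (k • x))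
    (h1 : ∀ q g x y, |φ q g x - φ q g y| ≤ dist x y)
    (h2 : ∀ r g z z', |φ (D.o r) (g * D.c r) (D.a r z) - φ (D.t r) (g * D.c' r) (D.b r z')| ≤ √(dist z z' ^ 2 + D.δ ^ 2))
    (q q' : D.Q0) (g g' : G) (x : D.X q) (x' : D.X q') :
    |φ q g x - φ q' g' x'| ≤ cd D.sd.f (D.P q g x) (D.P q' g' x') := by
  have h3 := h.sdGood.lip_real (fun v x => φ v.1 (Quotient.out v.2) x)
    (fun v x y => h1 v.1 (Quotient.out v.2) x y)
    (by
      intro e z z'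
      have h4 := h2 e.1 (Quotient.out e.2) z z'
      rw [← G3_val φ hφ0 _ _ (D.a e.1 z), ← G3_val φ hφ0 _ _ (D.b e.1 z')] at h4
      exact h4)
    ⟨q, (g : G ⧸ D.H0 q)⟩ ⟨q', (g' : G ⧸ D.H0 q')⟩ (toH (D.H0 q) g • x) (toH (D.H0 q') g' • x')
  have h5 : |φ q (Quotient.out (g : G ⧸ D.H0 q)) (toH (D.H0 q) g • x) -
      φ q' (Quotient.out (g' : G ⧸ D.H0 q')) (toH (D.H0 q') g' • x')| ≤
      cd D.sd.f (D.P q g x) (D.P q' g' x') := h3
  rw [G3_val φ hφ0, G3_val φ hφ0] at h5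
  exact h5

end Pool.Agent.LibCF24
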