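import Pool.Agent.LibCF24.G3

/-! Row G4 (MEDIUM). Properness. G1, G2, G3, M6.

Point `ω = P q u x` (`pt_eq`): `r = min δ r_x` with `r_x` from `PA` at `x`. If `cd ω (act g ω) < r`, `act g ω = P q (g u) x`: if the classes of `g u` and `u` modulo `H0 q` differ, `pt_sep` (M6) gives `cd ≥ δ`;
so `k = u⁻¹ g u ∈ H0 q`, `P q (u k) x = P q u (k • x)`, `cd = dist x (k • x) < r_x`: finitely many `k`, so finitely many `g = u k u⁻¹`.
Interior point `ω = S r u z τ` (`st_eq`, `0 < τ < δ`): `r = min (min τ (δ - τ)) r_z`; `act g ω = S r (g u) z τ`; different classes modulo `H1 r`: `st_sep` (M6), (points of different open strips are different: `st_eq_st`);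
same class: `k = u⁻¹ g u`, `cd = √(dist z (k • z) ^ 2) `. -/

set_option autoImplicit false

noncomputable section

open Set

namespace Pool.Agent.LibCF24

variable {G : Type} [Group G] {D : GG G}

private theorem G4_P (h : D.Good) (h0 : ∀ q, PA (D.H0 q) (D.X q)) (q : D.Q0) (u : G) (x : D.X q) :
    ∃ r > 0, {g : G | cd D.sd.f (D.P q u x) (D.act g (D.P q u x)) < r}.Finite := by
  obtain ⟨ρ, hρ, hfin⟩ := h0 q x
  refine ⟨min D.δ ρ, lt_min h.δpos hρ, ?_⟩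
  refine (hfin.image fun k : D.H0 q => u * (k : G) * u⁻¹).subset ?_
  intro g hg
  have hg' : cd D.sd.f (D.P q u x) (D.P q (g * u) x) < min D.δ ρ := by
    rw [← D.act_P]
    exact hg
  have hcl : (u : G ⧸ D.H0 q) = ((g * u : G) : G ⧸ D.H0 q) := by
    by_contra hne
    have h2 : (⟨q, (u : G ⧸ D.H0 q)⟩ : D.V0) ≠ ⟨q, ((g * u : G) : G ⧸ D.H0 q)⟩ := by
      intro h3
      apply hne
      have h4 := (Sigma.mk.inj_iff.1 h3).2
      exact eq_of_heq h4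
    have h3 := h.sdGood.pt_sep h2 (toH (D.H0 q) u • x) (toH (D.H0 q) (g * u) • x)
    exact absurd (lt_of_le_of_lt h3 hg') (not_lt.2 (min_le_left _ _))
  have hk : u⁻¹ * (g * u) ∈ D.H0 q := QuotientGroup.eq.1 hcl
  have e : g * u = u * ((⟨u⁻¹ * (g * u), hk⟩ : D.H0 q) : G) := by
    show g * u = u * (u⁻¹ * (g * u))
    group
  rw [e, D.P_mul, h.P_dist] at hg'
  refine ⟨⟨u⁻¹ * (g * u), hk⟩, lt_of_lt_of_le hg' (min_le_right _ _), ?_⟩
  show u * (u⁻¹ * (g * u)) * u⁻¹ = g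
  group

private theorem G4_S (h : D.Good) (h1 : ∀ r, PA (D.H1 r) (D.E r)) (r : D.Q1) (u : G) (z : D.E r) {τ : ℝ}
    (hτ : τ ∈ Ioo (0 : ℝ) D.δ) :
    ∃ ρ > 0, {g : G | cd D.sd.f (D.S r u z τ) (D.act g (D.S r u z τ)) < ρ}.Finite := by
  obtain ⟨ρ, hρ, hfin⟩ := h1 r z
  refine ⟨min (min τ (D.δ - τ)) ρ, lt_min (lt_min hτ.1 (sub_pos.2 hτ.2)) hρ, ?_⟩
  refine (hfin.image fun k : D.H1 r => u * (k : G) * u⁻¹).subset ?_
  intro g hg
  have hg' : cd D.sd.f (D.S r u z τ) (D.S r (g * u) z τ) < min (min τ (D.δ - τ)) ρ := by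
    rw [← D.act_S_Ioo g r u z hτ]
    exact hg
  have hcl : (u : G ⧸ D.H1 r) = ((g * u : G) : G ⧸ D.H1 r) := by
    by_contra hne
    have h3 := h.sdGood.st_sep ⟨r, (u : G ⧸ D.H1 r)⟩ (toH (D.H1 r) u • z) hτ (D.S r (g * u) z τ) (by
      intro z' τ' hτ' he
      have h4 := (SD.Good.st_eq_st D.sd h.sdGood (e := ⟨r, ((g * u : G) : G ⧸ D.H1 r)⟩) (e' := ⟨r, (u : G ⧸ D.H1 r)⟩)
        (z := toH (D.H1 r) (g * u) • z) (z' := z') hτ (Ioo_subset_Icc_self hτ') he).1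
      exact hne (eq_of_heq (Sigma.mk.inj_iff.1 h4).2).symm)
    exact absurd (lt_of_le_of_lt h3 hg') (not_lt.2 (min_le_left _ _))
  have hk : u⁻¹ * (g * u) ∈ D.H1 r := QuotientGroup.eq.1 hcl
  have e : g * u = u * ((⟨u⁻¹ * (g * u), hk⟩ : D.H1 r) : G) := by
    show g * u = u * (u⁻¹ * (g * u))
    group
  rw [e, D.S_mul, h.S_dist r u _ _ (Ioo_subset_Icc_self hτ) (Ioo_subset_Icc_self hτ), sub_self,
    zero_pow two_ne_zero, add_zero, Real.sqrt_sq dist_nonneg] at hg'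
  refine ⟨⟨u⁻¹ * (g * u), hk⟩, lt_of_lt_of_le hg' (min_le_right _ _), ?_⟩
  show u * (u⁻¹ * (g * u)) * u⁻¹ = g
  group

theorem GG.Good.proper (h : D.Good) (h0 : ∀ q, PA (D.H0 q) (D.X q)) (h1 : ∀ r, PA (D.H1 r) (D.E r)) (ω : D.sd.Ω) :
    ∃ r > 0, {g : G | cd D.sd.f ω (D.act g ω) < r}.Finite := by
  rcases ω with ⟨⟨q, v⟩, x⟩ | ⟨⟨r, e⟩, z, τ⟩
  · have h2 := G4_P h h0 q (Quotient.out v) x
    have e : D.P q (Quotient.out v) x = Sum.inl ⟨⟨q, v⟩, x⟩ := (D.pt_eq q v x).symm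
    rwa [e] at h2
  · have h2 := G4_S h h1 r (Quotient.out e) z τ.2
    have e : D.S r (Quotient.out e) z τ = Sum.inr ⟨⟨r, e⟩, z, τ⟩ := (D.st_eq r e z τ).symm.trans (dif_pos τ.2)
    rwa [e] at h2

end Pool.Agent.LibCF24
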