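import Pool.Agent.LibCF24.MDefs

/-! # Graphs of groups and graphs of spaces: definitions

`GG G`: finitely many (types `Q0`, `Q1`) orbits of vertices and edges of a tree on which `G` acts, given by the stabilisers
`H0 q`, `H1 r` of the base vertices and base edges; the end points of the base edge `r` are the vertices `c r • (base vertex o r)` and `c' r • (base vertex t r)`.
`X q`, `E r` are spaces on which the stabilisers act. -/

set_option autoImplicit false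

noncomputable section

open Set

namespace Pool.Agent.LibCF24

/-- properness at a point: `g` moves `x` by less than `r` for finitely many `g` only -/
def PA (G X : Type) [Group G] [MetricSpace X] [MulAction G X] : Prop :=
  ∀ x : X, ∃ r > 0, {g : G | dist x (g • x) < r}.Finite

/-- cocompactness -/
def CA (G X : Type) [Group G] [MetricSpace X] [MulAction G X] : Prop :=
  ∃ K : Set X, IsCompact K ∧ ∀ x : X, ∃ g : G, g • x ∈ K

structure GG (G : Type) [Group G] where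
  Q0 : Type
  Q1 : Type
  H0 : Q0 → Subgroup G
  H1 : Q1 → Subgroup G
  o : Q1 → Q0
  t : Q1 → Q0
  c : Q1 → G
  c' : Q1 → G
  hc : ∀ r, ∀ h ∈ H1 r, (c r)⁻¹ * h * c r ∈ H0 (o r)
  hc' : ∀ r, ∀ h ∈ H1 r, (c' r)⁻¹ * h * c' r ∈ H0 (t r)
  X : Q0 → Type
  E : Q1 → Type
  mX : ∀ q, MetricSpace (X q)
  mE : ∀ r, MetricSpace (E r)
  aX : ∀ q, MulAction (H0 q) (X q)
  aE : ∀ r, MulAction (H1 r) (E r)
  a : ∀ r, E r → X (o r)
  b : ∀ r, E r → X (t r)
  δ : ℝ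

attribute [instance] GG.mX GG.mE GG.aX GG.aE

variable {G : Type} [Group G]

/-- the part in `H` of `u` with respect to the chosen representative of `u H` -/
def toH (H : Subgroup G) (u : G) : H :=
  ⟨(Quotient.out (u : G ⧸ H))⁻¹ * u, by
    have h : ((Quotient.out (u : G ⧸ H) : G) : G ⧸ H) = (u : G ⧸ H) := Quotient.out_eq _
    exact QuotientGroup.eq.mp h⟩

/-- vertices -/
abbrev GG.V0 (D : GG G) : Type := Σ q, G ⧸ D.H0 q

/-- edges -/
abbrev GG.V1 (D : GG G) : Type := Σ r, G ⧸ D.H1 r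

/-- origin of an edge -/
def GG.oV (D : GG G) (e : D.V1) : D.V0 := ⟨D.o e.1, ((Quotient.out e.2 * D.c e.1 : G) : G ⧸ D.H0 (D.o e.1))⟩

/-- end of an edge -/
def GG.tV (D : GG G) (e : D.V1) : D.V0 := ⟨D.t e.1, ((Quotient.out e.2 * D.c' e.1 : G) : G ⧸ D.H0 (D.t e.1))⟩

/-- the tree of spaces -/
def GG.sd (D : GG G) : SD D.V0 D.V1 where
  o := D.oV
  t := D.tV
  X v := D.X v.1
  E e := D.E e.1
  mX v := D.mX v.1
  mE e := D.mE e.1
  a e z := toH (D.H0 (D.o e.1)) (Quotient.out e.2 * D.c e.1) • D.a e.1 z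
  b e z := toH (D.H0 (D.t e.1)) (Quotient.out e.2 * D.c' e.1) • D.b e.1 z
  δ := D.δ

/-- the point `[u, x]` of the vertex space of `u • (base vertex q)` -/
def GG.P (D : GG G) (q : D.Q0) (u : G) (x : D.X q) : D.sd.Ω :=
  D.sd.pt ⟨q, (u : G ⧸ D.H0 q)⟩ (toH (D.H0 q) u • x)

/-- the point `[u, z, τ]` of the closed strip of `u • (base edge r)` -/
def GG.S (D : GG G) (r : D.Q1) (u : G) (z : D.E r) (τ : ℝ) : D.sd.Ω :=
  D.sd.st ⟨r, (u : G ⧸ D.H1 r)⟩ (toH (D.H1 r) u • z) τ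

/-- the tree -/
def GG.tree (D : GG G) : SimpleGraph (D.V0 ⊕ D.V1) := bip D.oV D.tV

structure GG.Good (D : GG G) : Prop where
  δpos : 0 < D.δ
  tree : D.tree.IsTree
  ne : ∀ e : D.V1, D.oV e ≠ D.tV e
  aiso : ∀ r, Isometry (D.a r)
  biso : ∀ r, Isometry (D.b r)
  aeq : ∀ r (h : D.H1 r) (z : D.E r), D.a r (h • z) = (⟨(D.c r)⁻¹ * h * D.c r, D.hc r h h.2⟩ : D.H0 (D.o r)) • D.a r z
  beq : ∀ r (h : D.H1 r) (z : D.E r), D.b r (h • z) = (⟨(D.c' r)⁻¹ * h * D.c' r, D.hc' r h h.2⟩ : D.H0 (D.t r)) • D.b r z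
  Xiso : ∀ q (h : D.H0 q) (x y : D.X q), dist (h • x) (h • y) = dist x y
  Eiso : ∀ r (h : D.H1 r) (x y : D.E r), dist (h • x) (h • y) = dist x y
  Xcat : ∀ q, LibBD85.IsCAT0 (D.X q)
  Ecat : ∀ r, LibBD85.IsCAT0 (D.E r)
  Eproper : ∀ r, ProperSpace (D.E r)
  Ene : ∀ r, Nonempty (D.E r)

/-- the output of the construction -/
structure GG.Out (D : GG G) (Ω : Type) [MetricSpace Ω] [MulAction G Ω] (p : ∀ q, D.X q → Ω) : Prop where
  cat0 : LibBD85.IsCAT0 Ω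
  iso : ∀ (g : G) (x y : Ω), dist (g • x) (g • y) = dist x y
  equi : ∀ q (k : D.H0 q) (x : D.X q), (k : G) • p q x = p q (k • x)
  pdist : ∀ q (x y : D.X q), dist (p q x) (p q y) = dist x y
  strip : ∀ r (z z' : D.E r), dist (D.c r • p (D.o r) (D.a r z)) (D.c' r • p (D.t r) (D.b r z')) ≤ √(dist z z' ^ 2 + D.δ ^ 2)
  lip : ∀ φ : ∀ q, G → D.X q → ℝ, (∀ q g (k : D.H0 q) x, φ q (g * k) x = φ q g (k • x)) →
    (∀ q g x y, |φ q g x - φ q g y| ≤ dist x y) →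
    (∀ r g z z', |φ (D.o r) (g * D.c r) (D.a r z) - φ (D.t r) (g * D.c' r) (D.b r z')| ≤ √(dist z z' ^ 2 + D.δ ^ 2)) →
    ∀ q q' g g' x x', |φ q g x - φ q' g' x'| ≤ dist (g • p q x) (g' • p q' x')
  proper : (∀ q, PA (D.H0 q) (D.X q)) → (∀ r, PA (D.H1 r) (D.E r)) → PA G Ω
  cocompact : Finite D.Q0 → Finite D.Q1 → (∀ q, CA (D.H0 q) (D.X q)) → (∀ r, CA (D.H1 r) (D.E r)) → CA G Ω

end Pool.Agent.LibCF24
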