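import Pool.Agent.LibCF24.LDefs

/-! Row L1 (MEDIUM). The tree of balls is good, proper and cocompact. LDefs, T1, T2, M1.

Tree: `GG.tree_of` (T2) with `V0 = Fr k`, `V1 = Fr k × Fin k` (left multiplication on the first component), `v () = 1`, `w i = (1, i)` (stabilisers trivial), and `cayley_tree` (T1);
`g ≠ g * of i`. `a`, `b` isometries; `aeq`, `beq`, `Xiso`, `Eiso`: the group is trivial. `Xcat`: the ball is convex, `isCAT0_convex` for the set `{x | ‖x‖ ≤ R}`. `Ecat`: isometries of `ℝ^d` preserve midpoints / segments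
(`IsometryEquiv.toRealAffineIsometryEquiv`), so `{x | ‖g⁻¹ x‖ ≤ R}` is convex. `Eproper`: closed subset of a proper space. `Ene`: `z = ρ (a_i) 0`. `PA` of the trivial group: finite. `CA`: `K = univ` compact. -/

set_option autoImplicit false

noncomputable section

open Set

namespace Pool.Agent.LibCF24

/-- left multiplication on the first component -/
@[reducible] private def L1_act (k : ℕ) : MulAction (Fr k) (Fr k × Fin k) where
  smul g p := (g * p.1, p.2)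
  one_smul p := by
    show ((1 : Fr k) * p.1, p.2) = p
    rw [one_mul]
  mul_smul g h p := by
    show ((g * h) * p.1, p.2) = (g * (h * p.1), p.2)
    rw [mul_assoc]

private lemma L1_tree {k d : ℕ} (ρ : Fr k →* (Ed d ≃ᵢ Ed d)) (ε R : ℝ) :
    (balls k d ρ ε R).tree.IsTree ∧
      ∀ e : (balls k d ρ ε R).V1, (balls k d ρ ε R).oV e ≠ (balls k d ρ ε R).tV e := by
  let _ : MulAction (Fr k) (Fr k × Fin k) := L1_act k
  refine GG.tree_of (balls k d ρ ε R) (V0 := Fr k) (V1 := Fr k × Fin k)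
    (fun p => p.1) (fun p => p.1 * FreeGroup.of p.2) ?_ ?_ (fun _ => 1) (fun i => ((1 : Fr k), i))
    ?_ ?_ ?_ ?_ ?_ ?_ ?_ ?_ (cayley_tree k) ?_
  · intro g e
    rfl
  · intro g e
    show (g * e.1) * FreeGroup.of e.2 = g * (e.1 * FreeGroup.of e.2)
    rw [mul_assoc]
  · intro q
    show MulAction.stabilizer (Fr k) (1 : Fr k) = ⊥
    rw [eq_bot_iff]
    intro g hg
    rw [MulAction.mem_stabilizer_iff, smul_eq_mul, mul_one] at hg
    exact Subgroup.mem_bot.2 hg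
  · intro x
    refine ⟨(), x, ?_⟩
    show x = x * 1
    rw [mul_one]
  · intro q q' g _
    rfl
  · intro (r : Fin k)
    show MulAction.stabilizer (Fr k) ((1 : Fr k), r) = ⊥
    rw [eq_bot_iff]
    intro g hg
    rw [MulAction.mem_stabilizer_iff] at hg
    have h1 : (g * 1, r) = ((1 : Fr k), r) := hg
    have h2 := congrArg Prod.fst h1
    rw [Subgroup.mem_bot, ← mul_one g]
    exact h2
  · intro x
    refine ⟨x.2, x.1, ?_⟩
    show x = (x.1 * 1, x.2)
    rw [mul_one]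
  · intro r r' g h
    have h1 : (g * 1, r) = ((1 : Fr k), r') := h
    exact congrArg Prod.snd h1
  · intro r
    show (1 : Fr k) = 1 * 1
    rw [mul_one]
  · intro (r : Fin k)
    show (1 : Fr k) * FreeGroup.of r = FreeGroup.of r * 1
    rw [mul_one, one_mul]
  · intro e h
    have h1 : e.1 = e.1 * FreeGroup.of e.2 := h
    exact FreeGroup.of_ne_one e.2 (left_eq_mul.1 h1)

private lemma L1_ball_convex {d : ℕ} (g : Ed d ≃ᵢ Ed d) (R : ℝ) :
    {x : Ed d | ‖x‖ ≤ R ∧ ‖g⁻¹ x‖ ≤ R} =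
      Metric.closedBall (0 : Ed d) R ∩ Metric.closedBall (g 0) R := by
  ext x
  have h1 : ‖g⁻¹ x‖ = dist x (g 0) := by
    have h2 : dist (g (g⁻¹ x)) (g 0) = dist (g⁻¹ x) 0 := g.isometry.dist_eq _ _
    have h3 : g (g⁻¹ x) = x := g.apply_symm_apply x
    rw [h3] at h2
    rw [h2, dist_zero_right]
  rw [Set.mem_inter_iff, Metric.mem_closedBall, Metric.mem_closedBall, Set.mem_ofPred_eq, h1,
    dist_zero_right]

private lemma L1_ball {d : ℕ} (R : ℝ) :
    {x : Ed d | ‖x‖ ≤ R} = Metric.closedBall (0 : Ed d) R := by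
  ext x
  rw [Metric.mem_closedBall, Set.mem_ofPred_eq, dist_zero_right]

private lemma L1_Xcat {d : ℕ} (R : ℝ) : LibBD85.IsCAT0 {x : Ed d // ‖x‖ ≤ R} := by
  have h : Convex ℝ {x : Ed d | ‖x‖ ≤ R} := by
    rw [L1_ball]
    exact convex_closedBall _ _
  exact isCAT0_convex h

private lemma L1_Ecat {d : ℕ} (g : Ed d ≃ᵢ Ed d) (R : ℝ) :
    LibBD85.IsCAT0 {x : Ed d // ‖x‖ ≤ R ∧ ‖g⁻¹ x‖ ≤ R} := by
  have h : Convex ℝ {x : Ed d | ‖x‖ ≤ R ∧ ‖g⁻¹ x‖ ≤ R} := by
    rw [L1_ball_convex]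
    exact (convex_closedBall _ _).inter (convex_closedBall _ _)
  exact isCAT0_convex h

private lemma L1_Xcompact {d : ℕ} (R : ℝ) : CompactSpace {x : Ed d // ‖x‖ ≤ R} := by
  have h : IsCompact {x : Ed d | ‖x‖ ≤ R} := by
    rw [L1_ball]
    exact isCompact_closedBall _ _
  exact isCompact_iff_compactSpace.1 h

private lemma L1_Ecompact {d : ℕ} (g : Ed d ≃ᵢ Ed d) (R : ℝ) :
    CompactSpace {x : Ed d // ‖x‖ ≤ R ∧ ‖g⁻¹ x‖ ≤ R} := by
  have h : IsCompact {x : Ed d | ‖x‖ ≤ R ∧ ‖g⁻¹ x‖ ≤ R} := by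
    rw [L1_ball_convex]
    exact (isCompact_closedBall _ _).inter_right Metric.isClosed_closedBall
  exact isCompact_iff_compactSpace.1 h

theorem balls_good {k d : ℕ} (ρ : Fr k →* (Ed d ≃ᵢ Ed d)) {ε R : ℝ} (hε : 0 < ε)
    (hR : ∀ i, ‖ρ (FreeGroup.of i) 0‖ ≤ R) (hR0 : 0 ≤ R) : (balls k d ρ ε R).Good := by
  refine
    { δpos := hε
      tree := (L1_tree ρ ε R).1
      ne := (L1_tree ρ ε R).2
      aiso := ?_
      biso := ?_
      aeq := ?_
      beq := ?_
      Xiso := ?_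
      Eiso := ?_
      Xcat := ?_
      Ecat := ?_
      Eproper := ?_
      Ene := ?_ }
  · intro r
    exact Isometry.of_dist_eq (fun x y => rfl)
  · intro r
    refine Isometry.of_dist_eq (fun x y => ?_)
    exact ((ρ (FreeGroup.of r))⁻¹).isometry.dist_eq x.1 y.1
  · intro r h z
    rfl
  · intro r h z
    rfl
  · intro q h x y
    rfl
  · intro r h x y
    rfl
  · intro q
    exact L1_Xcat R
  · intro r
    exact L1_Ecat (ρ (FreeGroup.of r)) R
  · intro r
    have := L1_Ecompact (ρ (FreeGroup.of r)) R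
    exact (inferInstance : ProperSpace {x : Ed d // ‖x‖ ≤ R ∧ ‖(ρ (FreeGroup.of r))⁻¹ x‖ ≤ R})
  · intro r
    refine ⟨(⟨ρ (FreeGroup.of r) 0, hR r, ?_⟩ :
      {x : Ed d // ‖x‖ ≤ R ∧ ‖(ρ (FreeGroup.of r))⁻¹ x‖ ≤ R})⟩
    have h3 : (ρ (FreeGroup.of r))⁻¹ (ρ (FreeGroup.of r) 0) = 0 :=
      (ρ (FreeGroup.of r)).symm_apply_apply 0
    rw [h3, norm_zero]
    exact hR0

theorem balls_PA {k d : ℕ} (ρ : Fr k →* (Ed d ≃ᵢ Ed d)) (ε R : ℝ) :
    (∀ q, PA ((balls k d ρ ε R).H0 q) ((balls k d ρ ε R).X q)) ∧ ∀ r, PA ((balls k d ρ ε R).H1 r) ((balls k d ρ ε R).E r) := by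
  constructor
  · intro q x
    refine ⟨1, one_pos, ?_⟩
    have : Finite ((balls k d ρ ε R).H0 q) :=
      (inferInstance : Finite (⊥ : Subgroup (Fr k)))
    exact Set.toFinite _
  · intro r x
    refine ⟨1, one_pos, ?_⟩
    have : Finite ((balls k d ρ ε R).H1 r) :=
      (inferInstance : Finite (⊥ : Subgroup (Fr k)))
    exact Set.toFinite _

theorem balls_CA {k d : ℕ} (ρ : Fr k →* (Ed d ≃ᵢ Ed d)) (ε R : ℝ) :
    (∀ q, CA ((balls k d ρ ε R).H0 q) ((balls k d ρ ε R).X q)) ∧ ∀ r, CA ((balls k d ρ ε R).H1 r) ((balls k d ρ ε R).E r) := by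
  constructor
  · intro q
    have : CompactSpace ((balls k d ρ ε R).X q) := L1_Xcompact R
    exact ⟨Set.univ, isCompact_univ, fun x => ⟨1, Set.mem_univ _⟩⟩
  · intro r
    have : CompactSpace ((balls k d ρ ε R).E r) := L1_Ecompact (ρ (FreeGroup.of r)) R
    exact ⟨Set.univ, isCompact_univ, fun x => ⟨1, Set.mem_univ _⟩⟩

end Pool.Agent.LibCF24
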