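import Pool.Agent.LibCF24.LDefs

/-! Row L2 (MEDIUM). Upper bound for the displacement of `y` in the tree of balls. ONLY LDefs (uses `GG.Out`: fields `iso`, `strip`, `pdist`).

Let `L = norm y > 0`, `w = y.toWord` (length `L`), `g_s` the product of the first `s` letters, `x_s = z + (s / L) v`, `s = 0 .. L`; `g_L = y`. The points `ρ(g_s)⁻¹ x_t` for `|s - t| ≤ 1` are finitely many: `R₀` is a bound of
their norms. For `R ≥ R₀` let `ω_s = g_s • p () ⟨ρ(g_s)⁻¹ x_s, _⟩`. Letter `a_i` (`g_{s+1} = g_s a_i`): `strip i` with `z := ρ(g_s)⁻¹ x_s`, `z' := ρ(g_s)⁻¹ x_{s+1}` (both in the lens `E i`), multiplied by `g_s` (`iso`, `mul_smul`): `dist ω_s ω_{s+1} ≤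
√(‖x_s - x_{s+1}‖² + ε²) = √(‖v‖²/L² + ε²)`. Letter `a_i⁻¹` (`g_s = g_{s+1} a_i`): the same strip from the other side, `z := ρ(g_{s+1})⁻¹ x_{s+1}`, `z' := ρ(g_{s+1})⁻¹ x_s`. Sum: `L √(‖v‖²/L² + ε²) = √(ε² L² + ‖v‖²)`.
`ω_0 = p () ⟨z, _⟩`, and `ρ(y)⁻¹ x_L = ρ(y)⁻¹ (z + v) = z` by `Axis` (`s = 0`), so `ω_L = y • p () ⟨z, _⟩`. -/

set_option autoImplicit false

noncomputable section

open Set

namespace Pool.Agent.LibCF24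

private theorem L2_inv_mul {k d : ℕ} (ρ : Fr k →* (Ed d ≃ᵢ Ed d)) (g h : Fr k) (x : Ed d) :
    (ρ (g * h))⁻¹ x = (ρ h)⁻¹ ((ρ g)⁻¹ x) := by
  rw [map_mul, mul_inv_rev]
  rfl

/-- one step -/
private theorem L2_step {k d : ℕ} (ρ : Fr k →* (Ed d ≃ᵢ Ed d)) {ε R : ℝ} {Ω : Type}
    [MetricSpace Ω] [MulAction (Fr k) Ω] (p : ∀ q, (balls k d ρ ε R).X q → Ω)
    (hO : (balls k d ρ ε R).Out Ω p) (g : Fr k) (i : Fin k) (a b : Ed d)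
    (h1 : ‖(ρ g)⁻¹ a‖ ≤ R) (h2 : ‖(ρ (g * FreeGroup.of i))⁻¹ a‖ ≤ R) (h3 : ‖(ρ g)⁻¹ b‖ ≤ R)
    (h4 : ‖(ρ (g * FreeGroup.of i))⁻¹ b‖ ≤ R) :
    dist (g • p () ⟨(ρ g)⁻¹ a, h1⟩)
      ((g * FreeGroup.of i) • p () ⟨(ρ (g * FreeGroup.of i))⁻¹ b, h4⟩) ≤
      √(dist a b ^ 2 + ε ^ 2) := by
  have e2 : ‖(ρ (FreeGroup.of i))⁻¹ ((ρ g)⁻¹ a)‖ ≤ R := by
    rw [← L2_inv_mul]
    exact h2
  have e4 : ‖(ρ (FreeGroup.of i))⁻¹ ((ρ g)⁻¹ b)‖ ≤ R := by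
    rw [← L2_inv_mul]
    exact h4
  have h := hO.strip i ⟨(ρ g)⁻¹ a, h1, e2⟩ ⟨(ρ g)⁻¹ b, h3, e4⟩
  change dist ((1 : Fr k) • p () ⟨(ρ g)⁻¹ a, h1⟩)
    (FreeGroup.of i • p () ⟨(ρ (FreeGroup.of i))⁻¹ ((ρ g)⁻¹ b), e4⟩) ≤
    √(dist ((ρ g)⁻¹ a) ((ρ g)⁻¹ b) ^ 2 + ε ^ 2) at h
  rw [one_smul, ((ρ g)⁻¹).isometry.dist_eq] at h
  have e5 : (⟨(ρ (g * FreeGroup.of i))⁻¹ b, h4⟩ : {x : Ed d // ‖x‖ ≤ R}) =
      ⟨(ρ (FreeGroup.of i))⁻¹ ((ρ g)⁻¹ b), e4⟩ := Subtype.ext (L2_inv_mul ρ g _ b)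
  have e6 : p () ⟨(ρ (g * FreeGroup.of i))⁻¹ b, h4⟩ =
      p () ⟨(ρ (FreeGroup.of i))⁻¹ ((ρ g)⁻¹ b), e4⟩ := congrArg (p ()) e5
  rw [e6, mul_smul, hO.iso]
  exact h

theorem balls_upper {k d : ℕ} (ρ : Fr k →* (Ed d ≃ᵢ Ed d)) {ε : ℝ} (hε : 0 < ε) (y : Fr k) (hy : y ≠ 1) (z v : Ed d)
    (hz : Axis (ρ y) z v) :
    ∃ R₀ : ℝ, ∀ R ≥ R₀, ∃ hzR : ‖z‖ ≤ R, ∀ (Ω : Type) (_ : MetricSpace Ω) (_ : MulAction (Fr k) Ω)
      (p : ∀ q, (balls k d ρ ε R).X q → Ω), (balls k d ρ ε R).Out Ω p →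
      dist (p () ⟨z, hzR⟩) (y • p () ⟨z, hzR⟩) ≤ √(ε ^ 2 * (FreeGroup.norm y : ℝ) ^ 2 + ‖v‖ ^ 2) := by
  obtain ⟨w, hw⟩ : ∃ w : List (Fin k × Bool), w = y.toWord := ⟨_, rfl⟩
  obtain ⟨L, hL⟩ : ∃ L : ℕ, L = FreeGroup.norm y := ⟨_, rfl⟩
  have hwL : w.length = L := by rw [hw, hL]; rfl
  have hL0 : L ≠ 0 := by
    rw [hL]
    exact fun h => hy (FreeGroup.norm_eq_zero.1 h)
  have hLr : (0 : ℝ) < L := by exact_mod_cast Nat.pos_of_ne_zero hL0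
  obtain ⟨g, hg⟩ : ∃ g : ℕ → Fr k, g = fun s => FreeGroup.mk (w.take s) := ⟨_, rfl⟩
  obtain ⟨x, hx⟩ : ∃ x : ℕ → Ed d, x = fun s : ℕ => z + ((s : ℝ) / L) • v := ⟨_, rfl⟩
  have hg0 : g 0 = 1 := by
    rw [hg]
    rfl
  have hgL : g L = y := by
    rw [hg]
    show FreeGroup.mk (w.take L) = y
    rw [← hwL, List.take_length, hw, FreeGroup.mk_toWord]
  have hgs : ∀ s, s < L → ∃ i, g (s + 1) = g s * FreeGroup.of i ∨ g s = g (s + 1) * FreeGroup.of i := by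
    intro s hs
    have hs' : s < w.length := by rw [hwL]; exact hs
    have h1 : g (s + 1) = g s * FreeGroup.mk [w[s]] := by
      rw [hg]
      show FreeGroup.mk (w.take (s + 1)) = FreeGroup.mk (w.take s) * FreeGroup.mk [w[s]]
      rw [FreeGroup.mul_mk, List.take_append_getElem hs']
    obtain ⟨i, b, hws⟩ : ∃ i b, w[s] = (i, b) := ⟨_, _, rfl⟩
    refine ⟨i, ?_⟩
    rw [hws] at h1
    cases b with
    | true => exact Or.inl h1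
    | false =>
      right
      have h2 : (FreeGroup.mk [(i, false)] : Fr k) = (FreeGroup.of i)⁻¹ := rfl
      rw [h1, h2, inv_mul_cancel_right]
  have hx0 : x 0 = z := by rw [hx]; simp
  have hxL : x L = z + v := by
    rw [hx]
    show z + ((L : ℝ) / L) • v = z + v
    rw [div_self hLr.ne', one_smul]
  have hxs : ∀ s, dist (x s) (x (s + 1)) = ‖v‖ / L := by
    intro s
    rw [hx, dist_eq_norm]
    show ‖z + ((s : ℝ) / L) • v - (z + (((s + 1 : ℕ) : ℝ) / L) • v)‖ = ‖v‖ / L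
    have h1 : z + ((s : ℝ) / L) • v - (z + (((s + 1 : ℕ) : ℝ) / L) • v) = -((1 / (L : ℝ)) • v) := by
      have h2 : (((s + 1 : ℕ) : ℝ) / L) = (s : ℝ) / L + 1 / L := by
        push_cast
        ring
      rw [h2, add_smul]
      abel
    rw [h1, norm_neg, norm_smul, Real.norm_of_nonneg (by positivity)]
    ring
  have hyz : (ρ y)⁻¹ (z + v) = z := by
    have h1 := hz 0
    rw [zero_smul, add_zero, zero_add, one_smul] at h1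
    rw [← h1]
    exact (ρ y).symm_apply_apply z
  refine ⟨∑ s ∈ Finset.range (L + 1), ∑ t ∈ Finset.range (L + 1), ‖(ρ (g s))⁻¹ (x t)‖,
    fun R hR => ?_⟩
  have hb : ∀ s t, s ≤ L → t ≤ L → ‖(ρ (g s))⁻¹ (x t)‖ ≤ R := by
    intro s t hs ht
    refine le_trans ?_ hR
    refine le_trans ?_ (Finset.single_le_sum (f := fun s => ∑ t ∈ Finset.range (L + 1),
      ‖(ρ (g s))⁻¹ (x t)‖) (fun s _ => Finset.sum_nonneg fun t _ => norm_nonneg _)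
      (Finset.mem_range.2 (Nat.lt_succ_of_le hs)))
    exact Finset.single_le_sum (f := fun t => ‖(ρ (g s))⁻¹ (x t)‖) (fun t _ => norm_nonneg _)
      (Finset.mem_range.2 (Nat.lt_succ_of_le ht))
  have h1z : (ρ (g 0))⁻¹ (x 0) = z := by
    rw [hg0, hx0, map_one, inv_one]
    rfl
  have hzR : ‖z‖ ≤ R := by
    have := hb 0 0 (Nat.zero_le _) (Nat.zero_le _)
    rwa [h1z] at this
  refine ⟨hzR, fun Ω _ _ p hO => ?_⟩
  obtain ⟨q, hq⟩ : ∃ q : Ed d → Ω, ∀ u (h : ‖u‖ ≤ R), q u = p () ⟨u, h⟩ := by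
    classical
    exact ⟨fun u => if h : ‖u‖ ≤ R then p () ⟨u, h⟩ else p () ⟨z, hzR⟩, fun u h => dif_pos h⟩
  have hstep : ∀ s, s < L → dist (g s • q ((ρ (g s))⁻¹ (x s)))
      (g (s + 1) • q ((ρ (g (s + 1)))⁻¹ (x (s + 1)))) ≤ √((‖v‖ / L) ^ 2 + ε ^ 2) := by
    intro s hs
    have b1 := hb s s hs.le hs.le
    have b2 := hb s (s + 1) hs.le hs
    have b3 := hb (s + 1) s hs hs.le
    have b4 := hb (s + 1) (s + 1) hs hs
    rw [hq _ b1, hq _ b4, ← hxs s]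
    obtain ⟨i, h | h⟩ := hgs s hs
    · have b3' : ‖(ρ (g s * FreeGroup.of i))⁻¹ (x s)‖ ≤ R := by rw [← h]; exact b3
      have b4' : ‖(ρ (g s * FreeGroup.of i))⁻¹ (x (s + 1))‖ ≤ R := by rw [← h]; exact b4
      have h5 := L2_step ρ p hO (g s) i (x s) (x (s + 1)) b1 b3' b2 b4'
      rw [← hq _ b4'] at h5
      rw [← hq _ b4, h]
      exact h5
    · have b1' : ‖(ρ (g (s + 1) * FreeGroup.of i))⁻¹ (x s)‖ ≤ R := by rw [← h]; exact b1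
      have b2' : ‖(ρ (g (s + 1) * FreeGroup.of i))⁻¹ (x (s + 1))‖ ≤ R := by rw [← h]; exact b2
      have h5 := L2_step ρ p hO (g (s + 1)) i (x (s + 1)) (x s) b4 b2' b3 b1'
      rw [← hq _ b1', dist_comm, dist_comm (x (s + 1))] at h5
      rw [← hq _ b1, h]
      exact h5
  have hsum := dist_le_range_sum_dist (fun s => g s • q ((ρ (g s))⁻¹ (x s))) L
  have hfin : dist (g 0 • q ((ρ (g 0))⁻¹ (x 0))) (g L • q ((ρ (g L))⁻¹ (x L))) ≤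
      L * √((‖v‖ / L) ^ 2 + ε ^ 2) := by
    refine hsum.trans ?_
    calc ∑ s ∈ Finset.range L, dist (g s • q ((ρ (g s))⁻¹ (x s)))
          (g (s + 1) • q ((ρ (g (s + 1)))⁻¹ (x (s + 1)))) ≤
          ∑ _s ∈ Finset.range L, √((‖v‖ / L) ^ 2 + ε ^ 2) :=
          Finset.sum_le_sum fun s hs => hstep s (Finset.mem_range.1 hs)
      _ = L * √((‖v‖ / L) ^ 2 + ε ^ 2) := by
          rw [Finset.sum_const, Finset.card_range, nsmul_eq_mul]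
  rw [h1z, hgL, hxL, hyz, hg0, one_smul, hq z hzR] at hfin
  refine hfin.trans (le_of_eq ?_)
  rw [← hL]
  have h6 : (L : ℝ) = √((L : ℝ) ^ 2) := (Real.sqrt_sq hLr.le).symm
  rw [h6, ← Real.sqrt_mul (sq_nonneg _), Real.sqrt_sq hLr.le]
  congr 1
  field_simp
  ring

end Pool.Agent.LibCF24
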