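import Pool.Agent.LibCF24.LDefs

/-! Row L3 (MEDIUM). Lower bound for the displacement of `y ^ n` in the tree of balls. ONLY LDefs (uses `GG.Out.lip`).

`norm_pow`: for a cyclically reduced word the powers are reduced as written (`FreeGroup.IsCyclicallyReduced.flatten_replicate` and relatives).
`balls_lower`: `L = norm y`, `c = √(ε² L² + ‖v‖²) > 0`, `n` fixed. `β g = n L - norm (g⁻¹ y^n)`: `β 1 = 0`, `β (y^n) = n L`, `|β g - β (g a_i)| ≤ 1`.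
`φ () g x = (ε² L β g + ⟪ρ g x, v⟫) / c` (`ρ g x` for `x : {x // ‖x‖ ≤ R}`). `hφ0`: `k = 1`. `h1`: `|⟪ρ g x - ρ g y, v⟫| ≤ ‖x - y‖ ‖v‖ ≤ c ‖x - y‖`. `h2`: (`c r = 1`, `c' r = a_i`) the difference is
`(ε² L (β g - β (g a_i)) + ⟪ρ g z - ρ g z', v⟫) / c` because `ρ (g a_i) (ρ (a_i)⁻¹ z') = ρ g z'`; by Cauchy-Schwarz `ε · ε L + ‖z - z'‖ ‖v‖ ≤ √(ε² + ‖z-z'‖²) c`.
Value at `(y^n, z)` minus value at `(1, z)`: `(ε² L · n L + ⟪n v, v⟫) / c = n c`, since `ρ (y^n) z = z + n v` (induction with `Axis`). -/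

set_option autoImplicit false

noncomputable section

open Set

namespace Pool.Agent.LibCF24

theorem norm_pow_cyc {k : ℕ} (y : Fr k) (hy : FreeGroup.IsCyclicallyReduced y.toWord) (n : ℕ) :
    FreeGroup.norm (y ^ n) = n * FreeGroup.norm y := by
  have h1 : y ^ n = FreeGroup.mk (List.replicate n y.toWord).flatten := by
    rw [← FreeGroup.pow_mk, FreeGroup.mk_toWord]
  unfold FreeGroup.norm
  rw [h1, FreeGroup.toWord_mk, (hy.flatten_replicate n).isReduced.reduce_eq]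
  simp

private theorem L3_cs {a b A B : ℝ} :
    a * A + b * B ≤ √(b ^ 2 + a ^ 2) * √(A ^ 2 + B ^ 2) := by
  rw [← Real.sqrt_mul (by positivity)]
  apply Real.le_sqrt_of_sq_le
  nlinarith [sq_nonneg (a * B - b * A)]

private theorem L3_norm_of {k : ℕ} (i : Fin k) (h : Fr k) :
    |(FreeGroup.norm ((FreeGroup.of i)⁻¹ * h) : ℝ) - (FreeGroup.norm h : ℝ)| ≤ 1 := by
  have h1 : FreeGroup.norm ((FreeGroup.of i)⁻¹ * h) ≤ 1 + FreeGroup.norm h := by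
    refine (FreeGroup.norm_mul_le _ _).trans ?_
    rw [FreeGroup.norm_inv_eq, FreeGroup.norm_of]
  have h2 : FreeGroup.norm h ≤ 1 + FreeGroup.norm ((FreeGroup.of i)⁻¹ * h) := by
    have h3 := FreeGroup.norm_mul_le (FreeGroup.of i) ((FreeGroup.of i)⁻¹ * h)
    rwa [mul_inv_cancel_left, FreeGroup.norm_of] at h3
  have h1' : (FreeGroup.norm ((FreeGroup.of i)⁻¹ * h) : ℝ) ≤ 1 + FreeGroup.norm h := by exact_mod_cast h1
  have h2' : (FreeGroup.norm h : ℝ) ≤ 1 + FreeGroup.norm ((FreeGroup.of i)⁻¹ * h) := by exact_mod_cast h2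
  rw [abs_le]
  constructor <;> linarith

private theorem L3_axis {k d : ℕ} (ρ : Fr k →* (Ed d ≃ᵢ Ed d)) (y : Fr k) (z v : Ed d)
    (hz : Axis (ρ y) z v) (n : ℕ) : ρ (y ^ n) z = z + (n : ℝ) • v := by
  induction n with
  | zero =>
    rw [pow_zero, map_one, Nat.cast_zero, zero_smul, add_zero]
    rfl
  | succ n ih =>
    rw [pow_succ', map_mul, IsometryEquiv.mul_apply, ih, hz, Nat.cast_succ]

theorem balls_lower {k d : ℕ} (ρ : Fr k →* (Ed d ≃ᵢ Ed d)) {ε R : ℝ} (hε : 0 < ε) (y : Fr k) (hy : y ≠ 1)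
    (hyc : FreeGroup.IsCyclicallyReduced y.toWord) (z v : Ed d) (hz : Axis (ρ y) z v) (hzR : ‖z‖ ≤ R)
    (Ω : Type) [MetricSpace Ω] [MulAction (Fr k) Ω] (p : ∀ q, (balls k d ρ ε R).X q → Ω) (hp : (balls k d ρ ε R).Out Ω p) (n : ℕ) :
    n * √(ε ^ 2 * (FreeGroup.norm y : ℝ) ^ 2 + ‖v‖ ^ 2) ≤ dist (p () ⟨z, hzR⟩) (y ^ n • p () ⟨z, hzR⟩) := by
  set L : ℝ := (FreeGroup.norm y : ℝ) with hL
  have hL1 : 1 ≤ L := by
    have h1 : FreeGroup.norm y ≠ 0 := fun h => hy (FreeGroup.norm_eq_zero.1 h)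
    rw [hL]
    exact_mod_cast Nat.one_le_iff_ne_zero.2 h1
  set c : ℝ := √(ε ^ 2 * L ^ 2 + ‖v‖ ^ 2) with hc
  have hcpos : 0 < c := by
    rw [hc]
    apply Real.sqrt_pos.2
    have : 0 < ε ^ 2 * L ^ 2 := by positivity
    positivity
  have hc2 : c ^ 2 = ε ^ 2 * L ^ 2 + ‖v‖ ^ 2 := by
    rw [hc]
    exact Real.sq_sqrt (by positivity)
  have hvc : ‖v‖ ≤ c := by
    rw [hc]
    apply Real.le_sqrt_of_sq_le
    nlinarith [mul_nonneg (sq_nonneg ε) (sq_nonneg L)]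
  let β : Fr k → ℝ := fun g => n * L - (FreeGroup.norm (g⁻¹ * y ^ n) : ℝ)
  have hβ1 : β 1 = 0 := by
    show n * L - (FreeGroup.norm ((1 : Fr k)⁻¹ * y ^ n) : ℝ) = 0
    rw [inv_one, one_mul, norm_pow_cyc y hyc n]
    push_cast
    rw [hL]
    ring
  have hβn : β (y ^ n) = n * L := by
    show n * L - (FreeGroup.norm ((y ^ n)⁻¹ * y ^ n) : ℝ) = n * L
    rw [inv_mul_cancel, FreeGroup.norm_one]
    simp
  have hβd : ∀ (g : Fr k) (i : Fin k), |β g - β (g * FreeGroup.of i)| ≤ 1 := by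
    intro g i
    have h1 := L3_norm_of i (g⁻¹ * y ^ n)
    have h2 : β g - β (g * FreeGroup.of i) =
        (FreeGroup.norm ((FreeGroup.of i)⁻¹ * (g⁻¹ * y ^ n)) : ℝ) - (FreeGroup.norm (g⁻¹ * y ^ n) : ℝ) := by
      show (n * L - (FreeGroup.norm (g⁻¹ * y ^ n) : ℝ)) -
        (n * L - (FreeGroup.norm ((g * FreeGroup.of i)⁻¹ * y ^ n) : ℝ)) = _
      rw [mul_inv_rev, mul_assoc]
      ring
    rw [h2]
    exact h1
  let f : Fr k → {x : Ed d // ‖x‖ ≤ R} → ℝ := fun g x => (ε ^ 2 * L * β g + inner ℝ (ρ g x.1) v) / c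
  have hdist : ∀ (g : Fr k) (x x' : Ed d), |inner ℝ (ρ g x - ρ g x') v| ≤ ‖x - x'‖ * ‖v‖ := by
    intro g x x'
    refine (abs_real_inner_le_norm _ _).trans ?_
    rw [← dist_eq_norm, (ρ g).dist_eq, dist_eq_norm]
  have key := hp.lip (fun _ g x => f g x) (by
      intro q g k' x
      have h1 : (k' : Fr k) = 1 := Subgroup.mem_bot.1 k'.2
      show f (g * k') x = f g x
      rw [h1, mul_one]) (by
      intro q g x x'
      show |f g x - f g x'| ≤ ‖(x : {x : Ed d // ‖x‖ ≤ R}).1 - (x' : {x : Ed d // ‖x‖ ≤ R}).1‖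
      have h1 : f g x - f g x' = inner ℝ (ρ g (x : {x : Ed d // ‖x‖ ≤ R}).1 -
          ρ g (x' : {x : Ed d // ‖x‖ ≤ R}).1) v / c := by
        show (ε ^ 2 * L * β g + inner ℝ (ρ g (x : {x : Ed d // ‖x‖ ≤ R}).1) v) / c -
          (ε ^ 2 * L * β g + inner ℝ (ρ g (x' : {x : Ed d // ‖x‖ ≤ R}).1) v) / c = _
        rw [inner_sub_left]
        ring
      rw [h1, abs_div, abs_of_pos hcpos, div_le_iff₀ hcpos]
      exact (hdist g _ _).trans (mul_le_mul_of_nonneg_left hvc (norm_nonneg _))) (by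
      intro (r : Fin k) g x x'
      let a := (x : {x : Ed d // ‖x‖ ≤ R ∧ ‖(ρ (FreeGroup.of r))⁻¹ x‖ ≤ R}).1
      let a' := (x' : {x : Ed d // ‖x‖ ≤ R ∧ ‖(ρ (FreeGroup.of r))⁻¹ x‖ ≤ R}).1
      have ha : ‖a‖ ≤ R := (x : {x : Ed d // ‖x‖ ≤ R ∧ ‖(ρ (FreeGroup.of r))⁻¹ x‖ ≤ R}).2.1
      have ha' : ‖(ρ (FreeGroup.of r))⁻¹ a'‖ ≤ R :=
        (x' : {x : Ed d // ‖x‖ ≤ R ∧ ‖(ρ (FreeGroup.of r))⁻¹ x‖ ≤ R}).2.2
      show |f (g * 1) ⟨a, ha⟩ - f (g * FreeGroup.of r) ⟨(ρ (FreeGroup.of r))⁻¹ a', ha'⟩| ≤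
        √(dist a a' ^ 2 + ε ^ 2)
      have h1 : f (g * 1) ⟨a, ha⟩ - f (g * FreeGroup.of r) ⟨(ρ (FreeGroup.of r))⁻¹ a', ha'⟩ =
          (ε ^ 2 * L * (β g - β (g * FreeGroup.of r)) + inner ℝ (ρ g a - ρ g a') v) / c := by
        show (ε ^ 2 * L * β (g * 1) + inner ℝ (ρ (g * 1) a) v) / c -
          (ε ^ 2 * L * β (g * FreeGroup.of r) +
            inner ℝ (ρ (g * FreeGroup.of r) ((ρ (FreeGroup.of r))⁻¹ a')) v) / c = _
        have h2 : ρ (g * FreeGroup.of r) ((ρ (FreeGroup.of r))⁻¹ a') = ρ g a' := by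
          rw [map_mul, IsometryEquiv.mul_apply, IsometryEquiv.apply_inv_self]
        rw [h2, mul_one, inner_sub_left]
        ring
      rw [h1, abs_div, abs_of_pos hcpos, div_le_iff₀ hcpos, dist_eq_norm]
      have h3 : |ε ^ 2 * L * (β g - β (g * FreeGroup.of r))| ≤ ε * (ε * L) := by
        rw [abs_mul, abs_of_nonneg (by positivity)]
        calc ε ^ 2 * L * |β g - β (g * FreeGroup.of r)| ≤ ε ^ 2 * L * 1 :=
              mul_le_mul_of_nonneg_left (hβd g r) (by positivity)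
          _ = ε * (ε * L) := by ring
      calc |ε ^ 2 * L * (β g - β (g * FreeGroup.of r)) + inner ℝ (ρ g a - ρ g a') v| ≤
            |ε ^ 2 * L * (β g - β (g * FreeGroup.of r))| + |inner ℝ (ρ g a - ρ g a') v| := abs_add_le _ _
        _ ≤ ε * (ε * L) + ‖a - a'‖ * ‖v‖ := add_le_add h3 (hdist g a a')
        _ ≤ √(‖a - a'‖ ^ 2 + ε ^ 2) * √((ε * L) ^ 2 + ‖v‖ ^ 2) := L3_cs
        _ = √(‖a - a'‖ ^ 2 + ε ^ 2) * c := by rw [hc, mul_pow]) () () 1 (y ^ n) ⟨z, hzR⟩ ⟨z, hzR⟩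
  have h1 : f 1 ⟨z, hzR⟩ - f (y ^ n) ⟨z, hzR⟩ = -(n * c) := by
    show (ε ^ 2 * L * β 1 + inner ℝ (ρ 1 z) v) / c - (ε ^ 2 * L * β (y ^ n) + inner ℝ (ρ (y ^ n) z) v) / c = _
    rw [hβ1, hβn, L3_axis ρ y z v hz n, map_one]
    have h2 : (1 : Ed d ≃ᵢ Ed d) z = z := rfl
    rw [h2, inner_add_left, inner_smul_left, real_inner_self_eq_norm_sq]
    have h3 : (starRingEnd ℝ) (n : ℝ) = n := rfl
    rw [h3]
    field_simp
    rw [hc2]
    ring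
  have h4 : |f 1 ⟨z, hzR⟩ - f (y ^ n) ⟨z, hzR⟩| = n * c := by
    rw [h1, abs_neg, abs_of_nonneg (by positivity)]
  have h5 : |f 1 ⟨z, hzR⟩ - f (y ^ n) ⟨z, hzR⟩| ≤
      dist ((1 : Fr k) • p () ⟨z, hzR⟩) (y ^ n • p () ⟨z, hzR⟩) := key
  rw [h4, one_smul] at h5
  exact h5

end Pool.Agent.LibCF24
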