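import Pool.Agent.LibCF24.Defs

/-! Row L4 (MEDIUM). The axis lemma. ONLY Defs.

Let `σ` be a geodesic from `x₀` to `g • x₀`, length `c` (`n = 1` in `h`). `γ s = g ^ ⌊s / c⌋ • σ (s - c ⌊s / c⌋)` (integer powers). `g • γ s = γ (s + c)`. `dist (γ s) (γ s') ≤ |s - s'|`: in the same interval by `σ`, otherwise through the points
`γ (m c) = g ^ m • x₀` (telescoping: `dist (g^m x₀) (g^(m+1) x₀) = c`). Lower bound for `s ≤ s'`: with `m c ≤ s`, `s' ≤ m' c` (`m = ⌊s/c⌋`, `m' = ⌊s'/c⌋ + 1`):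
`(m' - m) c = dist (g^m x₀) (g^m' x₀) ≤ (s - m c) + dist (γ s) (γ s') + (m' c - s')`. (`dist (g^m x₀) (g^m' x₀) = (m' - m) c` by `hiso` and `h`.) -/

set_option autoImplicit false

noncomputable section

open Set

namespace Pool.Agent.LibCF24

theorem axis_exists {G Y : Type} [Group G] [MetricSpace Y] [MulAction G Y] (hY : LibBD85.IsCAT0 Y)
    (hiso : ∀ (g : G) (x y : Y), dist (g • x) (g • y) = dist x y) (g : G) (x₀ : Y) {c : ℝ} (hc : 0 < c)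
    (h : ∀ n : ℕ, dist x₀ (g ^ n • x₀) = n * c) :
    ∃ γ : ℝ → Y, Isometry γ ∧ γ 0 = x₀ ∧ ∀ s, g • γ s = γ (s + c) := by
  have hd1 : dist x₀ (g • x₀) = c := by
    have h1 := h 1
    rwa [pow_one, Nat.cast_one, one_mul] at h1
  obtain ⟨σ, hσ0, hσ1, hσ⟩ := hY.1 x₀ (g • x₀)
  rw [hd1] at hσ1 hσ
  -- distances of the orbit
  have hz : ∀ m m' : ℤ, m ≤ m' → dist (g ^ m • x₀) (g ^ m' • x₀) = (m' - m) * c := by
    intro m m' hm
    obtain ⟨n, hn⟩ := Int.eq_ofNat_of_zero_le (sub_nonneg.2 hm)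
    have h1 : g ^ m' • x₀ = g ^ m • (g ^ n • x₀) := by
      rw [smul_smul, ← zpow_natCast, ← zpow_add]
      congr 2
      omega
    rw [h1, hiso, h n]
    congr 1
    have : ((m' - m : ℤ) : ℝ) = ((n : ℤ) : ℝ) := by rw [hn]
    push_cast at this
    exact this.symm
  set γ : ℝ → Y := fun s => g ^ ⌊s / c⌋ • σ (s - c * ⌊s / c⌋) with hγ
  have hfl : ∀ s : ℝ, 0 ≤ s - c * ⌊s / c⌋ ∧ s - c * ⌊s / c⌋ ≤ c := by
    intro s
    have h1 : (⌊s / c⌋ : ℝ) ≤ s / c := Int.floor_le _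
    have h2 : s / c < ⌊s / c⌋ + 1 := Int.lt_floor_add_one _
    rw [le_div_iff₀ hc] at h1
    rw [div_lt_iff₀ hc] at h2
    constructor
    · nlinarith
    · nlinarith
  have ha : ∀ s : ℝ, dist (g ^ ⌊s / c⌋ • x₀) (γ s) = s - c * ⌊s / c⌋ := by
    intro s
    obtain ⟨h1, h2⟩ := hfl s
    rw [hγ]
    dsimp only
    rw [hiso]
    have h3 := hσ 0 ⟨le_refl _, hc.le⟩ (s - c * ⌊s / c⌋) ⟨h1, h2⟩
    rw [hσ0] at h3
    rw [h3, zero_sub, abs_neg, abs_of_nonneg h1]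
  have hb : ∀ s : ℝ, dist (γ s) (g ^ (⌊s / c⌋ + 1) • x₀) = c - (s - c * ⌊s / c⌋) := by
    intro s
    obtain ⟨h1, h2⟩ := hfl s
    rw [hγ]
    dsimp only
    rw [zpow_add_one, mul_smul, hiso]
    have h3 := hσ (s - c * ⌊s / c⌋) ⟨h1, h2⟩ c ⟨hc.le, le_refl _⟩
    rw [hσ1] at h3
    rw [h3, abs_sub_comm, abs_of_nonneg (sub_nonneg.2 h2)]
  have key : ∀ s s' : ℝ, s ≤ s' → dist (γ s) (γ s') = s' - s := by
    intro s s' hs
    have hm : ⌊s / c⌋ ≤ ⌊s' / c⌋ := Int.floor_le_floor (div_le_div_of_nonneg_right hs hc.le)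
    have hmR : (⌊s / c⌋ : ℝ) ≤ ⌊s' / c⌋ := by exact_mod_cast hm
    apply le_antisymm
    · rcases hm.eq_or_lt with heq | hlt
      · obtain ⟨h1, h2⟩ := hfl s
        obtain ⟨h1', h2'⟩ := hfl s'
        rw [hγ]
        dsimp only
        rw [← heq] at h1' h2' ⊢
        rw [hiso, hσ _ ⟨h1, h2⟩ _ ⟨h1', h2'⟩, abs_sub_comm, abs_of_nonneg (by linarith)]
        linarith
      · have h3 := hz (⌊s / c⌋ + 1) ⌊s' / c⌋ (by omega)
        have h4 := dist_triangle4 (γ s) (g ^ (⌊s / c⌋ + 1) • x₀) (g ^ ⌊s' / c⌋ • x₀) (γ s')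
        rw [hb, ha, h3] at h4
        push_cast at h4
        linarith
    · have h3 := hz ⌊s / c⌋ (⌊s' / c⌋ + 1) (by omega)
      have h4 := dist_triangle4 (g ^ ⌊s / c⌋ • x₀) (γ s) (γ s') (g ^ (⌊s' / c⌋ + 1) • x₀)
      rw [hb, ha, h3] at h4
      push_cast at h4
      linarith
  refine ⟨γ, Isometry.of_dist_eq fun s s' => ?_, ?_, fun s => ?_⟩
  · rcases le_total s s' with hs | hs
    · rw [key s s' hs, Real.dist_eq, abs_sub_comm, abs_of_nonneg (sub_nonneg.2 hs)]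
    · rw [dist_comm, key s' s hs, Real.dist_eq, abs_of_nonneg (sub_nonneg.2 hs)]
  · rw [hγ]
    dsimp only
    rw [zero_div, Int.floor_zero, zpow_zero, one_smul, Int.cast_zero, mul_zero, sub_zero, hσ0]
  · rw [hγ]
    dsimp only
    have h1 : (s + c) / c = s / c + 1 := by
      rw [add_div, div_self hc.ne']
    rw [h1, Int.floor_add_one, add_comm ⌊s / c⌋ 1, zpow_one_add, mul_smul]
    congr 3
    push_cast
    ring

end Pool.Agent.LibCF24
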