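import Pool.Agent.LibCF24.G6
import Pool.Agent.LibCF24.L1
import Pool.Agent.LibCF24.L2
import Pool.Agent.LibCF24.L3
import Pool.Agent.LibCF24.L4

/-! Row L5 (SHORT/MEDIUM). Assembly of the tree of balls. G6 (`GG.Good.space`), L1 - L4.

`R` = maximum of the finitely many `R₀ i` (L2), the `‖ρ (a_i) 0‖` and `0`. `space` gives `Ω`, `p`. `x₀ = p () ⟨z i, _⟩`, `c = √(ε² L² + ‖v‖²) > 0`. `dist x₀ (y^n x₀) ≤ n c`: `balls_upper` and the triangle inequality (`iso`);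
`≥`: `balls_lower`. `axis_exists`. -/

set_option autoImplicit false

noncomputable section

open Set

namespace Pool.Agent.LibCF24

theorem free_space {k d m : ℕ} (ρ : Fr k →* (Ed d ≃ᵢ Ed d)) {ε : ℝ} (hε : 0 < ε) (y : Fin m → Fr k) (hy : ∀ i, y i ≠ 1)
    (hyc : ∀ i, FreeGroup.IsCyclicallyReduced (y i).toWord) (z v : Fin m → Ed d) (hz : ∀ i, Axis (ρ (y i)) (z i) (v i)) :
    ∃ (Y : Type) (_ : MetricSpace Y) (_ : MulAction (Fr k) Y), LibBD85.IsCAT0 Y ∧ Nonempty Y ∧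
      (∀ (g : Fr k) (x x' : Y), dist (g • x) (g • x') = dist x x') ∧ PA (Fr k) Y ∧ CA (Fr k) Y ∧
      ∀ i, ∃ γ : ℝ → Y, Isometry γ ∧ ∀ s, y i • γ s = γ (s + √(ε ^ 2 * (FreeGroup.norm (y i) : ℝ) ^ 2 + ‖v i‖ ^ 2)) := by
  choose R₀ hR₀ using fun i => balls_upper ρ hε (y i) (hy i) (z i) (v i) (hz i)
  set R : ℝ := (∑ i, |R₀ i|) + ∑ j : Fin k, ‖ρ (FreeGroup.of j) 0‖ with hR
  have h0 : 0 ≤ ∑ i, |R₀ i| := Finset.sum_nonneg (fun i _ => abs_nonneg _)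
  have h0' : 0 ≤ ∑ j : Fin k, ‖ρ (FreeGroup.of j) 0‖ := Finset.sum_nonneg (fun i _ => norm_nonneg _)
  have hR0 : 0 ≤ R := by rw [hR]; linarith
  have hRi : ∀ i, R ≥ R₀ i := by
    intro i
    have h1 := Finset.single_le_sum (f := fun i => |R₀ i|) (fun i _ => abs_nonneg _)
      (Finset.mem_univ i)
    have h2 := le_abs_self (R₀ i)
    rw [hR, ge_iff_le]
    linarith
  have hRj : ∀ j, ‖ρ (FreeGroup.of j) 0‖ ≤ R := by
    intro j
    have h1 := Finset.single_le_sum (f := fun j : Fin k => ‖ρ (FreeGroup.of j) 0‖)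
      (fun i _ => norm_nonneg _) (Finset.mem_univ j)
    rw [hR]
    linarith
  have hgood := balls_good ρ hε hRj hR0
  obtain ⟨Ω, mΩ, aΩ, p, hp⟩ := hgood.space
  have hne : Nonempty Ω := ⟨p () ⟨0, by rw [norm_zero]; exact hR0⟩⟩
  refine ⟨Ω, mΩ, aΩ, hp.cat0, hne, hp.iso, hp.proper (balls_PA ρ ε R).1 (balls_PA ρ ε R).2,
    hp.cocompact (inferInstanceAs (Finite Unit)) (inferInstanceAs (Finite (Fin k)))
      (balls_CA ρ ε R).1 (balls_CA ρ ε R).2, ?_⟩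
  intro i
  obtain ⟨hzR, hup⟩ := hR₀ i R (hRi i)
  have hup' := hup Ω mΩ aΩ p hp
  have hL : 0 < (FreeGroup.norm (y i) : ℝ) := by
    have h1 : FreeGroup.norm (y i) ≠ 0 := fun h => hy i (FreeGroup.norm_eq_zero.1 h)
    exact_mod_cast Nat.pos_of_ne_zero h1
  have hc : 0 < √(ε ^ 2 * (FreeGroup.norm (y i) : ℝ) ^ 2 + ‖v i‖ ^ 2) := by
    apply Real.sqrt_pos.2
    have h1 : 0 < ε ^ 2 * (FreeGroup.norm (y i) : ℝ) ^ 2 := by positivity
    have h2 : 0 ≤ ‖v i‖ ^ 2 := by positivity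
    linarith
  have hn : ∀ n : ℕ, dist (p () ⟨z i, hzR⟩) (y i ^ n • p () ⟨z i, hzR⟩) =
      n * √(ε ^ 2 * (FreeGroup.norm (y i) : ℝ) ^ 2 + ‖v i‖ ^ 2) := by
    intro n
    apply le_antisymm
    · induction n with
      | zero => simp
      | succ n ih =>
        have h1 := dist_triangle (p () ⟨z i, hzR⟩) (y i • p () ⟨z i, hzR⟩)
          (y i ^ (n + 1) • p () ⟨z i, hzR⟩)
        have h2 : y i ^ (n + 1) • p () ⟨z i, hzR⟩ = y i • (y i ^ n • p () ⟨z i, hzR⟩) := by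
          rw [smul_smul, pow_succ']
        rw [h2, hp.iso] at h1
        rw [h2]
        push_cast
        linarith
    · exact balls_lower ρ hε (y i) (hy i) (hyc i) (z i) (v i) (hz i) hzR Ω p hp n
  obtain ⟨γ, h1, -, h3⟩ := axis_exists hp.cat0 hp.iso (y i) (p () ⟨z i, hzR⟩) hc hn
  exact ⟨γ, h1, h3⟩

end Pool.Agent.LibCF24
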