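import Pool.Agent.LibCF24.Defs

/-! Row M1 (MEDIUM). Products, convex sets. ONLY Defs.

`isCAT0_prod`: geodesic from `x` to `y`, `d = dist x y = √(d₁² + d₂²)`: `s ↦ (γ₁ (s d₁ / d), γ₂ (s d₂ / d))` (`d = 0`: constant). Bruhat-Tits: `m` with `dist q m = dist r m = D / 2`,
`D = dist q r`. With `a = dist q₁ m₁`, `a' = dist r₁ m₁`, `b`, `b'`: `a² + b² = a'² + b'² = D²/4` and `D² ≤ (a + a')² + (b + b')² = D²/2 + 2 (a a' + b b') ≤ D²`, so equality everywhere:
`a = a'`, `b = b'` (`(a - a')² + (b - b')² = 0`), `dist q₁ r₁ = 2 a`, `dist q₂ r₂ = 2 b`. So `m₁`, `m₂` are midpoints; add the two inequalities. (`WithLp.prod_dist_eq_of_L2`.)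
`isCAT0_convex`: segments; parallelogram law: in an inner product space a point with `dist q m = dist r m = dist q r / 2` is the midpoint (`EuclideanGeometry` / direct computation
`‖q + r - 2 m‖² = 2 ‖q - m‖² + 2 ‖r - m‖² - ‖q - r‖² = 0`), and `‖p - m‖² = (‖p - q‖² + ‖p - r‖²)/2 - ‖q - r‖²/4`. -/

set_option autoImplicit false

noncomputable section

open Set

namespace Pool.Agent.LibCF24

private theorem M1_dist_sq {A B : Type} [MetricSpace A] [MetricSpace B] (x y : WithLp 2 (A × B)) :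
    dist x y ^ 2 = dist x.fst y.fst ^ 2 + dist x.snd y.snd ^ 2 := by
  have h : dist x y = (dist x.fst y.fst ^ (2 : ENNReal).toReal + dist x.snd y.snd ^ (2 : ENNReal).toReal) ^
      (1 / (2 : ENNReal).toReal) := WithLp.prod_dist_eq_add (by norm_num) x y
  have h2 : (2 : ENNReal).toReal = 2 := by norm_num
  rw [h, h2, Real.rpow_two, Real.rpow_two, ← Real.sqrt_eq_rpow, Real.sq_sqrt (by positivity)]

theorem isCAT0_prod {A B : Type} [MetricSpace A] [MetricSpace B] (hA : LibBD85.IsCAT0 A) (hB : LibBD85.IsCAT0 B) :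
    LibBD85.IsCAT0 (WithLp 2 (A × B)) := by
  constructor
  · intro x y
    obtain ⟨γ1, h10, h11, h12⟩ := hA.geodesic x.fst y.fst
    obtain ⟨γ2, h20, h21, h22⟩ := hB.geodesic x.snd y.snd
    have hd := M1_dist_sq x y
    rcases (dist_nonneg (x := x) (y := y)).eq_or_lt with h0 | hpos
    · refine ⟨fun _ => x, rfl, dist_eq_zero.1 h0.symm, ?_⟩
      intro s hs t ht
      rw [← h0] at hs ht
      have hs0 : s = 0 := le_antisymm hs.2 hs.1
      have ht0 : t = 0 := le_antisymm ht.2 ht.1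
      rw [hs0, ht0, dist_self, sub_zero, abs_zero]
    · set d := dist x y with hd_def
      set d1 := dist x.fst y.fst with hd1_def
      set d2 := dist x.snd y.snd with hd2_def
      have hd1 : 0 ≤ d1 := dist_nonneg
      have hd2 : 0 ≤ d2 := dist_nonneg
      refine ⟨fun s => WithLp.toLp 2 (γ1 (s * d1 / d), γ2 (s * d2 / d)), ?_, ?_, ?_⟩
      · simp only [zero_mul, zero_div]
        rw [h10, h20]
        rfl
      · simp only
        rw [mul_div_assoc, mul_div_cancel₀ _ hpos.ne', mul_div_assoc, mul_div_cancel₀ _ hpos.ne', h11, h21]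
        rfl
      · intro s hs t ht
        have hm1 : ∀ s ∈ Icc (0 : ℝ) d, s * d1 / d ∈ Icc (0 : ℝ) d1 := by
          intro s hs
          refine ⟨div_nonneg (mul_nonneg hs.1 hd1) hpos.le, ?_⟩
          rw [div_le_iff₀ hpos, mul_comm d1 d]
          exact mul_le_mul_of_nonneg_right hs.2 hd1
        have hm2 : ∀ s ∈ Icc (0 : ℝ) d, s * d2 / d ∈ Icc (0 : ℝ) d2 := by
          intro s hs
          refine ⟨div_nonneg (mul_nonneg hs.1 hd2) hpos.le, ?_⟩
          rw [div_le_iff₀ hpos, mul_comm d2 d]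
          exact mul_le_mul_of_nonneg_right hs.2 hd2
        have hsq : dist (WithLp.toLp 2 (γ1 (s * d1 / d), γ2 (s * d2 / d)) : WithLp 2 (A × B))
            (WithLp.toLp 2 (γ1 (t * d1 / d), γ2 (t * d2 / d))) ^ 2 = |s - t| ^ 2 := by
          rw [M1_dist_sq]
          change dist (γ1 (s * d1 / d)) (γ1 (t * d1 / d)) ^ 2 + dist (γ2 (s * d2 / d)) (γ2 (t * d2 / d)) ^ 2 = _
          rw [h12 _ (hm1 s hs) _ (hm1 t ht), h22 _ (hm2 s hs) _ (hm2 t ht), sq_abs, sq_abs, sq_abs]
          field_simp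
          linear_combination (-(s - t) ^ 2) * hd
        exact (pow_left_inj₀ dist_nonneg (abs_nonneg _) two_ne_zero).1 hsq
  · intro q r m hqm hrm p
    have e1 := M1_dist_sq q m
    have e2 := M1_dist_sq r m
    have e3 := M1_dist_sq q r
    have e4 := M1_dist_sq p m
    have e5 := M1_dist_sq p q
    have e6 := M1_dist_sq p r
    rw [hqm] at e1
    rw [hrm] at e2
    have t1 : dist q.fst r.fst ≤ dist q.fst m.fst + dist r.fst m.fst := by
      rw [dist_comm r.fst m.fst]
      exact dist_triangle _ _ _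
    have t2 : dist q.snd r.snd ≤ dist q.snd m.snd + dist r.snd m.snd := by
      rw [dist_comm r.snd m.snd]
      exact dist_triangle _ _ _
    have n1 : 0 ≤ dist q.fst r.fst := dist_nonneg
    have n2 : 0 ≤ dist q.snd r.snd := dist_nonneg
    have n3 : 0 ≤ dist q.fst m.fst := dist_nonneg
    have n4 : 0 ≤ dist r.fst m.fst := dist_nonneg
    have n5 : 0 ≤ dist q.snd m.snd := dist_nonneg
    have n6 : 0 ≤ dist r.snd m.snd := dist_nonneg
    have c1 := hA.cn q.fst r.fst m.fst
    have c2 := hB.cn q.snd r.snd m.snd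
    rw [e4, e5, e6, e3]
    generalize dist q r = D at *
    generalize dist q.fst m.fst = a at *
    generalize dist r.fst m.fst = a' at *
    generalize dist q.snd m.snd = b at *
    generalize dist r.snd m.snd = b' at *
    generalize dist q.fst r.fst = P1 at *
    generalize dist q.snd r.snd = P2 at *
    have s1 : P1 ^ 2 ≤ (a + a') ^ 2 := pow_le_pow_left₀ n1 t1 2
    have s2 : P2 ^ 2 ≤ (b + b') ^ 2 := pow_le_pow_left₀ n2 t2 2
    have s3 : (a - a') ^ 2 + (b - b') ^ 2 ≤ 0 := by nlinarith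
    have ha : a = a' := by nlinarith [sq_nonneg (a - a'), sq_nonneg (b - b')]
    have hb : b = b' := by nlinarith [sq_nonneg (a - a'), sq_nonneg (b - b')]
    subst ha hb
    have s4 : P1 ^ 2 = (2 * a) ^ 2 := by nlinarith
    have s5 : P2 ^ 2 = (2 * b) ^ 2 := by nlinarith
    have s6 : P1 = 2 * a := (pow_left_inj₀ n1 (by positivity) two_ne_zero).1 s4
    have s7 : P2 = 2 * b := (pow_left_inj₀ n2 (by positivity) two_ne_zero).1 s5
    have k1 := c1 (by linarith) (by linarith) p.fst
    have k2 := c2 (by linarith) (by linarith) p.snd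
    linarith

private theorem M1_iso {X : Type} [MetricSpace X] {E : Type} [NormedAddCommGroup E] [InnerProductSpace ℝ E]
    (ι : X → E) (hι : Isometry ι)
    (hc : ∀ x y : X, ∀ t ∈ Icc (0 : ℝ) 1, ∃ z, ι z = AffineMap.lineMap (ι x) (ι y) t) : LibBD85.IsCAT0 X := by
  constructor
  · intro x y
    have hz : ∀ t : ℝ, ∃ z, t ∈ Icc (0 : ℝ) 1 → ι z = AffineMap.lineMap (ι x) (ι y) t := by
      intro t
      by_cases ht : t ∈ Icc (0 : ℝ) 1
      · obtain ⟨z, hz⟩ := hc x y t ht
        exact ⟨z, fun _ => hz⟩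
      · exact ⟨x, fun h => absurd h ht⟩
    choose z hz using hz
    have hd : 0 ≤ dist x y := dist_nonneg
    have hm : ∀ s ∈ Icc (0 : ℝ) (dist x y), s / dist x y ∈ Icc (0 : ℝ) 1 := by
      intro s hs
      exact ⟨div_nonneg hs.1 hd, div_le_one_of_le₀ hs.2 hd⟩
    refine ⟨fun s => z (s / dist x y), ?_, ?_, ?_⟩
    · apply hι.injective
      simp only [zero_div]
      rw [hz 0 ⟨le_rfl, zero_le_one⟩, AffineMap.lineMap_apply_zero]
    · apply hι.injective
      simp only
      rcases hd.eq_or_lt with h0 | hpos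
      · rw [← h0, div_zero, hz 0 ⟨le_rfl, zero_le_one⟩, AffineMap.lineMap_apply_zero, dist_eq_zero.1 h0.symm]
      · rw [div_self hpos.ne', hz 1 ⟨zero_le_one, le_rfl⟩, AffineMap.lineMap_apply_one]
    · intro s hs t ht
      rw [← hι.dist_eq, hz _ (hm s hs), hz _ (hm t ht), dist_lineMap_lineMap, hι.dist_eq, Real.dist_eq]
      rcases hd.eq_or_lt with h0 | hpos
      · rw [← h0] at hs ht
        have hs0 : s = 0 := le_antisymm hs.2 hs.1
        have ht0 : t = 0 := le_antisymm ht.2 ht.1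
        rw [hs0, ht0]
        simp
      · rw [← sub_div, abs_div, abs_of_pos hpos, div_mul_cancel₀ _ hpos.ne']
  · intro q r m hqm hrm p
    rw [← hι.dist_eq q m, ← hι.dist_eq q r, dist_eq_norm, dist_eq_norm] at hqm
    rw [← hι.dist_eq r m, ← hι.dist_eq q r, dist_eq_norm, dist_eq_norm] at hrm
    rw [← hι.dist_eq p m, ← hι.dist_eq p q, ← hι.dist_eq p r, ← hι.dist_eq q r, dist_eq_norm, dist_eq_norm,
      dist_eq_norm, dist_eq_norm]
    generalize ι q = Q at *
    generalize ι r = R at *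
    generalize ι m = M at *
    generalize ι p = P at *
    have h1 := parallelogram_law_with_norm ℝ (Q - M) (R - M)
    have h2 : (Q - M) - (R - M) = Q - R := by abel
    rw [h2, hqm, hrm] at h1
    have h3 : ‖(Q - M) + (R - M)‖ = 0 := by
      have : ‖(Q - M) + (R - M)‖ * ‖(Q - M) + (R - M)‖ = 0 := by nlinarith
      exact mul_self_eq_zero.1 this
    have h4 : (Q - M) + (R - M) = 0 := norm_eq_zero.1 h3
    have h5 := parallelogram_law_with_norm ℝ (P - Q) (P - R)
    have h6 : (P - Q) + (P - R) = (2 : ℝ) • (P - M) := by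
      have h7 : (P - Q) + (P - R) = (2 : ℝ) • (P - M) - ((Q - M) + (R - M)) := by
        rw [two_smul]
        abel
      rw [h7, h4, sub_zero]
    have h8 : (P - Q) - (P - R) = -(Q - R) := by abel
    rw [h6, h8, norm_neg, norm_smul, Real.norm_eq_abs, abs_of_pos (by norm_num : (0 : ℝ) < 2)] at h5
    nlinarith

theorem isCAT0_convex {E : Type} [NormedAddCommGroup E] [InnerProductSpace ℝ E] {K : Set E} (hK : Convex ℝ K) :
    LibBD85.IsCAT0 K := by
  apply M1_iso (fun x : K => (x : E)) isometry_subtype_coe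
  intro x y t ht
  exact ⟨⟨AffineMap.lineMap (x : E) (y : E) t, hK.lineMap_mem x.2 y.2 ht⟩, rfl⟩

theorem isCAT0_univ {E : Type} [NormedAddCommGroup E] [InnerProductSpace ℝ E] : LibBD85.IsCAT0 E :=
  M1_iso (fun x : E => x) isometry_id fun x y t _ => ⟨AffineMap.lineMap x y t, rfl⟩

theorem isCAT0_Icc (δ : ℝ) : LibBD85.IsCAT0 (Icc (0 : ℝ) δ) :=
  isCAT0_convex (convex_Icc 0 δ)

end Pool.Agent.LibCF24
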