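import Pool.Agent.LibCF24.T1
import Pool.Agent.LibCF24.T2
import Pool.Agent.LibCF24.M1

/-! # Trees of balls: the graph of spaces of a free group with an isometric action on `ℝ^d` -/

set_option autoImplicit false

noncomputable section

open Set

namespace Pool.Agent.LibCF24

/-- `ℝ^d` -/
abbrev Ed (d : ℕ) : Type := EuclideanSpace ℝ (Fin d)

/-- the free group of rank `k` -/
abbrev Fr (k : ℕ) : Type := FreeGroup (Fin k)

/-- the trivial action of the trivial group -/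
@[reducible] def trivAct {G X : Type} [Group G] : MulAction (⊥ : Subgroup G) X where
  smul _ x := x
  one_smul _ := rfl
  mul_smul _ _ _ := rfl

/-- tree of balls of radius `R` in `ℝ^d` -/
def balls (k d : ℕ) (ρ : Fr k →* (Ed d ≃ᵢ Ed d)) (ε R : ℝ) : GG (Fr k) where
  Q0 := Unit
  Q1 := Fin k
  H0 _ := ⊥
  H1 _ := ⊥
  o _ := ()
  t _ := ()
  c _ := 1
  c' i := FreeGroup.of i
  hc _ h hh := by
    rw [Subgroup.mem_bot] at hh ⊢
    rw [hh]
    group
  hc' _ h hh := by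
    rw [Subgroup.mem_bot] at hh ⊢
    rw [hh]
    group
  X _ := {x : Ed d // ‖x‖ ≤ R}
  E i := {x : Ed d // ‖x‖ ≤ R ∧ ‖(ρ (FreeGroup.of i))⁻¹ x‖ ≤ R}
  mX _ := inferInstance
  mE _ := inferInstance
  aX _ := trivAct
  aE _ := trivAct
  a i z := ⟨z.1, z.2.1⟩
  b i z := ⟨(ρ (FreeGroup.of i))⁻¹ z.1, z.2.2⟩
  δ := ε

/-- `y` translates along the line `z + ℝ v` by `v` -/
def Axis {d : ℕ} (g : Ed d ≃ᵢ Ed d) (z v : Ed d) : Prop := ∀ s : ℝ, g (z + s • v) = z + (s + 1) • v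

end Pool.Agent.LibCF24
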