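import Pool.Agent.LibCF24.M0

/-! Row M2 (SHORT/MEDIUM). The pieces: injectivity, covering, agreement of the metrics. MDefs, M0.

`agree`: by `bip_adj` one of `v`, `w` is `inl v'` and the other `inr e`, with `v' = o e` or `v' = t e` (not both, `h.ne`). A common point is `pt v' x = st e z τ`, and by
`st_eq_pt` all common points have the same `τ` (`0` or `δ`); there `x = a e z` (`st_zero`, `pt_inj'`) or `x = b e z`, and `a e`, `b e` are isometries; the distance in the strip between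
`(z, τ)` and `(z', τ)` is `√(dist z z' ^ 2 + 0) = dist z z'`. -/

set_option autoImplicit false

noncomputable section

open Set

namespace Pool.Agent.LibCF24

variable {V0 V1 : Type} {D : SD V0 V1}

private theorem M2_dist {D : SD V0 V1} (e : V1) (y y' : WithLp 2 (D.E e × Icc (0 : ℝ) D.δ))
    (h : ((WithLp.ofLp y).2 : ℝ) = (WithLp.ofLp y').2) :
    dist y y' = dist (WithLp.ofLp y).1 (WithLp.ofLp y').1 := by
  have h' : (WithLp.ofLp y).2 = (WithLp.ofLp y').2 := Subtype.ext h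
  rw [WithLp.prod_dist_eq_add (by norm_num)]
  show (dist (WithLp.ofLp y).1 (WithLp.ofLp y').1 ^ (2 : ENNReal).toReal +
    dist (WithLp.ofLp y).2 (WithLp.ofLp y').2 ^ (2 : ENNReal).toReal) ^ (1 / (2 : ENNReal).toReal) = _
  rw [h', dist_self, ENNReal.toReal_ofNat, Real.zero_rpow (by norm_num), add_zero,
    ← Real.rpow_mul dist_nonneg]
  norm_num

private theorem M2_key {D : SD V0 V1} (h : D.Good) (e : V1) (v : V0) (x x' : D.X v)
    (y y' : WithLp 2 (D.E e × Icc (0 : ℝ) D.δ))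
    (h1 : D.pt v x = D.st e (WithLp.ofLp y).1 (WithLp.ofLp y).2)
    (h2 : D.pt v x' = D.st e (WithLp.ofLp y').1 (WithLp.ofLp y').2) : dist x x' = dist y y' := by
  rcases h.st_eq_pt D (WithLp.ofLp y).2.2 h1.symm with ⟨ht, hv⟩ | ⟨ht, hv⟩
  · rcases h.st_eq_pt D (WithLp.ofLp y').2.2 h2.symm with ⟨ht', hv'⟩ | ⟨ht', hv'⟩
    · subst hv
      rw [M2_dist e y y' (by rw [ht, ht'])]
      rw [ht, D.st_zero] at h1
      rw [ht', D.st_zero] at h2
      rw [D.pt_inj' h1, D.pt_inj' h2]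
      exact (h.aiso e).dist_eq _ _
    · exact absurd (hv.symm.trans hv') (h.ne e)
  · rcases h.st_eq_pt D (WithLp.ofLp y').2.2 h2.symm with ⟨ht', hv'⟩ | ⟨ht', hv'⟩
    · exact absurd (hv'.symm.trans hv) (h.ne e)
    · subst hv
      rw [M2_dist e y y' (by rw [ht, ht'])]
      rw [ht, D.st_end h.δpos] at h1
      rw [ht', D.st_end h.δpos] at h2
      rw [D.pt_inj' h1, D.pt_inj' h2]
      exact (h.biso e).dist_eq _ _

theorem SD.Good.finj (h : D.Good) (v : V0 ⊕ V1) : Function.Injective (D.f v) := by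
  rcases v with v | e
  · intro x x' hx
    exact D.pt_inj' hx
  · intro y y' hy
    change WithLp 2 (D.E e × Icc (0 : ℝ) D.δ) at y
    change WithLp 2 (D.E e × Icc (0 : ℝ) D.δ) at y'
    have h1 : D.st e (WithLp.ofLp y).1 (WithLp.ofLp y).2 = D.st e (WithLp.ofLp y').1 (WithLp.ofLp y').2 := hy
    obtain ⟨h2, h3⟩ := h.st_inj D (WithLp.ofLp y).2.2 (WithLp.ofLp y').2.2 h1
    exact WithLp.ofLp_injective 2 (Prod.ext h2 (Subtype.ext h3))

theorem SD.Good.cover (h : D.Good) (ω : D.Ω) : ∃ v, ω ∈ range (D.f v) := by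
  rcases ω with ⟨v, x⟩ | ⟨e, z, τ⟩
  · exact ⟨Sum.inl v, x, rfl⟩
  · refine ⟨Sum.inr e, (D.range_inr e _).2 ⟨z, τ, ⟨τ.2.1.le, τ.2.2.le⟩, ?_⟩⟩
    have hτ : 0 < (τ : ℝ) ∧ (τ : ℝ) < D.δ := τ.2
    have h1 : D.st e z τ = Sum.inr ⟨e, z, ⟨τ, hτ⟩⟩ := dif_pos hτ
    exact h1.symm

theorem SD.Good.agree (h : D.Good) (v w : V0 ⊕ V1) (hvw : (bip D.o D.t).Adj v w) (a a' : D.Z v) (b b' : D.Z w)
    (h1 : D.f v a = D.f w b) (h2 : D.f v a' = D.f w b') : dist a a' = dist b b' := by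
  obtain ⟨e, u, hu, ⟨hv, hw⟩ | ⟨hv, hw⟩⟩ := (bip_adj D.o D.t v w).1 hvw
  · subst hv
    subst hw
    exact M2_key h e u a a' b b' h1 h2
  · subst hv
    subst hw
    exact (M2_key h e u b b' a a' h1.symm h2.symm).symm

end Pool.Agent.LibCF24
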