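import Pool.Agent.LibCF24.M0

/-! Row M3 (MEDIUM). Separation. MDefs, M0.

For a point `x` the set of the vertices of `bip` whose piece contains `x` is: for an interior point of the strip `e` only `inr e` (`st_eq_st`, `st_eq_pt`); for `x = pt v x'` the vertex
`inl v` (and no other `inl`) and some of the `inr e` with `o e = v` or `t e = v` (`range_inr`, `st_eq_pt`). So for `u`, `w` in this set either `u = w`, or they are adjacent,
or `u = inr e`, `w = inr e'` both adjacent to `inl v`; the path from `u` to `w` is unique (`h.tree`), so it is `nil`, the edge, or the walk `u, inl v, w` (a path if `u ≠ w`), and all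
vertices of its support belong to the set. -/

set_option autoImplicit false

noncomputable section

open Set

namespace Pool.Agent.LibCF24

variable {V0 V1 : Type} {D : SD V0 V1}

private theorem M3_star {W : Type} {G : SimpleGraph W} (hG : G.IsAcyclic) {c u w : W}
    (hu : u = c ∨ G.Adj u c) (hw : w = c ∨ G.Adj c w) (p : G.Walk u w) (hp : p.IsPath) :
    ∀ v ∈ p.support, v = u ∨ v = w ∨ v = c := by
  classical
  by_cases huw : u = w
  · subst huw
    have h1 : p = SimpleGraph.Walk.nil := SimpleGraph.Walk.eq_nil_iff_nil.2 (SimpleGraph.Walk.isPath_iff_nil.1 hp)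
    subst h1
    intro v hv
    rw [SimpleGraph.Walk.support_nil, List.mem_singleton] at hv
    exact Or.inl hv
  · have key : ∀ q : G.Walk u w, q.IsPath → (∀ v ∈ q.support, v = u ∨ v = w ∨ v = c) →
        ∀ v ∈ p.support, v = u ∨ v = w ∨ v = c := by
      intro q hq h
      have h1 := (hG.subsingleton_path u w).elim ⟨p, hp⟩ ⟨q, hq⟩
      have h2 : p = q := congrArg Subtype.val h1
      rw [h2]
      exact h
    rcases hu with hu | hu
    · subst hu
      rcases hw with hw | hw
      · exact absurd hw.symm huw
      · refine key (SimpleGraph.Walk.cons hw SimpleGraph.Walk.nil) ?_ ?_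
        · rw [SimpleGraph.Walk.cons_isPath_iff]
          refine ⟨SimpleGraph.Walk.IsPath.nil, ?_⟩
          rw [SimpleGraph.Walk.support_nil, List.mem_singleton]
          exact huw
        · intro v hv
          rw [SimpleGraph.Walk.support_cons, SimpleGraph.Walk.support_nil, List.mem_cons,
            List.mem_singleton] at hv
          rcases hv with hv | hv
          · exact Or.inl hv
          · exact Or.inr (Or.inl hv)
    · rcases hw with hw | hw
      · subst hw
        refine key (SimpleGraph.Walk.cons hu SimpleGraph.Walk.nil) ?_ ?_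
        · rw [SimpleGraph.Walk.cons_isPath_iff]
          refine ⟨SimpleGraph.Walk.IsPath.nil, ?_⟩
          rw [SimpleGraph.Walk.support_nil, List.mem_singleton]
          exact huw
        · intro v hv
          rw [SimpleGraph.Walk.support_cons, SimpleGraph.Walk.support_nil, List.mem_cons,
            List.mem_singleton] at hv
          rcases hv with hv | hv
          · exact Or.inl hv
          · exact Or.inr (Or.inl hv)
      · refine key (SimpleGraph.Walk.cons hu (SimpleGraph.Walk.cons hw SimpleGraph.Walk.nil)) ?_ ?_
        · rw [SimpleGraph.Walk.cons_isPath_iff, SimpleGraph.Walk.cons_isPath_iff]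
          refine ⟨⟨SimpleGraph.Walk.IsPath.nil, ?_⟩, ?_⟩
          · rw [SimpleGraph.Walk.support_nil, List.mem_singleton]
            exact hw.ne
          · rw [SimpleGraph.Walk.support_cons, SimpleGraph.Walk.support_nil, List.mem_cons,
              List.mem_singleton]
            rintro (h | h)
            · exact hu.ne h
            · exact huw h
        · intro v hv
          rw [SimpleGraph.Walk.support_cons, SimpleGraph.Walk.support_cons, SimpleGraph.Walk.support_nil,
            List.mem_cons, List.mem_cons, List.mem_singleton] at hv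
          rcases hv with hv | hv | hv
          · exact Or.inl hv
          · exact Or.inr (Or.inr hv)
          · exact Or.inr (Or.inl hv)

theorem SD.Good.sep (h : D.Good) (x : D.Ω) (u w : V0 ⊕ V1) (hu : x ∈ range (D.f u)) (hw : x ∈ range (D.f w))
    (p : (bip D.o D.t).Walk u w) (hp : p.IsPath) : ∀ v ∈ p.support, x ∈ range (D.f v) := by
  rcases x with ⟨v0, x0⟩ | ⟨e, z, τ⟩
  · have hS : ∀ u, (D.pt v0 x0) ∈ range (D.f u) → u = Sum.inl v0 ∨ (bip D.o D.t).Adj u (Sum.inl v0) := by
      intro u hu
      rcases u with v | e
      · obtain ⟨x', hx'⟩ := (D.range_inl v _).1 hu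
        obtain ⟨h1, -⟩ := D.pt_inj hx'
        exact Or.inl (by rw [h1])
      · obtain ⟨z, τ, hτ, he⟩ := (D.range_inr e _).1 hu
        right
        rw [bip_adj]
        refine ⟨e, v0, ?_, Or.inr ⟨rfl, rfl⟩⟩
        rcases h.st_eq_pt D hτ he.symm with h1 | h1
        · exact Or.inl h1.2
        · exact Or.inr h1.2
    have hc : (D.pt v0 x0) ∈ range (D.f (Sum.inl v0)) := (D.range_inl v0 _).2 ⟨x0, rfl⟩
    intro v hv
    rcases M3_star h.tree.2 (hS u hu) ((hS w hw).imp id SimpleGraph.Adj.symm) p hp v hv with h1 | h1 | h1
    · rw [h1]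
      exact hu
    · rw [h1]
      exact hw
    · rw [h1]
      exact hc
  · have hx : (Sum.inr ⟨e, z, τ⟩ : D.Ω) = D.st e z τ := by
      have hτ : 0 < (τ : ℝ) ∧ (τ : ℝ) < D.δ := ⟨τ.2.1, τ.2.2⟩
      unfold SD.st
      rw [dif_pos hτ]
    have hS : ∀ u, (Sum.inr ⟨e, z, τ⟩ : D.Ω) ∈ range (D.f u) → u = Sum.inr e := by
      intro u hu
      rcases u with v | e'
      · obtain ⟨x', hx'⟩ := (D.range_inl v _).1 hu
        unfold SD.pt at hx'
        exact absurd hx' (by simp)
      · obtain ⟨z', τ', hτ', he⟩ := (D.range_inr e' _).1 hu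
        rw [hx] at he
        obtain ⟨h1, -⟩ := h.st_eq_st D τ.2 hτ' he
        rw [h1]
    intro v hv
    have h1 := hS u hu
    have h2 := hS w hw
    rcases M3_star h.tree.2 (c := u) (Or.inl rfl) (Or.inl (h2.trans h1.symm)) p hp v hv with h3 | h3 | h3
    · rw [h3]
      exact hu
    · rw [h3]
      exact hw
    · rw [h3]
      exact hu

end Pool.Agent.LibCF24
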