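import Pool.Agent.LibCF24.M0

/-! Row M4 (MEDIUM). The intersections of adjacent pieces: nonempty, compact bounded parts, geodesic. MDefs, M0.

By `bip_adj` the adjacent pair is `(inl v, inr e)` or `(inr e, inl v)` with `v = o e` or `v = t e`. First pair, `v = o e`: `{x : X v | pt v x ∈ range (f (inr e))} = range (a e)`
(`range_inr`, `st_eq_pt`, `st_zero`, `pt_inj'`, `h.ne`); bounded part: the image under the isometry `a e` of a closed bounded subset of the proper space `E e` (compact). Second pair: the set is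
`{y | y.2 = 0}` (or `= δ`) in `WithLp 2 (E e × Icc 0 δ)`: image of a compact set under `z ↦ (z, 0)` (an isometry). Geodesics: from the geodesics of `E e` (`h.Ecat`, field `geodesic`) under the isometry
`a e`, `b e` or `z ↦ (z, 0)`, `z ↦ (z, δ)`. -/

set_option autoImplicit false

noncomputable section

open Set

namespace Pool.Agent.LibCF24

variable {V0 V1 : Type} {D : SD V0 V1}

private theorem M4_iso (h : D.Good) (e : V1) (τ : Icc (0 : ℝ) D.δ) :
    Isometry (fun z : D.E e => (WithLp.toLp 2 (z, τ) : D.Z (Sum.inr e))) := by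
  refine Isometry.of_dist_eq fun z z' => ?_
  change dist (WithLp.toLp 2 (z, τ) : WithLp 2 (D.E e × Icc (0 : ℝ) D.δ)) (WithLp.toLp 2 (z', τ)) = _
  rw [WithLp.prod_dist_eq_add (by norm_num)]
  change (dist z z' ^ (2 : ENNReal).toReal + dist τ τ ^ (2 : ENNReal).toReal) ^
    (1 / (2 : ENNReal).toReal) = dist z z'
  rw [dist_self]
  have h2 : (2 : ENNReal).toReal = 2 := by norm_num
  rw [h2, Real.zero_rpow (by norm_num), add_zero, ← Real.rpow_mul dist_nonneg]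
  norm_num

private theorem M4_par (h : D.Good) (v w : V0 ⊕ V1) (hvw : (bip D.o D.t).Adj v w) :
    ∃ (e : V1) (g : D.E e → D.Z v), Isometry g ∧
      ∀ c : D.Z v, D.f v c ∈ range (D.f w) ↔ c ∈ range g := by
  have hδ : (0 : ℝ) ≤ D.δ := h.δpos.le
  obtain ⟨e, v0, hv0, ⟨rfl, rfl⟩ | ⟨rfl, rfl⟩⟩ := hvw
  · rcases hv0 with rfl | rfl
    · refine ⟨e, D.a e, h.aiso e, fun c => ?_⟩
      rw [SD.range_inr]
      constructor
      · rintro ⟨z, τ, hτ, hz⟩
        have hz' : D.st e z τ = D.pt (D.o e) c := hz.symm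
        rcases h.st_eq_pt D hτ hz' with ⟨h1, _⟩ | ⟨_, h1⟩
        · rw [h1, SD.st_zero] at hz'
          exact ⟨z, SD.pt_inj' D hz'⟩
        · exact absurd h1 (h.ne e)
      · rintro ⟨z, rfl⟩
        exact ⟨z, 0, ⟨le_rfl, hδ⟩, (SD.st_zero D e z).symm⟩
    · refine ⟨e, D.b e, h.biso e, fun c => ?_⟩
      rw [SD.range_inr]
      constructor
      · rintro ⟨z, τ, hτ, hz⟩
        have hz' : D.st e z τ = D.pt (D.t e) c := hz.symm
        rcases h.st_eq_pt D hτ hz' with ⟨_, h1⟩ | ⟨h1, _⟩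
        · exact absurd h1.symm (h.ne e)
        · rw [h1, SD.st_end D h.δpos] at hz'
          exact ⟨z, SD.pt_inj' D hz'⟩
      · rintro ⟨z, rfl⟩
        exact ⟨z, D.δ, ⟨hδ, le_rfl⟩, (SD.st_end D h.δpos e z).symm⟩
  · rcases hv0 with rfl | rfl
    · refine ⟨e, fun z => (WithLp.toLp 2 (z, (⟨0, le_rfl, hδ⟩ : Icc (0 : ℝ) D.δ)) : D.Z (Sum.inr e)),
        M4_iso h e _, fun c => ?_⟩
      rw [SD.range_inl]
      constructor
      · rintro ⟨x, hx⟩
        have hx' : D.st e (WithLp.ofLp c).1 (WithLp.ofLp c).2 = D.pt (D.o e) x := hx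
        rcases h.st_eq_pt D (WithLp.ofLp c).2.2 hx' with ⟨h1, _⟩ | ⟨_, h1⟩
        · refine ⟨(WithLp.ofLp c).1, ?_⟩
          apply (WithLp.ofLp_injective 2)
          exact Prod.ext rfl (Subtype.ext h1.symm)
        · exact absurd h1 (h.ne e)
      · rintro ⟨z, rfl⟩
        exact ⟨D.a e z, SD.st_zero D e z⟩
    · refine ⟨e, fun z => (WithLp.toLp 2 (z, (⟨D.δ, hδ, le_rfl⟩ : Icc (0 : ℝ) D.δ)) : D.Z (Sum.inr e)),
        M4_iso h e _, fun c => ?_⟩
      rw [SD.range_inl]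
      constructor
      · rintro ⟨x, hx⟩
        have hx' : D.st e (WithLp.ofLp c).1 (WithLp.ofLp c).2 = D.pt (D.t e) x := hx
        rcases h.st_eq_pt D (WithLp.ofLp c).2.2 hx' with ⟨_, h1⟩ | ⟨h1, _⟩
        · exact absurd h1.symm (h.ne e)
        · refine ⟨(WithLp.ofLp c).1, ?_⟩
          apply (WithLp.ofLp_injective 2)
          exact Prod.ext rfl (Subtype.ext h1.symm)
      · rintro ⟨z, rfl⟩
        exact ⟨D.b e z, SD.st_end D h.δpos e z⟩

theorem SD.Good.inter_ne (h : D.Good) (v w : V0 ⊕ V1) (hvw : (bip D.o D.t).Adj v w) : ∃ a : D.Z v, D.f v a ∈ range (D.f w) := by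
  obtain ⟨e, g, _, hr⟩ := M4_par h v w hvw
  obtain ⟨z⟩ := h.Ene e
  exact ⟨g z, (hr _).2 ⟨z, rfl⟩⟩

theorem SD.Good.compact (h : D.Good) (v w : V0 ⊕ V1) (hvw : (bip D.o D.t).Adj v w) (a : D.Z v) (r : ℝ) :
    IsCompact {c : D.Z v | D.f v c ∈ range (D.f w) ∧ dist c a ≤ r} := by
  obtain ⟨e, g, hg, hr⟩ := M4_par h v w hvw
  have hp := h.Eproper e
  have h1 : {c : D.Z v | D.f v c ∈ range (D.f w) ∧ dist c a ≤ r} =
      g '' (g ⁻¹' Metric.closedBall a r) := by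
    ext c
    constructor
    · rintro ⟨h2, h3⟩
      obtain ⟨z, rfl⟩ := (hr c).1 h2
      exact ⟨z, h3, rfl⟩
    · rintro ⟨z, h2, rfl⟩
      exact ⟨(hr _).2 ⟨z, rfl⟩, h2⟩
  rw [h1]
  refine IsCompact.image ?_ hg.continuous
  refine Metric.isCompact_of_isClosed_isBounded
    (Metric.isClosed_closedBall.preimage hg.continuous) ?_
  rw [Metric.isBounded_iff]
  refine ⟨r + r, fun z hz z' hz' => ?_⟩
  rw [← hg.dist_eq]
  calc dist (g z) (g z') ≤ dist (g z) a + dist (g z') a := dist_triangle_right _ _ _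
    _ ≤ r + r := add_le_add hz hz'

theorem SD.Good.geo (h : D.Good) (v w : V0 ⊕ V1) (hvw : (bip D.o D.t).Adj v w) (a b : D.Z v) (ha : D.f v a ∈ range (D.f w))
    (hb : D.f v b ∈ range (D.f w)) :
    ∃ γ : ℝ → D.Z v, IsGeo γ (dist a b) a b ∧ ∀ s ∈ Icc (0 : ℝ) (dist a b), D.f v (γ s) ∈ range (D.f w) := by
  obtain ⟨e, g, hg, hr⟩ := M4_par h v w hvw
  obtain ⟨z, rfl⟩ := (hr a).1 ha
  obtain ⟨z', rfl⟩ := (hr b).1 hb
  obtain ⟨γ, h1, h2, h3⟩ := (h.Ecat e).geodesic z z'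
  rw [hg.dist_eq]
  refine ⟨fun s => g (γ s), ⟨dist_nonneg, ?_, ?_, fun s hs t ht => ?_⟩, fun s _ => (hr _).2 ⟨_, rfl⟩⟩
  · rw [h1]
  · rw [h2]
  · rw [hg.dist_eq]
    exact h3 s hs t ht

end Pool.Agent.LibCF24
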