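import Pool.Agent.LibCF24.S7

/-! Row S8 (SHORT/MEDIUM). A tree of CAT(0) spaces is CAT(0). S6, S7 may be cited.

For `x y : Ω` (or the four points `q r m p`): vertices `u_i` with `x_i ∈ range (f u_i)` (`cover`), a finite subtree `F` containing them (`FS.exists`), so all points are in
`US f F`, which is CAT(0) with the induced metric: geodesics and the Bruhat-Tits inequality transfer from the subtype. (`V` is nonempty as soon as there is a point.) -/

set_option autoImplicit false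

noncomputable section

open Set

namespace Pool.Agent.LibCF24

variable {V Ω : Type} {T : SimpleGraph V} {Z : V → Type} [∀ v, MetricSpace (Z v)] {f : ∀ v, Z v → Ω}

private theorem S8_cover (h : Tr T Z f) (x y z w : Ω) :
    ∃ F : Finset V, FS T F ∧ x ∈ US f F ∧ y ∈ US f F ∧ z ∈ US f F ∧ w ∈ US f F := by
  classical
  obtain ⟨u1, h1⟩ := h.cover x
  obtain ⟨u2, h2⟩ := h.cover y
  obtain ⟨u3, h3⟩ := h.cover z
  obtain ⟨u4, h4⟩ := h.cover w
  obtain ⟨F, hF, hsub⟩ := FS.exists h.tree.connected {u1, u2, u3, u4} ⟨u1, by simp⟩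
  exact ⟨F, hF, ⟨u1, hsub (by simp), h1⟩, ⟨u2, hsub (by simp), h2⟩, ⟨u3, hsub (by simp), h3⟩,
    ⟨u4, hsub (by simp), h4⟩⟩

theorem Tr.isCAT0 (h : Tr T Z f) :
    letI := h.metric
    LibBD85.IsCAT0 Ω := by
  let _ := h.metric
  refine ⟨fun x y => ?_, fun q r m h1 h2 p => ?_⟩
  · obtain ⟨F, hF, hx, hy, -, -⟩ := S8_cover h x y x y
    obtain ⟨γ, g1, g2, g3⟩ := (h.cat0_FS hF).geodesic ⟨x, hx⟩ ⟨y, hy⟩
    exact ⟨fun t => (γ t : Ω), congrArg Subtype.val g1, congrArg Subtype.val g2, g3⟩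
  · obtain ⟨F, hF, hq, hr, hm, hp⟩ := S8_cover h q r m p
    exact (h.cat0_FS hF).cn ⟨q, hq⟩ ⟨r, hr⟩ ⟨m, hm⟩ h1 h2 ⟨p, hp⟩

end Pool.Agent.LibCF24
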