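import Pool.Agent.LibCF24.M1
import Pool.Agent.LibCF24.M2
import Pool.Agent.LibCF24.M3
import Pool.Agent.LibCF24.M4
import Pool.Agent.LibCF24.S8

/-! M5: a tree of spaces with strips is a tree of spaces in the sense of `Tr` (assembly, complete); its metric. -/

set_option autoImplicit false

noncomputable section

open Set

namespace Pool.Agent.LibCF24

variable {V0 V1 : Type} {D : SD V0 V1}

theorem SD.Good.tr (h : D.Good) : Tr (bip D.o D.t) D.Z D.f where
  tree := h.tree
  inj := h.finj
  cover := h.cover
  agree := h.agree
  sep := h.sep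
  compact := h.compact
  ne := h.inter_ne
  geo := h.geo
  cat0 := by
    rintro (v | e)
    · exact h.Xcat v
    · exact isCAT0_prod (h.Ecat e) (isCAT0_Icc _)

theorem SD.Good.pt_dist (h : D.Good) (v : V0) (x y : D.X v) : cd D.f (D.pt v x) (D.pt v y) = dist x y :=
  h.tr.cd_eq (Sum.inl v) x y

end Pool.Agent.LibCF24
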