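import Pool.Agent.LibCF24.S5

/-! # Trees of spaces with strips: definitions -/

set_option autoImplicit false

noncomputable section

open Set

namespace Pool.Agent.LibCF24

/-- the subdivided graph with the vertices `V0` and the edges `e : V1` from `o e` to `t e` -/
def bip {V0 V1 : Type} (o t : V1 → V0) : SimpleGraph (V0 ⊕ V1) where
  Adj x y := ∃ e v, (v = o e ∨ v = t e) ∧ ((x = Sum.inl v ∧ y = Sum.inr e) ∨ (x = Sum.inr e ∧ y = Sum.inl v))
  symm := ⟨by
    rintro x y ⟨e, v, h, h'⟩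
    exact ⟨e, v, h, h'.symm.imp And.symm And.symm⟩⟩
  loopless := ⟨by
    rintro x ⟨e, v, h, ⟨h1, h2⟩ | ⟨h1, h2⟩⟩
    · rw [h1] at h2
      exact absurd h2 (by simp)
    · rw [h1] at h2
      exact absurd h2 (by simp)⟩

/-- vertex spaces `X v`, edge spaces `E e` with maps to the two adjacent vertex spaces, width `δ` of the strips -/
structure SD (V0 V1 : Type) where
  o : V1 → V0
  t : V1 → V0
  X : V0 → Type
  E : V1 → Type
  mX : ∀ v, MetricSpace (X v)
  mE : ∀ e, MetricSpace (E e)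
  a : ∀ e, E e → X (o e)
  b : ∀ e, E e → X (t e)
  δ : ℝ

attribute [instance] SD.mX SD.mE

variable {V0 V1 : Type}

structure SD.Good (D : SD V0 V1) : Prop where
  δpos : 0 < D.δ
  tree : (bip D.o D.t).IsTree
  ne : ∀ e, D.o e ≠ D.t e
  aiso : ∀ e, Isometry (D.a e)
  biso : ∀ e, Isometry (D.b e)
  Xcat : ∀ v, LibBD85.IsCAT0 (D.X v)
  Ecat : ∀ e, LibBD85.IsCAT0 (D.E e)
  Eproper : ∀ e, ProperSpace (D.E e)
  Ene : ∀ e, Nonempty (D.E e)

/-- the pieces: vertex spaces and closed strips `E e × [0, δ]` -/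
def SD.Z (D : SD V0 V1) : V0 ⊕ V1 → Type
  | Sum.inl v => D.X v
  | Sum.inr e => WithLp 2 (D.E e × Icc (0 : ℝ) D.δ)

instance SD.mZ (D : SD V0 V1) : ∀ v, MetricSpace (D.Z v)
  | Sum.inl v => D.mX v
  | Sum.inr e => inferInstanceAs (MetricSpace (WithLp 2 (D.E e × Icc (0 : ℝ) D.δ)))

/-- the points: points of the vertex spaces and interior points of the strips -/
def SD.Ω (D : SD V0 V1) : Type := (Σ v, D.X v) ⊕ (Σ e, D.E e × Ioo (0 : ℝ) D.δ)

/-- a point of a vertex space -/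
def SD.pt (D : SD V0 V1) (v : V0) (x : D.X v) : D.Ω := Sum.inl ⟨v, x⟩

/-- the point `(z, τ)` of the closed strip `e` -/
def SD.st (D : SD V0 V1) (e : V1) (z : D.E e) (τ : ℝ) : D.Ω :=
  if h : 0 < τ ∧ τ < D.δ then Sum.inr ⟨e, z, ⟨τ, h⟩⟩ else if τ ≤ 0 then D.pt (D.o e) (D.a e z) else D.pt (D.t e) (D.b e z)

/-- the maps of the pieces -/
def SD.f (D : SD V0 V1) : ∀ v, D.Z v → D.Ω
  | Sum.inl v, x => D.pt v x
  | Sum.inr e, y => D.st e (WithLp.ofLp y).1 (WithLp.ofLp y).2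

end Pool.Agent.LibCF24
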