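import Pool.Agent.LibCF24.QDefs

/-! Row Q1 (SHORT/MEDIUM). Words of powers, sums along paths. ONLY QDefs.

`mk_wd`: induction (`List.replicate_succ`, `FreeGroup.mul_mk`, `mk_toWord`). `wd_cyc`: `FreeGroup.IsCyclicallyReduced.flatten_replicate`. `wd_take`: `wd y n = wd y m ++ y.toWord ++ wd y (n - m - 1)`.
`Sm_append`: induction on `w`. `Sm_sum`: induction on `w` (`Finset.sum_ite_eq`). `Sm_rot`: `wd y o ++ wd y n = wd y n ++ wd y o`, `Sm_append`, `π (y ^ o) = 1`. -/

set_option autoImplicit false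

noncomputable section

open Set

namespace Pool.Agent.LibCF24

variable {k : ℕ} {Q : Type} [Group Q]

theorem mk_wd (y : Fr k) (n : ℕ) : FreeGroup.mk (wd y n) = y ^ n := by
  unfold wd
  rw [← FreeGroup.pow_mk, FreeGroup.mk_toWord]

theorem wd_cyc (y : Fr k) (hy : FreeGroup.IsCyclicallyReduced y.toWord) (n : ℕ) : FreeGroup.IsCyclicallyReduced (wd y n) :=
  hy.flatten_replicate n

theorem wd_length (y : Fr k) (n : ℕ) : (wd y n).length = n * FreeGroup.norm y := by
  unfold wd FreeGroup.norm
  rw [List.length_flatten, List.map_replicate, List.sum_replicate, smul_eq_mul]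

private theorem Q1_add (y : Fr k) (m n : ℕ) : wd y (m + n) = wd y m ++ wd y n := by
  unfold wd
  rw [List.replicate_add, List.flatten_append]

private theorem Q1_one (y : Fr k) : wd y 1 = y.toWord := by
  unfold wd
  simp

theorem wd_take (y : Fr k) (n m r : ℕ) (hm : m < n) (hr : r ≤ FreeGroup.norm y) :
    FreeGroup.mk ((wd y n).take (m * FreeGroup.norm y + r)) = y ^ m * pr y r := by
  obtain ⟨l, rfl⟩ : ∃ l, n = m + (1 + l) := ⟨n - m - 1, by omega⟩
  rw [Q1_add, Q1_add, Q1_one, ← wd_length, List.take_length_add_append, ← FreeGroup.mul_mk, mk_wd,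
    List.take_append_of_le_length hr]
  rfl

private theorem Q1_mk_true (i : Fin k) (w : List (Fin k × Bool)) :
    FreeGroup.mk ((i, true) :: w) = FreeGroup.of i * FreeGroup.mk w := rfl

private theorem Q1_mk_false (i : Fin k) (w : List (Fin k × Bool)) :
    FreeGroup.mk ((i, false) :: w) = (FreeGroup.of i)⁻¹ * FreeGroup.mk w := rfl

theorem Sm_append (π : Fr k →* Q) (c : Q × Fin k → ℝ) (q : Q) (w w' : List (Fin k × Bool)) :
    Sm π c q (w ++ w') = Sm π c q w + Sm π c (q * π (FreeGroup.mk w)) w' := by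
  induction w generalizing q with
  | nil =>
    rw [List.nil_append, ← FreeGroup.one_eq_mk, map_one, mul_one]
    show _ = 0 + _
    rw [zero_add]
  | cons l w ih =>
    obtain ⟨i, b⟩ := l
    cases b with
    | true =>
      rw [Q1_mk_true, map_mul, ← mul_assoc]
      show c (q, i) + Sm π c (q * π (FreeGroup.of i)) (w ++ w') =
        c (q, i) + Sm π c (q * π (FreeGroup.of i)) w + _
      rw [ih, add_assoc]
    | false =>
      rw [Q1_mk_false, map_mul, map_inv, ← mul_assoc]
      show - c (q * (π (FreeGroup.of i))⁻¹, i) + Sm π c (q * (π (FreeGroup.of i))⁻¹) (w ++ w') =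
        - c (q * (π (FreeGroup.of i))⁻¹, i) + Sm π c (q * (π (FreeGroup.of i))⁻¹) w + _
      rw [ih, add_assoc]

private theorem Q1_dl [Fintype Q] (c : Q × Fin k → ℝ) (x : Q × Fin k) : ∑ e, c e * dl e x = c x := by
  classical
  rw [Finset.sum_eq_single x]
  · unfold dl
    rw [if_pos rfl, mul_one]
  · intro e _ he
    unfold dl
    rw [if_neg (fun h => he h.symm), mul_zero]
  · intro h
    exact absurd (Finset.mem_univ x) h

theorem Sm_sum [Fintype Q] (π : Fr k →* Q) (c : Q × Fin k → ℝ) (q : Q) (w : List (Fin k × Bool)) :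
    Sm π c q w = ∑ e, c e * Sm π (dl e) q w := by
  induction w generalizing q with
  | nil =>
    show (0 : ℝ) = ∑ e, c e * 0
    simp
  | cons l w ih =>
    obtain ⟨i, b⟩ := l
    cases b with
    | true =>
      show c (q, i) + Sm π c (q * π (FreeGroup.of i)) w =
        ∑ e, c e * (dl e (q, i) + Sm π (dl e) (q * π (FreeGroup.of i)) w)
      rw [ih]
      simp only [mul_add]
      rw [Finset.sum_add_distrib, Q1_dl]
    | false =>
      show - c (q * (π (FreeGroup.of i))⁻¹, i) + Sm π c (q * (π (FreeGroup.of i))⁻¹) w =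
        ∑ e, c e * (- dl e (q * (π (FreeGroup.of i))⁻¹, i) +
          Sm π (dl e) (q * (π (FreeGroup.of i))⁻¹) w)
      rw [ih]
      simp only [mul_add, mul_neg]
      rw [Finset.sum_add_distrib, Finset.sum_neg_distrib, Q1_dl]

theorem Sm_rot (π : Fr k →* Q) (c : Q × Fin k → ℝ) (q : Q) (y : Fr k) (o n : ℕ) (ho : π (y ^ o) = 1) :
    Sm π c (q * π (y ^ n)) (wd y o) = Sm π c q (wd y o) := by
  have h1 : wd y o ++ wd y n = wd y n ++ wd y o := by
    rw [← Q1_add, ← Q1_add, add_comm]
  have h2 := congrArg (Sm π c q) h1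
  rw [Sm_append, Sm_append, mk_wd, mk_wd, ho, mul_one] at h2
  linarith

end Pool.Agent.LibCF24
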