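import Pool.Agent.LibCF24.Q9
import Pool.Agent.LibCF24.L5

/-! Q10 (assembly, complete). CAT(0) spaces of a free group with prescribed translation lengths. Q9, Q8 (`combine`), L5 (`free_space`).

Choose `ε > 0` with `ε² (norm (y i))² < N i` for all `i`; `n i = N i - ε² (norm (y i))²`; `combine` (with `one_axis`), `free_space`. -/

set_option autoImplicit false

noncomputable section

open Set

namespace Pool.Agent.LibCF24

theorem free_lengths {k m : ℕ} (y : Fin m → Fr k) (hy : ∀ i, Root (y i)) (hyc : ∀ i, FreeGroup.IsCyclicallyReduced (y i).toWord)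
    (hI : ∀ i j, i ≠ j → Incom (y i) (y j)) (N : Fin m → ℝ) (hN : ∀ i, 0 < N i) :
    ∃ (Y : Type) (_ : MetricSpace Y) (_ : MulAction (Fr k) Y), LibBD85.IsCAT0 Y ∧ Nonempty Y ∧
      (∀ (g : Fr k) (x x' : Y), dist (g • x) (g • x') = dist x x') ∧ PA (Fr k) Y ∧ CA (Fr k) Y ∧
      ∀ i, ∃ γ : ℝ → Y, Isometry γ ∧ ∀ s, y i • γ s = γ (s + √(N i)) := by
  obtain ⟨ε, hε, hεN⟩ : ∃ ε : ℝ, 0 < ε ∧ ∀ i, ε ^ 2 * (FreeGroup.norm (y i) : ℝ) ^ 2 < N i := by
    rcases isEmpty_or_nonempty (Fin m) with he | hne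
    · exact ⟨1, one_pos, fun i => he.elim i⟩
    · obtain ⟨i₀, hi₀⟩ := Finite.exists_min (fun i => N i / ((FreeGroup.norm (y i) : ℝ) ^ 2 + 1))
      set c := N i₀ / ((FreeGroup.norm (y i₀) : ℝ) ^ 2 + 1) with hc
      have hc0 : 0 < c := div_pos (hN i₀) (by positivity)
      refine ⟨√(c / 2), Real.sqrt_pos.2 (by positivity), fun i => ?_⟩
      rw [Real.sq_sqrt (by positivity)]
      have h1 := hi₀ i
      rw [le_div_iff₀ (by positivity)] at h1
      have h2 : (0 : ℝ) ≤ (FreeGroup.norm (y i) : ℝ) ^ 2 := by positivity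
      nlinarith [mul_nonneg hc0.le h2]
  obtain ⟨d, ρ, z, v, h1, h2⟩ := combine y (one_axis y hy hyc hI)
    (fun i => N i - ε ^ 2 * (FreeGroup.norm (y i) : ℝ) ^ 2) (fun i => by linarith [hεN i])
  obtain ⟨Y, m1, m2, hY, hne, hiso, hPA, hCA, hax⟩ := free_space ρ hε y (fun i => (hy i).1) hyc z v h1
  refine ⟨Y, m1, m2, hY, hne, hiso, hPA, hCA, fun i => ?_⟩
  obtain ⟨γ, hγ, hγ'⟩ := hax i
  refine ⟨γ, hγ, fun s => ?_⟩
  have h3 := hγ' s
  rw [h2 i, show ε ^ 2 * (FreeGroup.norm (y i) : ℝ) ^ 2 + (N i - ε ^ 2 * (FreeGroup.norm (y i) : ℝ) ^ 2) = N i by ring] at h3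
  exact h3

end Pool.Agent.LibCF24
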