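import Pool.Agent.LibCF24.QDefs

/-! Row Q2 (MEDIUM). The first edge of a simple closed path is crossed exactly once. ONLY QDefs.

General formula (private, induction on the word): `Sm π (dl e) q W = (number of s < |W| with W[s] = (e.2, true) and q π(W.take s) = e.1) - (number of s < |W| with W[s] = (e.2, false) and q π(W.take (s + 1)) = e.1)`.
Let `W[0] = (i, true)`, `e = (q, i)`: the first number is 1 (`hinj`: only `s = 0`). The second one is 0: `π(W.take (s + 1)) = 1` forces `s + 1 = |W|` (`hinj` with `0 < s + 1`), so the last letter of `W` is `(i, false)`, the first one is `(i, true)`: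
`W` would not be cyclically reduced (`FreeGroup.IsCyclicallyReduced`, second component).
`W[0] = (i, false)`, `e = (q π(a_i)⁻¹, i)`: the second number is 1: `π(W.take (s + 1)) = π(W.take 1)`, `s + 1 < |W|` gives `s = 0`; `s + 1 = |W|` gives `π(W.take 1) = π(mk W) = 1`, so `|W| = 1` and `s = 0`. The first number is 0: `W[s] = (i, true)`,
`π(W.take s) = π(W.take 1)`: if `|W| ≥ 2` then `s = 1` by `hinj`, and `W[0] W[1] = a_i⁻¹ a_i` is not reduced; if `|W| = 1` then `s = 0`, `W[0]` is not `(i, true)`. -/

set_option autoImplicit false

noncomputable section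

open Set

namespace Pool.Agent.LibCF24

variable {k : ℕ} {Q : Type} [Group Q]

private theorem Q2_mkc (i : Fin k) (w : List (Fin k × Bool)) :
    FreeGroup.mk ((i, true) :: w) = FreeGroup.of i * FreeGroup.mk w := rfl

private theorem Q2_mkc' (i : Fin k) (w : List (Fin k × Bool)) :
    FreeGroup.mk ((i, false) :: w) = (FreeGroup.of i)⁻¹ * FreeGroup.mk w := rfl

private def Q2_sg (l : Fin k × Bool) : ℝ := if l.2 then 1 else -1

private theorem Q2_sum (π : Fr k →* Q) (c : Q × Fin k → ℝ) (W : List (Fin k × Bool)) : ∀ q : Q,
    Sm π c q W = ∑ s : Fin W.length, Q2_sg (W.get s) *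
      c (fe π (q * π (FreeGroup.mk (W.take s))) (W.get s)) := by
  induction W with
  | nil =>
    intro q
    rw [Sm]
    rfl
  | cons l w ih =>
    intro q
    obtain ⟨i, b⟩ := l
    have h0 : π (FreeGroup.mk ([] : List (Fin k × Bool))) = 1 := map_one π
    change _ = ∑ s : Fin (w.length + 1), _
    rw [Fin.sum_univ_succ]
    cases b with
    | true =>
      rw [Sm, ih]
      congr 1
      · change _ = (1 : ℝ) * c (q * π (FreeGroup.mk []), i)
        rw [h0, mul_one, one_mul]
      · refine Finset.sum_congr rfl fun s _ => ?_
        change _ = Q2_sg (w.get s) * c (fe π (q * π (FreeGroup.mk ((i, true) :: w.take s))) (w.get s))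
        rw [Q2_mkc, map_mul, mul_assoc]
    | false =>
      rw [Sm, ih]
      congr 1
      · change _ = (-1 : ℝ) * c (q * π (FreeGroup.mk []) * (π (FreeGroup.of i))⁻¹, i)
        rw [h0, mul_one, neg_one_mul]
      · refine Finset.sum_congr rfl fun s _ => ?_
        change _ = Q2_sg (w.get s) * c (fe π (q * π (FreeGroup.mk ((i, false) :: w.take s))) (w.get s))
        rw [Q2_mkc', map_mul, map_inv, mul_assoc]

private theorem Q2_step (π : Fr k →* Q) (W : List (Fin k × Bool)) (s : Fin W.length) :
    π (FreeGroup.mk (W.take (s + 1))) = π (FreeGroup.mk (W.take s)) * π (FreeGroup.mk [W.get s]) := by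
  rw [← map_mul, FreeGroup.mul_mk, List.take_succ_eq_append_getElem s.2]
  rfl

theorem Sm_first (π : Fr k →* Q) (q : Q) (W : List (Fin k × Bool)) (hW : FreeGroup.IsCyclicallyReduced W) (hne : W ≠ [])
    (hloop : π (FreeGroup.mk W) = 1)
    (hinj : ∀ s s' : ℕ, s < s' → s' < W.length → π (FreeGroup.mk (W.take s)) ≠ π (FreeGroup.mk (W.take s'))) :
    Sm π (dl (fe π q (W.head hne))) q W ≠ 0 := by
  obtain ⟨l0, w, rfl⟩ := List.exists_cons_of_ne_nil hne
  have h0 : π (FreeGroup.mk ([] : List (Fin k × Bool))) = 1 := map_one π
  rw [Q2_sum, Finset.sum_eq_single (⟨0, by simp⟩ : Fin (l0 :: w).length)]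
  · change Q2_sg l0 * dl (fe π q l0) (fe π (q * π (FreeGroup.mk [])) l0) ≠ 0
    rw [h0, mul_one]
    have h1 : dl (fe π q l0) (fe π q l0) = 1 := if_pos rfl
    rw [h1, mul_one]
    unfold Q2_sg
    split_ifs <;> norm_num
  · intro s _ hs
    have hs0 : 0 < (s : ℕ) := by
      refine Nat.pos_of_ne_zero fun h => hs (Fin.ext h)
    have hs1 : (s : ℕ) < (l0 :: w).length := s.2
    suffices h : fe π (q * π (FreeGroup.mk ((l0 :: w).take s))) ((l0 :: w).get s) ≠ fe π q l0 by
      have h1 : dl (fe π q l0) (fe π (q * π (FreeGroup.mk ((l0 :: w).take s))) ((l0 :: w).get s)) = 0 :=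
        if_neg h
      change Q2_sg _ * dl (fe π q l0) _ = 0
      rw [h1, mul_zero]
    intro he
    have hst := Q2_step π (l0 :: w) s
    obtain ⟨i, b⟩ := l0
    rcases hls : ((i, b) :: w).get s with ⟨j, c⟩
    rw [hls] at he hst
    have hnot0 : π (FreeGroup.mk (((i, b) :: w).take s)) ≠ 1 := by
      have h2 := hinj 0 s hs0 hs1
      intro h3
      apply h2
      rw [h3]
      exact h0
    cases b with
    | true =>
      cases c with
      | true =>
        have h1 : q * π (FreeGroup.mk (((i, true) :: w).take s)) = q := congrArg Prod.fst he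
        exact hnot0 (mul_eq_left.1 h1)
      | false =>
        have h1 : q * π (FreeGroup.mk (((i, true) :: w).take s)) * (π (FreeGroup.of j))⁻¹ = q :=
          congrArg Prod.fst he
        have hj : j = i := congrArg Prod.snd he
        have h2 : π (FreeGroup.mk [(j, false)]) = (π (FreeGroup.of j))⁻¹ := map_inv π (FreeGroup.of j)
        rw [h2] at hst
        rw [mul_assoc, ← hst] at h1
        have h3 : π (FreeGroup.mk (((i, true) :: w).take (s + 1))) = 1 := mul_eq_left.1 h1
        rcases Nat.lt_or_ge ((s : ℕ) + 1) (((i, true) :: w).length) with h4 | h4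
        · refine hinj 0 (s + 1) (Nat.succ_pos _) h4 ?_
          rw [h3]
          exact h0
        · have h5 : (s : ℕ) + 1 = ((i, true) :: w).length := le_antisymm hs1 h4
          have h6 : (j, false) ∈ ((i, true) :: w).getLast? := by
            rw [List.getLast?_eq_getElem?]
            have h7 : ((i, true) :: w).length - 1 = (s : ℕ) := by omega
            rw [h7, List.getElem?_eq_getElem hs1]
            exact congrArg some hls
          have h8 := hW.2 (j, false) h6 (i, true) rfl hj
          exact Bool.noConfusion h8
    | false =>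
      cases c with
      | true =>
        have h1 : q * π (FreeGroup.mk (((i, false) :: w).take s)) = q * (π (FreeGroup.of i))⁻¹ :=
          congrArg Prod.fst he
        have hj : j = i := congrArg Prod.snd he
        have h2 : π (FreeGroup.mk (((i, false) :: w).take s)) = (π (FreeGroup.of i))⁻¹ :=
          mul_left_cancel h1
        have h3 : π (FreeGroup.mk (((i, false) :: w).take 1)) = (π (FreeGroup.of i))⁻¹ :=
          map_inv π (FreeGroup.of i)
        rcases Nat.lt_or_ge 1 (s : ℕ) with h4 | h4
        · exact hinj 1 s h4 hs1 (by rw [h2, h3])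
        · have h5 : (s : ℕ) = 1 := by omega
          have h6 : 1 < ((i, false) :: w).length := by omega
          have h7 : ((i, false) :: w)[1] = (j, true) := by
            rw [← hls]
            change _ = ((i, false) :: w)[(s : ℕ)]
            congr 1
            exact h5.symm
          cases w with
          | nil => simp at h6
          | cons l1 w =>
            have h8 : l1 = (j, true) := h7
            subst h8
            have h9 := (List.isChain_cons_cons.1 hW.1).1 hj.symm
            exact Bool.noConfusion h9
      | false =>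
        have h1 : q * π (FreeGroup.mk (((i, false) :: w).take s)) * (π (FreeGroup.of j))⁻¹ =
          q * (π (FreeGroup.of i))⁻¹ := congrArg Prod.fst he
        have hj : j = i := congrArg Prod.snd he
        subst hj
        exact hnot0 (mul_eq_left.1 (mul_right_cancel h1))
  · intro h
    exact (h (Finset.mem_univ _)).elim

end Pool.Agent.LibCF24
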