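import Pool.Agent.LibCF24.QDefs

/-! Row Q3 (MEDIUM). Generic weights. ONLY Mathlib.

Index `E ≃ Fin M`. For `a : A` the polynomial `P_a = ∑_{e ∈ S} c a e * X ^ (index e)` is not zero; choose `t ∈ (0, 1)` which is no root of any `P_a` (finitely many roots), and `μ > 0` small: `lam e = μ t ^ (index e)` for `e ∈ S`, `0` otherwise.
(Or: a real vector space is not a finite union of proper subspaces; Mathlib: `Module.Dual.exists_forall_mem_ne_zero_of_forall_exists` or similar.) -/

set_option autoImplicit false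

noncomputable section

open Set

namespace Pool.Agent.LibCF24

theorem generic {E A : Type} [Fintype E] [Finite A] (c : A → E → ℝ) (S : Set E) (h : ∀ a, ∃ e ∈ S, c a e ≠ 0) :
    ∃ lam : E → ℝ, (∀ e, e ∉ S → lam e = 0) ∧ ∀ a, 0 < |∑ e, lam e * c a e| ∧ |∑ e, lam e * c a e| < 1 := by
  classical
  have : Fintype A := Fintype.ofFinite A
  set idx : E ≃ Fin (Fintype.card E) := Fintype.equivFin E with hidx
  set P : A → Polynomial ℝ := fun a =>
    ∑ e, Polynomial.monomial (idx e : ℕ) (if e ∈ S then c a e else 0) with hP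
  have hP0 : ∀ a, P a ≠ 0 := by
    intro a h0
    obtain ⟨e0, he0, hne⟩ := h a
    have h1 : (P a).coeff (idx e0 : ℕ) = c a e0 := by
      rw [hP]
      simp only [Polynomial.finsetSum_coeff, Polynomial.coeff_monomial]
      rw [Finset.sum_eq_single e0]
      · rw [if_pos rfl, if_pos he0]
      · intro e _ hee
        rw [if_neg]
        intro h2
        exact hee (idx.injective (Fin.ext h2))
      · intro h2
        exact absurd (Finset.mem_univ e0) h2
    rw [h0, Polynomial.coeff_zero] at h1
    exact hne h1.symm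
  have hprod : ∏ a, P a ≠ 0 := Finset.prod_ne_zero_iff.2 fun a _ => hP0 a
  obtain ⟨t, ht⟩ : ∃ t : ℝ, (∏ a, P a).eval t ≠ 0 := by
    by_contra hall
    push Not at hall
    exact hprod (Polynomial.zero_of_eval_zero _ hall)
  rw [Polynomial.eval_prod] at ht
  have ht' : ∀ a, (P a).eval t ≠ 0 := fun a => Finset.prod_ne_zero_iff.1 ht a (Finset.mem_univ a)
  set v : A → ℝ := fun a => (P a).eval t with hv
  have hval : ∀ a, v a = ∑ e, (if e ∈ S then t ^ (idx e : ℕ) else 0) * c a e := by
    intro a
    rw [hv]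
    simp only [hP, Polynomial.eval_finsetSum, Polynomial.eval_monomial]
    refine Finset.sum_congr rfl fun e _ => ?_
    split_ifs <;> ring
  set W : ℝ := 1 + ∑ a, |v a| with hW
  have hW0 : 0 < W := by
    have : 0 ≤ ∑ a, |v a| := Finset.sum_nonneg fun a _ => abs_nonneg _
    linarith
  refine ⟨fun e => W⁻¹ * (if e ∈ S then t ^ (idx e : ℕ) else 0), fun e he => ?_, fun a => ?_⟩
  · simp [he]
  · have e1 : ∑ e, W⁻¹ * (if e ∈ S then t ^ (idx e : ℕ) else 0) * c a e = W⁻¹ * v a := by
      rw [hval a, Finset.mul_sum]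
      exact Finset.sum_congr rfl fun e _ => by ring
    rw [e1, abs_mul, abs_of_pos (inv_pos.2 hW0)]
    refine ⟨mul_pos (inv_pos.2 hW0) (abs_pos.2 (ht' a)), ?_⟩
    rw [inv_mul_lt_iff₀ hW0, mul_one]
    have : |v a| ≤ ∑ a, |v a| := Finset.single_le_sum (f := fun a => |v a|)
      (fun a _ => abs_nonneg _) (Finset.mem_univ a)
    linarith

end Pool.Agent.LibCF24
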