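import Pool.Agent.LibCF24.Q1

/-! Row Q4 (MEDIUM). Simple closed paths. Q1 (`wd_take`, `wd_length`, `mk_wd`), `norm_pow_cyc` not needed.

`comm_ne`: otherwise `p_r' p_r⁻¹` commutes with `y`, so `p_r' p_r⁻¹ = y ^ m` (`Root`), `p_r' = y ^ m p_r`. `m = 0`: `p_r' = p_r` but the norms are `r' ≠ r` (prefixes of a reduced word are reduced). `m > 0`: the word of `y ^ m p_r` is
`wd y m ++ y.toWord.take r` (a prefix of `wd y (m + 1)`, which is reduced), so the norm is `m norm y + r > r'`. `m < 0`: `p_r = y ^ (-m) p_r'`, norm `≥ norm y > r`.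
`comm_ne'`: otherwise `p y ^ d p⁻¹ ∈ zpowers y'`, against `Incom`.
`simple_wd`: write `s = m L + r`, `s' = m' L + r'`, `r, r' < L`, `m, m' < o` (`wd_take`): equality gives `π(p_r' p_r⁻¹) = π(y) ^ (m - m')`, which commutes with `π y`: if `r ≠ r'` contradiction with `h` (for the pair in the right order; inverse). If `r = r'`
then `π(y) ^ (m' - m) = 1`, `0 < m' - m < orderOf (π y)`. -/

set_option autoImplicit false

noncomputable section

open Set
open scoped commutatorElement

namespace Pool.Agent.LibCF24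

variable {k : ℕ} {Q : Type} [Group Q]

private theorem Q4_norm (y : Fr k) (hc : FreeGroup.IsCyclicallyReduced y.toWord) (n r : ℕ)
    (hr : r ≤ FreeGroup.norm y) : FreeGroup.norm (y ^ n * pr y r) = n * FreeGroup.norm y + r := by
  rw [← wd_take y (n + 1) n r (Nat.lt_succ_self n) hr]
  have h1 : FreeGroup.IsReduced ((wd y (n + 1)).take (n * FreeGroup.norm y + r)) :=
    List.IsChain.take (wd_cyc y hc (n + 1)).isReduced _
  show (FreeGroup.toWord (FreeGroup.mk ((wd y (n + 1)).take (n * FreeGroup.norm y + r)))).length = _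
  rw [FreeGroup.toWord_mk, h1.reduce_eq, List.length_take, wd_length]
  have h2 : n * FreeGroup.norm y + r ≤ (n + 1) * FreeGroup.norm y := by
    rw [Nat.succ_mul]
    omega
  exact min_eq_left h2

private theorem Q4_pos (y : Fr k) (hy : y ≠ 1) : 0 < FreeGroup.norm y := by
  rw [Nat.pos_iff_ne_zero]
  exact fun h => hy (FreeGroup.norm_eq_zero.1 h)

theorem comm_ne (y : Fr k) (hy : Root y) (hc : FreeGroup.IsCyclicallyReduced y.toWord) (r r' : ℕ) (h : r < r')
    (h' : r' < FreeGroup.norm y) : ⁅pr y r' * (pr y r)⁻¹, y⁆ ≠ 1 := by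
  intro hcom
  rw [commutatorElement_eq_one_iff_commute] at hcom
  obtain ⟨m, hm⟩ := Subgroup.mem_zpowers_iff.1 (hy.2 _ hcom)
  have hn0 : ∀ s : ℕ, s ≤ FreeGroup.norm y → FreeGroup.norm (pr y s) = s := by
    intro s hs
    have := Q4_norm y hc 0 s hs
    rw [pow_zero, one_mul, zero_mul, zero_add] at this
    exact this
  obtain ⟨n, rfl | rfl⟩ := Int.eq_nat_or_neg m
  · rw [zpow_natCast] at hm
    have h1 : pr y r' = y ^ n * pr y r := by rw [hm, inv_mul_cancel_right]
    have h2 := Q4_norm y hc n r (by omega)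
    rw [← h1, hn0 r' h'.le] at h2
    rcases Nat.eq_zero_or_pos n with h3 | h3
    · rw [h3, zero_mul, zero_add] at h2
      omega
    · have := Nat.le_mul_of_pos_left (FreeGroup.norm y) h3
      omega
  · rw [zpow_neg, zpow_natCast] at hm
    have h1 : pr y r = y ^ n * pr y r' := by
      rw [inv_eq_iff_eq_inv, mul_inv_rev, inv_inv] at hm
      rw [hm, inv_mul_cancel_right]
    have h2 := Q4_norm y hc n r' h'.le
    rw [← h1, hn0 r (by omega)] at h2
    omega

theorem comm_ne' (y y' : Fr k) (hy' : Root y') (hI : Incom y y') (p : Fr k) (d : ℕ) (hd : d ≠ 0) :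
    ⁅p * y ^ d * p⁻¹, y'⁆ ≠ 1 := by
  intro hcom
  rw [commutatorElement_eq_one_iff_commute] at hcom
  obtain ⟨m, hm⟩ := Subgroup.mem_zpowers_iff.1 (hy'.2 _ hcom)
  apply hI p (d : ℤ) m (by exact_mod_cast hd)
  rw [zpow_natCast]
  exact hm.symm

theorem simple_wd (π : Fr k →* Q) (y : Fr k) (hy : y ≠ 1)
    (h : ∀ r r' : ℕ, r < r' → r' < FreeGroup.norm y → π ⁅pr y r' * (pr y r)⁻¹, y⁆ ≠ 1) (s s' : ℕ) (hs : s < s')
    (hs' : s' < (wd y (orderOf (π y))).length) :
    π (FreeGroup.mk ((wd y (orderOf (π y))).take s)) ≠ π (FreeGroup.mk ((wd y (orderOf (π y))).take s')) := by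
  intro heq
  have hL := Q4_pos y hy
  rw [wd_length] at hs'
  have key : ∀ t : ℕ, t < orderOf (π y) * FreeGroup.norm y →
      t / FreeGroup.norm y < orderOf (π y) ∧
      π (FreeGroup.mk ((wd y (orderOf (π y))).take t)) =
        π y ^ (t / FreeGroup.norm y) * π (pr y (t % FreeGroup.norm y)) := by
    intro t ht
    have h1 : t / FreeGroup.norm y < orderOf (π y) := Nat.div_lt_of_lt_mul (by rwa [mul_comm])
    refine ⟨h1, ?_⟩
    have h2 := wd_take y (orderOf (π y)) (t / FreeGroup.norm y) (t % FreeGroup.norm y) h1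
      (Nat.mod_lt _ hL).le
    rw [mul_comm (t / FreeGroup.norm y), Nat.div_add_mod] at h2
    rw [h2, map_mul, map_pow]
  obtain ⟨hm, e1⟩ := key s (lt_trans hs hs')
  obtain ⟨hm', e2⟩ := key s' hs'
  rw [e1, e2] at heq
  have hcm : ∀ (a b : ℕ) (x z : Q), π y ^ a * x = π y ^ b * z → Commute (z * x⁻¹) (π y) := by
    intro a b x z hxz
    have h3 : z * x⁻¹ = (π y ^ b)⁻¹ * π y ^ a := by
      rw [mul_inv_eq_iff_eq_mul, mul_assoc, hxz, inv_mul_cancel_left]
    rw [h3]
    exact ((Commute.refl (π y)).pow_left b).inv_left.mul_left ((Commute.refl (π y)).pow_left a)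
  rcases lt_trichotomy (s % FreeGroup.norm y) (s' % FreeGroup.norm y) with hlt | heq' | hgt
  · apply h _ _ hlt (Nat.mod_lt _ hL)
    rw [map_commutatorElement, commutatorElement_eq_one_iff_commute, map_mul, map_inv]
    exact hcm _ _ _ _ heq
  · rw [heq', mul_left_inj] at heq
    have h4 := pow_injOn_Iio_orderOf hm hm' heq
    have h5 := Nat.div_add_mod s (FreeGroup.norm y)
    have h6 := Nat.div_add_mod s' (FreeGroup.norm y)
    rw [h4, heq', h6] at h5
    omega
  · apply h _ _ hgt (Nat.mod_lt _ hL)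
    rw [map_commutatorElement, commutatorElement_eq_one_iff_commute, map_mul, map_inv]
    exact hcm _ _ _ _ heq.symm

end Pool.Agent.LibCF24
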