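import Pool.Agent.LibCF24.QDefs

/-! Row Q5 (SHORT/MEDIUM). The path of `y` leaves the closed path of `y'`. ONLY QDefs.

`L = norm y' > 0`. If `q π(y^n) ∈ VL π y'` for all `n ≤ L`: `q π(y^n) = π(y'^(a_n) p_(s_n))`, `s_n < L`, `n = 0 .. L`: pigeonhole, `n < n'` with `s_n = s_n' = s`, `d = n' - n`, `1 ≤ d ≤ L`. Then `π(y'^(a_n) p_s) π(y^d) = π(y'^(a_n') p_s)`, so
`π(p_s y^d p_s⁻¹) = π(y') ^ (a_n' - a_n)` commutes with `π y'`: `π ⁅p_s y^d p_s⁻¹, y'⁆ = 1` (`map_commutatorElement`). -/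

set_option autoImplicit false

noncomputable section

open Set
open scoped commutatorElement

namespace Pool.Agent.LibCF24

variable {k : ℕ} {Q : Type} [Group Q]

private theorem Q5_aux (π : Fr k →* Q) (y y' : Fr k)
    (h : ∀ s d : ℕ, s < FreeGroup.norm y' → 1 ≤ d → d ≤ FreeGroup.norm y' →
      π ⁅pr y' s * y ^ d * (pr y' s)⁻¹, y'⁆ ≠ 1) (q : Q) (n n' s : ℕ) (a a' : ℤ)
    (hs : s < FreeGroup.norm y') (hnn : n < n') (hn' : n' ≤ FreeGroup.norm y')
    (h1 : q * π (y ^ n) = π (y' ^ a * pr y' s)) (h2 : q * π (y ^ n') = π (y' ^ a' * pr y' s)) :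
    False := by
  have hd : y ^ n' = y ^ n * y ^ (n' - n) := by
    rw [← pow_add]
    congr 1
    omega
  have h3 : π (y' ^ a * pr y' s) * π (y ^ (n' - n)) = π (y' ^ a' * pr y' s) := by
    rw [← h1, ← h2, hd, map_mul, mul_assoc]
  have h4 : π (pr y' s * y ^ (n' - n) * (pr y' s)⁻¹) = π y' ^ (a' - a) := by
    rw [← map_mul] at h3
    have h5 : π (y' ^ a) * π (pr y' s * y ^ (n' - n) * (pr y' s)⁻¹) = π (y' ^ a') := by
      rw [← map_mul]
      have e1 : y' ^ a * (pr y' s * y ^ (n' - n) * (pr y' s)⁻¹)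
          = y' ^ a * pr y' s * y ^ (n' - n) * (pr y' s)⁻¹ := by group
      rw [e1, map_mul, h3, ← map_mul]
      congr 1
      group
    rw [map_zpow, map_zpow] at h5
    rw [sub_eq_neg_add, zpow_add, zpow_neg, ← h5]
    group
  apply h s (n' - n) hs (by omega) (by omega)
  rw [map_commutatorElement, h4, commutatorElement_eq_one_iff_commute]
  exact (Commute.refl _).zpow_left _

theorem escape (π : Fr k →* Q) (y y' : Fr k) (hy' : y' ≠ 1)
    (h : ∀ s d : ℕ, s < FreeGroup.norm y' → 1 ≤ d → d ≤ FreeGroup.norm y' → π ⁅pr y' s * y ^ d * (pr y' s)⁻¹, y'⁆ ≠ 1) (q : Q) :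
    ∃ n : ℕ, q * π (y ^ n) ∉ VL π y' := by
  by_contra hcon
  push Not at hcon
  choose a s hs hx using hcon
  let f : Fin (FreeGroup.norm y' + 1) → Fin (FreeGroup.norm y') := fun n => ⟨s n, hs n⟩
  obtain ⟨n, n', hne, heq⟩ := Fintype.exists_ne_map_eq_of_card_lt f (by simp)
  have hs' : s n = s n' := congrArg Fin.val heq
  rcases lt_or_gt_of_ne hne with hlt | hlt
  · refine Q5_aux π y y' h q n n' (s n) (a n) (a n') (hs n) hlt (Nat.lt_succ_iff.mp n'.2) (hx n) ?_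
    rw [hs']
    exact hx n'
  · refine Q5_aux π y y' h q n' n (s n') (a n') (a n) (hs n') hlt (Nat.lt_succ_iff.mp n.2)
      (hx n') ?_
    rw [← hs']
    exact hx n

end Pool.Agent.LibCF24
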