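import Pool.Agent.LibCF24.QDefs

/-! Row Q6 (MEDIUM). Formulas for the action. ONLY QDefs (`letter_apply`).

`act_cons`-type step: `FreeGroup.mk ((i, b) :: w) = (of i)^(±1) * mk w`, `act` is a homomorphism, `act (of i) = letter i` (`FreeGroup.lift_apply_of`); for the inverse: `g = (letter i)⁻¹ f` satisfies `f q' = e^(i lam(q',i)) g (q' π a_i) + kap (q', i)`, take
`q' = q π(a_i)⁻¹`: `g q = e^(- i lam(q π(a_i)⁻¹, i)) (f (q π(a_i)⁻¹) - kap (q π(a_i)⁻¹, i))`. Induction on `w`, `q` general.
`act_path`: the first step: the edge from `q = q π(mk (w.take 0))` to `q π(mk (w.take 1))` has `lam = 0`. -/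

set_option autoImplicit false

noncomputable section

open Set

namespace Pool.Agent.LibCF24

variable {k : ℕ} {Q : Type} [Group Q] [Fintype Q]

private theorem Q6_mkc (i : Fin k) (w : List (Fin k × Bool)) :
    FreeGroup.mk ((i, true) :: w) = FreeGroup.of i * FreeGroup.mk w := rfl

private theorem Q6_mkc' (i : Fin k) (w : List (Fin k × Bool)) :
    FreeGroup.mk ((i, false) :: w) = (FreeGroup.of i)⁻¹ * FreeGroup.mk w := rfl

private theorem Q6_t (π : Fr k →* Q) (lam kap : Q × Fin k → ℝ) (i : Fin k) (w : List (Fin k × Bool))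
    (f : VQ Q) (q : Q) : act π lam kap (FreeGroup.mk ((i, true) :: w)) f q =
      Complex.exp (lam (q, i) * Complex.I) * act π lam kap (FreeGroup.mk w) f (q * π (FreeGroup.of i)) +
        kap (q, i) := by
  rw [Q6_mkc, map_mul]
  have h : act π lam kap (FreeGroup.of i) = letter π lam kap i := FreeGroup.lift_apply_of
  rw [h]
  exact letter_apply π lam kap i _ q

private theorem Q6_f (π : Fr k →* Q) (lam kap : Q × Fin k → ℝ) (i : Fin k) (w : List (Fin k × Bool))
    (f : VQ Q) (q : Q) : act π lam kap (FreeGroup.mk ((i, false) :: w)) f q =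
      Complex.exp (-(lam (q * (π (FreeGroup.of i))⁻¹, i) * Complex.I)) *
        (act π lam kap (FreeGroup.mk w) f (q * (π (FreeGroup.of i))⁻¹) -
          kap (q * (π (FreeGroup.of i))⁻¹, i)) := by
  rw [Q6_mkc', map_mul, map_inv]
  have h : act π lam kap (FreeGroup.of i) = letter π lam kap i := FreeGroup.lift_apply_of
  rw [h]
  change ((letter π lam kap i)⁻¹ (act π lam kap (FreeGroup.mk w) f)) q = _
  have h1 := letter_apply π lam kap i ((letter π lam kap i)⁻¹ (act π lam kap (FreeGroup.mk w) f))
    (q * (π (FreeGroup.of i))⁻¹)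
  have h2 : letter π lam kap i ((letter π lam kap i)⁻¹ (act π lam kap (FreeGroup.mk w) f)) =
      act π lam kap (FreeGroup.mk w) f := (letter π lam kap i).apply_symm_apply _
  rw [h2, inv_mul_cancel_right] at h1
  rw [h1, add_sub_cancel_right, ← mul_assoc, ← Complex.exp_add, neg_add_cancel, Complex.exp_zero, one_mul]

theorem act_diff (π : Fr k →* Q) (lam kap : Q × Fin k → ℝ) (w : List (Fin k × Bool)) (f f' : VQ Q) (q : Q) :
    act π lam kap (FreeGroup.mk w) f q - act π lam kap (FreeGroup.mk w) f' q =
      Complex.exp (Sm π lam q w * Complex.I) * (f (q * π (FreeGroup.mk w)) - f' (q * π (FreeGroup.mk w))) := by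
  induction w generalizing q with
  | nil =>
    have h0 : π (FreeGroup.mk ([] : List (Fin k × Bool))) = 1 := map_one π
    have h1 : act π lam kap (FreeGroup.mk ([] : List (Fin k × Bool))) = 1 := map_one _
    rw [h0, h1, mul_one, Sm]
    change f q - f' q = _
    rw [Complex.ofReal_zero, zero_mul, Complex.exp_zero, one_mul]
  | cons l w ih =>
    obtain ⟨i, b⟩ := l
    cases b with
    | true =>
      rw [Q6_t, Q6_t, Sm, add_sub_add_right_eq_sub, ← mul_sub, ih, Q6_mkc, map_mul]
      push_cast
      rw [add_mul, Complex.exp_add, ← mul_assoc q]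
      ring
    | false =>
      rw [Q6_f, Q6_f, Sm, ← mul_sub, sub_sub_sub_cancel_right, ih, Q6_mkc', map_mul, map_inv]
      push_cast
      rw [add_mul, Complex.exp_add, neg_mul, ← mul_assoc q]
      ring

theorem act_path (π : Fr k →* Q) (lam kap : Q × Fin k → ℝ) (V : Set Q)
    (hlam : ∀ q i, q ∈ V → q * π (FreeGroup.of i) ∈ V → lam (q, i) = 0) (w : List (Fin k × Bool)) (q : Q)
    (hV : ∀ s ≤ w.length, q * π (FreeGroup.mk (w.take s)) ∈ V) (f : VQ Q) :
    act π lam kap (FreeGroup.mk w) f q = f (q * π (FreeGroup.mk w)) + Sm π kap q w := by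
  induction w generalizing q with
  | nil =>
    have h0 : π (FreeGroup.mk ([] : List (Fin k × Bool))) = 1 := map_one π
    have h1 : act π lam kap (FreeGroup.mk ([] : List (Fin k × Bool))) = 1 := map_one _
    rw [h0, h1, mul_one, Sm]
    change f q = _
    rw [Complex.ofReal_zero, add_zero]
  | cons l w ih =>
    obtain ⟨i, b⟩ := l
    have h0 : π (FreeGroup.mk ([] : List (Fin k × Bool))) = 1 := map_one π
    have hq : q ∈ V := by
      have := hV 0 (Nat.zero_le _)
      rw [List.take_zero, h0, mul_one] at this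
      exact this
    cases b with
    | true =>
      have hV' : ∀ s ≤ w.length, q * π (FreeGroup.of i) * π (FreeGroup.mk (w.take s)) ∈ V := by
        intro s hs
        have h2 := hV (s + 1) (Nat.succ_le_succ hs)
        rw [List.take_succ_cons, Q6_mkc, map_mul, ← mul_assoc] at h2
        exact h2
      have hq' : q * π (FreeGroup.of i) ∈ V := by
        have := hV' 0 (Nat.zero_le _)
        rw [List.take_zero, h0, mul_one] at this
        exact this
      rw [Q6_t, ih _ hV', hlam q i hq hq', Sm, Q6_mkc, map_mul]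
      push_cast
      rw [zero_mul, Complex.exp_zero, one_mul, ← mul_assoc]
      ring
    | false =>
      have hV' : ∀ s ≤ w.length, q * (π (FreeGroup.of i))⁻¹ * π (FreeGroup.mk (w.take s)) ∈ V := by
        intro s hs
        have h2 := hV (s + 1) (Nat.succ_le_succ hs)
        rw [List.take_succ_cons, Q6_mkc', map_mul, map_inv, ← mul_assoc] at h2
        exact h2
      have hq' : q * (π (FreeGroup.of i))⁻¹ ∈ V := by
        have := hV' 0 (Nat.zero_le _)
        rw [List.take_zero, h0, mul_one] at this
        exact this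
      rw [Q6_f, ih _ hV', hlam _ i hq' (by rw [inv_mul_cancel_right]; exact hq), Sm, Q6_mkc', map_mul,
        map_inv]
      push_cast
      rw [zero_mul, neg_zero, Complex.exp_zero, one_mul, ← mul_assoc]
      ring

end Pool.Agent.LibCF24
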