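import Pool.Agent.LibCF24.QDefs

/-! Row Q7 (MEDIUM). Every isometry of a finite dimensional Euclidean space translates a line (or has a fixed point). ONLY Mathlib.

`g x = U x + b`, `U` a linear isometry (`IsometryEquiv.toRealAffineIsometryEquiv`). Let `R = range (U - 1)`; `b = (U - 1) c + b₀` with `b₀ ∈ Rᗮ` (`R` finite dimensional, orthogonal projection). `b₀ ∈ Rᗮ` gives `⟪b₀, U x⟫ = ⟪b₀, x⟫` for all `x`, so
`‖U b₀ - b₀‖² = 2 ‖b₀‖² - 2 ⟪b₀, U b₀⟫ = 0`, `U b₀ = b₀`. `z = - c`, `v = b₀`: `g (z + s v) = U z + s v + b = z + (U - 1) z + b + s v = z + (s + 1) v`.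
`axisV_iter`: induction. -/

set_option autoImplicit false

noncomputable section

open Set

namespace Pool.Agent.LibCF24

theorem axisV_exists {V : Type} [NormedAddCommGroup V] [InnerProductSpace ℝ V] [FiniteDimensional ℝ V] (g : V ≃ᵢ V) :
    ∃ z v, AxisV g z v := by
  obtain ⟨U, hU⟩ : ∃ U : V ≃ₗᵢ[ℝ] V, ∀ x, g x = U x + g 0 :=
    ⟨g.toRealLinearIsometryEquiv, fun x => by
      rw [IsometryEquiv.toRealLinearIsometryEquiv_apply, sub_add_cancel]⟩
  obtain ⟨p, hp, b, hb, hpb⟩ := Submodule.exists_add_mem_mem_orthogonal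
    (K := LinearMap.range (U.toLinearEquiv.toLinearMap - LinearMap.id)) (g 0)
  obtain ⟨c, hc⟩ := hp
  have hc' : U c - c = p := hc
  have horth : ∀ x, inner ℝ (U x - x) b = 0 := fun x =>
    (Submodule.mem_orthogonal _ _).1 hb _ ⟨x, rfl⟩
  have hbU : U b = b := by
    have h1 := horth b
    rw [inner_sub_left, real_inner_self_eq_norm_sq, sub_eq_zero] at h1
    have h2 : ‖U b - b‖ ^ 2 = 0 := by
      rw [norm_sub_sq_real, h1, LinearIsometryEquiv.norm_map]
      ring
    have h3 : ‖U b - b‖ = 0 := by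
      rcases pow_eq_zero_iff (two_ne_zero) |>.1 h2 with h4
      exact h4
    exact sub_eq_zero.1 (norm_eq_zero.1 h3)
  refine ⟨-c, b, fun s => ?_⟩
  rw [hU, map_add, map_neg, map_smul, hbU, hpb, ← hc', add_smul, one_smul]
  abel

theorem axisV_iter {V : Type} [NormedAddCommGroup V] [NormedSpace ℝ V] (g : V ≃ᵢ V) (z v : V) (h : AxisV g z v) (n : ℕ)
    (s : ℝ) : (g ^ n) (z + s • v) = z + (s + n) • v := by
  induction n generalizing s with
  | zero => simp
  | succ n ih =>
    rw [pow_succ, IsometryEquiv.mul_apply, h s, ih]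
    push_cast
    congr 2
    ring

end Pool.Agent.LibCF24
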