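import Pool.Agent.LibCF24.QDefs

/-! Row Q8 (MEDIUM). Transport to `ℝ^d`, products with scaling. ONLY Mathlib.

`transport`: `φ = (stdOrthonormalBasis ℝ V).repr`, `ρ' g = φ ∘ ρ g ∘ φ⁻¹`.
`combine`: choose `d j`, `ρ j`, `z j i`, `v j i`. `V = PiLp 2 (fun j => Ed (d j))`; `ρ g f = fun j => c j • ρ j g ((c j)⁻¹ • f j)`, `c j = √(n j) / ‖v j j‖ > 0`: isometry (`EuclideanSpace`/`PiLp` distance formula `PiLp.dist_eq_of_L2`), homomorphism.
`z i = fun j => c j • z j i`, `v i = fun j => c j • v j i` (only the component `j = i` is not zero), `‖v i‖² = c i² ‖v i i‖² = n i`. Then `transport`. -/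

set_option autoImplicit false

noncomputable section

open Set

namespace Pool.Agent.LibCF24

theorem transport {k : ℕ} {V : Type} [NormedAddCommGroup V] [InnerProductSpace ℝ V] [FiniteDimensional ℝ V]
    (ρ : Fr k →* (V ≃ᵢ V)) :
    ∃ (d : ℕ) (φ : V ≃ₗᵢ[ℝ] Ed d) (ρ' : Fr k →* (Ed d ≃ᵢ Ed d)), ∀ g x, ρ' g (φ x) = φ (ρ g x) := by
  let φ : V ≃ₗᵢ[ℝ] Ed (Module.finrank ℝ V) := (stdOrthonormalBasis ℝ V).repr
  let ψ : V ≃ᵢ Ed (Module.finrank ℝ V) := φ.toIsometryEquiv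
  refine ⟨Module.finrank ℝ V, φ,
    { toFun := fun g => (ψ.symm.trans (ρ g)).trans ψ
      map_one' := ?_
      map_mul' := ?_ }, ?_⟩
  · ext1 x
    change ψ ((ρ 1) (ψ.symm x)) = x
    rw [map_one]
    exact ψ.apply_symm_apply x
  · intro g h
    ext1 x
    change ψ ((ρ (g * h)) (ψ.symm x)) = ψ ((ρ g) (ψ.symm (ψ ((ρ h) (ψ.symm x)))))
    rw [map_mul, ψ.symm_apply_apply]
    rfl
  · intro g x
    change ψ ((ρ g) (ψ.symm (ψ x))) = φ (ρ g x)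
    rw [ψ.symm_apply_apply]
    rfl

/-- the product of the scaled actions -/
private def Q8_F {k m : ℕ} {d : Fin m → ℕ} (ρ : ∀ j, Fr k →* (Ed (d j) ≃ᵢ Ed (d j))) (c : Fin m → ℝ) (g : Fr k)
    (f : PiLp 2 (fun j : Fin m => Ed (d j))) : PiLp 2 (fun j : Fin m => Ed (d j)) :=
  WithLp.toLp 2 (fun j => c j • ρ j g ((c j)⁻¹ • f j))

private theorem Q8_F_apply {k m : ℕ} {d : Fin m → ℕ} (ρ : ∀ j, Fr k →* (Ed (d j) ≃ᵢ Ed (d j))) (c : Fin m → ℝ)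
    (g : Fr k) (f : PiLp 2 (fun j : Fin m => Ed (d j))) (j : Fin m) :
    Q8_F ρ c g f j = c j • ρ j g ((c j)⁻¹ • f j) := rfl

private theorem Q8_one {k m : ℕ} {d : Fin m → ℕ} (ρ : ∀ j, Fr k →* (Ed (d j) ≃ᵢ Ed (d j))) (c : Fin m → ℝ)
    (hc : ∀ j, 0 < c j) (f : PiLp 2 (fun j : Fin m => Ed (d j))) : Q8_F ρ c 1 f = f := by
  ext1 j
  rw [Q8_F_apply, map_one]
  change c j • ((c j)⁻¹ • f j) = f j
  rw [smul_smul, mul_inv_cancel₀ (hc j).ne', one_smul]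

private theorem Q8_mul {k m : ℕ} {d : Fin m → ℕ} (ρ : ∀ j, Fr k →* (Ed (d j) ≃ᵢ Ed (d j))) (c : Fin m → ℝ)
    (hc : ∀ j, 0 < c j) (g h : Fr k) (f : PiLp 2 (fun j : Fin m => Ed (d j))) :
    Q8_F ρ c (g * h) f = Q8_F ρ c g (Q8_F ρ c h f) := by
  ext1 j
  rw [Q8_F_apply, Q8_F_apply, Q8_F_apply, smul_smul, inv_mul_cancel₀ (hc j).ne', one_smul, map_mul]
  rfl

private theorem Q8_iso {k m : ℕ} {d : Fin m → ℕ} (ρ : ∀ j, Fr k →* (Ed (d j) ≃ᵢ Ed (d j))) (c : Fin m → ℝ)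
    (hc : ∀ j, 0 < c j) (g : Fr k) : Isometry (Q8_F ρ c g) := by
  refine Isometry.of_dist_eq fun f f' => ?_
  rw [PiLp.dist_eq_of_L2, PiLp.dist_eq_of_L2]
  congr 1
  refine Finset.sum_congr rfl fun j _ => ?_
  congr 1
  rw [Q8_F_apply, Q8_F_apply, dist_smul₀, (ρ j g).dist_eq, dist_smul₀, ← mul_assoc, norm_inv,
    mul_inv_cancel₀ (norm_ne_zero_iff.mpr (hc j).ne'), one_mul]

theorem combine {k m : ℕ} (y : Fin m → Fr k)
    (h : ∀ j, ∃ (d : ℕ) (ρ : Fr k →* (Ed d ≃ᵢ Ed d)), ∀ i, ∃ z v, Axis (ρ (y i)) z v ∧ (i ≠ j → v = 0) ∧ (i = j → v ≠ 0))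
    (n : Fin m → ℝ) (hn : ∀ i, 0 < n i) :
    ∃ (d : ℕ) (ρ : Fr k →* (Ed d ≃ᵢ Ed d)) (z v : Fin m → Ed d), (∀ i, Axis (ρ (y i)) (z i) (v i)) ∧ ∀ i, ‖v i‖ ^ 2 = n i := by
  choose d ρ z v hA h0 h1 using h
  have hv : ∀ j, 0 < ‖v j j‖ := fun j => norm_pos_iff.mpr (h1 j j rfl)
  let c : Fin m → ℝ := fun j => Real.sqrt (n j) / ‖v j j‖
  have hc : ∀ j, 0 < c j := fun j => div_pos (Real.sqrt_pos.mpr (hn j)) (hv j)
  let P : Fr k →* (PiLp 2 (fun j : Fin m => Ed (d j)) ≃ᵢ PiLp 2 (fun j : Fin m => Ed (d j))) :=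
    { toFun := fun g => IsometryEquiv.mk' (Q8_F ρ c g) (Q8_F ρ c g⁻¹)
        (fun f => by rw [← Q8_mul ρ c hc, mul_inv_cancel, Q8_one ρ c hc]) (Q8_iso ρ c hc g)
      map_one' := by
        ext1 f
        exact Q8_one ρ c hc f
      map_mul' := fun g h => by
        ext1 f
        exact Q8_mul ρ c hc g h f }
  obtain ⟨D, φ, P', hP'⟩ := transport P
  let zz : Fin m → PiLp 2 (fun j : Fin m => Ed (d j)) := fun i => WithLp.toLp 2 (fun j => c j • z j i)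
  let vv : Fin m → PiLp 2 (fun j : Fin m => Ed (d j)) := fun i => WithLp.toLp 2 (fun j => c j • v j i)
  have hax : ∀ i (s : ℝ), P (y i) (zz i + s • vv i) = zz i + (s + 1) • vv i := by
    intro i s
    ext1 j
    change c j • ρ j (y i) ((c j)⁻¹ • (c j • z j i + s • (c j • v j i))) = c j • z j i + (s + 1) • (c j • v j i)
    have e : (c j)⁻¹ • (c j • z j i + s • (c j • v j i)) = z j i + s • v j i := by
      rw [smul_add, smul_smul, inv_mul_cancel₀ (hc j).ne', one_smul, smul_comm s (c j), smul_smul,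
        inv_mul_cancel₀ (hc j).ne', one_smul]
    rw [e, hA j i s, smul_add, smul_comm (c j) (s + 1)]
  refine ⟨D, P', fun i => φ (zz i), fun i => φ (vv i), ?_, ?_⟩
  · intro i s
    rw [← map_smul, ← map_add, hP', hax, map_add, map_smul]
  · intro i
    rw [LinearIsometryEquiv.norm_map, PiLp.norm_sq_eq_of_L2, Finset.sum_eq_single i]
    · change ‖c i • v i i‖ ^ 2 = n i
      rw [norm_smul, Real.norm_eq_abs, abs_of_pos (hc i)]
      change (Real.sqrt (n i) / ‖v i i‖ * ‖v i i‖) ^ 2 = n i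
      rw [div_mul_cancel₀ _ (hv i).ne', Real.sq_sqrt (hn i).le]
    · intro j _ hj
      change ‖c j • v j i‖ ^ 2 = 0
      rw [h0 j i hj.symm, smul_zero, norm_zero]
      norm_num
    · intro h
      exact absurd (Finset.mem_univ i) h

end Pool.Agent.LibCF24
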