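import Pool.Agent.LibCF24.QA
import Pool.Agent.LibCF24.Q1
import Pool.Agent.LibCF24.Q2
import Pool.Agent.LibCF24.Q3
import Pool.Agent.LibCF24.Q4
import Pool.Agent.LibCF24.Q5
import Pool.Agent.LibCF24.Q6
import Pool.Agent.LibCF24.Q7
import Pool.Agent.LibCF24.Q8

/-! Row Q9 (MEDIUM). An action on `ℝ^d` in which only `y j` is not elliptic. QA, Q1 - Q8 may be cited as stated.

`S` = the commutators `⁅pr (y i) r' * (pr (y i) r)⁻¹, y i⁆` (`i`, `r < r' < norm (y i)`) and `⁅pr (y j) s * y i ^ d * (pr (y j) s)⁻¹, y j⁆` (`i ≠ j`, `s < norm (y j)`, `1 ≤ d ≤ norm (y j)`): finite, `1 ∉ S` (`comm_ne`, `comm_ne'`).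
`resid_fin`: `π : Fr k →* Q`. `o i = orderOf (π (y i)) > 0`, `W i = wd (y i) (o i)`, `mk (W i) = y i ^ o i`, `π (mk (W i)) = 1`. `V = VL π (y j)`. Allowed edges `E' = {e | ¬ (e.1 ∈ V ∧ e.1 * π (of e.2) ∈ V)}`. `generic` with `A = {i // i ≠ j} × Q`,
`c (i, q) e = Sm π (dl e) q (W i)`: for `(i, q)` let `u = q π(y_i^n) ∉ V` (`escape`), `e = fe π u (W i).head`: `Sm_first` at `u` (with `simple_wd`), `Sm_rot`; `e ∈ E'` because `u` is an end of `e`. Get `lam`. By `Sm_sum`: `0 < |Sm π lam q (W i)| < 1`.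
`kap = dl (fe π 1 (W j).head)`, `ρ₀ = act π lam kap` on `VQ Q`. For every `i`: `z, v` by `axisV_exists`.
`i ≠ j`: `ρ₀ (y i ^ o) (z + v) - ρ₀ (y i ^ o) z = v` (`axisV_iter`), and `act_diff` (`w = W i`): `v q = exp (i Sm) v q`, `exp (i x) ≠ 1` for `0 < |x| < 1`: `v q = 0`.
`i = j`: if `v = 0` then `ρ₀ (y j ^ o) z = z`, and `act_path` at `q = 1` (the vertices of the path are in `V` by `wd_take`) gives `z 1 = z 1 + Sm π kap 1 (W j)`, against `Sm_first`. Finally `transport`. -/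

set_option autoImplicit false

noncomputable section

open Set
open scoped commutatorElement

namespace Pool.Agent.LibCF24

private theorem Q9_fin (n : ℕ) (P : ℕ × ℕ → Prop) (h : ∀ p, P p → p.1 ≤ n ∧ p.2 ≤ n) : {p : ℕ × ℕ | P p}.Finite :=
  ((Set.finite_Iic n).prod (Set.finite_Iic n)).subset fun p hp => ⟨(h p hp).1, (h p hp).2⟩

private theorem Q9_exp {x : ℝ} (h0 : 0 < |x|) (h1 : |x| < 1) : Complex.exp (x * Complex.I) ≠ 1 := by
  intro h
  rw [Complex.exp_eq_one_iff] at h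
  obtain ⟨n, hn⟩ := h
  have hn' : (x : ℂ) = (n : ℂ) * (2 * Real.pi) := by
    have h2 : (x : ℂ) * Complex.I = ((n : ℂ) * (2 * Real.pi)) * Complex.I := by
      rw [hn]
      ring
    exact mul_right_cancel₀ Complex.I_ne_zero h2
  have hx : x = n * (2 * Real.pi) := by exact_mod_cast hn'
  have hpi := Real.pi_gt_three
  rcases eq_or_ne n 0 with h0' | h0'
  · rw [h0', Int.cast_zero, zero_mul] at hx
    rw [hx, abs_zero] at h0
    exact lt_irrefl _ h0
  · have hn1 : (1 : ℝ) ≤ |(n : ℝ)| := by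
      rw [← Int.cast_abs]
      exact_mod_cast Int.one_le_abs h0'
    rw [hx, abs_mul, abs_of_pos (by positivity : (0 : ℝ) < 2 * Real.pi)] at h1
    nlinarith

private theorem Q9_vertex {k : ℕ} {Q : Type} [Group Q] (π : Fr k →* Q) (y : Fr k) (hy : y ≠ 1) (n s : ℕ)
    (hs : s ≤ (wd y n).length) : π (FreeGroup.mk ((wd y n).take s)) ∈ VL π y := by
  have hL : 0 < FreeGroup.norm y := Nat.pos_of_ne_zero fun h => hy (FreeGroup.norm_eq_zero.mp h)
  rcases Nat.lt_or_ge (s / FreeGroup.norm y) n with h | h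
  · have h1 := wd_take y n (s / FreeGroup.norm y) (s % FreeGroup.norm y) h (Nat.mod_lt _ hL).le
    rw [mul_comm (s / FreeGroup.norm y), Nat.div_add_mod] at h1
    rw [h1]
    refine ⟨((s / FreeGroup.norm y : ℕ) : ℤ), s % FreeGroup.norm y, Nat.mod_lt _ hL, ?_⟩
    rw [zpow_natCast]
  · have h1 : (wd y n).length ≤ s := by
      rw [wd_length]
      exact (Nat.mul_le_mul_right _ h).trans (Nat.div_mul_le_self _ _)
    rw [List.take_of_length_le h1, mk_wd]
    refine ⟨(n : ℤ), 0, hL, ?_⟩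
    have e : pr y 0 = 1 := by
      unfold pr
      rw [List.take_zero]
      rfl
    rw [e, mul_one, zpow_natCast]

theorem one_axis {k m : ℕ} (y : Fin m → Fr k) (hy : ∀ i, Root (y i)) (hyc : ∀ i, FreeGroup.IsCyclicallyReduced (y i).toWord)
    (hI : ∀ i j, i ≠ j → Incom (y i) (y j)) (j : Fin m) :
    ∃ (d : ℕ) (ρ : Fr k →* (Ed d ≃ᵢ Ed d)), ∀ i, ∃ z v, Axis (ρ (y i)) z v ∧ (i ≠ j → v = 0) ∧ (i = j → v ≠ 0) := by
  classical
  let S : Set (Fr k) := ⋃ i : Fin m,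
    (((fun p : ℕ × ℕ => ⁅pr (y i) p.2 * (pr (y i) p.1)⁻¹, y i⁆) '' {p | p.1 < p.2 ∧ p.2 < FreeGroup.norm (y i)}) ∪
      ((fun p : ℕ × ℕ => ⁅pr (y j) p.1 * y i ^ p.2 * (pr (y j) p.1)⁻¹, y j⁆) ''
        {p | i ≠ j ∧ p.1 < FreeGroup.norm (y j) ∧ 1 ≤ p.2 ∧ p.2 ≤ FreeGroup.norm (y j)}))
  have hSf : S.Finite := by
    refine Set.finite_iUnion fun i => Set.Finite.union ?_ ?_
    · refine Set.Finite.image _ (Q9_fin (FreeGroup.norm (y i)) _ ?_)
      rintro ⟨a, b⟩ ⟨h1, h2⟩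
      simp only at h1 h2 ⊢
      omega
    · refine Set.Finite.image _ (Q9_fin (FreeGroup.norm (y j)) _ ?_)
      rintro ⟨a, b⟩ ⟨_, h1, h2, h3⟩
      simp only at h1 h2 h3 ⊢
      omega
  have hS1 : (1 : Fr k) ∉ S := by
    intro h
    obtain ⟨i, hi⟩ := Set.mem_iUnion.mp h
    rcases hi with ⟨p, ⟨h1, h2⟩, h3⟩ | ⟨p, ⟨h0, h1, h2, h2'⟩, h3⟩
    · exact comm_ne (y i) (hy i) (hyc i) p.1 p.2 h1 h2 h3
    · exact comm_ne' (y i) (y j) (hy j) (hI i j h0) (pr (y j) p.1) p.2 (by omega) h3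
  obtain ⟨Q, hG, hF, π, hπ⟩ := resid_fin S hSf hS1
  have hcomm : ∀ i, ∀ r r' : ℕ, r < r' → r' < FreeGroup.norm (y i) → π ⁅pr (y i) r' * (pr (y i) r)⁻¹, y i⁆ ≠ 1 := by
    intro i r r' h1 h2
    exact hπ _ (Set.mem_iUnion.mpr ⟨i, Or.inl ⟨(r, r'), ⟨h1, h2⟩, rfl⟩⟩)
  have hesc : ∀ i, i ≠ j → ∀ s d : ℕ, s < FreeGroup.norm (y j) → 1 ≤ d → d ≤ FreeGroup.norm (y j) →
      π ⁅pr (y j) s * y i ^ d * (pr (y j) s)⁻¹, y j⁆ ≠ 1 := by
    intro i h0 s d h1 h2 h3
    exact hπ _ (Set.mem_iUnion.mpr ⟨i, Or.inr ⟨(s, d), ⟨h0, h1, h2, h3⟩, rfl⟩⟩)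
  have hL : ∀ i, 0 < FreeGroup.norm (y i) := fun i =>
    Nat.pos_of_ne_zero fun h => (hy i).1 (FreeGroup.norm_eq_zero.mp h)
  let o : Fin m → ℕ := fun i => orderOf (π (y i))
  have ho : ∀ i, 0 < o i := fun i => orderOf_pos _
  let W : Fin m → List (Fin k × Bool) := fun i => wd (y i) (o i)
  have hWlen : ∀ i, 0 < (W i).length := by
    intro i
    change 0 < (wd (y i) (o i)).length
    rw [wd_length]
    exact Nat.mul_pos (ho i) (hL i)
  have hWne : ∀ i, W i ≠ [] := fun i => List.ne_nil_of_length_pos (hWlen i)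
  have hmk : ∀ i, FreeGroup.mk (W i) = y i ^ o i := fun i => mk_wd (y i) (o i)
  have hyo : ∀ i, π (y i ^ o i) = 1 := by
    intro i
    rw [map_pow]
    exact pow_orderOf_eq_one _
  have hloop : ∀ i, π (FreeGroup.mk (W i)) = 1 := by
    intro i
    rw [hmk, hyo]
  have hfirst : ∀ i q, Sm π (dl (fe π q ((W i).head (hWne i)))) q (W i) ≠ 0 := fun i q =>
    Sm_first π q (W i) (wd_cyc (y i) (hyc i) (o i)) (hWne i) (hloop i) fun s s' h1 h2 =>
      simple_wd π (y i) (hy i).1 (hcomm i) s s' h1 h2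
  let E' : Set (Q × Fin k) := {e | ¬ (e.1 ∈ VL π (y j) ∧ e.1 * π (FreeGroup.of e.2) ∈ VL π (y j))}
  obtain ⟨lam, hlam0, hlam⟩ := generic (E := Q × Fin k) (A := {i : Fin m // i ≠ j} × Q)
    (fun a e => Sm π (dl e) a.2 (W a.1)) E' (by
      rintro ⟨⟨i, hij⟩, q⟩
      obtain ⟨n, hn⟩ := escape π (y i) (y j) (hy j).1 (hesc i hij) q
      refine ⟨fe π (q * π (y i ^ n)) ((W i).head (hWne i)), ?_, ?_⟩
      · rintro ⟨h1, h2⟩
        apply hn
        by_cases hb : ((W i).head (hWne i)).2 = true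
        · have e : fe π (q * π (y i ^ n)) ((W i).head (hWne i)) = (q * π (y i ^ n), ((W i).head (hWne i)).1) := by
            unfold fe
            rw [if_pos hb]
          rw [e] at h1
          exact h1
        · have e : fe π (q * π (y i ^ n)) ((W i).head (hWne i)) =
              (q * π (y i ^ n) * (π (FreeGroup.of ((W i).head (hWne i)).1))⁻¹, ((W i).head (hWne i)).1) := by
            unfold fe
            rw [if_neg hb]
          rw [e] at h2
          simp only [inv_mul_cancel_right] at h2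
          exact h2
      · change Sm π (dl (fe π (q * π (y i ^ n)) ((W i).head (hWne i)))) q (W i) ≠ 0
        rw [← Sm_rot π _ q (y i) (o i) n (hyo i)]
        exact hfirst i (q * π (y i ^ n)))
  have hlam' : ∀ i, i ≠ j → ∀ q, 0 < |Sm π lam q (W i)| ∧ |Sm π lam q (W i)| < 1 := by
    intro i hij q
    rw [Sm_sum]
    exact hlam (⟨i, hij⟩, q)
  let kap : Q × Fin k → ℝ := dl (fe π 1 ((W j).head (hWne j)))
  have hkap : Sm π kap 1 (W j) ≠ 0 := hfirst j 1
  obtain ⟨d, φ, ρ', hρ'⟩ := transport (act π lam kap)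
  refine ⟨d, ρ', fun i => ?_⟩
  obtain ⟨z, v, hzv⟩ := axisV_exists (act π lam kap (y i))
  have hiter : ∀ s : ℝ, act π lam kap (FreeGroup.mk (W i)) (z + s • v) = z + (s + o i) • v := by
    intro s
    rw [hmk, map_pow]
    exact axisV_iter _ z v hzv (o i) s
  refine ⟨φ z, φ v, ?_, ?_, ?_⟩
  · intro s
    rw [← map_smul, ← map_add, hρ', hzv s, map_add, map_smul]
  · intro hij
    have hv0 : v = 0 := by
      ext1 q
      have h1 := act_diff π lam kap (W i) (z + (1 : ℝ) • v) (z + (0 : ℝ) • v) q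
      rw [hiter 1, hiter 0, hloop i, mul_one] at h1
      have e1 : (z + (1 + (o i : ℝ)) • v : VQ Q) q - (z + (0 + (o i : ℝ)) • v : VQ Q) q = v q := by
        have e : ((z + (1 + (o i : ℝ)) • v) - (z + (0 + (o i : ℝ)) • v) : VQ Q) = v := by
          rw [add_sub_add_left_eq_sub, ← sub_smul, zero_add, add_sub_cancel_right, one_smul]
        rw [← PiLp.sub_apply, e]
      have e2 : (z + (1 : ℝ) • v : VQ Q) q - (z + (0 : ℝ) • v : VQ Q) q = v q := by
        have e : ((z + (1 : ℝ) • v) - (z + (0 : ℝ) • v) : VQ Q) = v := by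
          rw [add_sub_add_left_eq_sub, ← sub_smul, sub_zero, one_smul]
        rw [← PiLp.sub_apply, e]
      rw [e1, e2] at h1
      have hne := Q9_exp (hlam' i hij q).1 (hlam' i hij q).2
      have h2 : (1 - Complex.exp (Sm π lam q (W i) * Complex.I)) * v q = 0 := by
        rw [sub_mul, one_mul, ← h1, sub_self]
      rcases mul_eq_zero.mp h2 with h3 | h3
      · exact absurd (sub_eq_zero.mp h3).symm hne
      · rw [h3]
        rfl
    rw [hv0, map_zero]
  · intro hij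
    subst hij
    intro hv0
    have hv : v = 0 := by
      apply φ.injective
      rw [hv0, map_zero]
    have h1 := hiter 0
    rw [hv, smul_zero, smul_zero, add_zero] at h1
    have h2 := act_path π lam kap (VL π (y i)) (fun q l hq hq' => hlam0 (q, l) fun h => h ⟨hq, hq'⟩) (W i) 1
      (fun s hs => by
        rw [one_mul]
        exact Q9_vertex π (y i) (hy i).1 (o i) s hs) z
    rw [h1, hloop, mul_one] at h2
    have h3 : (Sm π kap 1 (W i) : ℂ) = 0 := by
      have h4 := sub_eq_zero.mpr h2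
      rw [sub_add_cancel_left, neg_eq_zero] at h4
      exact h4
    exact hkap (by exact_mod_cast h3)

end Pool.Agent.LibCF24
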