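import Pool.Agent.LibCF24.QDefs

/-! Row QA (MEDIUM). Free groups are residually finite, finitely many elements at once. ONLY Mathlib.

The file Pool/Agent/LibAut2/Hopf.lean of the graded repository (outputs/live) proves `resid` for `FreeGroup (Fin 2)` (`exists_perm_letter`, `resid`): copy the two proofs (about 100 lines) with `Fin 2` replaced by `Fin k`
(private lemmas `QA_...`, do not import that file). Then take the product of the finite groups `Equiv.Perm (Fin (n_s + 1))`, `s ∈ S` (`Pi.group`, `MonoidHom.pi`). -/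

set_option autoImplicit false

noncomputable section

open Set

namespace Pool.Agent.LibCF24

/-- The permutation given by one generator. -/
private theorem QA_perm {m : ℕ} (L : List (Fin m × Bool)) (hL : FreeGroup.IsReduced L) (i : Fin m) :
    ∃ σ : Equiv.Perm (Fin (L.length + 1)),
      (∀ (k : ℕ) (h : k < L.length), L[k] = (i, true) →
        σ ⟨k + 1, by omega⟩ = ⟨k, by omega⟩) ∧
      (∀ (k : ℕ) (h : k < L.length), L[k] = (i, false) →
        σ ⟨k, by omega⟩ = ⟨k + 1, by omega⟩) := by
  classical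
  have hcons : ∀ (k : ℕ) (h : k + 1 < L.length), L[k] = (i, true) → L[k + 1] = (i, false) →
      False := by
    intro k h h1 h2
    have h3 := List.isChain_iff_getElem.1 hL k h
    rw [h1, h2] at h3
    exact Bool.noConfusion (h3 rfl)
  have hcons' : ∀ (k : ℕ) (h : k + 1 < L.length), L[k] = (i, false) → L[k + 1] = (i, true) →
      False := by
    intro k h h1 h2
    have h3 := List.isChain_iff_getElem.1 hL k h
    rw [h1, h2] at h3
    exact Bool.noConfusion (h3 rfl)
  let A : Fin (L.length + 1) → Prop := fun x => ∃ (k : ℕ) (h : k < L.length),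
    L[k] = (i, true) ∧ x.1 = k + 1
  let S : Set (Fin (L.length + 1)) := {x | A x ∨ ∃ h : x.1 < L.length, L[x.1] = (i, false)}
  let f : Fin (L.length + 1) → Fin (L.length + 1) := fun x =>
    if A x then ⟨x.1 - 1, by omega⟩ else ⟨min (x.1 + 1) L.length, by omega⟩
  have hinj : Set.InjOn f S := by
    intro x hx y hy hxy
    by_cases hAx : A x
    · by_cases hAy : A y
      · simp only [f, if_pos hAx, if_pos hAy, Fin.mk.injEq] at hxy
        obtain ⟨k, _, _, hk⟩ := hAx
        obtain ⟨l, _, _, hl⟩ := hAy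
        exact Fin.ext (by omega)
      · simp only [f, if_pos hAx, if_neg hAy, Fin.mk.injEq] at hxy
        obtain ⟨h1, h2⟩ := hy.resolve_left hAy
        obtain ⟨k, hk, hk1, hk2⟩ := hAx
        have hk3 : k = y.1 + 1 := by omega
        subst hk3
        exact (hcons' y.1 hk h2 hk1).elim
    · obtain ⟨h1, h2⟩ := hx.resolve_left hAx
      by_cases hAy : A y
      · simp only [f, if_neg hAx, if_pos hAy, Fin.mk.injEq] at hxy
        obtain ⟨k, hk, hk1, hk2⟩ := hAy
        have hk3 : k = x.1 + 1 := by omega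
        subst hk3
        exact (hcons' x.1 hk h2 hk1).elim
      · obtain ⟨h3, h4⟩ := hy.resolve_left hAy
        simp only [f, if_neg hAx, if_neg hAy, Fin.mk.injEq] at hxy
        exact Fin.ext (by omega)
  obtain ⟨g, hg⟩ := Set.MapsTo.exists_equiv_extend_of_card_eq
    (t := (Finset.univ : Finset (Fin (L.length + 1)))) (by simp)
    (s := S) (f := f) (fun x _ => Finset.mem_coe.2 (Finset.mem_univ _)) hinj
  refine ⟨g.trans (Equiv.subtypeUnivEquiv (fun x => Finset.mem_univ x)), ?_, ?_⟩
  · intro k h hk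
    have hA : A ⟨k + 1, by omega⟩ := ⟨k, h, hk, rfl⟩
    have h1 := hg ⟨k + 1, by omega⟩ (Or.inl hA)
    simp only [f, if_pos hA] at h1
    exact h1
  · intro k h hk
    have hA : ¬ A ⟨k, by omega⟩ := by
      rintro ⟨l, hl, hl1, hl2⟩
      have hl2' : k = l + 1 := hl2
      subst hl2'
      exact hcons l h hl1 hk
    have h1 := hg ⟨k, by omega⟩ (Or.inr ⟨h, hk⟩)
    simp only [f, if_neg hA] at h1
    refine Eq.trans h1 (Fin.ext ?_)
    show min (k + 1) L.length = k + 1
    omega

/-- Free groups are residually finite. -/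
private theorem QA_resid {m : ℕ} (w : Fr m) (hw : w ≠ 1) :
    ∃ n : ℕ, ∃ ρ : Fr m →* Equiv.Perm (Fin (n + 1)), ρ w ≠ 1 := by
  classical
  obtain ⟨L, hLw, hL⟩ : ∃ L : List (Fin m × Bool), FreeGroup.mk L = w ∧ FreeGroup.IsReduced L :=
    ⟨w.toWord, FreeGroup.mk_toWord, FreeGroup.isReduced_toWord⟩
  choose σ hσ1 hσ2 using QA_perm L hL
  refine ⟨L.length, FreeGroup.lift σ, ?_⟩
  have key : ∀ (k : ℕ) (hk : k ≤ L.length),
      (((L.take k).map fun x => cond x.2 (σ x.1) (σ x.1)⁻¹).prod) ⟨k, by omega⟩ =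
        (⟨0, by omega⟩ : Fin (L.length + 1)) := by
    intro k
    induction k with
    | zero => intro _; simp
    | succ k ih =>
      intro hk
      have hk' : k < L.length := hk
      have hstep : (cond (L[k]).2 (σ (L[k]).1) (σ (L[k]).1)⁻¹ : Equiv.Perm _)
          ⟨k + 1, by omega⟩ = ⟨k, by omega⟩ := by
        rcases hLk : L[k] with ⟨j, e⟩
        cases e with
        | true => exact hσ1 j k hk' hLk
        | false => exact Equiv.Perm.inv_eq_iff_eq.2 (hσ2 j k hk' hLk).symm
      rw [List.take_succ_eq_append_getElem hk', List.map_append, List.prod_append,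
        Equiv.Perm.mul_apply, List.map_singleton, List.prod_singleton, hstep]
      exact ih (by omega)
  intro h1
  have h2 := key L.length le_rfl
  rw [List.take_length, ← FreeGroup.lift_mk, hLw, h1, Equiv.Perm.one_apply] at h2
  have h3 : L.length = 0 := congrArg Fin.val h2
  apply hw
  rw [← hLw, List.length_eq_zero_iff.1 h3]
  rfl

theorem resid_fin {k : ℕ} (S : Set (Fr k)) (hS : S.Finite) (h1 : (1 : Fr k) ∉ S) :
    ∃ (Q : Type) (_ : Group Q) (_ : Fintype Q) (π : Fr k →* Q), ∀ s ∈ S, π s ≠ 1 := by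
  classical
  have hfin : Fintype S := hS.fintype
  have hne : ∀ s : S, (s : Fr k) ≠ 1 := by
    rintro ⟨s, hs⟩ h
    apply h1
    rw [← h]
    exact hs
  choose n ρ hρ using fun s : S => QA_resid (s : Fr k) (hne s)
  refine ⟨∀ s : S, Equiv.Perm (Fin (n s + 1)), inferInstance, inferInstance, MonoidHom.pi ρ, ?_⟩
  intro s hs h
  exact hρ ⟨s, hs⟩ (congrFun h ⟨s, hs⟩)

end Pool.Agent.LibCF24
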