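import Pool.Agent.LibCF24.QDefs

/-! Row QB (MEDIUM). Centralisers in free groups are cyclic. ONLY Mathlib.

`free_center`: if `x ≠ 1`, let `l` be the first letter of `x.toWord`; choose a generator `d ∈ {a, b}` different from `l.1`. The word of `of d * x` is `(d, true) :: x.toWord` (reduced as written); the word of `x * of d` starts with
`l` (either `x.toWord ++ [(d, true)]` is reduced, or the last letter is `(d, false)` and is cancelled; then `x.toWord` has length at least 2 because its first letter is `l`, `l.1 ≠ d`). Contradiction.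
`cent_cyclic`: `C = Subgroup.centralizer {y}` is a free group (Nielsen-Schreier: the instance `subgroupIsFreeOfIsFree` in Mathlib.GroupTheory.FreeGroup.NielsenSchreier), `C ≃* FreeGroup ι` (`IsFreeGroup.toFreeGroup`), `y` becomes a
central element `≠ 1`, so `ι` is a subsingleton by `free_center`, and `C` is generated by at most one element. -/

set_option autoImplicit false

noncomputable section

open Set

namespace Pool.Agent.LibCF24

private theorem QB_head {ι : Type} [DecidableEq ι] {x : FreeGroup ι} {l : ι × Bool} {L : List (ι × Bool)}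
    (hw : x.toWord = l :: L) {d : ι} (hd : d ≠ l.1) (hc : x * FreeGroup.of d = FreeGroup.of d * x) :
    False := by
  have h1 : FreeGroup.IsReduced ((d, true) :: l :: L) := by
    rw [FreeGroup.isReduced_cons_cons]
    refine ⟨fun h => absurd h hd, ?_⟩
    rw [← hw]
    exact FreeGroup.isReduced_toWord
  have h2 : (FreeGroup.of d * x).toWord = (d, true) :: l :: L := by
    rw [FreeGroup.toWord_mul, FreeGroup.toWord_of, hw]
    exact h1.reduce_eq
  have h3 : (x * FreeGroup.of d).toWord.Sublist (x.toWord ++ (FreeGroup.of d).toWord) :=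
    FreeGroup.toWord_mul_sublist x (FreeGroup.of d)
  rw [hc, h2, hw, FreeGroup.toWord_of] at h3
  have h4 := h3.eq_of_length (by simp)
  have h5 : (d, true) = l := by
    have := congrArg List.head? h4
    simpa using this
  exact hd (by rw [← h5])

theorem free_center {ι : Type} (x : FreeGroup ι) (hx : ∀ u, Commute x u) (a b : ι) (hab : a ≠ b) : x = 1 := by
  classical
  by_contra hne
  have h1 : x.toWord ≠ [] := fun h => hne (FreeGroup.toWord_eq_nil_iff.1 h)
  obtain ⟨l, L, hw⟩ := List.exists_cons_of_ne_nil h1
  by_cases ha : a = l.1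
  · exact QB_head hw (d := b) (fun hb => hab (ha.trans hb.symm)) (hx _)
  · exact QB_head hw (d := a) ha (hx _)

theorem cent_cyclic {k : ℕ} (y : Fr k) (hy : y ≠ 1) : ∃ r : Fr k, ∀ u, Commute u y ↔ u ∈ Subgroup.zpowers r := by
  classical
  let C : Subgroup (Fr k) := Subgroup.centralizer {y}
  have hC : ∀ u, u ∈ C ↔ Commute u y := by
    intro u
    exact Subgroup.mem_centralizer_singleton_iff
  have hyC : y ∈ C := (hC y).2 (Commute.refl y)
  let e : C ≃* FreeGroup (IsFreeGroup.Generators C) := IsFreeGroup.toFreeGroup C
  have hy' : e ⟨y, hyC⟩ ≠ 1 := by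
    intro h
    have h1 : (⟨y, hyC⟩ : C) = 1 := by
      apply e.injective
      rw [h, map_one]
    exact hy (congrArg Subtype.val h1)
  have hcen : ∀ u, Commute (e ⟨y, hyC⟩) u := by
    intro u
    have h1 : Commute (⟨y, hyC⟩ : C) (e.symm u) := by
      have h2 := (hC _).1 (e.symm u).2
      exact Subtype.ext h2.symm
    have h3 := h1.map e
    rwa [e.apply_symm_apply] at h3
  have hsub : ∀ a b : IsFreeGroup.Generators C, a = b := by
    intro a b
    by_contra hab
    exact hy' (free_center _ hcen a b hab)
  have hne : Nonempty (IsFreeGroup.Generators C) := by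
    by_contra hemp
    rw [not_nonempty_iff] at hemp
    exact hy' (Subsingleton.elim _ _)
  obtain ⟨a⟩ := hne
  have hall : ∀ g : FreeGroup (IsFreeGroup.Generators C), g ∈ Subgroup.zpowers (FreeGroup.of a) := by
    intro g
    rw [Subgroup.zpowers_eq_closure]
    have h1 : Set.range (FreeGroup.of : IsFreeGroup.Generators C → _) = {FreeGroup.of a} := by
      ext z
      constructor
      · rintro ⟨b, rfl⟩
        rw [hsub b a]
        exact Set.mem_singleton _
      · intro hz
        exact ⟨a, hz.symm⟩
    rw [← h1, FreeGroup.closure_range_of]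
    exact Subgroup.mem_top g
  refine ⟨(e.symm (FreeGroup.of a) : C), fun u => ?_⟩
  constructor
  · intro hu
    obtain ⟨m, hm⟩ := Subgroup.mem_zpowers_iff.1 (hall (e ⟨u, (hC u).2 hu⟩))
    refine Subgroup.mem_zpowers_iff.2 ⟨m, ?_⟩
    have h1 : (e.symm (FreeGroup.of a)) ^ m = ⟨u, (hC u).2 hu⟩ := by
      apply e.injective
      rw [map_zpow, e.apply_symm_apply, hm]
    have h2 := congrArg Subtype.val h1
    rw [Subgroup.coe_zpow] at h2
    exact h2
  · intro hu
    obtain ⟨m, hm⟩ := Subgroup.mem_zpowers_iff.1 hu
    rw [← hm]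
    exact ((hC _).1 (e.symm (FreeGroup.of a)).2).zpow_left m

end Pool.Agent.LibCF24
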