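import Pool.Agent.LibCF24.LDefs

/-! # Isometric actions of a free group on `ℝ^d` with prescribed translation lengths: definitions -/

set_option autoImplicit false

noncomputable section

open Set

namespace Pool.Agent.LibCF24

/-- `g` translates along the line `z + ℝ v` by `v` -/
def AxisV {V : Type} [NormedAddCommGroup V] [NormedSpace ℝ V] (g : V ≃ᵢ V) (z v : V) : Prop :=
  ∀ s : ℝ, g (z + s • v) = z + (s + 1) • v

variable {k : ℕ} {Q : Type} [Group Q]

/-- sum of `c` along the path which starts at `q` and reads the word `w` in the Cayley graph of `Q`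
(the edge `(x, i)` goes from `x` to `x * π a_i`) -/
def Sm (π : Fr k →* Q) (c : Q × Fin k → ℝ) : Q → List (Fin k × Bool) → ℝ
  | _, [] => 0
  | q, (i, true) :: w => c (q, i) + Sm π c (q * π (FreeGroup.of i)) w
  | q, (i, false) :: w => - c (q * (π (FreeGroup.of i))⁻¹, i) + Sm π c (q * (π (FreeGroup.of i))⁻¹) w

/-- the edge crossed by the letter `l` read from `q` -/
def fe (π : Fr k →* Q) (q : Q) (l : Fin k × Bool) : Q × Fin k :=
  if l.2 then (q, l.1) else (q * (π (FreeGroup.of l.1))⁻¹, l.1)

open scoped Classical in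
/-- indicator function of `e` -/
def dl {E : Type} (e : E) : E → ℝ := fun x => if x = e then 1 else 0

/-- the word of `y ^ n` (`y` cyclically reduced) -/
def wd (y : Fr k) (n : ℕ) : List (Fin k × Bool) := (List.replicate n y.toWord).flatten

/-- prefix of `y` -/
def pr (y : Fr k) (r : ℕ) : Fr k := FreeGroup.mk (y.toWord.take r)

/-- the vertices of the closed path of `y` through `1` -/
def VL (π : Fr k →* Q) (y : Fr k) : Set Q := {x | ∃ (a : ℤ) (s : ℕ), s < FreeGroup.norm y ∧ x = π (y ^ a * pr y s)}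

/-- `y` generates its centraliser -/
def Root (y : Fr k) : Prop := y ≠ 1 ∧ ∀ u, Commute u y → u ∈ Subgroup.zpowers y

/-- no conjugate of a nontrivial power of `y` is a power of `y'` -/
def Incom (y y' : Fr k) : Prop := ∀ (x : Fr k) (a b : ℤ), a ≠ 0 → x * y ^ a * x⁻¹ ≠ y' ^ b

variable [Fintype Q]

/-- complex functions on `Q` -/
abbrev VQ (Q : Type) [Fintype Q] : Type := PiLp 2 (fun _ : Q => ℂ)

/-- `(a_i f) (q) = e^(i lam(q,i)) f (q π(a_i)) + kap (q, i)` -/
def letter (π : Fr k →* Q) (lam kap : Q × Fin k → ℝ) (i : Fin k) : VQ Q ≃ᵢ VQ Q :=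
  (LinearIsometryEquiv.piLpCongrLeft 2 ℝ ℂ (Equiv.mulRight (π (FreeGroup.of i))⁻¹)).toIsometryEquiv.trans
    ((LinearIsometryEquiv.piLpCongrRight 2 (fun q : Q => rotation (Circle.exp (lam (q, i))))).toIsometryEquiv.trans
      (IsometryEquiv.addRight (WithLp.toLp 2 (fun q : Q => ((kap (q, i) : ℝ) : ℂ)))))

theorem letter_apply (π : Fr k →* Q) (lam kap : Q × Fin k → ℝ) (i : Fin k) (f : VQ Q) (q : Q) :
    letter π lam kap i f q = Complex.exp (lam (q, i) * Complex.I) * f (q * π (FreeGroup.of i)) + kap (q, i) := by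
  simp [letter, LinearIsometryEquiv.piLpCongrLeft_apply, Equiv.piCongrLeft', rotation_apply, Circle.coe_exp]

/-- the action of the free group -/
def act (π : Fr k →* Q) (lam kap : Q × Fin k → ℝ) : Fr k →* (VQ Q ≃ᵢ VQ Q) := FreeGroup.lift (letter π lam kap)

end Pool.Agent.LibCF24
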