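import Pool.Agent.LibCF24.Defs

/-! Row R0 (SHORT, many small lemmas). Basic facts on geodesics and upper angles. ONLY Defs.

`dist_eq`: `iso 0 L`. `symm`: `|(L-s)-(L-t)| = |s-t|`. `sub`: shift by `a`.
`concat`: `δ t = if t ≤ L₁ then γ₁ t else γ₂ (t - L₁)`; for `s ≤ L₁ ≤ t`: `dist ≤ (L₁ - s) + (t - L₁) = t - s` by the triangle inequality and
`L₁ + L₂ = dist x z ≤ s + dist (δ s) (δ t) + (L₁ + L₂ - t)`.
`UA.congr`: take the minimum of the two `δ`. `UA.mono`: `c' ≤ c`: `- 2 (c - ε) s t ≤ - 2 (c' - ε) s t`.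
`UA.neg_one`: `dist ≤ s + t` gives `dist ^ 2 ≤ s ^ 2 + t ^ 2 + 2 s t ≤ s ^ 2 + t ^ 2 - 2 (-1 - ε) s t`.
`UA.same`: `dist (γ s) (γ t) ^ 2 = (s - t) ^ 2`.
The relabelling lemmas of `TriUA` only use `rev (rev γ L) L = γ`, `co_comm` and `UA.symm`. -/

set_option autoImplicit false

noncomputable section

open Set

namespace Pool.Agent.LibCF24

variable {M : Type*} [MetricSpace M]

theorem rev_rev (γ : ℝ → M) (L : ℝ) : rev (rev γ L) L = γ := by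
  funext t
  simp [rev]

theorem IsGeo.dist_eq {γ : ℝ → M} {L : ℝ} {x y : M} (h : IsGeo γ L x y) : dist x y = L := by
  rw [← h.left, ← h.right, h.iso 0 ⟨le_rfl, h.nonneg⟩ L ⟨h.nonneg, le_rfl⟩, zero_sub, abs_neg,
    abs_of_nonneg h.nonneg]

theorem IsGeo.symm {γ : ℝ → M} {L : ℝ} {x y : M} (h : IsGeo γ L x y) : IsGeo (rev γ L) L y x := by
  refine ⟨h.nonneg, by simp [rev, h.right], by simp [rev, h.left], fun s hs t ht => ?_⟩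
  change dist (γ (L - s)) (γ (L - t)) = |s - t|
  rw [h.iso _ ⟨sub_nonneg.2 hs.2, sub_le_self _ hs.1⟩ _ ⟨sub_nonneg.2 ht.2, sub_le_self _ ht.1⟩,
    sub_sub_sub_cancel_left, abs_sub_comm]

theorem IsGeo.sub {γ : ℝ → M} {L : ℝ} {x y : M} (h : IsGeo γ L x y) {a b : ℝ} (ha : 0 ≤ a) (hab : a ≤ b) (hb : b ≤ L) :
    IsGeo (fun t => γ (a + t)) (b - a) (γ a) (γ b) := by
  refine ⟨sub_nonneg.2 hab, by simp, by simp, fun s hs t ht => ?_⟩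
  rw [h.iso _ ⟨by linarith [hs.1], by linarith [hs.2]⟩ _ ⟨by linarith [ht.1], by linarith [ht.2]⟩,
    add_sub_add_left_eq_sub]

theorem IsGeo.init {γ : ℝ → M} {L : ℝ} {x y : M} (h : IsGeo γ L x y) {b : ℝ} (hb0 : 0 ≤ b) (hb : b ≤ L) :
    IsGeo γ b x (γ b) := by
  refine ⟨hb0, h.left, rfl, fun s hs t ht => ?_⟩
  exact h.iso _ ⟨hs.1, hs.2.trans hb⟩ _ ⟨ht.1, ht.2.trans hb⟩

theorem IsGeo.congr {γ γ' : ℝ → M} {L : ℝ} {x y : M} (h : IsGeo γ L x y) (e : ∀ s ∈ Icc (0 : ℝ) L, γ' s = γ s) :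
    IsGeo γ' L x y := by
  refine ⟨h.nonneg, ?_, ?_, fun s hs t ht => ?_⟩
  · rw [e 0 ⟨le_rfl, h.nonneg⟩, h.left]
  · rw [e L ⟨h.nonneg, le_rfl⟩, h.right]
  · rw [e s hs, e t ht, h.iso s hs t ht]

/-- two geodesics whose lengths add up to the distance of the end points can be concatenated -/
theorem IsGeo.concat {γ₁ γ₂ : ℝ → M} {L₁ L₂ : ℝ} {x y z : M} (h₁ : IsGeo γ₁ L₁ x y) (h₂ : IsGeo γ₂ L₂ y z)
    (h : dist x z = L₁ + L₂) :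
    ∃ γ : ℝ → M, IsGeo γ (L₁ + L₂) x z ∧ (∀ s ∈ Icc (0 : ℝ) L₁, γ s = γ₁ s) ∧
      ∀ s ∈ Icc (0 : ℝ) L₂, γ (L₁ + s) = γ₂ s := by
  have hn₁ := h₁.nonneg
  have hn₂ := h₂.nonneg
  obtain ⟨δ, hδ⟩ : ∃ δ : ℝ → M, δ = fun t => if t ≤ L₁ then γ₁ t else γ₂ (t - L₁) := ⟨_, rfl⟩
  have hA : ∀ s ∈ Icc (0 : ℝ) L₁, δ s = γ₁ s := by
    intro s hs
    rw [hδ]
    exact if_pos hs.2
  have hB : ∀ s ∈ Icc (0 : ℝ) L₂, δ (L₁ + s) = γ₂ s := by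
    intro s hs
    rw [hδ]
    by_cases hs0 : L₁ + s ≤ L₁
    · have h0 : s = 0 := le_antisymm (by linarith) hs.1
      simp only [if_pos hs0]
      rw [h0, add_zero, h₁.right, h₂.left]
    · simp only [if_neg hs0]
      congr 1
      ring
  have hmix : ∀ s ∈ Icc (0 : ℝ) L₁, ∀ t ∈ Icc (0 : ℝ) L₂,
      dist (γ₁ s) (γ₂ t) = L₁ + t - s := by
    intro s hs t ht
    have e1 : dist (γ₁ s) y = L₁ - s := by
      rw [← h₁.right, h₁.iso s hs L₁ ⟨hn₁, le_rfl⟩, abs_sub_comm, abs_of_nonneg (by linarith [hs.2])]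
    have e2 : dist y (γ₂ t) = t := by
      rw [← h₂.left, h₂.iso 0 ⟨le_rfl, hn₂⟩ t ht, zero_sub, abs_neg, abs_of_nonneg ht.1]
    have e3 : dist x (γ₁ s) = s := by
      rw [← h₁.left, h₁.iso 0 ⟨le_rfl, hn₁⟩ s hs, zero_sub, abs_neg, abs_of_nonneg hs.1]
    have e4 : dist (γ₂ t) z = L₂ - t := by
      rw [← h₂.right, h₂.iso t ht L₂ ⟨hn₂, le_rfl⟩, abs_sub_comm, abs_of_nonneg (by linarith [ht.2])]
    have t1 := dist_triangle (γ₁ s) y (γ₂ t)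
    have t2 := dist_triangle4 x (γ₁ s) (γ₂ t) z
    linarith
  have hle : ∀ s t : ℝ, 0 ≤ s → s ≤ t → t ≤ L₁ + L₂ → dist (δ s) (δ t) = t - s := by
    intro s t hs hst ht
    by_cases h1 : t ≤ L₁
    · rw [hA s ⟨hs, hst.trans h1⟩, hA t ⟨hs.trans hst, h1⟩,
        h₁.iso s ⟨hs, hst.trans h1⟩ t ⟨hs.trans hst, h1⟩, abs_sub_comm,
        abs_of_nonneg (by linarith)]
    · push Not at h1
      have ht' : t - L₁ ∈ Icc (0 : ℝ) L₂ := ⟨by linarith, by linarith⟩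
      have e1 : δ t = γ₂ (t - L₁) := by
        rw [← hB _ ht']
        congr 1
        ring
      by_cases h2 : s ≤ L₁
      · rw [hA s ⟨hs, h2⟩, e1, hmix s ⟨hs, h2⟩ _ ht']
        ring
      · push Not at h2
        have hs' : s - L₁ ∈ Icc (0 : ℝ) L₂ := ⟨by linarith, by linarith⟩
        have e2 : δ s = γ₂ (s - L₁) := by
          rw [← hB _ hs']
          congr 1
          ring
        rw [e1, e2, h₂.iso _ hs' _ ht', sub_sub_sub_cancel_right, abs_sub_comm,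
          abs_of_nonneg (by linarith)]
  refine ⟨δ, ⟨by linarith, ?_, ?_, fun s hs t ht => ?_⟩, hA, hB⟩
  · rw [hA 0 ⟨le_rfl, hn₁⟩, h₁.left]
  · rw [hB L₂ ⟨hn₂, le_rfl⟩, h₂.right]
  · rcases le_total s t with hst | hst
    · rw [hle s t hs.1 hst ht.2, abs_sub_comm, abs_of_nonneg (by linarith)]
    · rw [dist_comm, hle t s ht.1 hst hs.2, abs_of_nonneg (by linarith)]

theorem co_comm (a b c : ℝ) : co a b c = co b a c := by
  unfold co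
  rw [mul_right_comm, add_comm (a ^ 2)]

theorem UA.symm {γ₁ γ₂ : ℝ → M} {c : ℝ} (h : UA γ₁ γ₂ c) : UA γ₂ γ₁ c := by
  intro ε hε
  obtain ⟨δ, hδ, h1⟩ := h ε hε
  refine ⟨δ, hδ, fun s t hs hs' ht ht' => ?_⟩
  have h2 := h1 t s ht ht' hs hs'
  rw [dist_comm]
  linarith

theorem UA.mono {γ₁ γ₂ : ℝ → M} {c c' : ℝ} (h : UA γ₁ γ₂ c) (hc : c' ≤ c) : UA γ₁ γ₂ c' := by
  intro ε hε
  obtain ⟨δ, hδ, h1⟩ := h ε hε
  refine ⟨δ, hδ, fun s t hs hs' ht ht' => ?_⟩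
  have h2 := h1 s t hs hs' ht ht'
  have h3 : 0 ≤ (c - c') * s * t := mul_nonneg (mul_nonneg (sub_nonneg.2 hc) hs.le) ht.le
  linarith

theorem UA.congr {γ₁ γ₂ γ₁' γ₂' : ℝ → M} {c δ : ℝ} (h : UA γ₁ γ₂ c) (hδ : 0 < δ)
    (e₁ : ∀ s, 0 < s → s < δ → γ₁' s = γ₁ s) (e₂ : ∀ s, 0 < s → s < δ → γ₂' s = γ₂ s) : UA γ₁' γ₂' c := by
  intro ε hε
  obtain ⟨δ', hδ', h1⟩ := h ε hε
  refine ⟨min δ δ', lt_min hδ hδ', fun s t hs hs' ht ht' => ?_⟩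
  rw [e₁ s hs (hs'.trans_le (min_le_left _ _)), e₂ t ht (ht'.trans_le (min_le_left _ _))]
  exact h1 s t hs (hs'.trans_le (min_le_right _ _)) ht (ht'.trans_le (min_le_right _ _))

theorem UA.neg_one {γ₁ γ₂ : ℝ → M} {L₁ L₂ : ℝ} {x y z : M} (h₁ : IsGeo γ₁ L₁ x y) (h₂ : IsGeo γ₂ L₂ x z)
    (hL₁ : 0 < L₁) (hL₂ : 0 < L₂) : UA γ₁ γ₂ (-1) := by
  intro ε hε
  refine ⟨min L₁ L₂, lt_min hL₁ hL₂, fun s t hs hs' ht ht' => ?_⟩
  have hs1 : s ∈ Icc (0 : ℝ) L₁ := ⟨hs.le, (hs'.trans_le (min_le_left _ _)).le⟩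
  have ht1 : t ∈ Icc (0 : ℝ) L₂ := ⟨ht.le, (ht'.trans_le (min_le_right _ _)).le⟩
  have e1 : dist (γ₁ s) x = s := by
    rw [← h₁.left, h₁.iso s hs1 0 ⟨le_rfl, hL₁.le⟩, sub_zero, abs_of_nonneg hs.le]
  have e2 : dist x (γ₂ t) = t := by
    rw [← h₂.left, h₂.iso 0 ⟨le_rfl, hL₂.le⟩ t ht1, zero_sub, abs_neg, abs_of_nonneg ht.le]
  have t1 := dist_triangle (γ₁ s) x (γ₂ t)
  rw [e1, e2] at t1
  have h3 : dist (γ₁ s) (γ₂ t) ^ 2 ≤ (s + t) ^ 2 := pow_le_pow_left₀ dist_nonneg t1 2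
  have h4 : 0 ≤ ε * s * t := mul_nonneg (mul_nonneg hε.le hs.le) ht.le
  nlinarith

theorem UA.same {γ₁ γ₂ : ℝ → M} {L₁ L₂ : ℝ} {x y z : M} (h₁ : IsGeo γ₁ L₁ x y)
    (hL₁ : 0 < L₁) (hL₂ : 0 < L₂) (e : ∀ s ∈ Icc (0 : ℝ) (min L₁ L₂), γ₂ s = γ₁ s) : UA γ₁ γ₂ 1 := by
  intro ε hε
  refine ⟨min L₁ L₂, lt_min hL₁ hL₂, fun s t hs hs' ht ht' => ?_⟩
  have hs1 : s ∈ Icc (0 : ℝ) L₁ := ⟨hs.le, (hs'.trans_le (min_le_left _ _)).le⟩
  have ht1 : t ∈ Icc (0 : ℝ) L₁ := ⟨ht.le, (ht'.trans_le (min_le_left _ _)).le⟩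
  rw [e t ⟨ht.le, ht'.le⟩, h₁.iso s hs1 t ht1, sq_abs]
  have h4 : 0 ≤ ε * s * t := mul_nonneg (mul_nonneg hε.le hs.le) ht.le
  nlinarith

/-- only the values on the intervals matter -/
theorem TriUA.congr {α β σ α' β' σ' : ℝ → M} {p q w : ℝ} (h : TriUA α β σ p q w) (hp : 0 < p) (hq : 0 < q) (hw : 0 < w)
    (e₁ : ∀ s ∈ Icc (0 : ℝ) p, α' s = α s) (e₂ : ∀ s ∈ Icc (0 : ℝ) q, β' s = β s)
    (e₃ : ∀ s ∈ Icc (0 : ℝ) w, σ' s = σ s) : TriUA α' β' σ' p q w := by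
  refine ⟨h.atA.congr (lt_min hp hq) ?_ ?_, h.atB.congr (lt_min hp hw) ?_ ?_,
    h.atC.congr (lt_min hq hw) ?_ ?_⟩
  · intro s hs hs'
    exact e₁ s ⟨hs.le, (hs'.trans_le (min_le_left _ _)).le⟩
  · intro s hs hs'
    exact e₂ s ⟨hs.le, (hs'.trans_le (min_le_right _ _)).le⟩
  · intro s hs hs'
    exact e₁ (p - s) ⟨sub_nonneg.2 (hs'.trans_le (min_le_left _ _)).le, sub_le_self _ hs.le⟩
  · intro s hs hs'
    exact e₃ s ⟨hs.le, (hs'.trans_le (min_le_right _ _)).le⟩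
  · intro s hs hs'
    exact e₂ (q - s) ⟨sub_nonneg.2 (hs'.trans_le (min_le_left _ _)).le, sub_le_self _ hs.le⟩
  · intro s hs hs'
    exact e₃ (w - s) ⟨sub_nonneg.2 (hs'.trans_le (min_le_right _ _)).le, sub_le_self _ hs.le⟩

/-- relabelling `a b c ↦ b a c` -/
theorem TriUA.swapAB {α β σ : ℝ → M} {p q w : ℝ} (h : TriUA α β σ p q w) : TriUA (rev α p) σ β p w q := by
  refine ⟨h.atB, ?_, ?_⟩
  · rw [rev_rev]
    exact h.atA
  · rw [co_comm]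
    exact h.atC.symm

/-- relabelling `a b c ↦ a c b` -/
theorem TriUA.swapBC {α β σ : ℝ → M} {p q w : ℝ} (h : TriUA α β σ p q w) : TriUA β α (rev σ w) q p w := by
  refine ⟨?_, h.atC, ?_⟩
  · rw [co_comm]
    exact h.atA.symm
  · rw [rev_rev]
    exact h.atB

/-- a triangle whose vertex `a` lies on the side from `b` to `c` and whose sides from `a` are the two parts of this side -/
theorem TriUA.degA {α β σ : ℝ → M} {p q : ℝ} {a b c : M} (hα : IsGeo α p a b) (hβ : IsGeo β q a c)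
    (hσ : IsGeo σ (p + q) b c) (hp : 0 < p) (hq : 0 < q) (e₁ : ∀ s ∈ Icc (0 : ℝ) p, α s = σ (p - s))
    (e₂ : ∀ s ∈ Icc (0 : ℝ) q, β s = σ (p + s)) : TriUA α β σ p q (p + q) := by
  have c1 : co p q (p + q) = -1 := by
    unfold co
    rw [div_eq_iff (by positivity)]
    ring
  have c2 : co p (p + q) q = 1 := by
    unfold co
    rw [div_eq_iff (by positivity)]
    ring
  have c3 : co q (p + q) p = 1 := by
    unfold co
    rw [div_eq_iff (by positivity)]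
    ring
  refine ⟨?_, ?_, ?_⟩
  · rw [c1]
    exact UA.neg_one hα hβ hp hq
  · rw [c2]
    refine UA.same (L₂ := p + q) (z := b) hα.symm hp (by positivity) fun s hs => ?_
    have hs2 : s ≤ p := hs.2.trans (min_le_left _ _)
    change σ s = α (p - s)
    rw [e₁ (p - s) ⟨sub_nonneg.2 hs2, sub_le_self _ hs.1⟩, sub_sub_cancel]
  · rw [c3]
    refine UA.same (L₂ := p + q) (z := c) hβ.symm hq (by positivity) fun s hs => ?_
    have hs2 : s ≤ q := hs.2.trans (min_le_left _ _)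
    change σ (p + q - s) = β (q - s)
    rw [e₂ (q - s) ⟨sub_nonneg.2 hs2, sub_le_self _ hs.1⟩, add_sub_assoc]

end Pool.Agent.LibCF24
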