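import Pool.Agent.LibCF24.Defs

/-! Row R1 (MEDIUM). Stewart's inequality in a CAT(0) space. ONLY Defs.

`f x = dist p (γ x) ^ 2 - x ^ 2` is continuous on `[0, L]` and midpoint convex there: for `x - h, x + h ∈ [0, L]` the point `γ x` is the
midpoint of `γ (x - h)`, `γ (x + h)` (distance `2 h`), so `cn` gives `dist p (γ x) ^ 2 ≤ (..+..)/2 - h ^ 2`, that is
`f x ≤ (f (x-h) + f (x+h)) / 2`. Let `g = f -` (affine interpolation of the end values); `g 0 = g L = 0`, `g` continuous and midpoint convex. If the maximum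
of `g` on `[0, L]` were `> 0`, take the smallest point `x₀` where it is attained (closed set), `0 < x₀ < L`, `h = min x₀ (L - x₀)`:
`g x₀ ≤ (g (x₀ - h) + g (x₀ + h)) / 2 < g x₀`. So `g ≤ 0`, and multiplying by `L` gives the claim (`L = 0`: both sides: `s = 0`). -/

set_option autoImplicit false

noncomputable section

open Set

namespace Pool.Agent.LibCF24

/-- a continuous midpoint convex function on `[0, L]` vanishing at the ends is `≤ 0` -/
private theorem R1_max (L : ℝ) (G : ℝ → ℝ) (hc : ContinuousOn G (Icc (0 : ℝ) L))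
    (h0 : G 0 = 0) (hL : G L = 0)
    (hm : ∀ x h : ℝ, 0 ≤ h → x - h ∈ Icc (0 : ℝ) L → x + h ∈ Icc (0 : ℝ) L →
      2 * G x ≤ G (x - h) + G (x + h)) {s : ℝ} (hs : s ∈ Icc (0 : ℝ) L) : G s ≤ 0 := by
  by_contra hcon
  have hpos : 0 < G s := not_le.1 hcon
  obtain ⟨x1, hx1, hmax⟩ := isCompact_Icc.exists_isMaxOn ⟨s, hs⟩ hc
  have hM : 0 < G x1 := lt_of_lt_of_le hpos (hmax hs)
  have hZc : IsCompact (Icc (0 : ℝ) L ∩ G ⁻¹' {G x1}) := by
    refine isCompact_Icc.of_isClosed_subset ?_ inter_subset_left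
    exact hc.preimage_isClosed_of_isClosed isClosed_Icc isClosed_singleton
  have hZne : (Icc (0 : ℝ) L ∩ G ⁻¹' {G x1}).Nonempty := ⟨x1, hx1, rfl⟩
  have hx0 := hZc.sInf_mem hZne
  set x0 := sInf (Icc (0 : ℝ) L ∩ G ⁻¹' {G x1}) with hx0def
  have hG0 : G x0 = G x1 := hx0.2
  have hx00 : 0 < x0 := by
    rcases eq_or_lt_of_le hx0.1.1 with h | h
    · rw [← h, h0] at hG0
      linarith
    · exact h
  have hx0L : x0 < L := by
    rcases eq_or_lt_of_le hx0.1.2 with h | h
    · rw [h, hL] at hG0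
      linarith
    · exact h
  have hh : 0 < min x0 (L - x0) := lt_min hx00 (by linarith)
  have hh1 : min x0 (L - x0) ≤ x0 := min_le_left _ _
  have hh2 : min x0 (L - x0) ≤ L - x0 := min_le_right _ _
  set h := min x0 (L - x0) with hhdef
  have hm1 : x0 - h ∈ Icc (0 : ℝ) L := ⟨by linarith, by linarith⟩
  have hm2 : x0 + h ∈ Icc (0 : ℝ) L := ⟨by linarith, by linarith⟩
  have e1 := hm x0 h hh.le hm1 hm2
  have e2 : G (x0 + h) ≤ G x1 := hmax hm2
  have e3 : G (x0 - h) ≤ G x1 := hmax hm1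
  have e4 : G (x0 - h) ≠ G x1 := by
    intro h5
    have h6 : x0 ≤ x0 - h := csInf_le hZc.bddBelow ⟨hm1, h5⟩
    linarith
  have e5 := lt_of_le_of_ne e3 e4
  linarith

theorem stewart {X : Type*} [MetricSpace X] (h : LibBD85.IsCAT0 X) {γ : ℝ → X} {L : ℝ} {q r : X} (hγ : IsGeo γ L q r)
    {s : ℝ} (hs : s ∈ Icc (0 : ℝ) L) (p : X) :
    L * dist p (γ s) ^ 2 ≤ (L - s) * dist p q ^ 2 + s * dist p r ^ 2 - s * (L - s) * L := by
  have hγc : ContinuousOn γ (Icc (0 : ℝ) L) := by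
    have hl : LipschitzOnWith 1 γ (Icc (0 : ℝ) L) := by
      refine LipschitzOnWith.of_dist_le_mul fun x hx y hy => ?_
      rw [hγ.iso x hx y hy, NNReal.coe_one, one_mul, Real.dist_eq]
    exact hl.continuousOn
  have hdc : ContinuousOn (fun x => dist p (γ x)) (Icc (0 : ℝ) L) :=
    (continuous_const.dist continuous_id).comp_continuousOn hγc
  set G : ℝ → ℝ := fun x => L * (dist p (γ x) ^ 2 - x ^ 2) -
    ((L - x) * dist p q ^ 2 + x * (dist p r ^ 2 - L ^ 2)) with hG
  have hGc : ContinuousOn G (Icc (0 : ℝ) L) := by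
    refine (continuousOn_const.mul ((hdc.pow 2).sub (by fun_prop))).sub (by fun_prop)
  have hG0 : G 0 = 0 := by
    simp only [hG]
    rw [hγ.left]
    ring
  have hGL : G L = 0 := by
    simp only [hG]
    rw [hγ.right]
    ring
  have hmid : ∀ x t : ℝ, 0 ≤ t → x - t ∈ Icc (0 : ℝ) L → x + t ∈ Icc (0 : ℝ) L →
      2 * G x ≤ G (x - t) + G (x + t) := by
    intro x t ht h1 h2
    have hx : x ∈ Icc (0 : ℝ) L := ⟨by linarith [h1.1], by linarith [h2.2]⟩
    have d1 : dist (γ (x - t)) (γ (x + t)) = 2 * t := by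
      rw [hγ.iso _ h1 _ h2, show x - t - (x + t) = -(2 * t) by ring, abs_neg,
        abs_of_nonneg (by linarith)]
    have d2 : dist (γ (x - t)) (γ x) = t := by
      rw [hγ.iso _ h1 _ hx, show x - t - x = -t by ring, abs_neg, abs_of_nonneg ht]
    have d3 : dist (γ (x + t)) (γ x) = t := by
      rw [hγ.iso _ h2 _ hx, show x + t - x = t by ring, abs_of_nonneg ht]
    have e := h.cn (γ (x - t)) (γ (x + t)) (γ x) (by rw [d1, d2]; ring) (by rw [d1, d3]; ring) p
    rw [d1] at e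
    have e2 : L * (dist p (γ x) ^ 2) ≤
        L * ((dist p (γ (x - t)) ^ 2 + dist p (γ (x + t)) ^ 2) / 2 - (2 * t) ^ 2 / 4) :=
      mul_le_mul_of_nonneg_left e hγ.nonneg
    simp only [hG]
    nlinarith
  have key := R1_max L G hGc hG0 hGL hmid hs
  simp only [hG] at key
  nlinarith

end Pool.Agent.LibCF24
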