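import Pool.Agent.LibCF24.R1

/-! Row R2 (SHORT/MEDIUM). Comparison in a CAT(0) space. ONLY Defs and R1.

`comparison`: `stewart` for the vertex `q` and `γ₁` at `s`: `dist q (γ₁ s) ^ 2 ≤ (1-ν) L₂^2 + ν D^2 - ν (1-ν) L₁^2`, `ν = s / L₁`, `D = dist p q`;
then `stewart` for the vertex `γ₁ s` and `γ₂` at `t`, `μ = t / L₂`: `dist (γ₁ s) (γ₂ t) ^ 2 ≤ (1-μ) s^2 + μ (dist (γ₁ s) q)^2 - μ (1-μ) L₂^2`. The sum is
`ν^2 L₁^2 + μ^2 L₂^2 - μ ν (L₁^2 + L₂^2 - D^2)`.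
`ua_of_cat0`: `δ = min L₁ L₂`. `triUA_of_cat0`: three times `ua_of_cat0`, with `IsGeo (rev ..)`.
`geo_unique`: `stewart` with `p = γ₂ s` on `γ₁` at `s`: the right hand side is `(L-s) s^2 + s (L-s)^2 - s (L-s) L = 0`. (`L = 0`: trivial.)
`_in` versions: the geodesics of `M` that stay in a CAT(0) subset `A` come from geodesics of the subtype `A` (use `fun t => if h : γ t ∈ A then ⟨γ t, h⟩ else ⟨x, hx⟩`).
`geo_in`: `geodesic` of the subtype. -/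

set_option autoImplicit false

noncomputable section

open Set

namespace Pool.Agent.LibCF24

private theorem R2_dist {X : Type*} [MetricSpace X] {γ : ℝ → X} {L : ℝ} {x y : X} (h : IsGeo γ L x y) :
    dist x y = L := by
  have h1 := h.iso 0 ⟨le_rfl, h.nonneg⟩ L ⟨h.nonneg, le_rfl⟩
  rw [h.left, h.right, zero_sub, abs_neg, abs_of_nonneg h.nonneg] at h1
  exact h1

private theorem R2_left {X : Type*} [MetricSpace X] {γ : ℝ → X} {L : ℝ} {x y : X} (h : IsGeo γ L x y)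
    {s : ℝ} (hs : s ∈ Icc (0 : ℝ) L) : dist (γ s) x = s := by
  have h1 := h.iso s hs 0 ⟨le_rfl, h.nonneg⟩
  rw [h.left, sub_zero, abs_of_nonneg hs.1] at h1
  exact h1

private theorem R2_right {X : Type*} [MetricSpace X] {γ : ℝ → X} {L : ℝ} {x y : X} (h : IsGeo γ L x y)
    {s : ℝ} (hs : s ∈ Icc (0 : ℝ) L) : dist (γ s) y = L - s := by
  have h1 := h.iso s hs L ⟨h.nonneg, le_rfl⟩
  rw [h.right, abs_sub_comm, abs_of_nonneg (by linarith [hs.2])] at h1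
  exact h1

theorem comparison {X : Type*} [MetricSpace X] (h : LibBD85.IsCAT0 X) {γ₁ γ₂ : ℝ → X} {L₁ L₂ : ℝ} {o p q : X}
    (h₁ : IsGeo γ₁ L₁ o p) (h₂ : IsGeo γ₂ L₂ o q) (hL₁ : 0 < L₁) (hL₂ : 0 < L₂) {s t : ℝ} (hs : s ∈ Icc (0 : ℝ) L₁)
    (ht : t ∈ Icc (0 : ℝ) L₂) :
    dist (γ₁ s) (γ₂ t) ^ 2 ≤ s ^ 2 + t ^ 2 - 2 * co L₁ L₂ (dist p q) * s * t := by
  have e1 := stewart h h₁ hs q
  have e2 := stewart h h₂ ht (γ₁ s)
  rw [dist_comm q o, R2_dist h₂, dist_comm q (γ₁ s), dist_comm q p] at e1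
  rw [R2_left h₁ hs] at e2
  set D := dist p q with hD
  set Y := dist (γ₁ s) q with hY
  set Z := dist (γ₁ s) (γ₂ t) with hZ
  have hst : 0 ≤ t := ht.1
  have e3 : t * (L₁ * Y ^ 2) ≤ t * ((L₁ - s) * L₂ ^ 2 + s * D ^ 2 - s * (L₁ - s) * L₁) :=
    mul_le_mul_of_nonneg_left e1 hst
  have e4 : L₁ * (L₂ * Z ^ 2) ≤ L₁ * ((L₂ - t) * s ^ 2 + t * Y ^ 2 - t * (L₂ - t) * L₂) :=
    mul_le_mul_of_nonneg_left e2 hL₁.le
  have hLL : 0 < L₁ * L₂ := mul_pos hL₁ hL₂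
  have e5 : (L₁ * L₂) * Z ^ 2 ≤ (L₁ * L₂) * (s ^ 2 + t ^ 2) - (L₁ ^ 2 + L₂ ^ 2 - D ^ 2) * s * t := by
    nlinarith [e3, e4]
  have e6 : (L₁ * L₂) * (s ^ 2 + t ^ 2 - 2 * co L₁ L₂ D * s * t) =
      (L₁ * L₂) * (s ^ 2 + t ^ 2) - (L₁ ^ 2 + L₂ ^ 2 - D ^ 2) * s * t := by
    unfold co
    field_simp
  rw [← e6] at e5
  exact le_of_mul_le_mul_left e5 hLL

open scoped Classical in
/-- a path staying in `A`, as a path of the subtype -/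
private def R2_lift {M : Type*} (A : Set M) (x : A) (γ : ℝ → M) : ℝ → A :=
  fun t => if h : γ t ∈ A then ⟨γ t, h⟩ else x

private theorem R2_lift_val {M : Type*} {A : Set M} {x : A} {γ : ℝ → M} {t : ℝ} (h : γ t ∈ A) :
    ((R2_lift A x γ t : A) : M) = γ t := by
  unfold R2_lift
  rw [dif_pos h]

private theorem R2_geo {M : Type*} [MetricSpace M] {A : Set M} {γ : ℝ → M} {L : ℝ} {x y : M}
    (h : IsGeo γ L x y) (i : ∀ s ∈ Icc (0 : ℝ) L, γ s ∈ A) (z : A) (hx : x ∈ A) (hy : y ∈ A) :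
    IsGeo (R2_lift A z γ) L ⟨x, hx⟩ ⟨y, hy⟩ := by
  have h0 : γ 0 ∈ A := i 0 ⟨le_rfl, h.nonneg⟩
  have hL : γ L ∈ A := i L ⟨h.nonneg, le_rfl⟩
  refine ⟨h.nonneg, ?_, ?_, ?_⟩
  · apply Subtype.ext
    rw [R2_lift_val h0, h.left]
  · apply Subtype.ext
    rw [R2_lift_val hL, h.right]
  · intro s hs t ht
    rw [Subtype.dist_eq, R2_lift_val (i s hs), R2_lift_val (i t ht)]
    exact h.iso s hs t ht

private theorem R2_ua {M : Type*} [MetricSpace M] {A : Set M} (hA : LibBD85.IsCAT0 A) {γ₁ γ₂ : ℝ → M}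
    {L₁ L₂ : ℝ} {o p q : M} (h₁ : IsGeo γ₁ L₁ o p) (h₂ : IsGeo γ₂ L₂ o q) (hL₁ : 0 < L₁) (hL₂ : 0 < L₂)
    (i₁ : ∀ s ∈ Icc (0 : ℝ) L₁, γ₁ s ∈ A) (i₂ : ∀ s ∈ Icc (0 : ℝ) L₂, γ₂ s ∈ A) :
    UA γ₁ γ₂ (co L₁ L₂ (dist p q)) := by
  have ho : o ∈ A := by
    have := i₁ 0 ⟨le_rfl, hL₁.le⟩
    rwa [h₁.left] at this
  have hp : p ∈ A := by
    have := i₁ L₁ ⟨hL₁.le, le_rfl⟩
    rwa [h₁.right] at this
  have hq : q ∈ A := by
    have := i₂ L₂ ⟨hL₂.le, le_rfl⟩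
    rwa [h₂.right] at this
  intro ε hε
  refine ⟨min L₁ L₂, lt_min hL₁ hL₂, fun s t hs hs' ht ht' => ?_⟩
  have hs1 : s ∈ Icc (0 : ℝ) L₁ := ⟨hs.le, (hs'.trans_le (min_le_left _ _)).le⟩
  have ht1 : t ∈ Icc (0 : ℝ) L₂ := ⟨ht.le, (ht'.trans_le (min_le_right _ _)).le⟩
  have h3 := comparison hA (R2_geo h₁ i₁ ⟨o, ho⟩ ho hp) (R2_geo h₂ i₂ ⟨o, ho⟩ ho hq) hL₁ hL₂ hs1 ht1
  rw [Subtype.dist_eq, Subtype.dist_eq, R2_lift_val (i₁ s hs1), R2_lift_val (i₂ t ht1)] at h3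
  have h4 : 0 < ε * s * t := by positivity
  have h5 : dist (γ₁ s) (γ₂ t) ^ 2 ≤ s ^ 2 + t ^ 2 - 2 * co L₁ L₂ (dist p q) * s * t := h3
  nlinarith

private theorem R2_rev {M : Type*} [MetricSpace M] {γ : ℝ → M} {L : ℝ} {x y : M} (h : IsGeo γ L x y) :
    IsGeo (rev γ L) L y x := by
  refine ⟨h.nonneg, ?_, ?_, ?_⟩
  · show γ (L - 0) = y
    rw [sub_zero, h.right]
  · show γ (L - L) = x
    rw [sub_self, h.left]
  · intro s hs t ht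
    show dist (γ (L - s)) (γ (L - t)) = |s - t|
    rw [h.iso (L - s) ⟨by linarith [hs.2], by linarith [hs.1]⟩ (L - t)
      ⟨by linarith [ht.2], by linarith [ht.1]⟩, abs_sub_comm s t]
    congr 1
    ring

private theorem R2_rev_in {M : Type*} {A : Set M} {γ : ℝ → M} {L : ℝ}
    (i : ∀ s ∈ Icc (0 : ℝ) L, γ s ∈ A) : ∀ s ∈ Icc (0 : ℝ) L, rev γ L s ∈ A := fun s hs =>
  i (L - s) ⟨by linarith [hs.2], by linarith [hs.1]⟩

/-- all triangles of a CAT(0) subset satisfy the angle condition -/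
theorem triUA_in {M : Type*} [MetricSpace M] {A : Set M} (hA : LibBD85.IsCAT0 A) {α β σ : ℝ → M} {p q w : ℝ} {a b c : M}
    (hα : IsGeo α p a b) (hβ : IsGeo β q a c) (hσ : IsGeo σ w b c) (hp : 0 < p) (hq : 0 < q) (hw : 0 < w)
    (iα : ∀ s ∈ Icc (0 : ℝ) p, α s ∈ A) (iβ : ∀ s ∈ Icc (0 : ℝ) q, β s ∈ A) (iσ : ∀ s ∈ Icc (0 : ℝ) w, σ s ∈ A) :
    TriUA α β σ p q w := by
  refine ⟨?_, ?_, ?_⟩
  · have h1 := R2_ua hA hα hβ hp hq iα iβ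
    rwa [R2_dist hσ] at h1
  · have h1 := R2_ua hA (R2_rev hα) hσ hp hw (R2_rev_in iα) iσ
    rwa [R2_dist hβ] at h1
  · have h1 := R2_ua hA (R2_rev hβ) (R2_rev hσ) hq hw (R2_rev_in iβ) (R2_rev_in iσ)
    rwa [R2_dist hα] at h1

/-- geodesics in a CAT(0) subset are unique -/
theorem unique_in {M : Type*} [MetricSpace M] {A : Set M} (hA : LibBD85.IsCAT0 A) {γ₁ γ₂ : ℝ → M} {L : ℝ} {x y : M}
    (h₁ : IsGeo γ₁ L x y) (h₂ : IsGeo γ₂ L x y) (i₁ : ∀ s ∈ Icc (0 : ℝ) L, γ₁ s ∈ A) (i₂ : ∀ s ∈ Icc (0 : ℝ) L, γ₂ s ∈ A) :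
    ∀ s ∈ Icc (0 : ℝ) L, γ₁ s = γ₂ s := by
  intro s hs
  rcases h₁.nonneg.eq_or_lt with hL | hL
  · have hs0 : s = 0 := le_antisymm (hs.2.trans hL.symm.le) hs.1
    rw [hs0, h₁.left, h₂.left]
  · have hx : x ∈ A := by
      have := i₁ 0 ⟨le_rfl, hL.le⟩
      rwa [h₁.left] at this
    have hy : y ∈ A := by
      have := i₁ L ⟨hL.le, le_rfl⟩
      rwa [h₁.right] at this
    have h3 := stewart hA (R2_geo h₁ i₁ ⟨x, hx⟩ hx hy) hs (⟨γ₂ s, i₂ s hs⟩ : A)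
    rw [Subtype.dist_eq, Subtype.dist_eq, Subtype.dist_eq, R2_lift_val (i₁ s hs)] at h3
    have h4 : L * dist (γ₂ s) (γ₁ s) ^ 2 ≤
        (L - s) * dist (γ₂ s) x ^ 2 + s * dist (γ₂ s) y ^ 2 - s * (L - s) * L := h3
    rw [R2_left h₂ hs, R2_right h₂ hs] at h4
    have h5 : L * dist (γ₂ s) (γ₁ s) ^ 2 ≤ 0 := by nlinarith
    have h6 : dist (γ₂ s) (γ₁ s) ^ 2 ≤ 0 := by
      by_contra hcon
      push Not at hcon
      have := mul_pos hL hcon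
      linarith
    have h7 : dist (γ₂ s) (γ₁ s) = 0 := by
      have := sq_nonneg (dist (γ₂ s) (γ₁ s))
      exact pow_eq_zero_iff (two_ne_zero) |>.1 (le_antisymm h6 this)
    exact (dist_eq_zero.1 h7).symm

theorem geo_in {M : Type*} [MetricSpace M] {A : Set M} (hA : LibBD85.IsCAT0 A) {x y : M} (hx : x ∈ A) (hy : y ∈ A) :
    ∃ γ : ℝ → M, IsGeo γ (dist x y) x y ∧ ∀ s ∈ Icc (0 : ℝ) (dist x y), γ s ∈ A := by
  obtain ⟨γ, h0, h1, h2⟩ := hA.geodesic ⟨x, hx⟩ ⟨y, hy⟩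
  refine ⟨fun t => (γ t : M), ⟨dist_nonneg, ?_, ?_, ?_⟩, fun s _ => (γ s).2⟩
  · show ((γ 0 : A) : M) = x
    rw [h0]
  · show ((γ (dist x y) : A) : M) = y
    have h3 : γ (dist x y) = ⟨y, hy⟩ := h1
    rw [h3]
  · intro s hs t ht
    exact h2 s hs t ht

end Pool.Agent.LibCF24
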