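import Pool.Agent.LibCF24.Defs

/-! Row R3 (MEDIUM). Upper angles at an interior point of a geodesic add up to at least pi. ONLY Defs.

Let `κ ∈ (0, 1)`, `ε > 0`. For small `h > 0` (with `κ h ≤ ℓ`, `h ≤ m`, `m + h ≤ L`):
`2 h = dist (γ (m-h)) (γ (m+h)) ≤ dist (γ (m-h)) (γ₃ (κ h)) + dist (γ₃ (κ h)) (γ (m+h))`, and by `UA` the squares of these two distances are at most
`h^2 (1 + κ^2 - 2 (c_i - ε) κ)`. With `√(1 + x) ≤ 1 + x / 2` (or: `d ≤ h (1 + x_i/2)` since `d^2 ≤ h^2 (1 + x_i) ≤ h^2 (1 + x_i/2)^2` and `1 + x_i/2 ≥ 0`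
because `1 + x_i ≥ 0`): `2 ≤ 2 + κ^2 - κ (c₁ + c₂ - 2 ε)`, so `c₁ + c₂ ≤ κ + 2 ε` for all `κ`, `ε`. -/

set_option autoImplicit false

noncomputable section

open Set

namespace Pool.Agent.LibCF24

theorem ua_opposite {M : Type*} [MetricSpace M] {γ γ₃ : ℝ → M} {L ℓ m c₁ c₂ : ℝ} {q r p : M} (hγ : IsGeo γ L q r)
    (hm0 : 0 < m) (hmL : m < L) (h₃ : IsGeo γ₃ ℓ (γ m) p) (hℓ : 0 < ℓ)
    (h1 : UA (fun t => γ (m - t)) γ₃ c₁) (h2 : UA (fun t => γ (m + t)) γ₃ c₂) : c₁ + c₂ ≤ 0 := by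
  by_contra hcon
  push Not at hcon
  set η := c₁ + c₂ with hη
  set κ := min (1 / 2) (η / 4) with hκ
  have hκ0 : 0 < κ := lt_min (by norm_num) (by linarith)
  have hκ1 : κ ≤ 1 / 2 := min_le_left _ _
  have hκη : κ ≤ η / 4 := min_le_right _ _
  obtain ⟨δ₁, hδ₁, H1⟩ := h1 (η / 8) (by linarith)
  obtain ⟨δ₂, hδ₂, H2⟩ := h2 (η / 8) (by linarith)
  set h := min (min δ₁ δ₂) (min m (L - m)) / 2 with hh
  have hmin : 0 < min (min δ₁ δ₂) (min m (L - m)) :=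
    lt_min (lt_min hδ₁ hδ₂) (lt_min hm0 (by linarith))
  have hh0 : 0 < h := by rw [hh]; linarith
  have e1 : h < δ₁ := by
    have : min (min δ₁ δ₂) (min m (L - m)) ≤ δ₁ := (min_le_left _ _).trans (min_le_left _ _)
    rw [hh]; linarith
  have e2 : h < δ₂ := by
    have : min (min δ₁ δ₂) (min m (L - m)) ≤ δ₂ := (min_le_left _ _).trans (min_le_right _ _)
    rw [hh]; linarith
  have e3 : h < m := by
    have : min (min δ₁ δ₂) (min m (L - m)) ≤ m := (min_le_right _ _).trans (min_le_left _ _)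
    rw [hh]; linarith
  have e4 : h < L - m := by
    have : min (min δ₁ δ₂) (min m (L - m)) ≤ L - m := (min_le_right _ _).trans (min_le_right _ _)
    rw [hh]; linarith
  have hκh : 0 < κ * h := mul_pos hκ0 hh0
  have hκh' : κ * h ≤ h := by nlinarith
  have A1 := H1 h (κ * h) hh0 e1 hκh (by linarith)
  have A2 := H2 h (κ * h) hh0 e2 hκh (by linarith)
  simp only at A1 A2
  have hd : dist (γ (m - h)) (γ (m + h)) = 2 * h := by
    rw [hγ.iso (m - h) ⟨by linarith, by linarith⟩ (m + h) ⟨by linarith, by linarith⟩,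
      show m - h - (m + h) = -(2 * h) by ring, abs_neg, abs_of_pos (by linarith)]
  have htri := dist_triangle_right (γ (m - h)) (γ (m + h)) (γ₃ (κ * h))
  rw [hd] at htri
  set A := dist (γ (m - h)) (γ₃ (κ * h)) with hA
  set B := dist (γ (m + h)) (γ₃ (κ * h)) with hB
  have f1 : 2 * h * A ≤ A ^ 2 + h ^ 2 := by nlinarith [sq_nonneg (A - h)]
  have f2 : 2 * h * B ≤ B ^ 2 + h ^ 2 := by nlinarith [sq_nonneg (B - h)]
  have f3 : 2 * h * (2 * h) ≤ 2 * h * (A + B) := mul_le_mul_of_nonneg_left htri (by linarith)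
  have f4 : 0 ≤ 2 * (κ * h ^ 2) * (κ - (η - 2 * (η / 8))) := by
    nlinarith [f1, f2, f3, A1, A2]
  have f5 : 0 < 2 * (κ * h ^ 2) := by positivity
  have f6 : 0 ≤ κ - (η - 2 * (η / 8)) := by
    by_contra hc
    push Not at hc
    have := mul_neg_of_pos_of_neg f5 hc
    linarith
  linarith

end Pool.Agent.LibCF24
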