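import Pool.Agent.LibCF24.Defs

/-! Row R4 (MEDIUM/STRONG). Triangle inequality for upper angles. ONLY Defs.

If `θ₁ + θ₂ = π`: `cos = -1`, and `dist ≤ s + t` suffices. Otherwise let `ε > 0` be given and choose `η > 0` with `θ = θ₁ + θ₂ + 2 η < π` and
`cos θ ≥ cos (θ₁ + θ₂) - ε` (continuity of `cos`). Put `α₁ = θ₁ + η`, `α₂ = θ₂ + η`, both in `(0, π)`, so `cos α₁ < cos θ₁`, `cos α₂ < cos θ₂` (strictly
decreasing on `[0, π]`). Take `δ` for both `UA` with the errors `cos θ₁ - cos α₁`, `cos θ₂ - cos α₂`, and let `s, t < δ`. Euclidean picture: rays from `0` at the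
angles `0`, `α₁`, `θ = α₁ + α₂`; `τ = s t sin θ / (s sin α₁ + t sin α₂)` is the distance from `0` of the crossing point of the segment from `s (1, 0)` to
`t (cos θ, sin θ)` with the ray at the angle `α₁`. With `λ = s sin α₁ / (s sin α₁ + t sin α₂) ∈ (0,1)`:
`(1 - λ) s (1, 0) + λ t (cos θ, sin θ) = τ (cos α₁, sin α₁)` (check: second coordinate by `sin`, first by `sin (θ - α₁) = sin α₂`; note
`s sin α₁ (…)`), so `0 < τ ≤ max s t < δ`, and the three distances are `λ D`, `(1 - λ) D`, `D`, where `D ^ 2 = s^2 + t^2 - 2 s t cos θ`: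
`s^2 + τ^2 - 2 s τ cos α₁ = λ^2 D^2`, `τ^2 + t^2 - 2 τ t cos α₂ = (1-λ)^2 D^2`. So `dist (γ₁ s) (γ₂ τ) ≤ λ D`, `dist (γ₂ τ) (γ₃ t) ≤ (1-λ) D`, and
`dist (γ₁ s) (γ₃ t) ≤ D`. (`τ ≤ max s t`: the norm of a convex combination.) -/

set_option autoImplicit false

noncomputable section

open Set Real

namespace Pool.Agent.LibCF24

private theorem R4_id1 {s t a b c₁ c₂ : ℝ} (h1 : a ^ 2 + c₁ ^ 2 = 1) (h2 : b ^ 2 + c₂ ^ 2 = 1)
    (hN : 0 < s * a + t * b) :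
    s ^ 2 + (s * t * (a * c₂ + c₁ * b) / (s * a + t * b)) ^ 2 -
      2 * c₁ * s * (s * t * (a * c₂ + c₁ * b) / (s * a + t * b)) =
      (s * a / (s * a + t * b)) ^ 2 * (s ^ 2 + t ^ 2 - 2 * (c₁ * c₂ - a * b) * s * t) := by
  have hN' : s * a + t * b ≠ 0 := hN.ne'
  field_simp
  linear_combination (-(s ^ 2 * (2 * s * t * a * b + t ^ 2 * b ^ 2))) * h1 +
    (s ^ 2 * t ^ 2 * a ^ 2) * h2

private theorem R4_id2 {s t a b c₁ c₂ : ℝ} (h1 : a ^ 2 + c₁ ^ 2 = 1) (h2 : b ^ 2 + c₂ ^ 2 = 1)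
    (hN : 0 < s * a + t * b) :
    (s * t * (a * c₂ + c₁ * b) / (s * a + t * b)) ^ 2 + t ^ 2 -
      2 * c₂ * (s * t * (a * c₂ + c₁ * b) / (s * a + t * b)) * t =
      (t * b / (s * a + t * b)) ^ 2 * (s ^ 2 + t ^ 2 - 2 * (c₁ * c₂ - a * b) * s * t) := by
  have hN' : s * a + t * b ≠ 0 := hN.ne'
  field_simp
  linear_combination (-(t ^ 2 * (2 * s * t * a * b + s ^ 2 * a ^ 2))) * h2 +
    (s ^ 2 * t ^ 2 * b ^ 2) * h1

private theorem R4_tau {s t a b c₁ c₂ δ : ℝ} (hs : 0 < s) (ht : 0 < t) (ha : 0 < a) (hb : 0 < b)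
    (hc₁ : c₁ ≤ 1) (hc₂ : c₂ ≤ 1) (hs' : s < δ) (ht' : t < δ) :
    s * t * (a * c₂ + c₁ * b) / (s * a + t * b) < δ := by
  have hN : 0 < s * a + t * b := by positivity
  rw [div_lt_iff₀ hN]
  have e1 : a * c₂ + c₁ * b ≤ a + b := by
    have e5 : a * c₂ ≤ a * 1 := mul_le_mul_of_nonneg_left hc₂ ha.le
    have e6 : c₁ * b ≤ 1 * b := mul_le_mul_of_nonneg_right hc₁ hb.le
    linarith
  have e2 : s * t * (a * c₂ + c₁ * b) ≤ s * t * (a + b) :=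
    mul_le_mul_of_nonneg_left e1 (by positivity)
  have e3 : (s * a) * t < (s * a) * δ := mul_lt_mul_of_pos_left ht' (by positivity)
  have e4 : (t * b) * s < (t * b) * δ := mul_lt_mul_of_pos_left hs' (by positivity)
  calc s * t * (a * c₂ + c₁ * b) ≤ s * t * (a + b) := e2
    _ = (s * a) * t + (t * b) * s := by ring
    _ < (s * a) * δ + (t * b) * δ := by linarith
    _ = δ * (s * a + t * b) := by ring

private theorem R4_D {s t c : ℝ} (hs : 0 < s) (ht : 0 < t) (hc : c ≤ 1) :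
    0 ≤ s ^ 2 + t ^ 2 - 2 * c * s * t := by
  have e1 : c * (s * t) ≤ 1 * (s * t) := mul_le_mul_of_nonneg_right hc (by positivity)
  have e2 := sq_nonneg (s - t)
  linarith [e1, e2, show (s - t) ^ 2 = s ^ 2 + t ^ 2 - 2 * (s * t) by ring,
    show 2 * c * s * t = 2 * (c * (s * t)) by ring]

private theorem R4_main {M : Type*} [MetricSpace M] {x y z : M} {s t τ a b c₁ c₂ : ℝ}
    (hs : 0 < s) (ht : 0 < t) (ha : 0 < a) (hb : 0 < b)
    (h1 : a ^ 2 + c₁ ^ 2 = 1) (h2 : b ^ 2 + c₂ ^ 2 = 1)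
    (hτ : τ = s * t * (a * c₂ + c₁ * b) / (s * a + t * b))
    (hD : 0 ≤ s ^ 2 + t ^ 2 - 2 * (c₁ * c₂ - a * b) * s * t)
    (hxy : dist x y ^ 2 ≤ s ^ 2 + τ ^ 2 - 2 * c₁ * s * τ)
    (hyz : dist y z ^ 2 ≤ τ ^ 2 + t ^ 2 - 2 * c₂ * τ * t) :
    dist x z ^ 2 ≤ s ^ 2 + t ^ 2 - 2 * (c₁ * c₂ - a * b) * s * t := by
  have hN : 0 < s * a + t * b := by positivity
  rw [hτ, R4_id1 h1 h2 hN] at hxy
  rw [hτ, R4_id2 h1 h2 hN] at hyz
  set E : ℝ := s ^ 2 + t ^ 2 - 2 * (c₁ * c₂ - a * b) * s * t with hE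
  have hsq : √E ^ 2 = E := Real.sq_sqrt hD
  have hx : dist x y ≤ s * a / (s * a + t * b) * √E := by
    refine le_of_sq_le_sq ?_ (by positivity)
    rw [mul_pow, hsq]
    exact hxy
  have hz : dist y z ≤ t * b / (s * a + t * b) * √E := by
    refine le_of_sq_le_sq ?_ (by positivity)
    rw [mul_pow, hsq]
    exact hyz
  have hsum : s * a / (s * a + t * b) * √E + t * b / (s * a + t * b) * √E = √E := by
    rw [← add_mul, ← add_div, div_self hN.ne', one_mul]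
  have h3 : dist x z ≤ √E := (dist_triangle x y z).trans (by linarith)
  calc dist x z ^ 2 ≤ √E ^ 2 := by
        apply pow_le_pow_left₀ dist_nonneg h3
    _ = E := hsq

theorem ua_add {M : Type*} [MetricSpace M] {γ₁ γ₂ γ₃ : ℝ → M} {θ₁ θ₂ δ₀ : ℝ} (h0₁ : 0 ≤ θ₁) (h0₂ : 0 ≤ θ₂)
    (hπ : θ₁ + θ₂ ≤ π) (h1 : UA γ₁ γ₂ (cos θ₁)) (h2 : UA γ₂ γ₃ (cos θ₂)) (hδ₀ : 0 < δ₀)
    (h3 : ∀ s t, 0 < s → s < δ₀ → 0 < t → t < δ₀ → dist (γ₁ s) (γ₃ t) ≤ s + t) :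
    UA γ₁ γ₃ (cos (θ₁ + θ₂)) := by
  intro ε hε
  rcases eq_or_lt_of_le hπ with hπ' | hπ'
  · refine ⟨δ₀, hδ₀, fun s t hs hs' ht ht' => ?_⟩
    rw [hπ', cos_pi]
    have h4 := h3 s t hs hs' ht ht'
    have h5 : dist (γ₁ s) (γ₃ t) ^ 2 ≤ (s + t) ^ 2 := pow_le_pow_left₀ dist_nonneg h4 2
    have h6 : 0 ≤ ε * (s * t) := by positivity
    nlinarith
  · -- the small angle
    have hcont : Continuous fun x : ℝ => cos (θ₁ + θ₂ + 2 * x) := by fun_prop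
    have hev : ∀ᶠ x in nhds (0 : ℝ), cos (θ₁ + θ₂) - ε < cos (θ₁ + θ₂ + 2 * x) := by
      have h4 := hcont.tendsto 0
      rw [mul_zero, add_zero] at h4
      exact h4.eventually (lt_mem_nhds (by linarith))
    obtain ⟨r, hr, hr'⟩ := Metric.eventually_nhds_iff.1 hev
    obtain ⟨η, hη0, hη1, hη2⟩ : ∃ η : ℝ, 0 < η ∧ η < r ∧ θ₁ + θ₂ + 2 * η < π := by
      refine ⟨min (r / 2) ((π - (θ₁ + θ₂)) / 4), ?_, ?_, ?_⟩
      · apply lt_min <;> linarith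
      · exact lt_of_le_of_lt (min_le_left _ _) (by linarith)
      · have := min_le_right (r / 2) ((π - (θ₁ + θ₂)) / 4)
        linarith
    have hcos : cos (θ₁ + θ₂) - ε < cos (θ₁ + θ₂ + 2 * η) := by
      apply hr'
      rw [Real.dist_eq, sub_zero, abs_of_pos hη0]
      exact hη1
    have hα₁ : cos (θ₁ + η) < cos θ₁ :=
      cos_lt_cos_of_nonneg_of_le_pi h0₁ (by linarith) (by linarith)
    have hα₂ : cos (θ₂ + η) < cos θ₂ :=
      cos_lt_cos_of_nonneg_of_le_pi h0₂ (by linarith) (by linarith)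
    have hs₁ : 0 < sin (θ₁ + η) := sin_pos_of_pos_of_lt_pi (by linarith) (by linarith)
    have hs₂ : 0 < sin (θ₂ + η) := sin_pos_of_pos_of_lt_pi (by linarith) (by linarith)
    have hss : 0 < sin (θ₁ + θ₂ + 2 * η) := sin_pos_of_pos_of_lt_pi (by linarith) (by linarith)
    have hsin : sin (θ₁ + θ₂ + 2 * η) =
        sin (θ₁ + η) * cos (θ₂ + η) + cos (θ₁ + η) * sin (θ₂ + η) := by
      rw [← sin_add]; ring_nf
    have hcosadd : cos (θ₁ + θ₂ + 2 * η) =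
        cos (θ₁ + η) * cos (θ₂ + η) - sin (θ₁ + η) * sin (θ₂ + η) := by
      rw [← cos_add]; ring_nf
    have hsq₁ := sin_sq_add_cos_sq (θ₁ + η)
    have hsq₂ := sin_sq_add_cos_sq (θ₂ + η)
    have hc₁ := cos_le_one (θ₁ + η)
    have hc₂ := cos_le_one (θ₂ + η)
    have hcθ := cos_le_one (θ₁ + θ₂ + 2 * η)
    obtain ⟨δ₁, hδ₁, H1⟩ := h1 (cos θ₁ - cos (θ₁ + η)) (by linarith)
    obtain ⟨δ₂, hδ₂, H2⟩ := h2 (cos θ₂ - cos (θ₂ + η)) (by linarith)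
    rw [sub_sub_cancel] at H1
    rw [sub_sub_cancel] at H2
    rw [hsin] at hss
    rw [hcosadd] at hcos hcθ
    generalize sin (θ₁ + η) = a at *
    generalize sin (θ₂ + η) = b at *
    generalize cos (θ₁ + η) = c₁ at *
    generalize cos (θ₂ + η) = c₂ at *
    refine ⟨min δ₁ δ₂, lt_min hδ₁ hδ₂, fun s t hs hs' ht ht' => ?_⟩
    have hs1 := lt_of_lt_of_le hs' (min_le_left _ _)
    have ht1 := lt_of_lt_of_le ht' (min_le_right _ _)
    have hN : 0 < s * a + t * b := by positivity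
    have hτ0 : 0 < s * t * (a * c₂ + c₁ * b) / (s * a + t * b) := by positivity
    have hτδ : s * t * (a * c₂ + c₁ * b) / (s * a + t * b) < min δ₁ δ₂ :=
      R4_tau hs ht hs₁ hs₂ hc₁ hc₂ hs' ht'
    have hD : 0 ≤ s ^ 2 + t ^ 2 - 2 * (c₁ * c₂ - a * b) * s * t := R4_D hs ht hcθ
    have hfin := R4_main (x := γ₁ s) (y := γ₂ (s * t * (a * c₂ + c₁ * b) / (s * a + t * b)))
      (z := γ₃ t) hs ht hs₁ hs₂ hsq₁ hsq₂ rfl hD
      (H1 s _ hs hs1 hτ0 (lt_of_lt_of_le hτδ (min_le_left _ _)))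
      (H2 _ t hτ0 (lt_of_lt_of_le hτδ (min_le_right _ _)) ht ht1)
    refine hfin.trans ?_
    have e5 : (cos (θ₁ + θ₂) - ε) * (s * t) ≤ (c₁ * c₂ - a * b) * (s * t) :=
      mul_le_mul_of_nonneg_right hcos.le (by positivity)
    linarith [e5, show 2 * (c₁ * c₂ - a * b) * s * t = 2 * ((c₁ * c₂ - a * b) * (s * t)) by ring,
      show 2 * (cos (θ₁ + θ₂) - ε) * s * t = 2 * ((cos (θ₁ + θ₂) - ε) * (s * t)) by ring]

end Pool.Agent.LibCF24
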