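import Pool.Agent.LibCF24.Defs

/-! Row R5 (MEDIUM). Alexandrov's lemma, numerical form. ONLY Defs (no geometry).

`p = |ab|`, `q = |ac|`, `L = |ar|`, `u = |br|`, `v = |rc|`. `hst`: the comparison angles at `r` add up to at least `π`.
`stew`: multiply `hst` by `2 L u v`. `atB`: both sides times `2 p u (u+v)`: `u (p^2 + (u+v)^2 - q^2) ≤ (u+v) (p^2 + u^2 - L^2)`, that is
`(u+v) L^2 ≤ v p^2 + u q^2 - u v (u + v)` = `stew`. `atC`: the same with the roles exchanged.
`sum`: `cos α = co p L u`, `cos β = co L q v`, `cos ρ₁ = co u L p`, `cos ρ₂ = co v L q`. `co p L u + co u L p ≥ 0`: times `2 p u L` it is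
`u (p^2 + L^2 - u^2) + p (u^2 + L^2 - p^2) = (u + p) (L^2 - (u - p)^2) ≥ 0`; the same for `q`, `v`. So `co p L u + co L q v ≥ - (co u L p + co v L q) ≥ 0`,
hence `cos α ≥ - cos β = cos (π - β)`, `α ≤ π - β`.
`atA`: `cos (α + β) ≥ co p q (u + v)`: put `A = 0`, `R = (L, 0)`, `B = p (cos α, sin α)`, `C = q (cos β, - sin β)`; then `|B - R|^2 = p^2 + L^2 - 2 p L cos α = u^2`,
`|R - C|^2 = v^2`, so `|B - C| ≤ u + v`, and `|B - C|^2 = p^2 + q^2 - 2 p q cos (α + β)`. All `co` lie in `[-1, 1]` by the triangle inequalities. -/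

set_option autoImplicit false

noncomputable section

open Set Real

namespace Pool.Agent.LibCF24

theorem co_mem {a b c : ℝ} (ha : 0 < a) (hb : 0 < b) (h1 : c ≤ a + b) (h2 : a ≤ b + c) (h3 : b ≤ a + c) :
    co a b c ∈ Icc (-1 : ℝ) 1 := by
  have hab : 0 < 2 * a * b := by positivity
  have hc : 0 ≤ c := by linarith
  unfold co
  refine ⟨?_, ?_⟩
  · rw [le_div_iff₀ hab]
    have h4 : 0 ≤ (a + b - c) * (a + b + c) := mul_nonneg (by linarith) (by linarith)
    linarith [h4]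
  · rw [div_le_one hab]
    have h4 : 0 ≤ (c - a + b) * (c + a - b) := mul_nonneg (by linarith) (by linarith)
    linarith [h4]

private theorem R5_pair {p L u : ℝ} (hp : 0 < p) (hL : 0 < L) (hu : 0 < u) (t1 : p ≤ L + u)
    (t3 : u ≤ p + L) : 0 ≤ co p L u + co u L p := by
  have h1 : co p L u + co u L p = (u + p) * ((L - u + p) * (L + u - p)) / (2 * p * L * u) := by
    unfold co
    field_simp
    ring
  rw [h1]
  exact div_nonneg (mul_nonneg (by linarith) (mul_nonneg (by linarith) (by linarith)))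
    (by positivity)

private theorem R5_symm (a b c : ℝ) : co a b c = co b a c := by
  unfold co
  rw [show a ^ 2 + b ^ 2 - c ^ 2 = b ^ 2 + a ^ 2 - c ^ 2 by ring,
    show 2 * a * b = 2 * b * a by ring]

private theorem R5_side {p q L u v : ℝ} (hp : 0 < p) (hu : 0 < u) (hv : 0 < v)
    (h : (u + v) * L ^ 2 ≤ v * p ^ 2 + u * q ^ 2 - u * v * (u + v)) :
    co p (u + v) q ≤ co p u L := by
  unfold co
  have h1 : 0 < 2 * p * (u + v) := by positivity
  have h2 : 0 < 2 * p * u := by positivity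
  rw [div_le_div_iff₀ h1 h2]
  have h3 : u * (p ^ 2 + (u + v) ^ 2 - q ^ 2) ≤ (u + v) * (p ^ 2 + u ^ 2 - L ^ 2) := by
    linarith [h]
  have h4 := mul_le_mul_of_nonneg_left h3 (by positivity : (0 : ℝ) ≤ 2 * p)
  linarith

theorem alex {p q L u v : ℝ} (hp : 0 < p) (hq : 0 < q) (hL : 0 < L) (hu : 0 < u) (hv : 0 < v)
    (t1 : p ≤ L + u) (t2 : L ≤ p + u) (t3 : u ≤ p + L) (t4 : q ≤ L + v) (t5 : L ≤ q + v) (t6 : v ≤ q + L)
    (hst : co u L p + co v L q ≤ 0) :
    (u + v) * L ^ 2 ≤ v * p ^ 2 + u * q ^ 2 - u * v * (u + v) ∧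
    co p (u + v) q ≤ co p u L ∧ co q (u + v) p ≤ co q v L ∧
    arccos (co p L u) + arccos (co L q v) ≤ π ∧
    co p q (u + v) ≤ cos (arccos (co p L u) + arccos (co L q v)) := by
  have hst' : (u + v) * L ^ 2 ≤ v * p ^ 2 + u * q ^ 2 - u * v * (u + v) := by
    have h1 : co u L p + co v L q =
        (v * (u ^ 2 + L ^ 2 - p ^ 2) + u * (v ^ 2 + L ^ 2 - q ^ 2)) / (2 * L * u * v) := by
      unfold co
      field_simp
    rw [h1] at hst
    have h2 : 0 < 2 * L * u * v := by positivity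
    have h3 : v * (u ^ 2 + L ^ 2 - p ^ 2) + u * (v ^ 2 + L ^ 2 - q ^ 2) ≤ 0 := by
      by_contra h4
      exact absurd hst (not_le.2 (div_pos (not_le.1 h4) h2))
    linarith [h3]
  have hx := co_mem hp hL (c := u) (by linarith) (by linarith) (by linarith)
  have hy := co_mem hL hq (c := v) (by linarith) (by linarith) (by linarith)
  have hxy : -co L q v ≤ co p L u := by
    have h1 := R5_pair hp hL hu t1 t3
    have h2 := R5_pair hq hL hv t4 t6
    rw [R5_symm q L v] at h2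
    linarith
  refine ⟨hst', R5_side hp hu hv hst', ?_, ?_, ?_⟩
  · rw [add_comm u v]
    refine R5_side hq hv hu ?_
    linarith
  · have h1 := Real.arccos_le_arccos hxy
    rw [Real.arccos_neg] at h1
    linarith
  · have hpq : 0 < 2 * p * q := by positivity
    rw [Real.cos_add, Real.cos_arccos hx.1 hx.2, Real.cos_arccos hy.1 hy.2]
    obtain ⟨x, hx'⟩ : ∃ x, x = co p L u := ⟨_, rfl⟩
    obtain ⟨y, hy'⟩ : ∃ y, y = co L q v := ⟨_, rfl⟩
    obtain ⟨sx, hsx⟩ : ∃ z, z = sin (arccos (co p L u)) := ⟨_, rfl⟩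
    obtain ⟨sy, hsy⟩ : ∃ z, z = sin (arccos (co L q v)) := ⟨_, rfl⟩
    have e1 : sx ^ 2 + x ^ 2 = 1 := by
      have := Real.sin_sq_add_cos_sq (arccos (co p L u))
      rwa [Real.cos_arccos hx.1 hx.2, ← hsx, ← hx'] at this
    have e2 : sy ^ 2 + y ^ 2 = 1 := by
      have := Real.sin_sq_add_cos_sq (arccos (co L q v))
      rwa [Real.cos_arccos hy.1 hy.2, ← hsy, ← hy'] at this
    rw [← hsx, ← hsy, ← hx', ← hy']
    have e3 : x * (2 * p * L) = p ^ 2 + L ^ 2 - u ^ 2 := by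
      rw [hx']
      unfold co
      field_simp
    have e4 : y * (2 * L * q) = L ^ 2 + q ^ 2 - v ^ 2 := by
      rw [hy']
      unfold co
      field_simp
    have e5 : (p * x - L) ^ 2 + (p * sx) ^ 2 = u ^ 2 := by
      have : (p * x - L) ^ 2 + (p * sx) ^ 2 = p ^ 2 * (sx ^ 2 + x ^ 2) + L ^ 2 - x * (2 * p * L) := by
        ring
      rw [this, e1, e3]
      ring
    have e6 : (L - q * y) ^ 2 + (q * sy) ^ 2 = v ^ 2 := by
      have : (L - q * y) ^ 2 + (q * sy) ^ 2 = q ^ 2 * (sy ^ 2 + y ^ 2) + L ^ 2 - y * (2 * L * q) := by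
        ring
      rw [this, e2, e4]
      ring
    have e7 : (p * x - L) * (L - q * y) + (p * sx) * (q * sy) ≤ u * v := by
      have h1 : ((p * x - L) * (L - q * y) + (p * sx) * (q * sy)) ^ 2 ≤ (u * v) ^ 2 := by
        rw [mul_pow u v, ← e5, ← e6]
        have h2 := sq_nonneg ((p * x - L) * (q * sy) - (p * sx) * (L - q * y))
        linarith [h2]
      exact (le_abs_self _).trans (abs_le_of_sq_le_sq h1 (by positivity))
    unfold co
    rw [div_le_iff₀ hpq]
    have e8 : p ^ 2 + q ^ 2 - (x * y - sx * sy) * (2 * p * q) =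
        u ^ 2 + v ^ 2 + 2 * ((p * x - L) * (L - q * y) + (p * sx) * (q * sy)) := by
      rw [← e5, ← e6]
      have h3 : p ^ 2 = p ^ 2 * (sx ^ 2 + x ^ 2) := by rw [e1, mul_one]
      have h4 : q ^ 2 = q ^ 2 * (sy ^ 2 + y ^ 2) := by rw [e2, mul_one]
      rw [h3, h4]
      ring
    linarith [e7, e8]

end Pool.Agent.LibCF24
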