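import Pool.Agent.LibCF24.R0
import Pool.Agent.LibCF24.R3
import Pool.Agent.LibCF24.R4
import Pool.Agent.LibCF24.R5

/-! Row R6 (MEDIUM). Gluing two triangles along a common side. R0, R3, R4, R5 may be cited.

`a b r` has the sides `α` (from `a` to `b`), `ρ` (from `a` to `r`), `fun t => σ t` on `[0, u]` (from `b` to `r`); `a r c` has the sides `ρ`, `β`, `σ (u + ·)` on `[0, v]`.
`h1 : TriUA α ρ σ p L u`, `h2 : TriUA ρ β (fun t => σ (u + t)) L q v`.
At `r`: `h1.atC : UA (rev ρ L) (rev σ u) (co L u p)`, `h2.atB : UA (rev ρ L) (fun t => σ (u + t)) (co L v q)`. `ua_opposite` (R3, with `γ = σ`, `m = u`,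
`γ₃ = rev ρ L`, which is a geodesic from `σ u = r` to `a`) gives `co L u p + co L v q ≤ 0` (use `UA.symm`). The triangle inequalities come from the distances.
Then `alex` (R5). At `b`: `h1.atB : UA (rev α p) σ (co p u L)` and `co p (u+v) q ≤ co p u L` (`UA.mono`). At `c`: `h2.atC : UA (rev β q) (rev (σ (u + ·)) v) (co q v L)`,
and `rev (fun t => σ (u + t)) v = rev σ (u + v)` as functions. At `a`: `h1.atA`, `h2.atA` rewritten with `cos (arccos _)` (`co_mem`), `ua_add` (R4) with the bound
`dist (α s) (β t) ≤ s + t` for `s < p`, `t < q`, and `UA.mono` with the last conclusion of `alex`. -/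

set_option autoImplicit false

noncomputable section

open Set

namespace Pool.Agent.LibCF24

theorem tri_glue {M : Type*} [MetricSpace M] {α β ρ σ : ℝ → M} {p q L u v : ℝ} {a b c r : M}
    (hα : IsGeo α p a b) (hβ : IsGeo β q a c) (hρ : IsGeo ρ L a r) (hσ : IsGeo σ (u + v) b c) (hr : σ u = r)
    (hp : 0 < p) (hq : 0 < q) (hL : 0 < L) (hu : 0 < u) (hv : 0 < v)
    (h1 : TriUA α ρ σ p L u) (h2 : TriUA ρ β (fun t => σ (u + t)) L q v) :
    TriUA α β σ p q (u + v) := by
  have hop : co L u p + co L v q ≤ 0 := by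
    refine ua_opposite (γ := σ) (γ₃ := rev ρ L) (L := u + v) (ℓ := L) (m := u) (q := b) (r := c)
      (p := a) hσ hu (by linarith) ?_ hL h1.atC.symm h2.atB.symm
    rw [hr]
    exact hρ.symm
  have hst : co u L p + co v L q ≤ 0 := by
    rw [co_comm u L p, co_comm v L q]
    exact hop
  have dab : dist a b = p := hα.dist_eq
  have dac : dist a c = q := hβ.dist_eq
  have dar : dist a r = L := hρ.dist_eq
  have dbr : dist b r = u := by
    rw [← hr]
    exact (hσ.init hu.le (by linarith)).dist_eq
  have drc : dist r c = v := by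
    have h := hσ.iso u ⟨hu.le, by linarith⟩ (u + v) ⟨by linarith, le_refl _⟩
    rw [hr, hσ.right, show u - (u + v) = -v by ring, abs_neg, abs_of_pos hv] at h
    exact h
  have t1 : p ≤ L + u := by
    have h := dist_triangle a r b
    rw [dist_comm r b] at h
    linarith
  have t2 : L ≤ p + u := by
    have h := dist_triangle a b r
    linarith
  have t3 : u ≤ p + L := by
    have h := dist_triangle b a r
    rw [dist_comm b a] at h
    linarith
  have t4 : q ≤ L + v := by
    have h := dist_triangle a r c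
    linarith
  have t5 : L ≤ q + v := by
    have h := dist_triangle a c r
    rw [dist_comm c r] at h
    linarith
  have t6 : v ≤ q + L := by
    have h := dist_triangle r a c
    rw [dist_comm r a] at h
    linarith
  obtain ⟨-, hB, hC, hsum, hA⟩ := alex hp hq hL hu hv t1 t2 t3 t4 t5 t6 hst
  refine ⟨?_, h1.atB.mono hB, ?_⟩
  · have m1 := co_mem hp hL t3 t1 t2
    have m2 := co_mem hL hq (by linarith) t5 t4
    have k1 : UA α ρ (Real.cos (Real.arccos (co p L u))) := by
      rw [Real.cos_arccos m1.1 m1.2]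
      exact h1.atA
    have k2 : UA ρ β (Real.cos (Real.arccos (co L q v))) := by
      rw [Real.cos_arccos m2.1 m2.2]
      exact h2.atA
    refine (ua_add (Real.arccos_nonneg _) (Real.arccos_nonneg _) hsum k1 k2
      (lt_min hp hq) ?_).mono hA
    intro s t hs0 hs ht0 ht
    have e1 := hα.iso 0 ⟨le_refl _, hp.le⟩ s ⟨hs0.le, (hs.trans_le (min_le_left _ _)).le⟩
    have e2 := hβ.iso 0 ⟨le_refl _, hq.le⟩ t ⟨ht0.le, (ht.trans_le (min_le_right _ _)).le⟩
    rw [hα.left, zero_sub, abs_neg, abs_of_pos hs0] at e1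
    rw [hβ.left, zero_sub, abs_neg, abs_of_pos ht0] at e2
    have h := dist_triangle (α s) a (β t)
    rw [dist_comm (α s) a, e1, e2] at h
    exact h
  · have hrev : rev σ (u + v) = rev (fun t => σ (u + t)) v := by
      funext t
      change σ (u + v - t) = σ (u + (v - t))
      rw [add_sub_assoc]
    rw [hrev]
    exact h2.atC.mono hC

end Pool.Agent.LibCF24
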