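import Pool.Agent.LibCF24.R2
import Pool.Agent.LibCF24.R6

/-! Row R7 (STRONG, long case distinction, no new idea). Triangles with one vertex in `A` and two vertices in `B`. R0, R2, R6 may be cited.

Names: `z₁ = α s₁`, `z₂ = β s₂`, both in `A ∩ B`.
`init_mem` : `h.geo x (γ s₁)` gives a geodesic inside `A ∩ B`, by `unique_in` (in `A`) it is `γ` on `[0, s₁]`.
`tri_mixed`:
(0) `x ∈ B`: by `init_mem` `α` and `β` stay in `B`: `triUA_in h.hB`. From now on `x ∉ B`, so `0 < s₁`, `0 < s₂`.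
Let `κ` be a geodesic in `B` from `z₂` to `y` (`geo_in`), `ℓ = dist z₂ y`, and `τ` a geodesic in `A ∩ B` from `z₂` to `z₁`, `ℓ' = dist z₂ z₁`.
(1a) `ℓ = 0`, i.e. `z₂ = y`: then `y ∈ A ∩ B`, so `α` stays in `A` (on `[s₁, p]` it joins two points of `A ∩ B`: `init_mem` for `B`, `A` and the reversed piece);
  `unique_in h.hA`: `s₂ = p`, `α = β` on `[0, p]`; `unique_in h.hB`: `σ s = β (p + s)`, `q = p + w`. `TriUA.degA` for `a = y`: `TriUA (rev α p) σ β p w (p + w)`, then `swapAB`.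
(1b) `ℓ > 0`. Claim T1 : `TriUA (rev β s₂) κ α s₂ ℓ p` (`a = z₂`, `b = x`, `c = y`).
  (i) `s₁ = p`: `y ∈ A ∩ B`, `α` in `A`, `κ` in `A ∩ B` (as in (1a)): `triUA_in h.hA`.
  (ii) `s₁ < p`, `ℓ' = 0`: `z₁ = z₂`, `s₁ = s₂`; `rev β s₂ = rev α s₁` on `[0, s₁]` (`unique_in h.hA`), `κ s = α (s₁ + s)` (`unique_in h.hB`): `TriUA.degA`.
  (iii) `s₁ < p`, `ℓ' > 0`: `tri_glue` with `a = z₂`, `b = x`, `c = y`, `r = z₁`, `u = s₁`, `v = p - s₁`, the first triangle in `A`, the second in `B` (`triUA_in`).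
(2) The claim from T1: (i) `s₂ = q`: `z₂ = z`, `ℓ = w`, `rev κ w = σ` on `[0, w]` (`unique_in h.hB`): T1.swapAB.swapBC and `TriUA.congr`.
  (ii) `s₂ < q`: T1.swapAB.swapBC.swapAB is `TriUA (rev α p) (rev κ ℓ) β p ℓ s₂`; the triangle `y z₂ z` with the sides `rev κ ℓ`, `σ`, `β (s₂ + ·)` lies in `B`;
  `tri_glue` with `a = y`, `b = x`, `c = z`, `r = z₂`, `u = s₂`, `v = q - s₂` gives `TriUA (rev α p) σ β p w (s₂ + (q - s₂))`; `swapAB`. -/

set_option autoImplicit false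

noncomputable section

open Set

namespace Pool.Agent.LibCF24

theorem Glue.symm {M : Type*} [MetricSpace M] {A B : Set M} (h : Glue A B) : Glue B A where
  hA := h.hB
  hB := h.hA
  geo := by
    intro x hx y hy
    obtain ⟨γ, h1, h2⟩ := h.geo x hx.symm y hy.symm
    exact ⟨γ, h1, fun s hs => (h2 s hs).symm⟩
  mid := by
    intro x hx y hy
    obtain ⟨z, hz, e⟩ := h.mid y hy x hx
    exact ⟨z, hz.symm, by rw [dist_comm x y, e, dist_comm y z, dist_comm z x]; ring⟩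

/-- a geodesic that starts in `A ∩ B`, runs in `A` and reaches `A ∩ B` at time `s₁`, runs in `A ∩ B` up to this time -/
theorem init_mem {M : Type*} [MetricSpace M] {A B : Set M} (h : Glue A B) {γ : ℝ → M} {L s₁ : ℝ} {x y : M}
    (hγ : IsGeo γ L x y) (hs₁ : s₁ ∈ Icc (0 : ℝ) L) (hx : x ∈ A ∩ B) (hz : γ s₁ ∈ A ∩ B)
    (i : ∀ s ∈ Icc (0 : ℝ) s₁, γ s ∈ A) : ∀ s ∈ Icc (0 : ℝ) s₁, γ s ∈ A ∩ B := by
  have h1 : IsGeo γ s₁ x (γ s₁) := hγ.init hs₁.1 hs₁.2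
  obtain ⟨γ', h2, h3⟩ := h.geo x hx (γ s₁) hz
  rw [h1.dist_eq] at h2 h3
  intro s hs
  rw [unique_in h.hA h1 h2 i (fun s hs => (h3 s hs).1) s hs]
  exact h3 s hs

private theorem R7_seg {M : Type*} [MetricSpace M] {A B : Set M} (h : Glue A B) {γ : ℝ → M} {L a b : ℝ} {x y : M}
    (hγ : IsGeo γ L x y) (ha : 0 ≤ a) (hab : a ≤ b) (hb : b ≤ L) (hx : γ a ∈ A ∩ B) (hz : γ b ∈ A ∩ B)
    (i : ∀ s ∈ Icc a b, γ s ∈ A) : ∀ s ∈ Icc a b, γ s ∈ A ∩ B := by
  have h1 : IsGeo (fun t => γ (a + t)) (b - a) (γ a) (γ b) := hγ.sub ha hab hb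
  intro s hs
  have h2 := init_mem h h1 (s₁ := b - a) ⟨by linarith, le_refl _⟩ hx
    (by show γ (a + (b - a)) ∈ A ∩ B; rw [add_sub_cancel]; exact hz)
    (fun t ht => i (a + t) ⟨by linarith [ht.1], by linarith [ht.2]⟩) (s - a)
    ⟨by linarith [hs.1], by linarith [hs.2]⟩
  have h3 : γ (a + (s - a)) ∈ A ∩ B := h2
  rwa [add_sub_cancel] at h3

theorem tri_mixed {M : Type*} [MetricSpace M] {A B : Set M} (h : Glue A B) {α β σ : ℝ → M} {p q w s₁ s₂ : ℝ} {x y z : M}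
    (hα : IsGeo α p x y) (hβ : IsGeo β q x z) (hσ : IsGeo σ w y z) (hp : 0 < p) (hq : 0 < q) (hw : 0 < w)
    (hs₁ : s₁ ∈ Icc (0 : ℝ) p) (hs₂ : s₂ ∈ Icc (0 : ℝ) q)
    (α₁ : ∀ s ∈ Icc (0 : ℝ) s₁, α s ∈ A) (α₂ : ∀ s ∈ Icc s₁ p, α s ∈ B)
    (β₁ : ∀ s ∈ Icc (0 : ℝ) s₂, β s ∈ A) (β₂ : ∀ s ∈ Icc s₂ q, β s ∈ B)
    (iσ : ∀ s ∈ Icc (0 : ℝ) w, σ s ∈ B) : TriUA α β σ p q w := by
  have hxA : x ∈ A := by rw [← hα.left]; exact α₁ 0 ⟨le_refl _, hs₁.1⟩
  have hyB : y ∈ B := by rw [← hα.right]; exact α₂ p ⟨hs₁.2, le_refl _⟩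
  have hz₁ : α s₁ ∈ A ∩ B := ⟨α₁ _ ⟨hs₁.1, le_refl _⟩, α₂ _ ⟨le_refl _, hs₁.2⟩⟩
  have hz₂ : β s₂ ∈ A ∩ B := ⟨β₁ _ ⟨hs₂.1, le_refl _⟩, β₂ _ ⟨le_refl _, hs₂.2⟩⟩
  by_cases hxB : x ∈ B
  · have a1 := init_mem h hα hs₁ ⟨hxA, hxB⟩ hz₁ α₁
    have b1 := init_mem h hβ hs₂ ⟨hxA, hxB⟩ hz₂ β₁
    refine triUA_in h.hB hα hβ hσ hp hq hw ?_ ?_ iσ
    · intro s hs
      rcases le_total s s₁ with hs' | hs'
      · exact (a1 s ⟨hs.1, hs'⟩).2
      · exact α₂ s ⟨hs', hs.2⟩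
    · intro s hs
      rcases le_total s s₂ with hs' | hs'
      · exact (b1 s ⟨hs.1, hs'⟩).2
      · exact β₂ s ⟨hs', hs.2⟩
  · have hs₁p : 0 < s₁ := by
      rcases hs₁.1.lt_or_eq with h' | h'
      · exact h'
      · exfalso
        apply hxB
        rw [← hα.left, h']
        exact hz₁.2
    have hs₂p : 0 < s₂ := by
      rcases hs₂.1.lt_or_eq with h' | h'
      · exact h'
      · exfalso
        apply hxB
        rw [← hβ.left, h']
        exact hz₂.2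
    -- pieces
    have gα₁ : IsGeo α s₁ x (α s₁) := hα.init hs₁.1 hs₁.2
    have gβ₁ : IsGeo β s₂ x (β s₂) := hβ.init hs₂.1 hs₂.2
    have gα₂ : IsGeo (fun t => α (s₁ + t)) (p - s₁) (α s₁) y := by
      have := hα.sub hs₁.1 hs₁.2 (le_refl p)
      rwa [hα.right] at this
    have gβ₂ : IsGeo (fun t => β (s₂ + t)) (q - s₂) (β s₂) z := by
      have := hβ.sub hs₂.1 hs₂.2 (le_refl q)
      rwa [hβ.right] at this
    have iα₂ : ∀ s ∈ Icc (0 : ℝ) (p - s₁), (fun t => α (s₁ + t)) s ∈ B := fun s hs =>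
      α₂ (s₁ + s) ⟨by linarith [hs.1], by linarith [hs.2]⟩
    have iβ₂ : ∀ s ∈ Icc (0 : ℝ) (q - s₂), (fun t => β (s₂ + t)) s ∈ B := fun s hs =>
      β₂ (s₂ + s) ⟨by linarith [hs.1], by linarith [hs.2]⟩
    have irβ : ∀ s ∈ Icc (0 : ℝ) s₂, rev β s₂ s ∈ A := fun s hs =>
      β₁ (s₂ - s) ⟨by linarith [hs.2], by linarith [hs.1]⟩
    obtain ⟨κ, gκ, iκ⟩ := geo_in h.hB hz₂.2 hyB
    rcases (dist_nonneg (x := β s₂) (y := y)).lt_or_eq with hℓ | hℓ
    · -- ℓ > 0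
      obtain ⟨ℓ, hℓe⟩ : ∃ ℓ, ℓ = dist (β s₂) y := ⟨_, rfl⟩
      rw [← hℓe] at gκ iκ hℓ
      have T1 : TriUA (rev β s₂) κ α s₂ ℓ p := by
        rcases hs₁.2.lt_or_eq with hlt | heq
        · rcases (dist_nonneg (x := β s₂) (y := α s₁)).lt_or_eq with hℓ' | hℓ'
          · -- three pieces
            obtain ⟨τ, gτ, iτ⟩ := h.geo (β s₂) hz₂ (α s₁) hz₁
            have h1 : TriUA (rev β s₂) τ α s₂ (dist (β s₂) (α s₁)) s₁ :=
              triUA_in h.hA gβ₁.symm gτ gα₁ hs₂p hℓ' hs₁p irβ (fun s hs => (iτ s hs).1) α₁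
            have h2 : TriUA τ κ (fun t => α (s₁ + t)) (dist (β s₂) (α s₁)) ℓ (p - s₁) :=
              triUA_in h.hB gτ gκ gα₂ hℓ' hℓ (by linarith) (fun s hs => (iτ s hs).2) iκ iα₂
            have hα' : IsGeo α (s₁ + (p - s₁)) x y := by rwa [add_sub_cancel]
            have h3 := tri_glue gβ₁.symm gκ gτ hα' rfl hs₂p hℓ hℓ' hs₁p (by linarith) h1 h2
            rwa [add_sub_cancel] at h3
          · -- z₁ = z₂
            have e : β s₂ = α s₁ := dist_eq_zero.mp hℓ'.symm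
            have e1 : s₁ = s₂ := by
              have h1 := gα₁.dist_eq
              have h2 := gβ₁.dist_eq
              rw [e] at h2
              linarith
            have h3 : ∀ s ∈ Icc (0 : ℝ) s₂, β s = α s := by
              rw [e, ← e1] at gβ₁
              rw [← e1]
              rw [← e1] at β₁
              exact unique_in h.hA gβ₁ gα₁ β₁ α₁
            have e2 : ℓ = p - s₁ := by
              rw [hℓe, e]; exact gα₂.dist_eq
            have h4 : ∀ s ∈ Icc (0 : ℝ) ℓ, κ s = α (s₁ + s) := by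
              rw [e] at gκ
              rw [← e2] at gα₂ iα₂
              exact unique_in h.hB gκ gα₂ iκ iα₂
            have e3 : p = s₂ + ℓ := by linarith
            have hα' : IsGeo α (s₂ + ℓ) x y := by rwa [← e3]
            have h5 := TriUA.degA gβ₁.symm gκ hα' hs₂p hℓ
              (fun s hs => h3 (s₂ - s) ⟨by linarith [hs.2], by linarith [hs.1]⟩)
              (fun s hs => by rw [h4 s hs, e1])
            rwa [← e3] at h5
        · -- s₁ = p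
          have hyA : y ∈ A ∩ B := by rw [← hα.right, ← heq]; exact hz₁
          have iκ' : ∀ s ∈ Icc (0 : ℝ) ℓ, κ s ∈ B ∩ A :=
            init_mem h.symm gκ ⟨hℓ.le, le_refl _⟩ hz₂.symm (by rw [gκ.right]; exact hyA.symm) iκ
          refine triUA_in h.hA gβ₁.symm gκ hα hs₂p hℓ hp irβ (fun s hs => (iκ' s hs).2) ?_
          rw [← heq]
          exact α₁
      have T2 : TriUA β α κ s₂ p ℓ := by
        have := T1.swapAB
        rwa [rev_rev] at this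
      have T3 : TriUA α β (rev κ ℓ) p s₂ ℓ := T2.swapBC
      have irκ : ∀ s ∈ Icc (0 : ℝ) ℓ, rev κ ℓ s ∈ B := fun s hs =>
        iκ (ℓ - s) ⟨by linarith [hs.2], by linarith [hs.1]⟩
      rcases hs₂.2.lt_or_eq with hlt | heq
      · have T4 : TriUA (rev α p) (rev κ ℓ) β p ℓ s₂ := T3.swapAB
        have T5 : TriUA (rev κ ℓ) σ (fun t => β (s₂ + t)) ℓ w (q - s₂) :=
          triUA_in h.hB gκ.symm hσ gβ₂ hℓ hw (by linarith) irκ iσ iβ₂
        have hβ' : IsGeo β (s₂ + (q - s₂)) x z := by rwa [add_sub_cancel]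
        have T6 := tri_glue hα.symm hσ gκ.symm hβ' rfl hp hw hℓ hs₂p (by linarith) T4 T5
        have T7 := T6.swapAB
        rwa [rev_rev, add_sub_cancel] at T7
      · have ez : β s₂ = z := by rw [heq]; exact hβ.right
        have ew : ℓ = w := by rw [hℓe, ez, dist_comm]; exact hσ.dist_eq
        have g1 : IsGeo (rev κ ℓ) w y z := by
          have := gκ.symm
          rw [ew] at this ⊢
          rwa [ez] at this
        have e1 : ∀ s ∈ Icc (0 : ℝ) w, σ s = rev κ ℓ s :=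
          unique_in h.hB hσ g1 iσ (by rw [← ew]; exact irκ)
        rw [heq, ew] at T3
        rw [ew] at e1
        exact T3.congr hp hq hw (fun _ _ => rfl) (fun _ _ => rfl) e1
    · -- z₂ = y
      have e : β s₂ = y := dist_eq_zero.mp hℓ.symm
      have hy : y ∈ A ∩ B := by rw [← e]; exact hz₂
      have iα : ∀ s ∈ Icc s₁ p, α s ∈ B ∩ A :=
        R7_seg h.symm hα hs₁.1 hs₁.2 (le_refl _) hz₁.symm (by rw [hα.right]; exact hy.symm) α₂
      have iαA : ∀ s ∈ Icc (0 : ℝ) p, α s ∈ A := by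
        intro s hs
        rcases le_total s s₁ with hs' | hs'
        · exact α₁ s ⟨hs.1, hs'⟩
        · exact (iα s ⟨hs', hs.2⟩).2
      have e1 : s₂ = p := by
        have h1 := gβ₁.dist_eq
        rw [e] at h1
        have h2 := hα.dist_eq
        linarith
      rw [e, e1] at gβ₁
      rw [e1] at β₁
      have h3 : ∀ s ∈ Icc (0 : ℝ) p, α s = β s := unique_in h.hA hα gβ₁ iαA β₁
      rw [e, e1] at gβ₂
      rw [e1] at iβ₂
      have e2 : w = q - p := by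
        rw [← hσ.dist_eq, gβ₂.dist_eq]
      rw [← e2] at gβ₂ iβ₂
      have h4 : ∀ s ∈ Icc (0 : ℝ) w, σ s = β (p + s) := unique_in h.hB hσ gβ₂ iσ iβ₂
      have e3 : q = p + w := by linarith
      have hβ' : IsGeo β (p + w) x z := by rwa [← e3]
      have T := TriUA.degA hα.symm hσ hβ' hp hw
        (fun s hs => h3 (p - s) ⟨by linarith [hs.2], by linarith [hs.1]⟩) h4
      have T' := T.swapAB
      rwa [rev_rev, ← e3] at T'

end Pool.Agent.LibCF24
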