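import Pool.Agent.LibCF24.R7

/-! Row R8 (STRONG). Reshetnyak's gluing theorem. R0, R2, R3, R7 may be cited.

Call a geodesic `γ` (`IsGeo γ L x y`) standard (`Std A B γ L`) if it runs first in `A` and then in `B` or conversely.
`std_exists`: both points in `A` or both in `B`: `geo_in`; otherwise `mid`, `geo_in` twice and `IsGeo.concat`.
`std_A`: both end points in `A` ⇒ the whole geodesic in `A`: in the form first `A`, then `B` the second part joins `γ s₁ ∈ A ∩ B` and `γ L ∈ A ∩ B`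
inside `B`; `init_mem` (for `B`, `A`) applied to the reversed geodesic. `std_AB`: from a point of `A` to a point of `B`: of the form first `A`, then `B`
(in the other form both end points are in `A ∩ B`, use `std_A`, `s₁ = L`).
`std_ua`: for three different points `m q p` and standard sides `γ₁ : m → q`, `γ₃ : m → p`: take a standard `γ'` from `q` to `p`; all three in `A`: `std_A`, `triUA_in`; all in
`B`: the same with `h.symm`; otherwise two of the points are in one of the sets and the third in the other: `tri_mixed` for `h` or `h.symm` with the third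
point as `x` (`std_AB`), and a relabelling (`swapAB`, `swapBC`) gives `TriUA γ₁ γ₃ γ' ..`; take `.atA`.
`glue`: geodesics: `std_exists`. Bruhat-Tits inequality for `q r m p`: if `q = r`: `m = q`; if `p = q` or `p = r` or `p = m`: equality by the hypotheses. Otherwise
`h = dist q r / 2 > 0`; `γ₁ : m → q`, `γ₂ : m → r`, `γ₃ : m → p` standard; the concatenation `γ` of `rev γ₁` and `γ₂` is a geodesic (`concat`, `dist q r = h + h`),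
`γ (h - t) = γ₁ t`, `γ (h + t) = γ₂ t`; `ua_opposite` (R3) (with `UA.congr`) and `std_ua` give
`co h ℓ (dist q p) + co h ℓ (dist r p) ≤ 0`, `ℓ = dist m p`, i.e. `2 h^2 + 2 ℓ^2 ≤ dist q p ^ 2 + dist r p ^ 2`. -/

set_option autoImplicit false

noncomputable section

open Set

namespace Pool.Agent.LibCF24

/-- the geodesic runs in `A`, or in `B`, or first in `A` and then in `B`, or first in `B` and then in `A` -/
def Std {M : Type*} (A B : Set M) (γ : ℝ → M) (L : ℝ) : Prop :=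
  (∀ s ∈ Icc (0 : ℝ) L, γ s ∈ A) ∨ (∀ s ∈ Icc (0 : ℝ) L, γ s ∈ B) ∨
  (∃ s₁ ∈ Icc (0 : ℝ) L, (∀ s ∈ Icc (0 : ℝ) s₁, γ s ∈ A) ∧ ∀ s ∈ Icc s₁ L, γ s ∈ B) ∨
    ∃ s₁ ∈ Icc (0 : ℝ) L, (∀ s ∈ Icc (0 : ℝ) s₁, γ s ∈ B) ∧ ∀ s ∈ Icc s₁ L, γ s ∈ A

variable {M : Type*} [MetricSpace M] {A B : Set M}

private theorem R8_seg (h : Glue A B) {γ : ℝ → M} {L a b : ℝ} {x y : M}
    (hγ : IsGeo γ L x y) (ha : 0 ≤ a) (hab : a ≤ b) (hb : b ≤ L) (hx : γ a ∈ A ∩ B) (hz : γ b ∈ A ∩ B)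
    (i : ∀ s ∈ Icc a b, γ s ∈ A) : ∀ s ∈ Icc a b, γ s ∈ A ∩ B := by
  have h1 : IsGeo (fun t => γ (a + t)) (b - a) (γ a) (γ b) := hγ.sub ha hab hb
  intro s hs
  have h2 := init_mem h h1 (s₁ := b - a) ⟨by linarith, le_refl _⟩ hx
    (by show γ (a + (b - a)) ∈ A ∩ B; rw [add_sub_cancel]; exact hz)
    (fun t ht => i (a + t) ⟨by linarith [ht.1], by linarith [ht.2]⟩) (s - a)
    ⟨by linarith [hs.1], by linarith [hs.2]⟩
  have h3 : γ (a + (s - a)) ∈ A ∩ B := h2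
  rwa [add_sub_cancel] at h3

omit [MetricSpace M] in
private theorem R8_symm {γ : ℝ → M} {L : ℝ} (h : Std A B γ L) : Std B A γ L := by
  rcases h with h | h | h | h
  · exact Or.inr (Or.inl h)
  · exact Or.inl h
  · exact Or.inr (Or.inr (Or.inr h))
  · exact Or.inr (Or.inr (Or.inl h))

omit [MetricSpace M] in
private theorem R8_rev {γ : ℝ → M} {L : ℝ} (h : Std A B γ L) : Std A B (rev γ L) L := by
  rcases h with h | h | ⟨s₁, hs₁, h1, h2⟩ | ⟨s₁, hs₁, h1, h2⟩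
  · exact Or.inl fun s hs => h (L - s) ⟨by linarith [hs.2], by linarith [hs.1]⟩
  · exact Or.inr (Or.inl fun s hs => h (L - s) ⟨by linarith [hs.2], by linarith [hs.1]⟩)
  · refine Or.inr (Or.inr (Or.inr ⟨L - s₁, ⟨by linarith [hs₁.2], by linarith [hs₁.1]⟩, ?_, ?_⟩))
    · intro s hs
      exact h2 (L - s) ⟨by linarith [hs.2], by linarith [hs.1]⟩
    · intro s hs
      exact h1 (L - s) ⟨by linarith [hs.2], by linarith [hs.1]⟩
  · refine Or.inr (Or.inr (Or.inl ⟨L - s₁, ⟨by linarith [hs₁.2], by linarith [hs₁.1]⟩, ?_, ?_⟩))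
    · intro s hs
      exact h2 (L - s) ⟨by linarith [hs.2], by linarith [hs.1]⟩
    · intro s hs
      exact h1 (L - s) ⟨by linarith [hs.2], by linarith [hs.1]⟩

private theorem R8_ex (h : Glue A B) {x y : M} (hx : x ∈ A) (hy : y ∈ B) :
    ∃ γ : ℝ → M, IsGeo γ (dist x y) x y ∧
      ∃ s₁ ∈ Icc (0 : ℝ) (dist x y), (∀ s ∈ Icc (0 : ℝ) s₁, γ s ∈ A) ∧ ∀ s ∈ Icc s₁ (dist x y), γ s ∈ B := by
  obtain ⟨z, hz, e⟩ := h.mid x hx y hy
  obtain ⟨γ₁, g1, i1⟩ := geo_in h.hA hx hz.1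
  obtain ⟨γ₂, g2, i2⟩ := geo_in h.hB hz.2 hy
  obtain ⟨γ, g, e1, e2⟩ := g1.concat g2 e
  refine ⟨γ, by rwa [e], dist x z, ⟨dist_nonneg, by rw [e]; linarith [dist_nonneg (x := z) (y := y)]⟩, ?_, ?_⟩
  · intro s hs
    rw [e1 s hs]
    exact i1 s hs
  · intro s hs
    have hs' : s - dist x z ∈ Icc (0 : ℝ) (dist z y) := ⟨by linarith [hs.1], by linarith [hs.2]⟩
    have := e2 (s - dist x z) hs'
    rw [add_sub_cancel] at this
    rw [this]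
    exact i2 _ hs'

theorem std_exists (h : Glue A B) {x y : M} (hx : x ∈ A ∪ B) (hy : y ∈ A ∪ B) :
    ∃ γ : ℝ → M, IsGeo γ (dist x y) x y ∧ Std A B γ (dist x y) := by
  rcases hx with hx | hx
  · rcases hy with hy | hy
    · obtain ⟨γ, g, i⟩ := geo_in h.hA hx hy
      exact ⟨γ, g, Or.inl i⟩
    · obtain ⟨γ, g, i⟩ := R8_ex h hx hy
      exact ⟨γ, g, Or.inr (Or.inr (Or.inl i))⟩
  · rcases hy with hy | hy
    · obtain ⟨γ, g, i⟩ := R8_ex h.symm hx hy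
      exact ⟨γ, g, Or.inr (Or.inr (Or.inr i))⟩
    · obtain ⟨γ, g, i⟩ := geo_in h.hB hx hy
      exact ⟨γ, g, Or.inr (Or.inl i)⟩

theorem std_A (h : Glue A B) {γ : ℝ → M} {L : ℝ} {x y : M} (hγ : IsGeo γ L x y) (hs : Std A B γ L) (hx : x ∈ A)
    (hy : y ∈ A) : ∀ s ∈ Icc (0 : ℝ) L, γ s ∈ A := by
  have hL := hγ.nonneg
  rcases hs with hs | hs | ⟨s₁, hs₁, h1, h2⟩ | ⟨s₁, hs₁, h1, h2⟩
  · exact hs
  · have hxB : x ∈ B := by rw [← hγ.left]; exact hs 0 ⟨le_refl _, hL⟩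
    have hyB : y ∈ B := by rw [← hγ.right]; exact hs L ⟨hL, le_refl _⟩
    intro s hs'
    exact (init_mem h.symm hγ ⟨hL, le_refl _⟩ ⟨hxB, hx⟩ (by rw [hγ.right]; exact ⟨hyB, hy⟩) hs s hs').2
  · have hyB : y ∈ B := by rw [← hγ.right]; exact h2 L ⟨hs₁.2, le_refl _⟩
    have hz : γ s₁ ∈ B ∩ A := ⟨h2 _ ⟨le_refl _, hs₁.2⟩, h1 _ ⟨hs₁.1, le_refl _⟩⟩
    have h3 := R8_seg h.symm hγ hs₁.1 hs₁.2 (le_refl _) hz (by rw [hγ.right]; exact ⟨hyB, hy⟩) h2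
    intro s hs'
    rcases le_total s s₁ with hh | hh
    · exact h1 s ⟨hs'.1, hh⟩
    · exact (h3 s ⟨hh, hs'.2⟩).2
  · have hxB : x ∈ B := by rw [← hγ.left]; exact h1 0 ⟨le_refl _, hs₁.1⟩
    have hz : γ s₁ ∈ B ∩ A := ⟨h1 _ ⟨hs₁.1, le_refl _⟩, h2 _ ⟨le_refl _, hs₁.2⟩⟩
    have h3 := init_mem h.symm hγ hs₁ ⟨hxB, hx⟩ hz h1
    intro s hs'
    rcases le_total s s₁ with hh | hh
    · exact (h3 s ⟨hs'.1, hh⟩).2
    · exact h2 s ⟨hh, hs'.2⟩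

theorem std_AB (h : Glue A B) {γ : ℝ → M} {L : ℝ} {x y : M} (hγ : IsGeo γ L x y) (hs : Std A B γ L) (hx : x ∈ A)
    (hy : y ∈ B) : ∃ s₁ ∈ Icc (0 : ℝ) L, (∀ s ∈ Icc (0 : ℝ) s₁, γ s ∈ A) ∧ ∀ s ∈ Icc s₁ L, γ s ∈ B := by
  have hL := hγ.nonneg
  have all : (∀ s ∈ Icc (0 : ℝ) L, γ s ∈ A) →
      ∃ s₁ ∈ Icc (0 : ℝ) L, (∀ s ∈ Icc (0 : ℝ) s₁, γ s ∈ A) ∧ ∀ s ∈ Icc s₁ L, γ s ∈ B := by
    intro hs
    refine ⟨L, ⟨hL, le_refl _⟩, hs, ?_⟩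
    intro s hs'
    have e : s = L := le_antisymm hs'.2 hs'.1
    rw [e, hγ.right]
    exact hy
  rcases hs with hs | hs | hs | ⟨s₁, hs₁, h1, h2⟩
  · exact all hs
  · refine ⟨0, ⟨le_refl _, hL⟩, ?_, hs⟩
    intro s hs'
    have e : s = 0 := le_antisymm hs'.2 hs'.1
    rw [e, hγ.left]
    exact hx
  · exact hs
  · have hyA : y ∈ A := by rw [← hγ.right]; exact h2 L ⟨hs₁.2, le_refl _⟩
    exact all (std_A h hγ (Or.inr (Or.inr (Or.inr ⟨s₁, hs₁, h1, h2⟩))) hx hyA)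

private theorem R8_tri0 (h : Glue A B) {γ₁ γ₃ γ' : ℝ → M} {L₁ L₃ w : ℝ} {m q p : M} (hm : m ∈ A) (hq : q ∈ A) (hp : p ∈ A)
    (h₁ : IsGeo γ₁ L₁ m q) (h₃ : IsGeo γ₃ L₃ m p) (h' : IsGeo γ' w q p) (s₁ : Std A B γ₁ L₁) (s₃ : Std A B γ₃ L₃)
    (s' : Std A B γ' w) (hL₁ : 0 < L₁) (hL₃ : 0 < L₃) (hw : 0 < w) : TriUA γ₁ γ₃ γ' L₁ L₃ w :=
  triUA_in h.hA h₁ h₃ h' hL₁ hL₃ hw (std_A h h₁ s₁ hm hq) (std_A h h₃ s₃ hm hp) (std_A h h' s' hq hp)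

private theorem R8_tri1 (h : Glue A B) {γ₁ γ₃ γ' : ℝ → M} {L₁ L₃ w : ℝ} {m q p : M} (hm : m ∈ A) (hq : q ∈ B) (hp : p ∈ B)
    (h₁ : IsGeo γ₁ L₁ m q) (h₃ : IsGeo γ₃ L₃ m p) (h' : IsGeo γ' w q p) (s₁ : Std A B γ₁ L₁) (s₃ : Std A B γ₃ L₃)
    (s' : Std A B γ' w) (hL₁ : 0 < L₁) (hL₃ : 0 < L₃) (hw : 0 < w) : TriUA γ₁ γ₃ γ' L₁ L₃ w := by
  obtain ⟨a, ha, a1, a2⟩ := std_AB h h₁ s₁ hm hq
  obtain ⟨b, hb, b1, b2⟩ := std_AB h h₃ s₃ hm hp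
  exact tri_mixed h h₁ h₃ h' hL₁ hL₃ hw ha hb a1 a2 b1 b2 (std_A h.symm h' (R8_symm s') hq hp)

private theorem R8_tri2 (h : Glue A B) {γ₁ γ₃ γ' : ℝ → M} {L₁ L₃ w : ℝ} {m q p : M} (hm : m ∈ B) (hq : q ∈ A) (hp : p ∈ B)
    (h₁ : IsGeo γ₁ L₁ m q) (h₃ : IsGeo γ₃ L₃ m p) (h' : IsGeo γ' w q p) (s₁ : Std A B γ₁ L₁) (s₃ : Std A B γ₃ L₃)
    (s' : Std A B γ' w) (hL₁ : 0 < L₁) (hL₃ : 0 < L₃) (hw : 0 < w) : TriUA γ₁ γ₃ γ' L₁ L₃ w := by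
  have T := (R8_tri1 h hq hm hp h₁.symm h' h₃ (R8_rev s₁) s' s₃ hL₁ hw hL₃).swapAB
  rwa [rev_rev] at T

private theorem R8_tri3 (h : Glue A B) {γ₁ γ₃ γ' : ℝ → M} {L₁ L₃ w : ℝ} {m q p : M} (hm : m ∈ B) (hq : q ∈ B) (hp : p ∈ A)
    (h₁ : IsGeo γ₁ L₁ m q) (h₃ : IsGeo γ₃ L₃ m p) (h' : IsGeo γ' w q p) (s₁ : Std A B γ₁ L₁) (s₃ : Std A B γ₃ L₃)
    (s' : Std A B γ' w) (hL₁ : 0 < L₁) (hL₃ : 0 < L₃) (hw : 0 < w) : TriUA γ₁ γ₃ γ' L₁ L₃ w := by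
  have T := (R8_tri1 h hp hm hq h₃.symm h'.symm h₁ (R8_rev s₃) (R8_rev s') s₁ hL₃ hw hL₁).swapAB.swapBC
  rwa [rev_rev, rev_rev] at T

theorem std_ua (h : Glue A B) {γ₁ γ₃ : ℝ → M} {L₁ L₃ : ℝ} {m q p : M} (hm : m ∈ A ∪ B) (hq : q ∈ A ∪ B) (hp : p ∈ A ∪ B)
    (h₁ : IsGeo γ₁ L₁ m q) (h₃ : IsGeo γ₃ L₃ m p) (s₁ : Std A B γ₁ L₁) (s₃ : Std A B γ₃ L₃) (hL₁ : 0 < L₁) (hL₃ : 0 < L₃)
    (hqp : q ≠ p) : UA γ₁ γ₃ (co L₁ L₃ (dist q p)) := by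
  obtain ⟨γ', h', s'⟩ := std_exists h hq hp
  have hw : 0 < dist q p := dist_pos.mpr hqp
  have t₁ := R8_symm s₁
  have t₃ := R8_symm s₃
  have t' := R8_symm s'
  have T : TriUA γ₁ γ₃ γ' L₁ L₃ (dist q p) := by
    rcases hm with hm | hm
    · rcases hq with hq | hq
      · rcases hp with hp | hp
        · exact R8_tri0 h hm hq hp h₁ h₃ h' s₁ s₃ s' hL₁ hL₃ hw
        · exact R8_tri3 h.symm hm hq hp h₁ h₃ h' t₁ t₃ t' hL₁ hL₃ hw
      · rcases hp with hp | hp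
        · exact R8_tri2 h.symm hm hq hp h₁ h₃ h' t₁ t₃ t' hL₁ hL₃ hw
        · exact R8_tri1 h hm hq hp h₁ h₃ h' s₁ s₃ s' hL₁ hL₃ hw
    · rcases hq with hq | hq
      · rcases hp with hp | hp
        · exact R8_tri1 h.symm hm hq hp h₁ h₃ h' t₁ t₃ t' hL₁ hL₃ hw
        · exact R8_tri2 h hm hq hp h₁ h₃ h' s₁ s₃ s' hL₁ hL₃ hw
      · rcases hp with hp | hp
        · exact R8_tri3 h hm hq hp h₁ h₃ h' s₁ s₃ s' hL₁ hL₃ hw
        · exact R8_tri0 h.symm hm hq hp h₁ h₃ h' t₁ t₃ t' hL₁ hL₃ hw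
  exact T.atA

omit [MetricSpace M] in
private theorem R8_mem {γ : ℝ → M} {L : ℝ} (h : Std A B γ L) : ∀ s ∈ Icc (0 : ℝ) L, γ s ∈ A ∪ B := by
  intro s hs
  rcases h with h | h | ⟨s₁, hs₁, h1, h2⟩ | ⟨s₁, hs₁, h1, h2⟩
  · exact Or.inl (h s hs)
  · exact Or.inr (h s hs)
  · rcases le_total s s₁ with hh | hh
    · exact Or.inl (h1 s ⟨hs.1, hh⟩)
    · exact Or.inr (h2 s ⟨hh, hs.2⟩)
  · rcases le_total s s₁ with hh | hh
    · exact Or.inr (h1 s ⟨hs.1, hh⟩)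
    · exact Or.inl (h2 s ⟨hh, hs.2⟩)

private theorem R8_cn (h : Glue A B) {q r m p : M} (hq : q ∈ A ∪ B) (hr : r ∈ A ∪ B) (hm : m ∈ A ∪ B) (hp : p ∈ A ∪ B)
    (e1 : dist q m = dist q r / 2) (e2 : dist r m = dist q r / 2) :
    dist p m ^ 2 ≤ (dist p q ^ 2 + dist p r ^ 2) / 2 - dist q r ^ 2 / 4 := by
  by_cases hqr : q = r
  · subst hqr
    rw [dist_self] at e1 ⊢
    have hqm : q = m := dist_eq_zero.mp (by rw [e1]; norm_num)
    subst hqm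
    linarith
  by_cases hpm : p = m
  · subst hpm
    rw [dist_comm p q, dist_comm p r, e1, e2, dist_self]
    nlinarith
  by_cases hpq : p = q
  · subst hpq
    rw [e1, dist_self]
    nlinarith
  by_cases hpr : p = r
  · subst hpr
    rw [e2, dist_self, dist_comm q p]
    nlinarith
  have hD : 0 < dist q r := dist_pos.mpr hqr
  obtain ⟨D, hDe⟩ : ∃ D, D = dist q r / 2 := ⟨_, rfl⟩
  have hDp : 0 < D := by rw [hDe]; linarith
  have hl : 0 < dist m p := dist_pos.mpr (fun e => hpm e.symm)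
  obtain ⟨γ₁, g1, s1⟩ := std_exists h hm hq
  obtain ⟨γ₂, g2, s2⟩ := std_exists h hm hr
  obtain ⟨γ₃, g3, s3⟩ := std_exists h hm hp
  have f1 : dist m q = D := by rw [dist_comm, e1, hDe]
  have f2 : dist m r = D := by rw [dist_comm, e2, hDe]
  rw [f1] at g1 s1
  rw [f2] at g2 s2
  obtain ⟨γ, g, c1, c2⟩ := g1.symm.concat g2 (by rw [hDe]; ring)
  have u1 := std_ua h hm hq hp g1 g3 s1 s3 hDp hl (fun e => hpq e.symm)
  have u2 := std_ua h hm hr hp g2 g3 s2 s3 hDp hl (fun e => hpr e.symm)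
  have hγD : γ D = m := by
    have := c2 0 ⟨le_refl _, hDp.le⟩
    rw [add_zero] at this
    rw [this, g2.left]
  have v1 : UA (fun t => γ (D - t)) γ₃ (co D (dist m p) (dist q p)) := by
    refine u1.congr hDp ?_ (fun _ _ _ => rfl)
    intro s hs0 hs1
    show γ (D - s) = γ₁ s
    rw [c1 (D - s) ⟨by linarith, by linarith⟩]
    show γ₁ (D - (D - s)) = γ₁ s
    congr 1
    ring
  have v2 : UA (fun t => γ (D + t)) γ₃ (co D (dist m p) (dist r p)) := by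
    refine u2.congr hDp ?_ (fun _ _ _ => rfl)
    intro s hs0 hs1
    exact c2 s ⟨hs0.le, hs1.le⟩
  have key := ua_opposite (m := D) g hDp (by linarith) (by rw [hγD]; exact g3) hl v1 v2
  unfold co at key
  rw [← add_div] at key
  have hden : 0 < 2 * D * dist m p := by positivity
  have key2 : (D ^ 2 + dist m p ^ 2 - dist q p ^ 2) + (D ^ 2 + dist m p ^ 2 - dist r p ^ 2) ≤ 0 := by
    by_contra hcon
    push Not at hcon
    exact absurd key (not_le.mpr (div_pos hcon hden))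
  rw [dist_comm p m, dist_comm p q, dist_comm p r]
  rw [hDe] at key2
  nlinarith

/-- Reshetnyak's gluing theorem -/
theorem glue (h : Glue A B) : LibBD85.IsCAT0 ↥(A ∪ B) where
  geodesic := by
    intro x y
    obtain ⟨γ, g, s⟩ := std_exists h x.2 y.2
    have hm := R8_mem s
    classical
    obtain ⟨δ, e⟩ : ∃ δ : ℝ → ↥(A ∪ B), ∀ t ∈ Icc (0 : ℝ) (dist x y), (δ t : M) = γ t :=
      ⟨fun t => if ht : γ t ∈ A ∪ B then ⟨γ t, ht⟩ else x, fun t ht => by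
        show ((if ht : γ t ∈ A ∪ B then (⟨γ t, ht⟩ : ↥(A ∪ B)) else x : ↥(A ∪ B)) : M) = γ t
        have h1 : (if ht : γ t ∈ A ∪ B then (⟨γ t, ht⟩ : ↥(A ∪ B)) else x) = ⟨γ t, hm t ht⟩ := dif_pos _
        rw [h1]⟩
    have h0 : (0 : ℝ) ≤ dist x y := dist_nonneg
    refine ⟨δ, ?_, ?_, ?_⟩
    · apply Subtype.ext
      exact (e 0 ⟨le_refl _, h0⟩).trans g.left
    · apply Subtype.ext
      exact (e (dist x y) ⟨h0, le_refl _⟩).trans g.right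
    · intro a ha b hb
      rw [Subtype.dist_eq, e a ha, e b hb]
      exact g.iso a ha b hb
  cn := by
    intro q r m e1 e2 p
    exact R8_cn h q.2 r.2 m.2 p.2 e1 e2

end Pool.Agent.LibCF24
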