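import Pool.Agent.LibCF24.Defs

/-! Row S1 (SHORT/MEDIUM). The chain distance is a pseudo-metric. ONLY Defs.

`Ch.trans`, `Ch.symm` by induction (`symm`: append the reversed step `cons v b a _ _ (nil _)` at the end). `exists_ch`: `x ∈ range (f u)`, `y ∈ range (f w)`;
by induction on a walk from `u` to `w` (`T` connected) using `ne` for every edge. `cd_*`: `sInf` of a nonempty set bounded below by `0`.
`lip`: induction on the chain, then `sInf`. `map_le`: map the chain (`φ` need not be bijective). -/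

set_option autoImplicit false

noncomputable section

open Set

namespace Pool.Agent.LibCF24

variable {V Ω : Type} {T : SimpleGraph V} {Z : V → Type} [∀ v, MetricSpace (Z v)] {f : ∀ v, Z v → Ω}

private theorem S1_cast {x y : Ω} {ℓ ℓ' : ℝ} (h : Ch f x y ℓ) (e : ℓ = ℓ') : Ch f x y ℓ' := e ▸ h

private theorem S1_step (v : V) (a b : Z v) : Ch f (f v a) (f v b) (dist a b) :=
  S1_cast (Ch.cons v a b _ 0 (Ch.nil _)) (add_zero _)

theorem Ch.nonneg {x y : Ω} {ℓ : ℝ} (h : Ch f x y ℓ) : 0 ≤ ℓ := by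
  induction h with
  | nil x => exact le_rfl
  | cons v a b y ℓ _ ih => exact add_nonneg dist_nonneg ih

theorem Ch.trans {x y z : Ω} {ℓ₁ ℓ₂ : ℝ} (h₁ : Ch f x y ℓ₁) (h₂ : Ch f y z ℓ₂) : Ch f x z (ℓ₁ + ℓ₂) := by
  induction h₁ with
  | nil x => exact S1_cast h₂ (zero_add _).symm
  | cons v a b y ℓ _ ih => exact S1_cast (Ch.cons v a b _ _ (ih h₂)) (add_assoc _ _ _).symm

theorem Ch.symm {x y : Ω} {ℓ : ℝ} (h : Ch f x y ℓ) : Ch f y x ℓ := by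
  induction h with
  | nil x => exact Ch.nil x
  | cons v a b y ℓ _ ih =>
    exact S1_cast (ih.trans (S1_step v b a)) (by rw [dist_comm, add_comm])

theorem Tr.exists_ch (h : Tr T Z f) (x y : Ω) : ∃ ℓ, Ch f x y ℓ := by
  obtain ⟨u, a, rfl⟩ := h.cover x
  obtain ⟨w, b, rfl⟩ := h.cover y
  obtain ⟨p⟩ := h.tree.connected.preconnected u w
  induction p with
  | nil => exact ⟨_, S1_step _ a b⟩
  | cons hadj p ih =>
    obtain ⟨c, c', hc⟩ := h.ne _ _ hadj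
    obtain ⟨ℓ, hℓ⟩ := ih c' b
    rw [hc] at hℓ
    exact ⟨_, Ch.cons _ a c _ _ hℓ⟩

theorem cd_nonneg (x y : Ω) : 0 ≤ cd f x y := by
  exact Real.sInf_nonneg fun ℓ hℓ => Ch.nonneg hℓ

theorem cd_self (x : Ω) : cd f x x = 0 := by
  exact le_antisymm (csInf_le ⟨0, fun ℓ hℓ => Ch.nonneg hℓ⟩ (Ch.nil x)) (cd_nonneg x x)

theorem cd_comm (x y : Ω) : cd f x y = cd f y x := by
  unfold cd
  congr 1
  ext ℓ
  exact ⟨Ch.symm, Ch.symm⟩

theorem cd_le_of_ch {x y : Ω} {ℓ : ℝ} (h : Ch f x y ℓ) : cd f x y ≤ ℓ := by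
  exact csInf_le ⟨0, fun ℓ hℓ => Ch.nonneg hℓ⟩ h

theorem cd_le (v : V) (a b : Z v) : cd f (f v a) (f v b) ≤ dist a b := by
  exact cd_le_of_ch (S1_step v a b)

theorem Tr.exists_ch_lt (h : Tr T Z f) (x y : Ω) {ε : ℝ} (hε : 0 < ε) : ∃ ℓ, ℓ < cd f x y + ε ∧ Ch f x y ℓ := by
  obtain ⟨ℓ₀, h₀⟩ := h.exists_ch x y
  obtain ⟨ℓ, hℓ, hlt⟩ := exists_lt_of_csInf_lt (s := {ℓ | Ch f x y ℓ}) ⟨ℓ₀, h₀⟩
    (lt_add_of_pos_right (sInf {ℓ | Ch f x y ℓ}) hε)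
  exact ⟨ℓ, hlt, hℓ⟩

theorem Tr.cd_tri (h : Tr T Z f) (x y z : Ω) : cd f x z ≤ cd f x y + cd f y z := by
  refine le_of_forall_pos_le_add fun ε hε => ?_
  obtain ⟨ℓ₁, h1, h1'⟩ := h.exists_ch_lt x y (half_pos hε)
  obtain ⟨ℓ₂, h2, h2'⟩ := h.exists_ch_lt y z (half_pos hε)
  have := cd_le_of_ch (h1'.trans h2')
  linarith

/-- a map which is 1-Lipschitz on every piece is 1-Lipschitz -/
theorem Tr.lip (h : Tr T Z f) {W : Type} [MetricSpace W] (g : Ω → W)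
    (hg : ∀ (v : V) (a b : Z v), dist (g (f v a)) (g (f v b)) ≤ dist a b) (x y : Ω) : dist (g x) (g y) ≤ cd f x y := by
  obtain ⟨ℓ₀, h₀⟩ := h.exists_ch x y
  refine le_csInf ⟨ℓ₀, h₀⟩ fun ℓ hℓ => ?_
  have hℓ' : Ch f x y ℓ := hℓ
  clear hℓ h₀
  induction hℓ' with
  | nil x => rw [dist_self]
  | cons v a b y ℓ _ ih =>
    exact (dist_triangle _ (g (f v b)) _).trans (add_le_add (hg v a b) ih)

/-- a map which maps pieces to pieces by 1-Lipschitz maps is 1-Lipschitz -/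
theorem Tr.map_le (h : Tr T Z f) (φ : Ω → Ω)
    (hφ : ∀ v : V, ∃ (v' : V) (ψ : Z v → Z v'), (∀ a b, dist (ψ a) (ψ b) ≤ dist a b) ∧ ∀ a, φ (f v a) = f v' (ψ a))
    (x y : Ω) : cd f (φ x) (φ y) ≤ cd f x y := by
  obtain ⟨ℓ₀, h₀⟩ := h.exists_ch x y
  refine le_csInf ⟨ℓ₀, h₀⟩ fun ℓ hℓ => ?_
  have hℓ' : Ch f x y ℓ := hℓ
  clear hℓ h₀
  induction hℓ' with
  | nil x => rw [cd_self]
  | cons v a b y ℓ _ ih =>
    refine (h.cd_tri _ (φ (f v b)) _).trans (add_le_add ?_ ih)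
    obtain ⟨v', ψ, h1, h2⟩ := hφ v
    rw [h2, h2]
    exact (cd_le v' _ _).trans (h1 a b)

end Pool.Agent.LibCF24
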