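import Pool.Agent.LibCF24.Defs

/-! Row S2 (MEDIUM). Chains along walks. ONLY Defs.

`WCh.ch`: induction on the walk. `WCh.start`: change of the first point, by cases (`dist a' c ≤ dist a' a + dist a c`). `WCh.append`: induction on the first walk; at the
end `WCh.start`. `wch_const`: if `x` lies in all pieces along the walk `q`, then the constant chain (`c = a` at every vertex: `dist a a = 0`).
`wch_of_ch`: induction on the chain, for all `u`, `a` with `f u a = x`: `nil`: `f u a = f w b`: take the path from `u` to `w` and `wch_const` (`sep`), length `0`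
(at the last vertex the point is `b` by `inj`). `cons v a₀ b₀`: `f u a = f v a₀`: constant chain along the path from `u` to `v` (ends in `a₀`), the step `dist a₀ b₀`
(`WCh.start`), then the walk from `v` given by the induction hypothesis for `b₀`; join with `WCh.append`. -/

set_option autoImplicit false

noncomputable section

open Set

namespace Pool.Agent.LibCF24

variable {V Ω : Type} {T : SimpleGraph V} {Z : V → Type} [∀ v, MetricSpace (Z v)] {f : ∀ v, Z v → Ω}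

theorem WCh.ch {u w : V} {p : T.Walk u w} {a : Z u} {b : Z w} {ℓ : ℝ} (h : WCh f p a b ℓ) : Ch f (f u a) (f w b) ℓ := by
  induction h with
  | nil u a b =>
    have h1 := Ch.cons (f := f) u a b (f u b) 0 (Ch.nil _)
    rwa [add_zero] at h1
  | cons h p a c c' b ℓ he hw ih =>
    refine Ch.cons _ a c _ ℓ ?_
    rw [he]
    exact ih

theorem WCh.nonneg {u w : V} {p : T.Walk u w} {a : Z u} {b : Z w} {ℓ : ℝ} (h : WCh f p a b ℓ) : 0 ≤ ℓ := by
  induction h with
  | nil u a b => exact dist_nonneg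
  | cons h p a c c' b ℓ he hw ih => exact add_nonneg dist_nonneg ih

theorem WCh.start {u w : V} {p : T.Walk u w} {a : Z u} {b : Z w} {ℓ : ℝ} (h : WCh f p a b ℓ) (a' : Z u) :
    ∃ ℓ' ≤ dist a' a + ℓ, WCh f p a' b ℓ' := by
  induction h with
  | nil u a b => exact ⟨dist a' b, dist_triangle _ _ _, WCh.nil _ _ _⟩
  | cons h p a c c' b ℓ he hw ih =>
    refine ⟨dist a' c + ℓ, ?_, WCh.cons h p a' c c' b ℓ he hw⟩
    have h1 := dist_triangle a' a c
    linarith

theorem WCh.append {u v w : V} {p : T.Walk u v} {q : T.Walk v w} {a : Z u} {b : Z v} {c : Z w} {ℓ₁ ℓ₂ : ℝ}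
    (h₁ : WCh f p a b ℓ₁) (h₂ : WCh f q b c ℓ₂) : ∃ ℓ' ≤ ℓ₁ + ℓ₂, WCh f (p.append q) a c ℓ' := by
  induction h₁ with
  | nil u a b =>
    rw [SimpleGraph.Walk.nil_append]
    exact h₂.start a
  | cons h p a c0 c' b ℓ he hw ih =>
    obtain ⟨ℓ', hl, h1⟩ := ih h₂
    rw [SimpleGraph.Walk.cons_append]
    exact ⟨dist a c0 + ℓ', by linarith, WCh.cons h _ a c0 c' _ ℓ' he h1⟩

theorem wch_const (hinj : ∀ v, Function.Injective (f v)) {u w : V} (q : T.Walk u w) (a : Z u) (b : Z w) (he : f u a = f w b)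
    (hq : ∀ v ∈ q.support, f u a ∈ range (f v)) : ∃ ℓ ≤ 0, WCh f q a b ℓ := by
  induction q with
  | nil =>
    refine ⟨dist a b, ?_, WCh.nil _ a b⟩
    rw [hinj _ he, dist_self]
  | cons h p ih =>
    obtain ⟨c', hc'⟩ := hq _ (List.mem_cons_of_mem _ p.start_mem_support)
    obtain ⟨ℓ, hl, h1⟩ := ih c' b (hc'.trans he) (fun x hx => by
      rw [hc']
      exact hq x (List.mem_cons_of_mem _ hx))
    refine ⟨dist a a + ℓ, ?_, WCh.cons h p a a c' b ℓ hc'.symm h1⟩
    rw [dist_self]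
    linarith

theorem Tr.wch_of_ch (h : Tr T Z f) {u w : V} {a : Z u} {b : Z w} {ℓ : ℝ} (hc : Ch f (f u a) (f w b) ℓ) :
    ∃ p : T.Walk u w, ∃ ℓ' ≤ ℓ, WCh f p a b ℓ' := by
  classical
  have hpath : ∀ (u w : V) (a : Z u) (b : Z w), f u a = f w b →
      ∃ p : T.Walk u w, ∃ ℓ' ≤ 0, WCh f p a b ℓ' := by
    intro u w a b he
    obtain ⟨p0⟩ := h.tree.1 u w
    refine ⟨p0.toPath.1, ?_⟩
    exact wch_const h.inj _ a b he
      (fun v hv => h.sep (f u a) u w ⟨a, rfl⟩ ⟨b, he.symm⟩ p0.toPath.1 p0.toPath.2 v hv)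
  obtain ⟨x, hx⟩ : ∃ x, x = f u a := ⟨_, rfl⟩
  obtain ⟨y, hy⟩ : ∃ y, y = f w b := ⟨_, rfl⟩
  rw [← hx, ← hy] at hc
  induction hc generalizing u with
  | nil x => exact hpath u w a b (hx.symm.trans hy)
  | cons v a₀ b₀ y ℓ hch ih =>
    obtain ⟨p, ℓ', hl', h1⟩ := ih rfl hy
    obtain ⟨q, ℓ₁, hl1, h2⟩ := hpath u v a a₀ hx.symm
    obtain ⟨ℓ₂, hl2, h3⟩ := h1.start a₀
    obtain ⟨ℓ₃, hl3, h4⟩ := h2.append h3
    exact ⟨q.append p, ℓ₃, by linarith, h4⟩

/-- split off the last edge -/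
theorem WCh.concat_split {u v w : V} {p : T.Walk u v} {h : T.Adj v w} {a : Z u} {b : Z w} {ℓ : ℝ}
    (hw : WCh f (p.concat h) a b ℓ) :
    ∃ (c : Z v) (c' : Z w) (ℓ' : ℝ), f v c = f w c' ∧ WCh f p a c ℓ' ∧ ℓ = ℓ' + dist c' b := by
  induction p generalizing ℓ with
  | nil =>
    rw [SimpleGraph.Walk.concat_nil] at hw
    cases hw with
    | cons _ _ _ c c' _ ℓ0 he hw' =>
      cases hw' with
      | nil => exact ⟨c, c', dist a c, he, WCh.nil _ a c, rfl⟩
  | cons h0 p ih =>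
    rw [SimpleGraph.Walk.concat_cons] at hw
    cases hw with
    | cons _ _ _ c c' _ ℓ0 he hw' =>
      obtain ⟨c2, c2', ℓ', he2, hw2, hl⟩ := ih hw'
      refine ⟨c2, c2', dist a c + ℓ', he2, WCh.cons h0 p a c c' c2 ℓ' he hw2, ?_⟩
      rw [hl]
      ring

end Pool.Agent.LibCF24
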