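import Pool.Agent.LibCF24.S1
import Pool.Agent.LibCF24.S2

/-! Row S3 (MEDIUM/STRONG). Reduction of walks to paths; the chain distance extends the metrics of the pieces. Defs, S1, S2.

`wch_path`: induction on the walk `p` (generalising `a`, `ℓ`, `q`). `nil`: the only path from `u` to `u` is `nil`. `p = cons (h : Adj u v) p'`: let `q'` be the path from `v` to `w`
(`tree`), and by induction `p'` may be replaced by `q'`: `WCh f q' c' b ℓ''`. If `u ∉ q'.support`: `cons h q'` is the path, so it is `q` (uniqueness). If `u ∈ q'.support`: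
in a tree `q'` starts with the edge `v u` (the path from `v` to `u` is that edge: `q'.takeUntil u` is a path from `v` to `u`, so equal to `cons h.symm nil`), hence `q' = cons h.symm q` (the rest is a path
from `u` to `w`, so it is `q`). The chain is: `a → c` in `u`, `f u c = f v c'`, `c' → d` in `v`, `f v d = f u d'`, then `WCh f q d' b _`. By `agree`,
`dist c' d = dist c d'` in `Z u`; so `WCh.start` for `q` with `a`: `dist a d' ≤ dist a c + dist c d'`.
`cd_eq`: `≤` is `cd_le`; `≥`: for every chain `wch_of_ch` and `wch_path` with `q = nil`: `dist a b ≤ ℓ`. -/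

set_option autoImplicit false

noncomputable section

open Set

namespace Pool.Agent.LibCF24

variable {V Ω : Type} {T : SimpleGraph V} {Z : V → Type} [∀ v, MetricSpace (Z v)] {f : ∀ v, Z v → Ω}

theorem Tr.wch_path (h : Tr T Z f) {u w : V} {p : T.Walk u w} {a : Z u} {b : Z w} {ℓ : ℝ} (hw : WCh f p a b ℓ)
    (q : T.Walk u w) (hq : q.IsPath) : ∃ ℓ' ≤ ℓ, WCh f q a b ℓ' := by
  classical
  induction hw with
  | nil u a b =>
    have hq' := SimpleGraph.Walk.eq_nil_iff_nil.2 (SimpleGraph.Walk.isPath_iff_nil.1 hq)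
    subst hq'
    exact ⟨dist a b, le_rfl, WCh.nil u a b⟩
  | @cons u v w hadj p' a c c' b ℓ hcc hw' ih =>
    by_cases hv : v ∈ q.support
    · have hd : (q.dropUntil v hv).IsPath := hq.dropUntil hv
      have ht : (q.takeUntil v hv).IsPath := hq.takeUntil hv
      have hc : (SimpleGraph.Walk.cons hadj SimpleGraph.Walk.nil : T.Walk u v).IsPath := by
        simp [SimpleGraph.Walk.cons_isPath_iff, hadj.ne]
      have he := congrArg Subtype.val ((h.tree.isAcyclic.subsingleton_path u v).elim ⟨_, ht⟩ ⟨_, hc⟩)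
      simp only at he
      have hqq : q = SimpleGraph.Walk.cons hadj (q.dropUntil v hv) := by
        conv_lhs => rw [← q.take_spec hv, he]
        rfl
      obtain ⟨ℓ', hℓ', hw''⟩ := ih (q.dropUntil v hv) hd
      rw [hqq]
      exact ⟨dist a c + ℓ', by linarith, WCh.cons hadj _ a c c' b ℓ' hcc hw''⟩
    · obtain ⟨ℓ'', hℓ'', hw''⟩ := ih (SimpleGraph.Walk.cons hadj.symm q)
        ((SimpleGraph.Walk.cons_isPath_iff _ _).2 ⟨hq, hv⟩)
      cases hw'' with
      | cons _ _ _ d d' _ ℓ₃ hdd hw₃ =>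
        obtain ⟨ℓ', hℓ', hw₄⟩ := hw₃.start a
        refine ⟨ℓ', ?_, hw₄⟩
        have h1 := h.agree u v hadj c d' c' d hcc hdd.symm
        have h2 := dist_triangle a c d'
        linarith

theorem Tr.cd_eq (h : Tr T Z f) (v : V) (a b : Z v) : cd f (f v a) (f v b) = dist a b := by
  refine le_antisymm (cd_le v a b) ?_
  refine le_of_forall_pos_le_add fun ε hε => ?_
  obtain ⟨ℓ, hℓ, hc⟩ := h.exists_ch_lt (f v a) (f v b) hε
  obtain ⟨p, ℓ', hℓ', hw⟩ := h.wch_of_ch hc
  obtain ⟨ℓ₂, hℓ₂, hw₂⟩ := h.wch_path hw SimpleGraph.Walk.nil SimpleGraph.Walk.IsPath.nil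
  cases hw₂ with
  | nil => linarith

end Pool.Agent.LibCF24
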