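import Pool.Agent.LibCF24.S3

/-! Row S4 (MEDIUM/STRONG). The chain distance is attained through the last edge of the path; positivity. Defs, S1, S2, S3.

`through`: `x = f u a`. On the set `I = {c' : Z w | f w c' ∈ range (f v)}` (nonempty by `ne w v`) let `F c' = cd f x (f v c) + dist c' b`, where `f v c = f w c'`,
i.e. `F c' = cd f x (f w c') + dist c' b`. `F` is continuous (`c' ↦ cd f x (f w c')` is 1-Lipschitz by `cd_tri` and `cd_le`). `cd f x (f w b) ≤ F c'` for all `c' ∈ I` (`cd_tri`, `cd_le`).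
Conversely every chain from `x` to `f w b` of length `ℓ` gives `wch_of_ch`, `wch_path` for the path `p.concat hvw`, `concat_split`: `c' ∈ I` with `F c' ≤ ℓ`.
So `cd f x (f w b) = inf F`. The set `{c' ∈ I | dist c' b ≤ cd f x (f w b) + 1}` is compact (`h.compact w v`), not empty, and `F` attains its minimum on it; outside
`F > cd + 1`. `cd_pos`: induction on the length of the path from `u` to `w` (write a path of positive length as `p.concat h`: `SimpleGraph.Walk.concatRec` or induction on the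
reversed path): `through` gives `dist c' b = 0`, so `b = c'`, `f w b = f v c`, and `cd (f u a) (f v c) = 0`. -/

set_option autoImplicit false

noncomputable section

open Set

namespace Pool.Agent.LibCF24

variable {V Ω : Type} {T : SimpleGraph V} {Z : V → Type} [∀ v, MetricSpace (Z v)] {f : ∀ v, Z v → Ω}

theorem Tr.through (h : Tr T Z f) {u v w : V} (p : T.Walk u v) (hvw : T.Adj v w) (hp : (p.concat hvw).IsPath)
    (a : Z u) (b : Z w) :
    ∃ (c : Z v) (c' : Z w), f v c = f w c' ∧ cd f (f u a) (f w b) = cd f (f u a) (f v c) + dist c' b := by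
  obtain ⟨D, hD⟩ : ∃ D, D = cd f (f u a) (f w b) := ⟨_, rfl⟩
  obtain ⟨F, hF⟩ : ∃ F : Z w → ℝ, ∀ c', F c' = cd f (f u a) (f w c') + dist c' b := ⟨_, fun _ => rfl⟩
  have h1 : ∀ c', D ≤ F c' := fun c' => by
    rw [hD, hF]
    have k1 := h.cd_tri (f u a) (f w c') (f w b)
    have k2 := cd_le (f := f) w c' b
    linarith
  have h2 : ∀ ε > 0, ∃ c', f w c' ∈ range (f v) ∧ F c' < D + ε := by
    intro ε hε
    obtain ⟨ℓ, hℓ, hc⟩ := h.exists_ch_lt (f u a) (f w b) hε
    obtain ⟨p', ℓ', hℓ', hw⟩ := h.wch_of_ch hc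
    obtain ⟨ℓ'', hℓ'', hw'⟩ := h.wch_path hw (p.concat hvw) hp
    obtain ⟨c, c', ℓ₃, hcc, hw₃, he⟩ := hw'.concat_split
    refine ⟨c', ⟨c, hcc⟩, ?_⟩
    have k1 := cd_le_of_ch hw₃.ch
    rw [hcc] at k1
    rw [hF, hD]
    linarith
  have hKc : IsCompact {c : Z w | f w c ∈ range (f v) ∧ dist c b ≤ D + 1} :=
    h.compact w v hvw.symm b (D + 1)
  have hle : ∀ c', dist c' b ≤ F c' := fun c' => by
    rw [hF]
    have := cd_nonneg (f := f) (f u a) (f w c')
    linarith
  have hKne : {c : Z w | f w c ∈ range (f v) ∧ dist c b ≤ D + 1}.Nonempty := by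
    obtain ⟨c', hc', hFc⟩ := h2 1 one_pos
    exact ⟨c', hc', (hle c').trans hFc.le⟩
  have hcont : Continuous F := by
    have hl : LipschitzWith 1 (fun c' : Z w => cd f (f u a) (f w c')) := by
      refine LipschitzWith.of_le_add fun c₁ c₂ => ?_
      have k1 := h.cd_tri (f u a) (f w c₂) (f w c₁)
      have k2 := cd_le (f := f) w c₂ c₁
      rw [dist_comm c₂ c₁] at k2
      linarith
    have hF' : F = fun c' => cd f (f u a) (f w c') + dist c' b := funext hF
    rw [hF']
    exact hl.continuous.add (continuous_id.dist continuous_const)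
  obtain ⟨c₀, hc₀, hmin⟩ := hKc.exists_isMinOn hKne hcont.continuousOn
  have hFD : F c₀ = D := by
    refine le_antisymm ?_ (h1 c₀)
    by_contra hcon
    push Not at hcon
    obtain ⟨c', hc', hlt⟩ := h2 (min 1 (F c₀ - D)) (lt_min one_pos (by linarith))
    have k1 : F c' < D + 1 := hlt.trans_le (by linarith [min_le_left 1 (F c₀ - D)])
    have k2 : F c' < F c₀ := hlt.trans_le (by linarith [min_le_right 1 (F c₀ - D)])
    have k3 : F c₀ ≤ F c' := hmin ⟨hc', (hle c').trans k1.le⟩
    linarith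
  obtain ⟨c, hc⟩ := hc₀.1
  refine ⟨c, c₀, hc, ?_⟩
  rw [← hD, ← hFD, hF, hc]

private theorem S4_pos (h : Tr T Z f) {u w : V} (q : T.Walk u w) : q.IsPath →
    ∀ (a : Z u) (b : Z w), cd f (f u a) (f w b) = 0 → f u a = f w b := by
  induction q using SimpleGraph.Walk.concatRec with
  | Hnil =>
    intro _ a b hab
    rw [h.cd_eq] at hab
    rw [dist_eq_zero.1 hab]
  | Hconcat p hvw ih =>
    intro hp a b hab
    have hp' : p.IsPath := by
      rw [SimpleGraph.Walk.concat_eq_append] at hp
      exact hp.of_append_left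
    obtain ⟨c, c', hcc, he⟩ := h.through p hvw hp a b
    rw [hab] at he
    have k1 := cd_nonneg (f := f) (f _ a) (f _ c)
    have k2 : 0 ≤ dist c' b := dist_nonneg
    have k3 : dist c' b = 0 := by linarith
    have k4 : cd f (f _ a) (f _ c) = 0 := by linarith
    rw [ih hp' a c k4, hcc, dist_eq_zero.1 k3]

theorem Tr.eq_of_cd (h : Tr T Z f) {x y : Ω} (hxy : cd f x y = 0) : x = y := by
  obtain ⟨u, a, rfl⟩ := h.cover x
  obtain ⟨w, b, rfl⟩ := h.cover y
  obtain ⟨q, hq, -⟩ := h.tree.existsUnique_path u w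
  exact S4_pos h q hq a b hxy

end Pool.Agent.LibCF24
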