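import Pool.Agent.LibCF24.S4

/-! S5: the metric of a tree of spaces (definition, complete). -/

set_option autoImplicit false

noncomputable section

open Set

namespace Pool.Agent.LibCF24

variable {V Ω : Type} {T : SimpleGraph V} {Z : V → Type} [∀ v, MetricSpace (Z v)] {f : ∀ v, Z v → Ω}

/-- the chain metric of a tree of spaces -/
@[reducible] def Tr.metric (h : Tr T Z f) : MetricSpace Ω where
  dist := cd f
  dist_self := cd_self
  dist_comm := cd_comm
  dist_triangle := h.cd_tri
  eq_of_dist_eq_zero := h.eq_of_cd

theorem Tr.isometry (h : Tr T Z f) (v : V) :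
    letI := h.metric
    Isometry (f v) := by
  letI := h.metric
  exact Isometry.of_dist_eq (fun a b => h.cd_eq v a b)

end Pool.Agent.LibCF24
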