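import Pool.Agent.LibCF24.Defs

/-! Row S6 (MEDIUM). Finite subtrees of a tree. ONLY Defs.

`FS.path`: by induction on `FS`: any two vertices of `F` are joined by a path with support in `F` (new vertex `w`: concatenate the path to `v` with the edge `v w`;
it is a path since `w ∉ F`). `FS.concat`: the path inside `F` from `v'` to `v`, followed by `v w`.
`FS.exists`: induction on the finite set: `F ⊇` the old set, `FS T F`, new vertex `w`: take a walk from some `v ∈ F` to `w` and induct on it: every walk starting in `F` can be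
covered: `∀ (p : T.Walk v w), v ∈ F → FS T F → ∃ F' ⊇ F, FS T F' ∧ w ∈ F'` (if the second vertex is in `F` go on, otherwise `FS.add`). -/

set_option autoImplicit false

noncomputable section

open Set

namespace Pool.Agent.LibCF24

variable {V : Type} {T : SimpleGraph V}

theorem FS.path {F : Finset V} (hF : FS T F) {a b : V} (ha : a ∈ F) (hb : b ∈ F) :
    ∃ p : T.Walk a b, p.IsPath ∧ ∀ v ∈ p.support, v ∈ F := by
  classical
  induction hF generalizing a b with
  | one v =>
    rw [Finset.mem_singleton] at ha hb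
    subst ha
    subst hb
    exact ⟨SimpleGraph.Walk.nil, SimpleGraph.Walk.IsPath.nil, fun v hv => by
      simpa using hv⟩
  | add F v w hv hw h hF ih =>
    rw [Finset.mem_insert] at ha hb
    rcases ha with rfl | ha
    · rcases hb with rfl | hb
      · exact ⟨SimpleGraph.Walk.nil, SimpleGraph.Walk.IsPath.nil, fun v hv => by
          simp only [SimpleGraph.Walk.support_nil, List.mem_singleton] at hv
          rw [hv]
          exact Finset.mem_insert_self _ _⟩
      · obtain ⟨p, hp, hs⟩ := ih hv hb
        refine ⟨SimpleGraph.Walk.cons h.symm p,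
          (SimpleGraph.Walk.cons_isPath_iff _ _).mpr ⟨hp, fun hm => hw (hs _ hm)⟩, ?_⟩
        intro u hu
        rw [SimpleGraph.Walk.support_cons, List.mem_cons] at hu
        rcases hu with rfl | hu
        · exact Finset.mem_insert_self _ _
        · exact Finset.mem_insert_of_mem (hs u hu)
    · rcases hb with rfl | hb
      · obtain ⟨p, hp, hs⟩ := ih hv ha
        refine ⟨(SimpleGraph.Walk.cons h.symm p).reverse,
          ((SimpleGraph.Walk.cons_isPath_iff _ _).mpr ⟨hp, fun hm => hw (hs _ hm)⟩).reverse, ?_⟩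
        intro u hu
        rw [SimpleGraph.Walk.support_reverse, List.mem_reverse, SimpleGraph.Walk.support_cons,
          List.mem_cons] at hu
        rcases hu with rfl | hu
        · exact Finset.mem_insert_self _ _
        · exact Finset.mem_insert_of_mem (hs u hu)
      · obtain ⟨p, hp, hs⟩ := ih ha hb
        exact ⟨p, hp, fun u hu => Finset.mem_insert_of_mem (hs u hu)⟩

theorem FS.concat {F : Finset V} (hF : FS T F) {v v' w : V} (hv : v ∈ F) (hv' : v' ∈ F) (hw : w ∉ F) (h : T.Adj v w) :
    ∃ p : T.Walk v' v, (p.concat h).IsPath := by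
  obtain ⟨p, hp, hs⟩ := hF.path hv' hv
  exact ⟨p, hp.concat (fun hm => hw (hs w hm)) h⟩

open scoped Classical in
private theorem S6_cover {u w : V} (p : T.Walk u w) : ∀ F : Finset V, FS T F → u ∈ F →
    ∃ F' : Finset V, FS T F' ∧ F ⊆ F' ∧ w ∈ F' := by
  induction p with
  | nil => exact fun F hF hu => ⟨F, hF, Finset.Subset.refl _, hu⟩
  | @cons u v w h p ih =>
    intro F hF hu
    by_cases hv : v ∈ F
    · exact ih F hF hv
    · obtain ⟨F', h1, h2, h3⟩ := ih (insert v F) (FS.add F u v hu hv h hF)
        (Finset.mem_insert_self _ _)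
      exact ⟨F', h1, (Finset.subset_insert _ _).trans h2, h3⟩

theorem FS.exists (hT : T.Connected) (F₀ : Finset V) (hne : F₀.Nonempty) : ∃ F : Finset V, FS T F ∧ F₀ ⊆ F := by
  classical
  obtain ⟨v₀, hv₀⟩ := hne
  clear hv₀
  have key : ∃ F : Finset V, FS T F ∧ v₀ ∈ F ∧ F₀ ⊆ F := by
    induction F₀ using Finset.induction_on with
    | empty => exact ⟨{v₀}, FS.one v₀, Finset.mem_singleton_self _, Finset.empty_subset _⟩
    | insert w S hw ih =>
      obtain ⟨F, h1, h2, h3⟩ := ih
      obtain ⟨p⟩ := hT.preconnected v₀ w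
      obtain ⟨F', h4, h5, h6⟩ := S6_cover p F h1 h2
      exact ⟨F', h4, h5 h2, Finset.insert_subset h6 (h3.trans h5)⟩
  obtain ⟨F, h1, _, h3⟩ := key
  exact ⟨F, h1, h3⟩

end Pool.Agent.LibCF24
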