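import Pool.Agent.LibCF24.R8
import Pool.Agent.LibCF24.S5
import Pool.Agent.LibCF24.S6

/-! Row S7 (MEDIUM/STRONG). The union of a finite subtree of pieces is CAT(0). R2 (`geo_in`), R8 (`glue`), S4, S5, S6 may be cited.

`isCAT0_of_isometry`: transport along an isometry with the given range (geodesics by composition with `f`; in the other direction use surjectivity).
`cat0_FS`: induction on `FS`. `one v`: `US f {v} = range (f v)`. `add F v w`: `US f (insert w F) = US f F ∪ range (f w)`. `Glue (US f F) (range (f w))`: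
`hA`: induction hypothesis; `hB`: `isCAT0_of_isometry`. Intersection: if `x ∈ range (f v')`, `v' ∈ F`, and `x ∈ range (f w)`, then by `FS.concat` the path from `v'` to `w`
passes through `v`, so `x ∈ range (f v)` (`sep`): the intersection is `range (f v) ∩ range (f w)`; `geo` from `Tr.geo v w` (mapped by the isometry `f v`).
`mid`: for `x = f v' a`, `y = f w b`: `through` with the path of `FS.concat`: `z = f v c = f w c'`, `dist c' b = cd (f w c') (f w b)` (`cd_eq`). -/

set_option autoImplicit false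

noncomputable section

open Set

namespace Pool.Agent.LibCF24

theorem isCAT0_of_isometry {A M : Type*} [MetricSpace A] [MetricSpace M] (hA : LibBD85.IsCAT0 A) {g : A → M}
    (hg : Isometry g) : LibBD85.IsCAT0 ↥(range g) := by
  constructor
  · rintro ⟨_, a, rfl⟩ ⟨_, b, rfl⟩
    obtain ⟨γ, h0, h1, h2⟩ := hA.geodesic a b
    have hd : dist (⟨g a, a, rfl⟩ : ↥(range g)) ⟨g b, b, rfl⟩ = dist a b := hg.dist_eq a b
    refine ⟨fun t => ⟨g (γ t), γ t, rfl⟩, ?_, ?_, ?_⟩
    · exact Subtype.ext (congrArg g h0)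
    · rw [hd]
      exact Subtype.ext (congrArg g h1)
    · rw [hd]
      intro s hs t ht
      exact (hg.dist_eq (γ s) (γ t)).trans (h2 s hs t ht)
  · rintro ⟨_, q, rfl⟩ ⟨_, r, rfl⟩ ⟨_, m, rfl⟩ h1 h2 ⟨_, p, rfl⟩
    rw [Subtype.dist_eq, Subtype.dist_eq, hg.dist_eq, hg.dist_eq] at h1 h2
    rw [Subtype.dist_eq, Subtype.dist_eq, Subtype.dist_eq, Subtype.dist_eq, hg.dist_eq,
      hg.dist_eq, hg.dist_eq, hg.dist_eq]
    exact hA.cn q r m h1 h2 p

variable {V Ω : Type} {T : SimpleGraph V} {Z : V → Type} [∀ v, MetricSpace (Z v)] {f : ∀ v, Z v → Ω}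

/-- the union of the pieces of `F` -/
def US (f : ∀ v, Z v → Ω) (F : Finset V) : Set Ω := {x | ∃ v ∈ F, x ∈ range (f v)}

omit [∀ v, MetricSpace (Z v)] in
private theorem S7_US_one (v : V) : US f {v} = range (f v) := by
  ext x
  constructor
  · rintro ⟨v', hv', hx⟩
    rw [Finset.mem_singleton] at hv'
    rw [← hv']
    exact hx
  · intro hx
    exact ⟨v, Finset.mem_singleton_self v, hx⟩

omit [∀ v, MetricSpace (Z v)] in
private theorem S7_US_insert [DecidableEq V] (F : Finset V) (w : V) :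
    US f (insert w F) = US f F ∪ range (f w) := by
  ext x
  constructor
  · rintro ⟨v', hv', hx⟩
    rcases Finset.mem_insert.1 hv' with h | h
    · right
      rw [← h]
      exact hx
    · exact Or.inl ⟨v', h, hx⟩
  · rintro (⟨v', hv', hx⟩ | hx)
    · exact ⟨v', Finset.mem_insert_of_mem hv', hx⟩
    · exact ⟨w, Finset.mem_insert_self w F, hx⟩

/-- a point of the union which is in the new piece is in the neighbouring piece -/
private theorem S7_inter (h : Tr T Z f) {F : Finset V} (hF : FS T F) {v w : V} (hv : v ∈ F)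
    (hw : w ∉ F) (hvw : T.Adj v w) {x : Ω} (hx : x ∈ US f F) (hxw : x ∈ range (f w)) :
    x ∈ range (f v) := by
  obtain ⟨v', hv', hx'⟩ := hx
  obtain ⟨p, hp⟩ := hF.concat hv hv' hw hvw
  refine h.sep x v' w hx' hxw (p.concat hvw) hp v ?_
  rw [SimpleGraph.Walk.support_concat]
  simp

private theorem S7_glue (h : Tr T Z f) {F : Finset V} (hF : FS T F) {v w : V} (hv : v ∈ F)
    (hw : w ∉ F) (hvw : T.Adj v w)
    (ih : letI := h.metric; LibBD85.IsCAT0 ↥(US f F)) :
    letI := h.metric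
    Glue (US f F) (range (f w)) := by
  let _ := h.metric
  have hd : ∀ (u : V) (a b : Z u), dist (f u a) (f u b) = dist a b :=
    fun u a b => (h.isometry u).dist_eq a b
  refine ⟨ih, isCAT0_of_isometry (h.cat0 w) (h.isometry w), ?_, ?_⟩
  · rintro x ⟨hx, hxw⟩ y ⟨hy, hyw⟩
    obtain ⟨a, rfl⟩ := S7_inter h hF hv hw hvw hx hxw
    obtain ⟨b, rfl⟩ := S7_inter h hF hv hw hvw hy hyw
    obtain ⟨γ, hγ, hγw⟩ := h.geo v w hvw a b hxw hyw
    rw [hd]
    refine ⟨fun t => f v (γ t), ⟨hγ.nonneg, ?_, ?_, ?_⟩, fun s hs => ⟨⟨v, hv, γ s, rfl⟩, hγw s hs⟩⟩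
    · exact congrArg (f v) hγ.left
    · exact congrArg (f v) hγ.right
    · intro s hs t ht
      exact (hd v (γ s) (γ t)).trans (hγ.iso s hs t ht)
  · rintro x ⟨v', hv', a, rfl⟩ y ⟨b, rfl⟩
    obtain ⟨p, hp⟩ := hF.concat hv hv' hw hvw
    obtain ⟨c, c', hcc, hdist⟩ := h.through p hvw hp a b
    refine ⟨f v c, ⟨⟨v, hv, c, rfl⟩, c', hcc.symm⟩, ?_⟩
    have h1 : dist (f v c) (f w b) = dist c' b := by
      rw [hcc]
      exact hd w c' b
    rw [h1]
    exact hdist

theorem Tr.cat0_FS (h : Tr T Z f) {F : Finset V} (hF : FS T F) :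
    letI := h.metric
    LibBD85.IsCAT0 ↥(US f F) := by
  classical
  let _ := h.metric
  induction hF with
  | one v =>
    rw [S7_US_one]
    exact isCAT0_of_isometry (h.cat0 v) (h.isometry v)
  | add F v w hv hw hvw hF ih =>
    rw [S7_US_insert]
    exact glue (S7_glue h hF hv hw hvw ih)

end Pool.Agent.LibCF24
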