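import Pool.Agent.LibCF24.MDefs

/-! Row T0 (MEDIUM). A rooted criterion for trees. ONLY Mathlib.

`h1`: every vertex `v ≠ r` is adjacent to its parent, which has smaller depth; `h2`: every edge joins a vertex to its parent. Connected: induction on `dep`. Acyclic: a cycle has a vertex `v`
of maximal depth; both of its neighbours on the cycle have, by `h2` and maximality, to be the parent of `v` (if `v` were the parent of a neighbour `w`, `dep w > dep v`); but the two neighbours of a
vertex on a cycle are different. (Or: uniqueness of paths by induction on `dep u + dep w`: the path from `u` to `w`, `u ≠ w`, with `dep u ≥ dep w`, must start with the edge to the parent of `u`: otherwise it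
goes down to a child, and a path that starts downwards can never come back: the first vertex where the depth decreases would repeat a vertex.) -/

set_option autoImplicit false

noncomputable section

open Set

namespace Pool.Agent.LibCF24

private theorem T0_closed {V : Type} {T : SimpleGraph V} {r : V} {par : V → V}
    (h2 : ∀ v w, T.Adj v w → (v ≠ r ∧ w = par v) ∨ (w ≠ r ∧ v = par w)) {v u w : V}
    (hu : ∃ n : ℕ, par^[n] u = v ∧ ∀ k < n, par^[k] u ≠ r)
    (h : (T.deleteEdges {s(v, par v)}).Adj u w) :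
    ∃ n : ℕ, par^[n] w = v ∧ ∀ k < n, par^[k] w ≠ r := by
  rw [SimpleGraph.deleteEdges_adj] at h
  obtain ⟨hadj, hne⟩ := h
  obtain ⟨n, hn, hk⟩ := hu
  rcases h2 u w hadj with ⟨_, rfl⟩ | ⟨hw, rfl⟩
  · rcases n with _ | n
    · exact absurd (by rw [Set.mem_singleton_iff, ← hn]; rfl) hne
    · exact ⟨n, hn, fun k hkn => hk (k + 1) (Nat.succ_lt_succ hkn)⟩
  · refine ⟨n + 1, hn, fun k hkn => ?_⟩
    rcases k with _ | k
    · exact hw
    · exact hk k (Nat.lt_of_succ_lt_succ hkn)

private theorem T0_walk {V : Type} {T : SimpleGraph V} {r : V} {par : V → V}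
    (h2 : ∀ v w, T.Adj v w → (v ≠ r ∧ w = par v) ∨ (w ≠ r ∧ v = par w)) {v u w : V}
    (p : (T.deleteEdges {s(v, par v)}).Walk u w)
    (hu : ∃ n : ℕ, par^[n] u = v ∧ ∀ k < n, par^[k] u ≠ r) :
    ∃ n : ℕ, par^[n] w = v ∧ ∀ k < n, par^[k] w ≠ r := by
  induction p with
  | nil => exact hu
  | cons h p ih => exact ih (T0_closed h2 hu h)

private theorem T0_bridge {V : Type} {T : SimpleGraph V} {r : V} {par : V → V} {dep : V → ℕ}
    (h1 : ∀ v, v ≠ r → T.Adj v (par v) ∧ dep (par v) < dep v)
    (h2 : ∀ v w, T.Adj v w → (v ≠ r ∧ w = par v) ∨ (w ≠ r ∧ v = par w)) {v : V} (hv : v ≠ r) :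
    T.IsBridge s(v, par v) := by
  rw [SimpleGraph.isBridge_iff]
  rintro ⟨p⟩
  obtain ⟨n, hn, hk⟩ := T0_walk h2 p ⟨0, rfl, fun k hk => absurd hk (Nat.not_lt_zero k)⟩
  have hle : ∀ m ≤ n, dep (par^[m] (par v)) ≤ dep (par v) := by
    intro m
    induction m with
    | zero => intro _; exact le_refl _
    | succ m ih =>
      intro hm
      rw [Function.iterate_succ_apply']
      exact le_trans (h1 _ (hk m hm)).2.le (ih (Nat.le_of_succ_le hm))
  have := hle n le_rfl
  rw [hn] at this
  exact absurd (h1 v hv).2 (not_lt.mpr this)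

theorem isTree_of_parent {V : Type} (T : SimpleGraph V) (r : V) (par : V → V) (dep : V → ℕ)
    (h1 : ∀ v, v ≠ r → T.Adj v (par v) ∧ dep (par v) < dep v)
    (h2 : ∀ v w, T.Adj v w → (v ≠ r ∧ w = par v) ∨ (w ≠ r ∧ v = par w)) : T.IsTree := by
  have hc : ∀ n : ℕ, ∀ v, dep v ≤ n → T.Reachable v r := by
    intro n
    induction n with
    | zero =>
      intro v hv
      by_cases h : v = r
      · rw [h]
      · exact absurd (h1 v h).2 (by omega)
    | succ n ih =>
      intro v hv
      by_cases h : v = r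
      · rw [h]
      · exact (h1 v h).1.reachable.trans (ih _ (by have := (h1 v h).2; omega))
  haveI : Nonempty V := ⟨r⟩
  have hcon : T.Connected := ⟨fun v w => (hc _ v le_rfl).trans (hc _ w le_rfl).symm⟩
  have hac : T.IsAcyclic := by
    rw [SimpleGraph.isAcyclic_iff_forall_adj_isBridge]
    intro v w hvw
    rcases h2 v w hvw with ⟨hv, rfl⟩ | ⟨hw, rfl⟩
    · exact T0_bridge h1 h2 hv
    · rw [Sym2.eq_swap]
      exact T0_bridge h1 h2 hw
  exact ⟨hcon, hac⟩

end Pool.Agent.LibCF24
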