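import Pool.Agent.LibCF24.T0

/-! Row T1 (MEDIUM). The (subdivided) Cayley graph of a free group is a tree. T0 may be cited.

Root `inl 1`. Let `norm` be the word length. Parent of `inl g`, `g ≠ 1`: the last letter of the reduced word of `g` is `a_i` (then `g = g' a_i`, parent `inr (g', i)`) or `a_i⁻¹`
(then `g = g' a_i⁻¹`, parent `inr (g, i)`), where `norm g' = norm g - 1`. Parent of `inr (g, i)`: the one of `inl g`, `inl (g a_i)` with the smaller `norm` (they differ by exactly one: `g a_i` is reduced as written or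
the last letter of `g` is `a_i⁻¹`). Depth: `dep (inl g) = 2 norm g`, `dep (inr (g, i)) = 2 min + 1`. `h2`: the two neighbours of `inr (g, i)` are `inl g`, `inl (g a_i)`: the one with smaller norm is its parent, and `inr (g, i)` is the parent
of the other one (its last letter is the letter of this edge). -/

set_option autoImplicit false

noncomputable section

open Set

namespace Pool.Agent.LibCF24

/-- the reduced word of the inverse -/
private def T1_wd {k : ℕ} (g : FreeGroup (Fin k)) : List (Fin k × Bool) := (g⁻¹).toWord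

private theorem T1_split {k : ℕ} {h : FreeGroup (Fin k)} {x : Fin k × Bool}
    {tl : List (Fin k × Bool)} (hw : h.toWord = x :: tl) :
    h = FreeGroup.mk [x] * FreeGroup.mk tl ∧ (FreeGroup.mk tl).toWord = tl := by
  constructor
  · rw [FreeGroup.mul_mk, List.singleton_append, ← hw, FreeGroup.mk_toWord]
  · rw [FreeGroup.toWord_mk]
    apply FreeGroup.IsReduced.reduce_eq
    have h1 : FreeGroup.IsReduced (x :: tl) := by
      rw [← hw]
      exact FreeGroup.isReduced_toWord
    exact List.IsChain.tail h1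

private theorem T1_cons {k : ℕ} {h : FreeGroup (Fin k)} {i : Fin k}
    (hh : h.toWord.head? ≠ some (i, true)) :
    ((FreeGroup.of i)⁻¹ * h).toWord = (i, false) :: h.toWord := by
  have h1 : (FreeGroup.of i)⁻¹ * h = FreeGroup.mk ((i, false) :: h.toWord) := by
    rw [← List.singleton_append, ← FreeGroup.mul_mk, FreeGroup.mk_toWord]
    rfl
  rw [h1, FreeGroup.toWord_mk]
  apply FreeGroup.IsReduced.reduce_eq
  have h2 : FreeGroup.IsReduced h.toWord := FreeGroup.isReduced_toWord
  rcases hL : h.toWord with _ | ⟨y, tl⟩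
  · exact FreeGroup.IsReduced.singleton
  · rw [hL] at h2 hh
    refine FreeGroup.isReduced_cons_cons.2 ⟨?_, h2⟩
    intro h3
    obtain ⟨y1, y2⟩ := y
    cases y2 with
    | false => rfl
    | true =>
      exfalso
      apply hh
      change i = y1 at h3
      rw [h3]
      rfl

private theorem T1_K1 {k : ℕ} {g : FreeGroup (Fin k)} {i : Fin k} {tl : List (Fin k × Bool)}
    (hw : T1_wd g = (i, true) :: tl) : T1_wd (g * FreeGroup.of i) = tl := by
  obtain ⟨h1, h2⟩ := T1_split hw
  have h3 : (g * FreeGroup.of i)⁻¹ = FreeGroup.mk tl := by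
    rw [mul_inv_rev, h1]
    exact inv_mul_cancel_left (FreeGroup.of i) _
  unfold T1_wd
  rw [h3, h2]

private theorem T1_K2 {k : ℕ} {g : FreeGroup (Fin k)} {i : Fin k} {tl : List (Fin k × Bool)}
    (hw : T1_wd g = (i, false) :: tl) : T1_wd (g * (FreeGroup.of i)⁻¹) = tl := by
  obtain ⟨h1, h2⟩ := T1_split hw
  have h3 : (g * (FreeGroup.of i)⁻¹)⁻¹ = FreeGroup.mk tl := by
    rw [mul_inv_rev, inv_inv, h1]
    exact mul_inv_cancel_left (FreeGroup.of i) _
  unfold T1_wd
  rw [h3, h2]

private theorem T1_K3 {k : ℕ} {g : FreeGroup (Fin k)} {i : Fin k}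
    (hh : (T1_wd g).head? ≠ some (i, true)) :
    T1_wd (g * FreeGroup.of i) = (i, false) :: T1_wd g := by
  unfold T1_wd at *
  rw [mul_inv_rev]
  exact T1_cons hh

private def T1_pl {k : ℕ} (g : FreeGroup (Fin k)) :
    List (Fin k × Bool) → FreeGroup (Fin k) ⊕ (FreeGroup (Fin k) × Fin k)
  | [] => Sum.inl g
  | (i, true) :: _ => Sum.inr (g, i)
  | (i, false) :: _ => Sum.inr (g * (FreeGroup.of i)⁻¹, i)

private def T1_par {k : ℕ} : FreeGroup (Fin k) ⊕ (FreeGroup (Fin k) × Fin k) →
    FreeGroup (Fin k) ⊕ (FreeGroup (Fin k) × Fin k)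
  | Sum.inl g => T1_pl g (T1_wd g)
  | Sum.inr p => if (T1_wd p.1).head? = some (p.2, true) then Sum.inl (p.1 * FreeGroup.of p.2)
      else Sum.inl p.1

private def T1_dep {k : ℕ} : FreeGroup (Fin k) ⊕ (FreeGroup (Fin k) × Fin k) → ℕ
  | Sum.inl g => 2 * (T1_wd g).length
  | Sum.inr p => 2 * min (T1_wd p.1).length (T1_wd (p.1 * FreeGroup.of p.2)).length + 1

private theorem T1_par_t {k : ℕ} {g : FreeGroup (Fin k)} {i : Fin k} {tl : List (Fin k × Bool)}
    (hw : T1_wd g = (i, true) :: tl) : T1_par (Sum.inl g) = Sum.inr (g, i) := by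
  change T1_pl g (T1_wd g) = _
  rw [hw]
  rfl

private theorem T1_par_f {k : ℕ} {g : FreeGroup (Fin k)} {i : Fin k} {tl : List (Fin k × Bool)}
    (hw : T1_wd g = (i, false) :: tl) :
    T1_par (Sum.inl g) = Sum.inr (g * (FreeGroup.of i)⁻¹, i) := by
  change T1_pl g (T1_wd g) = _
  rw [hw]
  rfl

private theorem T1_par_rt {k : ℕ} {g : FreeGroup (Fin k)} {i : Fin k}
    (hh : (T1_wd g).head? = some (i, true)) :
    T1_par (Sum.inr (g, i)) = Sum.inl (g * FreeGroup.of i) := if_pos hh

private theorem T1_par_rf {k : ℕ} {g : FreeGroup (Fin k)} {i : Fin k}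
    (hh : (T1_wd g).head? ≠ some (i, true)) :
    T1_par (Sum.inr (g, i)) = Sum.inl g := if_neg hh

private theorem T1_head {k : ℕ} {L : List (Fin k × Bool)} {x : Fin k × Bool}
    (h : L.head? = some x) : ∃ tl, L = x :: tl := by
  rcases L with _ | ⟨y, tl⟩
  · exact absurd h (by simp)
  · exact ⟨tl, by simp only [List.head?_cons, Option.some.injEq] at h; rw [h]⟩

private theorem T1_one {k : ℕ} {g : FreeGroup (Fin k)} {x : Fin k × Bool}
    {tl : List (Fin k × Bool)} (hw : T1_wd g = x :: tl) : g ≠ 1 := by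
  rintro rfl
  unfold T1_wd at hw
  rw [inv_one, FreeGroup.toWord_one] at hw
  exact absurd hw (by simp)

theorem cayley_tree (k : ℕ) :
    (bip (fun p : FreeGroup (Fin k) × Fin k => p.1) (fun p => p.1 * FreeGroup.of p.2)).IsTree := by
  refine isTree_of_parent _ (Sum.inl 1) T1_par T1_dep ?_ ?_
  · rintro (g | ⟨g, i⟩) hv
    · rcases hw : T1_wd g with _ | ⟨⟨i, b⟩, tl⟩
      · exfalso
        apply hv
        have h1 : g⁻¹ = 1 := FreeGroup.toWord_eq_nil_iff.1 hw
        rw [inv_eq_one.1 h1]
      · cases b with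
        | true =>
          rw [T1_par_t hw]
          refine ⟨⟨(g, i), g, Or.inl rfl, Or.inl ⟨rfl, rfl⟩⟩, ?_⟩
          change 2 * min (T1_wd g).length (T1_wd (g * FreeGroup.of i)).length + 1 <
            2 * (T1_wd g).length
          rw [T1_K1 hw, hw, List.length_cons]
          omega
        | false =>
          rw [T1_par_f hw]
          refine ⟨⟨(g * (FreeGroup.of i)⁻¹, i), g, Or.inr ?_, Or.inl ⟨rfl, rfl⟩⟩, ?_⟩
          · change g = g * (FreeGroup.of i)⁻¹ * FreeGroup.of i
            rw [inv_mul_cancel_right]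
          · change 2 * min (T1_wd (g * (FreeGroup.of i)⁻¹)).length
              (T1_wd (g * (FreeGroup.of i)⁻¹ * FreeGroup.of i)).length + 1 < 2 * (T1_wd g).length
            rw [inv_mul_cancel_right, T1_K2 hw, hw, List.length_cons]
            omega
    · by_cases hh : (T1_wd g).head? = some (i, true)
      · rw [T1_par_rt hh]
        obtain ⟨tl, hw⟩ := T1_head hh
        refine ⟨⟨(g, i), g * FreeGroup.of i, Or.inr rfl, Or.inr ⟨rfl, rfl⟩⟩, ?_⟩
        change 2 * (T1_wd (g * FreeGroup.of i)).length <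
          2 * min (T1_wd g).length (T1_wd (g * FreeGroup.of i)).length + 1
        rw [T1_K1 hw, hw, List.length_cons]
        omega
      · rw [T1_par_rf hh]
        refine ⟨⟨(g, i), g, Or.inl rfl, Or.inr ⟨rfl, rfl⟩⟩, ?_⟩
        change 2 * (T1_wd g).length <
          2 * min (T1_wd g).length (T1_wd (g * FreeGroup.of i)).length + 1
        rw [T1_K3 hh, List.length_cons]
        omega
  · have key : ∀ (p : FreeGroup (Fin k) × Fin k) (x : FreeGroup (Fin k)),
        (x = p.1 ∨ x = p.1 * FreeGroup.of p.2) →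
        ((Sum.inl x : FreeGroup (Fin k) ⊕ (FreeGroup (Fin k) × Fin k)) ≠ Sum.inl 1 ∧
          Sum.inr p = T1_par (Sum.inl x)) ∨
        ((Sum.inr p : FreeGroup (Fin k) ⊕ (FreeGroup (Fin k) × Fin k)) ≠ Sum.inl 1 ∧
          Sum.inl x = T1_par (Sum.inr p)) := by
      rintro ⟨g, i⟩ x hx
      change x = g ∨ x = g * FreeGroup.of i at hx
      by_cases hh : (T1_wd g).head? = some (i, true)
      · obtain ⟨tl, hw⟩ := T1_head hh
        rcases hx with rfl | rfl
        · left
          exact ⟨fun h => T1_one hw (Sum.inl.inj h), (T1_par_t hw).symm⟩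
        · right
          exact ⟨by simp, (T1_par_rt hh).symm⟩
      · rcases hx with rfl | rfl
        · right
          exact ⟨by simp, (T1_par_rf hh).symm⟩
        · left
          have hw := T1_K3 hh
          refine ⟨fun h => T1_one hw (Sum.inl.inj h), ?_⟩
          rw [T1_par_f hw, mul_inv_cancel_right]
    rintro v w ⟨p, x, hx, ⟨rfl, rfl⟩ | ⟨rfl, rfl⟩⟩
    · exact key p x hx
    · exact (key p x hx).symm

end Pool.Agent.LibCF24
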