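import Pool.Agent.LibCF24.LDefs

/-! Row V2 (MEDIUM). The product of a space of `Fr k` with a line. M1 (`isCAT0_prod`, `isCAT0_univ`).

Action: `g • toLp (y, s) = toLp (g.1 • y, s + h g.1 + τ g.2)`. Isometries: `WithLp.prod_dist_eq_add` (by norm_num) or the squared formula. `PA` at `(y, s)`: `r` from `hPA y`: `dist x (g • x) < r` gives `dist y (g.1 • y) < r`: finitely many `g.1`, and
`|h g.1 + τ g.2| < r` leaves finitely many `g.2` for each of them (`τ > 0`); so the set is finite (subset of a finite union, `Set.Finite.subset` / image of a product of a finite set with an integer interval).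
`CA`: `K` from `hCA`; `K' = toLp '' (K ×ˢ Icc 0 τ)` compact (`WithLp.prod_continuous_toLp` or the homeomorphism); given `(y, s)`: `g` with `g • y ∈ K`, then `n = - ⌊(s + h g) / τ⌋`. -/

set_option autoImplicit false

noncomputable section

open Set
open LibBD85 (IsCAT0)

namespace Pool.Agent.LibCF24

private theorem V2_dist {Y : Type} [MetricSpace Y] (x x' : WithLp 2 (Y × ℝ)) :
    dist x x' = √(dist x.fst x'.fst ^ 2 + dist x.snd x'.snd ^ 2) := by
  rw [WithLp.prod_dist_eq_add (by norm_num), ENNReal.toReal_ofNat, Real.sqrt_eq_rpow]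
  norm_num

private theorem V2_fst {Y : Type} [MetricSpace Y] (x x' : WithLp 2 (Y × ℝ)) :
    dist x.fst x'.fst ≤ dist x x' := by
  rw [V2_dist]
  exact Real.le_sqrt_of_sq_le (by nlinarith [sq_nonneg (dist x.snd x'.snd)])

private theorem V2_snd {Y : Type} [MetricSpace Y] (x x' : WithLp 2 (Y × ℝ)) :
    dist x.snd x'.snd ≤ dist x x' := by
  rw [V2_dist]
  exact Real.le_sqrt_of_sq_le (by nlinarith [sq_nonneg (dist x.fst x'.fst)])

private theorem V2_fin (a r τ : ℝ) (hτ : 0 < τ) :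
    {n : Multiplicative ℤ | |a + τ * ((Multiplicative.toAdd n : ℤ) : ℝ)| < r}.Finite := by
  refine Set.Finite.subset ((Set.finite_Icc ⌊(-r - a) / τ⌋ ⌈(r - a) / τ⌉).preimage
    (f := Multiplicative.toAdd) (Multiplicative.toAdd.injective.injOn)) ?_
  intro n hn
  rw [Set.mem_setOf_eq, abs_lt] at hn
  rw [Set.mem_preimage, Set.mem_Icc]
  constructor
  · have h1 : (-r - a) / τ < ((Multiplicative.toAdd n : ℤ) : ℝ) := by
      rw [div_lt_iff₀ hτ]
      linarith [hn.1]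
    have h2 : ((⌊(-r - a) / τ⌋ : ℤ) : ℝ) ≤ ((Multiplicative.toAdd n : ℤ) : ℝ) := (Int.floor_le _).trans h1.le
    exact_mod_cast h2
  · have h1 : ((Multiplicative.toAdd n : ℤ) : ℝ) < (r - a) / τ := by
      rw [lt_div_iff₀ hτ]
      linarith [hn.2]
    have h2 : ((Multiplicative.toAdd n : ℤ) : ℝ) ≤ ((⌈(r - a) / τ⌉ : ℤ) : ℝ) := h1.le.trans (Int.le_ceil _)
    exact_mod_cast h2

/-- the action on the product -/
@[reducible] private def V2_act {k : ℕ} {Y : Type} [MulAction (Fr k) Y] (h : Fr k → ℝ)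
    (hh : ∀ g g', h (g * g') = h g + h g') (τ : ℝ) : MulAction (Fr k × Multiplicative ℤ) (WithLp 2 (Y × ℝ)) where
  smul g x := WithLp.toLp 2 (g.1 • x.fst, x.snd + h g.1 + τ * ((Multiplicative.toAdd g.2 : ℤ) : ℝ))
  one_smul x := by
    have h1 : h 1 = 0 := by
      have h2 := hh 1 1
      rw [mul_one] at h2
      linarith
    change WithLp.toLp 2 ((1 : Fr k) • x.fst, x.snd + h 1 + τ * ((Multiplicative.toAdd (1 : Multiplicative ℤ) : ℤ) : ℝ)) = x
    rw [one_smul, h1, toAdd_one, Int.cast_zero, mul_zero, add_zero, add_zero]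
    rfl
  mul_smul g g' x := by
    change WithLp.toLp 2 ((g.1 * g'.1) • x.fst, x.snd + h (g.1 * g'.1) +
        τ * ((Multiplicative.toAdd (g.2 * g'.2) : ℤ) : ℝ)) =
      WithLp.toLp 2 (g.1 • g'.1 • x.fst, (x.snd + h g'.1 + τ * ((Multiplicative.toAdd g'.2 : ℤ) : ℝ)) + h g.1 +
        τ * ((Multiplicative.toAdd g.2 : ℤ) : ℝ))
    rw [mul_smul, hh, toAdd_mul, Int.cast_add]
    congr 2
    ring

theorem prod_space {k : ℕ} {Y : Type} [MetricSpace Y] [MulAction (Fr k) Y] (hY : IsCAT0 Y)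
    (hiso : ∀ (g : Fr k) (x x' : Y), dist (g • x) (g • x') = dist x x') (hPA : PA (Fr k) Y) (hCA : CA (Fr k) Y) (h : Fr k → ℝ)
    (hh : ∀ g g', h (g * g') = h g + h g') (τ : ℝ) (hτ : 0 < τ) :
    ∃ (_ : MulAction (Fr k × Multiplicative ℤ) (WithLp 2 (Y × ℝ))),
      (∀ (g : Fr k × Multiplicative ℤ) (y : Y) (s : ℝ), g • (WithLp.toLp 2 (y, s)) =
        WithLp.toLp 2 (g.1 • y, s + h g.1 + τ * ((Multiplicative.toAdd g.2 : ℤ) : ℝ))) ∧ IsCAT0 (WithLp 2 (Y × ℝ)) ∧
      (∀ (g : Fr k × Multiplicative ℤ) (x x' : WithLp 2 (Y × ℝ)), dist (g • x) (g • x') = dist x x') ∧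
      PA (Fr k × Multiplicative ℤ) (WithLp 2 (Y × ℝ)) ∧ CA (Fr k × Multiplicative ℤ) (WithLp 2 (Y × ℝ)) := by
  letI act : MulAction (Fr k × Multiplicative ℤ) (WithLp 2 (Y × ℝ)) := V2_act h hh τ
  have hsm : ∀ (g : Fr k × Multiplicative ℤ) (x : WithLp 2 (Y × ℝ)), g • x =
      WithLp.toLp 2 (g.1 • x.fst, x.snd + h g.1 + τ * ((Multiplicative.toAdd g.2 : ℤ) : ℝ)) := fun g x => rfl
  refine ⟨act, fun g y s => rfl, isCAT0_prod hY isCAT0_univ, ?_, ?_, ?_⟩
  · intro g x x'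
    rw [V2_dist, V2_dist]
    have h1 : dist (g • x).fst (g • x').fst = dist x.fst x'.fst := hiso g.1 x.fst x'.fst
    have h2 : dist (g • x).snd (g • x').snd = dist x.snd x'.snd := by
      change dist (x.snd + h g.1 + τ * ((Multiplicative.toAdd g.2 : ℤ) : ℝ))
        (x'.snd + h g.1 + τ * ((Multiplicative.toAdd g.2 : ℤ) : ℝ)) = _
      rw [dist_add_right, dist_add_right]
    rw [h1, h2]
  · intro x
    obtain ⟨r, hr, hfin⟩ := hPA x.fst
    refine ⟨r, hr, ?_⟩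
    refine Set.Finite.subset (hfin.prod (hfin.biUnion fun a _ => V2_fin (h a) r τ hτ)) ?_
    intro g hg
    rw [Set.mem_setOf_eq] at hg
    have h1 : dist x.fst (g.1 • x.fst) < r := lt_of_le_of_lt (V2_fst x (g • x)) hg
    have h2 : dist x.snd (x.snd + h g.1 + τ * ((Multiplicative.toAdd g.2 : ℤ) : ℝ)) < r :=
      lt_of_le_of_lt (V2_snd x (g • x)) hg
    refine ⟨h1, Set.mem_biUnion (show g.1 ∈ {g : Fr k | dist x.fst (g • x.fst) < r} from h1) ?_⟩
    rw [Set.mem_setOf_eq]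
    rw [Real.dist_eq] at h2
    have h3 : x.snd - (x.snd + h g.1 + τ * ((Multiplicative.toAdd g.2 : ℤ) : ℝ)) =
        -(h g.1 + τ * ((Multiplicative.toAdd g.2 : ℤ) : ℝ)) := by ring
    rw [h3, abs_neg] at h2
    exact h2
  · obtain ⟨K, hK, hKx⟩ := hCA
    refine ⟨WithLp.toLp 2 '' (K ×ˢ Set.Icc (0 : ℝ) τ),
      (hK.prod isCompact_Icc).image (WithLp.prod_continuous_toLp 2 Y ℝ), ?_⟩
    intro x
    obtain ⟨g, hg⟩ := hKx x.fst
    refine ⟨(g, Multiplicative.ofAdd (-⌊(x.snd + h g) / τ⌋)), ?_⟩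
    refine ⟨(g • x.fst, x.snd + h g + τ * ((-⌊(x.snd + h g) / τ⌋ : ℤ) : ℝ)), ⟨hg, ?_⟩, rfl⟩
    have h1 := Int.floor_le ((x.snd + h g) / τ)
    have h2 := (Int.lt_floor_add_one ((x.snd + h g) / τ)).le
    rw [le_div_iff₀ hτ] at h1
    rw [div_le_iff₀ hτ] at h2
    constructor
    · push_cast
      linarith
    · push_cast
      linarith

end Pool.Agent.LibCF24
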