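import Pool.Agent.LibCF24.Q10
import Pool.Agent.LibCF24.QC
import Pool.Agent.LibCF24.V1
import Pool.Agent.LibCF24.V2
import Pool.Agent.LibCF24.V3

/-! Row V4 (MEDIUM/LONG). The space of `Fr k × ℤ`. Q10 (`free_lengths`), QC (`roots_fin`, `comm_of_pow`), V1, V2, V3 may be cited as stated.

Notation `t = (1, ofAdd 1)`, `τ = √(L t) > 0`, `h₀ g = L (g, ofAdd 1) - L (g, 1) - L t` (additive in `g`: `hL.add` with `s = t`), `h g = h₀ g / (2 τ)`, `N g = L (g, 1) - h₀ g ² / (4 τ²) > 0` for `g ≠ 1` (`hd`).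
`roots_fin (Prod.fst '' S)`: `y : Fin m → Fr k`; `free_lengths` with `N (y i)`: `Y`, axes `γ i`, `y i • γ i s = γ i (s + √(N (y i)))`. `X = WithLp 2 (Y × ℝ)` with `prod_space`. `P i u = toLp (γ i (u 0), u 1)` (`plane_iso`).
`(y i, 1)` translates `P i` by `α = (√(N (y i)), h (y i))`, `t` by `β = (0, τ)`; hence `(y i ^ p, ofAdd q)` by `p α + q β` (private lemma: induction / `zpow`), `‖p α + q β‖² = p² L (y i, 1) + p q h₀ (y i) + q² L t = L (y i ^ p, ofAdd q)` (`QL.form`).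
Lines: `s = (g, ofAdd 1)`. `g = 1`: `ℓ u = toLp (y₀, u)`. `g ≠ 1`: `g = x y_i^p x⁻¹`, `s = (x, 1) (y_i^p, ofAdd 1) (x, 1)⁻¹`: `ℓ u = (x, 1) • P i ((u / ‖w‖) w)`, `w = p α + β`, `‖w‖² = L s > 0` (`hL.conj`).
Planes: `c = (c₁, 1)`, `c₁ = x y_i^p x⁻¹`, `p ≠ 0`; `s = (g, ofAdd 1)`, `g` commutes with `c₁`, so `x⁻¹ g x` commutes with `y_i^p`, with `y_i` (`comm_of_pow`), `g = x y_i^r x⁻¹` (`Root`). On `P' u = (x, 1) • P i u`: `c` translates by `γ' = p α`, `s` by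
`ζ' = r α + β`; `‖γ'‖² = L c`, `‖ζ'‖² = L s`, `‖γ' + ζ'‖² = L (c s)`; `γ' 0 ζ' 1 - γ' 1 ζ' 0 = p √(N (y i)) τ ≠ 0`. `P = P' ∘ T` with `T` from `gram_iso`. -/

set_option autoImplicit false

noncomputable section

open Set
open LibBD85 (QLength IsCAT0)

namespace Pool.Agent.LibCF24

private theorem V4_zpow {G X V : Type} [Group G] [MulAction G X] [AddCommGroup V] (P : V → X) (g : G) (a : V)
    (h : ∀ u, g • P u = P (u + a)) (n : ℤ) : ∀ u, g ^ n • P u = P (u + n • a) := by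
  have hinv : ∀ u, g⁻¹ • P u = P (u - a) := by
    intro u
    have h1 := h (u - a)
    rw [sub_add_cancel] at h1
    rw [← h1, inv_smul_smul]
  induction n using Int.induction_on with
  | zero => intro u; simp
  | succ n ih =>
    intro u
    rw [zpow_add_one, mul_smul, h, ih, add_smul, one_smul]
    congr 1
    abel
  | pred n ih =>
    intro u
    rw [zpow_sub_one, mul_smul, hinv, ih, sub_smul, one_smul]
    congr 1
    abel

private theorem V4_dist {Y : Type} [MetricSpace Y] (y : Y) (u v : ℝ) :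
    dist (WithLp.toLp 2 (y, u) : WithLp 2 (Y × ℝ)) (WithLp.toLp 2 (y, v)) = dist u v := by
  rw [WithLp.prod_dist_eq_add (by norm_num)]
  change (dist y y ^ (2 : ENNReal).toReal + dist u v ^ (2 : ENNReal).toReal) ^ (1 / (2 : ENNReal).toReal) = _
  have h2 : (2 : ENNReal).toReal = 2 := by norm_num
  rw [h2, dist_self, Real.zero_rpow two_ne_zero, zero_add, Real.rpow_two, ← Real.sqrt_eq_rpow, Real.sqrt_sq dist_nonneg]

private theorem V4_norm (u : Ed 2) : ‖u‖ ^ 2 = u 0 ^ 2 + u 1 ^ 2 := by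
  rw [EuclideanSpace.norm_sq_eq, Fin.sum_univ_two, Real.norm_eq_abs, Real.norm_eq_abs, sq_abs, sq_abs]

theorem vertex_space {k : ℕ} (L : Fr k × Multiplicative ℤ → ℝ) (hL : QLength L)
    (hd : ∀ g : Fr k, g ≠ 1 → (L (g, Multiplicative.ofAdd 1) - L (g, 1) - L (1, Multiplicative.ofAdd 1)) ^ 2 <
      4 * L (g, 1) * L (1, Multiplicative.ofAdd 1)) (S : Set (Fr k × Multiplicative ℤ)) (hS : S.Finite) :
    ∃ (X : Type) (_ : MetricSpace X) (_ : MulAction (Fr k × Multiplicative ℤ) X), IsCAT0 X ∧ Nonempty X ∧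
      (∀ (g : Fr k × Multiplicative ℤ) (x x' : X), dist (g • x) (g • x') = dist x x') ∧
      PA (Fr k × Multiplicative ℤ) X ∧ CA (Fr k × Multiplicative ℤ) X ∧
      (∀ s ∈ S, s.2 = Multiplicative.ofAdd 1 → ∃ ℓ : ℝ → X, Isometry ℓ ∧ ∀ u, s • ℓ u = ℓ (u + √(L s))) ∧
      (∀ c ∈ S, ∀ s ∈ S, c.2 = 1 → c ≠ 1 → s.2 = Multiplicative.ofAdd 1 → Commute c s →
        ∀ γ ζ : Ed 2, ‖γ‖ ^ 2 = L c → ‖ζ‖ ^ 2 = L s → ‖γ + ζ‖ ^ 2 = L (c * s) →
          ∃ P : Ed 2 → X, Isometry P ∧ (∀ u, c • P u = P (u + γ)) ∧ ∀ u, s • P u = P (u + ζ)) := by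
  classical
  obtain ⟨t, ht⟩ : ∃ t : Fr k × Multiplicative ℤ, t = (1, Multiplicative.ofAdd 1) := ⟨_, rfl⟩
  have ht1 : t ≠ 1 := by
    rw [ht]
    intro h
    have h2 := congrArg Prod.snd h
    simp only [Prod.snd_one] at h2
    exact absurd (Multiplicative.ofAdd.injective (h2.trans ofAdd_zero.symm)) one_ne_zero
  have hLt : 0 < L t := hL.pos t ht1
  obtain ⟨τ, hτdef⟩ : ∃ τ : ℝ, τ = √(L t) := ⟨_, rfl⟩
  have hτ : 0 < τ := by rw [hτdef]; exact Real.sqrt_pos.2 hLt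
  have hτ2 : τ ^ 2 = L t := by rw [hτdef]; exact Real.sq_sqrt hLt.le
  obtain ⟨h0, hh0⟩ : ∃ h0 : Fr k → ℝ, ∀ g, h0 g = L (g, Multiplicative.ofAdd 1) - L (g, 1) - L t := ⟨_, fun _ => rfl⟩
  have hh0add : ∀ g g', h0 (g * g') = h0 g + h0 g' := by
    intro g g'
    have hc : ∀ g : Fr k, Commute ((g, 1) : Fr k × Multiplicative ℤ) t := by
      intro g
      rw [ht]
      show (g, 1) * (1, Multiplicative.ofAdd 1) = (1, Multiplicative.ofAdd 1) * (g, 1)
      simp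
    have h1 := hL.add t (g, 1) (g', 1) (hc g) (hc g')
    have e1 : ∀ g : Fr k, ((g, 1) : Fr k × Multiplicative ℤ) * t = (g, Multiplicative.ofAdd 1) := by
      intro g; rw [ht]; simp
    have e2 : ((g, 1) : Fr k × Multiplicative ℤ) * (g', 1) = (g * g', 1) := by simp
    rw [e2, e1, e1, e1] at h1
    rw [hh0, hh0, hh0]
    exact h1
  have hh01 : h0 1 = 0 := by
    have := hh0add 1 1
    rw [mul_one] at this
    linarith
  obtain ⟨h, hh⟩ : ∃ h : Fr k → ℝ, ∀ g, h g = h0 g / (2 * τ) := ⟨_, fun _ => rfl⟩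
  have hhadd : ∀ g g', h (g * g') = h g + h g' := by
    intro g g'; rw [hh, hh, hh, hh0add]; ring
  have hh1 : h 1 = 0 := by rw [hh, hh01, zero_div]
  obtain ⟨N, hN⟩ : ∃ N : Fr k → ℝ, ∀ g, N g = L (g, 1) - h0 g ^ 2 / (4 * τ ^ 2) := ⟨_, fun _ => rfl⟩
  have hNpos : ∀ g, g ≠ 1 → 0 < N g := by
    intro g hg
    have h1 := hd g hg
    rw [← ht, ← hh0 g] at h1
    rw [hN, sub_pos, div_lt_iff₀ (by positivity), hτ2]
    linarith
  obtain ⟨m, y, hyR, hyC, hyI, hyS⟩ := roots_fin (Prod.fst '' S) (hS.image _)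
  obtain ⟨Y, mY, aY, hY, hYne, hYiso, hYPA, hYCA, hYax⟩ := free_lengths y hyR hyC hyI (fun i => N (y i))
    (fun i => hNpos _ (hyR i).1)
  choose γ hγ hγy using hYax
  obtain ⟨aX, hsm, hXcat, hXiso, hXPA, hXCA⟩ := prod_space hY hYiso hYPA hYCA h hhadd τ hτ
  obtain ⟨y0⟩ := hYne
  obtain ⟨P, hP⟩ : ∃ P : Fin m → Ed 2 → WithLp 2 (Y × ℝ), ∀ i u, P i u = WithLp.toLp 2 (γ i (u 0), u 1) := ⟨_, fun _ _ => rfl⟩
  have hPiso : ∀ i, Isometry (P i) := by
    intro i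
    have h1 := plane_iso (γ i) (hγ i)
    have h2 : P i = fun u : Ed 2 => (WithLp.toLp 2 (γ i (u 0), u 1) : WithLp 2 (Y × ℝ)) := funext (hP i)
    rw [h2]; exact h1
  obtain ⟨α, hα0, hα1⟩ : ∃ α : Fin m → Ed 2, (∀ i, α i 0 = √(N (y i))) ∧ ∀ i, α i 1 = h (y i) :=
    ⟨fun i => WithLp.toLp 2 ![√(N (y i)), h (y i)], fun i => rfl, fun i => rfl⟩
  obtain ⟨β, hβ0, hβ1⟩ : ∃ β : Ed 2, β 0 = 0 ∧ β 1 = τ := ⟨WithLp.toLp 2 ![0, τ], rfl, rfl⟩
  have hA : ∀ i u, ((y i, 1) : Fr k × Multiplicative ℤ) • P i u = P i (u + α i) := by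
    intro i u
    rw [hP, hP, hsm, hγy]
    congr 2
    · simp [hα0]
    · simp [hα1]
  have hB : ∀ i u, t • P i u = P i (u + β) := by
    intro i u
    rw [hP, hP, hsm, ht]
    congr 2
    · simp [hβ0]
    · simp [hβ1, hh1]
  have hpow : ∀ i (p q : ℤ), ((y i ^ p, Multiplicative.ofAdd q) : Fr k × Multiplicative ℤ) =
      ((y i, 1) : Fr k × Multiplicative ℤ) ^ p * t ^ q := by
    intro i p q
    rw [ht]
    ext
    · simp
    · simp [← ofAdd_zsmul]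
  have hT : ∀ i (p q : ℤ) u, ((y i ^ p, Multiplicative.ofAdd q) : Fr k × Multiplicative ℤ) • P i u =
      P i (u + (p • α i + q • β)) := by
    intro i p q u
    rw [hpow, mul_smul, V4_zpow (P i) t β (hB i) q, V4_zpow (P i) _ (α i) (hA i) p]
    congr 1
    abel
  have hcoord : ∀ i (p q : ℤ), (p • α i + q • β) 0 = p * √(N (y i)) ∧ (p • α i + q • β) 1 = p * h (y i) + q * τ := by
    intro i p q
    constructor
    · rw [PiLp.add_apply, PiLp.smul_apply, PiLp.smul_apply, hα0, hβ0, zsmul_eq_mul, zsmul_eq_mul, mul_zero, add_zero]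
    · rw [PiLp.add_apply, PiLp.smul_apply, PiLp.smul_apply, hα1, hβ1, zsmul_eq_mul, zsmul_eq_mul]
  have hnorm : ∀ i (p q : ℤ), ‖p • α i + q • β‖ ^ 2 = L (y i ^ p, Multiplicative.ofAdd q) := by
    intro i p q
    have hc : Commute ((y i, 1) : Fr k × Multiplicative ℤ) t := by
      rw [ht]
      show (y i, 1) * (1, Multiplicative.ofAdd 1) = (1, Multiplicative.ofAdd 1) * (y i, 1)
      simp
    have e1 : ((y i, 1) : Fr k × Multiplicative ℤ) * t = (y i, Multiplicative.ofAdd 1) := by rw [ht]; simp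
    rw [V4_norm, (hcoord i p q).1, (hcoord i p q).2, hpow, QL.form hL _ _ hc, e1, ← hh0, mul_pow,
      Real.sq_sqrt (hNpos _ (hyR i).1).le, hN, hh, ← hτ2]
    field_simp
    ring
  have hconj : ∀ (x : Fr k) i (p q : ℤ), ((x * y i ^ p * x⁻¹, Multiplicative.ofAdd q) : Fr k × Multiplicative ℤ) =
      (x, 1) * (y i ^ p, Multiplicative.ofAdd q) * (x, 1)⁻¹ := by
    intro x i p q
    ext
    · simp
    · simp
  have hLc : ∀ (x : Fr k) i (p q : ℤ), L (x * y i ^ p * x⁻¹, Multiplicative.ofAdd q) = ‖p • α i + q • β‖ ^ 2 := by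
    intro x i p q
    rw [hconj, hL.conj, hnorm]
  have hTc : ∀ (x : Fr k) i (p q : ℤ) u, ((x * y i ^ p * x⁻¹, Multiplicative.ofAdd q) : Fr k × Multiplicative ℤ) •
      ((x, 1) : Fr k × Multiplicative ℤ) • P i u = ((x, 1) : Fr k × Multiplicative ℤ) • P i (u + (p • α i + q • β)) := by
    intro x i p q u
    rw [hconj, mul_smul, mul_smul, inv_smul_smul, hT]
  have hXi : ∀ g : Fr k × Multiplicative ℤ, Isometry (fun x : WithLp 2 (Y × ℝ) => g • x) := fun g =>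
    Isometry.of_dist_eq fun x x' => hXiso g x x'
  refine ⟨WithLp 2 (Y × ℝ), inferInstance, aX, hXcat, ⟨WithLp.toLp 2 (y0, 0)⟩, hXiso, hXPA, hXCA, ?_, ?_⟩
  · rintro ⟨g, z⟩ hs hz
    simp only at hz
    subst hz
    by_cases hg : g = 1
    · subst hg
      refine ⟨fun u => WithLp.toLp 2 (y0, u), ?_, ?_⟩
      · apply Isometry.of_dist_eq
        intro u v
        exact V4_dist y0 u v
      · intro u
        rw [← ht, ← hτdef, hsm, ht]
        simp [hh1]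
    · obtain ⟨i, x, p, hp, hx⟩ := hyS g ⟨_, hs, rfl⟩ hg
      obtain ⟨w, hw⟩ : ∃ w : Ed 2, w = p • α i + (1 : ℤ) • β := ⟨_, rfl⟩
      have hLs : L (g, Multiplicative.ofAdd 1) = ‖w‖ ^ 2 := by rw [hx, hw]; exact hLc x i p 1
      have hspos : 0 < L (g, Multiplicative.ofAdd 1) := by
        apply hL.pos
        intro h1
        exact hg (congrArg Prod.fst h1)
      have hw0 : 0 < ‖w‖ := by
        rw [hLs] at hspos
        exact lt_of_le_of_ne (norm_nonneg _) (fun h1 => by rw [← h1] at hspos; norm_num at hspos)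
      have hsq : √(L (g, Multiplicative.ofAdd 1)) = ‖w‖ := by rw [hLs]; exact Real.sqrt_sq hw0.le
      refine ⟨fun u => ((x, 1) : Fr k × Multiplicative ℤ) • P i ((u / ‖w‖) • w), ?_, ?_⟩
      · refine (hXi (x, 1)).comp ((hPiso i).comp ?_)
        apply Isometry.of_dist_eq
        intro u v
        rw [dist_eq_norm, ← sub_smul, norm_smul, ← sub_div, norm_div, norm_norm, div_mul_cancel₀ _ hw0.ne', dist_eq_norm]
      · intro u
        rw [hsq, hx]
        simp only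
        rw [hTc, ← hw, add_div, div_self hw0.ne', add_smul, one_smul]
  · rintro ⟨c1, c2⟩ hcS ⟨g, z⟩ hsS hc2 hc1 hz hcomm γ' ζ' hn1 hn2 hn3
    simp only at hc2 hz
    subst hc2
    subst hz
    have hc1' : c1 ≠ 1 := by
      intro h1
      exact hc1 (by rw [h1]; rfl)
    obtain ⟨i, x, p, hp, hx⟩ := hyS c1 ⟨_, hcS, rfl⟩ hc1'
    have hcg : Commute c1 g := by
      have h1 := congrArg Prod.fst (show (c1, (1 : Multiplicative ℤ)) * (g, Multiplicative.ofAdd 1) =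
        (g, Multiplicative.ofAdd 1) * (c1, 1) from hcomm)
      exact h1
    have hcy : Commute (x⁻¹ * g * x) (y i ^ p) := by
      have h1 : c1 * g = g * c1 := hcg
      rw [hx] at h1
      show x⁻¹ * g * x * y i ^ p = y i ^ p * (x⁻¹ * g * x)
      have h2 : x⁻¹ * g * x * y i ^ p = x⁻¹ * (g * (x * y i ^ p * x⁻¹)) * x := by group
      rw [h2, ← h1]
      group
    obtain ⟨r, hr⟩ := Subgroup.mem_zpowers_iff.mp ((hyR i).2 _ (comm_of_pow _ _ p hp hcy))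
    have hgx : g = x * y i ^ r * x⁻¹ := by
      rw [hr]; group
    obtain ⟨γ'', hγ''⟩ : ∃ γ'' : Ed 2, γ'' = p • α i + (0 : ℤ) • β := ⟨_, rfl⟩
    obtain ⟨ζ'', hζ''⟩ : ∃ ζ'' : Ed 2, ζ'' = r • α i + (1 : ℤ) • β := ⟨_, rfl⟩
    have k1 : ‖γ'‖ ^ 2 = ‖γ''‖ ^ 2 := by
      rw [hn1, hx, hγ'', ← hLc x i p 0, ofAdd_zero]
    have k2 : ‖ζ'‖ ^ 2 = ‖ζ''‖ ^ 2 := by
      rw [hn2, hgx, hζ'', ← hLc x i r 1]
    have k3 : ‖γ' + ζ'‖ ^ 2 = ‖γ'' + ζ''‖ ^ 2 := by
      have e1 : γ'' + ζ'' = (p + r) • α i + (1 : ℤ) • β := by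
        rw [hγ'', hζ'', add_smul]
        simp only [zero_smul, add_zero]
        abel
      have e2 : ((c1, 1) : Fr k × Multiplicative ℤ) * (g, Multiplicative.ofAdd 1) =
          (x * y i ^ (p + r) * x⁻¹, Multiplicative.ofAdd 1) := by
        rw [hx, hgx, zpow_add]
        ext
        · simp [mul_assoc]
        · simp
      rw [hn3, e2, e1, hLc]
    have hD : γ'' 0 * ζ'' 1 - γ'' 1 * ζ'' 0 ≠ 0 := by
      rw [hγ'', hζ'', (hcoord i p 0).1, (hcoord i p 0).2, (hcoord i r 1).1, (hcoord i r 1).2]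
      have e1 : (p : ℝ) * √(N (y i)) * (r * h (y i) + ((1 : ℤ) : ℝ) * τ) - (p * h (y i) + ((0 : ℤ) : ℝ) * τ) * (r * √(N (y i))) =
          p * √(N (y i)) * τ := by
        push_cast
        ring
      rw [e1]
      have e2 : (p : ℝ) ≠ 0 := by exact_mod_cast hp
      have e3 : √(N (y i)) ≠ 0 := (Real.sqrt_pos.2 (hNpos _ (hyR i).1)).ne'
      exact mul_ne_zero (mul_ne_zero e2 e3) hτ.ne'
    obtain ⟨T, hTi, hTγ, hTζ⟩ := gram_iso γ' ζ' γ'' ζ'' k1 k2 k3 hD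
    refine ⟨fun u => ((x, 1) : Fr k × Multiplicative ℤ) • P i (T u), ?_, ?_, ?_⟩
    · exact (hXi (x, 1)).comp ((hPiso i).comp hTi)
    · intro u
      simp only
      rw [hTγ, hγ'', ← hTc x i p 0 (T u), ofAdd_zero, ← hx]
    · intro u
      simp only
      rw [hTζ, hζ'', ← hTc x i r 1 (T u), ← hgx]

end Pool.Agent.LibCF24
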